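import Pool.Agent.MP_cb3c9c_an.REG.Base

set_option autoImplicit false

open Finset MeasureTheory
open scoped BigOperators

namespace Pool.Agent.MP_cb3c9c_an.REG

open Pool.Agent.MP_cb3c9c_an.TwoBlock

variable {n : ℕ}

open Filter Topology in
/-- `∫_0^∞ c s e^{-st} ds = c / t²` -/
theorem a1_inner1 {c t : ℝ} (hc : 0 ≤ c) (ht : 0 < t) :
    ∫⁻ s in Set.Ioi (0 : ℝ), ENNReal.ofReal (c * (s * Real.exp (-(s * t)))) =
      ENNReal.ofReal (c / t ^ 2) := by
  have hd : ∀ s ∈ Set.Ici (0 : ℝ), HasDerivAt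
      (fun s : ℝ => -(c * ((s / t + 1 / t ^ 2) * Real.exp (-(s * t)))))
      (c * (s * Real.exp (-(s * t)))) s := by
    intro s _
    have h1 : HasDerivAt (fun s : ℝ => -(s * t)) (-t) s := by
      have h0 : HasDerivAt (fun s : ℝ => s * t) t s := by
        simpa using (hasDerivAt_id s).mul_const t
      exact h0.neg
    have h2 : HasDerivAt (fun s : ℝ => s / t + 1 / t ^ 2) (1 / t) s := by
      simpa using ((hasDerivAt_id s).div_const t).add_const (1 / t ^ 2)
    have h3 := ((h2.mul h1.exp).const_mul c).neg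
    refine HasDerivAt.congr_deriv h3 ?_
    field_simp
    ring
  have hpos : ∀ s ∈ Set.Ioi (0 : ℝ), 0 ≤ c * (s * Real.exp (-(s * t))) := by
    intro s hs
    have hs' : (0 : ℝ) < s := hs
    positivity
  have hlim : Tendsto (fun s : ℝ => -(c * ((s / t + 1 / t ^ 2) * Real.exp (-(s * t))))) atTop
      (𝓝 0) := by
    have h1 : Tendsto (fun s : ℝ => s * t) atTop atTop := tendsto_id.atTop_mul_const ht
    have h2 : Tendsto (fun s : ℝ => (s * t) * Real.exp (-(s * t))) atTop (𝓝 0) := by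
      have h3 := (Real.tendsto_pow_mul_exp_neg_atTop_nhds_zero 1).comp h1
      simpa [Function.comp_def] using h3
    have h4 : Tendsto (fun s : ℝ => Real.exp (-(s * t))) atTop (𝓝 0) :=
      Real.tendsto_exp_neg_atTop_nhds_zero.comp h1
    have h5 : Tendsto (fun s : ℝ => -(c / t ^ 2 * ((s * t) * Real.exp (-(s * t)) +
        Real.exp (-(s * t))))) atTop (𝓝 (-(c / t ^ 2 * (0 + 0)))) :=
      ((h2.add h4).const_mul (c / t ^ 2)).neg
    have h6 : -(c / t ^ 2 * (0 + 0)) = (0 : ℝ) := by ring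
    rw [h6] at h5
    refine h5.congr fun s => ?_
    field_simp
  have hint := integrableOn_Ioi_deriv_of_nonneg' hd hpos hlim
  have hval := integral_Ioi_of_hasDerivAt_of_nonneg' hd hpos hlim
  rw [← ofReal_integral_eq_lintegral_ofReal hint
    ((ae_restrict_iff' measurableSet_Ioi).2 (Eventually.of_forall hpos)), hval]
  congr 1
  simp
  ring

open Filter Topology in
/-- `∫_0^∞ (1 - cos (yt)) s e^{-st} dt = y² / (s² + y²)` -/
theorem a1_inner2 {y s : ℝ} (hs : 0 < s) :
    ∫⁻ t in Set.Ioi (0 : ℝ), ENNReal.ofReal ((1 - Real.cos (y * t)) * (s * Real.exp (-(s * t)))) =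
      ENNReal.ofReal (y ^ 2 / (s ^ 2 + y ^ 2)) := by
  have hq : 0 < s ^ 2 + y ^ 2 := by positivity
  have hd : ∀ t ∈ Set.Ici (0 : ℝ), HasDerivAt
      (fun t : ℝ => Real.exp (-(s * t)) * (-1 - s / (s ^ 2 + y ^ 2) *
        (y * Real.sin (y * t) - s * Real.cos (y * t))))
      ((1 - Real.cos (y * t)) * (s * Real.exp (-(s * t)))) t := by
    intro t _
    have h1 : HasDerivAt (fun t : ℝ => -(s * t)) (-s) t := by
      have h0 : HasDerivAt (fun t : ℝ => s * t) s t := by
        simpa using (hasDerivAt_id t).const_mul s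
      exact h0.neg
    have hy : HasDerivAt (fun t : ℝ => y * t) y t := by
      simpa using (hasDerivAt_id t).const_mul y
    have h2 : HasDerivAt (fun t : ℝ => y * Real.sin (y * t) - s * Real.cos (y * t))
        (y * (Real.cos (y * t) * y) - s * (-Real.sin (y * t) * y)) t :=
      (hy.sin.const_mul y).sub (hy.cos.const_mul s)
    have h3 : HasDerivAt (fun t : ℝ => -1 - s / (s ^ 2 + y ^ 2) *
        (y * Real.sin (y * t) - s * Real.cos (y * t)))
        (-(s / (s ^ 2 + y ^ 2) * (y * (Real.cos (y * t) * y) - s * (-Real.sin (y * t) * y)))) t :=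
      (h2.const_mul (s / (s ^ 2 + y ^ 2))).const_sub (-1)
    have h4 := h1.exp.mul h3
    refine HasDerivAt.congr_deriv h4 ?_
    field_simp
    ring
  have hpos : ∀ t ∈ Set.Ioi (0 : ℝ),
      0 ≤ (1 - Real.cos (y * t)) * (s * Real.exp (-(s * t))) := by
    intro t _
    have h1 : 0 ≤ 1 - Real.cos (y * t) := by linarith [Real.cos_le_one (y * t)]
    positivity
  have hlim : Tendsto (fun t : ℝ => Real.exp (-(s * t)) * (-1 - s / (s ^ 2 + y ^ 2) *
        (y * Real.sin (y * t) - s * Real.cos (y * t)))) atTop (𝓝 0) := by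
    have h1 : Tendsto (fun t : ℝ => s * t) atTop atTop := tendsto_id.const_mul_atTop hs
    have h4 : Tendsto (fun t : ℝ => Real.exp (-(s * t))) atTop (𝓝 0) :=
      Real.tendsto_exp_neg_atTop_nhds_zero.comp h1
    have h5 : Tendsto (fun t : ℝ => Real.exp (-(s * t)) *
        (1 + s / (s ^ 2 + y ^ 2) * (|y| + s))) atTop (𝓝 0) := by
      simpa using h4.mul_const (1 + s / (s ^ 2 + y ^ 2) * (|y| + s))
    apply squeeze_zero_norm _ h5
    intro t
    rw [Real.norm_eq_abs, abs_mul, abs_of_pos (Real.exp_pos _)]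
    apply mul_le_mul_of_nonneg_left _ (Real.exp_pos _).le
    have h6 : |y * Real.sin (y * t) - s * Real.cos (y * t)| ≤ |y| + s := by
      refine (abs_sub _ _).trans ?_
      rw [abs_mul, abs_mul, abs_of_pos hs]
      have h7 := Real.abs_sin_le_one (y * t)
      have h8 := Real.abs_cos_le_one (y * t)
      nlinarith [abs_nonneg y]
    have h9 : 0 < s / (s ^ 2 + y ^ 2) := by positivity
    calc |-1 - s / (s ^ 2 + y ^ 2) * (y * Real.sin (y * t) - s * Real.cos (y * t))|
        ≤ |(-1 : ℝ)| + |s / (s ^ 2 + y ^ 2) * (y * Real.sin (y * t) - s * Real.cos (y * t))| :=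
          abs_sub _ _
      _ ≤ 1 + s / (s ^ 2 + y ^ 2) * (|y| + s) := by
          rw [abs_neg, abs_one, abs_mul, abs_of_pos h9]
          gcongr
  have hint := integrableOn_Ioi_deriv_of_nonneg' hd hpos hlim
  have hval := integral_Ioi_of_hasDerivAt_of_nonneg' hd hpos hlim
  rw [← ofReal_integral_eq_lintegral_ofReal hint
    ((ae_restrict_iff' measurableSet_Ioi).2 (Eventually.of_forall hpos)), hval]
  congr 1
  simp only [mul_zero, neg_zero, Real.exp_zero, Real.sin_zero, Real.cos_zero, mul_one, one_mul]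
  field_simp
  ring

open Filter Topology in
/-- `∫_0^∞ y² / (s² + y²) ds = π y / 2` -/
theorem a1_outer {y : ℝ} (hy : 0 < y) :
    ∫⁻ s in Set.Ioi (0 : ℝ), ENNReal.ofReal (y ^ 2 / (s ^ 2 + y ^ 2)) =
      ENNReal.ofReal (Real.pi / 2 * y) := by
  have hd : ∀ s ∈ Set.Ici (0 : ℝ), HasDerivAt (fun s : ℝ => y * Real.arctan (s / y))
      (y ^ 2 / (s ^ 2 + y ^ 2)) s := by
    intro s _
    have h1 : HasDerivAt (fun s : ℝ => s / y) (1 / y) s := by
      simpa using (hasDerivAt_id s).div_const y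
    have h2 := (h1.arctan).const_mul y
    refine HasDerivAt.congr_deriv h2 ?_
    field_simp
    ring
  have hpos : ∀ s ∈ Set.Ioi (0 : ℝ), 0 ≤ y ^ 2 / (s ^ 2 + y ^ 2) := by
    intro s _
    positivity
  have hlim : Tendsto (fun s : ℝ => y * Real.arctan (s / y)) atTop (𝓝 (y * (Real.pi / 2))) := by
    have h1 : Tendsto (fun s : ℝ => s / y) atTop atTop := tendsto_id.atTop_div_const hy
    have h2 : Tendsto Real.arctan atTop (𝓝 (Real.pi / 2)) :=
      Real.tendsto_arctan_atTop.mono_right nhdsWithin_le_nhds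
    exact (h2.comp h1).const_mul y
  have hint := integrableOn_Ioi_deriv_of_nonneg' hd hpos hlim
  have hval := integral_Ioi_of_hasDerivAt_of_nonneg' hd hpos hlim
  rw [← ofReal_integral_eq_lintegral_ofReal hint
    ((ae_restrict_iff' measurableSet_Ioi).2 (Eventually.of_forall hpos)), hval]
  congr 1
  simp
  ring

theorem a1_lint {y : ℝ} (hy : 0 < y) :
    ∫⁻ t in Set.Ioi (0 : ℝ), ENNReal.ofReal ((1 - Real.cos (y * t)) / t ^ 2) =
      ENNReal.ofReal (Real.pi / 2 * y) := by
  calc ∫⁻ t in Set.Ioi (0 : ℝ), ENNReal.ofReal ((1 - Real.cos (y * t)) / t ^ 2)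
      = ∫⁻ t in Set.Ioi (0 : ℝ), ∫⁻ s in Set.Ioi (0 : ℝ),
          ENNReal.ofReal ((1 - Real.cos (y * t)) * (s * Real.exp (-(s * t)))) := by
        apply setLIntegral_congr_fun measurableSet_Ioi
        intro t ht
        exact (a1_inner1 (by linarith [Real.cos_le_one (y * t)]) ht).symm
    _ = ∫⁻ s in Set.Ioi (0 : ℝ), ∫⁻ t in Set.Ioi (0 : ℝ),
          ENNReal.ofReal ((1 - Real.cos (y * t)) * (s * Real.exp (-(s * t)))) := by
        apply lintegral_lintegral_swap
        apply Measurable.aemeasurable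
        apply Measurable.ennreal_ofReal
        have : Continuous (Function.uncurry fun t s : ℝ =>
            (1 - Real.cos (y * t)) * (s * Real.exp (-(s * t)))) := by
          unfold Function.uncurry
          fun_prop
        exact this.measurable
    _ = ∫⁻ s in Set.Ioi (0 : ℝ), ENNReal.ofReal (y ^ 2 / (s ^ 2 + y ^ 2)) := by
        apply setLIntegral_congr_fun measurableSet_Ioi
        intro s hs
        exact a1_inner2 hs
    _ = _ := a1_outer hy

theorem a1_pos {y : ℝ} (hy : 0 < y) :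
    IntegrableOn (fun t : ℝ => (1 - Real.cos (y * t)) / t ^ 2) (Set.Ioi 0) ∧
      ∫ t in Set.Ioi (0 : ℝ), (1 - Real.cos (y * t)) / t ^ 2 = Real.pi / 2 * y := by
  have hnn : 0 ≤ᵐ[volume.restrict (Set.Ioi (0 : ℝ))]
      fun t : ℝ => (1 - Real.cos (y * t)) / t ^ 2 := by
    apply Filter.Eventually.of_forall
    intro t
    have h1 : 0 ≤ 1 - Real.cos (y * t) := by linarith [Real.cos_le_one (y * t)]
    simp only [Pi.zero_apply]
    positivity
  have hmeas : Measurable fun t : ℝ => (1 - Real.cos (y * t)) / t ^ 2 := by fun_prop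
  have hl := a1_lint hy
  constructor
  · refine ⟨hmeas.aestronglyMeasurable, ?_⟩
    rw [hasFiniteIntegral_iff_ofReal hnn, hl]
    exact ENNReal.ofReal_lt_top
  · rw [integral_eq_lintegral_of_nonneg_ae hnn hmeas.aestronglyMeasurable, hl,
      ENNReal.toReal_ofReal (by positivity)]

/-- ROW REG-A1.  `∫_0^∞ (1 - cos (y t)) / t^2 dt = (π/2) |y|`.

PROOF.  By evenness `y ≥ 0`; `y = 0` is trivial.  Integrability: the integrand is continuous on `(0,∞)`,
between `0` and `min (y^2/2) (2/t^2)` (`1 - cos u ≤ u^2/2`).  Value, e.g. one of: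
(a) `1/t^2 = ∫_0^∞ s e^{-st} ds` for `t > 0`; Tonelli (everything is `≥ 0`) gives
`∫_0^∞ s (∫_0^∞ (1 - cos (yt)) e^{-st} dt) ds = ∫_0^∞ s (1/s - s/(s^2+y^2)) ds = ∫_0^∞ y^2/(s^2+y^2) ds = y π/2`
(`integral_Ioi_inv_one_add_sq`, Laplace transform of `cos`: real part of `∫_0^∞ e^{-(s - iy)t} dt`,
`integral_exp_mul_complex_Ioi`);
(b) any route through a known Dirichlet integral in Mathlib (search `sinc`). -/
theorem integral_one_sub_cos (y : ℝ) :
    IntegrableOn (fun t : ℝ => (1 - Real.cos (y * t)) / t ^ 2) (Set.Ioi 0) ∧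
      ∫ t in Set.Ioi (0 : ℝ), (1 - Real.cos (y * t)) / t ^ 2 = Real.pi / 2 * |y| := by
  rcases lt_trichotomy y 0 with hy | hy | hy
  · have h := a1_pos (neg_pos.2 hy)
    have e : ∀ t : ℝ, Real.cos (-y * t) = Real.cos (y * t) := by
      intro t
      rw [neg_mul, Real.cos_neg]
    simp only [e] at h
    rw [abs_of_neg hy]
    exact h
  · subst hy
    simp
  · rw [abs_of_pos hy]
    exact a1_pos hy

end Pool.Agent.MP_cb3c9c_an.REG
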