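import Pool.Agent.MP_cb3c9c_an.REG.A1

set_option autoImplicit false

open Finset MeasureTheory
open scoped BigOperators

namespace Pool.Agent.MP_cb3c9c_an.REG

open Pool.Agent.MP_cb3c9c_an.TwoBlock

variable {n : ℕ}

/-- ROW REG-A2.  Fourier formula for `E |a.x + θ|`.

PROOF.  `Ex` is a finite sum divided by a constant.  By `integral_one_sub_cos` (A1) with
`y = lf a x + θ`: `|lf a x + θ| = (2/π) ∫_0^∞ (1 - cos ((lf a x + θ) t)) / t^2 dt`.  Average over `x`
(`integral_finset_sum`, `integral_div`, integrability from A1 for each `x`) and use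
`Ex_cos_lf a t (θ * t)`: `E cos (t * lf a x + θ t) = cos (θ t) PP a t`. -/
theorem Ex_abs_formula (a : Fin n → ℝ) (θ : ℝ) :
    IntegrableOn (fun t : ℝ => (1 - Real.cos (θ * t) * PP a t) / t ^ 2) (Set.Ioi 0) ∧
      Ex (fun x => |lf a x + θ|) =
        (2 / Real.pi) * ∫ t in Set.Ioi (0 : ℝ), (1 - Real.cos (θ * t) * PP a t) / t ^ 2 := by
  have hI := fun x : Fin n → Bool => integral_one_sub_cos (lf a x + θ)
  have hfun : (fun t : ℝ => (1 - Real.cos (θ * t) * PP a t) / t ^ 2) =
      fun t => (∑ x : Fin n → Bool, (1 - Real.cos ((lf a x + θ) * t)) / t ^ 2) /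
        (Fintype.card (Fin n → Bool) : ℝ) := by
    funext t
    have h1 : Ex (fun x : Fin n → Bool => (1 - Real.cos ((lf a x + θ) * t)) / t ^ 2) =
        (1 - Real.cos (θ * t) * PP a t) / t ^ 2 := by
      have h2 : (fun x : Fin n → Bool => (1 - Real.cos ((lf a x + θ) * t)) / t ^ 2) =
          fun x => (1 / t ^ 2) * ((1 : ℝ) - Real.cos (t * lf a x + θ * t)) := by
        funext x
        rw [show (lf a x + θ) * t = t * lf a x + θ * t by ring]
        ring
      rw [h2, Ex_mul, Ex_sub, Ex_const, Ex_cos_lf]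
      ring
    rw [← h1]
    rfl
  rw [hfun]
  have hint : ∀ x ∈ (univ : Finset (Fin n → Bool)),
      Integrable (fun t : ℝ => (1 - Real.cos ((lf a x + θ) * t)) / t ^ 2)
        (volume.restrict (Set.Ioi 0)) := fun x _ => (hI x).1
  refine ⟨(integrable_finsetSum _ hint).div_const _, ?_⟩
  rw [integral_div, integral_finsetSum _ hint]
  have h3 : ∑ x : Fin n → Bool, ∫ t in Set.Ioi (0 : ℝ), (1 - Real.cos ((lf a x + θ) * t)) / t ^ 2 =
      (Real.pi / 2) * ∑ x : Fin n → Bool, |lf a x + θ| := by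
    rw [Finset.mul_sum]
    exact Finset.sum_congr rfl fun x _ => (hI x).2
  rw [h3]
  have hpi := Real.pi_ne_zero
  unfold Ex
  field_simp

end Pool.Agent.MP_cb3c9c_an.REG
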