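import Pool.Agent.MP_cb3c9c_an.REG.Base

set_option autoImplicit false

open Finset MeasureTheory
open scoped BigOperators

namespace Pool.Agent.MP_cb3c9c_an.REG

open Pool.Agent.MP_cb3c9c_an.TwoBlock

variable {n : ℕ}

lemma A3_int_pow (k : ℕ) : Integrable (fun t : ℝ => t ^ k * Real.exp (-t ^ 2 / 2)) := by
  have h := integrable_rpow_mul_exp_neg_mul_sq (b := 1 / 2) (by norm_num) (s := (k : ℝ))
    (by have : (0 : ℝ) ≤ k := Nat.cast_nonneg k
        linarith)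
  refine h.congr (Filter.Eventually.of_forall fun t => ?_)
  show t ^ (k : ℝ) * Real.exp (-(1 / 2) * t ^ 2) = t ^ k * Real.exp (-t ^ 2 / 2)
  rw [Real.rpow_natCast]
  congr 2
  ring

lemma A3_int0 : Integrable (fun t : ℝ => Real.exp (-t ^ 2 / 2)) := by
  have h := A3_int_pow 0
  simpa using h

lemma A3_lim (k : ℕ) :
    Filter.Tendsto (fun t : ℝ => t ^ k * Real.exp (-t ^ 2 / 2)) Filter.atTop (nhds 0) := by
  refine squeeze_zero' ?_ ?_ (Real.tendsto_pow_mul_exp_neg_atTop_nhds_zero k)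
  · filter_upwards [Filter.eventually_ge_atTop (0 : ℝ)] with t ht
    exact mul_nonneg (pow_nonneg ht _) (Real.exp_pos _).le
  · filter_upwards [Filter.eventually_ge_atTop (2 : ℝ)] with t ht
    apply mul_le_mul_of_nonneg_left _ (pow_nonneg (by linarith) _)
    apply Real.exp_le_exp.mpr
    have h : 0 ≤ t * (t - 2) := mul_nonneg (by linarith) (by linarith)
    nlinarith [h]

lemma A3_deriv (t : ℝ) :
    HasDerivAt (fun t : ℝ => Real.exp (-t ^ 2 / 2)) (-(t * Real.exp (-t ^ 2 / 2))) t := by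
  have h1 : HasDerivAt (fun t : ℝ => -t ^ 2 / 2) (-t) t := by
    have h := ((hasDerivAt_pow 2 t).neg).div_const 2
    refine h.congr_deriv ?_
    norm_num
    ring
  refine h1.exp.congr_deriv ?_
  ring

lemma A3_sqrt : Real.sqrt (Real.pi / (1 / 2)) / 2 = Real.sqrt (Real.pi / 2) := by
  have h : Real.sqrt (Real.pi / 2) = Real.sqrt (Real.pi / (1 / 2) / 2 ^ 2) := by
    congr 1; ring
  rw [h, Real.sqrt_div (x := Real.pi / (1 / 2)) (by positivity) (2 ^ 2),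
    Real.sqrt_sq (by norm_num)]

/-- ROW REG-A3 (five Gaussian integrals).

`∫_0^∞ e^{-t²/2} = √(π/2)`.  PROOF: `integral_gaussian_Ioi (1/2)` (and `integrable_exp_neg_mul_sq`). -/
theorem integral_gauss0 :
    IntegrableOn (fun t : ℝ => Real.exp (-t ^ 2 / 2)) (Set.Ioi 0) ∧
      ∫ t in Set.Ioi (0 : ℝ), Real.exp (-t ^ 2 / 2) = Real.sqrt (Real.pi / 2) := by
  refine ⟨A3_int0.integrableOn, ?_⟩
  rw [← A3_sqrt, ← integral_gaussian_Ioi (1 / 2)]
  congr 1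
  funext t
  congr 1
  ring

/-- `∫_0^∞ t² e^{-t²/2} = √(π/2)`.  PROOF: `-t e^{-t²/2}` has derivative `t² e^{-t²/2} - e^{-t²/2}` and the
limits `0, 0`; `integral_Ioi_of_hasDerivAt_of_tendsto`; integrability from
`integrable_rpow_mul_exp_neg_mul_sq` (or `integrableOn_rpow_mul_exp_neg_mul_sq`). -/
theorem integral_gauss2 :
    IntegrableOn (fun t : ℝ => t ^ 2 * Real.exp (-t ^ 2 / 2)) (Set.Ioi 0) ∧
      ∫ t in Set.Ioi (0 : ℝ), t ^ 2 * Real.exp (-t ^ 2 / 2) = Real.sqrt (Real.pi / 2) := by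
  have i2 : IntegrableOn (fun t : ℝ => t ^ 2 * Real.exp (-t ^ 2 / 2)) (Set.Ioi 0) :=
    (A3_int_pow 2).integrableOn
  have i0 : IntegrableOn (fun t : ℝ => Real.exp (-t ^ 2 / 2)) (Set.Ioi 0) :=
    A3_int0.integrableOn
  refine ⟨i2, ?_⟩
  have hd : ∀ x ∈ Set.Ici (0 : ℝ), HasDerivAt (fun t : ℝ => -(t ^ 1 * Real.exp (-t ^ 2 / 2)))
      (x ^ 2 * Real.exp (-x ^ 2 / 2) - Real.exp (-x ^ 2 / 2)) x := by
    intro x _
    refine (((hasDerivAt_pow 1 x).fun_mul (A3_deriv x)).fun_neg).congr_deriv ?_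
    norm_num
    ring
  have hl : Filter.Tendsto (fun t : ℝ => -(t ^ 1 * Real.exp (-t ^ 2 / 2))) Filter.atTop
      (nhds 0) := by
    simpa using (A3_lim 1).neg
  have h := integral_Ioi_of_hasDerivAt_of_tendsto' hd (i2.sub i0) hl
  rw [integral_sub i2 i0, integral_gauss0.2] at h
  simp only [pow_one, zero_mul, neg_zero, sub_zero] at h
  linarith

/-- `∫_0^∞ t⁶ e^{-t²/2} = 15 √(π/2)`.  PROOF: the same with
`-(t⁵ + 5 t³ + 15 t) e^{-t²/2}`, derivative `t⁶ e^{-t²/2} - 15 e^{-t²/2}`. -/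
theorem integral_gauss6 :
    IntegrableOn (fun t : ℝ => t ^ 6 * Real.exp (-t ^ 2 / 2)) (Set.Ioi 0) ∧
      ∫ t in Set.Ioi (0 : ℝ), t ^ 6 * Real.exp (-t ^ 2 / 2) = 15 * Real.sqrt (Real.pi / 2) := by
  have i6 : IntegrableOn (fun t : ℝ => t ^ 6 * Real.exp (-t ^ 2 / 2)) (Set.Ioi 0) :=
    (A3_int_pow 6).integrableOn
  have i0 : IntegrableOn (fun t : ℝ => 15 * Real.exp (-t ^ 2 / 2)) (Set.Ioi 0) :=
    A3_int0.integrableOn.const_mul 15
  refine ⟨i6, ?_⟩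
  have hd : ∀ x ∈ Set.Ici (0 : ℝ), HasDerivAt
      (fun t : ℝ => -(t ^ 5 * Real.exp (-t ^ 2 / 2) + 5 * (t ^ 3 * Real.exp (-t ^ 2 / 2)) +
        15 * (t ^ 1 * Real.exp (-t ^ 2 / 2))))
      (x ^ 6 * Real.exp (-x ^ 2 / 2) - 15 * Real.exp (-x ^ 2 / 2)) x := by
    intro x _
    have h5 := (hasDerivAt_pow 5 x).fun_mul (A3_deriv x)
    have h3 := ((hasDerivAt_pow 3 x).fun_mul (A3_deriv x)).const_mul (5 : ℝ)
    have h1 := ((hasDerivAt_pow 1 x).fun_mul (A3_deriv x)).const_mul (15 : ℝ)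
    refine (((h5.fun_add h3).fun_add h1).fun_neg).congr_deriv ?_
    norm_num
    ring
  have hl : Filter.Tendsto
      (fun t : ℝ => -(t ^ 5 * Real.exp (-t ^ 2 / 2) + 5 * (t ^ 3 * Real.exp (-t ^ 2 / 2)) +
        15 * (t ^ 1 * Real.exp (-t ^ 2 / 2)))) Filter.atTop (nhds 0) := by
    simpa using (((A3_lim 5).add ((A3_lim 3).const_mul 5)).add ((A3_lim 1).const_mul 15)).neg
  have h := integral_Ioi_of_hasDerivAt_of_tendsto' hd (i6.sub i0) hl
  rw [integral_sub i6 i0, integral_const_mul, integral_gauss0.2] at h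
  have hz : (0 : ℝ) - -((0 : ℝ) ^ 5 * Real.exp (-(0 : ℝ) ^ 2 / 2) +
      5 * ((0 : ℝ) ^ 3 * Real.exp (-(0 : ℝ) ^ 2 / 2)) +
      15 * ((0 : ℝ) ^ 1 * Real.exp (-(0 : ℝ) ^ 2 / 2))) = 0 := by
    simp
  rw [hz] at h
  linarith

lemma A3_one_sub_nonneg (t : ℝ) : 0 ≤ 1 - Real.exp (-t ^ 2 / 2) := by
  have h : Real.exp (-t ^ 2 / 2) ≤ 1 := Real.exp_le_one_iff.mpr (by
    have := sq_nonneg t
    linarith)
  linarith

lemma A3_one_sub_le (t : ℝ) : 1 - Real.exp (-t ^ 2 / 2) ≤ t ^ 2 / 2 := by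
  have h := Real.add_one_le_exp (-t ^ 2 / 2)
  linarith

lemma A3_one_sub_le_one (t : ℝ) : 1 - Real.exp (-t ^ 2 / 2) ≤ 1 := by
  have h := Real.exp_pos (-t ^ 2 / 2)
  linarith

lemma A3_sub_int : IntegrableOn (fun t : ℝ => (1 - Real.exp (-t ^ 2 / 2)) / t ^ 2)
    (Set.Ioi 0) := by
  have hm : Measurable (fun t : ℝ => (1 - Real.exp (-t ^ 2 / 2)) / t ^ 2) := by fun_prop
  have h0 : ∀ t : ℝ, 0 ≤ (1 - Real.exp (-t ^ 2 / 2)) / t ^ 2 := fun t =>
    div_nonneg (A3_one_sub_nonneg t) (sq_nonneg t)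
  rw [← Set.Ioc_union_Ioi_eq_Ioi (zero_le_one : (0 : ℝ) ≤ 1)]
  apply IntegrableOn.union
  · have hc : IntegrableOn (fun _ : ℝ => (1 / 2 : ℝ)) (Set.Ioc 0 1) := by
      simp [integrableOn_const_iff]
    refine Integrable.mono' hc hm.aestronglyMeasurable ?_
    filter_upwards with t
    rw [Real.norm_of_nonneg (h0 t)]
    apply div_le_of_le_mul₀ (sq_nonneg t) (by norm_num)
    have := A3_one_sub_le t
    linarith
  · have hc : IntegrableOn (fun t : ℝ => t ^ (-2 : ℝ)) (Set.Ioi 1) :=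
      integrableOn_Ioi_rpow_of_lt (by norm_num) (by norm_num)
    refine Integrable.mono' hc hm.aestronglyMeasurable ?_
    filter_upwards [ae_restrict_mem measurableSet_Ioi] with t ht
    have ht0 : (0 : ℝ) < t := lt_trans zero_lt_one ht
    rw [Real.norm_of_nonneg (h0 t), Real.rpow_neg ht0.le, Real.rpow_two, ← one_div]
    exact div_le_div_of_nonneg_right (A3_one_sub_le_one t) (sq_nonneg t)

/-- `∫_0^∞ (1 - e^{-t²/2})/t² dt = √(π/2)`.  PROOF: `F t = -(1 - e^{-t²/2})/t` has derivative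
`(1 - e^{-t²/2})/t² - e^{-t²/2}` for `t > 0`, `F → 0` at `0+` (`|F t| ≤ t/2`) and at `∞` (`|F t| ≤ 1/t`);
integrability: the integrand is in `[0, min (1/2) (1/t²)]`. -/
theorem integral_gauss_sub :
    IntegrableOn (fun t : ℝ => (1 - Real.exp (-t ^ 2 / 2)) / t ^ 2) (Set.Ioi 0) ∧
      ∫ t in Set.Ioi (0 : ℝ), (1 - Real.exp (-t ^ 2 / 2)) / t ^ 2 = Real.sqrt (Real.pi / 2) := by
  refine ⟨A3_sub_int, ?_⟩
  have i0 : IntegrableOn (fun t : ℝ => Real.exp (-t ^ 2 / 2)) (Set.Ioi 0) :=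
    A3_int0.integrableOn
  have hd : ∀ x ∈ Set.Ioi (0 : ℝ), HasDerivAt (fun t : ℝ => -((1 - Real.exp (-t ^ 2 / 2)) / t))
      ((1 - Real.exp (-x ^ 2 / 2)) / x ^ 2 - Real.exp (-x ^ 2 / 2)) x := by
    intro x hx
    have hx0 : x ≠ 0 := ne_of_gt hx
    have h1 := (((A3_deriv x).const_sub 1).fun_div (hasDerivAt_id' x) hx0).fun_neg
    refine h1.congr_deriv ?_
    field_simp
    ring
  have hb : ∀ t : ℝ, 0 ≤ t → (1 - Real.exp (-t ^ 2 / 2)) / t ≤ t / 2 := by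
    intro t ht
    apply div_le_of_le_mul₀ ht (by positivity)
    have := A3_one_sub_le t
    nlinarith [this]
  have hl : Filter.Tendsto (fun t : ℝ => -((1 - Real.exp (-t ^ 2 / 2)) / t)) Filter.atTop
      (nhds 0) := by
    have : Filter.Tendsto (fun t : ℝ => ((1 - Real.exp (-t ^ 2 / 2)) / t)) Filter.atTop
        (nhds 0) := by
      refine squeeze_zero' ?_ ?_ tendsto_inv_atTop_zero
      · filter_upwards [Filter.eventually_ge_atTop (0 : ℝ)] with t ht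
        exact div_nonneg (A3_one_sub_nonneg t) ht
      · filter_upwards [Filter.eventually_ge_atTop (0 : ℝ)] with t ht
        rw [← one_div]
        exact div_le_div_of_nonneg_right (A3_one_sub_le_one t) ht
    simpa using this.neg
  have hc : ContinuousWithinAt (fun t : ℝ => -((1 - Real.exp (-t ^ 2 / 2)) / t)) (Set.Ici 0)
      0 := by
    unfold ContinuousWithinAt
    have h : Filter.Tendsto (fun t : ℝ => ((1 - Real.exp (-t ^ 2 / 2)) / t))
        (nhdsWithin 0 (Set.Ici 0)) (nhds 0) := by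
      refine squeeze_zero' ?_ ?_ (g := fun t : ℝ => t / 2) ?_
      · filter_upwards [self_mem_nhdsWithin] with t ht
        exact div_nonneg (A3_one_sub_nonneg t) ht
      · filter_upwards [self_mem_nhdsWithin] with t ht
        exact hb t ht
      · have : Filter.Tendsto (fun t : ℝ => t / 2) (nhds 0) (nhds (0 / 2)) :=
          (continuous_id.div_const 2).tendsto 0
        rw [zero_div] at this
        exact this.mono_left nhdsWithin_le_nhds
    simpa using h.neg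
  have h := integral_Ioi_of_hasDerivAt_of_tendsto hc hd (A3_sub_int.sub i0) hl
  rw [integral_sub A3_sub_int i0, integral_gauss0.2] at h
  simp only [div_zero, neg_zero, sub_zero] at h
  linarith

/-- Tail: for `T ≥ 1`, `∫_T^∞ t² e^{-t²/2} ≤ 2/T`.  PROOF: on `t ≥ T`:
`t² e^{-t²/2} ≤ (1/T) t³ e^{-t²/2}`, and `-(t²+2) e^{-t²/2}` is a primitive of `t³ e^{-t²/2}`, so the integral is
`≤ (1/T) (T²+2) e^{-T²/2} ≤ 2/T`, because `(T²+2) e^{-T²/2} ≤ 2` (`e^{y} ≥ 1 + y`, `y = T²/2`). -/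
theorem tail_gauss2 {T : ℝ} (hT : 1 ≤ T) :
    ∫ t in Set.Ioi T, t ^ 2 * Real.exp (-t ^ 2 / 2) ≤ 2 / T := by
  have hT0 : 0 < T := lt_of_lt_of_le one_pos hT
  have i3 : IntegrableOn (fun t : ℝ => t ^ 3 * Real.exp (-t ^ 2 / 2)) (Set.Ioi T) :=
    (A3_int_pow 3).integrableOn
  have hd : ∀ x ∈ Set.Ici T, HasDerivAt
      (fun t : ℝ => -(t ^ 2 * Real.exp (-t ^ 2 / 2) + 2 * Real.exp (-t ^ 2 / 2)))
      (x ^ 3 * Real.exp (-x ^ 2 / 2)) x := by
    intro x _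
    have h2 := (hasDerivAt_pow 2 x).fun_mul (A3_deriv x)
    have h0 := (A3_deriv x).const_mul (2 : ℝ)
    refine ((h2.fun_add h0).fun_neg).congr_deriv ?_
    norm_num
    ring
  have hl : Filter.Tendsto
      (fun t : ℝ => -(t ^ 2 * Real.exp (-t ^ 2 / 2) + 2 * Real.exp (-t ^ 2 / 2)))
      Filter.atTop (nhds 0) := by
    have h := ((A3_lim 2).add ((A3_lim 0).const_mul 2)).neg
    simpa using h
  have h := integral_Ioi_of_hasDerivAt_of_tendsto' hd i3 hl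
  have hle : ∫ t in Set.Ioi T, t ^ 2 * Real.exp (-t ^ 2 / 2) ≤
      ∫ t in Set.Ioi T, T⁻¹ * (t ^ 3 * Real.exp (-t ^ 2 / 2)) := by
    apply setIntegral_mono_on (A3_int_pow 2).integrableOn (i3.const_mul _) measurableSet_Ioi
    intro t ht
    have ht' : T < t := ht
    have h1 : 1 ≤ T⁻¹ * t := by
      rw [← div_eq_inv_mul, one_le_div hT0]
      exact ht'.le
    have h2 : 0 ≤ t ^ 2 * Real.exp (-t ^ 2 / 2) := by positivity
    calc t ^ 2 * Real.exp (-t ^ 2 / 2) = 1 * (t ^ 2 * Real.exp (-t ^ 2 / 2)) := by ring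
      _ ≤ (T⁻¹ * t) * (t ^ 2 * Real.exp (-t ^ 2 / 2)) := mul_le_mul_of_nonneg_right h1 h2
      _ = T⁻¹ * (t ^ 3 * Real.exp (-t ^ 2 / 2)) := by ring
  refine hle.trans ?_
  rw [integral_const_mul, h, div_eq_inv_mul 2 T]
  apply mul_le_mul_of_nonneg_left _ (inv_nonneg.mpr hT0.le)
  have he : Real.exp (-T ^ 2 / 2) * Real.exp (T ^ 2 / 2) = 1 := by
    rw [← Real.exp_add]
    have : -T ^ 2 / 2 + T ^ 2 / 2 = 0 := by ring
    rw [this, Real.exp_zero]
  have h1 : T ^ 2 / 2 + 1 ≤ Real.exp (T ^ 2 / 2) := Real.add_one_le_exp _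
  have h2 : Real.exp (-T ^ 2 / 2) * (T ^ 2 / 2 + 1) ≤ 1 := by
    exact (mul_le_mul_of_nonneg_left h1 (Real.exp_pos _).le).trans he.le
  linarith

end Pool.Agent.MP_cb3c9c_an.REG
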