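import Pool.Agent.MP_cb3c9c_an.REG.A2
import Pool.Agent.MP_cb3c9c_an.REG.A3

set_option autoImplicit false

open Finset MeasureTheory
open scoped BigOperators

namespace Pool.Agent.MP_cb3c9c_an.REG

open Pool.Agent.MP_cb3c9c_an.TwoBlock

variable {n : ℕ}

lemma A4_sqrt : 2 / Real.pi * Real.sqrt (Real.pi / 2) = Real.sqrt (2 / Real.pi) := by
  have hpi := Real.pi_pos
  have h1 : Real.sqrt (Real.pi / 2) * Real.sqrt (2 / Real.pi) = 1 := by
    rw [← Real.sqrt_mul (by positivity)]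
    have : Real.pi / 2 * (2 / Real.pi) = 1 := by field_simp
    rw [this, Real.sqrt_one]
  have h2 : Real.sqrt (2 / Real.pi) * Real.sqrt (2 / Real.pi) = 2 / Real.pi :=
    Real.mul_self_sqrt (by positivity)
  calc 2 / Real.pi * Real.sqrt (Real.pi / 2)
      = (Real.sqrt (2 / Real.pi) * Real.sqrt (2 / Real.pi)) * Real.sqrt (Real.pi / 2) := by
        rw [h2]
    _ = Real.sqrt (2 / Real.pi) * (Real.sqrt (Real.pi / 2) * Real.sqrt (2 / Real.pi)) := by ring
    _ = Real.sqrt (2 / Real.pi) := by rw [h1, mul_one]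

/-- ROW REG-A4.  `E|a.x| - √(2/π)` as an integral.

PROOF.  `Ex_abs_formula a 0` (A2; `cos (0 * t) = 1`, `DD a = Ex |lf a x|`) and `integral_gauss_sub` (A3):
subtract, `integral_sub`; `(2/π) √(π/2) = √(2/π)`. -/
theorem DD_eq (a : Fin n → ℝ) :
    IntegrableOn (fun t : ℝ => (Real.exp (-t ^ 2 / 2) - PP a t) / t ^ 2) (Set.Ioi 0) ∧
      DD a = Real.sqrt (2 / Real.pi) +
        (2 / Real.pi) * ∫ t in Set.Ioi (0 : ℝ), (Real.exp (-t ^ 2 / 2) - PP a t) / t ^ 2 := by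
  obtain ⟨i1, h1⟩ := Ex_abs_formula a 0
  obtain ⟨i2, h2⟩ := integral_gauss_sub
  have hc : ∀ t : ℝ, Real.cos (0 * t) = 1 := fun t => by rw [zero_mul, Real.cos_zero]
  simp only [hc, one_mul, add_zero] at i1 h1
  have hf : (fun t : ℝ => (Real.exp (-t ^ 2 / 2) - PP a t) / t ^ 2) =
      fun t : ℝ => (1 - PP a t) / t ^ 2 - (1 - Real.exp (-t ^ 2 / 2)) / t ^ 2 := by
    funext t
    rw [← sub_div]
    congr 1
    ring
  constructor
  · rw [hf]
    exact i1.sub i2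
  · rw [hf, integral_sub i1 i2, h2, mul_sub, A4_sqrt, ← h1]
    unfold DD
    ring

end Pool.Agent.MP_cb3c9c_an.REG
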