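import Pool.Agent.MP_cb3c9c_an.REG.Base

set_option autoImplicit false

open Finset MeasureTheory
open scoped BigOperators

namespace Pool.Agent.MP_cb3c9c_an.REG

open Pool.Agent.MP_cb3c9c_an.TwoBlock

variable {n : ℕ}

theorem a5_mul_cos_le {u : ℝ} (h0 : 0 ≤ u) (h1 : u ≤ Real.pi / 2) : u * Real.cos u ≤ Real.sin u := by
  rcases lt_or_eq_of_le h1 with h2 | h2
  · have hc : 0 < Real.cos u := Real.cos_pos_of_mem_Ioo ⟨by linarith [Real.pi_pos], h2⟩
    have h3 := Real.le_tan h0 h2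
    rw [Real.tan_eq_sin_div_cos, le_div_iff₀ hc] at h3
    exact h3
  · rw [h2, Real.cos_pi_div_two, Real.sin_pi_div_two]
    norm_num

theorem a5_aux {u : ℝ} (h0 : 0 ≤ u) (h1 : u ≤ Real.pi / 2) :
    (u + u ^ 3 / 3) * Real.cos u ≤ Real.sin u := by
  have hd : ∀ x : ℝ, HasDerivAt (fun x => Real.sin x - (x + x ^ 3 / 3) * Real.cos x)
      (x * (Real.sin x - x * Real.cos x) + x ^ 3 / 3 * Real.sin x) x := by
    intro x
    have h2 : HasDerivAt (fun x : ℝ => x + x ^ 3 / 3) (1 + x ^ 2) x := by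
      have h3 := (hasDerivAt_id x).add ((hasDerivAt_pow 3 x).div_const 3)
      refine h3.congr_deriv ?_
      norm_num
    have h4 := (Real.hasDerivAt_sin x).sub (h2.mul (Real.hasDerivAt_cos x))
    refine h4.congr_deriv ?_
    ring
  have hm : MonotoneOn (fun x => Real.sin x - (x + x ^ 3 / 3) * Real.cos x)
      (Set.Icc 0 (Real.pi / 2)) := by
    refine monotoneOn_of_deriv_nonneg (convex_Icc _ _)
      (fun x _ => (hd x).continuousAt.continuousWithinAt)
      (fun x _ => (hd x).differentiableAt.differentiableWithinAt) ?_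
    intro x hx
    rw [interior_Icc] at hx
    rw [(hd x).deriv]
    have h2 := a5_mul_cos_le hx.1.le hx.2.le
    have h3 : 0 ≤ Real.sin x := Real.sin_nonneg_of_nonneg_of_le_pi hx.1.le
      (by linarith [hx.2, Real.pi_pos])
    have h4 : 0 ≤ x * (Real.sin x - x * Real.cos x) := mul_nonneg hx.1.le (by linarith)
    have h5 : 0 ≤ x ^ 3 / 3 * Real.sin x :=
      mul_nonneg (div_nonneg (pow_nonneg hx.1.le 3) (by norm_num)) h3
    linarith
  have h2 := hm (Set.left_mem_Icc.mpr (by linarith [Real.pi_pos])) ⟨h0, h1⟩ h0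
  simp only [Real.sin_zero] at h2
  norm_num at h2
  linarith

theorem cos_le_exp4 {u : ℝ} (h : |u| ≤ Real.pi / 2) :
    Real.cos u ≤ Real.exp (-u ^ 2 / 2 - u ^ 4 / 12) := by
  have key : ∀ v : ℝ, 0 ≤ v → v ≤ Real.pi / 2 →
      Real.exp (v ^ 2 / 2 + v ^ 4 / 12) * Real.cos v ≤ 1 := by
    intro v h0 h1
    have hd : ∀ x : ℝ, HasDerivAt (fun x => Real.exp (x ^ 2 / 2 + x ^ 4 / 12) * Real.cos x)
        (Real.exp (x ^ 2 / 2 + x ^ 4 / 12) * ((x + x ^ 3 / 3) * Real.cos x - Real.sin x)) x := by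
      intro x
      have h2 : HasDerivAt (fun x : ℝ => x ^ 2 / 2 + x ^ 4 / 12) (x + x ^ 3 / 3) x := by
        have h3 := ((hasDerivAt_pow 2 x).div_const 2).add ((hasDerivAt_pow 4 x).div_const 12)
        refine h3.congr_deriv ?_
        norm_num
        ring
      have h4 := h2.exp.mul (Real.hasDerivAt_cos x)
      refine h4.congr_deriv ?_
      ring
    have hm : AntitoneOn (fun x => Real.exp (x ^ 2 / 2 + x ^ 4 / 12) * Real.cos x)
        (Set.Icc 0 (Real.pi / 2)) := by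
      refine antitoneOn_of_deriv_nonpos (convex_Icc _ _)
        (fun x _ => (hd x).continuousAt.continuousWithinAt)
        (fun x _ => (hd x).differentiableAt.differentiableWithinAt) ?_
      intro x hx
      rw [interior_Icc] at hx
      rw [(hd x).deriv]
      have h2 := a5_aux hx.1.le hx.2.le
      exact mul_nonpos_of_nonneg_of_nonpos (Real.exp_pos _).le (by linarith)
    have h2 := hm (Set.left_mem_Icc.mpr (by linarith [Real.pi_pos])) ⟨h0, h1⟩ h0
    simp only [Real.cos_zero] at h2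
    norm_num at h2
    exact h2
  have h1 := key |u| (abs_nonneg u) h
  rw [Real.cos_abs, sq_abs, show |u| ^ 4 = u ^ 4 by
    rw [← abs_pow]; exact abs_of_nonneg (by positivity)] at h1
  have h2 : Real.exp (-u ^ 2 / 2 - u ^ 4 / 12) * Real.exp (u ^ 2 / 2 + u ^ 4 / 12) = 1 := by
    rw [← Real.exp_add]
    rw [show -u ^ 2 / 2 - u ^ 4 / 12 + (u ^ 2 / 2 + u ^ 4 / 12) = 0 by ring]
    exact Real.exp_zero
  calc Real.cos u = Real.exp (-u ^ 2 / 2 - u ^ 4 / 12) *
        (Real.exp (u ^ 2 / 2 + u ^ 4 / 12) * Real.cos u) := by rw [← mul_assoc, h2, one_mul]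
    _ ≤ Real.exp (-u ^ 2 / 2 - u ^ 4 / 12) * 1 :=
        mul_le_mul_of_nonneg_left h1 (Real.exp_pos _).le
    _ = _ := mul_one _

theorem exp_le_cos {u : ℝ} (h : |u| ≤ 1) :
    Real.exp (-u ^ 2 / 2 - u ^ 4 / 4) ≤ Real.cos u := by
  set y : ℝ := u ^ 2 / 2 with hy
  have hu : u ^ 2 ≤ 1 := by
    rw [← sq_abs]
    nlinarith [abs_nonneg u]
  have hy0 : 0 ≤ y := by positivity
  have hy1 : y ≤ 1 / 2 := by rw [hy]; linarith
  have he : -u ^ 2 / 2 - u ^ 4 / 4 = -(y + y ^ 2) := by rw [hy]; ring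
  rw [he, Real.exp_neg]
  have h1 : 1 + (y + y ^ 2) + (y + y ^ 2) ^ 2 / 2 ≤ Real.exp (y + y ^ 2) :=
    Real.quadratic_le_exp_of_nonneg (by positivity)
  have h2 : 1 - y ≤ Real.cos u := by
    rw [hy]
    exact Real.one_sub_sq_div_two_le_cos
  refine le_trans ?_ h2
  rw [inv_le_comm₀ (Real.exp_pos _) (by linarith)]
  refine le_trans ?_ h1
  rw [inv_le_iff_one_le_mul₀ (by linarith)]
  have h3 : 2 * y ≤ (1 - y) * (1 + y) ^ 2 := by nlinarith
  have h4 : (1 + (y + y ^ 2) + (y + y ^ 2) ^ 2 / 2) * (1 - y) =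
      1 + y ^ 2 / 2 * ((1 - y) * (1 + y) ^ 2 - 2 * y) := by ring
  rw [h4]
  have h5 : 0 ≤ y ^ 2 / 2 * ((1 - y) * (1 + y) ^ 2 - 2 * y) :=
    mul_nonneg (by positivity) (by linarith)
  linarith

end Pool.Agent.MP_cb3c9c_an.REG
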