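import Pool.Agent.MP_cb3c9c_an.REG.A5

set_option autoImplicit false

open Finset MeasureTheory
open scoped BigOperators

namespace Pool.Agent.MP_cb3c9c_an.REG

open Pool.Agent.MP_cb3c9c_an.TwoBlock

variable {n : ℕ}

lemma a6_le {a : Fin n → ℝ} {δ : ℝ} (h : Reg a δ) {t : ℝ} (ht : |t| ≤ Real.pi / (2 * δ)) (i : Fin n) :
    |a i * t| ≤ Real.pi / 2 := by
  have hδ := h.pos
  rw [abs_mul]
  calc |a i| * |t| ≤ δ * (Real.pi / (2 * δ)) :=
        mul_le_mul (h.le i) ht (abs_nonneg _) hδ.le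
    _ = Real.pi / 2 := by field_simp

lemma a6_cos {a : Fin n → ℝ} {δ : ℝ} (h : Reg a δ) {t : ℝ} (ht : |t| ≤ Real.pi / (2 * δ)) (i : Fin n) :
    0 ≤ Real.cos (a i * t) := by
  have h1 := abs_le.1 (a6_le h ht i)
  exact Real.cos_nonneg_of_neg_pi_div_two_le_of_le (by linarith [h1.1]) h1.2

lemma a6_exp {a : Fin n → ℝ} (h : ∑ i, a i ^ 2 = 1) (t c : ℝ) :
    ∏ i, Real.exp (-(a i * t) ^ 2 / 2 - (a i * t) ^ 4 / c) =
      Real.exp (-t ^ 2 / 2 - kap a * t ^ 4 / c) := by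
  rw [← Real.exp_sum]
  congr 1
  have h1 : ∀ i, -(a i * t) ^ 2 / 2 - (a i * t) ^ 4 / c =
      (-t ^ 2 / 2) * a i ^ 2 - (t ^ 4 / c) * a i ^ 4 := by
    intro i
    ring
  simp only [h1]
  rw [Finset.sum_sub_distrib, ← Finset.mul_sum, ← Finset.mul_sum, h]
  unfold kap
  ring

/-- ROW REG-A6 (near behaviour of the product).

PROOF.  `|a i * t| ≤ δ |t| ≤ π/2`, so all `cos (a i t) ≥ 0` and `cos_le_exp4` (A5) applies to each factor;
multiply (`Finset.prod_le_prod`, `Real.exp_sum`), using `∑ a_i² = 1`, `∑ a_i⁴ = kap a`. -/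
theorem PP_near_upper {a : Fin n → ℝ} {δ : ℝ} (h : Reg a δ) {t : ℝ} (ht : |t| ≤ Real.pi / (2 * δ)) :
    0 ≤ PP a t ∧ PP a t ≤ Real.exp (-t ^ 2 / 2 - kap a * t ^ 4 / 12) := by
  unfold PP
  refine ⟨Finset.prod_nonneg fun i _ => a6_cos h ht i, ?_⟩
  rw [← a6_exp h.unit t 12]
  exact Finset.prod_le_prod (fun i _ => a6_cos h ht i) (fun i _ => cos_le_exp4 (a6_le h ht i))

/-- PROOF.  If `δ |t| ≤ 1`: `exp_le_cos` (A5) for each factor gives
`PP a t ≥ exp (-t²/2 - κ t⁴/4) ≥ e^{-t²/2} (1 - κ t⁴/4) ≥ e^{-t²/2} (1 - κ t⁴)`.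
If `δ |t| > 1`: `κ t⁴ ≥ δ⁴ t⁴ ≥ 1` (`h.kap_ge`), so the left side is `≤ 0 ≤ PP a t` (previous theorem). -/
theorem PP_near_lower {a : Fin n → ℝ} {δ : ℝ} (h : Reg a δ) {t : ℝ} (ht : |t| ≤ Real.pi / (2 * δ)) :
    Real.exp (-t ^ 2 / 2) * (1 - kap a * t ^ 4) ≤ PP a t := by
  have hδ := h.pos
  have hk := h.kap_pos
  rcases le_or_gt (δ * |t|) 1 with h1 | h1
  · have h2 : ∀ i, |a i * t| ≤ 1 := by
      intro i
      rw [abs_mul]
      exact le_trans (mul_le_mul_of_nonneg_right (h.le i) (abs_nonneg _)) h1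
    have h3 : Real.exp (-t ^ 2 / 2 - kap a * t ^ 4 / 4) ≤ PP a t := by
      rw [← a6_exp h.unit t 4]
      unfold PP
      exact Finset.prod_le_prod (fun i _ => (Real.exp_pos _).le) (fun i _ => exp_le_cos (h2 i))
    refine le_trans ?_ h3
    have h4 : Real.exp (-t ^ 2 / 2 - kap a * t ^ 4 / 4) =
        Real.exp (-t ^ 2 / 2) * Real.exp (-(kap a * t ^ 4 / 4)) := by
      rw [← Real.exp_add]
      congr 1
    rw [h4]
    refine mul_le_mul_of_nonneg_left ?_ (Real.exp_pos _).le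
    have h5 := Real.add_one_le_exp (-(kap a * t ^ 4 / 4))
    have h6 : 0 ≤ kap a * t ^ 4 := by positivity
    linarith
  · have h2 : 1 ≤ kap a * t ^ 4 := by
      have h3 : δ ^ 4 * t ^ 4 ≤ kap a * t ^ 4 :=
        mul_le_mul_of_nonneg_right h.kap_ge (by positivity)
      have h4 : (1 : ℝ) ≤ (δ * |t|) ^ 4 := one_le_pow₀ h1.le
      have h5 : (δ * |t|) ^ 4 = δ ^ 4 * t ^ 4 := by
        rw [mul_pow, show |t| ^ 4 = (|t| ^ 2) ^ 2 by ring, sq_abs]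
        ring
      linarith
    have h6 : Real.exp (-t ^ 2 / 2) * (1 - kap a * t ^ 4) ≤ 0 :=
      mul_nonpos_of_nonneg_of_nonpos (Real.exp_pos _).le (by linarith)
    exact h6.trans (PP_near_upper h ht).1

end Pool.Agent.MP_cb3c9c_an.REG
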