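import Pool.Agent.MP_cb3c9c_an.REG.A3
import Pool.Agent.MP_cb3c9c_an.REG.A4
import Pool.Agent.MP_cb3c9c_an.REG.A6

set_option autoImplicit false

open Finset MeasureTheory
open scoped BigOperators

namespace Pool.Agent.MP_cb3c9c_an.REG

open Pool.Agent.MP_cb3c9c_an.TwoBlock

variable {n : ℕ}

lemma a7_exp {y : ℝ} (hy : 0 ≤ y) : Real.exp (-y) ≤ 1 - y + y ^ 2 / 2 := by
  have h1 := Real.quadratic_le_exp_of_nonneg hy
  have h2 : 0 < Real.exp y := Real.exp_pos y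
  have h3 : Real.exp (-y) * Real.exp y = 1 := by rw [← Real.exp_add]; simp
  have h4 : 0 ≤ 1 - y + y ^ 2 / 2 := by nlinarith [sq_nonneg (y - 1)]
  have h5 : 1 ≤ (1 - y + y ^ 2 / 2) * Real.exp y := by
    calc (1 : ℝ) ≤ (1 - y + y ^ 2 / 2) * (1 + y + y ^ 2 / 2) := by nlinarith [sq_nonneg (y ^ 2)]
      _ ≤ _ := mul_le_mul_of_nonneg_left h1 h4
  exact le_of_mul_le_mul_right (h3.le.trans h5) h2

lemma a7_pt {a : Fin n → ℝ} {δ : ℝ} (h : Reg a δ) {t : ℝ} (h0 : 0 < t)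
    (ht : t ≤ Real.pi / (2 * δ)) :
    kap a / 12 * (t ^ 2 * Real.exp (-t ^ 2 / 2)) - kap a ^ 2 / 288 * (t ^ 6 * Real.exp (-t ^ 2 / 2)) ≤
      (Real.exp (-t ^ 2 / 2) - PP a t) / t ^ 2 := by
  have h1 := (PP_near_upper h (t := t) (by rwa [abs_of_pos h0])).2
  have hk := h.kap_pos
  have h2 := a7_exp (y := kap a * t ^ 4 / 12) (by positivity)
  have h3 : Real.exp (-t ^ 2 / 2 - kap a * t ^ 4 / 12) =
      Real.exp (-t ^ 2 / 2) * Real.exp (-(kap a * t ^ 4 / 12)) := by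
    rw [← Real.exp_add]; congr 1
  rw [le_div_iff₀ (by positivity)]
  have h4 : Real.exp (-t ^ 2 / 2) * Real.exp (-(kap a * t ^ 4 / 12)) ≤
      Real.exp (-t ^ 2 / 2) * (1 - kap a * t ^ 4 / 12 + (kap a * t ^ 4 / 12) ^ 2 / 2) :=
    mul_le_mul_of_nonneg_left h2 (Real.exp_pos _).le
  have h5 : (kap a / 12 * (t ^ 2 * Real.exp (-t ^ 2 / 2)) -
      kap a ^ 2 / 288 * (t ^ 6 * Real.exp (-t ^ 2 / 2))) * t ^ 2 =
      Real.exp (-t ^ 2 / 2) - Real.exp (-t ^ 2 / 2) *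
        (1 - kap a * t ^ 4 / 12 + (kap a * t ^ 4 / 12) ^ 2 / 2) := by ring
  rw [h5]
  linarith

/-- ROW REG-A7 (near integral).

PROOF.  Let `T₀ = π/(2δ) ≥ 1`, `κ = kap a`.  For `0 < t ≤ T₀`, A6 gives
`e^{-t²/2} - P ≥ e^{-t²/2} (1 - e^{-κt⁴/12}) ≥ e^{-t²/2} (κt⁴/12 - κ²t⁸/288)` (`1 - e^{-y} ≥ y - y²/2`, `y ≥ 0`).
Divide by `t²` and integrate over `(0, T₀]` (integrability of the left side: `DD_eq` (A4)):
`∫ ≥ (κ/12) ∫_0^{T₀} t² e^{-t²/2} - (κ²/288) ∫_0^∞ t⁶ e^{-t²/2}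
   ≥ (κ/12) (√(π/2) - 2/T₀) - (κ²/288) 15 √(π/2)` (A3).
`2/T₀ = 4δ/π`, `κ ≤ δ² ≤ δ/2` (`h.kap_le`), `√(π/2) ≤ 1.26`: the error is `≤ κδ (1/(3π) + 0.04) ≤ κδ`. -/
theorem near_integral {a : Fin n → ℝ} {δ : ℝ} (h : Reg a δ) (hδ : δ ≤ 1 / 2) :
    kap a / 12 * Real.sqrt (Real.pi / 2) - kap a * δ ≤
      ∫ t in Set.Ioc 0 (Real.pi / (2 * δ)), (Real.exp (-t ^ 2 / 2) - PP a t) / t ^ 2 := by
  have hpos := h.pos
  have hk := h.kap_pos
  have hpi := Real.pi_gt_three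
  have hpi2 := Real.pi_lt_d2
  set T : ℝ := Real.pi / (2 * δ) with hT
  have hT1 : 1 ≤ T := by
    rw [hT, le_div_iff₀ (by positivity)]
    linarith
  have hT0 : 0 < T := by linarith
  obtain ⟨i2, e2⟩ := integral_gauss2
  obtain ⟨i6, e6⟩ := integral_gauss6
  have hsub : Set.Ioc 0 T ⊆ Set.Ioi (0 : ℝ) := fun t ht => ht.1
  have iL : IntegrableOn (fun t : ℝ => (Real.exp (-t ^ 2 / 2) - PP a t) / t ^ 2) (Set.Ioc 0 T) :=
    (DD_eq a).1.mono_set hsub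
  have j2 := i2.mono_set hsub
  have j6 := i6.mono_set hsub
  have k2 : IntegrableOn (fun t : ℝ => kap a / 12 * (t ^ 2 * Real.exp (-t ^ 2 / 2)))
      (Set.Ioc 0 T) := j2.const_mul _
  have k6 : IntegrableOn (fun t : ℝ => kap a ^ 2 / 288 * (t ^ 6 * Real.exp (-t ^ 2 / 2)))
      (Set.Ioc 0 T) := j6.const_mul _
  have h1 : ∫ t in Set.Ioc 0 T, (kap a / 12 * (t ^ 2 * Real.exp (-t ^ 2 / 2)) -
      kap a ^ 2 / 288 * (t ^ 6 * Real.exp (-t ^ 2 / 2))) ≤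
      ∫ t in Set.Ioc 0 T, (Real.exp (-t ^ 2 / 2) - PP a t) / t ^ 2 :=
    setIntegral_mono_on (k2.sub k6) iL measurableSet_Ioc fun t ht => a7_pt h ht.1 ht.2
  refine le_trans ?_ h1
  rw [integral_sub k2 k6, integral_const_mul, integral_const_mul]
  have h2 : ∫ t in Set.Ioi (0 : ℝ), t ^ 2 * Real.exp (-t ^ 2 / 2) =
      (∫ t in Set.Ioc 0 T, t ^ 2 * Real.exp (-t ^ 2 / 2)) +
        ∫ t in Set.Ioi T, t ^ 2 * Real.exp (-t ^ 2 / 2) := by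
    rw [← Set.Ioc_union_Ioi_eq_Ioi hT0.le, setIntegral_union (Set.Ioc_disjoint_Ioi le_rfl)
      measurableSet_Ioi j2 (i2.mono_set (Set.Ioi_subset_Ioi hT0.le))]
  have h3 := tail_gauss2 hT1
  have h4 : ∫ t in Set.Ioc 0 T, t ^ 6 * Real.exp (-t ^ 2 / 2) ≤ 15 * Real.sqrt (Real.pi / 2) := by
    rw [← e6]
    refine setIntegral_mono_set i6 ?_ hsub.eventuallyLE
    filter_upwards with t
    positivity
  rw [e2] at h2
  have h5 : 2 / T = 4 * δ / Real.pi := by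
    rw [hT]
    field_simp
    ring
  have h6 : 2 / T ≤ 4 / 3 * δ := by
    rw [h5, div_le_iff₀ (by positivity)]
    nlinarith
  have h7 : Real.sqrt (Real.pi / 2) ≤ 1.26 := by
    rw [show (1.26 : ℝ) = Real.sqrt (1.26 ^ 2) by rw [Real.sqrt_sq (by norm_num)]]
    apply Real.sqrt_le_sqrt
    norm_num at hpi2 ⊢
    linarith
  have h8 : kap a ≤ δ / 2 := by
    have := h.kap_le
    nlinarith
  have h9 : kap a / 12 * (Real.sqrt (Real.pi / 2) - 4 / 3 * δ) ≤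
      kap a / 12 * ∫ t in Set.Ioc 0 T, t ^ 2 * Real.exp (-t ^ 2 / 2) := by
    apply mul_le_mul_of_nonneg_left _ (by positivity)
    linarith
  have h10 : kap a ^ 2 / 288 * (∫ t in Set.Ioc 0 T, t ^ 6 * Real.exp (-t ^ 2 / 2)) ≤
      kap a * (δ / 2) / 288 * (15 * 1.26) := by
    have e1 : kap a ^ 2 / 288 ≤ kap a * (δ / 2) / 288 := by
      apply div_le_div_of_nonneg_right _ (by norm_num)
      rw [sq]
      exact mul_le_mul_of_nonneg_left h8 hk.le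
    calc kap a ^ 2 / 288 * (∫ t in Set.Ioc 0 T, t ^ 6 * Real.exp (-t ^ 2 / 2))
        ≤ kap a ^ 2 / 288 * (15 * Real.sqrt (Real.pi / 2)) :=
          mul_le_mul_of_nonneg_left h4 (by positivity)
      _ ≤ kap a ^ 2 / 288 * (15 * 1.26) := by
          apply mul_le_mul_of_nonneg_left _ (by positivity)
          linarith
      _ ≤ _ := mul_le_mul_of_nonneg_right e1 (by norm_num)
  have h11 : 0 < kap a * δ := by positivity
  nlinarith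

end Pool.Agent.MP_cb3c9c_an.REG
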