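import Pool.Agent.MP_cb3c9c_an.REG.S0

set_option autoImplicit false

open Finset MeasureTheory
open scoped BigOperators

namespace Pool.Agent.MP_cb3c9c_an.REG

open Pool.Agent.MP_cb3c9c_an.TwoBlock

variable {n : ℕ}

/-- `saw z' = saw (z - y)`. -/
lemma r11_saw {z z' y : ℝ} (h : ∃ m : ℤ, z - z' - y = 2 * m) : saw z' = saw (z - y) := by
  obtain ⟨m, hm⟩ := h
  have h1 : z' = (z - y) + 2 * ((-m : ℤ) : ℝ) := by push_cast; linarith
  rw [h1, saw_add_two_mul]

lemma r11_dz {z z' y : ℝ} (h : ∃ m : ℤ, z - z' - y = 2 * m) : dz z' = dz (z - y) := by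
  obtain ⟨m, hm⟩ := h
  have h1 : z' = (z - y) + 2 * ((-m : ℤ) : ℝ) := by push_cast; linarith
  rw [h1, dz_add_two_mul]

/-- ROW REG-R11 (three statements).

PROOF.  `saw (z' x) = saw (z x - y x)` (`saw_add_two_mul`).  Pointwise: if `|y| < dz z`, the difference is `y`
(`saw_sub_of_lt`), otherwise it is at most `2` (`abs_saw_le`); so `(..)² ≤ y² + 4·1{dz z ≤ |y|}`, and
`1{dz z ≤ |y|} ≤ 1{dz z ≤ 8r} + y²/(64 r²)`. -/
theorem saw_diff_norm {r : ℝ} (hr : 0 < r) (z z' y : (Fin n → Bool) → ℝ)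
    (hz : ∀ x, ∃ m : ℤ, z x - z' x - y x = 2 * m) :
    Ex (fun x => (saw (z x) - saw (z' x)) ^ 2) ≤
      (1 + 1 / (16 * r ^ 2)) * Ex (fun x => y x ^ 2) +
        4 * Ex (fun x => if dz (z x) ≤ 8 * r then (1 : ℝ) else 0) := by
  have hpt : ∀ x, (saw (z x) - saw (z' x)) ^ 2 ≤
      (1 + 1 / (16 * r ^ 2)) * y x ^ 2 + 4 * (if dz (z x) ≤ 8 * r then (1 : ℝ) else 0) := by
    intro x
    rw [r11_saw (hz x)]
    have hr2 : 0 < 16 * r ^ 2 := by positivity
    have h0 : 0 ≤ 1 / (16 * r ^ 2) * y x ^ 2 := by positivity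
    have h1 : (0 : ℝ) ≤ 4 * (if dz (z x) ≤ 8 * r then (1 : ℝ) else 0) := by
      split_ifs <;> norm_num
    by_cases h : |y x| < dz (z x)
    · rw [saw_sub_of_lt h]
      have h2 : (saw (z x) - (saw (z x) - y x)) ^ 2 = y x ^ 2 := by ring
      rw [h2]
      nlinarith
    · have h' : dz (z x) ≤ |y x| := not_lt.1 h
      have h2 := abs_saw_le (z x)
      have h3 := abs_saw_le (z x - y x)
      have h4 : (saw (z x) - saw (z x - y x)) ^ 2 ≤ 4 := by
        rw [abs_le] at h2 h3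
        nlinarith
      by_cases h5 : dz (z x) ≤ 8 * r
      · rw [if_pos h5]
        nlinarith [sq_nonneg (y x)]
      · rw [if_neg h5]
        have h6 : 8 * r < |y x| := lt_of_lt_of_le (not_le.1 h5) h'
        have h7 : 64 * r ^ 2 ≤ y x ^ 2 := by
          rw [← sq_abs (y x)]
          nlinarith
        have h8 : 4 ≤ 1 / (16 * r ^ 2) * y x ^ 2 := by
          rw [div_mul_eq_mul_div, one_mul, le_div_iff₀ hr2]
          linarith
        nlinarith [sq_nonneg (y x)]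
  calc Ex (fun x => (saw (z x) - saw (z' x)) ^ 2)
      ≤ Ex (fun x => (1 + 1 / (16 * r ^ 2)) * y x ^ 2 +
          4 * (if dz (z x) ≤ 8 * r then (1 : ℝ) else 0)) := Ex_mono hpt
    _ = _ := by rw [Ex_add, Ex_mul, Ex_mul]

/-- PROOF.  `dz (z' x) = dz (z x - y x) ≥ dz (z x) - |y x|`; if `dz z' ≤ r` then `dz z ≤ 8r` or `|y| ≥ 7r`. -/
theorem near_shift {r : ℝ} (hr : 0 < r) (z z' y : (Fin n → Bool) → ℝ)
    (hz : ∀ x, ∃ m : ℤ, z x - z' x - y x = 2 * m) :
    Ex (fun x => if dz (z' x) ≤ r then (1 : ℝ) else 0) ≤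
      Ex (fun x => if dz (z x) ≤ 8 * r then (1 : ℝ) else 0) +
        (1 / (49 * r ^ 2)) * Ex (fun x => y x ^ 2) := by
  have hpt : ∀ x, (if dz (z' x) ≤ r then (1 : ℝ) else 0) ≤
      (if dz (z x) ≤ 8 * r then (1 : ℝ) else 0) + (1 / (49 * r ^ 2)) * y x ^ 2 := by
    intro x
    have hr2 : 0 < 49 * r ^ 2 := by positivity
    have h0 : 0 ≤ 1 / (49 * r ^ 2) * y x ^ 2 := by positivity
    have h1 : (0 : ℝ) ≤ (if dz (z x) ≤ 8 * r then (1 : ℝ) else 0) := by
      split_ifs <;> norm_num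
    by_cases h : dz (z' x) ≤ r
    · rw [if_pos h]
      by_cases h5 : dz (z x) ≤ 8 * r
      · rw [if_pos h5]
        linarith
      · rw [if_neg h5]
        rw [r11_dz (hz x)] at h
        have h2 := abs_dz_sub_le (z x) (z x - y x)
        rw [sub_sub_cancel] at h2
        have h3 := le_abs_self (dz (z x) - dz (z x - y x))
        have h6 : 7 * r < |y x| := by linarith [not_le.1 h5]
        have h7 : 49 * r ^ 2 ≤ y x ^ 2 := by
          rw [← sq_abs (y x)]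
          nlinarith
        have h8 : 1 ≤ 1 / (49 * r ^ 2) * y x ^ 2 := by
          rw [div_mul_eq_mul_div, one_mul, le_div_iff₀ hr2]
          linarith
        linarith
    · rw [if_neg h]
      linarith
  calc Ex (fun x => if dz (z' x) ≤ r then (1 : ℝ) else 0)
      ≤ Ex (fun x => (if dz (z x) ≤ 8 * r then (1 : ℝ) else 0) +
          (1 / (49 * r ^ 2)) * y x ^ 2) := Ex_mono hpt
    _ = _ := by rw [Ex_add, Ex_mul]

/-- PROOF.  `|saw - φ| ≤ 2`, and `saw z = φ z` unless `dz z < r`. -/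
theorem saw_smooth_norm {r : ℝ} {φ : ℝ → ℝ} (hφ1 : ∀ t, |φ t| ≤ 1)
    (hφ : ∀ t, r ≤ dz t → φ t = saw t) (z : (Fin n → Bool) → ℝ) :
    Ex (fun x => (saw (z x) - φ (z x)) ^ 2) ≤
      4 * Ex (fun x => if dz (z x) ≤ r then (1 : ℝ) else 0) := by
  have hpt : ∀ x, (saw (z x) - φ (z x)) ^ 2 ≤ 4 * (if dz (z x) ≤ r then (1 : ℝ) else 0) := by
    intro x
    by_cases h : r ≤ dz (z x)
    · rw [hφ _ h, sub_self]
      have h1 : (0 : ℝ) ≤ 4 * (if dz (z x) ≤ r then (1 : ℝ) else 0) := by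
        split_ifs <;> norm_num
      simpa using h1
    · rw [if_pos (not_le.1 h).le]
      have h2 := abs_saw_le (z x)
      have h3 := hφ1 (z x)
      rw [abs_le] at h2 h3
      nlinarith
  calc Ex (fun x => (saw (z x) - φ (z x)) ^ 2)
      ≤ Ex (fun x => 4 * (if dz (z x) ≤ r then (1 : ℝ) else 0)) := Ex_mono hpt
    _ = _ := Ex_mul _ _

end Pool.Agent.MP_cb3c9c_an.REG
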