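import Pool.Agent.MP_cb3c9c_an.REG.S0

set_option autoImplicit false

open Finset MeasureTheory
open scoped BigOperators

namespace Pool.Agent.MP_cb3c9c_an.REG

open Pool.Agent.MP_cb3c9c_an.TwoBlock

/-- clamping to `[-1,1]` -/
noncomputable def r7c_cl (u : ℝ) : ℝ := max (-1) (min 1 u)

/-- the smoothed sign -/
noncomputable def r7c_S (u : ℝ) : ℝ := (3 * r7c_cl u - r7c_cl u ^ 3) / 2

/-- its derivative -/
noncomputable def r7c_S' (u : ℝ) : ℝ := 3 / 2 * (1 - r7c_cl u ^ 2)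

lemma r7c_cases (u : ℝ) : (u ≤ -1 ∧ r7c_cl u = -1) ∨ (-1 ≤ u ∧ u ≤ 1 ∧ r7c_cl u = u) ∨
    (1 ≤ u ∧ r7c_cl u = 1) := by
  unfold r7c_cl
  rcases le_total u (-1) with h | h
  · left
    refine ⟨h, ?_⟩
    rw [min_eq_right (by linarith), max_eq_left h]
  · rcases le_total u 1 with h' | h'
    · right; left
      refine ⟨h, h', ?_⟩
      rw [min_eq_right h', max_eq_right h]
    · right; right
      refine ⟨h', ?_⟩
      rw [min_eq_left h', max_eq_right (by norm_num)]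

lemma r7c_cl_abs (u : ℝ) : -1 ≤ r7c_cl u ∧ r7c_cl u ≤ 1 := by
  rcases r7c_cases u with ⟨h, e⟩ | ⟨h, h', e⟩ | ⟨h, e⟩ <;> rw [e] <;> constructor <;> linarith

lemma r7c_cl_lip (u v : ℝ) : |r7c_cl u - r7c_cl v| ≤ |u - v| := by
  rcases abs_cases (u - v) with ⟨h, h0⟩ | ⟨h, h0⟩ <;> rw [h, abs_le] <;>
  rcases r7c_cases u with ⟨hu, e⟩ | ⟨hu, hu', e⟩ | ⟨hu, e⟩ <;>
  rcases r7c_cases v with ⟨hv, f⟩ | ⟨hv, hv', f⟩ | ⟨hv, f⟩ <;>
  rw [e, f] <;> constructor <;> linarith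

lemma r7c_S'_lip (u v : ℝ) : |r7c_S' u - r7c_S' v| ≤ 3 * |u - v| := by
  have h := r7c_cl_lip u v
  have h1 := r7c_cl_abs u
  have h2 := r7c_cl_abs v
  have e : r7c_S' u - r7c_S' v = -(3 / 2) * (r7c_cl u + r7c_cl v) * (r7c_cl u - r7c_cl v) := by
    unfold r7c_S'; ring
  rw [e, abs_mul]
  have h3 : |-(3 / 2) * (r7c_cl u + r7c_cl v)| ≤ 3 := by
    rw [abs_le]; constructor <;> linarith [h1.1, h1.2, h2.1, h2.2]
  calc |-(3 / 2) * (r7c_cl u + r7c_cl v)| * |r7c_cl u - r7c_cl v| ≤ 3 * |u - v| :=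
        mul_le_mul h3 h (abs_nonneg _) (by norm_num)

lemma r7c_S'_mem (u : ℝ) : 0 ≤ r7c_S' u ∧ r7c_S' u ≤ 3 / 2 := by
  have h1 := r7c_cl_abs u
  unfold r7c_S'
  constructor
  · nlinarith [h1.1, h1.2]
  · nlinarith [sq_nonneg (r7c_cl u)]

/-- second order estimate -/
lemma r7c_S_second (u v : ℝ) : |r7c_S v - r7c_S u - (v - u) * r7c_S' u| ≤ 3 * (v - u) ^ 2 := by
  unfold r7c_S r7c_S'
  rcases r7c_cases u with ⟨hu, e⟩ | ⟨hu, hu', e⟩ | ⟨hu, e⟩ <;>
  rcases r7c_cases v with ⟨hv, f⟩ | ⟨hv, hv', f⟩ | ⟨hv, f⟩ <;>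
  rw [e, f]
  · have : (3 * (-1) - (-1) ^ 3) / 2 - (3 * (-1) - (-1) ^ 3) / 2 -
        (v - u) * (3 / 2 * (1 - (-1) ^ 2)) = (0 : ℝ) := by ring
    rw [this, abs_zero]; positivity
  · -- u ≤ -1, v in the middle
    have : (3 * v - v ^ 3) / 2 - (3 * (-1) - (-1) ^ 3) / 2 -
        (v - u) * (3 / 2 * (1 - (-1) ^ 2)) = (1 + v) ^ 2 * (2 - v) / 2 := by ring
    rw [this, abs_of_nonneg (by have : 0 ≤ 2 - v := by linarith
                                positivity)]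
    have h1 : (1 + v) ^ 2 ≤ (v - u) ^ 2 := by nlinarith
    nlinarith [sq_nonneg (1 + v)]
  · have : (3 * 1 - 1 ^ 3) / 2 - (3 * (-1) - (-1) ^ 3) / 2 -
        (v - u) * (3 / 2 * (1 - (-1) ^ 2)) = (2 : ℝ) := by ring
    rw [this, abs_of_nonneg (by norm_num)]
    nlinarith
  · -- u in the middle, v ≤ -1
    obtain ⟨a, ha⟩ : ∃ a, a = 1 + u := ⟨_, rfl⟩
    obtain ⟨b, hb⟩ : ∃ b, b = -1 - v := ⟨_, rfl⟩
    have ha0 : 0 ≤ a := by linarith
    have ha2 : a ≤ 2 := by linarith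
    have hb0 : 0 ≤ b := by linarith
    have eu : u = a - 1 := by linarith
    have ev : v = -1 - b := by linarith
    subst eu ev
    have hab := mul_nonneg ha0 hb0
    have haab := mul_nonneg ha0 hab
    have h2a : 0 ≤ 2 - a := by linarith
    have h3 := mul_nonneg hab h2a
    have h4 := mul_nonneg (mul_nonneg ha0 ha0) h2a
    have h5 := mul_nonneg (mul_nonneg ha0 ha0) ha0
    rw [abs_le]
    constructor <;> nlinarith [sq_nonneg a, sq_nonneg b]
  · -- both in the middle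
    have : (3 * v - v ^ 3) / 2 - (3 * u - u ^ 3) / 2 - (v - u) * (3 / 2 * (1 - u ^ 2)) =
        -((v - u) ^ 2 * ((v + 2 * u) / 2)) := by ring
    rw [this, abs_neg, abs_mul, abs_of_nonneg (sq_nonneg _), mul_comm]
    apply mul_le_mul_of_nonneg_right _ (sq_nonneg _)
    rw [abs_le]; constructor <;> linarith
  · -- u in the middle, v ≥ 1
    obtain ⟨a, ha⟩ : ∃ a, a = 1 - u := ⟨_, rfl⟩
    obtain ⟨b, hb⟩ : ∃ b, b = v - 1 := ⟨_, rfl⟩
    have ha0 : 0 ≤ a := by linarith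
    have ha2 : a ≤ 2 := by linarith
    have hb0 : 0 ≤ b := by linarith
    have eu : u = 1 - a := by linarith
    have ev : v = 1 + b := by linarith
    subst eu ev
    have hab := mul_nonneg ha0 hb0
    have haab := mul_nonneg ha0 hab
    have h2a : 0 ≤ 2 - a := by linarith
    have h3 := mul_nonneg hab h2a
    have h4 := mul_nonneg (mul_nonneg ha0 ha0) h2a
    have h5 := mul_nonneg (mul_nonneg ha0 ha0) ha0
    rw [abs_le]
    constructor <;> nlinarith [sq_nonneg a, sq_nonneg b]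
  · have : (3 * (-1) - (-1) ^ 3) / 2 - (3 * 1 - 1 ^ 3) / 2 -
        (v - u) * (3 / 2 * (1 - 1 ^ 2)) = (-2 : ℝ) := by ring
    rw [this, abs_of_nonpos (by norm_num)]
    nlinarith
  · have : (3 * v - v ^ 3) / 2 - (3 * 1 - 1 ^ 3) / 2 -
        (v - u) * (3 / 2 * (1 - 1 ^ 2)) = -((1 - v) ^ 2 * (2 + v) / 2) := by ring
    rw [this, abs_neg, abs_of_nonneg (by have : 0 ≤ 2 + v := by linarith
                                         positivity)]
    have h1 : (1 - v) ^ 2 ≤ (v - u) ^ 2 := by nlinarith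
    nlinarith [sq_nonneg (1 - v)]
  · have : (3 * 1 - 1 ^ 3) / 2 - (3 * 1 - 1 ^ 3) / 2 -
        (v - u) * (3 / 2 * (1 - 1 ^ 2)) = (0 : ℝ) := by ring
    rw [this, abs_zero]; positivity

/-- `x - S (x/r)` -/
noncomputable def r7c_F (r x : ℝ) : ℝ := x - r7c_S (x / r)

/-- its derivative -/
noncomputable def r7c_F' (r x : ℝ) : ℝ := 1 - r7c_S' (x / r) / r

section
variable {r : ℝ} (hr : 0 < r) (hr2 : r ≤ 1 / 4)
include hr

lemma r7c_F_pos {x : ℝ} (hx : r ≤ x) : r7c_F r x = x - 1 ∧ r7c_F' r x = 1 := by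
  have h1 : 1 ≤ x / r := by rwa [le_div_iff₀ hr, one_mul]
  have e : r7c_cl (x / r) = 1 := by
    rcases r7c_cases (x / r) with ⟨h, e⟩ | ⟨h, h', e⟩ | ⟨h, e⟩
    · linarith
    · rw [e]; linarith
    · exact e
  unfold r7c_F r7c_F' r7c_S r7c_S'
  rw [e]
  constructor <;> ring

lemma r7c_F_neg {x : ℝ} (hx : x ≤ -r) : r7c_F r x = x + 1 ∧ r7c_F' r x = 1 := by
  have h1 : x / r ≤ -1 := by rw [div_le_iff₀ hr]; linarith
  have e : r7c_cl (x / r) = -1 := by
    rcases r7c_cases (x / r) with ⟨h, e⟩ | ⟨h, h', e⟩ | ⟨h, e⟩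
    · exact e
    · rw [e]; linarith
    · linarith
  unfold r7c_F r7c_F' r7c_S r7c_S'
  rw [e]
  constructor <;> ring

lemma r7c_F_second (x h : ℝ) : |r7c_F r (x + h) - r7c_F r x - h * r7c_F' r x| ≤
    3 / r ^ 2 * h ^ 2 := by
  have h1 := r7c_S_second (x / r) ((x + h) / r)
  have e : r7c_F r (x + h) - r7c_F r x - h * r7c_F' r x =
      -(r7c_S ((x + h) / r) - r7c_S (x / r) - ((x + h) / r - x / r) * r7c_S' (x / r)) := by
    unfold r7c_F r7c_F'
    field_simp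
    ring
  rw [e, abs_neg]
  refine h1.trans (le_of_eq ?_)
  field_simp
  ring

lemma r7c_F'_lip (x y : ℝ) : |r7c_F' r x - r7c_F' r y| ≤ 3 / r ^ 2 * |x - y| := by
  have h1 := r7c_S'_lip (x / r) (y / r)
  have e : r7c_F' r x - r7c_F' r y = -((r7c_S' (x / r) - r7c_S' (y / r)) / r) := by
    unfold r7c_F'; ring
  have e2 : |x / r - y / r| = |x - y| / r := by rw [← sub_div, abs_div, abs_of_pos hr]
  rw [e, abs_neg, abs_div, abs_of_pos hr, div_le_iff₀ hr]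
  refine h1.trans (le_of_eq ?_)
  rw [e2]
  field_simp

include hr2

lemma r7c_F'_abs (x : ℝ) : |r7c_F' r x| ≤ 3 / r := by
  have h1 := r7c_S'_mem (x / r)
  have h2 : r7c_S' (x / r) / r ≤ 3 / 2 / r := div_le_div_of_nonneg_right h1.2 hr.le
  have h3 : 0 ≤ r7c_S' (x / r) / r := div_nonneg h1.1 hr.le
  have h4 : 1 ≤ 3 / r := by rw [le_div_iff₀ hr]; linarith
  have h5 : 3 / 2 / r ≤ 3 / r := div_le_div_of_nonneg_right (by norm_num) hr.le
  unfold r7c_F'
  rw [abs_le]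
  constructor <;> linarith

lemma r7c_F_abs {x : ℝ} (hx : |x| ≤ 1) : |r7c_F r x| ≤ 1 := by
  rw [abs_le] at hx
  unfold r7c_F r7c_S
  rcases le_total x 0 with h0 | h0
  · have h1 : x / r ≤ 0 := div_nonpos_of_nonpos_of_nonneg h0 hr.le
    have hc : -1 ≤ r7c_cl (x / r) ∧ r7c_cl (x / r) ≤ 0 := by
      rcases r7c_cases (x / r) with ⟨h, e⟩ | ⟨h, h', e⟩ | ⟨h, e⟩
      · rw [e]; norm_num
      · rw [e]; exact ⟨h, h1⟩
      · linarith
    obtain ⟨c1, c2⟩ := hc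
    generalize r7c_cl (x / r) = c at c1 c2
    have s1 : (3 * c - c ^ 3) / 2 ≤ 0 := by nlinarith [mul_nonneg (neg_nonneg.2 c2) (by nlinarith : 0 ≤ 3 - c ^ 2)]
    have s2 : -1 ≤ (3 * c - c ^ 3) / 2 := by nlinarith [mul_nonneg (sq_nonneg (1 + c)) (by linarith : 0 ≤ 2 - c)]
    rw [abs_le]; constructor <;> linarith
  · have h1 : 0 ≤ x / r := div_nonneg h0 hr.le
    have hc : 0 ≤ r7c_cl (x / r) ∧ r7c_cl (x / r) ≤ 1 := by
      rcases r7c_cases (x / r) with ⟨h, e⟩ | ⟨h, h', e⟩ | ⟨h, e⟩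
      · linarith
      · rw [e]; exact ⟨h1, h'⟩
      · rw [e]; norm_num
    obtain ⟨c1, c2⟩ := hc
    generalize r7c_cl (x / r) = c at c1 c2
    have s1 : 0 ≤ (3 * c - c ^ 3) / 2 := by nlinarith [mul_nonneg c1 (by nlinarith : 0 ≤ 3 - c ^ 2)]
    have s2 : (3 * c - c ^ 3) / 2 ≤ 1 := by nlinarith [mul_nonneg (sq_nonneg (1 - c)) (by linarith : 0 ≤ 2 + c)]
    rw [abs_le]; constructor <;> linarith

/-- the periodic extension does not depend on the choice of the even integer -/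
lemma r7c_indep {x y : ℝ} {j : ℤ} (hy : y = x + 2 * j) (hx : |x| ≤ 1) (hy2 : |y| ≤ 2 - r) :
    r7c_F r x = r7c_F r y ∧ r7c_F' r x = r7c_F' r y := by
  rw [abs_le] at hx hy2
  have h1 : (-2 : ℝ) < j := by linarith
  have h2 : (j : ℝ) < 2 := by linarith
  have h1' : -2 < j := by exact_mod_cast h1
  have h2' : j < 2 := by exact_mod_cast h2
  have h3 : j = -1 ∨ j = 0 ∨ j = 1 := by omega
  rcases h3 with rfl | rfl | rfl
  · push_cast at hy
    have a := r7c_F_pos hr (x := x) (by linarith)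
    have b := r7c_F_neg hr (x := y) (by linarith)
    rw [a.1, a.2, b.1, b.2]
    exact ⟨by linarith, rfl⟩
  · push_cast at hy
    rw [mul_zero, add_zero] at hy
    rw [hy]; exact ⟨rfl, rfl⟩
  · push_cast at hy
    have a := r7c_F_neg hr (x := x) (by linarith)
    have b := r7c_F_pos hr (x := y) (by linarith)
    rw [a.1, a.2, b.1, b.2]
    exact ⟨by linarith, rfl⟩

end

/-- the representative in `[-1,1]` -/
noncomputable def r7c_x (t : ℝ) : ℝ := t - 2 * (round (t / 2) : ℝ)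

lemma r7c_x_abs (t : ℝ) : |r7c_x t| ≤ 1 := by
  have h := abs_sub_round (t / 2)
  have e : r7c_x t = 2 * (t / 2 - round (t / 2)) := by unfold r7c_x; ring
  rw [e, abs_mul, abs_of_pos (by norm_num : (0 : ℝ) < 2)]
  linarith

lemma r7c_x_add_two (t : ℝ) : r7c_x (t + 2) = r7c_x t := by
  unfold r7c_x
  have : (t + 2) / 2 = t / 2 + 1 := by ring
  rw [this, round_add_one]
  push_cast
  ring

/-- ROW REG-R7c (smoothed sawtooth).

PROOF.  Let `S u = (3u - u³)/2` for `|u| ≤ 1`, `S u = 1` for `u ≥ 1`, `S u = -1` for `u ≤ -1`: `S' u = (3/2)(1 - u²)` on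
`[-1,1]`, `0` outside, so `S` is C¹, `0 ≤ S' ≤ 3/2`, `S'` is `3`-Lipschitz, `|S| ≤ 1`.
On `[-1, 1)` put `φ t = t - S (t/r)`, `ψ t = 1 - S' (t/r)/r`, and extend with period `2`
(e.g. `φ t = saw (t+1) - S (saw (t+1)/r)`, where `saw (t+1) = t` on `[-1,1)`).  As `r ≤ 1/4`, near `t = ±1`, `φ t = t ∓ 1`, so
`φ` is C¹ on `ℝ` with derivative `ψ`; `ψ` is `3/r²`-Lipschitz on each period and continuous, hence globally;
`|ψ| ≤ max (1, 1.5/r) ≤ 3/r`.  `|φ| ≤ 1`: for `0 ≤ t ≤ 1`, `0 ≤ S ≤ 1`, `0 ≤ t ≤ 1`.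
`|φ(t+h) - φ t - hψ t| = |∫_0^h (ψ(t+y) - ψ t) dy| ≤ (3/r²) h²/2`.
`r ≤ dz t`: w.l.o.g. `t ∈ [-1,1)`, `|t| = dz t ≥ r`, `S (t/r) = sgn t`, `φ t = t - sgn t = saw t`. -/
theorem exists_smooth_saw {r : ℝ} (hr : 0 < r) (hr2 : r ≤ 1 / 4) :
    ∃ φ ψ : ℝ → ℝ, (∀ t, φ (t + 2) = φ t) ∧ (∀ t, ψ (t + 2) = ψ t) ∧ (∀ t, |φ t| ≤ 1) ∧
      (∀ t, |ψ t| ≤ 3 / r) ∧ (∀ t h, |φ (t + h) - φ t - h * ψ t| ≤ 3 / r ^ 2 * h ^ 2) ∧
      (∀ t u, |ψ t - ψ u| ≤ 3 / r ^ 2 * |t - u|) ∧ (∀ t, r ≤ dz t → φ t = saw t) := by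
  have hinv : 4 ≤ 1 / r := by rw [le_div_iff₀ hr]; linarith
  have e3 : 3 / r ^ 2 = 3 * (1 / r) * (1 / r) := by field_simp
  have e3' : 3 / r = 3 * (1 / r) := by ring
  have hφ : ∀ t, |r7c_F r (r7c_x t)| ≤ 1 := fun t => r7c_F_abs hr hr2 (r7c_x_abs t)
  have hψ : ∀ t, |r7c_F' r (r7c_x t)| ≤ 3 / r := fun t => r7c_F'_abs hr hr2 _
  have hind : ∀ t u : ℝ, |t - u| ≤ 1 - r → r7c_F r (r7c_x u) = r7c_F r (u - t + r7c_x t) ∧
      r7c_F' r (r7c_x u) = r7c_F' r (u - t + r7c_x t) := by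
    intro t u htu
    refine r7c_indep hr hr2 (j := round (u / 2) - round (t / 2)) ?_ (r7c_x_abs u) ?_
    · unfold r7c_x; push_cast; ring
    · have h1 := r7c_x_abs t
      rw [abs_le] at h1 htu ⊢
      constructor <;> linarith
  refine ⟨fun t => r7c_F r (r7c_x t), fun t => r7c_F' r (r7c_x t), fun t => ?_, fun t => ?_, hφ, hψ,
    fun t h => ?_, fun t u => ?_, fun t ht => ?_⟩
  · simp only [r7c_x_add_two]
  · simp only [r7c_x_add_two]
  · rcases le_total |h| (1 - r) with hh | hh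
    · have h1 := hind t (t + h) (by
        have : t - (t + h) = -h := by ring
        rw [this, abs_neg]; exact hh)
      have e : t + h - t + r7c_x t = r7c_x t + h := by ring
      rw [e] at h1
      dsimp only
      rw [h1.1]
      exact r7c_F_second hr _ _
    · dsimp only
      have h34 : 3 / 4 ≤ |h| := by linarith
      have a1 := hφ (t + h)
      have a2 := hφ t
      have a3 : |h * r7c_F' r (r7c_x t)| ≤ |h| * (3 / r) := by
        rw [abs_mul]; exact mul_le_mul_of_nonneg_left (hψ t) (abs_nonneg _)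
      have a4 : |r7c_F r (r7c_x (t + h)) - r7c_F r (r7c_x t) - h * r7c_F' r (r7c_x t)| ≤
          1 + 1 + |h| * (3 / r) :=
        (abs_sub _ _).trans (add_le_add ((abs_sub _ _).trans (add_le_add a1 a2)) a3)
      refine a4.trans ?_
      rw [← sq_abs h, e3, e3']
      obtain ⟨y, hy⟩ : ∃ y, y = |h| := ⟨_, rfl⟩
      obtain ⟨z, hz⟩ : ∃ z, z = 1 / r := ⟨_, rfl⟩
      rw [← hy] at h34 ⊢
      rw [← hz] at hinv ⊢
      have hyz : 3 ≤ y * z := by nlinarith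
      have : 3 * z * z * y ^ 2 = 3 * (y * z) * (y * z) := by ring
      rw [this]
      nlinarith
  · dsimp only
    rcases le_total |t - u| (1 - r) with hh | hh
    · have h1 := hind t u hh
      rw [h1.2]
      refine (r7c_F'_lip hr _ _).trans (le_of_eq ?_)
      congr 2
      ring
    · have h34 : 3 / 4 ≤ |t - u| := by linarith
      have a1 := hψ t
      have a2 := hψ u
      refine ((abs_sub _ _).trans (add_le_add a1 a2)).trans ?_
      rw [e3, e3']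
      obtain ⟨y, hy⟩ : ∃ y, y = |t - u| := ⟨_, rfl⟩
      obtain ⟨z, hz⟩ : ∃ z, z = 1 / r := ⟨_, rfl⟩
      rw [← hy] at h34 ⊢
      rw [← hz] at hinv ⊢
      have hyz : 3 ≤ y * z := by nlinarith
      nlinarith
  · dsimp only
    have hdz : dz t = |r7c_x t| := rfl
    rw [hdz] at ht
    have hx := r7c_x_abs t
    have et : t / 2 = round (t / 2) + r7c_x t / 2 := by unfold r7c_x; ring
    rcases le_total 0 (r7c_x t) with h0 | h0
    · rw [abs_of_nonneg h0] at ht hx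
      rw [(r7c_F_pos hr ht).1]
      have hf : Int.fract (t / 2) = r7c_x t / 2 := by
        rw [Int.fract_eq_iff]
        refine ⟨by linarith, by linarith, round (t / 2), by linarith⟩
      unfold saw
      rw [hf]; ring
    · rw [abs_of_nonpos h0] at ht hx
      rw [(r7c_F_neg hr (by linarith)).1]
      have hf : Int.fract (t / 2) = 1 + r7c_x t / 2 := by
        rw [Int.fract_eq_iff]
        refine ⟨by linarith, by linarith, round (t / 2) - 1, by push_cast; linarith⟩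
      unfold saw
      rw [hf]; ring

end Pool.Agent.MP_cb3c9c_an.REG
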