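import Pool.Agent.MP_cb3c9c_an.REG.R7a
import Pool.Agent.MP_cb3c9c_an.REG.R7c
import Pool.Agent.MP_cb3c9c_an.REG.R11

set_option autoImplicit false

open Finset MeasureTheory
open scoped BigOperators

namespace Pool.Agent.MP_cb3c9c_an.REG

open Pool.Agent.MP_cb3c9c_an.TwoBlock

variable {n : ℕ}

theorem ac_lfS (a : Fin n → ℝ) (σ : ℝ) (x : Fin n → Bool) :
    lfS univ (fun i => σ * a i) x = σ * lf a x := by
  unfold lfS lf
  rw [Finset.mul_sum]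
  exact Finset.sum_congr rfl fun i _ => by ring

/-- Bessel's inequality -/
theorem ac_bessel (L : Finset (Fin n)) (F : (Fin n → Bool) → ℝ) :
    ∑ i ∈ L, (Ex fun x => F x * sb (x i)) ^ 2 ≤ Ex fun x => F x ^ 2 := by
  set c : Fin n → ℝ := fun i => Ex fun x => F x * sb (x i) with hc
  have h1 : (Ex fun x => F x * lfS L c x) = ∑ i ∈ L, c i ^ 2 := by
    have e : (fun x : Fin n → Bool => F x * lfS L c x) =
        fun x => ∑ i ∈ L, c i * (F x * sb (x i)) := by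
      funext x
      unfold lfS
      rw [Finset.mul_sum]
      exact Finset.sum_congr rfl fun i _ => by ring
    rw [e, Ex_sum]
    refine Finset.sum_congr rfl fun i _ => ?_
    rw [Ex_mul, pow_two]
  have h2 := Ex_cs F (fun x => lfS L c x)
  rw [h1, Ex_lfS_sq] at h2
  have h3 : 0 ≤ ∑ i ∈ L, c i ^ 2 := Finset.sum_nonneg fun i _ => sq_nonneg _
  have h4 : 0 ≤ Ex fun x => F x ^ 2 := Ex_nonneg fun x => sq_nonneg _
  change ∑ i ∈ L, c i ^ 2 ≤ _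
  rcases h3.eq_or_lt with h5 | h5
  · rw [← h5]; exact h4
  · by_contra hcon
    rw [not_le] at hcon
    nlinarith

theorem ac_mink {ι : Type} (L : Finset ι) (u w : ι → ℝ) :
    Real.sqrt (∑ i ∈ L, (u i + w i) ^ 2) ≤
      Real.sqrt (∑ i ∈ L, u i ^ 2) + Real.sqrt (∑ i ∈ L, w i ^ 2) := by
  rw [Real.sqrt_le_left (by positivity)]
  have h1 := Real.sum_mul_le_sqrt_mul_sqrt L u w
  have h2 : 0 ≤ ∑ i ∈ L, u i ^ 2 := Finset.sum_nonneg fun i _ => sq_nonneg _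
  have h3 : 0 ≤ ∑ i ∈ L, w i ^ 2 := Finset.sum_nonneg fun i _ => sq_nonneg _
  have h4 : ∑ i ∈ L, (u i + w i) ^ 2 =
      ∑ i ∈ L, u i ^ 2 + 2 * ∑ i ∈ L, u i * w i + ∑ i ∈ L, w i ^ 2 := by
    rw [Finset.mul_sum, ← Finset.sum_add_distrib, ← Finset.sum_add_distrib]
    exact Finset.sum_congr rfl fun i _ => by ring
  rw [h4, add_sq, Real.sq_sqrt h2, Real.sq_sqrt h3]
  linarith

/-- ROW REG-AC (three statements).  First degree coefficients of the smoothed sawtooth.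

PROOF.  `dec_coord` (R7a) with `I = univ`, `b = a` (irrelevant), `ν = 0`, `ν₀ = 1`, `ζ = 0`, `α = π/2`, `β = 0`, `q = σ a`,
`A₁ = 3/r`, `A₂ = 3/r²`: `|E[x_i φ(z)] - (σ a_i - m) E ψ(z)| ≤ 2A₂ (σ a_i - m)²`, `z = σ lf a x`. -/
theorem sc_smooth {a : Fin n → ℝ} {σ r : ℝ} {φ ψ : ℝ → ℝ}
    (hφ2 : ∀ t, φ (t + 2) = φ t) (hψ2 : ∀ t, ψ (t + 2) = ψ t)
    (hφ1 : ∀ t, |φ t| ≤ 1) (hψ1 : ∀ t, |ψ t| ≤ 3 / r)
    (hT : ∀ t h, |φ (t + h) - φ t - h * ψ t| ≤ 3 / r ^ 2 * h ^ 2)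
    (hL : ∀ t u, |ψ t - ψ u| ≤ 3 / r ^ 2 * |t - u|) (i : Fin n) (m : ℤ) :
    |Ex (fun x : Fin n → Bool => φ (σ * lf a x) * sb (x i)) -
        (σ * a i - m) * Ex (fun x : Fin n → Bool => ψ (σ * lf a x))| ≤
      6 / r ^ 2 * (σ * a i - m) ^ 2 := by
  have h := dec_coord (I := univ) (b := fun _ => 0) (q := fun i => σ * a i) (ν := fun _ => 0)
    (m := m) (β := 0) (ν₀ := 1) (α := Real.pi / 2) (ζ := 0) (A₁ := 3 / r) (A₂ := 3 / r ^ 2)
    hφ2 hψ2 hφ1 hψ1 hT hL (by simp) (mem_univ i)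
  have e0 : ∀ x : Fin n → Bool, lfS univ (fun _ => (0 : ℝ)) x = 0 := by
    intro x
    simp [lfS]
  simp only [e0, ac_lfS, zero_mul, mul_zero, add_zero, zero_add, Real.sin_pi_div_two, mul_one,
    one_mul, sub_zero, abs_zero] at h
  have e1 : (fun x : Fin n → Bool => φ (σ * lf a x) * sb (x i)) =
      fun x => sb (x i) * φ (σ * lf a x) := by
    funext x
    ring
  rw [e1]
  refine h.trans (le_of_eq ?_)
  ring

/-- PROOF.  Take `φ, ψ` from `exists_smooth_saw` (R7c), `z = σ lf a x`.  `∑_B a_i sc_i = E[X_B saw z] = E[X_B φ(z)] + E[X_B (saw z - φ z)]`,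
`X_B = lfS B a`; the last term is at most `(E X_B²)^{1/2} (E (saw z - φ z)²)^{1/2} ≤ 2 √P` (`saw_smooth_norm`, R11), and
`E[X_B φ(z)] = ∑_B a_i E[x_iφ(z)] = (∑_B a_i (σa_i - κ_i)) Eψ + O(∑_B a_i (6/r²) (σa_i - κ_i)²)`. -/
theorem sum_a_sc {a : Fin n → ℝ} {κ : Fin n → ℤ} {σ r δ : ℝ} {B : Finset (Fin n)} (hr : 0 < r)
    (hr2 : r ≤ 1 / 4) (ha : ∀ i, 0 ≤ a i) (hδ : ∀ i, a i ≤ δ) (h1 : ∑ i, a i ^ 2 ≤ 1) :
    |∑ i ∈ B, a i * sc a σ i| ≤ 3 / r * |∑ i ∈ B, a i * (σ * a i - κ i)| +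
      6 / r ^ 2 * δ * ∑ i ∈ B, (σ * a i - κ i) ^ 2 +
      2 * Real.sqrt (Ex fun x : Fin n → Bool => if dz (σ * lf a x) ≤ r then (1 : ℝ) else 0) := by
  obtain ⟨φ, ψ, hφ2, hψ2, hφ1, hψ1, hT, hL, hs⟩ := exists_smooth_saw hr hr2
  set P := Ex fun x : Fin n → Bool => if dz (σ * lf a x) ≤ r then (1 : ℝ) else 0 with hP
  set Eψ := Ex (fun x : Fin n → Bool => ψ (σ * lf a x)) with hEψ
  set u : Fin n → ℝ := fun i => Ex (fun x : Fin n → Bool => φ (σ * lf a x) * sb (x i)) with hu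
  have hsm : ∀ i, |u i - (σ * a i - κ i) * Eψ| ≤ 6 / r ^ 2 * (σ * a i - κ i) ^ 2 := fun i =>
    sc_smooth hφ2 hψ2 hφ1 hψ1 hT hL i (κ i)
  have hEψ1 : |Eψ| ≤ 3 / r := Ex_bound fun x => hψ1 _
  have hsplit : ∑ i ∈ B, a i * sc a σ i = ∑ i ∈ B, a i * u i +
      Ex (fun x : Fin n → Bool => (saw (σ * lf a x) - φ (σ * lf a x)) * lfS B a x) := by
    have e : (fun x : Fin n → Bool => (saw (σ * lf a x) - φ (σ * lf a x)) * lfS B a x) =
        fun x => ∑ i ∈ B, a i * (saw (σ * lf a x) * sb (x i) - φ (σ * lf a x) * sb (x i)) := by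
      funext x
      unfold lfS
      rw [Finset.mul_sum]
      exact Finset.sum_congr rfl fun i _ => by ring
    rw [e, Ex_sum, ← Finset.sum_add_distrib]
    refine Finset.sum_congr rfl fun i _ => ?_
    rw [Ex_mul, Ex_sub]
    unfold sc
    ring
  have hlast : |Ex (fun x : Fin n → Bool => (saw (σ * lf a x) - φ (σ * lf a x)) * lfS B a x)| ≤
      2 * Real.sqrt P := by
    refine (Ex_cs_abs _ _).trans ?_
    have h2 := saw_smooth_norm hφ1 hs (fun x : Fin n → Bool => σ * lf a x)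
    have h3 : Real.sqrt (Ex fun x : Fin n → Bool => (saw (σ * lf a x) - φ (σ * lf a x)) ^ 2) ≤
        2 * Real.sqrt P := by
      refine (Real.sqrt_le_sqrt h2).trans (le_of_eq ?_)
      rw [Real.sqrt_mul (by norm_num), show (4 : ℝ) = 2 ^ 2 by norm_num, Real.sqrt_sq (by norm_num)]
    have h4 : Real.sqrt (Ex fun x : Fin n → Bool => lfS B a x ^ 2) ≤ 1 := by
      rw [Ex_lfS_sq]
      refine (Real.sqrt_le_sqrt ?_).trans (le_of_eq Real.sqrt_one)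
      refine (Finset.sum_le_sum_of_subset_of_nonneg (Finset.subset_univ B) ?_).trans h1
      intro i _ _
      exact sq_nonneg _
    calc _ ≤ 2 * Real.sqrt P * 1 := mul_le_mul h3 h4 (Real.sqrt_nonneg _) (by positivity)
      _ = _ := mul_one _
  have hfirst : |∑ i ∈ B, a i * u i| ≤ 3 / r * |∑ i ∈ B, a i * (σ * a i - κ i)| +
      6 / r ^ 2 * δ * ∑ i ∈ B, (σ * a i - κ i) ^ 2 := by
    have e : ∑ i ∈ B, a i * u i = (∑ i ∈ B, a i * (σ * a i - κ i)) * Eψ +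
        ∑ i ∈ B, a i * (u i - (σ * a i - κ i) * Eψ) := by
      rw [Finset.sum_mul, ← Finset.sum_add_distrib]
      exact Finset.sum_congr rfl fun i _ => by ring
    rw [e]
    refine (abs_add_le _ _).trans (add_le_add ?_ ?_)
    · rw [abs_mul, mul_comm]
      exact mul_le_mul_of_nonneg_right hEψ1 (abs_nonneg _)
    · refine (Finset.abs_sum_le_sum_abs _ _).trans ?_
      rw [Finset.mul_sum]
      refine Finset.sum_le_sum fun i _ => ?_
      rw [abs_mul, abs_of_nonneg (ha i)]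
      calc a i * |u i - (σ * a i - κ i) * Eψ| ≤ δ * (6 / r ^ 2 * (σ * a i - κ i) ^ 2) :=
            mul_le_mul (hδ i) (hsm i) (abs_nonneg _) ((ha i).trans (hδ i))
        _ = _ := by ring
  rw [hsplit]
  exact (abs_add_le _ _).trans (add_le_add hfirst hlast)

/-- PROOF.  `φ, ψ` as before, `ω_i = σa_i - κ_i`, `|ω_i| ≤ θr`.  `|E[x_iφ(z)]| ≤ (3/r)|ω_i| + (6/r²) ω_i² ≤ 9|ω_i|/r`, so
`(∑_L (E x_iφ)²)^{1/2} ≤ 9θ`; and `(∑_L (E x_i (saw z - φ z))²)^{1/2} ≤ (E (saw z - φ z)²)^{1/2} ≤ 2√P` (Bessel's inequality for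
the orthonormal `sb (x i)`; `Ex_lfS_mul`).  Minkowski. -/
theorem sc_L {a : Fin n → ℝ} {κ : Fin n → ℤ} {σ r θ : ℝ} {L : Finset (Fin n)} (hr : 0 < r)
    (hr2 : r ≤ 1 / 4) (hθ : 0 ≤ θ) (hθ1 : θ ≤ 1)
    (hω : ∑ i ∈ L, (σ * a i - κ i) ^ 2 ≤ (θ * r) ^ 2) :
    Real.sqrt (∑ i ∈ L, sc a σ i ^ 2) ≤ 9 * θ +
      2 * Real.sqrt (Ex fun x : Fin n → Bool => if dz (σ * lf a x) ≤ r then (1 : ℝ) else 0) := by
  obtain ⟨φ, ψ, hφ2, hψ2, hφ1, hψ1, hT, hL, hs⟩ := exists_smooth_saw hr hr2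
  set P := Ex fun x : Fin n → Bool => if dz (σ * lf a x) ≤ r then (1 : ℝ) else 0 with hP
  set Eψ := Ex (fun x : Fin n → Bool => ψ (σ * lf a x)) with hEψ
  set u : Fin n → ℝ := fun i => Ex (fun x : Fin n → Bool => φ (σ * lf a x) * sb (x i)) with hu
  set w : Fin n → ℝ := fun i => Ex (fun x : Fin n → Bool =>
    (saw (σ * lf a x) - φ (σ * lf a x)) * sb (x i)) with hw
  have hsm : ∀ i, |u i - (σ * a i - κ i) * Eψ| ≤ 6 / r ^ 2 * (σ * a i - κ i) ^ 2 := fun i =>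
    sc_smooth hφ2 hψ2 hφ1 hψ1 hT hL i (κ i)
  have hEψ1 : |Eψ| ≤ 3 / r := Ex_bound fun x => hψ1 _
  have hsc : ∀ i, sc a σ i = u i + w i := by
    intro i
    have e : (fun x : Fin n → Bool => (saw (σ * lf a x) - φ (σ * lf a x)) * sb (x i)) =
        fun x => saw (σ * lf a x) * sb (x i) - φ (σ * lf a x) * sb (x i) := by
      funext x
      ring
    simp only [hu, hw, e, Ex_sub]
    unfold sc
    ring
  have hb : ∑ i ∈ L, w i ^ 2 ≤ 4 * P :=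
    (ac_bessel L (fun x : Fin n → Bool => saw (σ * lf a x) - φ (σ * lf a x))).trans
      (saw_smooth_norm hφ1 hs (fun x : Fin n → Bool => σ * lf a x))
  have hwb : Real.sqrt (∑ i ∈ L, w i ^ 2) ≤ 2 * Real.sqrt P := by
    refine (Real.sqrt_le_sqrt hb).trans (le_of_eq ?_)
    rw [Real.sqrt_mul (by norm_num), show (4 : ℝ) = 2 ^ 2 by norm_num, Real.sqrt_sq (by norm_num)]
  have hub : Real.sqrt (∑ i ∈ L, u i ^ 2) ≤ 9 * θ := by
    rw [Real.sqrt_le_left (by positivity)]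
    have h1 : ∀ i ∈ L, u i ^ 2 ≤ 81 / r ^ 2 * (σ * a i - κ i) ^ 2 := by
      intro i hi
      set ω := σ * a i - κ i with hωd
      have h2 : ω ^ 2 ≤ (θ * r) ^ 2 := by
        refine le_trans ?_ hω
        exact Finset.single_le_sum (f := fun i => (σ * a i - κ i) ^ 2)
          (fun i _ => sq_nonneg _) hi
      have h3 : |ω| ≤ θ * r := abs_le_of_sq_le_sq h2 (by positivity)
      have h4 : |ω| ≤ r := h3.trans (by nlinarith)
      have h5 : |u i| ≤ 9 / r * |ω| := by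
        have h6 : |u i| ≤ |u i - ω * Eψ| + |ω * Eψ| := by
          calc |u i| = |(u i - ω * Eψ) + ω * Eψ| := by ring_nf
            _ ≤ _ := abs_add_le _ _
        have h7 : |ω * Eψ| ≤ |ω| * (3 / r) := by
          rw [abs_mul]
          exact mul_le_mul_of_nonneg_left hEψ1 (abs_nonneg _)
        have h8 : 6 / r ^ 2 * ω ^ 2 ≤ 6 / r * |ω| := by
          rw [← sq_abs ω]
          have e : 6 / r * |ω| - 6 / r ^ 2 * |ω| ^ 2 = 6 / r ^ 2 * |ω| * (r - |ω|) := by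
            field_simp
          have : 0 ≤ 6 / r ^ 2 * |ω| * (r - |ω|) :=
            mul_nonneg (by positivity) (by linarith)
          linarith
        have h9 := hsm i
        have e2 : 9 / r * |ω| = 6 / r * |ω| + |ω| * (3 / r) := by ring
        rw [e2]
        linarith
      calc u i ^ 2 = |u i| ^ 2 := (sq_abs _).symm
        _ ≤ (9 / r * |ω|) ^ 2 := pow_le_pow_left₀ (abs_nonneg _) h5 2
        _ = 81 / r ^ 2 * ω ^ 2 := by rw [mul_pow, sq_abs]; ring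
    calc ∑ i ∈ L, u i ^ 2 ≤ ∑ i ∈ L, 81 / r ^ 2 * (σ * a i - κ i) ^ 2 := Finset.sum_le_sum h1
      _ = 81 / r ^ 2 * ∑ i ∈ L, (σ * a i - κ i) ^ 2 := by rw [Finset.mul_sum]
      _ ≤ 81 / r ^ 2 * (θ * r) ^ 2 := mul_le_mul_of_nonneg_left hω (by positivity)
      _ = (9 * θ) ^ 2 := by field_simp; ring
  have h0 : ∑ i ∈ L, sc a σ i ^ 2 = ∑ i ∈ L, (u i + w i) ^ 2 :=
    Finset.sum_congr rfl fun i _ => by rw [hsc]
  rw [h0]
  exact (ac_mink L u w).trans (add_le_add hub hwb)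

end Pool.Agent.MP_cb3c9c_an.REG
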