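import Pool.Agent.MP_cb3c9c_an.TwoBlockFourier

set_option autoImplicit false

open Finset
open scoped BigOperators

namespace Pool.Agent.MP_cb3c9c_an.REG

open Pool.Agent.MP_cb3c9c_an.TwoBlock

variable {n : ℕ}

/-! ### Definitions -/

/-- The linear form `∑_{i ∈ S} a_i x_i`. -/
noncomputable def lfS (S : Finset (Fin n)) (a : Fin n → ℝ) (x : Fin n → Bool) : ℝ :=
  ∑ i ∈ S, a i * sb (x i)

/-- The linear form `∑_i a_i x_i`. -/
noncomputable def lf (a : Fin n → ℝ) (x : Fin n → Bool) : ℝ := ∑ i, a i * sb (x i)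

/-- The characteristic function `∏_i cos (a_i t)`. -/
noncomputable def PP (a : Fin n → ℝ) (t : ℝ) : ℝ := ∏ i, Real.cos (a i * t)

/-- The fourth moment sum. -/
noncomputable def kap (a : Fin n → ℝ) : ℝ := ∑ i, a i ^ 4

/-- Distance to the nearest multiple of `π`. -/
noncomputable def dp (u : ℝ) : ℝ := |u - Real.pi * (round (u / Real.pi) : ℝ)|

/-- The almost period norm. -/
noncomputable def NN (a : Fin n → ℝ) (t : ℝ) : ℝ := Real.sqrt (∑ i, dp (a i * t) ^ 2)

/-- `E |a.x|`. -/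
noncomputable def DD (a : Fin n → ℝ) : ℝ := Ex fun x => |lf a x|

/-- The Chow vector of `sgn (a.x)`. -/
noncomputable def cw (a : Fin n → ℝ) (i : Fin n) : ℝ := Ex fun x => sg (lf a x) * sb (x i)

/-- The sawtooth of period `2` with jumps at the even integers: `saw t = t - 1` for `0 ≤ t < 2`. -/
noncomputable def saw (t : ℝ) : ℝ := 2 * Int.fract (t / 2) - 1

/-- The degree one coefficients of `saw (s * a.x)`. -/
noncomputable def sc (a : Fin n → ℝ) (s : ℝ) (i : Fin n) : ℝ :=
  Ex fun x => saw (s * lf a x) * sb (x i)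

/-- Distance to the nearest even integer. -/
noncomputable def dz (t : ℝ) : ℝ := |t - 2 * (round (t / 2) : ℝ)|

/-- Regular unit vectors: `δ` is a bound for all `|a i|`, and `δ ^ 4 ≤ ∑ a i ^ 4` (in the applications
`δ = max |a i|`). -/
structure Reg (a : Fin n → ℝ) (δ : ℝ) : Prop where
  pos : 0 < δ
  unit : ∑ i, a i ^ 2 = 1
  le : ∀ i, |a i| ≤ δ
  kap_ge : δ ^ 4 ≤ kap a

/-- `F` depends only on the coordinates in `S`. -/
def Dep (S : Finset (Fin n)) (F : (Fin n → Bool) → ℝ) : Prop :=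
  ∀ x y, (∀ i ∈ S, x i = y i) → F x = F y

/-- set the coordinate `i` to `+1` -/
def up (i : Fin n) (x : Fin n → Bool) : Fin n → Bool := Function.update x i false

/-- set the coordinate `i` to `-1` -/
def dn (i : Fin n) (x : Fin n → Bool) : Fin n → Bool := Function.update x i true

/-- Discrete derivative. -/
noncomputable def DI (i : Fin n) (F : (Fin n → Bool) → ℝ) (x : Fin n → Bool) : ℝ :=
  (F (up i x) - F (dn i x)) / 2

/-- Average over the coordinate `i`. -/
noncomputable def AI (i : Fin n) (F : (Fin n → Bool) → ℝ) (x : Fin n → Bool) : ℝ :=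
  (F (up i x) + F (dn i x)) / 2

/-! ### Basic lemmas on `Ex` -/

lemma Ex_le {α : Type} [Fintype α] {f g : α → ℝ} (h : ∀ a, f a ≤ g a) : Ex f ≤ Ex g := Ex_mono h

lemma Ex_abs_le {α : Type} [Fintype α] (f : α → ℝ) : |Ex f| ≤ Ex fun a => |f a| := by
  unfold Ex
  rw [abs_div, Nat.abs_cast]
  apply div_le_div_of_nonneg_right (Finset.abs_sum_le_sum_abs _ _) (by positivity)

lemma Ex_neg {α : Type} [Fintype α] (f : α → ℝ) : Ex (fun a => - f a) = - Ex f := by
  simp [Ex, Finset.sum_neg_distrib, neg_div]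

lemma Ex_bound {α : Type} [Fintype α] [Nonempty α] {f : α → ℝ} {B : ℝ} (h : ∀ a, |f a| ≤ B) :
    |Ex f| ≤ B := by
  refine (Ex_abs_le f).trans ?_
  calc Ex (fun a => |f a|) ≤ Ex fun _ => B := Ex_mono h
    _ = B := Ex_const B

/-- Cauchy–Schwarz. -/
lemma Ex_cs {α : Type} [Fintype α] (f g : α → ℝ) :
    (Ex fun a => f a * g a) ^ 2 ≤ (Ex fun a => f a ^ 2) * (Ex fun a => g a ^ 2) := by
  unfold Ex
  rw [div_pow, div_mul_div_comm, ← pow_two]
  apply div_le_div_of_nonneg_right (Finset.sum_mul_sq_le_sq_mul_sq _ _ _) (by positivity)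

lemma Ex_cs_abs {α : Type} [Fintype α] (f g : α → ℝ) :
    |Ex fun a => f a * g a| ≤ Real.sqrt (Ex fun a => f a ^ 2) * Real.sqrt (Ex fun a => g a ^ 2) := by
  rw [← Real.sqrt_mul (Ex_nonneg fun a => sq_nonneg _), ← Real.sqrt_sq_eq_abs]
  exact Real.sqrt_le_sqrt (Ex_cs f g)

/-! ### Flipping one coordinate -/

lemma sb_up (i : Fin n) (x : Fin n → Bool) : sb (up i x i) = 1 := by simp [up]

lemma sb_dn (i : Fin n) (x : Fin n → Bool) : sb (dn i x i) = -1 := by simp [dn]

lemma up_ne {i j : Fin n} (h : j ≠ i) (x : Fin n → Bool) : up i x j = x j := by simp [up, h]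

lemma dn_ne {i j : Fin n} (h : j ≠ i) (x : Fin n → Bool) : dn i x j = x j := by simp [dn, h]

/-- flipping the coordinate `i` -/
def flipEquiv (i : Fin n) : (Fin n → Bool) ≃ (Fin n → Bool) where
  toFun x := Function.update x i (!x i)
  invFun x := Function.update x i (!x i)
  left_inv x := by simp
  right_inv x := by simp

lemma up_dn_pair (i : Fin n) (x : Fin n → Bool) (G : (Fin n → Bool) → ℝ) :
    G (up i x) + G (dn i x) = G x + G (flipEquiv i x) := by
  cases h : x i
  · have h1 : up i x = x := by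
      funext j; by_cases hj : j = i
      · subst hj; simp [up, h]
      · simp [up, hj]
    have h2 : dn i x = flipEquiv i x := by
      simp [dn, flipEquiv, h]
    rw [h1, h2]
  · have h1 : dn i x = x := by
      funext j; by_cases hj : j = i
      · subst hj; simp [dn, h]
      · simp [dn, hj]
    have h2 : up i x = flipEquiv i x := by
      simp [up, flipEquiv, h]
    rw [h1, h2]; ring

lemma Ex_AI (i : Fin n) (F : (Fin n → Bool) → ℝ) : Ex (AI i F) = Ex F := by
  have h : (AI i F) = fun x => (1 / 2) * (F x + F (flipEquiv i x)) := by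
    funext x
    unfold AI
    rw [up_dn_pair]; ring
  rw [h, Ex_mul, Ex_add, Ex_equiv (flipEquiv i) F]; ring

lemma DI_eq_AI (i : Fin n) (F : (Fin n → Bool) → ℝ) :
    DI i F = AI i (fun x => sb (x i) * F x) := by
  funext x
  simp only [DI, AI, sb_up, sb_dn]
  ring

/-- `E [x_i F] = E [D_i F]`. -/
lemma Ex_sb_mul (i : Fin n) (F : (Fin n → Bool) → ℝ) :
    Ex (fun x => sb (x i) * F x) = Ex (DI i F) := by
  rw [DI_eq_AI, Ex_AI]

lemma DI_mul (i : Fin n) (F G : (Fin n → Bool) → ℝ) (x : Fin n → Bool) :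
    DI i (fun y => F y * G y) x = DI i F x * AI i G x + AI i F x * DI i G x := by
  unfold DI AI; ring

lemma AI_mul (i : Fin n) (F G : (Fin n → Bool) → ℝ) (x : Fin n → Bool) :
    AI i (fun y => F y * G y) x = AI i F x * AI i G x + DI i F x * DI i G x := by
  unfold DI AI; ring

lemma AI_abs_le (i : Fin n) (F : (Fin n → Bool) → ℝ) {B : ℝ} (h : ∀ x, |F x| ≤ B)
    (x : Fin n → Bool) : |AI i F x| ≤ B := by
  unfold AI
  rw [abs_div, abs_two, div_le_iff₀ (by norm_num)]
  calc |F (up i x) + F (dn i x)| ≤ |F (up i x)| + |F (dn i x)| := abs_add_le _ _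
    _ ≤ B * 2 := by linarith [h (up i x), h (dn i x)]

/-! ### Linear forms -/

lemma lf_eq (a : Fin n → ℝ) (x : Fin n → Bool) : lf a x = lfS univ a x := rfl

lemma lfS_up (S : Finset (Fin n)) (a : Fin n → ℝ) {i : Fin n} (hi : i ∈ S) (x : Fin n → Bool) :
    lfS S a (up i x) = lfS (S.erase i) a x + a i := by
  unfold lfS
  rw [← Finset.sum_erase_add _ _ hi, sb_up]
  congr 1
  · apply Finset.sum_congr rfl
    intro j hj
    rw [up_ne (Finset.ne_of_mem_erase hj)]
  · ring

lemma lfS_dn (S : Finset (Fin n)) (a : Fin n → ℝ) {i : Fin n} (hi : i ∈ S) (x : Fin n → Bool) :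
    lfS S a (dn i x) = lfS (S.erase i) a x - a i := by
  unfold lfS
  rw [← Finset.sum_erase_add _ _ hi, sb_dn]
  rw [sub_eq_add_neg]
  congr 1
  · apply Finset.sum_congr rfl
    intro j hj
    rw [dn_ne (Finset.ne_of_mem_erase hj)]
  · ring

lemma lfS_erase (S : Finset (Fin n)) (a : Fin n → ℝ) {i : Fin n} (hi : i ∈ S) (x : Fin n → Bool) :
    lfS S a x = lfS (S.erase i) a x + a i * sb (x i) := by
  unfold lfS
  rw [← Finset.sum_erase_add _ _ hi]

lemma lfS_up_not (S : Finset (Fin n)) (a : Fin n → ℝ) {i : Fin n} (hi : i ∉ S)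
    (x : Fin n → Bool) : lfS S a (up i x) = lfS S a x := by
  unfold lfS
  apply Finset.sum_congr rfl
  intro j hj
  have hji : j ≠ i := by rintro rfl; exact hi hj
  rw [up_ne hji]

lemma lfS_dn_not (S : Finset (Fin n)) (a : Fin n → ℝ) {i : Fin n} (hi : i ∉ S)
    (x : Fin n → Bool) : lfS S a (dn i x) = lfS S a x := by
  unfold lfS
  apply Finset.sum_congr rfl
  intro j hj
  have hji : j ≠ i := by rintro rfl; exact hi hj
  rw [dn_ne hji]

lemma lfS_dep (S : Finset (Fin n)) (a : Fin n → ℝ) (x y : Fin n → Bool)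
    (h : ∀ i ∈ S, x i = y i) : lfS S a x = lfS S a y := by
  unfold lfS
  apply Finset.sum_congr rfl
  intro i hi
  rw [h i hi]

lemma lf_split (S : Finset (Fin n)) (a : Fin n → ℝ) (x : Fin n → Bool) :
    lf a x = lfS S a x + lfS Sᶜ a x := by
  unfold lf lfS
  rw [Finset.sum_add_sum_compl]

lemma lfS_disj {S T : Finset (Fin n)} (h : Disjoint S T) (a : Fin n → ℝ) (x : Fin n → Bool) :
    lfS (S ∪ T) a x = lfS S a x + lfS T a x := by
  unfold lfS
  rw [Finset.sum_union h]

lemma lfS_abs_le (S : Finset (Fin n)) (a : Fin n → ℝ) (x : Fin n → Bool) :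
    |lfS S a x| ≤ ∑ i ∈ S, |a i| := by
  unfold lfS
  refine (Finset.abs_sum_le_sum_abs _ _).trans (Finset.sum_le_sum fun i _ => ?_)
  rw [abs_mul]
  have : |sb (x i)| = 1 := by cases x i <;> simp
  rw [this, mul_one]

/-- negation of all bits -/
def negEquiv : (Fin n → Bool) ≃ (Fin n → Bool) where
  toFun x := fun i => !x i
  invFun x := fun i => !x i
  left_inv x := by funext i; simp
  right_inv x := by funext i; simp

lemma lfS_neg (S : Finset (Fin n)) (a : Fin n → ℝ) (x : Fin n → Bool) :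
    lfS S a (negEquiv x) = - lfS S a x := by
  unfold lfS
  rw [← Finset.sum_neg_distrib]
  apply Finset.sum_congr rfl
  intro i _
  simp only [negEquiv, Equiv.coe_fn_mk, sb_not]; ring

lemma Ex_negEquiv (F : (Fin n → Bool) → ℝ) : Ex (fun x => F (negEquiv x)) = Ex F :=
  Ex_equiv negEquiv F

/-- An odd function has mean zero. -/
lemma Ex_odd (F : (Fin n → Bool) → ℝ) (h : ∀ x, F (negEquiv x) = - F x) : Ex F = 0 := by
  have h1 := Ex_negEquiv F
  have h2 : (fun x => F (negEquiv x)) = fun x => - F x := funext h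
  rw [h2, Ex_neg] at h1
  linarith

lemma Ex_sb_sb (i j : Fin n) :
    Ex (fun x : Fin n → Bool => sb (x i) * sb (x j)) = if i = j then 1 else 0 := by
  have h := chi_orth (n := n) {i} {j}
  simp only [chi, Finset.prod_singleton, Finset.singleton_inj] at h
  exact h

lemma Ex_sb (i : Fin n) : Ex (fun x : Fin n → Bool => sb (x i)) = 0 := by
  apply Ex_odd
  intro x
  simp [negEquiv, sb_not]

/-- `E [(∑_S c_i x_i)(∑_T d_i x_i)] = ∑_{S ∩ T} c_i d_i`. -/
lemma Ex_lfS_mul (S T : Finset (Fin n)) (c d : Fin n → ℝ) :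
    Ex (fun x => lfS S c x * lfS T d x) = ∑ i ∈ S ∩ T, c i * d i := by
  have h : (fun x : Fin n → Bool => lfS S c x * lfS T d x) =
      fun x => ∑ i ∈ S, ∑ j ∈ T, c i * d j * (sb (x i) * sb (x j)) := by
    funext x
    unfold lfS
    rw [Finset.sum_mul_sum]
    apply Finset.sum_congr rfl; intro i _
    apply Finset.sum_congr rfl; intro j _
    ring
  rw [h, Ex_sum]
  have h2 : ∀ i ∈ S, Ex (fun x : Fin n → Bool => ∑ j ∈ T, c i * d j * (sb (x i) * sb (x j))) =
      if i ∈ T then c i * d i else 0 := by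
    intro i _
    rw [Ex_sum]
    simp only [Ex_mul, Ex_sb_sb]
    simp only [mul_ite, mul_one, mul_zero, Finset.sum_ite_eq]
  rw [Finset.sum_congr rfl h2, ← Finset.sum_filter]
  congr 1

lemma Ex_lfS_sq (S : Finset (Fin n)) (c : Fin n → ℝ) :
    Ex (fun x => lfS S c x ^ 2) = ∑ i ∈ S, c i ^ 2 := by
  have h := Ex_lfS_mul S S c c
  simp only [Finset.inter_self] at h
  calc Ex (fun x => lfS S c x ^ 2) = Ex (fun x => lfS S c x * lfS S c x) := by
        congr 1; funext x; ring
    _ = ∑ i ∈ S, c i * c i := h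
    _ = _ := Finset.sum_congr rfl fun i _ => by ring

lemma Ex_lf_sq (c : Fin n → ℝ) : Ex (fun x => lf c x ^ 2) = ∑ i, c i ^ 2 := Ex_lfS_sq univ c

lemma Ex_abs_lfS_le (S : Finset (Fin n)) (c : Fin n → ℝ) (h : ∑ i ∈ S, c i ^ 2 ≤ 1) :
    Ex (fun x => |lfS S c x|) ≤ 1 := by
  have h1 := Ex_cs (fun x : Fin n → Bool => |lfS S c x|) (fun _ => (1 : ℝ))
  simp only [mul_one, one_pow, Ex_const, sq_abs, Ex_lfS_sq] at h1
  have h2 : 0 ≤ Ex (fun x : Fin n → Bool => |lfS S c x|) := Ex_nonneg fun x => abs_nonneg _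
  nlinarith

/-- Independence. -/
lemma Ex_indep {S T : Finset (Fin n)} (hST : Disjoint S T) {F G : (Fin n → Bool) → ℝ}
    (hF : Dep S F) (hG : Dep T G) : Ex (fun x => F x * G x) = Ex F * Ex G := by
  classical
  let z : Fin n → Bool := fun i => decide (i ∈ S)
  have h := Ex_mix (fun x => F x * G x) z
  rw [← h]
  have h1 : ∀ x y, F (mix z x y) = F x := by
    intro x y
    apply hF
    intro i hi
    simp [mix, z, hi]
  have h2 : ∀ x y, G (mix z x y) = G y := by
    intro x y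
    apply hG
    intro i hi
    have : i ∉ S := fun h => (Finset.disjoint_left.mp hST h) hi
    simp [mix, z, this]
  simp only [h1, h2, Ex_mul, Ex_mul']

lemma abs_cos_sub_cos_le (x y : ℝ) : |Real.cos x - Real.cos y| ≤ |x - y| := by
  rw [Real.cos_sub_cos]
  rw [abs_mul, abs_mul]
  have h1 : |Real.sin ((x + y) / 2)| ≤ 1 := Real.abs_sin_le_one _
  have h2 : |Real.sin ((x - y) / 2)| ≤ |(x - y) / 2| := Real.abs_sin_le_abs
  have h3 : |(-2 : ℝ)| = 2 := by norm_num
  rw [h3]
  rw [abs_div, abs_two] at h2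
  nlinarith [abs_nonneg (Real.sin ((x + y) / 2)), abs_nonneg (Real.sin ((x - y) / 2)), abs_nonneg (x - y)]

/-- `E cos (b.x + α) = cos α ∏ cos b_i`. -/
lemma Ex_cos (S : Finset (Fin n)) (b : Fin n → ℝ) (α : ℝ) :
    Ex (fun x => Real.cos (lfS S b x + α)) = Real.cos α * ∏ i ∈ S, Real.cos (b i) := by
  induction S using Finset.induction_on generalizing α with
  | empty => simp [lfS, Ex_const]
  | insert i S hi ih =>
    have h : ∀ x : Fin n → Bool, lfS (insert i S) b x = lfS S b x + b i * sb (x i) := by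
      intro x
      unfold lfS
      rw [Finset.sum_insert hi]; ring
    have h2 := Ex_AI i (fun x => Real.cos (lfS (insert i S) b x + α))
    rw [← h2]
    have h3 : (AI i fun x => Real.cos (lfS (insert i S) b x + α)) =
        fun x => Real.cos (b i) * Real.cos (lfS S b x + α) := by
      funext x
      simp only [AI, h, lfS_up_not S b hi, lfS_dn_not S b hi, sb_up, sb_dn]
      rw [show lfS S b x + b i * 1 + α = (lfS S b x + α) + b i by ring,
        show lfS S b x + b i * -1 + α = (lfS S b x + α) - b i by ring, Real.cos_add, Real.cos_sub]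
      ring
    rw [h3, Ex_mul, ih, Finset.prod_insert hi]; ring

lemma Ex_cos_lf (a : Fin n → ℝ) (t α : ℝ) :
    Ex (fun x => Real.cos (t * lf a x + α)) = Real.cos α * PP a t := by
  have h := Ex_cos (univ : Finset (Fin n)) (fun i => a i * t) α
  have h2 : ∀ x : Fin n → Bool, lfS univ (fun i => a i * t) x = t * lf a x := by
    intro x
    unfold lfS lf
    rw [Finset.mul_sum]
    apply Finset.sum_congr rfl; intro i _; ring
  simp only [h2] at h
  exact h

lemma Reg.kap_pos {a : Fin n → ℝ} {δ : ℝ} (h : Reg a δ) : 0 < kap a :=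
  lt_of_lt_of_le (by have := h.pos; positivity) h.kap_ge

lemma Reg.kap_le {a : Fin n → ℝ} {δ : ℝ} (h : Reg a δ) : kap a ≤ δ ^ 2 := by
  unfold kap
  calc ∑ i, a i ^ 4 ≤ ∑ i, δ ^ 2 * a i ^ 2 := by
        apply Finset.sum_le_sum
        intro i _
        have h1 : a i ^ 2 ≤ δ ^ 2 := by
          rw [← sq_abs (a i)]
          exact pow_le_pow_left₀ (abs_nonneg _) (h.le i) 2
        nlinarith [sq_nonneg (a i)]
    _ = δ ^ 2 := by rw [← Finset.mul_sum, h.unit, mul_one]

lemma Reg.sqrt_kap_le {a : Fin n → ℝ} {δ : ℝ} (h : Reg a δ) : Real.sqrt (kap a) ≤ δ := by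
  rw [← Real.sqrt_sq h.pos.le]
  exact Real.sqrt_le_sqrt h.kap_le

lemma Reg.sqrt_kap_pos {a : Fin n → ℝ} {δ : ℝ} (h : Reg a δ) : 0 < Real.sqrt (kap a) :=
  Real.sqrt_pos.mpr h.kap_pos

lemma Reg.sq_le_sqrt_kap {a : Fin n → ℝ} {δ : ℝ} (h : Reg a δ) : δ ^ 2 ≤ Real.sqrt (kap a) := by
  rw [← Real.sqrt_sq (by positivity : (0:ℝ) ≤ δ ^ 2)]
  apply Real.sqrt_le_sqrt
  calc (δ ^ 2) ^ 2 = δ ^ 4 := by ring
    _ ≤ kap a := h.kap_ge

/-- Every unit vector with small entries is regular. -/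
lemma reg_of_unit {a : Fin n → ℝ} {d : ℝ} (h1 : ∑ i, a i ^ 2 = 1) (hd : ∀ i, |a i| ≤ d) :
    ∃ δ, Reg a δ ∧ δ ≤ d := by
  have hne : (univ : Finset (Fin n)).Nonempty := by
    by_contra hcon
    rw [Finset.not_nonempty_iff_eq_empty] at hcon
    rw [hcon] at h1
    simp at h1
  obtain ⟨i0, _, hi0⟩ := Finset.exists_max_image univ (fun i => |a i|) hne
  have hpos : 0 < |a i0| := by
    by_contra hcon
    have h0 : ∀ i, a i = 0 := by
      intro i
      have h2 := hi0 i (mem_univ i)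
      have h3 : |a i| ≤ 0 := h2.trans (not_lt.mp hcon)
      exact abs_eq_zero.mp (le_antisymm h3 (abs_nonneg _))
    simp [h0] at h1
  refine ⟨|a i0|, ⟨hpos, h1, fun i => hi0 i (mem_univ i), ?_⟩, hd i0⟩
  have h4 : |a i0| ^ 4 = a i0 ^ 4 := by
    rw [show |a i0| ^ 4 = (|a i0| ^ 2) ^ 2 by ring, sq_abs]; ring
  rw [h4]
  unfold kap
  exact Finset.single_le_sum (f := fun i => a i ^ 4) (fun i _ => by positivity) (mem_univ i0)

lemma abs_PP_le_one (a : Fin n → ℝ) (t : ℝ) : |PP a t| ≤ 1 := by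
  unfold PP
  rw [Finset.abs_prod]
  exact Finset.prod_le_one (fun i _ => abs_nonneg _) (fun i _ => Real.abs_cos_le_one _)

lemma PP_zero (a : Fin n → ℝ) : PP a 0 = 1 := by simp [PP]

lemma continuous_PP (a : Fin n → ℝ) : Continuous (PP a) := by
  unfold PP
  exact continuous_finsetProd _ fun i _ => by fun_prop

lemma abs_PP_sub_le (a : Fin n → ℝ) (h1 : ∑ i, a i ^ 2 ≤ 1) (s t : ℝ) :
    |PP a s - PP a t| ≤ |s - t| := by
  have e1 : ∀ r, PP a r = Ex fun x => Real.cos (r * lf a x) := by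
    intro r
    have := Ex_cos_lf a r 0
    simpa using this.symm
  rw [e1, e1, ← Ex_sub]
  refine (Ex_abs_le _).trans ?_
  have e2 : ∀ x : Fin n → Bool, |Real.cos (s * lf a x) - Real.cos (t * lf a x)| ≤
      |s - t| * |lf a x| := by
    intro x
    rw [← abs_mul]
    have := abs_cos_sub_cos_le (s * lf a x) (t * lf a x)
    refine this.trans (le_of_eq ?_)
    congr 1; ring
  refine (Ex_mono e2).trans ?_
  rw [Ex_mul]
  have h3 := Ex_abs_lfS_le (univ : Finset (Fin n)) a h1
  have h4 : (Ex fun x : Fin n → Bool => |lf a x|) ≤ 1 := h3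
  nlinarith [abs_nonneg (s - t)]

end Pool.Agent.MP_cb3c9c_an.REG
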