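import Pool.Agent.MP_cb3c9c_an.REG.N2

set_option autoImplicit false

open Finset MeasureTheory
open scoped BigOperators

namespace Pool.Agent.MP_cb3c9c_an.REG

open Pool.Agent.MP_cb3c9c_an.TwoBlock

variable {n : ℕ}

/-- lower bound for the distance to `π ℤ` of `y + π k` -/
theorem n4_dp {x y : ℝ} {k : ℤ} (hx : x = y + Real.pi * k) :
    dp x ^ 2 = y ^ 2 ∨ Real.pi - |y| ≤ dp x := by
  unfold dp
  obtain ⟨m, hm⟩ : ∃ m : ℤ, m = round (x / Real.pi) := ⟨_, rfl⟩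
  rw [← hm]
  by_cases hj : m = k
  · left
    rw [sq_abs, hj, hx]
    ring
  · right
    have h1 : (1 : ℝ) ≤ |((m - k : ℤ) : ℝ)| := by
      have : (1 : ℤ) ≤ |m - k| := Int.one_le_abs (sub_ne_zero.mpr hj)
      exact_mod_cast this
    have h2 : x - Real.pi * m = y - Real.pi * ((m - k : ℤ) : ℝ) := by
      rw [hx]; push_cast; ring
    rw [h2]
    have h3 : |Real.pi * ((m - k : ℤ) : ℝ)| - |y| ≤ |y - Real.pi * ((m - k : ℤ) : ℝ)| := by
      rw [abs_sub_comm]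
      exact abs_sub_abs_le_abs_sub _ _
    rw [abs_mul, abs_of_pos Real.pi_pos] at h3
    have h4 : Real.pi * 1 ≤ Real.pi * |((m - k : ℤ) : ℝ)| :=
      mul_le_mul_of_nonneg_left h1 Real.pi_pos.le
    linarith

/-- the loss in one coordinate -/
theorem n4_loss {x y b' e : ℝ} {k : ℤ} (hx : x = y + Real.pi * k) (he : 0 ≤ e)
    (he1 : e ≤ 1 / 50) (hy : |y| ≤ Real.pi / 2 + e) (hb : |y| ≤ |b'| + e) :
    y ^ 2 - Real.pi * e * b' ^ 2 ≤ dp x ^ 2 := by
  have hpi := Real.pi_gt_d4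
  have hpi0 := Real.pi_pos
  have hy0 := abs_nonneg y
  have hs : |y| ^ 2 = y ^ 2 := sq_abs y
  have hn : 0 ≤ Real.pi * e * b' ^ 2 := by positivity
  rcases n4_dp hx with h1 | h1
  · rw [h1]; linarith
  · by_cases h2 : |y| ≤ Real.pi / 2
    · have h3 : |y| ≤ dp x := by linarith
      have h4 : |y| ^ 2 ≤ dp x ^ 2 := pow_le_pow_left₀ hy0 h3 2
      linarith
    · push Not at h2
      have h3 : 0 ≤ Real.pi - |y| := by linarith
      have h4 : (Real.pi - |y|) ^ 2 ≤ dp x ^ 2 := pow_le_pow_left₀ h3 h1 2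
      have h5 : (3 / 2 : ℝ) ≤ |b'| := by linarith
      have h6 : (2 : ℝ) ≤ b' ^ 2 := by
        rw [← sq_abs]; nlinarith
      have h7 : (Real.pi - |y|) ^ 2 = y ^ 2 - Real.pi * (2 * |y| - Real.pi) := by
        rw [← hs]; ring
      have h8 : Real.pi * (2 * |y| - Real.pi) ≤ Real.pi * (2 * e) :=
        mul_le_mul_of_nonneg_left (by linarith) hpi0.le
      have h9 : Real.pi * e * 2 ≤ Real.pi * e * b' ^ 2 :=
        mul_le_mul_of_nonneg_left h6 (by positivity)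
      linarith

/-- ROW REG-N4 (local profile of `NN` at an almost period).

PROOF.  `k i = round (a i t₁/π)`, `b i = a i t₁ - π k i`, so `|b i| = dp (a i t₁) ≤ π/2` and `∑ b_i² = NN²≤ M²`.
Put `w = ∑ a_i b_i`, `|w| ≤ NN a t₁` (Cauchy–Schwarz, `∑ a_i² = 1`), `tc = t₁ - w`, `b'_i = a_i tc - π k_i = b_i - w a_i`.
Then `∑ a_i b'_i = w - w = 0`, `∑ b'_i² = ∑ b_i² - w² ≤ NN²`.
Let `|u| ≤ 12 M`, `y_i = b'_i + a_i u`.  Then `∑ y_i² = ∑ b'_i² + u²`, `|y_i| ≤ π/2 + 13 δ M`, and (subtracting `π k_i`)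
`dp (a_i (tc+u)) = dp y_i`.  If `|y_i| ≤ π/2`, `dp y_i = |y_i|`.  Otherwise `|y_i| ≤ π`, `dp y_i ≥ π - |y_i| ≥ 0` and
`dp² ≥ (π - |y_i|)² = y_i² - π (2|y_i| - π) ≥ y_i² - 26 π δ M`.  The number of `i` with `|y_i| > π/2`:
`|b'_i| ≥ π/2 - 12 δ M ≥ 3/2` for these, so the number is `≤ M²/2.25`.  Total loss
`≤ (M²/2.25) 26 π δ M ≤ 37 δ M³ ≤ 1/10`.
Last claim: `round` of a nonnegative number is nonnegative. -/
theorem profile {a : Fin n → ℝ} {δ : ℝ} (h : Reg a δ) {t₁ M : ℝ} (hM : NN a t₁ ≤ M) (hM1 : 1 ≤ M)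
    (hMδ : M ^ 3 * δ ≤ 1 / 1000) :
    ∃ tc : ℝ, ∃ k : Fin n → ℤ, |tc - t₁| ≤ NN a t₁ ∧
      ∑ i, a i * (a i * tc - Real.pi * k i) = 0 ∧
      ∑ i, (a i * tc - Real.pi * k i) ^ 2 ≤ NN a t₁ ^ 2 ∧
      (∀ u : ℝ, |u| ≤ 12 * M →
        ∑ i, (a i * tc - Real.pi * k i) ^ 2 + u ^ 2 - 1 / 10 ≤ NN a (tc + u) ^ 2) ∧
      ((∀ i, 0 ≤ a i) → 0 ≤ t₁ → ∀ i, 0 ≤ k i) := by
  have hδ := h.pos
  have hM0 : 0 < M := by linarith
  have hNN0 : 0 ≤ NN a t₁ := NN_nonneg a t₁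
  obtain ⟨k, hk⟩ : ∃ k : Fin n → ℤ, ∀ i, k i = round (a i * t₁ / Real.pi) :=
    ⟨fun i => round (a i * t₁ / Real.pi), fun i => rfl⟩
  obtain ⟨b, hb⟩ : ∃ b : Fin n → ℝ, ∀ i, b i = a i * t₁ - Real.pi * k i :=
    ⟨fun i => a i * t₁ - Real.pi * k i, fun i => rfl⟩
  have hbdp : ∀ i, |b i| = dp (a i * t₁) := by
    intro i
    rw [hb, hk]
    rfl
  have hbpi : ∀ i, |b i| ≤ Real.pi / 2 := fun i => by rw [hbdp]; exact dp_le_half _
  have hbsum : ∑ i, b i ^ 2 = NN a t₁ ^ 2 := by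
    rw [NN_sq]
    exact Finset.sum_congr rfl fun i _ => by rw [← hbdp, sq_abs]
  obtain ⟨w, hw⟩ : ∃ w : ℝ, w = ∑ i, a i * b i := ⟨_, rfl⟩
  have hw2 : w ^ 2 ≤ NN a t₁ ^ 2 := by
    have h1 := Finset.sum_mul_sq_le_sq_mul_sq Finset.univ a b
    rw [h.unit, one_mul, hbsum, ← hw] at h1
    exact h1
  have hwabs : |w| ≤ NN a t₁ := abs_le_of_sq_le_sq hw2 hNN0
  have hb' : ∀ i, a i * (t₁ - w) - Real.pi * k i = b i - w * a i := by
    intro i
    rw [hb]; ring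
  have hlin : ∑ i, a i * (b i - w * a i) = 0 := by
    have h1 : ∑ i, a i * (b i - w * a i) = ∑ i, a i * b i - w * ∑ i, a i ^ 2 := by
      rw [Finset.mul_sum, ← Finset.sum_sub_distrib]
      exact Finset.sum_congr rfl fun i _ => by ring
    rw [h1, h.unit, ← hw]; ring
  have hsq : ∑ i, (b i - w * a i) ^ 2 ≤ NN a t₁ ^ 2 := by
    have h1 : ∑ i, (b i - w * a i) ^ 2 =
        ∑ i, b i ^ 2 - 2 * w * ∑ i, a i * b i + w ^ 2 * ∑ i, a i ^ 2 := by
      rw [Finset.mul_sum, Finset.mul_sum, ← Finset.sum_sub_distrib, ← Finset.sum_add_distrib]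
      exact Finset.sum_congr rfl fun i _ => by ring
    rw [h1, h.unit, ← hw, hbsum]
    nlinarith [sq_nonneg w]
  refine ⟨t₁ - w, k, ?_, ?_, ?_, ?_, ?_⟩
  · rw [show t₁ - w - t₁ = -w by ring, abs_neg]; exact hwabs
  · simp only [hb']; exact hlin
  · simp only [hb']; exact hsq
  · intro u hu
    simp only [hb']
    have hM3 : M * δ ≤ 1 / 1000 := by
      have h1 : M ≤ M ^ 3 := by nlinarith [mul_pos hM0 hM0]
      have h2 : M * δ ≤ M ^ 3 * δ := mul_le_mul_of_nonneg_right h1 hδ.le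
      linarith
    have hMδ0 : 0 ≤ M * δ := by positivity
    have hye : ∀ i, (b i - w * a i + a i * u) ^ 2 - Real.pi * (13 * (M * δ)) * (b i - w * a i) ^ 2
        ≤ dp (a i * (t₁ - w + u)) ^ 2 := by
      intro i
      have hai := h.le i
      have hau : |a i * u| ≤ 12 * (M * δ) := by
        rw [abs_mul]
        calc |a i| * |u| ≤ δ * (12 * M) := mul_le_mul hai hu (abs_nonneg _) hδ.le
          _ = _ := by ring
      have haw : |w * a i| ≤ M * δ := by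
        rw [abs_mul]
        exact mul_le_mul (hwabs.trans hM) hai (abs_nonneg _) hM0.le
      apply n4_loss (k := k i) (e := 13 * (M * δ))
      · rw [hb]; ring
      · positivity
      · linarith
      · have h1 : |b i - w * a i + a i * u| ≤ |b i - w * a i| + |a i * u| := abs_add_le _ _
        have h2 : |b i - w * a i| ≤ |b i| + |w * a i| := abs_sub _ _
        have h3 := hbpi i
        linarith
      · have h1 : |b i - w * a i + a i * u| ≤ |b i - w * a i| + |a i * u| := abs_add_le _ _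
        linarith
    have hsum := Finset.sum_le_sum (s := Finset.univ) fun i _ => hye i
    rw [← NN_sq, Finset.sum_sub_distrib, ← Finset.mul_sum] at hsum
    have h1 : ∑ i, (b i - w * a i + a i * u) ^ 2 = ∑ i, (b i - w * a i) ^ 2 +
        2 * u * ∑ i, a i * (b i - w * a i) + u ^ 2 * ∑ i, a i ^ 2 := by
      rw [Finset.mul_sum, Finset.mul_sum, ← Finset.sum_add_distrib, ← Finset.sum_add_distrib]
      exact Finset.sum_congr rfl fun i _ => by ring
    rw [h1, hlin, h.unit] at hsum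
    have h2 : Real.pi * (13 * (M * δ)) * ∑ i, (b i - w * a i) ^ 2 ≤
        Real.pi * (13 * (M * δ)) * M ^ 2 := by
      apply mul_le_mul_of_nonneg_left _ (by positivity)
      exact hsq.trans (pow_le_pow_left₀ hNN0 hM 2)
    have h3 : Real.pi * (13 * (M * δ)) * M ^ 2 = 13 * Real.pi * (M ^ 3 * δ) := by ring
    have h4 : 13 * Real.pi * (M ^ 3 * δ) ≤ 13 * Real.pi * (1 / 1000) :=
      mul_le_mul_of_nonneg_left hMδ (by positivity)
    have h5 := Real.pi_lt_d4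
    linarith
  · intro ha ht i
    rw [hk, round_eq]
    apply Int.floor_nonneg.mpr
    have h1 := mul_nonneg (ha i) ht
    have := Real.pi_pos
    positivity

end Pool.Agent.MP_cb3c9c_an.REG
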