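import Pool.Agent.MP_cb3c9c_an.REG.N3
import Pool.Agent.MP_cb3c9c_an.REG.N4

set_option autoImplicit false

open Finset MeasureTheory
open scoped BigOperators

namespace Pool.Agent.MP_cb3c9c_an.REG

open Pool.Agent.MP_cb3c9c_an.TwoBlock

variable {n : ℕ}

/-- The cut-off `2 √(log (1/κ))`. -/
noncomputable def MMa (a : Fin n → ℝ) : ℝ := 2 * Real.sqrt (Real.log (1 / kap a))

/-- ROW REG-F1 (two statements).

PROOF of the first.  `κ = kap a`, `δ⁴ ≤ κ ≤ δ²`.  `MMa² = 4 log (1/κ)`, so `exp (-MMa²/2) = κ²`.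
`κ ≤ 10^{-16}`, `log (1/κ) ≥ 25` (e.g. `exp 25 ≤ 10^{16}` from `exp 1 < 2.72`: `2.72^25 < 10^{11}`), so `MMa ≥ 10`.
`MMa² = 4 log (1/κ) ≤ 16 log (1/δ)`, and `log (1/δ) ≤ 8 (1/δ)^{1/8}` (`log y ≤ y` for `y = (1/δ)^{1/8}`), so
`MMa² ≤ 128 (1/δ)^{1/8}`, `MMa⁶ δ² ≤ 128³ δ^{2-3/8} = 128³ δ^{13/8} ≤ 2.1 · 10⁶ · 10^{-13} ≤ 10^{-6}`.
Hence `MMa³ δ ≤ 1/1000`. -/
theorem MMa_facts {a : Fin n → ℝ} {δ : ℝ} (h : Reg a δ) (hδ : δ ≤ 1 / 10 ^ 8) :
    10 ≤ MMa a ∧ MMa a ^ 3 * δ ≤ 1 / 1000 ∧ Real.exp (-(MMa a) ^ 2 / 2) = kap a ^ 2 := by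
  have hκ0 : 0 < kap a := h.kap_pos
  have hδ0 : 0 < δ := h.pos
  have hκ1 : kap a ≤ 1 / 10 ^ 16 := by
    refine h.kap_le.trans ?_
    calc δ ^ 2 ≤ (1 / 10 ^ 8 : ℝ) ^ 2 := pow_le_pow_left₀ hδ0.le hδ 2
      _ = 1 / 10 ^ 16 := by norm_num
  have hlog : 25 ≤ Real.log (1 / kap a) := by
    rw [Real.le_log_iff_exp_le (by positivity)]
    have h1 : Real.exp 25 = (Real.exp 1) ^ 25 := by
      rw [← Real.exp_nat_mul]; norm_num
    have h2 : Real.exp 1 ≤ 2.72 := by
      have := Real.exp_one_lt_d9
      norm_num at this ⊢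
      linarith
    calc Real.exp 25 = (Real.exp 1) ^ 25 := h1
      _ ≤ (2.72 : ℝ) ^ 25 := pow_le_pow_left₀ (Real.exp_pos 1).le h2 25
      _ ≤ 10 ^ 16 := by norm_num
      _ ≤ 1 / kap a := by
        rw [le_div_iff₀ hκ0]
        calc (10 : ℝ) ^ 16 * kap a ≤ 10 ^ 16 * (1 / 10 ^ 16) := by gcongr
          _ = 1 := by norm_num
  have hlog0 : 0 ≤ Real.log (1 / kap a) := by linarith
  have hsq : MMa a ^ 2 = 4 * Real.log (1 / kap a) := by
    unfold MMa
    rw [mul_pow, Real.sq_sqrt hlog0]; norm_num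
  have hM0 : 0 ≤ MMa a := by unfold MMa; positivity
  refine ⟨?_, ?_, ?_⟩
  · nlinarith
  · -- `s = √(1/(10^8 δ))`
    set s : ℝ := Real.sqrt (1 / (10 ^ 8 * δ)) with hs
    have hs2 : s ^ 2 = 1 / (10 ^ 8 * δ) := Real.sq_sqrt (by positivity)
    have hs1 : 1 ≤ s := by
      rw [hs, Real.one_le_sqrt, le_div_iff₀ (by positivity)]
      calc 1 * (10 ^ 8 * δ) ≤ 1 * (10 ^ 8 * (1 / 10 ^ 8)) := by gcongr
        _ = 1 := by norm_num
    have hδs : δ * s ^ 2 = 1 / 10 ^ 8 := by
      rw [hs2]; field_simp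
    have hlogδ : Real.log (1 / δ) ≤ 23 * s := by
      have e1 : 1 / δ = 10 ^ 8 * s ^ 2 := by
        rw [hs2]; field_simp
      have e2 : Real.log (1 / δ) = 8 * Real.log 10 + 2 * Real.log s := by
        rw [e1, Real.log_mul (by positivity) (by positivity), Real.log_pow, Real.log_pow]
        norm_num
      have e3 : Real.log s ≤ s - 1 := Real.log_le_sub_one_of_pos (by linarith)
      have e4 : Real.log 10 ≤ 4 * Real.log 2 := by
        have : Real.log 16 = 4 * Real.log 2 := by
          rw [show (16 : ℝ) = 2 ^ 4 by norm_num, Real.log_pow]; norm_num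
        rw [← this]
        exact Real.log_le_log (by norm_num) (by norm_num)
      have e5 := Real.log_two_lt_d9
      have e6 : 4 * Real.log 2 ≤ 2.8 := by
        norm_num at e5 ⊢
        linarith
      rw [e2]
      norm_num at e6
      linarith
    have hlogκ : Real.log (1 / kap a) ≤ 4 * Real.log (1 / δ) := by
      have e1 : 4 * Real.log (1 / δ) = Real.log ((1 / δ) ^ 4) := by
        rw [Real.log_pow]; norm_num
      rw [e1]
      apply Real.log_le_log (by positivity)
      rw [div_pow, one_pow]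
      exact one_div_le_one_div_of_le (by positivity) h.kap_ge
    have hMs : MMa a ^ 2 ≤ 368 * s := by
      rw [hsq]; linarith
    have h6 : (MMa a ^ 3 * δ) ^ 2 ≤ (1 / 1000) ^ 2 := by
      have e1 : (MMa a ^ 3 * δ) ^ 2 = (MMa a ^ 2) ^ 3 * δ ^ 2 := by ring
      rw [e1]
      have e2 : (MMa a ^ 2) ^ 3 ≤ (368 * s) ^ 3 := pow_le_pow_left₀ (sq_nonneg _) hMs 3
      have e3 : (368 * s) ^ 3 * δ ^ 2 ≤ 368 ^ 3 * (δ * s ^ 2) ^ 2 := by
        have : s ^ 3 ≤ s ^ 4 := pow_le_pow_right₀ hs1 (by norm_num)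
        calc (368 * s) ^ 3 * δ ^ 2 = 368 ^ 3 * δ ^ 2 * s ^ 3 := by ring
          _ ≤ 368 ^ 3 * δ ^ 2 * s ^ 4 := by gcongr
          _ = 368 ^ 3 * (δ * s ^ 2) ^ 2 := by ring
      calc (MMa a ^ 2) ^ 3 * δ ^ 2 ≤ (368 * s) ^ 3 * δ ^ 2 := by gcongr
        _ ≤ 368 ^ 3 * (δ * s ^ 2) ^ 2 := e3
        _ = 368 ^ 3 * (1 / 10 ^ 8) ^ 2 := by rw [hδs]
        _ ≤ (1 / 1000) ^ 2 := by norm_num
    exact le_of_sq_le_sq h6 (by norm_num)
  · rw [hsq]
    have e1 : -(4 * Real.log (1 / kap a)) / 2 = 2 * Real.log (kap a) := by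
      rw [one_div, Real.log_inv]; ring
    rw [e1]
    have e2 : Real.exp (2 * Real.log (kap a)) = Real.exp (Real.log (kap a)) ^ 2 := by
      rw [← Real.exp_nat_mul]; norm_num
    rw [e2, Real.exp_log hκ0]

/-- half a Gaussian -/
noncomputable def hgau : ℝ → ℝ := Set.indicator (Set.Ici 0) fun v => Real.exp (-(1 / 2) * v ^ 2)

lemma hgau_nonneg (v : ℝ) : 0 ≤ hgau v :=
  Set.indicator_nonneg (fun _ _ => (Real.exp_pos _).le) _

lemma hgau_integrable : Integrable hgau := by
  unfold hgau
  exact (integrable_exp_neg_mul_sq (by norm_num)).indicator measurableSet_Ici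

lemma hgau_integral : ∫ v, hgau v = Real.sqrt (2 * Real.pi) / 2 := by
  unfold hgau
  rw [integral_indicator measurableSet_Ici, integral_Ici_eq_integral_Ioi, integral_gaussian_Ioi]
  congr 2
  ring

/-- The integral of `|P|` over an interval of length `1/√κ`, restricted to `{NN ≥ ν}`.

PROOF.  `M = MMa a`.  On `{NN a t > M}`: `|P| ≤ exp (-M²/2) = κ²` (`abs_PP_le`), and the interval has length
`1/√κ`, so this part is `≤ κ² / √κ = κ √κ`.  If no point of the interval has `NN ≤ M` we are done.
Otherwise fix `t₁` in it with `NN a t₁ ≤ M` and take `tc, k` from `profile`; put `B = ∑ (a i tc - π k i)²`.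
If `t` is in the interval with `NN a t ≤ M` then `NN a (t - t₁) ≤ 2M` (`NN_sub`), so by `NN_sep` (for `|t - t₁|`,
`2M δ ≤ 1/50`) `|t - t₁| ≤ 2M` (the alternative `|t - t₁| ≥ 3/√κ` is impossible), so `|t - tc| ≤ 3M`.
Write `t = tc + u`, `|u| ≤ 3 M`.  By `profile` `NN a t ² ≥ B + u² - 1/10`, and by `NN_sq_le_of_int` (expand the
square, `∑ a_i (a_i tc - π k_i) = 0`, `∑ a_i² = 1`) `NN a t ² ≤ B + u²`.  So if moreover `NN a t ≥ ν`, then `u² ≥ ν² - B`
and `|P a t| ≤ exp (-(B + u² - 1/10)/2)`.  Let `z = √(max 0 (ν² - B))`; `|u| ≥ z` and then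
`u² ≥ z² + (|u| - z)²`, so this part of the integral is at most
`e^{1/20} e^{-(B + z²)/2} ∫_{|u| ≥ z} e^{-(|u|-z)²/2} du = e^{1/20} √(2π) e^{-(B+z²)/2} ≤ 4 e^{-ν²/2}`
(`B + z² ≥ ν²`, `e^{1/20} √(2π) < 2.7`).  (A crude bound by an integral over all `u` is fine.) -/
theorem interval_bound {a : Fin n → ℝ} {δ : ℝ} (h : Reg a δ) (hδ : δ ≤ 1 / 10 ^ 8) (s : ℝ) {ν : ℝ}
    (hν : 0 ≤ ν) :
    ∫ t in Set.Icc s (s + 1 / Real.sqrt (kap a)) ∩ {t : ℝ | ν ≤ NN a t}, |PP a t| ≤
      4 * Real.exp (-ν ^ 2 / 2) + kap a * Real.sqrt (kap a) := by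
  obtain ⟨hM10, hMδ, hMexp⟩ := MMa_facts h hδ
  set M := MMa a with hMdef
  have hκ0 : 0 < kap a := h.kap_pos
  have hr0 : 0 < Real.sqrt (kap a) := h.sqrt_kap_pos
  set r := Real.sqrt (kap a) with hr
  have hr2 : r ^ 2 = kap a := Real.sq_sqrt hκ0.le
  have hmN : Measurable (NN a) := (continuous_NN a).measurable
  have hcont : Continuous fun t => |PP a t| := (continuous_PP a).abs
  set I : Set ℝ := Set.Icc s (s + 1 / r) with hI
  have hIm : MeasurableSet I := measurableSet_Icc
  set S1 : Set ℝ := (I ∩ {t : ℝ | ν ≤ NN a t}) ∩ {t : ℝ | NN a t ≤ M} with hS1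
  set S2 : Set ℝ := (I ∩ {t : ℝ | ν ≤ NN a t}) ∩ {t : ℝ | M < NN a t} with hS2
  have hmν : MeasurableSet {t : ℝ | ν ≤ NN a t} := measurableSet_le measurable_const hmN
  have hS1m : MeasurableSet S1 := (hIm.inter hmν).inter (measurableSet_le hmN measurable_const)
  have hS2m : MeasurableSet S2 := (hIm.inter hmν).inter (measurableSet_lt measurable_const hmN)
  have hintI : IntegrableOn (fun t => |PP a t|) I := hcont.continuousOn.integrableOn_Icc
  have hint1 : IntegrableOn (fun t => |PP a t|) S1 :=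
    hintI.mono_set (fun t ht => ht.1.1)
  have hint2 : IntegrableOn (fun t => |PP a t|) S2 :=
    hintI.mono_set (fun t ht => ht.1.1)
  have hunion : I ∩ {t : ℝ | ν ≤ NN a t} = S1 ∪ S2 := by
    ext t
    constructor
    · intro ht
      rcases le_or_gt (NN a t) M with h1 | h1
      · exact Or.inl ⟨ht, h1⟩
      · exact Or.inr ⟨ht, h1⟩
    · rintro (ht | ht)
      · exact ht.1
      · exact ht.1
  have hdisj : Disjoint S1 S2 := by
    rw [Set.disjoint_left]
    intro t h1 h2
    have e1 : NN a t ≤ M := h1.2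
    have e2 : M < NN a t := h2.2
    linarith
  rw [hunion, setIntegral_union hdisj hS2m hint1 hint2]
  have hpart2 : ∫ t in S2, |PP a t| ≤ kap a * r := by
    have e1 : ∀ t ∈ S2, |PP a t| ≤ kap a ^ 2 := by
      intro t ht
      have e2 : M < NN a t := ht.2
      refine (abs_PP_le a t).trans ?_
      rw [← hMexp]
      apply Real.exp_le_exp.mpr
      have : M ^ 2 ≤ NN a t ^ 2 := pow_le_pow_left₀ (by linarith) e2.le 2
      linarith
    have e3 : volume S2 ≤ volume I := measure_mono fun t ht => ht.1.1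
    have e4 : volume I = ENNReal.ofReal (1 / r) := by
      rw [hI, Real.volume_Icc]; congr 1; ring
    have e5 : volume S2 < ⊤ := by
      refine lt_of_le_of_lt e3 ?_
      rw [e4]; exact ENNReal.ofReal_lt_top
    calc ∫ t in S2, |PP a t| ≤ ∫ t in S2, kap a ^ 2 :=
          setIntegral_mono_on hint2 (integrableOn_const e5.ne) hS2m e1
      _ = (volume S2).toReal * kap a ^ 2 := by
          rw [setIntegral_const, smul_eq_mul]; rfl
      _ ≤ (1 / r) * kap a ^ 2 := by
          gcongr
          refine ENNReal.toReal_le_of_le_ofReal (by positivity) ?_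
          rw [← e4]; exact e3
      _ = kap a * r := by
          rw [← hr2]; field_simp
  have hpart1 : ∫ t in S1, |PP a t| ≤ 4 * Real.exp (-ν ^ 2 / 2) := by
    rcases Set.eq_empty_or_nonempty S1 with he | ⟨t₁, ht₁⟩
    · rw [he]; simp; positivity
    · have hN1 : NN a t₁ ≤ M := ht₁.2
      have ht₁I : t₁ ∈ I := ht₁.1.1
      obtain ⟨tc, k, htc, hk0, hkB, hprof, -⟩ := profile h hN1 (by linarith) hMδ
      set B := ∑ i, (a i * tc - Real.pi * k i) ^ 2 with hB
      have hMδ' : 2 * M * δ ≤ 1 / 50 := by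
        have e1 : 100 ≤ M ^ 2 := by nlinarith
        have e2 : 100 * (M * δ) ≤ M ^ 3 * δ := by
          have : 0 ≤ M * δ := mul_nonneg (by linarith) h.pos.le
          nlinarith
        linarith
      have hu : ∀ t ∈ S1, |t - tc| ≤ 3 * M := by
        intro t ht
        have htN : NN a t ≤ M := ht.2
        have htI : t ∈ I := ht.1.1
        have e1 : |t - t₁| ≤ 1 / r := by
          rw [abs_le]
          have f1 := htI.1
          have f2 := htI.2
          have f3 := ht₁I.1
          have f4 := ht₁I.2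
          constructor <;> linarith
        have e2 : NN a |t - t₁| ≤ 2 * M := by
          have f1 : NN a (t - t₁) ≤ 2 * M := (NN_sub a t t₁).trans (by linarith)
          rcases abs_cases (t - t₁) with ⟨f2, _⟩ | ⟨f2, _⟩
          · rw [f2]; exact f1
          · rw [f2, NN_neg]; exact f1
        have e3 : |t - t₁| ≤ 2 * M := by
          rcases NN_sep h e2 (abs_nonneg _) hMδ' with f | f
          · exact f
          · exfalso
            have f1 : r * |t - t₁| ≤ r * (1 / r) := by gcongr
            have f2 : r * (1 / r) = 1 := by field_simp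
            linarith
        have e4 : |t - tc| ≤ |t - t₁| + |tc - t₁| := by
          have := abs_sub_le t t₁ tc
          rw [abs_sub_comm t₁ tc] at this
          exact this
        linarith
      -- `z`
      set z : ℝ := Real.sqrt (max 0 (ν ^ 2 - B)) with hz
      have hz0 : 0 ≤ z := Real.sqrt_nonneg _
      have hz2 : z ^ 2 = max 0 (ν ^ 2 - B) := Real.sq_sqrt (le_max_left _ _)
      have hzν : ν ^ 2 ≤ B + z ^ 2 := by
        rw [hz2]
        have := le_max_right 0 (ν ^ 2 - B)
        linarith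
      have hpt : ∀ t ∈ S1, |PP a t| ≤ Real.exp (1 / 20) * Real.exp (-ν ^ 2 / 2) *
          (hgau (t - (tc + z)) + hgau ((tc - z) - t)) := by
        intro t ht
        have htν : ν ≤ NN a t := ht.1.2
        have hu3 := hu t ht
        set u := t - tc with hudef
        have htu : t = tc + u := by rw [hudef]; ring
        have hM0 : 0 ≤ M := by linarith
        have e1 : B + u ^ 2 - 1 / 10 ≤ NN a t ^ 2 := by
          have := hprof u (by linarith)
          rw [← htu] at this
          exact this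
        have e2 : NN a t ^ 2 ≤ B + u ^ 2 := by
          refine (NN_sq_le_of_int a t k).trans (le_of_eq ?_)
          have f1 : ∀ i, (a i * t - Real.pi * k i) ^ 2 =
              (a i * tc - Real.pi * k i) ^ 2 + 2 * u * (a i * (a i * tc - Real.pi * k i)) +
                u ^ 2 * a i ^ 2 := by
            intro i; rw [htu]; ring
          simp only [f1]
          rw [Finset.sum_add_distrib, Finset.sum_add_distrib, ← Finset.mul_sum, ← Finset.mul_sum,
            hk0, h.unit]
          ring
        have e3 : z ≤ |u| := by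
          have f1 : z ^ 2 ≤ u ^ 2 := by
            rw [hz2]
            apply max_le (sq_nonneg _)
            have : ν ^ 2 ≤ NN a t ^ 2 := pow_le_pow_left₀ hν htν 2
            linarith
          rw [← sq_abs u] at f1
          exact le_of_sq_le_sq f1 (abs_nonneg _)
        have e4 : |PP a t| ≤ Real.exp (1 / 20) * Real.exp (-ν ^ 2 / 2) *
            Real.exp (-(1 / 2) * (|u| - z) ^ 2) := by
          refine (abs_PP_le a t).trans ?_
          rw [← Real.exp_add, ← Real.exp_add]
          apply Real.exp_le_exp.mpr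
          have f1 : z ^ 2 + (|u| - z) ^ 2 ≤ u ^ 2 := by
            have : u ^ 2 = |u| ^ 2 := (sq_abs u).symm
            rw [this]
            nlinarith
          linarith
        refine e4.trans ?_
        apply mul_le_mul_of_nonneg_left _ (by positivity)
        rcases le_or_gt 0 u with hu0 | hu0
        · have f1 : |u| = u := abs_of_nonneg hu0
          rw [f1] at e3 ⊢
          have f2 : hgau (t - (tc + z)) = Real.exp (-(1 / 2) * (u - z) ^ 2) := by
            unfold hgau
            rw [Set.indicator_of_mem]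
            · congr 2
              rw [htu]; ring
            · show 0 ≤ t - (tc + z)
              rw [htu]; linarith
          rw [f2]
          linarith [hgau_nonneg ((tc - z) - t)]
        · have f1 : |u| = -u := abs_of_neg hu0
          rw [f1] at e3 ⊢
          have f2 : hgau ((tc - z) - t) = Real.exp (-(1 / 2) * (-u - z) ^ 2) := by
            unfold hgau
            rw [Set.indicator_of_mem]
            · congr 2
              rw [htu]; ring
            · show 0 ≤ (tc - z) - t
              rw [htu]; linarith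
          rw [f2]
          linarith [hgau_nonneg (t - (tc + z))]
      have hi1 : Integrable fun t : ℝ => hgau (t - (tc + z)) := hgau_integrable.comp_sub_right _
      have hi2 : Integrable fun t : ℝ => hgau ((tc - z) - t) := hgau_integrable.comp_sub_left _
      have hi3 : Integrable fun t : ℝ => Real.exp (1 / 20) * Real.exp (-ν ^ 2 / 2) *
          (hgau (t - (tc + z)) + hgau ((tc - z) - t)) := (hi1.add hi2).const_mul _
      have hval : ∫ t : ℝ, Real.exp (1 / 20) * Real.exp (-ν ^ 2 / 2) *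
          (hgau (t - (tc + z)) + hgau ((tc - z) - t)) =
          Real.exp (1 / 20) * Real.exp (-ν ^ 2 / 2) * Real.sqrt (2 * Real.pi) := by
        rw [integral_const_mul, integral_add hi1 hi2, integral_sub_right_eq_self hgau,
          integral_sub_left_eq_self hgau, hgau_integral]
        ring
      calc ∫ t in S1, |PP a t| ≤ ∫ t in S1, Real.exp (1 / 20) * Real.exp (-ν ^ 2 / 2) *
            (hgau (t - (tc + z)) + hgau ((tc - z) - t)) :=
            setIntegral_mono_on hint1 hi3.integrableOn hS1m hpt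
        _ ≤ ∫ t : ℝ, Real.exp (1 / 20) * Real.exp (-ν ^ 2 / 2) *
            (hgau (t - (tc + z)) + hgau ((tc - z) - t)) := by
            apply setIntegral_le_integral hi3
            refine Filter.Eventually.of_forall fun t => ?_
            have f1 := hgau_nonneg (t - (tc + z))
            have f2 := hgau_nonneg ((tc - z) - t)
            positivity
        _ = Real.exp (1 / 20) * Real.exp (-ν ^ 2 / 2) * Real.sqrt (2 * Real.pi) := hval
        _ ≤ 4 * Real.exp (-ν ^ 2 / 2) := by
            have f1 : Real.exp (1 / 20) ≤ 20 / 19 := by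
              have g1 := Real.add_one_le_exp (-(1 / 20) : ℝ)
              rw [Real.exp_neg] at g1
              have g2 : 0 < Real.exp (1 / 20) := Real.exp_pos _
              have g3 : (19 / 20 : ℝ) ≤ (Real.exp (1 / 20))⁻¹ := by linarith
              have g4 : (19 / 20 : ℝ) * Real.exp (1 / 20) ≤ 1 := by
                calc (19 / 20 : ℝ) * Real.exp (1 / 20) ≤
                    (Real.exp (1 / 20))⁻¹ * Real.exp (1 / 20) := by gcongr
                  _ = 1 := inv_mul_cancel₀ g2.ne'
              linarith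
            have f2 : Real.sqrt (2 * Real.pi) ≤ 3 := by
              rw [show (3 : ℝ) = Real.sqrt (3 ^ 2) by rw [Real.sqrt_sq (by norm_num)]]
              apply Real.sqrt_le_sqrt
              have := Real.pi_lt_d2
              norm_num at this ⊢
              linarith
            have f3 : 0 ≤ Real.sqrt (2 * Real.pi) := Real.sqrt_nonneg _
            have f4 : 0 < Real.exp (-ν ^ 2 / 2) := Real.exp_pos _
            have f5 : Real.exp (1 / 20) * Real.sqrt (2 * Real.pi) ≤ 4 := by
              calc Real.exp (1 / 20) * Real.sqrt (2 * Real.pi) ≤ (20 / 19) * 3 := by gcongr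
                _ ≤ 4 := by norm_num
            calc Real.exp (1 / 20) * Real.exp (-ν ^ 2 / 2) * Real.sqrt (2 * Real.pi) =
                (Real.exp (1 / 20) * Real.sqrt (2 * Real.pi)) * Real.exp (-ν ^ 2 / 2) := by ring
              _ ≤ 4 * Real.exp (-ν ^ 2 / 2) := by gcongr
  linarith

end Pool.Agent.MP_cb3c9c_an.REG
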