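import Pool.Agent.MP_cb3c9c_an.REG.N3

set_option autoImplicit false

open Finset MeasureTheory
open scoped BigOperators

namespace Pool.Agent.MP_cb3c9c_an.REG

open Pool.Agent.MP_cb3c9c_an.TwoBlock

variable {n : ℕ}

/-- ROW REG-F10 (two statements).  Selection of a level with a gap.

PROOF.  Suppose the conclusion fails.  Construct `t_0, t_1, ...` by induction: `π/(2δ) ≤ t_i`,
`t_i ≤ (L - 3 i)/√κ`, `NN a t_i ≤ L^i N₀`: `t_0` from `hex`; if `i ≤ L`, the failure of the conclusion for `t_i` gives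
`r` with `π/(2δ) ≤ r ≤ t_i - 3/√κ`, `NN a r ≤ L^{i+1} N₀`: `t_{i+1} = r`.  For `i = ⌊L⌋`... at the first `i` with
`3 i ≥ L` (then `i ≤ L` by `L ≥ 2`: `i < L/3 + 1 ≤ L`) we get `0 < π/(2δ) ≤ t_i ≤ 0`, a contradiction. -/
theorem gap_select {a : Fin n → ℝ} {δ : ℝ} (h : Reg a δ) {L N₀ : ℝ} (hL : 2 ≤ L)
    (hex : ∃ t, Real.pi / (2 * δ) ≤ t ∧ t ≤ L / Real.sqrt (kap a) ∧ NN a t ≤ N₀) :
    ∃ i : ℕ, (i : ℝ) ≤ L ∧ ∃ t₁, Real.pi / (2 * δ) ≤ t₁ ∧ t₁ ≤ L / Real.sqrt (kap a) ∧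
      NN a t₁ ≤ L ^ i * N₀ ∧
      ∀ r, Real.pi / (2 * δ) ≤ r → r ≤ t₁ - 3 / Real.sqrt (kap a) → L ^ (i + 1) * N₀ < NN a r := by
  have hk := h.sqrt_kap_pos
  have hT0 : 0 < Real.pi / (2 * δ) := by
    have := h.pos
    have := Real.pi_pos
    positivity
  by_contra hcon
  push Not at hcon
  have key : ∀ i : ℕ, (i : ℝ) ≤ L + 1 → ∃ t, Real.pi / (2 * δ) ≤ t ∧
      t ≤ (L - 3 * i) / Real.sqrt (kap a) ∧ NN a t ≤ L ^ i * N₀ := by
    intro i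
    induction i with
    | zero =>
      intro _
      obtain ⟨t, h1, h2, h3⟩ := hex
      exact ⟨t, h1, by simpa using h2, by simpa using h3⟩
    | succ i ih =>
      intro hi
      push_cast at hi
      obtain ⟨t, h1, h2, h3⟩ := ih (by linarith)
      have h4 : t ≤ L / Real.sqrt (kap a) := by
        refine h2.trans (div_le_div_of_nonneg_right ?_ hk.le)
        have : (0 : ℝ) ≤ i := Nat.cast_nonneg i
        linarith
      obtain ⟨r, h5, h6, h7⟩ := hcon i (by linarith) t h1 h4 h3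
      refine ⟨r, h5, ?_, h7⟩
      have h8 : (L - 3 * ((i + 1 : ℕ) : ℝ)) / Real.sqrt (kap a) =
          (L - 3 * i) / Real.sqrt (kap a) - 3 / Real.sqrt (kap a) := by
        rw [← sub_div]
        push_cast
        ring_nf
      rw [h8]
      linarith
  have hc1 : L / 3 ≤ (⌈L / 3⌉₊ : ℝ) := Nat.le_ceil _
  have hc2 : (⌈L / 3⌉₊ : ℝ) < L / 3 + 1 := Nat.ceil_lt_add_one (by linarith)
  obtain ⟨t, h1, h2, -⟩ := key ⌈L / 3⌉₊ (by linarith)
  have h3 : (L - 3 * (⌈L / 3⌉₊ : ℝ)) / Real.sqrt (kap a) ≤ 0 :=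
    div_nonpos_of_nonpos_of_nonneg (by linarith) hk.le
  linarith

/-- All good almost periods are near the multiples of `t₁`.

PROOF.  `T₀ = π/(2δ)`; `N₁ ≥ NN a t₁ ≥ 0`.  `NN_sep` for `t₁` (`N₁ δ ≤ 1/50`): `t₁ ≤ N₁` is impossible
(`N₁ ≤ 1/(50δ) < T₀ ≤ t₁`), so `t₁ ≥ 3/√κ`.  `q = ⌊t/t₁⌋ ≤ L/3`, `r = t - q t₁ ∈ [0, t₁)`,
`NN a r ≤ NN a t + q NN a t₁ ≤ (1 + L/3) N₁ ≤ L N₁` (`NN_sub`, `NN_nat_mul`).
Case `r < T₀`: `r = NN a r ≤ L N₁` (`NN_eq_abs`), and `q ≥ 1` (otherwise `t = r < T₀`): `j = q`.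
Case `r ≥ T₀`: by `hgap` `r > t₁ - 3/√κ`.  Let `w = t₁ - r`, `0 < w < 3/√κ`, `NN a w ≤ N₁ + L N₁`; `NN_sep` for `w` with
`M = (L+1) N₁` (`M δ ≤ 1/50`) gives `w ≤ (L+1) N₁`: `j = q + 1 ≤ L/3 + 1 ≤ L`. -/
theorem close_to_multiple {a : Fin n → ℝ} {δ : ℝ} (h : Reg a δ) {L N₁ t₁ : ℝ} (hL : 2 ≤ L)
    (ht₁ : Real.pi / (2 * δ) ≤ t₁) (ht₁L : t₁ ≤ L / Real.sqrt (kap a)) (hN : NN a t₁ ≤ N₁)
    (hgap : ∀ r, Real.pi / (2 * δ) ≤ r → r ≤ t₁ - 3 / Real.sqrt (kap a) → L * N₁ < NN a r)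
    (hsmall : (L + 2) * N₁ * δ ≤ 1 / 50) {t : ℝ} (ht : Real.pi / (2 * δ) ≤ t)
    (htL : t ≤ L / Real.sqrt (kap a)) (hNt : NN a t ≤ N₁) :
    ∃ j : ℕ, 1 ≤ j ∧ (j : ℝ) ≤ L ∧ |t - j * t₁| ≤ (L + 2) * N₁ := by
  have hk := h.sqrt_kap_pos
  have hδ := h.pos
  have hT0 : 0 < Real.pi / (2 * δ) := by
    have := Real.pi_pos
    positivity
  have hN1 : 0 ≤ N₁ := (NN_nonneg a t₁).trans hN
  have hN1δ : 0 ≤ N₁ * δ := mul_nonneg hN1 hδ.le
  have hs1 : N₁ * δ ≤ 1 / 50 := by nlinarith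
  have hs2 : (L + 1) * N₁ * δ ≤ 1 / 50 := by nlinarith
  have ht1p : 0 < t₁ := lt_of_lt_of_le hT0 ht₁
  -- `t₁ ≥ 3/√κ`
  have h3 : 3 ≤ Real.sqrt (kap a) * t₁ := by
    rcases NN_sep h hN ht1p.le hs1 with h1 | h1
    · exfalso
      have h2 : Real.pi / (2 * δ) ≤ N₁ := ht₁.trans h1
      rw [div_le_iff₀ (by positivity)] at h2
      have := Real.pi_gt_three
      nlinarith
    · exact h1
  have htp : 0 < t := lt_of_lt_of_le hT0 ht
  set q : ℕ := ⌊t / t₁⌋₊ with hq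
  have hq1 : (q : ℝ) ≤ t / t₁ := Nat.floor_le (by positivity)
  have hq2 : t / t₁ < q + 1 := Nat.lt_floor_add_one _
  have hq1' : (q : ℝ) * t₁ ≤ t := by
    rwa [le_div_iff₀ ht1p] at hq1
  have hq2' : t < (q + 1) * t₁ := by
    rwa [div_lt_iff₀ ht1p] at hq2
  have hqL : (q : ℝ) ≤ L / 3 := by
    have h4 : t * Real.sqrt (kap a) ≤ L := by
      rwa [le_div_iff₀ hk] at htL
    have h5 : (q : ℝ) * 3 ≤ L := by
      calc (q : ℝ) * 3 ≤ q * (Real.sqrt (kap a) * t₁) :=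
            mul_le_mul_of_nonneg_left h3 (Nat.cast_nonneg _)
        _ = (q * t₁) * Real.sqrt (kap a) := by ring
        _ ≤ t * Real.sqrt (kap a) := mul_le_mul_of_nonneg_right hq1' hk.le
        _ ≤ L := h4
    linarith
  have hq0 : (0 : ℝ) ≤ q := Nat.cast_nonneg _
  have hNr : NN a (t - q * t₁) ≤ L * N₁ := by
    have h4 := NN_sub a t (q * t₁)
    have h5 := NN_nat_mul a q t₁
    have h6 : (q : ℝ) * NN a t₁ ≤ L / 3 * N₁ :=
      mul_le_mul hqL hN (NN_nonneg _ _) (by linarith)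
    nlinarith
  by_cases hr : t - q * t₁ < Real.pi / (2 * δ)
  · have hr0 : 0 ≤ t - q * t₁ := by linarith
    have h4 : NN a (t - q * t₁) = |t - q * t₁| := NN_eq_abs h (by
      rw [abs_of_nonneg hr0]; exact hr.le)
    refine ⟨q, ?_, by linarith, ?_⟩
    · by_contra hq0'
      have : q = 0 := by omega
      rw [this] at hr
      simp at hr
      linarith
    · rw [← h4]
      nlinarith
  · push Not at hr
    have h4 : ¬ (t - q * t₁ ≤ t₁ - 3 / Real.sqrt (kap a)) := by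
      intro h5
      exact absurd (hgap _ hr h5) (not_lt.2 hNr)
    push Not at h4
    have hw0 : 0 ≤ t₁ - (t - q * t₁) := by nlinarith
    have hNw : NN a (t₁ - (t - q * t₁)) ≤ (L + 1) * N₁ := by
      have := NN_sub a t₁ (t - q * t₁)
      nlinarith
    have hw : t₁ - (t - q * t₁) ≤ (L + 1) * N₁ := by
      rcases NN_sep h hNw hw0 hs2 with h5 | h5
      · exact h5
      · exfalso
        have h6 : t₁ - (t - q * t₁) < 3 / Real.sqrt (kap a) := by linarith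
        rw [lt_div_iff₀ hk] at h6
        linarith
    refine ⟨q + 1, by omega, ?_, ?_⟩
    · push_cast
      linarith
    · push_cast
      rw [abs_sub_comm, abs_of_nonneg (by linarith)]
      nlinarith

end Pool.Agent.MP_cb3c9c_an.REG
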