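import Pool.Agent.MP_cb3c9c_an.REG.F1

set_option autoImplicit false

open Finset MeasureTheory
open scoped BigOperators

namespace Pool.Agent.MP_cb3c9c_an.REG

open Pool.Agent.MP_cb3c9c_an.TwoBlock

variable {n : ℕ}

theorem measurable_tail (a : Fin n → ℝ) : Measurable fun t : ℝ => |PP a t| / t ^ 2 :=
  (continuous_PP a).abs.measurable.div (measurable_id.pow_const 2)

theorem integrableOn_inv_sq {T : ℝ} (hT : 0 < T) :
    IntegrableOn (fun t : ℝ => 1 / t ^ 2) (Set.Ici T) := by
  rw [integrableOn_Ici_iff_integrableOn_Ioi]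
  refine (integrableOn_Ioi_rpow_of_lt (by norm_num : (-2:ℝ) < -1) hT).congr_fun ?_ measurableSet_Ioi
  intro t ht
  have ht0 : (0:ℝ) < t := hT.trans ht
  show t ^ (-2 : ℝ) = 1 / t ^ 2
  rw [Real.rpow_neg ht0.le, one_div, show (2:ℝ) = ((2:ℕ) : ℝ) by norm_num, Real.rpow_natCast]

/-- ROW REG-F2 (tail bounds). -/
theorem integrable_tail (a : Fin n → ℝ) {T : ℝ} (hT : 0 < T) :
    IntegrableOn (fun t : ℝ => |PP a t| / t ^ 2) (Set.Ici T) := by
  refine Integrable.mono' (integrableOn_inv_sq hT) (measurable_tail a).aestronglyMeasurable ?_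
  refine Filter.Eventually.of_forall fun t => ?_
  rw [Real.norm_of_nonneg (by positivity)]
  exact div_le_div_of_nonneg_right (abs_PP_le_one a t) (by positivity)

theorem integral_inv_sq {T : ℝ} (hT : 0 < T) : ∫ t in Set.Ici T, 1 / t ^ 2 = 1 / T := by
  rw [integral_Ici_eq_integral_Ioi]
  have h := integral_Ioi_rpow_of_lt (by norm_num : (-2:ℝ) < -1) hT
  have e : ∫ t in Set.Ioi T, t ^ (-2 : ℝ) = ∫ t in Set.Ioi T, 1 / t ^ 2 := by
    refine setIntegral_congr_fun measurableSet_Ioi fun t ht => ?_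
    have ht0 : (0:ℝ) < t := hT.trans ht
    show t ^ (-2 : ℝ) = 1 / t ^ 2
    rw [Real.rpow_neg ht0.le, one_div, show (2:ℝ) = ((2:ℕ) : ℝ) by norm_num, Real.rpow_natCast]
  rw [← e, h]
  rw [show (-2 : ℝ) + 1 = -1 by norm_num, Real.rpow_neg_one]
  rw [neg_div_neg_eq, div_one, one_div]

theorem measurable_NNset (a : Fin n → ℝ) (ν : ℝ) : MeasurableSet {t : ℝ | ν ≤ NN a t} :=
  (isClosed_le continuous_const (continuous_NN a)).measurableSet

theorem sum_inv_sq {T l : ℝ} (hT : 0 < T) (hl : 0 < l) (J : ℕ) :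
    ∑ j ∈ Finset.range (J + 1), 1 / (T + j * l) ^ 2 ≤ 1 / T ^ 2 + (1 / l) * (1 / T - 1 / (T + J * l)) := by
  induction J with
  | zero => simp
  | succ J ih =>
    rw [Finset.sum_range_succ]
    push_cast
    have h1 : 0 < T + J * l := by positivity
    have h2 : 0 < T + (J + 1) * l := by positivity
    have key : 1 / (T + ((J : ℝ) + 1) * l) ^ 2 ≤
        (1 / l) * (1 / (T + J * l) - 1 / (T + (J + 1) * l)) := by
      have e : (1 / l) * (1 / (T + J * l) - 1 / (T + (J + 1) * l)) =
          1 / ((T + J * l) * (T + (J + 1) * l)) := by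
        field_simp
        ring
      rw [e]
      apply one_div_le_one_div_of_le (by positivity)
      rw [sq]
      apply mul_le_mul_of_nonneg_right _ h2.le
      nlinarith
    linarith

theorem sum_inv_sq' {T l : ℝ} (hT : 0 < T) (hl : 0 < l) (hlT : l ≤ T) (J : ℕ) :
    ∑ j ∈ Finset.range J, 1 / (T + j * l) ^ 2 ≤ 2 / (l * T) := by
  have h0 : ∑ j ∈ Finset.range J, 1 / (T + j * l) ^ 2 ≤
      ∑ j ∈ Finset.range (J + 1), 1 / (T + j * l) ^ 2 := by
    rw [Finset.sum_range_succ]
    have : 0 ≤ 1 / (T + J * l) ^ 2 := by positivity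
    linarith
  refine h0.trans ((sum_inv_sq hT hl J).trans ?_)
  have h1 : 1 / T ^ 2 ≤ 1 / (l * T) := by
    apply one_div_le_one_div_of_le (by positivity)
    nlinarith
  have h2 : (1 / l) * (1 / T - 1 / (T + J * l)) ≤ 1 / (l * T) := by
    have h3 : 0 ≤ 1 / (T + J * l) := by positivity
    calc (1 / l) * (1 / T - 1 / (T + J * l)) ≤ (1 / l) * (1 / T) :=
          mul_le_mul_of_nonneg_left (by linarith) (by positivity)
      _ = 1 / (l * T) := by rw [one_div_mul_one_div]
  have e : 2 / (l * T) = 1 / (l * T) + 1 / (l * T) := by ring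
  rw [e]
  exact add_le_add h1 h2

/-- the integral over one interval -/
theorem piece_bound {a : Fin n → ℝ} {δ : ℝ} (h : Reg a δ) (hδ : δ ≤ 1 / 10 ^ 8) {s ν : ℝ}
    (hs : 0 < s) (hν : 0 ≤ ν) :
    ∫ t in s..(s + 1 / Real.sqrt (kap a)), Set.indicator {t : ℝ | ν ≤ NN a t}
      (fun t => |PP a t| / t ^ 2) t ≤
      1 / s ^ 2 * (4 * Real.exp (-ν ^ 2 / 2) + kap a * Real.sqrt (kap a)) := by
  have hl : 0 < 1 / Real.sqrt (kap a) := by have := h.sqrt_kap_pos; positivity
  have hS := measurable_NNset a ν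
  rw [intervalIntegral.integral_of_le (by linarith), ← integral_Icc_eq_integral_Ioc,
    setIntegral_indicator hS]
  have hb := interval_bound h hδ s hν
  have hPi : IntegrableOn (fun t : ℝ => |PP a t|) (Set.Icc s (s + 1 / Real.sqrt (kap a)) ∩
      {t : ℝ | ν ≤ NN a t}) :=
    ((continuous_PP a).abs.continuousOn.integrableOn_Icc).mono_set Set.inter_subset_left
  calc ∫ t in Set.Icc s (s + 1 / Real.sqrt (kap a)) ∩ {t : ℝ | ν ≤ NN a t}, |PP a t| / t ^ 2
      ≤ ∫ t in Set.Icc s (s + 1 / Real.sqrt (kap a)) ∩ {t : ℝ | ν ≤ NN a t},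
          1 / s ^ 2 * |PP a t| := by
        refine setIntegral_mono_on ((integrable_tail a hs).mono_set ?_) (hPi.const_mul _)
          (measurableSet_Icc.inter hS) ?_
        · exact fun t ht => ht.1.1
        · intro t ht
          rw [one_div_mul_eq_div]
          apply div_le_div_of_nonneg_left (abs_nonneg _) (by positivity)
          exact pow_le_pow_left₀ hs.le ht.1.1 2
    _ = 1 / s ^ 2 * ∫ t in Set.Icc s (s + 1 / Real.sqrt (kap a)) ∩ {t : ℝ | ν ≤ NN a t},
          |PP a t| := by rw [integral_const_mul]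
    _ ≤ _ := mul_le_mul_of_nonneg_left hb (by positivity)

theorem tail_bound {a : Fin n → ℝ} {δ : ℝ} (h : Reg a δ) (hδ : δ ≤ 1 / 10 ^ 8) {T ν : ℝ}
    (hT : 1 / Real.sqrt (kap a) ≤ T) (hν : 0 ≤ ν) :
    ∫ t in Set.Ici T ∩ {t : ℝ | ν ≤ NN a t}, |PP a t| / t ^ 2 ≤
      (2 * Real.sqrt (kap a) / T) * (4 * Real.exp (-ν ^ 2 / 2) + kap a * Real.sqrt (kap a)) := by
  have hk := h.sqrt_kap_pos
  set l := 1 / Real.sqrt (kap a) with hldef
  have hl : 0 < l := by positivity
  have hT0 : 0 < T := hl.trans_le hT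
  have hS := measurable_NNset a ν
  set B := 4 * Real.exp (-ν ^ 2 / 2) + kap a * Real.sqrt (kap a) with hB
  have hB0 : 0 ≤ B := by
    have := h.kap_pos
    positivity
  set g : ℝ → ℝ := Set.indicator {t : ℝ | ν ≤ NN a t} (fun t => |PP a t| / t ^ 2) with hg
  have hgi : IntegrableOn g (Set.Ioi T) :=
    ((integrable_tail a hT0).mono_set Set.Ioi_subset_Ici_self).indicator hS
  rw [← setIntegral_indicator hS, integral_Ici_eq_integral_Ioi]
  have hseq : Filter.Tendsto (fun J : ℕ => T + (J : ℝ) * l) Filter.atTop Filter.atTop := by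
    refine Filter.tendsto_atTop_add_const_left _ _ ?_
    exact Filter.Tendsto.atTop_mul_const hl tendsto_natCast_atTop_atTop
  have hlim := intervalIntegral_tendsto_integral_Ioi T hgi hseq
  refine le_of_tendsto hlim (Filter.Eventually.of_forall fun J => ?_)
  have hii : ∀ j : ℕ, IntervalIntegrable g volume (T + (j : ℝ) * l) (T + ((j + 1 : ℕ) : ℝ) * l) := by
    intro j
    rw [intervalIntegrable_iff_integrableOn_Ioc_of_le (by push_cast; nlinarith)]
    refine hgi.mono_set fun t ht => ?_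
    have : T ≤ T + (j : ℝ) * l := by
      have : 0 ≤ (j : ℝ) * l := by positivity
      linarith
    exact lt_of_le_of_lt this ht.1
  have hsum := intervalIntegral.sum_integral_adjacent_intervals (f := g) (μ := volume)
    (a := fun j : ℕ => T + (j : ℝ) * l) (n := J) (fun j _ => hii j)
  rw [Nat.cast_zero, zero_mul, add_zero] at hsum
  rw [← hsum]
  have hpiece : ∀ j ∈ Finset.range J, ∫ t in (T + (j : ℝ) * l)..(T + ((j + 1 : ℕ) : ℝ) * l), g t ≤
      1 / (T + (j : ℝ) * l) ^ 2 * B := by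
    intro j _
    have hs : 0 < T + (j : ℝ) * l := by positivity
    have := piece_bound h hδ hs hν
    rw [← hldef, ← hg, ← hB] at this
    rwa [show T + ((j + 1 : ℕ) : ℝ) * l = T + (j : ℝ) * l + l by push_cast; ring]
  refine (Finset.sum_le_sum hpiece).trans ?_
  rw [← Finset.sum_mul]
  apply mul_le_mul_of_nonneg_right _ hB0
  refine (sum_inv_sq' hT0 hl hT J).trans (le_of_eq ?_)
  rw [hldef]
  field_simp

theorem far_bound {a : Fin n → ℝ} {δ : ℝ} (h : Reg a δ) (hδ : δ ≤ 1 / 10 ^ 8) {ν : ℝ} (hν : 0 ≤ ν) :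
    ∫ t in Set.Ici (Real.pi / (2 * δ)) ∩ {t : ℝ | ν ≤ NN a t}, |PP a t| / t ^ 2 ≤
      kap a * (8 * Real.exp (-ν ^ 2 / 2) + 3 * kap a) := by
  have hk := h.sqrt_kap_pos
  have hκ := h.kap_pos
  have hδ0 := h.pos
  have hsq : Real.sqrt (kap a) * Real.sqrt (kap a) = kap a := Real.mul_self_sqrt hκ.le
  have hk1 : Real.sqrt (kap a) ≤ 1 := (h.sqrt_kap_le).trans (hδ.trans (by norm_num))
  set l := 1 / Real.sqrt (kap a) with hldef
  have hl : 0 < l := by positivity
  have hpi3 := Real.pi_gt_three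
  set T₀ := Real.pi / (2 * δ) with hT0def
  have hT1 : 1 ≤ T₀ := by
    rw [hT0def, le_div_iff₀ (by positivity)]
    have : δ ≤ 1 := hδ.trans (by norm_num)
    linarith
  have hT0 : 0 < T₀ := by linarith
  set E := Real.exp (-ν ^ 2 / 2) with hE
  have hE0 : 0 < E := Real.exp_pos _
  have hS := measurable_NNset a ν
  -- the bound on `[T, ∞)`, `T ≥ l`
  have htail : ∀ T, l ≤ T → ∫ t in Set.Ici T ∩ {t : ℝ | ν ≤ NN a t}, |PP a t| / t ^ 2 ≤
      kap a * (8 * E + 2 * kap a) := by
    intro T hT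
    refine (tail_bound h hδ hT hν).trans ?_
    have hT' : 0 < T := hl.trans_le hT
    have h1 : 2 * Real.sqrt (kap a) / T ≤ 2 * kap a := by
      rw [div_le_iff₀ hT']
      have h2 : 1 ≤ Real.sqrt (kap a) * T := by
        rw [hldef, div_le_iff₀ hk] at hT
        linarith
      nlinarith
    have h3 : 0 ≤ 4 * E + kap a * Real.sqrt (kap a) := by positivity
    calc 2 * Real.sqrt (kap a) / T * (4 * E + kap a * Real.sqrt (kap a)) ≤
        2 * kap a * (4 * E + kap a * Real.sqrt (kap a)) := mul_le_mul_of_nonneg_right h1 h3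
      _ ≤ kap a * (8 * E + 2 * kap a) := by
          have h4 : kap a * Real.sqrt (kap a) ≤ kap a := by nlinarith
          nlinarith
  by_cases hcase : l ≤ T₀
  · refine (htail T₀ hcase).trans ?_
    nlinarith
  · push Not at hcase
    obtain ⟨hM10, hM3, hMe⟩ := MMa_facts h hδ
    have hMδ : MMa a * δ ≤ 1 / 50 := by
      have h1 : MMa a * δ ≤ MMa a ^ 3 * δ := by
        apply mul_le_mul_of_nonneg_right _ hδ0.le
        nlinarith [sq_nonneg (MMa a)]
      linarith
    have hsplit : Set.Ici T₀ ∩ {t : ℝ | ν ≤ NN a t} =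
        (Set.Ico T₀ l ∩ {t : ℝ | ν ≤ NN a t}) ∪ (Set.Ici l ∩ {t : ℝ | ν ≤ NN a t}) := by
      rw [← Set.union_inter_distrib_right, Set.Ico_union_Ici_eq_Ici hcase.le]
    have hint := integrable_tail a hT0
    have hdis : Disjoint (Set.Ico T₀ l ∩ {t : ℝ | ν ≤ NN a t}) (Set.Ici l ∩ {t : ℝ | ν ≤ NN a t}) := by
      rw [Set.disjoint_left]
      rintro t ⟨ht1, _⟩ ⟨ht2, _⟩
      exact absurd ht1.2 (not_lt.2 ht2)
    rw [hsplit, setIntegral_union hdis (measurableSet_Ici.inter hS)
      (hint.mono_set fun t ht => ht.1.1)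
      (hint.mono_set fun t ht => hcase.le.trans ht.1)]
    have hA := htail l le_rfl
    have hB : ∫ t in Set.Ico T₀ l ∩ {t : ℝ | ν ≤ NN a t}, |PP a t| / t ^ 2 ≤ kap a ^ 2 := by
      have hpt : ∀ t ∈ Set.Ico T₀ l, |PP a t| ≤ kap a ^ 2 := by
        intro t ht
        have hNN : MMa a < NN a t := by
          by_contra hcon
          push Not at hcon
          rcases NN_sep h hcon (hT0.le.trans ht.1) hMδ with h1 | h1
          · have h2 : T₀ ≤ MMa a := ht.1.trans h1
            rw [hT0def, div_le_iff₀ (by positivity)] at h2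
            nlinarith
          · have h2 := ht.2
            rw [hldef, lt_div_iff₀ hk] at h2
            linarith
        refine (abs_PP_le a t).trans ?_
        rw [← hMe]
        apply Real.exp_le_exp.2
        have : MMa a ^ 2 ≤ NN a t ^ 2 := pow_le_pow_left₀ (by linarith) hNN.le 2
        linarith
      calc ∫ t in Set.Ico T₀ l ∩ {t : ℝ | ν ≤ NN a t}, |PP a t| / t ^ 2
          ≤ ∫ t in Set.Ico T₀ l ∩ {t : ℝ | ν ≤ NN a t}, kap a ^ 2 * (1 / t ^ 2) := by
            refine setIntegral_mono_on (hint.mono_set fun t ht => ht.1.1)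
              (((integrableOn_inv_sq hT0).mono_set fun t ht => ht.1.1).const_mul _)
              (measurableSet_Ico.inter hS) fun t ht => ?_
            rw [mul_one_div]
            exact div_le_div_of_nonneg_right (hpt t ht.1) (by positivity)
        _ ≤ ∫ t in Set.Ici T₀, kap a ^ 2 * (1 / t ^ 2) := by
            refine setIntegral_mono_set ((integrableOn_inv_sq hT0).const_mul _) ?_ ?_
            · exact Filter.Eventually.of_forall fun t => by positivity
            · exact Filter.Eventually.of_forall fun t ht => ht.1.1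
        _ = kap a ^ 2 * (1 / T₀) := by rw [integral_const_mul, integral_inv_sq hT0]
        _ ≤ kap a ^ 2 * 1 := by
            apply mul_le_mul_of_nonneg_left _ (by positivity)
            rw [div_le_one hT0]
            exact hT1
        _ = kap a ^ 2 := mul_one _
    calc _ ≤ kap a ^ 2 + kap a * (8 * E + 2 * kap a) := add_le_add hB hA
      _ = _ := by ring

end Pool.Agent.MP_cb3c9c_an.REG
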