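import Pool.Agent.MP_cb3c9c_an.REG.F2
import Pool.Agent.MP_cb3c9c_an.REG.A7

set_option autoImplicit false

open Finset MeasureTheory
open scoped BigOperators

namespace Pool.Agent.MP_cb3c9c_an.REG

open Pool.Agent.MP_cb3c9c_an.TwoBlock

variable {n : ℕ}

theorem f4_pointwise {a : Fin n → ℝ} {δ : ℝ} (h : Reg a δ) {t : ℝ} (ht : 0 < t) :
    |PP a t - Real.exp (-t ^ 2 / 2)| / t ^ 2 ≤ kap a * (t ^ 2 * Real.exp (-t ^ 2 / 2)) +
      (Set.Ici (Real.pi / (2 * δ))).indicator (fun t : ℝ => |PP a t| / t ^ 2) t := by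
  have hδ := h.pos
  have hκ := h.kap_pos
  have ht2 : 0 < t ^ 2 := by positivity
  have he := Real.exp_pos (-t ^ 2 / 2)
  by_cases hT : Real.pi / (2 * δ) ≤ t
  · rw [Set.indicator_of_mem (show t ∈ Set.Ici (Real.pi / (2 * δ)) from hT)]
    have h1 : 1 ≤ δ * t := by
      rw [div_le_iff₀ (by positivity)] at hT
      have := Real.pi_gt_three
      nlinarith
    have h2 : 1 ≤ kap a * t ^ 4 := by
      calc (1 : ℝ) ≤ (δ * t) ^ 4 := one_le_pow₀ h1
        _ = δ ^ 4 * t ^ 4 := by ring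
        _ ≤ kap a * t ^ 4 := mul_le_mul_of_nonneg_right h.kap_ge (by positivity)
    have h3 : |PP a t - Real.exp (-t ^ 2 / 2)| ≤
        kap a * t ^ 4 * Real.exp (-t ^ 2 / 2) + |PP a t| := by
      calc |PP a t - Real.exp (-t ^ 2 / 2)| ≤ |PP a t| + |Real.exp (-t ^ 2 / 2)| := abs_sub _ _
        _ = |PP a t| + Real.exp (-t ^ 2 / 2) := by rw [abs_of_pos he]
        _ ≤ _ := by nlinarith
    calc |PP a t - Real.exp (-t ^ 2 / 2)| / t ^ 2
        ≤ (kap a * t ^ 4 * Real.exp (-t ^ 2 / 2) + |PP a t|) / t ^ 2 :=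
          div_le_div_of_nonneg_right h3 ht2.le
      _ = kap a * (t ^ 2 * Real.exp (-t ^ 2 / 2)) + |PP a t| / t ^ 2 := by
          field_simp
  · rw [Set.indicator_of_notMem (show t ∉ Set.Ici (Real.pi / (2 * δ)) from hT), add_zero]
    push Not at hT
    have habs : |t| ≤ Real.pi / (2 * δ) := by
      rw [abs_of_pos ht]
      exact hT.le
    obtain ⟨h0, h1⟩ := PP_near_upper h habs
    have h2 := PP_near_lower h habs
    have h3 : Real.exp (-t ^ 2 / 2 - kap a * t ^ 4 / 12) ≤ Real.exp (-t ^ 2 / 2) := by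
      apply Real.exp_le_exp.2
      have : 0 ≤ kap a * t ^ 4 := by positivity
      linarith
    have h4 : |PP a t - Real.exp (-t ^ 2 / 2)| ≤ kap a * t ^ 4 * Real.exp (-t ^ 2 / 2) := by
      rw [abs_sub_comm, abs_of_nonneg (by linarith)]
      nlinarith
    calc |PP a t - Real.exp (-t ^ 2 / 2)| / t ^ 2
        ≤ (kap a * t ^ 4 * Real.exp (-t ^ 2 / 2)) / t ^ 2 := div_le_div_of_nonneg_right h4 ht2.le
      _ = kap a * (t ^ 2 * Real.exp (-t ^ 2 / 2)) := by
          field_simp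

/-- ROW REG-F4.

PROOF.  `T₀ = π/(2δ)`, `κ = kap a`.  For `0 < t ≤ T₀`: `e^{-t²/2} (1 - κt⁴) ≤ P ≤ e^{-t²/2}` (A6), so
`|P - e^{-t²/2}| ≤ κ t⁴ e^{-t²/2}`.  For `t > T₀`: `κ t⁴ ≥ δ⁴ t⁴ ≥ 1`, so `|P - e^{-t²/2}| ≤ |P| + κ t⁴ e^{-t²/2}`.
Hence the integral is `≤ κ ∫_0^∞ t² e^{-t²/2} + ∫_{T₀}^∞ |P|/t² ≤ κ (√(π/2) + 8 + 3κ) ≤ 10 κ`
(`integral_gauss2`, `far_bound` with `ν = 0`). -/
theorem diff_integral {a : Fin n → ℝ} {δ : ℝ} (h : Reg a δ) (hδ : δ ≤ 1 / 10 ^ 8) :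
    IntegrableOn (fun t : ℝ => |PP a t - Real.exp (-t ^ 2 / 2)| / t ^ 2) (Set.Ioi 0) ∧
      ∫ t in Set.Ioi (0 : ℝ), |PP a t - Real.exp (-t ^ 2 / 2)| / t ^ 2 ≤ 10 * kap a := by
  have hδ0 := h.pos
  have hκ := h.kap_pos
  have hT0 : 0 < Real.pi / (2 * δ) := by
    have := Real.pi_pos
    positivity
  have hi1 : IntegrableOn (fun t : ℝ => kap a * (t ^ 2 * Real.exp (-t ^ 2 / 2))) (Set.Ioi 0) :=
    integral_gauss2.1.const_mul _
  have hi2 : Integrable
      ((Set.Ici (Real.pi / (2 * δ))).indicator (fun t : ℝ => |PP a t| / t ^ 2)) :=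
    (integrable_tail a hT0).integrable_indicator measurableSet_Ici
  have hi3 : IntegrableOn (fun t : ℝ => kap a * (t ^ 2 * Real.exp (-t ^ 2 / 2)) +
      (Set.Ici (Real.pi / (2 * δ))).indicator (fun t : ℝ => |PP a t| / t ^ 2) t) (Set.Ioi 0) :=
    hi1.add hi2.integrableOn
  have hmeas : AEStronglyMeasurable
      (fun t : ℝ => |PP a t - Real.exp (-t ^ 2 / 2)| / t ^ 2) (volume.restrict (Set.Ioi 0)) := by
    apply Measurable.aestronglyMeasurable
    have h1 : Measurable (PP a) := (continuous_PP a).measurable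
    have h2 : Measurable (fun t : ℝ => Real.exp (-t ^ 2 / 2)) :=
      (by fun_prop : Continuous (fun t : ℝ => Real.exp (-t ^ 2 / 2))).measurable
    have h3 : Measurable (fun t : ℝ => t ^ 2) := (by fun_prop : Continuous fun t : ℝ => t ^ 2).measurable
    have h4 : Measurable (fun t : ℝ => |PP a t - Real.exp (-t ^ 2 / 2)|) :=
      continuous_abs.measurable.comp (h1.sub h2)
    exact h4.div h3
  have hint : IntegrableOn (fun t : ℝ => |PP a t - Real.exp (-t ^ 2 / 2)| / t ^ 2)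
      (Set.Ioi 0) := by
    refine Integrable.mono' hi3 hmeas ?_
    refine (ae_restrict_iff' measurableSet_Ioi).2 (Filter.Eventually.of_forall ?_)
    intro t ht
    have ht0 : 0 < t := ht
    rw [Real.norm_eq_abs, abs_of_nonneg (by positivity)]
    exact f4_pointwise h ht0
  refine ⟨hint, ?_⟩
  have h1 : ∫ t in Set.Ioi (0 : ℝ), |PP a t - Real.exp (-t ^ 2 / 2)| / t ^ 2 ≤
      ∫ t in Set.Ioi (0 : ℝ), (kap a * (t ^ 2 * Real.exp (-t ^ 2 / 2)) +
        (Set.Ici (Real.pi / (2 * δ))).indicator (fun t : ℝ => |PP a t| / t ^ 2) t) := by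
    refine setIntegral_mono_on hint hi3 measurableSet_Ioi ?_
    intro t ht
    exact f4_pointwise h ht
  have h2 : ∫ t in Set.Ioi (0 : ℝ), (kap a * (t ^ 2 * Real.exp (-t ^ 2 / 2)) +
        (Set.Ici (Real.pi / (2 * δ))).indicator (fun t : ℝ => |PP a t| / t ^ 2) t) =
      kap a * Real.sqrt (Real.pi / 2) +
        ∫ t in Set.Ici (Real.pi / (2 * δ)), |PP a t| / t ^ 2 := by
    rw [integral_add hi1 hi2.integrableOn, integral_const_mul, integral_gauss2.2,
      setIntegral_indicator measurableSet_Ici]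
    congr 3
    ext t
    constructor
    · intro ht
      exact ht.2
    · intro ht
      exact ⟨lt_of_lt_of_le hT0 ht, ht⟩
  have h3 : ∫ t in Set.Ici (Real.pi / (2 * δ)), |PP a t| / t ^ 2 ≤ kap a * (8 + 3 * kap a) := by
    have h4 := far_bound h hδ (le_refl (0 : ℝ))
    have h5 : Set.Ici (Real.pi / (2 * δ)) ∩ {t : ℝ | 0 ≤ NN a t} =
        Set.Ici (Real.pi / (2 * δ)) := by
      apply Set.inter_eq_left.2
      intro t _
      exact NN_nonneg a t
    rw [h5] at h4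
    have h6 : Real.exp (-(0 : ℝ) ^ 2 / 2) = 1 := by norm_num
    rw [h6, mul_one] at h4
    exact h4
  have h7 : Real.sqrt (Real.pi / 2) ≤ 1.5 := by
    rw [Real.sqrt_le_left (by norm_num)]
    have := Real.pi_lt_d2
    norm_num
    linarith
  have h8 : kap a ≤ 1 / 10 := by
    have h9 := h.kap_le
    have h10 : δ ^ 2 ≤ (1 / 10 ^ 8) ^ 2 := pow_le_pow_left₀ hδ0.le hδ 2
    norm_num at h10
    linarith
  nlinarith

/-- PROOF.  `DD_eq` (A4) and `diff_integral`; `(2/π) 10 ≤ 7`. -/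
theorem DD_near {a : Fin n → ℝ} {δ : ℝ} (h : Reg a δ) (hδ : δ ≤ 1 / 10 ^ 8) :
    |DD a - Real.sqrt (2 / Real.pi)| ≤ 7 * kap a := by
  obtain ⟨hi, hb⟩ := diff_integral h hδ
  obtain ⟨-, hD⟩ := DD_eq a
  have hκ := h.kap_pos
  rw [hD, add_sub_cancel_left, abs_mul, abs_of_pos (by have := Real.pi_pos; positivity)]
  have h1 : |∫ t in Set.Ioi (0 : ℝ), (Real.exp (-t ^ 2 / 2) - PP a t) / t ^ 2| ≤
      ∫ t in Set.Ioi (0 : ℝ), |PP a t - Real.exp (-t ^ 2 / 2)| / t ^ 2 := by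
    refine (abs_integral_le_integral_abs).trans (le_of_eq ?_)
    refine integral_congr_ae (Filter.Eventually.of_forall ?_)
    intro t
    simp only
    rw [abs_div, abs_sub_comm, abs_of_nonneg (sq_nonneg t)]
  have hpi := Real.pi_gt_three
  calc 2 / Real.pi * |∫ t in Set.Ioi (0 : ℝ), (Real.exp (-t ^ 2 / 2) - PP a t) / t ^ 2|
      ≤ 2 / Real.pi * (10 * kap a) :=
        mul_le_mul_of_nonneg_left (h1.trans hb) (by positivity)
    _ = (20 / Real.pi) * kap a := by ring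
    _ ≤ 7 * kap a := by
        refine mul_le_mul_of_nonneg_right ?_ hκ.le
        rw [div_le_iff₀ Real.pi_pos]
        linarith

end Pool.Agent.MP_cb3c9c_an.REG
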