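import Pool.Agent.MP_cb3c9c_an.REG.Base

set_option autoImplicit false

open Finset MeasureTheory
open scoped BigOperators

namespace Pool.Agent.MP_cb3c9c_an.REG

open Pool.Agent.MP_cb3c9c_an.TwoBlock

variable {n : ℕ}

theorem gk_int {h : ℝ} (hh : 0 < h) (y : ℝ) :
    Integrable (fun t : ℝ => Real.cos (t * y) * Real.exp (-(h ^ 2 * t ^ 2) / 2)) := by
  have h1 : Integrable (fun t : ℝ => Real.exp (-(h ^ 2 / 2) * t ^ 2)) :=
    integrable_exp_neg_mul_sq (by positivity)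
  refine h1.mono' ?_ ?_
  · apply Continuous.aestronglyMeasurable
    fun_prop
  · filter_upwards with t
    rw [norm_mul, Real.norm_eq_abs, Real.norm_eq_abs, abs_of_pos (Real.exp_pos _)]
    have h2 : |Real.cos (t * y)| ≤ 1 := Real.abs_cos_le_one _
    have h3 : -(h ^ 2 * t ^ 2) / 2 = -(h ^ 2 / 2) * t ^ 2 := by ring
    rw [h3]
    have h4 := Real.exp_pos (-(h ^ 2 / 2) * t ^ 2)
    nlinarith

theorem gk_full {h : ℝ} (hh : 0 < h) (y : ℝ) :
    ∫ t : ℝ, Real.cos (t * y) * Real.exp (-(h ^ 2 * t ^ 2) / 2) =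
      Real.sqrt (2 * Real.pi) / h * Real.exp (-(y ^ 2) / (2 * h ^ 2)) := by
  have hb : (0 : ℝ) < ((h ^ 2 / 2 : ℝ) : ℂ).re := by
    rw [Complex.ofReal_re]; positivity
  have key := fourierIntegral_gaussian hb (y : ℂ)
  have e1 : ∀ x : ℝ, (Complex.exp (Complex.I * y * x) * Complex.exp (-((h ^ 2 / 2 : ℝ) : ℂ) * x ^ 2)).re
      = Real.cos (x * y) * Real.exp (-(h ^ 2 * x ^ 2) / 2) := by
    intro x
    have a1 : Complex.I * y * x = ((x * y : ℝ) : ℂ) * Complex.I := by push_cast; ring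
    have a2 : -((h ^ 2 / 2 : ℝ) : ℂ) * x ^ 2 = ((-(h ^ 2 * x ^ 2) / 2 : ℝ) : ℂ) := by
      push_cast; ring
    rw [a1, a2, ← Complex.ofReal_exp, Complex.re_mul_ofReal, Complex.exp_ofReal_mul_I_re]
  have hint : Integrable (fun x : ℝ =>
      Complex.exp (Complex.I * y * x) * Complex.exp (-((h ^ 2 / 2 : ℝ) : ℂ) * x ^ 2)) := by
    have h1 : Integrable (fun t : ℝ => Real.exp (-(h ^ 2 / 2) * t ^ 2)) :=
      integrable_exp_neg_mul_sq (by positivity)
    refine h1.mono' ?_ ?_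
    · apply Continuous.aestronglyMeasurable
      fun_prop
    · filter_upwards with t
      rw [norm_mul, Complex.norm_exp, Complex.norm_exp]
      have a1 : (Complex.I * y * t : ℂ).re = 0 := by
        simp
      have a2 : (-((h ^ 2 / 2 : ℝ) : ℂ) * (t : ℂ) ^ 2).re = -(h ^ 2 / 2) * t ^ 2 := by
        have : -((h ^ 2 / 2 : ℝ) : ℂ) * (t : ℂ) ^ 2 = ((-(h ^ 2 / 2) * t ^ 2 : ℝ) : ℂ) := by
          push_cast; ring
        rw [this, Complex.ofReal_re]
      rw [a1, a2, Real.exp_zero, one_mul]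
  have e2 : ∫ x : ℝ, (Complex.exp (Complex.I * y * x) *
      Complex.exp (-((h ^ 2 / 2 : ℝ) : ℂ) * x ^ 2)).re = (∫ x : ℝ, Complex.exp (Complex.I * y * x) *
      Complex.exp (-((h ^ 2 / 2 : ℝ) : ℂ) * x ^ 2)).re := by
    have := integral_re hint
    simpa using this
  rw [key] at e2
  simp only [e1] at e2
  rw [e2]
  have e3 : ((Real.pi : ℂ) / ((h ^ 2 / 2 : ℝ) : ℂ)) ^ (1 / 2 : ℂ) =
      ((Real.sqrt (2 * Real.pi) / h : ℝ) : ℂ) := by
    have a1 : ((Real.pi : ℂ) / ((h ^ 2 / 2 : ℝ) : ℂ)) = ((Real.pi / (h ^ 2 / 2) : ℝ) : ℂ) := by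
      push_cast; ring
    have a2 : (1 / 2 : ℂ) = ((1 / 2 : ℝ) : ℂ) := by push_cast; ring
    rw [a1, a2, ← Complex.ofReal_cpow (by positivity), ← Real.sqrt_eq_rpow]
    congr 1
    have a3 : Real.pi / (h ^ 2 / 2) = (2 * Real.pi) / h ^ 2 := by field_simp
    rw [a3, Real.sqrt_div (by positivity), Real.sqrt_sq hh.le]
  have e4 : -(y : ℂ) ^ 2 / (4 * ((h ^ 2 / 2 : ℝ) : ℂ)) = ((-(y ^ 2) / (2 * h ^ 2) : ℝ) : ℂ) := by
    push_cast
    congr 1
    ring
  rw [e3, e4, ← Complex.ofReal_exp, ← Complex.ofReal_mul, Complex.ofReal_re]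

/-- ROW REG-GK (Gaussian kernel and concentration).

PROOF of the first: Fourier transform of the Gaussian, e.g. real part of
`integral_cexp_neg_mul_sq_add_const` / `fourierIntegral_gaussian`: `∫_ℝ cos (t y) e^{-h²t²/2} dt = (√(2π)/h) e^{-y²/(2h²)}`,
and evenness in `t`. -/
theorem gauss_kernel {h : ℝ} (hh : 0 < h) (y : ℝ) :
    IntegrableOn (fun t : ℝ => Real.cos (t * y) * Real.exp (-(h ^ 2 * t ^ 2) / 2)) (Set.Ioi 0) ∧
      Real.exp (-(y ^ 2) / (2 * h ^ 2)) = (2 * h / Real.sqrt (2 * Real.pi)) *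
        ∫ t in Set.Ioi (0 : ℝ), Real.cos (t * y) * Real.exp (-(h ^ 2 * t ^ 2) / 2) := by
  refine ⟨(gk_int hh y).integrableOn, ?_⟩
  have h1 := gk_full hh y
  have h2 := integral_comp_abs (f := fun t : ℝ => Real.cos (t * y) *
    Real.exp (-(h ^ 2 * t ^ 2) / 2))
  have h3 : (fun t : ℝ => Real.cos (|t| * y) * Real.exp (-(h ^ 2 * |t| ^ 2) / 2)) =
      fun t : ℝ => Real.cos (t * y) * Real.exp (-(h ^ 2 * t ^ 2) / 2) := by
    funext t
    rw [sq_abs]
    congr 1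
    rcases abs_cases t with ⟨ht, _⟩ | ⟨ht, _⟩
    · rw [ht]
    · rw [ht, neg_mul, Real.cos_neg]
  rw [h3, h1] at h2
  have hpi : 0 < Real.sqrt (2 * Real.pi) := Real.sqrt_pos.mpr (by positivity)
  have h4 : ∫ t in Set.Ioi (0 : ℝ), Real.cos (t * y) * Real.exp (-(h ^ 2 * t ^ 2) / 2) =
      Real.sqrt (2 * Real.pi) / h * Real.exp (-(y ^ 2) / (2 * h ^ 2)) / 2 := by
    linarith
  rw [h4]
  field_simp

/-- Concentration by Fourier analysis.

PROOF.  `1{|y| ≤ h} ≤ √e · exp (-y²/(2h²))`.  With `y = lfS S b x - c`, average `gauss_kernel` over `x`; by `Ex_cos`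
(Base) `E cos (t (lfS S b x - c)) = cos (t c) ∏_{i∈S} cos (b_i t)` (apply it to `fun i => b i * t`, `α = -t c`), so
`E 1{..} ≤ √e (2h/√(2π)) ∫_0^∞ ∏ |cos (b_i t)| e^{-h²t²/2} dt`, and `√e · 2/√(2π) < 2`. -/
theorem conc_le (S : Finset (Fin n)) (b : Fin n → ℝ) (c : ℝ) {h : ℝ} (hh : 0 < h) :
    Ex (fun x : Fin n → Bool => if |lfS S b x - c| ≤ h then (1 : ℝ) else 0) ≤
      2 * h * ∫ t in Set.Ioi (0 : ℝ),
        (∏ i ∈ S, |Real.cos (b i * t)|) * Real.exp (-(h ^ 2 * t ^ 2) / 2) := by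
  have hpi : 0 < Real.sqrt (2 * Real.pi) := Real.sqrt_pos.mpr (by positivity)
  set K : ℝ := Real.sqrt (Real.exp 1) * (2 * h / Real.sqrt (2 * Real.pi)) with hK
  have hK0 : 0 ≤ K := by positivity
  have hK2 : K ≤ 2 * h := by
    have h1 : Real.sqrt (Real.exp 1) ≤ Real.sqrt (2 * Real.pi) := by
      apply Real.sqrt_le_sqrt
      have := Real.exp_one_lt_d9
      have := Real.pi_gt_d4
      linarith
    calc K = Real.sqrt (Real.exp 1) / Real.sqrt (2 * Real.pi) * (2 * h) := by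
          rw [hK]; ring
      _ ≤ 1 * (2 * h) := by
          apply mul_le_mul_of_nonneg_right _ (by positivity)
          rw [div_le_one hpi]; exact h1
      _ = 2 * h := one_mul _
  -- pointwise bound
  have hpt : ∀ x : Fin n → Bool, (if |lfS S b x - c| ≤ h then (1 : ℝ) else 0) ≤
      Real.sqrt (Real.exp 1) * Real.exp (-((lfS S b x - c) ^ 2) / (2 * h ^ 2)) := by
    intro x
    split_ifs with hx
    · have h1 : (lfS S b x - c) ^ 2 ≤ h ^ 2 := by
        rw [← sq_abs]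
        exact pow_le_pow_left₀ (abs_nonneg _) hx 2
      have h2 : -(1 / 2 : ℝ) ≤ -((lfS S b x - c) ^ 2) / (2 * h ^ 2) := by
        rw [le_div_iff₀ (by positivity)]
        linarith
      have h3 : Real.sqrt (Real.exp 1) = Real.exp (1 / 2) := by
        rw [Real.sqrt_eq_rpow, ← Real.exp_mul]; norm_num
      rw [h3, ← Real.exp_add]
      apply Real.one_le_exp
      linarith
    · positivity
  refine (Ex_mono hpt).trans ?_
  -- use the kernel
  have hker : ∀ x : Fin n → Bool, Real.sqrt (Real.exp 1) *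
      Real.exp (-((lfS S b x - c) ^ 2) / (2 * h ^ 2)) = K * ∫ t in Set.Ioi (0 : ℝ),
        Real.cos (t * (lfS S b x - c)) * Real.exp (-(h ^ 2 * t ^ 2) / 2) := by
    intro x
    rw [(gauss_kernel hh (lfS S b x - c)).2, hK]; ring
  simp only [hker]
  rw [Ex_mul]
  -- exchange average and integral
  have hex : Ex (fun x : Fin n → Bool => ∫ t in Set.Ioi (0 : ℝ),
      Real.cos (t * (lfS S b x - c)) * Real.exp (-(h ^ 2 * t ^ 2) / 2)) =
      ∫ t in Set.Ioi (0 : ℝ), Ex (fun x : Fin n → Bool =>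
        Real.cos (t * (lfS S b x - c)) * Real.exp (-(h ^ 2 * t ^ 2) / 2)) := by
    unfold Ex
    rw [integral_div, integral_finsetSum]
    intro x _
    exact (gauss_kernel hh (lfS S b x - c)).1
  rw [hex]
  have hav : ∀ t : ℝ, Ex (fun x : Fin n → Bool =>
      Real.cos (t * (lfS S b x - c)) * Real.exp (-(h ^ 2 * t ^ 2) / 2)) =
      Real.cos (-(t * c)) * (∏ i ∈ S, Real.cos (b i * t)) * Real.exp (-(h ^ 2 * t ^ 2) / 2) := by
    intro t
    rw [Ex_mul']
    congr 1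
    rw [← Ex_cos S (fun i => b i * t) (-(t * c))]
    congr 1
    funext x
    congr 1
    unfold lfS
    rw [mul_sub, Finset.mul_sum, sub_eq_add_neg]
    congr 1
    apply Finset.sum_congr rfl
    intro i _
    ring
  simp only [hav]
  have hIdom : Integrable (fun t : ℝ => Real.exp (-(h ^ 2 / 2) * t ^ 2)) :=
    integrable_exp_neg_mul_sq (by positivity)
  have hprod : ∀ t : ℝ, |∏ i ∈ S, Real.cos (b i * t)| ≤ 1 := by
    intro t
    rw [Finset.abs_prod]
    exact Finset.prod_le_one (fun i _ => abs_nonneg _) (fun i _ => Real.abs_cos_le_one _)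
  have hI1 : Integrable (fun t : ℝ => Real.cos (-(t * c)) * (∏ i ∈ S, Real.cos (b i * t)) *
      Real.exp (-(h ^ 2 * t ^ 2) / 2)) := by
    refine hIdom.mono' ?_ ?_
    · apply Continuous.aestronglyMeasurable
      fun_prop
    · filter_upwards with t
      rw [norm_mul, norm_mul, Real.norm_eq_abs, Real.norm_eq_abs, Real.norm_eq_abs,
        abs_of_pos (Real.exp_pos _)]
      have h2 : |Real.cos (-(t * c))| ≤ 1 := Real.abs_cos_le_one _
      have h3 : -(h ^ 2 * t ^ 2) / 2 = -(h ^ 2 / 2) * t ^ 2 := by ring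
      rw [h3]
      have h4 := Real.exp_pos (-(h ^ 2 / 2) * t ^ 2)
      have h5 : |Real.cos (-(t * c))| * |∏ i ∈ S, Real.cos (b i * t)| ≤ 1 :=
        mul_le_one₀ h2 (abs_nonneg _) (hprod t)
      nlinarith
  have hI2 : Integrable (fun t : ℝ => (∏ i ∈ S, |Real.cos (b i * t)|) *
      Real.exp (-(h ^ 2 * t ^ 2) / 2)) := by
    refine hIdom.mono' ?_ ?_
    · apply Continuous.aestronglyMeasurable
      fun_prop
    · filter_upwards with t
      rw [norm_mul, Real.norm_eq_abs, Real.norm_eq_abs, abs_of_pos (Real.exp_pos _)]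
      have h3 : -(h ^ 2 * t ^ 2) / 2 = -(h ^ 2 / 2) * t ^ 2 := by ring
      rw [h3]
      have h4 := Real.exp_pos (-(h ^ 2 / 2) * t ^ 2)
      have h5 : |(∏ i ∈ S, |Real.cos (b i * t)|)| ≤ 1 := by
        rw [← Finset.abs_prod, abs_abs]; exact hprod t
      nlinarith
  have hle : ∫ t in Set.Ioi (0 : ℝ), Real.cos (-(t * c)) * (∏ i ∈ S, Real.cos (b i * t)) *
      Real.exp (-(h ^ 2 * t ^ 2) / 2) ≤ ∫ t in Set.Ioi (0 : ℝ),
        (∏ i ∈ S, |Real.cos (b i * t)|) * Real.exp (-(h ^ 2 * t ^ 2) / 2) := by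
    apply integral_mono hI1.integrableOn hI2.integrableOn
    intro t
    simp only
    apply mul_le_mul_of_nonneg_right _ (Real.exp_pos _).le
    refine (le_abs_self _).trans ?_
    rw [abs_mul, Finset.abs_prod]
    have h2 : |Real.cos (-(t * c))| ≤ 1 := Real.abs_cos_le_one _
    have h3 : 0 ≤ ∏ i ∈ S, |Real.cos (b i * t)| := Finset.prod_nonneg fun i _ => abs_nonneg _
    nlinarith
  have hnn : 0 ≤ ∫ t in Set.Ioi (0 : ℝ),
        (∏ i ∈ S, |Real.cos (b i * t)|) * Real.exp (-(h ^ 2 * t ^ 2) / 2) := by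
    apply integral_nonneg
    intro t
    exact mul_nonneg (Finset.prod_nonneg fun i _ => abs_nonneg _) (Real.exp_pos _).le
  calc K * ∫ t in Set.Ioi (0 : ℝ), Real.cos (-(t * c)) * (∏ i ∈ S, Real.cos (b i * t)) *
      Real.exp (-(h ^ 2 * t ^ 2) / 2) ≤ K * ∫ t in Set.Ioi (0 : ℝ),
        (∏ i ∈ S, |Real.cos (b i * t)|) * Real.exp (-(h ^ 2 * t ^ 2) / 2) :=
        mul_le_mul_of_nonneg_left hle hK0
    _ ≤ _ := mul_le_mul_of_nonneg_right hK2 hnn

end Pool.Agent.MP_cb3c9c_an.REG
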