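import Pool.Agent.MP_cb3c9c_an.REG.F1
import Pool.Agent.MP_cb3c9c_an.REG.GK

set_option autoImplicit false

open Finset MeasureTheory
open scoped BigOperators

namespace Pool.Agent.MP_cb3c9c_an.REG

open Pool.Agent.MP_cb3c9c_an.TwoBlock

variable {n : ℕ}

lemma f5_term (j : ℕ) : Real.exp (-((j : ℝ) + 1) ^ 2 / 2) ≤ 1.65 * (3 / 8 : ℝ) ^ (j + 1) := by
  have h1 : Real.exp (-((j : ℝ) + 1) ^ 2 / 2) ≤ Real.exp (1 / 2) * Real.exp (-1) ^ (j + 1) := by
    rw [← Real.exp_nat_mul, ← Real.exp_add]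
    apply Real.exp_le_exp.mpr
    push_cast
    nlinarith [sq_nonneg ((j : ℝ))]
  have h2 : Real.exp (-1) ≤ 3 / 8 := by
    rw [Real.exp_neg, inv_le_comm₀ (Real.exp_pos 1) (by norm_num)]
    have := Real.exp_one_gt_d9
    norm_num
    linarith
  have h3 : Real.exp (1 / 2) ≤ 1.65 := by
    have h4 : Real.exp (1 / 2) * Real.exp (1 / 2) = Real.exp 1 := by
      rw [← Real.exp_add]
      norm_num
    have := Real.exp_one_lt_d9
    have h5 := Real.exp_pos (1 / 2)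
    nlinarith
  have h6 : Real.exp (-1) ^ (j + 1) ≤ (3 / 8 : ℝ) ^ (j + 1) :=
    pow_le_pow_left₀ (Real.exp_pos _).le h2 _
  calc _ ≤ Real.exp (1 / 2) * Real.exp (-1) ^ (j + 1) := h1
    _ ≤ 1.65 * (3 / 8 : ℝ) ^ (j + 1) := mul_le_mul h3 h6 (by positivity) (by norm_num)

lemma f5_sum (N : ℕ) : ∑ j ∈ Finset.range N, Real.exp (-(j : ℝ) ^ 2 / 2) ≤ 2 := by
  cases N with
  | zero => simp
  | succ N =>
    rw [Finset.sum_range_succ']
    have h0 : Real.exp (-((0 : ℕ) : ℝ) ^ 2 / 2) = 1 := by simp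
    rw [h0]
    have h1 : ∑ j ∈ Finset.range N, Real.exp (-((j + 1 : ℕ) : ℝ) ^ 2 / 2) ≤
        ∑ j ∈ Finset.range N, 1.65 * (3 / 8 : ℝ) ^ (j + 1) := by
      apply Finset.sum_le_sum
      intro j _
      have := f5_term j
      push_cast
      exact this
    have h2 : ∑ j ∈ Finset.range N, 1.65 * (3 / 8 : ℝ) ^ (j + 1) =
        1.65 * (3 / 8) * ∑ j ∈ Finset.range N, (3 / 8 : ℝ) ^ j := by
      rw [Finset.mul_sum]
      exact Finset.sum_congr rfl fun j _ => by ring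
    have h3 : ∑ j ∈ Finset.range N, (3 / 8 : ℝ) ^ j ≤ 8 / 5 := by
      rw [geom_sum_eq (by norm_num)]
      have : (0 : ℝ) < (3 / 8) ^ N := by positivity
      rw [div_le_iff_of_neg (by norm_num)]
      linarith
    rw [h2] at h1
    have h4 : 1.65 * (3 / 8) * ∑ j ∈ Finset.range N, (3 / 8 : ℝ) ^ j ≤ 1.65 * (3 / 8) * (8 / 5) :=
      mul_le_mul_of_nonneg_left h3 (by norm_num)
    have h5 : (1.65 * (3 / 8) * (8 / 5) : ℝ) ≤ 1 := by norm_num
    linarith

/-- ROW REG-F5 (concentration of `a.x` at scale `h ≥ √κ`).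

PROOF.  `conc_le univ a 0`; `∏ |cos (a_i t)| = |PP a t|`.  Cut `(0,∞)` into `[j l, (j+1) l]`, `l = 1/√κ`, `j ≥ 0`.  On the
`j`-th interval `e^{-h²t²/2} ≤ e^{-j²/2}` (`h l ≥ 1`) and `∫ |PP| ≤ 4 + κ√κ ≤ 5` (`interval_bound` with `ν = 0`).  So
the integral is `≤ 5 ∑_j e^{-j²/2} ≤ 5 · (1 + 0.61 + 0.14 + 0.02 + ..) ≤ 9`, and `2h · 9 ≤ 20 h`.
(E.g. `e^{-j²/2} ≤ e^{-j/2}` is enough for convergence but not for the constant; use
`e^{-j²/2} ≤ (1/4)^{j-1}·0.61` for `j ≥ 1`: `e^{-1/2} < 0.61`, and `j² - 1 ≥ 3 (j-1)`, `e^{-3/2} < 1/4`.) -/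
theorem conc_lf {a : Fin n → ℝ} {δ : ℝ} (h : Reg a δ) (hδ : δ ≤ 1 / 10 ^ 8) {r : ℝ}
    (hr : Real.sqrt (kap a) ≤ r) :
    Ex (fun x : Fin n → Bool => if |lf a x| ≤ r then (1 : ℝ) else 0) ≤ 20 * r := by
  have hκ := h.kap_pos
  have hsκ := h.sqrt_kap_pos
  have hr0 : 0 < r := lt_of_lt_of_le hsκ hr
  have hc := conc_le (Finset.univ : Finset (Fin n)) a 0 hr0
  have e1 : ∀ x : Fin n → Bool, lfS Finset.univ a x - 0 = lf a x := fun x => by
    rw [sub_zero]; rfl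
  simp only [e1] at hc
  refine hc.trans ?_
  have e2 : ∀ t : ℝ, ∏ i : Fin n, |Real.cos (a i * t)| = |PP a t| := fun t => by
    unfold PP
    rw [Finset.abs_prod]
  simp only [e2]
  obtain ⟨f, hf⟩ : ∃ f : ℝ → ℝ, f = fun t => |PP a t| * Real.exp (-(r ^ 2 * t ^ 2) / 2) := ⟨_, rfl⟩
  have hfc : Continuous f := by
    rw [hf]
    exact ((continuous_PP a).abs).mul (Real.continuous_exp.comp (by fun_prop))
  have hf0 : ∀ t, 0 ≤ f t := fun t => by
    rw [hf]
    positivity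
  have hb : 0 < r ^ 2 / 2 := by positivity
  have hfi : IntegrableOn f (Set.Ioi 0) := by
    apply Integrable.integrableOn
    refine (integrable_exp_neg_mul_sq hb).mono' hfc.aestronglyMeasurable
      (Filter.Eventually.of_forall fun t => ?_)
    rw [Real.norm_of_nonneg (hf0 t), hf]
    have h1 := abs_PP_le_one a t
    have h2 : -(r ^ 2 * t ^ 2) / 2 = -(r ^ 2 / 2) * t ^ 2 := by ring
    simp only []
    rw [h2]
    calc |PP a t| * Real.exp (-(r ^ 2 / 2) * t ^ 2) ≤ 1 * Real.exp (-(r ^ 2 / 2) * t ^ 2) :=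
          mul_le_mul_of_nonneg_right h1 (Real.exp_pos _).le
      _ = _ := one_mul _
  obtain ⟨l, hl⟩ : ∃ l, l = 1 / Real.sqrt (kap a) := ⟨_, rfl⟩
  have hl0 : 0 < l := by rw [hl]; positivity
  have hrl : 1 ≤ r * l := by
    rw [hl, mul_one_div, one_le_div hsκ]
    exact hr
  -- one interval
  have hstep : ∀ j : ℕ, ∫ t in ((j : ℝ) * l)..(((j + 1 : ℕ) : ℝ) * l), f t ≤
      4.1 * Real.exp (-(j : ℝ) ^ 2 / 2) := by
    intro j
    have hle : (j : ℝ) * l ≤ ((j + 1 : ℕ) : ℝ) * l := by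
      push_cast
      nlinarith
    have hend : ((j + 1 : ℕ) : ℝ) * l = (j : ℝ) * l + 1 / Real.sqrt (kap a) := by
      rw [← hl]
      push_cast
      ring
    have hset : Set.Icc ((j : ℝ) * l) ((j : ℝ) * l + 1 / Real.sqrt (kap a)) ∩
        {t : ℝ | 0 ≤ NN a t} = Set.Icc ((j : ℝ) * l) (((j + 1 : ℕ) : ℝ) * l) := by
      rw [← hend]
      apply Set.inter_eq_left.mpr
      intro t _
      exact Real.sqrt_nonneg _
    have h1 := interval_bound h hδ ((j : ℝ) * l) (le_refl (0 : ℝ))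
    rw [hset] at h1
    have h2 : (4 : ℝ) * Real.exp (-(0 : ℝ) ^ 2 / 2) + kap a * Real.sqrt (kap a) ≤ 4.1 := by
      have h3 : Real.exp (-(0 : ℝ) ^ 2 / 2) = 1 := by simp
      rw [h3]
      have h4 := h.kap_le
      have h5 := h.sqrt_kap_le
      have h6 := h.pos
      have h7 : kap a ≤ 1 / 10 := by
        refine h4.trans ?_
        nlinarith
      have h8 : Real.sqrt (kap a) ≤ 1 := by
        refine h5.trans (hδ.trans ?_)
        norm_num
      nlinarith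
    have h3 : ∫ t in ((j : ℝ) * l)..(((j + 1 : ℕ) : ℝ) * l), |PP a t| ≤ 4.1 := by
      rw [intervalIntegral.integral_of_le hle, ← integral_Icc_eq_integral_Ioc]
      exact h1.trans h2
    calc ∫ t in ((j : ℝ) * l)..(((j + 1 : ℕ) : ℝ) * l), f t
        ≤ ∫ t in ((j : ℝ) * l)..(((j + 1 : ℕ) : ℝ) * l),
            |PP a t| * Real.exp (-(j : ℝ) ^ 2 / 2) := by
          apply intervalIntegral.integral_mono_on hle (hfc.intervalIntegrable _ _)
            (((continuous_PP a).abs.mul continuous_const).intervalIntegrable _ _)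
          intro t ht
          rw [hf]
          apply mul_le_mul_of_nonneg_left _ (abs_nonneg _)
          apply Real.exp_le_exp.mpr
          have hj0 : (0 : ℝ) ≤ j := Nat.cast_nonneg j
          have h4 : (j : ℝ) ≤ r * t := by
            calc (j : ℝ) = (j : ℝ) * 1 := (mul_one _).symm
              _ ≤ (j : ℝ) * (r * l) := mul_le_mul_of_nonneg_left hrl hj0
              _ = r * ((j : ℝ) * l) := by ring
              _ ≤ r * t := mul_le_mul_of_nonneg_left ht.1 hr0.le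
          have h5 : (j : ℝ) ^ 2 ≤ (r * t) ^ 2 := pow_le_pow_left₀ hj0 h4 2
          nlinarith
      _ = (∫ t in ((j : ℝ) * l)..(((j + 1 : ℕ) : ℝ) * l), |PP a t|) *
            Real.exp (-(j : ℝ) ^ 2 / 2) := by
          rw [intervalIntegral.integral_mul_const]
      _ ≤ 4.1 * Real.exp (-(j : ℝ) ^ 2 / 2) :=
          mul_le_mul_of_nonneg_right h3 (Real.exp_pos _).le
  -- finitely many intervals
  have hfin : ∀ N : ℕ, ∫ t in (0 : ℝ)..((N : ℝ) * l), f t ≤ 10 := by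
    intro N
    have h1 : ∑ j ∈ Finset.range N, ∫ t in ((j : ℝ) * l)..(((j + 1 : ℕ) : ℝ) * l), f t =
        ∫ t in (((0 : ℕ) : ℝ) * l)..((N : ℝ) * l), f t :=
      intervalIntegral.sum_integral_adjacent_intervals (a := fun j : ℕ => (j : ℝ) * l)
        (fun j _ => hfc.intervalIntegrable _ _)
    have h2 : ((0 : ℕ) : ℝ) * l = 0 := by simp
    rw [h2] at h1
    rw [← h1]
    calc _ ≤ ∑ j ∈ Finset.range N, 4.1 * Real.exp (-(j : ℝ) ^ 2 / 2) :=
          Finset.sum_le_sum fun j _ => hstep j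
      _ = 4.1 * ∑ j ∈ Finset.range N, Real.exp (-(j : ℝ) ^ 2 / 2) := by rw [Finset.mul_sum]
      _ ≤ 4.1 * 2 := mul_le_mul_of_nonneg_left (f5_sum N) (by norm_num)
      _ ≤ 10 := by norm_num
  have hlim : Filter.Tendsto (fun N : ℕ => ∫ t in (0 : ℝ)..((N : ℝ) * l), f t) Filter.atTop
      (nhds (∫ t in Set.Ioi (0 : ℝ), f t)) := by
    apply intervalIntegral_tendsto_integral_Ioi 0 hfi
    exact Filter.Tendsto.atTop_mul_const hl0 tendsto_natCast_atTop_atTop
  have hle10 : ∫ t in Set.Ioi (0 : ℝ), f t ≤ 10 :=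
    le_of_tendsto hlim (Filter.Eventually.of_forall hfin)
  have h2r : 0 ≤ 2 * r := by positivity
  have hfinal := mul_le_mul_of_nonneg_left hle10 h2r
  rw [hf] at hfinal
  linarith

end Pool.Agent.MP_cb3c9c_an.REG
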