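import Pool.Agent.MP_cb3c9c_an.REG.F4
import Pool.Agent.MP_cb3c9c_an.REG.F5

set_option autoImplicit false

open Finset MeasureTheory
open scoped BigOperators

namespace Pool.Agent.MP_cb3c9c_an.REG

open Pool.Agent.MP_cb3c9c_an.TwoBlock

variable {n : ℕ}

lemma f6_sg_le (t : ℝ) : |sg t| ≤ 1 := by
  unfold sg
  split_ifs <;> simp

lemma f6_sg_mul (t : ℝ) : sg t * t = |t| := by
  unfold sg
  split_ifs with h1 h2
  · rw [abs_of_pos h1, one_mul]
  · rw [abs_of_neg h2]; ring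
  · have : t = 0 := le_antisymm (not_lt.1 h1) (not_lt.1 h2)
    rw [this]; simp

/-- `sg` does not change if a small number is added -/
lemma f6_sg_eq {y c : ℝ} (h : |c| < |y|) : sg (y + c) = sg (y - c) := by
  rcases lt_trichotomy y 0 with hy | hy | hy
  · rw [abs_of_neg hy] at h
    have h1 := abs_lt.1 h
    rw [sg_neg' (by linarith [h1.2]), sg_neg' (by linarith [h1.1])]
  · rw [hy, abs_zero] at h
    exact absurd h (not_lt.2 (abs_nonneg _))
  · rw [abs_of_pos hy] at h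
    have h1 := abs_lt.1 h
    rw [sg_pos (by linarith [h1.1]), sg_pos (by linarith [h1.2])]

lemma f6_DI_le {a : Fin n → ℝ} {i : Fin n} {r : ℝ} (hr : 2 * |a i| ≤ r) (x : Fin n → Bool) :
    |DI i (fun y => sg (lf a y)) x| ≤ if |lf a x| ≤ r then 1 else 0 := by
  have hup : lf a (up i x) = lfS (univ.erase i) a x + a i := lfS_up univ a (mem_univ i) x
  have hdn : lf a (dn i x) = lfS (univ.erase i) a x - a i := lfS_dn univ a (mem_univ i) x
  have hx : lf a x = lfS (univ.erase i) a x + a i * sb (x i) := lfS_erase univ a (mem_univ i) x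
  unfold DI
  split_ifs with h
  · rw [abs_div, abs_two, div_le_iff₀ (by norm_num)]
    refine (abs_sub _ _).trans ?_
    linarith [f6_sg_le (lf a (up i x)), f6_sg_le (lf a (dn i x))]
  · push Not at h
    have h1 : |a i * sb (x i)| = |a i| := by
      rw [abs_mul]
      have : |sb (x i)| = 1 := by cases x i <;> simp
      rw [this, mul_one]
    have h2 : |lf a x| ≤ |lfS (univ.erase i) a x| + |a i| := by
      rw [hx, ← h1]
      exact abs_add_le _ _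
    have h3 : |a i| < |lfS (univ.erase i) a x| := by linarith
    simp only [hup, hdn]
    rw [f6_sg_eq h3, sub_self, zero_div, abs_zero]

/-- ROW REG-F6 (three statements).  The Chow parameter `cw a i = E sgn(a.x) x_i` is small.

PROOF.  `cw a i = E D_i sgn(a.x)` (`Ex_sb_mul`), and `D_i sgn(a.x) ≠ 0` forces
`|lfS (univ.erase i) a x| ≤ |a i|`, hence `|lf a x| ≤ 2 |a i|`; `|D_i sgn| ≤ 1`.
So `|cw a i| ≤ P(|lf a x| ≤ 2|a i|) ≤ P(|lf a x| ≤ r)`, `r = max (2|a i|) (√κ)`; `conc_lf` (F5).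
(`lfS_up`, `lfS_dn` in Base.) -/
theorem abs_cw_le {a : Fin n → ℝ} {δ : ℝ} (h : Reg a δ) (hδ : δ ≤ 1 / 10 ^ 8) (i : Fin n) :
    |cw a i| ≤ 20 * max (2 * |a i|) (Real.sqrt (kap a)) := by
  set r := max (2 * |a i|) (Real.sqrt (kap a)) with hr
  have h1 : cw a i = Ex (DI i (fun y => sg (lf a y))) := by
    rw [← Ex_sb_mul]
    unfold cw
    congr 1
    funext x
    ring
  rw [h1]
  refine (Ex_abs_le _).trans ((Ex_mono fun x => f6_DI_le (r := r) (le_max_left _ _) x).trans ?_)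
  exact conc_lf h hδ (le_max_right _ _)

/-- `∑ a_i cw_i = E|a.x|`.  PROOF.  `sg u * u = |u|`, linearity. -/
theorem sum_mul_cw (a : Fin n → ℝ) : ∑ i, a i * cw a i = DD a := by
  unfold cw DD
  have h1 : ∀ i, a i * Ex (fun x : Fin n → Bool => sg (lf a x) * sb (x i)) =
      Ex fun x : Fin n → Bool => a i * (sg (lf a x) * sb (x i)) := fun i => (Ex_mul _ _).symm
  rw [Finset.sum_congr rfl fun i _ => h1 i, ← Ex_sum]
  congr 1
  funext x
  rw [← f6_sg_mul, lf, Finset.mul_sum]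
  refine Finset.sum_congr rfl fun i _ => ?_
  ring

/-- `∑ c_i cw_i = E sgn(a.x) (c.x)` -/
lemma f6_pair (a c : Fin n → ℝ) :
    ∑ i, c i * cw a i = Ex fun x : Fin n → Bool => sg (lf a x) * lf c x := by
  unfold cw
  have h1 : ∀ i, c i * Ex (fun x : Fin n → Bool => sg (lf a x) * sb (x i)) =
      Ex fun x : Fin n → Bool => c i * (sg (lf a x) * sb (x i)) := fun i => (Ex_mul _ _).symm
  rw [Finset.sum_congr rfl fun i _ => h1 i, ← Ex_sum]
  congr 1
  funext x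
  simp only [lf]
  rw [Finset.mul_sum]
  refine Finset.sum_congr rfl fun i _ => ?_
  ring

lemma f6_pair_le (a c : Fin n → ℝ) : ∑ i, c i * cw a i ≤ DD c := by
  rw [f6_pair]
  unfold DD
  apply Ex_mono
  intro x
  calc sg (lf a x) * lf c x ≤ |sg (lf a x) * lf c x| := le_abs_self _
    _ = |sg (lf a x)| * |lf c x| := abs_mul _ _
    _ ≤ 1 * |lf c x| := mul_le_mul_of_nonneg_right (f6_sg_le _) (abs_nonneg _)
    _ = |lf c x| := one_mul _

lemma f6_bessel (a : Fin n → ℝ) : ∑ i, cw a i ^ 2 ≤ 1 := by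
  have h1 : ∑ i, cw a i ^ 2 = Ex fun x : Fin n → Bool => sg (lf a x) * lf (cw a) x := by
    rw [← f6_pair]
    exact Finset.sum_congr rfl fun i _ => by ring
  have h2 := Ex_cs (fun x : Fin n → Bool => sg (lf a x)) (fun x => lf (cw a) x)
  rw [← h1, Ex_lf_sq] at h2
  have h3 : Ex (fun x : Fin n → Bool => sg (lf a x) ^ 2) ≤ 1 := by
    calc Ex (fun x : Fin n → Bool => sg (lf a x) ^ 2) ≤ Ex fun _ : Fin n → Bool => (1 : ℝ) := by
          apply Ex_mono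
          intro x
          have := f6_sg_le (lf a x)
          rw [← sq_abs]
          nlinarith [abs_nonneg (sg (lf a x))]
      _ = 1 := Ex_const 1
  have h0 : 0 ≤ ∑ i, cw a i ^ 2 := Finset.sum_nonneg fun i _ => sq_nonneg _
  set W := ∑ i, cw a i ^ 2
  by_contra hcon
  push Not at hcon
  nlinarith [mul_le_mul_of_nonneg_right h3 h0]

/-- `|p - D a|² ≤ 10⁹ κ`.

PROOF.  Choose `δ ≤ 10^{-10}` with `Reg b δ` (`reg_of_unit`), `κ = kap b ≤ 10^{-20}`, `p = cw b`, `D = DD b`,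
`W = ∑ p_i²`.  `∑ (p_i - D b_i)² = W - 2 D ∑ p_i b_i + D² = W - D²` (`sum_mul_cw`).
By `DD_near` `D ≥ √(2/π) - 7κ`, so `D² ≥ 2/π - 12 κ`; `W ≥ D² ≥ 0.63` (Cauchy–Schwarz: `D = ∑ p_i b_i`).
By `abs_cw_le`: if `2|b_i| ≥ √κ`, `p_i⁴ ≤ 20⁴·16 b_i⁴`; otherwise `p_i⁴ ≤ 400 κ p_i²`.  As `∑ p_i² ≤ 1`
(Bessel: `W = (∑ p_i x_i | f) ≤ √W`), `∑ p_i⁴ ≤ 2.56·10⁶ κ + 400 κ ≤ 2.6·10⁶ κ`.
Let `q = p/√W`, a unit vector with `|q_i| ≤ 20 max(2δ, √κ)/√0.63 ≤ 51 δ ≤ 10^{-8}` and `kap q = ∑ p_i⁴/W² ≤ 6.7·10⁶ κ`.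
`√W = ∑ p_i q_i = E sgn(b.x) (q.x) ≤ E|q.x| = DD q ≤ √(2/π) + 7 kap q ≤ √(2/π) + 4.7·10⁷ κ` (`DD_near` for `q`).
So `W ≤ 2/π + 10⁸ κ` (`κ ≤ 10^{-20}`), and `W - D² ≤ 10⁸ κ + 12 κ ≤ 10⁹ κ`. -/
theorem chow_close (b : Fin n → ℝ) (h1 : ∑ i, b i ^ 2 = 1) (hd : ∀ i, |b i| ≤ 1 / 10 ^ 10)
    (hne : ∀ x, lf b x ≠ 0) :
    ∑ i, (cw b i - DD b * b i) ^ 2 ≤ 10 ^ 9 * kap b := by
  obtain ⟨δ, hR, hδ⟩ := reg_of_unit h1 hd
  have hδ0 := hR.pos
  have hκ0 := hR.kap_pos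
  have hκδ := hR.kap_le
  set κ := kap b with hκ
  have hκ20 : κ ≤ 1 / 10 ^ 20 := by
    calc κ ≤ δ ^ 2 := hκδ
      _ ≤ (1 / 10 ^ 10) ^ 2 := pow_le_pow_left₀ hδ0.le hδ 2
      _ = 1 / 10 ^ 20 := by norm_num
  set W := ∑ i, cw b i ^ 2 with hW
  set D := DD b with hD
  -- the constant
  set ρ := Real.sqrt (2 / Real.pi) with hρ
  have hρ2 : ρ ^ 2 = 2 / Real.pi := Real.sq_sqrt (by positivity)
  have hπ1 := Real.pi_gt_d2
  have hπ2 := Real.pi_lt_d2
  have hρ0 : 0 ≤ ρ := Real.sqrt_nonneg _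
  have hρ8 : ρ ≤ 0.8 := by
    rw [hρ, Real.sqrt_le_left (by norm_num), div_le_iff₀ Real.pi_pos]
    nlinarith
  have hρ79 : 0.79 ≤ ρ := by
    rw [hρ]
    apply Real.le_sqrt_of_sq_le
    rw [le_div_iff₀ Real.pi_pos]
    nlinarith
  have hDn := abs_le.1 (DD_near hR (hδ.trans (by norm_num)))
  rw [← hκ, ← hD, ← hρ] at hDn
  -- `∑ p b = D`
  have hpb : ∑ i, b i * cw b i = D := sum_mul_cw b
  have hexp : ∑ i, (cw b i - D * b i) ^ 2 = W - D ^ 2 := by
    have : ∀ i, (cw b i - D * b i) ^ 2 = cw b i ^ 2 - 2 * D * (b i * cw b i) + D ^ 2 * b i ^ 2 :=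
      fun i => by ring
    rw [Finset.sum_congr rfl fun i _ => this i, Finset.sum_add_distrib, Finset.sum_sub_distrib,
      ← Finset.mul_sum, ← Finset.mul_sum, hpb, h1]
    ring
  have hDW : D ^ 2 ≤ W := by
    have := Finset.sum_nonneg (s := univ) fun (i : Fin n) _ => sq_nonneg (cw b i - D * b i)
    rw [hexp] at this
    linarith
  have hW1 : W ≤ 1 := f6_bessel b
  have hD78 : 0.789 ≤ D := by
    have : 7 * κ ≤ 0.001 := by
      calc 7 * κ ≤ 7 * (1 / 10 ^ 20) := by linarith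
        _ ≤ 0.001 := by norm_num
    linarith [hDn.1]
  have hW62 : 0.62 ≤ W := by nlinarith
  -- fourth powers
  have hp4 : ∀ i, cw b i ^ 4 ≤ 2560000 * b i ^ 4 + 400 * κ * cw b i ^ 2 := by
    intro i
    have h2 := abs_cw_le hR (hδ.trans (by norm_num)) i
    rw [← hκ] at h2
    have e4 : cw b i ^ 4 = |cw b i| ^ 4 := by
      rw [show |cw b i| ^ 4 = (|cw b i| ^ 2) ^ 2 by ring, sq_abs]; ring
    have e5 : b i ^ 4 = |b i| ^ 4 := by
      rw [show |b i| ^ 4 = (|b i| ^ 2) ^ 2 by ring, sq_abs]; ring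
    rcases le_total (Real.sqrt κ) (2 * |b i|) with hc | hc
    · rw [max_eq_left hc] at h2
      have h3 : |cw b i| ^ 4 ≤ (20 * (2 * |b i|)) ^ 4 := pow_le_pow_left₀ (abs_nonneg _) h2 4
      have h4 : (20 * (2 * |b i|)) ^ 4 = 2560000 * |b i| ^ 4 := by ring
      rw [e4, e5, ← h4]
      have : 0 ≤ 400 * κ * cw b i ^ 2 := by positivity
      linarith
    · rw [max_eq_right hc] at h2
      have h3 : cw b i ^ 2 ≤ 400 * κ := by
        rw [← sq_abs]
        calc |cw b i| ^ 2 ≤ (20 * Real.sqrt κ) ^ 2 := pow_le_pow_left₀ (abs_nonneg _) h2 2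
          _ = 400 * κ := by rw [mul_pow, Real.sq_sqrt hκ0.le]; norm_num
      have h4 : cw b i ^ 4 = cw b i ^ 2 * cw b i ^ 2 := by ring
      rw [h4]
      have h5 : cw b i ^ 2 * cw b i ^ 2 ≤ 400 * κ * cw b i ^ 2 :=
        mul_le_mul_of_nonneg_right h3 (sq_nonneg _)
      have : 0 ≤ 2560000 * b i ^ 4 := by positivity
      linarith
  have hs4 : ∑ i, cw b i ^ 4 ≤ 2600000 * κ := by
    calc ∑ i, cw b i ^ 4 ≤ ∑ i, (2560000 * b i ^ 4 + 400 * κ * cw b i ^ 2) :=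
          Finset.sum_le_sum fun i _ => hp4 i
      _ = 2560000 * κ + 400 * κ * W := by
          rw [Finset.sum_add_distrib, ← Finset.mul_sum, ← Finset.mul_sum]
          rfl
      _ ≤ 2600000 * κ := by nlinarith
  -- the unit vector `q`
  set S := Real.sqrt W with hS
  have hS2 : S ^ 2 = W := Real.sq_sqrt (by linarith)
  have hS78 : 0.78 ≤ S := by
    apply Real.le_sqrt_of_sq_le
    norm_num
    linarith
  have hS0 : 0 < S := by linarith
  set q : Fin n → ℝ := fun i => cw b i / S with hq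
  have hq1 : ∑ i, q i ^ 2 = 1 := by
    simp only [hq, div_pow]
    rw [← Finset.sum_div, hS2, ← hW]
    exact div_self (by linarith)
  have hqd : ∀ i, |q i| ≤ 1 / 10 ^ 8 := by
    intro i
    have h2 := abs_cw_le hR (hδ.trans (by norm_num)) i
    have h3 : max (2 * |b i|) (Real.sqrt (kap b)) ≤ 2 * δ :=
      max_le (by linarith [hR.le i]) (by linarith [hR.sqrt_kap_le])
    simp only [hq]
    rw [abs_div, abs_of_pos hS0, div_le_iff₀ hS0]
    calc |cw b i| ≤ 20 * (2 * δ) := h2.trans (by linarith)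
      _ ≤ 20 * (2 * (1 / 10 ^ 10)) := by linarith
      _ ≤ 1 / 10 ^ 8 * 0.78 := by norm_num
      _ ≤ 1 / 10 ^ 8 * S := by linarith
  obtain ⟨δ', hR', hδ'⟩ := reg_of_unit hq1 hqd
  have hkq : kap q ≤ 7000000 * κ := by
    have e6 : kap q = (∑ i, cw b i ^ 4) / W ^ 2 := by
      unfold kap
      simp only [hq, div_pow]
      rw [← Finset.sum_div]
      congr 1
      rw [← hS2]
      ring
    rw [e6, div_le_iff₀ (by positivity)]
    have : 0.38 ≤ W ^ 2 := by nlinarith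
    nlinarith
  have hDq := abs_le.1 (DD_near hR' hδ')
  rw [← hρ] at hDq
  have hSq : S ≤ DD q := by
    have h2 := f6_pair_le b q
    have e7 : ∑ i, q i * cw b i = S := by
      have : ∀ i, q i * cw b i = cw b i ^ 2 / S := fun i => by simp only [hq]; ring
      rw [Finset.sum_congr rfl fun i _ => this i, ← Finset.sum_div, ← hW, ← hS2]
      field_simp
    rwa [e7] at h2
  have hSle : S ≤ ρ + 49000000 * κ := by linarith [hDq.2]
  have hWle : W ≤ ρ ^ 2 + 80000000 * κ := by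
    rw [← hS2]
    have h2 : S ^ 2 ≤ (ρ + 49000000 * κ) ^ 2 := pow_le_pow_left₀ hS0.le hSle 2
    have h3 : (49000000 * κ) ^ 2 ≤ κ := by
      have : (49000000 : ℝ) ^ 2 * κ ≤ 1 := by
        calc (49000000 : ℝ) ^ 2 * κ ≤ 49000000 ^ 2 * (1 / 10 ^ 20) := by linarith
          _ ≤ 1 := by norm_num
      have h5 : (49000000 * κ) ^ 2 = (49000000 : ℝ) ^ 2 * κ * κ := by ring
      rw [h5]
      calc (49000000 : ℝ) ^ 2 * κ * κ ≤ 1 * κ := mul_le_mul_of_nonneg_right this hκ0.le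
        _ = κ := one_mul _
    have h6 : (ρ + 49000000 * κ) ^ 2 = ρ ^ 2 + 98000000 * (ρ * κ) + (49000000 * κ) ^ 2 := by ring
    have h7 : ρ * κ ≤ 0.8 * κ := mul_le_mul_of_nonneg_right hρ8 hκ0.le
    linarith
  have hDge : ρ ^ 2 - 12 * κ ≤ D ^ 2 := by
    have h2 : 0 ≤ ρ - 7 * κ := by linarith
    have h3 : (ρ - 7 * κ) ^ 2 ≤ D ^ 2 := pow_le_pow_left₀ h2 (by linarith [hDn.1]) 2
    have h6 : (ρ - 7 * κ) ^ 2 = ρ ^ 2 - 14 * (ρ * κ) + (7 * κ) ^ 2 := by ring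
    have h7 : ρ * κ ≤ 0.8 * κ := mul_le_mul_of_nonneg_right hρ8 hκ0.le
    have h8 : 0 ≤ (7 * κ) ^ 2 := sq_nonneg _
    linarith
  rw [hexp]
  norm_num
  linarith

end Pool.Agent.MP_cb3c9c_an.REG
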