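import Pool.Agent.MP_cb3c9c_an.REG.ODE

set_option autoImplicit false

open Finset MeasureTheory
open scoped BigOperators

namespace Pool.Agent.MP_cb3c9c_an.REG

open Pool.Agent.MP_cb3c9c_an.TwoBlock

variable {n : ℕ}

lemma f7_sin_aux {y : ℝ} (hy : 0 ≤ y) : |Real.sin y - y * Real.cos y| ≤ y ^ 3 := by
  rcases hy.eq_or_lt with rfl | hy
  · simp
  have h1 := Real.sin_gt_sub_cube hy
  have h2 : 1 - y ^ 2 / 2 ≤ Real.cos y := Real.one_sub_sq_div_two_le_cos
  have h3 := Real.sin_le hy.le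
  have h4 := Real.cos_le_one y
  have h5 : 0 ≤ y ^ 3 := by positivity
  rw [abs_le]
  constructor
  · nlinarith
  · nlinarith

lemma f7_sin {y : ℝ} : |Real.sin y - y * Real.cos y| ≤ |y| ^ 3 := by
  rcases le_total 0 y with hy | hy
  · rw [abs_of_nonneg hy]
    exact f7_sin_aux hy
  · have h := f7_sin_aux (y := -y) (by linarith)
    rw [Real.sin_neg, Real.cos_neg] at h
    rw [abs_of_nonpos hy]
    have h2 : Real.sin y - y * Real.cos y = -(-Real.sin y - -y * Real.cos y) := by ring
    rw [h2, abs_neg]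
    exact h

lemma f7_deriv (a b : Fin n → ℝ) (t : ℝ) :
    HasDerivAt (fun t => ∏ i, Real.cos (b i + a i * t))
      (∑ i, (∏ j ∈ univ.erase i, Real.cos (b j + a j * t)) *
        (-Real.sin (b i + a i * t) * a i)) t := by
  have h := HasDerivAt.fun_finsetProd (u := (univ : Finset (Fin n)))
    (f := fun i t => Real.cos (b i + a i * t))
    (f' := fun i => -Real.sin (b i + a i * t) * a i) (x := t) (fun i _ => by
      have h1 : HasDerivAt (fun t => b i + a i * t) (a i) t := by
        simpa using ((hasDerivAt_id t).const_mul (a i)).const_add (b i)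
      exact h1.cos)
  simpa only [smul_eq_mul] using h

lemma f7_prod_le (S : Finset (Fin n)) (y : Fin n → ℝ) : |∏ i ∈ S, Real.cos (y i)| ≤ 1 := by
  rw [Finset.abs_prod]
  exact Finset.prod_le_one (fun i _ => abs_nonneg _) fun i _ => Real.abs_cos_le_one _

lemma f7_pos {a b : Fin n → ℝ} {δ B : ℝ} (h1 : ∑ i, a i ^ 2 = 1) (hδ : ∀ i, |a i| ≤ δ)
    (hab : ∑ i, a i * b i = 0) (hB0 : 0 ≤ B) (hB : ∑ i, b i ^ 2 ≤ B ^ 2) {u : ℝ} (hu : 0 ≤ u) :
    |∏ i, Real.cos (b i + a i * u) - Real.exp (-u ^ 2 / 2) * ∏ i, Real.cos (b i)| ≤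
      δ * u * (B + u) ^ 3 := by
  have hbound : ∀ t ∈ Set.Icc 0 u,
      |(∑ i, (∏ j ∈ univ.erase i, Real.cos (b j + a j * t)) *
        (-Real.sin (b i + a i * t) * a i)) + 1 * t * ∏ i, Real.cos (b i + a i * t)| ≤
          δ * (B + u) ^ 3 := by
    rintro t ⟨ht0, htu⟩
    set y : Fin n → ℝ := fun i => b i + a i * t with hy
    have hsum : ∑ i, a i * y i = t := by
      have : ∀ i, a i * y i = a i * b i + a i ^ 2 * t := fun i => by simp only [hy]; ring
      rw [Finset.sum_congr rfl fun i _ => this i, Finset.sum_add_distrib, hab, ← Finset.sum_mul,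
        h1]
      ring
    have hsq : ∑ i, y i ^ 2 ≤ (B + t) ^ 2 := by
      have : ∀ i, y i ^ 2 = b i ^ 2 + 2 * t * (a i * b i) + t ^ 2 * a i ^ 2 := fun i => by
        simp only [hy]; ring
      rw [Finset.sum_congr rfl fun i _ => this i, Finset.sum_add_distrib, Finset.sum_add_distrib,
        ← Finset.mul_sum, ← Finset.mul_sum, hab, h1]
      nlinarith [mul_nonneg hB0 ht0]
    have hyi : ∀ i, |y i| ≤ B + t := by
      intro i
      have h2 : y i ^ 2 ≤ ∑ j, y j ^ 2 :=
        Finset.single_le_sum (f := fun j => y j ^ 2) (fun j _ => sq_nonneg _) (Finset.mem_univ i)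
      exact abs_le_of_sq_le_sq (h2.trans hsq) (by linarith)
    have hkey : (∑ i, (∏ j ∈ univ.erase i, Real.cos (b j + a j * t)) *
        (-Real.sin (b i + a i * t) * a i)) + 1 * t * ∏ i, Real.cos (b i + a i * t) =
        ∑ i, -(a i * (Real.sin (y i) - y i * Real.cos (y i)) *
          ∏ j ∈ univ.erase i, Real.cos (y j)) := by
      have e0 : 1 * t * ∏ i, Real.cos (b i + a i * t) =
          ∑ i, a i * y i * ∏ i, Real.cos (b i + a i * t) := by
        rw [one_mul, ← Finset.sum_mul, hsum]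
      rw [e0, ← Finset.sum_add_distrib]
      refine Finset.sum_congr rfl fun i _ => ?_
      have h2 : ∏ i, Real.cos (b i + a i * t) =
          Real.cos (y i) * ∏ j ∈ univ.erase i, Real.cos (y j) :=
        (Finset.mul_prod_erase univ (fun j => Real.cos (y j)) (Finset.mem_univ i)).symm
      rw [h2]
      ring
    rw [hkey]
    calc |∑ i, -(a i * (Real.sin (y i) - y i * Real.cos (y i)) *
          ∏ j ∈ univ.erase i, Real.cos (y j))|
        ≤ ∑ i, |-(a i * (Real.sin (y i) - y i * Real.cos (y i)) *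
          ∏ j ∈ univ.erase i, Real.cos (y j))| := Finset.abs_sum_le_sum_abs _ _
      _ ≤ ∑ i, δ * (B + t) * y i ^ 2 := by
          refine Finset.sum_le_sum fun i _ => ?_
          rw [abs_neg, abs_mul, abs_mul]
          have e1 := f7_prod_le (univ.erase i) y
          have e2 := f7_sin (y := y i)
          have e3 : |y i| ^ 3 ≤ (B + t) * y i ^ 2 := by
            rw [pow_succ, sq_abs, mul_comm]
            exact mul_le_mul_of_nonneg_right (hyi i) (sq_nonneg _)
          calc |a i| * |Real.sin (y i) - y i * Real.cos (y i)| *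
                |∏ j ∈ univ.erase i, Real.cos (y j)|
              ≤ |a i| * |Real.sin (y i) - y i * Real.cos (y i)| * 1 :=
                mul_le_mul_of_nonneg_left e1 (by positivity)
            _ = |a i| * |Real.sin (y i) - y i * Real.cos (y i)| := mul_one _
            _ ≤ δ * ((B + t) * y i ^ 2) :=
                mul_le_mul (hδ i) (e2.trans e3) (abs_nonneg _) ((abs_nonneg _).trans (hδ i))
            _ = δ * (B + t) * y i ^ 2 := by ring
      _ = δ * (B + t) * ∑ i, y i ^ 2 := by rw [Finset.mul_sum]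
      _ ≤ δ * (B + u) ^ 3 := by
          have hδ0 : 0 ≤ δ := by
            by_contra hneg
            push Not at hneg
            have : n ≠ 0 := by
              rintro rfl
              simp at h1
            exact absurd ((abs_nonneg _).trans (hδ ⟨0, Nat.pos_of_ne_zero this⟩)) (by linarith)
          calc δ * (B + t) * ∑ i, y i ^ 2 ≤ δ * (B + t) * (B + t) ^ 2 :=
                mul_le_mul_of_nonneg_left hsq (mul_nonneg hδ0 (by linarith))
            _ = δ * (B + t) ^ 3 := by ring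
            _ ≤ δ * (B + u) ^ 3 := by
                apply mul_le_mul_of_nonneg_left _ hδ0
                exact pow_le_pow_left₀ (by linarith) (by linarith) 3
  have h := ode_gauss (Θ := fun t => ∏ i, Real.cos (b i + a i * t)) (v := 1)
    (E := δ * (B + u) ^ 3) (Z := u) zero_le_one hu (fun t _ => f7_deriv a b t) hbound
  have e1 : (-1 : ℝ) * u ^ 2 / 2 = -u ^ 2 / 2 := by ring
  rw [e1] at h
  simp only [mul_zero, add_zero] at h
  calc _ ≤ u * (δ * (B + u) ^ 3) := h
    _ = _ := by ring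

/-- ROW REG-F7 (cluster lemma).

PROOF.  It suffices to treat `u ≥ 0` (replace `a` by `-a`).  `Φ(u) = ∏ cos y_i`, `y_i = b_i + a_i u`,
`Φ'(u) = - ∑ a_i sin (y_i) Q_i`, `Q_i = ∏_{j≠i} cos y_j`, `|Q_i| ≤ 1`, `Φ = cos (y_i) Q_i`.
`∑ a_i y_i = ∑ a_i b_i + u = u`.  So `Φ' + u Φ = - ∑ a_i (sin y_i - y_i cos y_i) Q_i`, and
`|sin y - y cos y| ≤ |y|³/3`.  `|y_i| ≤ B + |u|` (as `|b_i| ≤ B`, `|a_i| ≤ 1`), `∑ y_i² = ∑ b_i² + u² ≤ (B+|u|)²`, so
`|Φ' + uΦ| ≤ (δ/3) (B+|u|)³`.  Apply `ode_gauss` (ODE) with `v = 1`, `E = δ (B+u)³`. -/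
theorem cluster_ode {a b : Fin n → ℝ} {δ B : ℝ} (h1 : ∑ i, a i ^ 2 = 1) (hδ : ∀ i, |a i| ≤ δ)
    (hab : ∑ i, a i * b i = 0) (hB0 : 0 ≤ B) (hB : ∑ i, b i ^ 2 ≤ B ^ 2) (u : ℝ) :
    |∏ i, Real.cos (b i + a i * u) - Real.exp (-u ^ 2 / 2) * ∏ i, Real.cos (b i)| ≤
      δ * |u| * (B + |u|) ^ 3 := by
  rcases le_total 0 u with hu | hu
  · rw [abs_of_nonneg hu]
    exact f7_pos h1 hδ hab hB0 hB hu
  · have h := f7_pos (a := fun i => -a i) (b := b) (δ := δ) (B := B) (u := -u)
      (by simpa using h1) (fun i => by rw [abs_neg]; exact hδ i)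
      (by
        have : ∀ i, -a i * b i = -(a i * b i) := fun i => by ring
        rw [Finset.sum_congr rfl fun i _ => this i, Finset.sum_neg_distrib, hab, neg_zero])
      hB0 hB (by linarith)
    simp only [neg_mul_neg, neg_sq] at h
    rw [abs_of_nonpos hu]
    exact h

end Pool.Agent.MP_cb3c9c_an.REG
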