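import Pool.Agent.MP_cb3c9c_an.REG.F7
import Pool.Agent.MP_cb3c9c_an.REG.A3

set_option autoImplicit false

open Finset MeasureTheory
open scoped BigOperators

namespace Pool.Agent.MP_cb3c9c_an.REG

open Pool.Agent.MP_cb3c9c_an.TwoBlock

variable {n : ℕ}

lemma f8_PP (a : Fin n → ℝ) (T : ℝ) (k : Fin n → ℤ) (j : ℕ) (u : ℝ) :
    PP a (j * T + u) = (∏ i, (-1 : ℝ) ^ ((j : ℤ) * k i)) *
      ∏ i, Real.cos (j * (a i * T - Real.pi * k i) + a i * u) := by
  unfold PP
  rw [← Finset.prod_mul_distrib]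
  refine Finset.prod_congr rfl fun i _ => ?_
  have h1 : a i * (j * T + u) =
      (j * (a i * T - Real.pi * k i) + a i * u) + (((j : ℤ) * k i : ℤ) : ℝ) * Real.pi := by
    push_cast
    ring
  rw [h1, Real.cos_add_int_mul_pi]

lemma f8_sign (k : Fin n → ℤ) (j : ℕ) : |∏ i, (-1 : ℝ) ^ ((j : ℤ) * k i)| = 1 := by
  rw [Finset.abs_prod]
  apply Finset.prod_eq_one
  intro i _
  rw [abs_zpow, abs_neg, abs_one, one_zpow]

/-- ROW REG-F8 (two statements).  `P` near the multiples `j T` of an almost period.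

PROOF.  `b_i = a_i T - π k_i`; `a_i (jT + u) = j π k_i + (j b_i + a_i u)`, `cos (j k_i π + y) = (-1)^{j k_i} cos y`.  So
`PP a (jT + u) = ε ∏ cos (j b_i + a_i u)` and `PP a (jT) = ε ∏ cos (j b_i)` with the same `ε = ±1`.
Apply `cluster_ode` with `b := j b`, `B := j B`. -/
theorem cluster_PP {a : Fin n → ℝ} {δ B T : ℝ} {k : Fin n → ℤ} (h1 : ∑ i, a i ^ 2 = 1)
    (hδ : ∀ i, |a i| ≤ δ) (hk : ∑ i, a i * (a i * T - Real.pi * k i) = 0) (hB0 : 0 ≤ B)
    (hB : ∑ i, (a i * T - Real.pi * k i) ^ 2 ≤ B ^ 2) (j : ℕ) (u : ℝ) :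
    |PP a (j * T + u) - Real.exp (-u ^ 2 / 2) * PP a (j * T)| ≤
      δ * |u| * (j * B + |u|) ^ 3 := by
  have e1 := f8_PP a T k j u
  have e2 := f8_PP a T k j 0
  simp only [mul_zero, add_zero] at e2
  have h := cluster_ode (a := a) (b := fun i => j * (a i * T - Real.pi * k i)) (δ := δ)
    (B := j * B) h1 hδ
    (by
      have : ∀ i, a i * (j * (a i * T - Real.pi * k i)) =
          j * (a i * (a i * T - Real.pi * k i)) := fun i => by ring
      rw [Finset.sum_congr rfl fun i _ => this i, ← Finset.mul_sum, hk, mul_zero])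
    (by positivity)
    (by
      have : ∀ i, (j * (a i * T - Real.pi * k i)) ^ 2 =
          (j : ℝ) ^ 2 * (a i * T - Real.pi * k i) ^ 2 := fun i => by ring
      rw [Finset.sum_congr rfl fun i _ => this i, ← Finset.mul_sum, mul_pow]
      exact mul_le_mul_of_nonneg_left hB (by positivity)) u
  rw [e1, e2]
  set ε := ∏ i, (-1 : ℝ) ^ ((j : ℤ) * k i) with hε
  have h3 : ε * ∏ i, Real.cos (j * (a i * T - Real.pi * k i) + a i * u) -
      Real.exp (-u ^ 2 / 2) * (ε * ∏ i, Real.cos (j * (a i * T - Real.pi * k i))) =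
      ε * (∏ i, Real.cos (j * (a i * T - Real.pi * k i) + a i * u) -
      Real.exp (-u ^ 2 / 2) * ∏ i, Real.cos (j * (a i * T - Real.pi * k i))) := by ring
  rw [h3, abs_mul, hε, f8_sign, one_mul]
  exact h

lemma f8_even {f : ℝ → ℝ} (hf : Continuous f) (he : ∀ x, f (-x) = f x) (R : ℝ) :
    ∫ u in (-R)..R, f u = 2 * ∫ u in (0 : ℝ)..R, f u := by
  have h1 : ∫ u in (-R)..0, f u = ∫ u in (0 : ℝ)..R, f u := by
    have h2 := intervalIntegral.integral_comp_neg (a := 0) (b := R) f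
    rw [neg_zero] at h2
    rw [← h2]
    exact intervalIntegral.integral_congr fun x _ => he x
  rw [← intervalIntegral.integral_add_adjacent_intervals (hf.intervalIntegrable _ _)
    (hf.intervalIntegrable 0 R), h1]
  ring

lemma f8_deriv (x : ℝ) :
    HasDerivAt (fun x : ℝ => -Real.exp (-x ^ 2 / 2)) (x * Real.exp (-x ^ 2 / 2)) x := by
  have h1 : HasDerivAt (fun x : ℝ => -x ^ 2 / 2) (-x) x :=
    (((hasDerivAt_pow 2 x).fun_neg).div_const 2).congr_deriv (by push_cast; ring)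
  exact h1.exp.fun_neg.congr_deriv (by ring)

lemma f8_int1 {R : ℝ} (hR : 0 ≤ R) :
    ∫ u in (-R)..R, |u| * Real.exp (-u ^ 2 / 2) ≤ 2 := by
  rw [f8_even (by fun_prop) (by intro x; rw [abs_neg, neg_sq]) R]
  have h1 : ∫ u in (0 : ℝ)..R, |u| * Real.exp (-u ^ 2 / 2) =
      ∫ u in (0 : ℝ)..R, u * Real.exp (-u ^ 2 / 2) := by
    apply intervalIntegral.integral_congr
    intro x hx
    rw [Set.uIcc_of_le hR] at hx
    simp only [abs_of_nonneg hx.1]
  rw [h1, intervalIntegral.integral_eq_sub_of_hasDerivAt (fun x _ => f8_deriv x)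
    (Continuous.intervalIntegrable (by fun_prop) _ _)]
  have h2 := Real.exp_pos (-R ^ 2 / 2)
  norm_num
  linarith

lemma f8_tendsto : Filter.Tendsto (fun x : ℝ => -Real.exp (-x ^ 2 / 2)) Filter.atTop (nhds 0) := by
  rw [← neg_zero]
  apply Filter.Tendsto.neg
  apply Real.tendsto_exp_atBot.comp
  have h1 : Filter.Tendsto (fun x : ℝ => x ^ 2 / 2) Filter.atTop Filter.atTop :=
    (Filter.tendsto_pow_atTop two_ne_zero).atTop_div_const two_pos
  refine (Filter.tendsto_neg_atTop_atBot.comp h1).congr fun x => ?_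
  simp only [Function.comp]
  ring

lemma f8_tail {R : ℝ} (hR : 1 ≤ R) :
    ∫ u in Set.Ioi R, Real.exp (-u ^ 2 / 2) ≤ Real.exp (-R ^ 2 / 2) := by
  have hpos : ∀ x ∈ Set.Ioi R, 0 ≤ x * Real.exp (-x ^ 2 / 2) := fun x hx =>
    mul_nonneg (by linarith [Set.mem_Ioi.1 hx]) (Real.exp_pos _).le
  have h1 := integral_Ioi_of_hasDerivAt_of_nonneg' (a := R) (fun x _ => f8_deriv x) hpos
    f8_tendsto
  have h2 := integrableOn_Ioi_deriv_of_nonneg' (a := R) (fun x _ => f8_deriv x) hpos f8_tendsto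
  calc ∫ u in Set.Ioi R, Real.exp (-u ^ 2 / 2) ≤ ∫ u in Set.Ioi R, u * Real.exp (-u ^ 2 / 2) := by
        apply setIntegral_mono_on (integral_gauss0.1.mono_set
          (Set.Ioi_subset_Ioi (by linarith))) h2 measurableSet_Ioi
        intro x hx
        have h3 := Real.exp_pos (-x ^ 2 / 2)
        have h4 : R < x := hx
        nlinarith
    _ = Real.exp (-R ^ 2 / 2) := by rw [h1]; ring

lemma f8_int0 {R : ℝ} (hR : 1 ≤ R) :
    |(∫ u in (-R)..R, Real.exp (-u ^ 2 / 2)) - Real.sqrt (2 * Real.pi)| ≤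
      2 * Real.exp (-R ^ 2 / 2) := by
  rw [f8_even (by fun_prop) (by intro x; rw [neg_sq]) R]
  have hR0 : 0 ≤ R := by linarith
  have h1 : (∫ u in (0 : ℝ)..R, Real.exp (-u ^ 2 / 2)) +
      ∫ u in Set.Ioi R, Real.exp (-u ^ 2 / 2) = Real.sqrt (Real.pi / 2) := by
    rw [← integral_gauss0.2]
    exact intervalIntegral.integral_interval_add_Ioi integral_gauss0.1
      (integral_gauss0.1.mono_set (Set.Ioi_subset_Ioi hR0))
  have h2 : Real.sqrt (2 * Real.pi) = 2 * Real.sqrt (Real.pi / 2) := by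
    rw [show 2 * Real.pi = 2 ^ 2 * (Real.pi / 2) by ring, Real.sqrt_mul (by positivity),
      Real.sqrt_sq (by norm_num)]
  have h3 := f8_tail hR
  have h4 : 0 ≤ ∫ u in Set.Ioi R, Real.exp (-u ^ 2 / 2) :=
    integral_nonneg fun x => (Real.exp_pos _).le
  rw [h2, ← h1, abs_le]
  constructor <;> linarith

lemma f8_PP_cont (a : Fin n → ℝ) : Continuous (PP a) := by
  unfold PP
  exact continuous_finsetProd _ fun i _ => by fun_prop

lemma f8_PP_le (a : Fin n → ℝ) (t : ℝ) : |PP a t| ≤ 1 := f7_prod_le univ fun i => a i * t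

/-- PROOF.  `s = jT ≥ 2R ≥ 2`.  Substitute `t = s + u`, `|u| ≤ R`.  Then
(i) `|∫ (P(s+u) - e^{-u²/2} P(s))/(s+u)² du| ≤ 2R · δ R (jB+R)³ · 4/s²`;
(ii) `|1/(s+u)² - 1/s²| = |u| |2s+u|/(s² (s+u)²) ≤ |u| (5/2) s · 4/s⁴ = 10 |u|/s³`, and `∫_ℝ |u| e^{-u²/2} = 2`: total
`≤ 20/s³`;
(iii) `(1/s²) |∫_{|u| ≤ R} e^{-u²/2} - √(2π)| ≤ (1/s²) (2/R) e^{-R²/2} ≤ 2 e^{-R²/2}/s²`.  (`|P| ≤ 1`.) -/
theorem cluster_integral {a : Fin n → ℝ} {δ B T R : ℝ} {k : Fin n → ℤ} (h1 : ∑ i, a i ^ 2 = 1)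
    (hδ : ∀ i, |a i| ≤ δ) (hk : ∑ i, a i * (a i * T - Real.pi * k i) = 0) (hB0 : 0 ≤ B)
    (hB : ∑ i, (a i * T - Real.pi * k i) ^ 2 ≤ B ^ 2) {j : ℕ} (hR : 1 ≤ R)
    (hRT : 2 * R ≤ j * T) :
    |(∫ t in Set.Icc (j * T - R) (j * T + R), PP a t / t ^ 2) -
        Real.sqrt (2 * Real.pi) * PP a (j * T) / (j * T) ^ 2| ≤
      (1 / (j * T) ^ 2) * (8 * R ^ 2 * (j * B + R) ^ 3 * δ + 24 / (j * T) +
        4 * Real.exp (-R ^ 2 / 2)) := by
  set s : ℝ := j * T with hs
  have hR0 : 0 ≤ R := by linarith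
  have hs0 : 0 < s := by linarith
  have hδ0 : 0 ≤ δ := by
    by_contra hneg
    push Not at hneg
    have : n ≠ 0 := by
      rintro rfl
      simp at h1
    exact absurd ((abs_nonneg _).trans (hδ ⟨0, Nat.pos_of_ne_zero this⟩)) (by linarith)
  set M : ℝ := δ * R * (j * B + R) ^ 3 with hM
  have hle : s - R ≤ s + R := by linarith
  -- pointwise bound
  have hpt : ∀ t ∈ Set.Icc (s - R) (s + R),
      |PP a t / t ^ 2 - Real.exp (-(t - s) ^ 2 / 2) * (PP a s / s ^ 2)| ≤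
        4 / s ^ 2 * M + 10 / s ^ 3 * (|t - s| * Real.exp (-(t - s) ^ 2 / 2)) := by
    rintro t ⟨ht1, ht2⟩
    have htpos : 0 < t := by linarith
    have hts : s / 2 ≤ t := by linarith
    have hu : |t - s| ≤ R := by rw [abs_le]; constructor <;> linarith
    have hP := cluster_PP h1 hδ hk hB0 hB j (t - s)
    rw [← hs, add_sub_cancel] at hP
    have hPM : |PP a t - Real.exp (-(t - s) ^ 2 / 2) * PP a s| ≤ M := by
      refine hP.trans ?_
      rw [hM]
      have h3 : (j * B + |t - s|) ^ 3 ≤ (j * B + R) ^ 3 :=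
        pow_le_pow_left₀ (by positivity) (by linarith) 3
      have h4 : δ * |t - s| ≤ δ * R := mul_le_mul_of_nonneg_left hu hδ0
      exact mul_le_mul h4 h3 (by positivity) (by positivity)
    have hE := Real.exp_pos (-(t - s) ^ 2 / 2)
    have ht2' : s ^ 2 / 4 ≤ t ^ 2 := by nlinarith
    have hinv : 1 / t ^ 2 ≤ 4 / s ^ 2 := by
      rw [div_le_div_iff₀ (by positivity) (by positivity)]
      linarith
    have hdiff : |1 / t ^ 2 - 1 / s ^ 2| ≤ 10 / s ^ 3 * |t - s| := by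
      have e1 : 1 / t ^ 2 - 1 / s ^ 2 = -((t - s) * (t + s)) * (1 / t ^ 2) / s ^ 2 := by
        field_simp
        ring
      rw [e1, abs_div, abs_mul, abs_neg, abs_mul, abs_of_pos (show 0 < t + s by linarith),
        abs_of_pos (show 0 < 1 / t ^ 2 by positivity), abs_of_pos (show 0 < s ^ 2 by positivity)]
      calc |t - s| * (t + s) * (1 / t ^ 2) / s ^ 2
          ≤ |t - s| * (5 / 2 * s) * (4 / s ^ 2) / s ^ 2 := by
            apply div_le_div_of_nonneg_right _ (by positivity)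
            apply mul_le_mul _ hinv (by positivity) (by positivity)
            apply mul_le_mul_of_nonneg_left _ (abs_nonneg _)
            linarith
        _ = 10 / s ^ 3 * |t - s| := by
            field_simp
            ring
    have e2 : PP a t / t ^ 2 - Real.exp (-(t - s) ^ 2 / 2) * (PP a s / s ^ 2) =
        (1 / t ^ 2) * (PP a t - Real.exp (-(t - s) ^ 2 / 2) * PP a s) +
          Real.exp (-(t - s) ^ 2 / 2) * PP a s * (1 / t ^ 2 - 1 / s ^ 2) := by ring
    rw [e2]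
    refine (abs_add_le _ _).trans (add_le_add ?_ ?_)
    · rw [abs_mul, abs_of_pos (show 0 < 1 / t ^ 2 by positivity)]
      exact mul_le_mul hinv hPM (abs_nonneg _) (by positivity)
    · rw [abs_mul, abs_mul, abs_of_pos hE]
      calc Real.exp (-(t - s) ^ 2 / 2) * |PP a s| * |1 / t ^ 2 - 1 / s ^ 2|
          ≤ Real.exp (-(t - s) ^ 2 / 2) * 1 * (10 / s ^ 3 * |t - s|) := by
            apply mul_le_mul _ hdiff (abs_nonneg _) (by positivity)
            exact mul_le_mul_of_nonneg_left (f8_PP_le a s) hE.le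
        _ = 10 / s ^ 3 * (|t - s| * Real.exp (-(t - s) ^ 2 / 2)) := by ring
  -- integrability
  have hcg : ContinuousOn (fun t => PP a t / t ^ 2) (Set.uIcc (s - R) (s + R)) := by
    rw [Set.uIcc_of_le hle]
    apply ContinuousOn.div (f8_PP_cont a).continuousOn (by fun_prop)
    intro t ht
    have : 0 < t := by linarith [ht.1]
    positivity
  have hig : IntervalIntegrable (fun t => PP a t / t ^ 2) volume (s - R) (s + R) :=
    hcg.intervalIntegrable
  have hih : IntervalIntegrable (fun t => Real.exp (-(t - s) ^ 2 / 2) * (PP a s / s ^ 2)) volume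
      (s - R) (s + R) := Continuous.intervalIntegrable (by fun_prop) _ _
  have hshift : ∀ f : ℝ → ℝ, ∫ t in (s - R)..(s + R), f (t - s) = ∫ u in (-R)..R, f u := by
    intro f
    rw [intervalIntegral.integral_comp_sub_right]
    congr 1 <;> ring
  have hI0 : ∫ t in (s - R)..(s + R), Real.exp (-(t - s) ^ 2 / 2) * (PP a s / s ^ 2) =
      (∫ u in (-R)..R, Real.exp (-u ^ 2 / 2)) * (PP a s / s ^ 2) := by
    rw [intervalIntegral.integral_mul_const, hshift fun u => Real.exp (-u ^ 2 / 2)]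
  have hI1 : ∫ t in (s - R)..(s + R),
      (4 / s ^ 2 * M + 10 / s ^ 3 * (|t - s| * Real.exp (-(t - s) ^ 2 / 2))) =
      2 * R * (4 / s ^ 2 * M) +
        10 / s ^ 3 * ∫ u in (-R)..R, |u| * Real.exp (-u ^ 2 / 2) := by
    rw [intervalIntegral.integral_add (Continuous.intervalIntegrable (by fun_prop) _ _)
      (Continuous.intervalIntegrable (by fun_prop) _ _), intervalIntegral.integral_const,
      intervalIntegral.integral_const_mul, hshift fun u => |u| * Real.exp (-u ^ 2 / 2)]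
    rw [smul_eq_mul]
    ring
  have hmain : |(∫ t in (s - R)..(s + R), PP a t / t ^ 2) -
      ∫ t in (s - R)..(s + R), Real.exp (-(t - s) ^ 2 / 2) * (PP a s / s ^ 2)| ≤
      2 * R * (4 / s ^ 2 * M) + 10 / s ^ 3 * 2 := by
    rw [← intervalIntegral.integral_sub hig hih, ← Real.norm_eq_abs]
    refine (intervalIntegral.norm_integral_le_of_norm_le hle (g := fun t =>
      4 / s ^ 2 * M + 10 / s ^ 3 * (|t - s| * Real.exp (-(t - s) ^ 2 / 2))) ?_
      (Continuous.intervalIntegrable (by fun_prop) _ _)).trans ?_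
    · refine Filter.Eventually.of_forall fun t ht => ?_
      rw [Real.norm_eq_abs]
      exact hpt t ⟨ht.1.le, ht.2⟩
    · rw [hI1]
      have := f8_int1 hR0
      have h4 : 0 < 10 / s ^ 3 := by positivity
      nlinarith
  rw [hI0] at hmain
  have h0 := f8_int0 hR
  have hIcc : ∫ t in Set.Icc (s - R) (s + R), PP a t / t ^ 2 =
      ∫ t in (s - R)..(s + R), PP a t / t ^ 2 := by
    rw [integral_Icc_eq_integral_Ioc, intervalIntegral.integral_of_le hle]
  rw [hIcc]
  have h5 : |(∫ u in (-R)..R, Real.exp (-u ^ 2 / 2)) * (PP a s / s ^ 2) -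
      Real.sqrt (2 * Real.pi) * PP a s / s ^ 2| ≤ 2 * Real.exp (-R ^ 2 / 2) * (1 / s ^ 2) := by
    have e3 : (∫ u in (-R)..R, Real.exp (-u ^ 2 / 2)) * (PP a s / s ^ 2) -
        Real.sqrt (2 * Real.pi) * PP a s / s ^ 2 =
        ((∫ u in (-R)..R, Real.exp (-u ^ 2 / 2)) - Real.sqrt (2 * Real.pi)) *
          (PP a s * (1 / s ^ 2)) := by ring
    rw [e3, abs_mul, abs_mul, abs_of_pos (show 0 < 1 / s ^ 2 by positivity)]
    apply mul_le_mul h0 _ (by positivity) (by positivity)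
    calc |PP a s| * (1 / s ^ 2) ≤ 1 * (1 / s ^ 2) :=
          mul_le_mul_of_nonneg_right (f8_PP_le a s) (by positivity)
      _ = 1 / s ^ 2 := one_mul _
  have h6 := abs_sub_le (∫ t in (s - R)..(s + R), PP a t / t ^ 2)
    ((∫ u in (-R)..R, Real.exp (-u ^ 2 / 2)) * (PP a s / s ^ 2))
    (Real.sqrt (2 * Real.pi) * PP a s / s ^ 2)
  refine h6.trans ((add_le_add hmain h5).trans ?_)
  have e4 : (1 / s ^ 2) * (8 * R ^ 2 * (j * B + R) ^ 3 * δ + 24 / s +
      4 * Real.exp (-R ^ 2 / 2)) = 2 * R * (4 / s ^ 2 * M) + 24 * (1 / s ^ 3) +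
        4 * Real.exp (-R ^ 2 / 2) * (1 / s ^ 2) := by
    rw [hM]
    field_simp
    ring
  rw [e4]
  have h7 : 0 < 1 / s ^ 3 := by positivity
  have h8 : 0 < Real.exp (-R ^ 2 / 2) * (1 / s ^ 2) := by positivity
  have h9 : 10 / s ^ 3 * 2 = 20 * (1 / s ^ 3) := by ring
  rw [h9]
  nlinarith

end Pool.Agent.MP_cb3c9c_an.REG
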