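import Pool.Agent.MP_cb3c9c_an.REG.F4
import Pool.Agent.MP_cb3c9c_an.REG.F8

set_option autoImplicit false

open Finset MeasureTheory
open scoped BigOperators

namespace Pool.Agent.MP_cb3c9c_an.REG

open Pool.Agent.MP_cb3c9c_an.TwoBlock

variable {n : ℕ}

theorem f9_sqrt_pi : (2 / Real.pi) * Real.sqrt (Real.pi / 2) = Real.sqrt (2 / Real.pi) := by
  have hpi := Real.pi_pos
  calc (2 / Real.pi) * Real.sqrt (Real.pi / 2)
      = Real.sqrt ((2 / Real.pi) ^ 2) * Real.sqrt (Real.pi / 2) := by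
        rw [Real.sqrt_sq (by positivity)]
    _ = Real.sqrt ((2 / Real.pi) ^ 2 * (Real.pi / 2)) := (Real.sqrt_mul (by positivity) _).symm
    _ = Real.sqrt (2 / Real.pi) := by
        congr 1
        field_simp

theorem f9_sqrt_two_pi : (1 / Real.pi) * Real.sqrt (2 * Real.pi) = Real.sqrt (2 / Real.pi) := by
  have hpi := Real.pi_pos
  calc (1 / Real.pi) * Real.sqrt (2 * Real.pi)
      = Real.sqrt ((1 / Real.pi) ^ 2) * Real.sqrt (2 * Real.pi) := by
        rw [Real.sqrt_sq (by positivity)]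
    _ = Real.sqrt ((1 / Real.pi) ^ 2 * (2 * Real.pi)) := (Real.sqrt_mul (by positivity) _).symm
    _ = Real.sqrt (2 / Real.pi) := by
        congr 1
        field_simp

theorem f9_integrable (a : Fin n → ℝ) {T : ℝ} (hT : 0 < T) :
    IntegrableOn (fun t : ℝ => PP a t / t ^ 2) (Set.Ici T) := by
  have h1 := integrable_tail a hT
  apply MeasureTheory.Integrable.mono' h1
  · exact ((continuous_PP a).measurable.div (measurable_id.pow_const 2)).aestronglyMeasurable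
  · refine Filter.Eventually.of_forall fun t => ?_
    rw [Real.norm_eq_abs, abs_div, abs_of_nonneg (sq_nonneg t)]

/-- near part and far part -/
theorem f9_base {a : Fin n → ℝ} {δ : ℝ} (h : Reg a δ) (hδ : δ ≤ 1 / 10 ^ 8) :
    Real.sqrt (2 / Real.pi) * (1 + kap a / 12) -
      (2 / Real.pi) * (kap a * δ +
        ∫ t in Set.Ici (Real.pi / (2 * δ)), PP a t / t ^ 2) ≤ DD a := by
  have hpi := Real.pi_pos
  have hδ0 := h.pos
  have hT : 0 < Real.pi / (2 * δ) := by positivity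
  obtain ⟨hint, heq⟩ := DD_eq a
  have hnear := near_integral h (by norm_num at hδ ⊢; linarith)
  have hsub1 : Set.Ioc 0 (Real.pi / (2 * δ)) ⊆ Set.Ioi (0 : ℝ) := fun t ht => ht.1
  have hsub2 : Set.Ioi (Real.pi / (2 * δ)) ⊆ Set.Ioi (0 : ℝ) := fun t ht => hT.trans ht
  have hsplit : ∫ t in Set.Ioi (0 : ℝ), (Real.exp (-t ^ 2 / 2) - PP a t) / t ^ 2 =
      (∫ t in Set.Ioc 0 (Real.pi / (2 * δ)), (Real.exp (-t ^ 2 / 2) - PP a t) / t ^ 2) +
      ∫ t in Set.Ioi (Real.pi / (2 * δ)), (Real.exp (-t ^ 2 / 2) - PP a t) / t ^ 2 := by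
    rw [← Set.Ioc_union_Ioi_eq_Ioi hT.le]
    exact MeasureTheory.setIntegral_union (Set.Ioc_disjoint_Ioi le_rfl) measurableSet_Ioi
      (hint.mono_set hsub1) (hint.mono_set hsub2)
  have hI := f9_integrable a hT
  have hI' : IntegrableOn (fun t : ℝ => PP a t / t ^ 2) (Set.Ioi (Real.pi / (2 * δ))) :=
    hI.mono_set Set.Ioi_subset_Ici_self
  have hfar : -(∫ t in Set.Ioi (Real.pi / (2 * δ)), PP a t / t ^ 2) ≤
      ∫ t in Set.Ioi (Real.pi / (2 * δ)), (Real.exp (-t ^ 2 / 2) - PP a t) / t ^ 2 := by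
    rw [← MeasureTheory.integral_neg]
    apply MeasureTheory.setIntegral_mono hI'.neg (hint.mono_set hsub2)
    intro t
    show -(PP a t / t ^ 2) ≤ (Real.exp (-t ^ 2 / 2) - PP a t) / t ^ 2
    rw [sub_div]
    have : 0 ≤ Real.exp (-t ^ 2 / 2) / t ^ 2 := div_nonneg (Real.exp_pos _).le (sq_nonneg _)
    linarith
  rw [MeasureTheory.integral_Ici_eq_integral_Ioi, heq, hsplit]
  set F := ∫ t in Set.Ioi (Real.pi / (2 * δ)), PP a t / t ^ 2
  set I1 := ∫ t in Set.Ioc 0 (Real.pi / (2 * δ)), (Real.exp (-t ^ 2 / 2) - PP a t) / t ^ 2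
  set I2 := ∫ t in Set.Ioi (Real.pi / (2 * δ)), (Real.exp (-t ^ 2 / 2) - PP a t) / t ^ 2
  have h1 : (2 / Real.pi) * (kap a / 12 * Real.sqrt (Real.pi / 2) - kap a * δ - F) ≤
      (2 / Real.pi) * (I1 + I2) := by
    apply mul_le_mul_of_nonneg_left _ (by positivity)
    linarith
  have h2 : (2 / Real.pi) * (kap a / 12 * Real.sqrt (Real.pi / 2) - kap a * δ - F) =
      kap a / 12 * ((2 / Real.pi) * Real.sqrt (Real.pi / 2)) - (2 / Real.pi) * (kap a * δ + F) := by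
    ring
  rw [h2, f9_sqrt_pi] at h1
  linarith

theorem f9_small {a : Fin n → ℝ} {δ : ℝ} (h : Reg a δ) (hδ : δ ≤ 1 / 10 ^ 8) :
    0 < Real.sqrt (kap a) ∧ Real.sqrt (kap a) ^ 2 = kap a ∧ Real.sqrt (kap a) ≤ δ ∧
      kap a ≤ δ ∧ 0 < kap a ∧ kap a ≤ 1 := by
  have h1 := h.sqrt_kap_pos
  have h2 := h.sqrt_kap_le
  have h3 : Real.sqrt (kap a) ^ 2 = kap a := Real.sq_sqrt h.kap_pos.le
  have hδ0 := h.pos
  have hδ1 : δ ≤ 1 := by norm_num at hδ; linarith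
  have h4 : kap a ≤ δ := by
    rw [← h3]
    nlinarith
  exact ⟨h1, h3, h2, h4, h.kap_pos, h4.trans hδ1⟩

/-- the part away from the clusters -/
theorem f9_far {a : Fin n → ℝ} {δ L ν : ℝ} (h : Reg a δ) (hδ : δ ≤ 1 / 10 ^ 8) (hL : 10 ≤ L)
    (hν : 0 ≤ ν) {S : Set ℝ} (hS : MeasurableSet S)
    (hST : S ⊆ Set.Ici (Real.pi / (2 * δ)))
    (hSν : ∀ t ∈ S, t ≤ L / Real.sqrt (kap a) → ν ≤ NN a t) :
    ∫ t in S, PP a t / t ^ 2 ≤
      kap a * (8 * Real.exp (-ν ^ 2 / 2) + 3 * δ + 9 / L) := by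
  have hpi := Real.pi_pos
  have hδ0 := h.pos
  have hT : 0 < Real.pi / (2 * δ) := by positivity
  obtain ⟨hq0, hq2, hqδ, hκδ, hκ0, hκ1⟩ := f9_small h hδ
  have hL0 : 0 < L := by linarith
  have hLl : 0 < L / Real.sqrt (kap a) := by positivity
  have hint := integrable_tail a hT
  have hint2 := integrable_tail a hLl
  have hmeas : MeasurableSet {t : ℝ | ν ≤ NN a t} :=
    measurableSet_le measurable_const (continuous_NN a).measurable
  have hnn : ∀ t : ℝ, 0 ≤ |PP a t| / t ^ 2 := fun t => div_nonneg (abs_nonneg _) (sq_nonneg _)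
  have h1 : ∫ t in S, PP a t / t ^ 2 ≤ ∫ t in S, |PP a t| / t ^ 2 := by
    apply MeasureTheory.setIntegral_mono ((f9_integrable a hT).mono_set hST) (hint.mono_set hST)
    intro t
    exact div_le_div_of_nonneg_right (le_abs_self _) (sq_nonneg _)
  have h2 := MeasureTheory.integral_inter_add_sdiff (μ := volume) hmeas (hint.mono_set hST)
  have h3 : ∫ t in S ∩ {t : ℝ | ν ≤ NN a t}, |PP a t| / t ^ 2 ≤
      ∫ t in Set.Ici (Real.pi / (2 * δ)) ∩ {t : ℝ | ν ≤ NN a t}, |PP a t| / t ^ 2 := by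
    apply MeasureTheory.setIntegral_mono_set (hint.mono_set Set.inter_subset_left)
    · exact Filter.Eventually.of_forall hnn
    · exact HasSubset.Subset.eventuallyLE (Set.inter_subset_inter_left _ hST)
  have h4 : ∫ t in S \ {t : ℝ | ν ≤ NN a t}, |PP a t| / t ^ 2 ≤
      ∫ t in Set.Ici (L / Real.sqrt (kap a)) ∩ {t : ℝ | 0 ≤ NN a t}, |PP a t| / t ^ 2 := by
    apply MeasureTheory.setIntegral_mono_set (hint2.mono_set Set.inter_subset_left)
    · exact Filter.Eventually.of_forall hnn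
    · apply HasSubset.Subset.eventuallyLE
      rintro t ⟨ht, ht2⟩
      refine ⟨?_, NN_nonneg a t⟩
      by_contra hcon
      exact ht2 (hSν t ht (not_le.1 hcon).le)
  have h5 := far_bound h hδ hν
  have h6 := tail_bound h hδ (T := L / Real.sqrt (kap a)) (ν := 0)
    (div_le_div_of_nonneg_right (by linarith) hq0.le) le_rfl
  have h7 : (2 * Real.sqrt (kap a) / (L / Real.sqrt (kap a))) *
      (4 * Real.exp (-(0 : ℝ) ^ 2 / 2) + kap a * Real.sqrt (kap a)) ≤ kap a * (9 / L) := by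
    have e1 : 2 * Real.sqrt (kap a) / (L / Real.sqrt (kap a)) = 2 * kap a / L := by
      field_simp
      rw [hq2]
    have e2 : Real.exp (-(0 : ℝ) ^ 2 / 2) = 1 := by norm_num
    rw [e1, e2]
    have e3 : kap a * Real.sqrt (kap a) ≤ 1 / 2 := by
      have : δ ≤ 1 / 2 := by norm_num at hδ; linarith
      calc kap a * Real.sqrt (kap a) ≤ 1 * (1 / 2) :=
            mul_le_mul hκ1 (hqδ.trans this) hq0.le (by norm_num)
        _ = 1 / 2 := by norm_num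
    have e4 : 2 * kap a / L * (4 * 1 + kap a * Real.sqrt (kap a)) ≤ 2 * kap a / L * (9 / 2) := by
      apply mul_le_mul_of_nonneg_left _ (by positivity)
      linarith
    refine e4.trans (le_of_eq ?_)
    ring
  have h8 : kap a * (8 * Real.exp (-ν ^ 2 / 2) + 3 * kap a) ≤
      kap a * (8 * Real.exp (-ν ^ 2 / 2) + 3 * δ) := by
    apply mul_le_mul_of_nonneg_left _ hκ0.le
    linarith
  have h9 : kap a * (8 * Real.exp (-ν ^ 2 / 2) + 3 * δ + 9 / L) =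
      kap a * (8 * Real.exp (-ν ^ 2 / 2) + 3 * δ) + kap a * (9 / L) := by ring
  rw [h9]
  linarith

theorem f9_sum_sq (J : ℕ) : ∑ j ∈ Finset.range J, 1 / ((j : ℝ) + 1) ^ 2 ≤ 2 := by
  have key : ∀ m : ℕ, ∑ j ∈ Finset.range (m + 1), 1 / ((j : ℝ) + 1) ^ 2 ≤ 2 - 1 / ((m : ℝ) + 1) := by
    intro m
    induction m with
    | zero => norm_num
    | succ m ih =>
      rw [Finset.sum_range_succ]
      have h1 : 1 / (((m + 1 : ℕ) : ℝ) + 1) ^ 2 ≤ 1 / ((m : ℝ) + 1) -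
          1 / (((m + 1 : ℕ) : ℝ) + 1) := by
        push_cast
        have hm : (0 : ℝ) < (m : ℝ) + 1 := by positivity
        have hm2 : (0 : ℝ) < (m : ℝ) + 1 + 1 := by positivity
        rw [div_sub_div _ _ hm.ne' hm2.ne', div_le_div_iff₀ (by positivity) (by positivity)]
        nlinarith
      linarith
  cases J with
  | zero => simp
  | succ m =>
    have := key m
    have h2 : (0 : ℝ) < 1 / ((m : ℝ) + 1) := by positivity
    linarith

theorem f9_tail (J : ℕ) (hJ : 1 ≤ J) (n : ℕ) :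
    ∑ i ∈ Finset.range n, 1 / (((i + J : ℕ) : ℝ) + 1) ^ 2 ≤ 1 / (J : ℝ) := by
  have hJ' : (0 : ℝ) < J := by exact_mod_cast hJ
  have key : ∀ m : ℕ, ∑ i ∈ Finset.range m, 1 / (((i + J : ℕ) : ℝ) + 1) ^ 2 ≤
      1 / (J : ℝ) - 1 / ((J : ℝ) + m) := by
    intro m
    induction m with
    | zero => simp
    | succ m ih =>
      rw [Finset.sum_range_succ]
      have h1 : 1 / (((m + J : ℕ) : ℝ) + 1) ^ 2 ≤ 1 / ((J : ℝ) + m) -
          1 / ((J : ℝ) + ((m + 1 : ℕ) : ℝ)) := by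
        push_cast
        have hm : (0 : ℝ) < (J : ℝ) + m := by positivity
        have hm2 : (0 : ℝ) < (J : ℝ) + (m + 1) := by positivity
        have hm3 : (0 : ℝ) < ((m : ℝ) + J + 1) ^ 2 := by positivity
        rw [div_sub_div _ _ hm.ne' hm2.ne', div_le_div_iff₀ hm3 (by positivity)]
        nlinarith
      linarith
  have h2 := key n
  have h3 : (0 : ℝ) ≤ 1 / ((J : ℝ) + n) := by positivity
  linarith

/-- completing the sum -/
theorem f9_complete (a : Fin n → ℝ) (T : ℝ) (J : ℕ) (hJ : 1 ≤ J) :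
    ∑ j ∈ Finset.range J, PP a (((j : ℝ) + 1) * T) / ((j : ℝ) + 1) ^ 2 ≤
      ∑' j : ℕ, PP a ((j + 1) * T) / (j + 1) ^ 2 + 1 / (J : ℝ) := by
  set f : ℕ → ℝ := fun j => PP a (((j : ℝ) + 1) * T) / ((j : ℝ) + 1) ^ 2 with hf
  have hle : ∀ j : ℕ, |f j| ≤ 1 / ((j : ℝ) + 1) ^ 2 := by
    intro j
    rw [hf]
    simp only
    rw [abs_div, abs_of_nonneg (sq_nonneg ((j : ℝ) + 1))]
    exact div_le_div_of_nonneg_right (abs_PP_le_one a _) (sq_nonneg _)
  have hsum0 : Summable fun j : ℕ => 1 / ((j : ℝ) + 1) ^ 2 := by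
    have h1 : Summable fun j : ℕ => 1 / ((j : ℝ)) ^ 2 :=
      Real.summable_one_div_nat_pow.2 (by norm_num)
    have h2 := (summable_nat_add_iff 1).2 h1
    refine h2.congr fun j => ?_
    push_cast
    rfl
  have hsum : Summable f := Summable.of_norm_bounded hsum0 (fun j => by
    rw [Real.norm_eq_abs]
    exact hle j)
  have hsplit := hsum.sum_add_tsum_nat_add J
  have hsumJ : Summable fun i => -f (i + J) := ((summable_nat_add_iff J).2 hsum).neg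
  have htail : -(∑' i, f (i + J)) ≤ 1 / (J : ℝ) := by
    rw [← tsum_neg]
    apply hsumJ.tsum_le_of_sum_range_le
    intro m
    refine le_trans (Finset.sum_le_sum fun i _ => ?_) (f9_tail J hJ m)
    exact (neg_le_abs _).trans (hle (i + J))
  have hgoal : ∑' j : ℕ, PP a ((j + 1) * T) / (j + 1) ^ 2 = ∑' j, f j := rfl
  rw [hgoal, ← hsplit]
  linarith

/-- ROW REG-F9 (lower bound for `E|a.x|` from the clusters at the multiples of `T`).

PROOF.  `κ = kap a`, `T₀ = π/(2δ) ≤ (π/2)/√κ` (`√κ ≤ δ`), `l = 1/√κ`.  By `DD_eq` (A4), splitting `(0,∞)` at `T₀`, and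
`near_integral` (A7), `e^{-t²/2} ≥ 0`:
`D ≥ √(2/π) + (2/π) [ (κ/12) √(π/2) - κδ - ∫_{T₀}^∞ P/t² ]`, `(2/π) √(π/2) = √(2/π)`.
Let `J = ⌊(L l + R)/T⌋ ≥ 1` and `S_j = [jT - R, jT + R]`, `1 ≤ j ≤ J`; disjoint (`T ≥ 4R`), inside `[T₀, ∞)`
(`T - R ≥ (3/4) T ≥ (9/4) l ≥ T₀`).  So `∫_{T₀}^∞ P/t² ≤ ∑_{j ≤ J} ∫_{S_j} P/t² + I₁ + I₂` where
`I₁ = ∫ |P|/t²` over `{T₀ ≤ t ≤ L l} \ ⋃ S_j`, `I₂ = ∫_{t ≥ L l} |P|/t²`.
On the domain of `I₁` we have `NN a t ≥ ν` (otherwise `hclose` gives `j ≥ 1` with `|t - jT| ≤ R`, and `j T ≤ L l + R`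
gives `j ≤ J`), so `I₁ ≤ κ (8 e^{-ν²/2} + 3κ)` (`far_bound`); `I₂ ≤ (2κ/L)(4 + κ√κ) ≤ 9κ/L` (`tail_bound`, `ν = 0`).
By `cluster_integral` (`jB + R ≤ LB + R`, since `j ≤ J ≤ L/3 + 1 ≤ L`; `24/(jT) ≤ 8√κ ≤ 8δ`;
`∑_j 1/(jT)² ≤ (π²/6)/T² ≤ (π²/6)(κ/9) ≤ κ/5`):
`∑_j ∫_{S_j} P/t² ≤ √(2π) ∑_{j ≤ J} P(jT)/(jT)² + (κ/5)(8R²(LB+R)³δ + 8δ + 4e^{-R²/2})`.
Completing the sum: `∑_{j>J} 1/(jT)² ≤ 1/(J T²) ≤ κ/L`: if `(L l + R)/T ≥ 2` then `J ≥ L l/(2T)` and
`1/(JT²) ≤ 2√κ/(LT) ≤ 2κ/(3L)`; else `J = 1`, `T > L l/2`, `1/T² ≤ 4κ/L² ≤ κ/L`.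
Multiply by `2/π`: `(2/π) √(2π)/T² = √(2/π) (2/T²)`.  Errors:
`(2/π) κ [δ + 8e^{-ν²/2} + 3κ + 9/L + (1/5)(8R²(LB+R)³δ + 8δ + 4e^{-R²/2}) + 2.6/L]`, `3κ ≤ 3δ`; this is at most
the stated error. -/
theorem DD_lower_clusters {a : Fin n → ℝ} {δ B T R L ν : ℝ} {k : Fin n → ℤ} (h : Reg a δ)
    (hδ : δ ≤ 1 / 10 ^ 8) (hk : ∑ i, a i * (a i * T - Real.pi * k i) = 0) (hB0 : 0 ≤ B)
    (hB : ∑ i, (a i * T - Real.pi * k i) ^ 2 ≤ B ^ 2) (hR : 1 ≤ R) (hL : 10 ≤ L) (hν : 0 ≤ ν)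
    (hRT : 4 * R ≤ T) (hT3 : 3 / Real.sqrt (kap a) ≤ T)
    (hTL : T ≤ L / Real.sqrt (kap a) + R)
    (hclose : ∀ t, Real.pi / (2 * δ) ≤ t → t ≤ L / Real.sqrt (kap a) → NN a t < ν →
      ∃ j : ℕ, 1 ≤ j ∧ |t - j * T| ≤ R) :
    Real.sqrt (2 / Real.pi) *
        (1 + kap a / 12 - (2 / T ^ 2) * ∑' j : ℕ, PP a ((j + 1) * T) / (j + 1) ^ 2) -
      kap a * (8 * Real.exp (-ν ^ 2 / 2) + 12 / L + Real.exp (-R ^ 2 / 2) +
        δ * (10 + 2 * R ^ 2 * (L * B + R) ^ 3)) ≤ DD a := by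
  have hpi := Real.pi_pos
  have hpi3 := Real.pi_gt_three
  have hpi4 := Real.pi_le_four
  have hδ0 := h.pos
  obtain ⟨hq0, hq2, hqδ, hκδ, hκ0, hκ1⟩ := f9_small h hδ
  set κ := kap a with hκ
  set q := Real.sqrt κ with hq
  have hT0 : 0 < Real.pi / (2 * δ) := by positivity
  have hL0 : 0 < L := by linarith
  have hT : 0 < T := by linarith
  have hT4 : 4 ≤ T := by linarith
  have hTq : 3 ≤ T * q := by
    rw [div_le_iff₀ hq0] at hT3
    exact hT3
  have hx1 : 1 ≤ (L / q + R) / T := by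
    rw [le_div_iff₀ hT]
    linarith
  set J := ⌊(L / q + R) / T⌋₊ with hJdef
  have hx0 : 0 ≤ (L / q + R) / T := by linarith
  have hJ1 : 1 ≤ J := Nat.le_floor (by simpa using hx1)
  have hJ1' : (1 : ℝ) ≤ J := by exact_mod_cast hJ1
  have hJx : (J : ℝ) ≤ (L / q + R) / T := Nat.floor_le hx0
  have hxJ : (L / q + R) / T < J + 1 := Nat.lt_floor_add_one _
  have hJL : (J : ℝ) ≤ L := by
    refine hJx.trans ?_
    rw [div_le_iff₀ hT]
    have h1 : L / q ≤ L * T / 3 := by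
      rw [div_le_div_iff₀ hq0 (by norm_num)]
      have h2 := mul_le_mul_of_nonneg_left hTq hL0.le
      rw [← mul_assoc] at h2
      exact h2
    have h2 : 10 * T ≤ L * T := mul_le_mul_of_nonneg_right hL hT.le
    linarith
  have hJT : L / q ≤ 2 * J * T := by
    have h1 : (L / q + R) / T ≤ 2 * J := by linarith
    rw [div_le_iff₀ hT] at h1
    linarith
  have hJT2 : 1 / (J * T ^ 2) ≤ 2 * κ / (3 * L) := by
    rw [div_le_div_iff₀ (by positivity) (by positivity)]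
    have h1 : L ≤ 2 * J * T * q := by
      rw [div_le_iff₀ hq0] at hJT
      exact hJT
    have h2 : L * 3 ≤ (2 * J * T * q) * (T * q) :=
      mul_le_mul h1 hTq (by norm_num) (by positivity)
    calc 1 * (3 * L) = L * 3 := by ring
      _ ≤ (2 * J * T * q) * (T * q) := h2
      _ = 2 * (q ^ 2) * (J * T ^ 2) := by ring
      _ = 2 * κ * (J * T ^ 2) := by rw [hq2]
  have hTκ : 1 / T ^ 2 ≤ κ / 9 := by
    rw [div_le_div_iff₀ (by positivity) (by norm_num), ← hq2]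
    calc (1 : ℝ) * 9 = 3 * 3 := by norm_num
      _ ≤ (T * q) * (T * q) := mul_le_mul hTq hTq (by norm_num) (by positivity)
      _ = q ^ 2 * T ^ 2 := by ring
  have hT₀T : Real.pi / (2 * δ) ≤ T - R := by
    have h1 : Real.pi / (2 * δ) ≤ 2 / q := by
      rw [div_le_div_iff₀ (by positivity) hq0]
      calc Real.pi * q ≤ 4 * δ := mul_le_mul hpi4 hqδ hq0.le (by norm_num)
        _ = 2 * (2 * δ) := by ring
    have h2 : 2 / q ≤ (2 / 3) * T := by
      rw [div_le_iff₀ hq0]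
      have h3 : (2 / 3) * T * q = (2 / 3) * (T * q) := by ring
      rw [h3]
      linarith
    linarith
  let Sj : ℕ → Set ℝ := fun j => Set.Icc (((j + 1 : ℕ) : ℝ) * T - R) (((j + 1 : ℕ) : ℝ) * T + R)
  have hSjm : ∀ j ∈ Finset.range J, MeasurableSet (Sj j) := fun j _ => measurableSet_Icc
  have hSjT : ∀ j, Sj j ⊆ Set.Ici (Real.pi / (2 * δ)) := by
    intro j t ht
    have h1 : ((j + 1 : ℕ) : ℝ) * T - R ≤ t := ht.1
    have h2 : T ≤ ((j + 1 : ℕ) : ℝ) * T := by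
      push_cast
      have : (0 : ℝ) ≤ j * T := by positivity
      linarith
    show Real.pi / (2 * δ) ≤ t
    linarith
  have hlt : ∀ i j : ℕ, i < j → Disjoint (Sj i) (Sj j) := by
    intro i j hij
    rw [Set.disjoint_left]
    intro t ht1 ht2
    have h1 : t ≤ ((i + 1 : ℕ) : ℝ) * T + R := ht1.2
    have h2 : ((j + 1 : ℕ) : ℝ) * T - R ≤ t := ht2.1
    have h3 : ((i + 1 : ℕ) : ℝ) + 1 ≤ ((j + 1 : ℕ) : ℝ) := by exact_mod_cast (by omega : i + 1 + 1 ≤ j + 1)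
    have h4 : (((i + 1 : ℕ) : ℝ) + 1) * T ≤ ((j + 1 : ℕ) : ℝ) * T :=
      mul_le_mul_of_nonneg_right h3 hT.le
    have h5 : (((i + 1 : ℕ) : ℝ) + 1) * T = ((i + 1 : ℕ) : ℝ) * T + T := by ring
    linarith
  have hdis : Set.Pairwise (↑(Finset.range J)) (Function.onFun Disjoint Sj) := by
    intro i _ j _ hij
    rcases lt_or_gt_of_ne hij with h1 | h1
    · exact hlt i j h1
    · exact (hlt j i h1).symm
  have hintP := f9_integrable a hT0
  have hUint : ∀ j ∈ Finset.range J, IntegrableOn (fun t : ℝ => PP a t / t ^ 2) (Sj j) :=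
    fun j _ => hintP.mono_set (hSjT j)
  set U : Set ℝ := ⋃ j ∈ Finset.range J, Sj j with hU
  have hUm : MeasurableSet U := Finset.measurableSet_biUnion _ hSjm
  have hUT : U ⊆ Set.Ici (Real.pi / (2 * δ)) := by
    intro t ht
    rw [hU, Set.mem_iUnion₂] at ht
    obtain ⟨j, _, hj⟩ := ht
    exact hSjT j hj
  have hUsum : ∫ t in U, PP a t / t ^ 2 = ∑ j ∈ Finset.range J, ∫ t in Sj j, PP a t / t ^ 2 :=
    MeasureTheory.integral_biUnion_finset _ hSjm hdis hUint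
  have hdiff : ∫ t in Set.Ici (Real.pi / (2 * δ)) \ U, PP a t / t ^ 2 =
      (∫ t in Set.Ici (Real.pi / (2 * δ)), PP a t / t ^ 2) - ∫ t in U, PP a t / t ^ 2 :=
    MeasureTheory.setIntegral_sdiff hUm hintP hUT
  have hfar := f9_far h hδ hL hν (S := Set.Ici (Real.pi / (2 * δ)) \ U)
    (measurableSet_Ici.diff hUm) Set.sdiff_subset (by
      rintro t ⟨ht1, ht2⟩ htL
      by_contra hcon
      obtain ⟨j, hj1, hj2⟩ := hclose t ht1 htL (not_le.1 hcon)
      apply ht2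
      rw [hU, Set.mem_iUnion₂]
      have h1 : (j : ℝ) ≤ (L / q + R) / T := by
        rw [le_div_iff₀ hT]
        have := (abs_le.1 hj2).1
        linarith
      have h2 : j ≤ J := Nat.le_floor h1
      obtain ⟨i, rfl⟩ : ∃ i, j = i + 1 := ⟨j - 1, by omega⟩
      refine ⟨i, Finset.mem_range.2 (by omega), ?_⟩
      have := abs_le.1 hj2
      exact ⟨by linarith [this.1], by linarith [this.2]⟩)
  set E := 8 * R ^ 2 * (L * B + R) ^ 3 * δ + 8 * δ + 4 * Real.exp (-R ^ 2 / 2) with hE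
  have hE0 : 0 ≤ E := by positivity
  have hcl : ∀ j ∈ Finset.range J, ∫ t in Sj j, PP a t / t ^ 2 ≤
      Real.sqrt (2 * Real.pi) / T ^ 2 * (PP a (((j : ℝ) + 1) * T) / ((j : ℝ) + 1) ^ 2) +
        E / T ^ 2 * (1 / ((j : ℝ) + 1) ^ 2) := by
    intro j hj
    have hj' : j + 1 ≤ J := by have := Finset.mem_range.1 hj; omega
    have hjL : ((j : ℝ) + 1) ≤ L := by
      have : ((j + 1 : ℕ) : ℝ) ≤ J := by exact_mod_cast hj'
      push_cast at this
      linarith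
    have hjT : T ≤ ((j : ℝ) + 1) * T := by
      have : (0 : ℝ) ≤ j * T := by positivity
      linarith
    have hRT' : 2 * R ≤ ((j + 1 : ℕ) : ℝ) * T := by
      push_cast
      linarith
    have h1 := cluster_integral h.unit h.le hk hB0 hB (j := j + 1) hR hRT'
    have h2 := (abs_le.1 h1).2
    push_cast at h2
    have h3 : 8 * R ^ 2 * (((j : ℝ) + 1) * B + R) ^ 3 * δ + 24 / (((j : ℝ) + 1) * T) +
        4 * Real.exp (-R ^ 2 / 2) ≤ E := by
      have h4 : (((j : ℝ) + 1) * B + R) ^ 3 ≤ (L * B + R) ^ 3 := by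
        apply pow_le_pow_left₀ (by positivity)
        have := mul_le_mul_of_nonneg_right hjL hB0
        linarith
      have h5 : 8 * R ^ 2 * (((j : ℝ) + 1) * B + R) ^ 3 * δ ≤ 8 * R ^ 2 * (L * B + R) ^ 3 * δ := by
        apply mul_le_mul_of_nonneg_right _ hδ0.le
        exact mul_le_mul_of_nonneg_left h4 (by positivity)
      have h6 : 24 / (((j : ℝ) + 1) * T) ≤ 8 * δ := by
        rw [div_le_iff₀ (by positivity)]
        have h7 : T * q ≤ (((j : ℝ) + 1) * T) * δ :=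
          mul_le_mul hjT hqδ hq0.le (by positivity)
        have h8 : 8 * δ * (((j : ℝ) + 1) * T) = 8 * ((((j : ℝ) + 1) * T) * δ) := by ring
        rw [h8]
        linarith
      rw [hE]
      linarith
    have h4 : 1 / (((j : ℝ) + 1) * T) ^ 2 * (8 * R ^ 2 * (((j : ℝ) + 1) * B + R) ^ 3 * δ +
        24 / (((j : ℝ) + 1) * T) + 4 * Real.exp (-R ^ 2 / 2)) ≤
        1 / (((j : ℝ) + 1) * T) ^ 2 * E := mul_le_mul_of_nonneg_left h3 (by positivity)
    have h5 : Real.sqrt (2 * Real.pi) * PP a (((j : ℝ) + 1) * T) / (((j : ℝ) + 1) * T) ^ 2 =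
        Real.sqrt (2 * Real.pi) / T ^ 2 * (PP a (((j : ℝ) + 1) * T) / ((j : ℝ) + 1) ^ 2) := by
      have : (j : ℝ) + 1 ≠ 0 := by positivity
      field_simp
    have h6 : 1 / (((j : ℝ) + 1) * T) ^ 2 * E = E / T ^ 2 * (1 / ((j : ℝ) + 1) ^ 2) := by
      have : (j : ℝ) + 1 ≠ 0 := by positivity
      field_simp
    rw [← h5, ← h6]
    have hSjeq : Sj j = Set.Icc (((j : ℝ) + 1) * T - R) (((j : ℝ) + 1) * T + R) := by
      show Set.Icc (((j + 1 : ℕ) : ℝ) * T - R) (((j + 1 : ℕ) : ℝ) * T + R) = _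
      push_cast
      rfl
    rw [hSjeq]
    linarith
  have hUle : ∫ t in U, PP a t / t ^ 2 ≤
      Real.sqrt (2 * Real.pi) / T ^ 2 *
        (∑' j : ℕ, PP a ((j + 1) * T) / (j + 1) ^ 2 + 1 / (J : ℝ)) + E / T ^ 2 * 2 := by
    rw [hUsum]
    refine (Finset.sum_le_sum hcl).trans ?_
    rw [Finset.sum_add_distrib, ← Finset.mul_sum, ← Finset.mul_sum]
    exact add_le_add (mul_le_mul_of_nonneg_left (f9_complete a T J hJ1) (by positivity))
      (mul_le_mul_of_nonneg_left (f9_sum_sq J) (by positivity))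
  have hbase := f9_base h hδ
  set F := ∑' j : ℕ, PP a ((j + 1) * T) / (j + 1) ^ 2 with hF
  set X := Real.exp (-ν ^ 2 / 2) with hX
  set Y := Real.exp (-R ^ 2 / 2) with hY
  set W := R ^ 2 * (L * B + R) ^ 3 with hW
  have hX0 : 0 ≤ X := (Real.exp_pos _).le
  have hY0 : 0 ≤ Y := (Real.exp_pos _).le
  have hW0 : 0 ≤ W := by positivity
  have hs3 : Real.sqrt (2 * Real.pi) ≤ 3 := by
    rw [Real.sqrt_le_left (by norm_num)]
    linarith
  have e1 : Real.sqrt (2 * Real.pi) / T ^ 2 * (F + 1 / (J : ℝ)) ≤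
      Real.sqrt (2 * Real.pi) / T ^ 2 * F + 3 * (2 * κ / (3 * L)) := by
    have : Real.sqrt (2 * Real.pi) / T ^ 2 * (F + 1 / (J : ℝ)) =
        Real.sqrt (2 * Real.pi) / T ^ 2 * F + Real.sqrt (2 * Real.pi) * (1 / (J * T ^ 2)) := by
      have : (J : ℝ) ≠ 0 := by positivity
      field_simp
    rw [this]
    have h2 : Real.sqrt (2 * Real.pi) * (1 / (J * T ^ 2)) ≤ 3 * (2 * κ / (3 * L)) :=
      mul_le_mul hs3 hJT2 (by positivity) (by norm_num)
    linarith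
  have e2 : E / T ^ 2 * 2 ≤ κ * (2 / 9 * E) := by
    have : E / T ^ 2 * 2 = (1 / T ^ 2) * (2 * E) := by ring
    rw [this]
    have h2 : (1 / T ^ 2) * (2 * E) ≤ κ / 9 * (2 * E) :=
      mul_le_mul_of_nonneg_right hTκ (by positivity)
    linarith
  have e3 : 3 * (2 * κ / (3 * L)) = κ * (2 * (1 / L)) := by
    field_simp
  have e4 : κ * (8 * X + 3 * δ + 9 / L) = κ * (8 * X + 3 * δ + 9 * (1 / L)) := by ring
  set M := 1 / L with hM
  have hM0 : 0 ≤ M := by positivity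
  have hI : ∫ t in Set.Ici (Real.pi / (2 * δ)), PP a t / t ^ 2 ≤
      Real.sqrt (2 * Real.pi) / T ^ 2 * F +
        κ * (8 * X + 3 * δ + 11 * M + 2 / 9 * E) := by
    have h1 := hfar
    rw [e4, hdiff] at h1
    rw [e3] at e1
    have h2 : κ * (8 * X + 3 * δ + 11 * M + 2 / 9 * E) =
      κ * (8 * X + 3 * δ + 9 * M) + κ * (2 * M) + κ * (2 / 9 * E) := by ring
    rw [h2]
    linarith
  have hZ : κ * δ + κ * (8 * X + 3 * δ + 11 * M + 2 / 9 * E) =
      κ * (8 * X + 11 * M + 8 / 9 * Y + δ * (4 + 16 / 9 + 16 / 9 * W)) := by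
    rw [hE, hW]
    ring
  have hc : (2 / Real.pi) * (κ * δ + (Real.sqrt (2 * Real.pi) / T ^ 2 * F +
      κ * (8 * X + 3 * δ + 11 * M + 2 / 9 * E))) =
      Real.sqrt (2 / Real.pi) * (2 / T ^ 2) * F +
        (2 / Real.pi) * (κ * (8 * X + 11 * M + 8 / 9 * Y + δ * (4 + 16 / 9 + 16 / 9 * W))) := by
    rw [← hZ, ← f9_sqrt_two_pi]
    ring
  have hd : (2 / Real.pi) * (κ * (8 * X + 11 * M + 8 / 9 * Y + δ * (4 + 16 / 9 + 16 / 9 * W))) ≤
      κ * (8 * X + 12 * M + Y + δ * (10 + 2 * W)) := by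
    have h1 : 2 / Real.pi ≤ 2 / 3 := by
      rw [div_le_div_iff₀ hpi (by norm_num)]
      linarith
    have h2 : 0 ≤ κ * (8 * X + 11 * M + 8 / 9 * Y + δ * (4 + 16 / 9 + 16 / 9 * W)) := by
      positivity
    refine (mul_le_mul_of_nonneg_right h1 h2).trans ?_
    have h3 : (2 / 3 : ℝ) * (κ * (8 * X + 11 * M + 8 / 9 * Y + δ * (4 + 16 / 9 + 16 / 9 * W))) =
      κ * ((2 / 3) * (8 * X + 11 * M + 8 / 9 * Y + δ * (4 + 16 / 9 + 16 / 9 * W))) := by ring
    rw [h3]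
    apply mul_le_mul_of_nonneg_left _ hκ0.le
    have h4 : 0 ≤ δ * W := by positivity
    have h5 : δ * (4 + 16 / 9 + 16 / 9 * W) = (4 + 16 / 9) * δ + 16 / 9 * (δ * W) := by ring
    have h6 : δ * (10 + 2 * W) = 10 * δ + 2 * (δ * W) := by ring
    rw [h5, h6]
    linarith
  have hfin : (2 / Real.pi) * (κ * δ + ∫ t in Set.Ici (Real.pi / (2 * δ)), PP a t / t ^ 2) ≤
      Real.sqrt (2 / Real.pi) * (2 / T ^ 2) * F + κ * (8 * X + 12 * M + Y + δ * (10 + 2 * W)) := by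
    have h1 : (2 / Real.pi) * (κ * δ + ∫ t in Set.Ici (Real.pi / (2 * δ)), PP a t / t ^ 2) ≤
        (2 / Real.pi) * (κ * δ + (Real.sqrt (2 * Real.pi) / T ^ 2 * F +
          κ * (8 * X + 3 * δ + 11 * M + 2 / 9 * E))) := by
      apply mul_le_mul_of_nonneg_left _ (by positivity)
      linarith
    rw [hc] at h1
    linarith
  have hgoal : Real.sqrt (2 / Real.pi) * (1 + κ / 12 - (2 / T ^ 2) * F) -
      κ * (8 * X + 12 / L + Y + δ * (10 + 2 * R ^ 2 * (L * B + R) ^ 3)) =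
      Real.sqrt (2 / Real.pi) * (1 + κ / 12) - (Real.sqrt (2 / Real.pi) * (2 / T ^ 2) * F +
        κ * (8 * X + 12 * M + Y + δ * (10 + 2 * W))) := by
    rw [hM, hW]
    ring
  rw [hgoal]
  linarith

/-- Case without almost periods.

PROOF.  The same with no clusters: `∫_{T₀}^∞ P/t² ≤ κ (8 e^{-ν²/2} + 3κ) + 9κ/L`, because all `t ∈ [T₀, L l]` have
`NN a t ≥ ν`. -/
theorem DD_lower_none {a : Fin n → ℝ} {δ L ν : ℝ} (h : Reg a δ)
    (hδ : δ ≤ 1 / 10 ^ 8) (hL : 10 ≤ L) (hν : 0 ≤ ν)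
    (hnone : ∀ t, Real.pi / (2 * δ) ≤ t → t ≤ L / Real.sqrt (kap a) → ν ≤ NN a t) :
    Real.sqrt (2 / Real.pi) * (1 + kap a / 12) -
      kap a * (8 * Real.exp (-ν ^ 2 / 2) + 12 / L + 10 * δ) ≤ DD a := by
  have hpi := Real.pi_pos
  have hpi3 := Real.pi_gt_three
  have hδ0 := h.pos
  obtain ⟨hq0, hq2, hqδ, hκδ, hκ0, hκ1⟩ := f9_small h hδ
  have hbase := f9_base h hδ
  have hfar := f9_far h hδ hL hν (S := Set.Ici (Real.pi / (2 * δ))) measurableSet_Ici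
    (Set.Subset.refl _) (fun t ht htL => hnone t ht htL)
  set X := Real.exp (-ν ^ 2 / 2) with hX
  have hX0 : 0 ≤ X := (Real.exp_pos _).le
  have hL0 : 0 < L := by linarith
  have e4 : kap a * (8 * X + 3 * δ + 9 / L) = kap a * (8 * X + 3 * δ + 9 * (1 / L)) := by ring
  have e5 : kap a * (8 * X + 12 / L + 10 * δ) = kap a * (8 * X + 12 * (1 / L) + 10 * δ) := by ring
  rw [e4] at hfar
  rw [e5]
  set M := 1 / L with hM
  have hM0 : 0 ≤ M := by positivity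
  have h1 : (2 / Real.pi) * (kap a * δ + ∫ t in Set.Ici (Real.pi / (2 * δ)), PP a t / t ^ 2) ≤
      (2 / Real.pi) * (kap a * (8 * X + 4 * δ + 9 * M)) := by
    apply mul_le_mul_of_nonneg_left _ (by positivity)
    linarith
  have h2 : (2 / Real.pi) * (kap a * (8 * X + 4 * δ + 9 * M)) ≤
      1 * (kap a * (8 * X + 4 * δ + 9 * M)) := by
    apply mul_le_mul_of_nonneg_right _ (by positivity)
    rw [div_le_one hpi]
    linarith
  have h3 : kap a * (8 * X + 4 * δ + 9 * M) ≤ kap a * (8 * X + 12 * M + 10 * δ) := by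
    apply mul_le_mul_of_nonneg_left _ hκ0.le
    linarith
  linarith

end Pool.Agent.MP_cb3c9c_an.REG
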