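import Pool.Agent.MP_cb3c9c_an.REG.F9
import Pool.Agent.MP_cb3c9c_an.REG.F10

set_option autoImplicit false

open Finset MeasureTheory
open scoped BigOperators

namespace Pool.Agent.MP_cb3c9c_an.REG

open Pool.Agent.MP_cb3c9c_an.TwoBlock

variable {n : ℕ}

/-- A threshold below which `c * δ ≤ d`. -/
lemma small_exists (c : ℝ) {d : ℝ} (hd : 0 < d) :
    ∃ δ₁ : ℝ, 0 < δ₁ ∧ ∀ δ, 0 ≤ δ → δ ≤ δ₁ → c * δ ≤ d := by
  refine ⟨d / (|c| + 1), by positivity, fun δ h0 h1 => ?_⟩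
  have h2 : c * δ ≤ |c| * δ := mul_le_mul_of_nonneg_right (le_abs_self c) h0
  have h3 : |c| * δ ≤ (|c| + 1) * (d / (|c| + 1)) :=
    mul_le_mul (by linarith) h1 h0 (by positivity)
  have h4 : (|c| + 1) * (d / (|c| + 1)) = d := by field_simp
  linarith

lemma exp_neg_sq_le {η : ℝ} (hη : 0 < η) (hη1 : η ≤ 1) :
    Real.exp (-(200 / η) ^ 2 / 2) ≤ η / 20000 := by
  have hx : 0 < (200 / η) ^ 2 / 2 := by positivity
  have h1 : (200 / η) ^ 2 / 2 + 1 ≤ Real.exp ((200 / η) ^ 2 / 2) := Real.add_one_le_exp _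
  have h2 : Real.exp (-(200 / η) ^ 2 / 2) = (Real.exp ((200 / η) ^ 2 / 2))⁻¹ := by
    rw [← Real.exp_neg]; congr 1; ring
  rw [h2]
  have h3 : (200 / η) ^ 2 / 2 = 20000 / η ^ 2 := by field_simp; norm_num
  have h4 : 20000 / η ≤ (200 / η) ^ 2 / 2 := by
    rw [h3]
    apply div_le_div_of_nonneg_left (by norm_num) (by positivity)
    nlinarith
  have h5 : 20000 / η ≤ Real.exp ((200 / η) ^ 2 / 2) := by linarith
  have h6 : 0 < 20000 / η := by positivity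
  calc (Real.exp ((200 / η) ^ 2 / 2))⁻¹ ≤ (20000 / η)⁻¹ := inv_anti₀ h6 h5
    _ = η / 20000 := by rw [inv_div]

lemma ft_m1 {p q η : ℝ} (hη : 0 < η) (h : p ≤ 2 * q) (h2 : q ≤ η / 8) :
    p ≤ η / 12 * Real.pi := by
  have := Real.pi_gt_three
  have h3 : η / 12 * 3 ≤ η / 12 * Real.pi := mul_le_mul_of_nonneg_left this.le (by positivity)
  linarith

lemma ft_m2 {p q : ℝ} (h : p ≤ 2 * q) (h2 : q ≤ 1 / 100) : p ≤ 1 / 150 * Real.pi := by
  have := Real.pi_gt_three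
  linarith

lemma ft_final {A s κ η e D : ℝ} (hκ : 0 ≤ κ) (he : e ≤ η) (h : s * A - κ * e ≤ D) :
    s * A - η * κ ≤ D := by
  have := mul_le_mul_of_nonneg_right he hκ
  linarith

lemma ft_C {N NM S p : ℝ} (hN : 0 ≤ N) (hNM : N ≤ NM) (h : S ≤ N ^ 2) (hp : 1 ≤ p) :
    S ≤ NM ^ 2 * p := by
  have h1 : N ^ 2 ≤ NM ^ 2 := pow_le_pow_left₀ hN hNM 2
  have h2 : NM ^ 2 ≤ NM ^ 2 * p := le_mul_of_one_le_right (sq_nonneg _) hp
  linarith

lemma ft_L {m η y : ℝ} (hη : 0 < η) (hm : 0 ≤ m) (hmη : m ≤ 1 / η) (hy0 : 0 ≤ y) (hy : y ≤ 8) :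
    m * y / 2 ≤ 100 / η := by
  have e1 : m * y ≤ 1 / η * 8 := mul_le_mul hmη hy hy0 (by positivity)
  have e3 : 0 < 1 / η := by positivity
  have e4 : 100 / η = 100 * (1 / η) := by ring
  rw [e4]; linarith

lemma ft_sqrt {X : ℝ} (h0 : 0 ≤ X) (h1 : X ≤ 1) : 1 - X ^ 2 ≤ Real.sqrt (1 - X ^ 2) := by
  apply Real.le_sqrt_of_sq_le
  have hXX : X ^ 2 ≤ 1 := by nlinarith
  nlinarith [mul_nonneg (sub_nonneg.2 hXX) (sq_nonneg X)]

lemma ft_low {s T t₁ N δ X Q : ℝ} (hs : 0 ≤ s) (hsδ : s ≤ δ) (hN : 0 ≤ N)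
    (hTt : |T - t₁| ≤ N) (hXN : N * δ = X * Real.pi / 2) (hX0 : 0 ≤ X) (hX1 : X ≤ 1)
    (hQ : 1 - X ^ 2 ≤ Q) (hfar : Real.pi * Q - δ * N ≤ s * t₁) :
    Real.pi * (1 - 2 * X) ≤ s * T := by
  have hpi := Real.pi_pos
  have e1 : s * t₁ - s * N ≤ s * T := by
    rw [← mul_sub]
    apply mul_le_mul_of_nonneg_left _ hs
    have := (abs_le.mp hTt).1
    linarith
  have e2 : s * N ≤ δ * N := mul_le_mul_of_nonneg_right hsδ hN
  have e3 : δ * N = X * Real.pi / 2 := by rw [mul_comm]; exact hXN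
  have e4 : Real.pi * (1 - X ^ 2) ≤ Real.pi * Q := mul_le_mul_of_nonneg_left hQ hpi.le
  have e5 : Real.pi * X ^ 2 ≤ Real.pi * X := by
    apply mul_le_mul_of_nonneg_left _ hpi.le
    nlinarith
  linarith

lemma ft_three {X y : ℝ} (hX0 : 0 ≤ X) (hX1 : X ≤ 1 / 150) (h : Real.pi * (1 - 2 * X) ≤ y) :
    3 ≤ y := by
  have := Real.pi_gt_d2
  have h2 : (3.14 : ℝ) * (1 - 2 * X) ≤ Real.pi * (1 - 2 * X) :=
    mul_le_mul_of_nonneg_right this.le (by linarith)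
  linarith

lemma ft_poly {R RM L N NM δ η : ℝ} (hR0 : 0 ≤ R) (hR : R ≤ RM) (hL : 0 ≤ L) (hN0 : 0 ≤ N)
    (hN : N ≤ NM) (hδ : 0 ≤ δ) (h5 : (10 + 2 * RM ^ 2 * (L * NM + RM) ^ 3) * δ ≤ η) :
    δ * (10 + 2 * R ^ 2 * (L * N + R) ^ 3) ≤ η := by
  refine le_trans ?_ h5
  rw [mul_comm]
  apply mul_le_mul_of_nonneg_right _ hδ
  have g1 : R ^ 2 ≤ RM ^ 2 := pow_le_pow_left₀ hR0 hR 2
  have hLN0 : 0 ≤ L * N + R := by positivity
  have hLN : L * N + R ≤ L * NM + RM := by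
    have := mul_le_mul_of_nonneg_left hN hL
    linarith
  have g2 : (L * N + R) ^ 3 ≤ (L * NM + RM) ^ 3 := pow_le_pow_left₀ hLN0 hLN 3
  have g3 : R ^ 2 * (L * N + R) ^ 3 ≤ RM ^ 2 * (L * NM + RM) ^ 3 :=
    mul_le_mul g1 g2 (by positivity) (by positivity)
  linarith

lemma ft_kap {s T X η : ℝ} (hX0 : 0 ≤ X) (hX : X ≤ η / 12) (hη : 0 < η) (hη1 : η ≤ 1)
    (h : Real.pi * (1 - 2 * X) ≤ s * T) : 1 - η ≤ (s * T / Real.pi) ^ 2 := by
  have e2 : 1 - 2 * X ≤ s * T / Real.pi := by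
    rw [le_div_iff₀ Real.pi_pos]; linarith
  have e3 : (1 - 2 * X) ^ 2 ≤ (s * T / Real.pi) ^ 2 :=
    pow_le_pow_left₀ (by linarith) e2 2
  nlinarith

lemma ft_up {κ s T : ℝ} (hs : s ^ 2 = κ) (hs0 : 0 ≤ s) (hT : 0 ≤ T)
    (h : κ * (T / Real.pi) ^ 2 ≤ 5) : s * T ≤ 8 := by
  have hpi := Real.pi_pos
  have hpi315 := Real.pi_lt_d2
  have e1 : κ * T ^ 2 ≤ 5 * Real.pi ^ 2 := by
    have : κ * (T / Real.pi) ^ 2 = κ * T ^ 2 / Real.pi ^ 2 := by ring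
    rw [this, div_le_iff₀ (by positivity)] at h
    exact h
  have e2 : (s * T) ^ 2 ≤ 5 * Real.pi ^ 2 := by rw [mul_pow, hs]; exact e1
  have e3 : Real.pi ^ 2 ≤ 10 := by nlinarith
  have e4 : 0 ≤ s * T := by positivity
  nlinarith

lemma ft_clash {c T R : ℝ} (hT : 0 < T) (h4R : 4 * R ≤ T) (hc : 1 / 2 ≤ |c|)
    (h : |c| * T ≤ R) : False := by
  have : 1 / 2 * T ≤ |c| * T := mul_le_mul_of_nonneg_right hc hT.le
  linarith

lemma ft_tri {t T t₁ L N : ℝ} {j : ℕ} (hN0 : 0 ≤ N) (hjL : (j : ℝ) ≤ L) (hTt : |T - t₁| ≤ N)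
    (hjt : |t - j * t₁| ≤ (L + 2) * N) : |t - j * T| ≤ (2 * L + 2) * N := by
  have e1 : |t - j * T| ≤ |t - j * t₁| + |(j : ℝ) * t₁ - j * T| := by
    have : t - j * T = (t - j * t₁) + ((j : ℝ) * t₁ - j * T) := by ring
    rw [this]; exact abs_add_le _ _
  have e2 : |(j : ℝ) * t₁ - j * T| ≤ L * N := by
    rw [← mul_sub, abs_mul, abs_of_nonneg (by positivity : (0:ℝ) ≤ (j:ℝ)), abs_sub_comm]
    exact mul_le_mul hjL hTt (abs_nonneg _) (le_trans (by positivity) hjL)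
  nlinarith

theorem FT_aux (η : ℝ) (hη : 0 < η) (hη1 : η ≤ 1) :
    ∃ C₁ : ℝ, 1 ≤ C₁ ∧ ∃ δ₁ : ℝ, 0 < δ₁ ∧ ∀ (n : ℕ) (a : Fin n → ℝ) (δ : ℝ), Reg a δ → δ ≤ δ₁ →
      (∀ i, 0 ≤ a i) →
      (Real.sqrt (2 / Real.pi) * (1 + kap a / 12) - η * kap a ≤ DD a) ∨
      ∃ τ : ℝ, 0 < τ ∧ ∃ k : Fin n → ℤ, (∀ i, 0 ≤ k i) ∧ ∑ i, (τ * a i - k i) ^ 2 ≤ C₁ ^ 2 ∧
        ∑ i, a i * (τ * a i - k i) = 0 ∧ 1 - η ≤ kap a * τ ^ 2 ∧
        Real.sqrt (2 / Real.pi) * (1 + kap a / 12 - (2 / (Real.pi * τ) ^ 2) *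
          ∑' j : ℕ, PP a ((j + 1) * (Real.pi * τ)) / (j + 1) ^ 2) - η * kap a ≤ DD a ∧
        |PP a (Real.pi * τ)| ≤
          Real.exp (-(Real.pi ^ 2 * ∑ i, (τ * a i - k i) ^ 2) / 2 + 1 / 20) ∧
        (kap a * τ ^ 2 ≤ 5 → ∀ m : ℕ, Odd m → (m : ℝ) ≤ 1 / η →
          |PP a (m * (Real.pi * τ / 2))| ≤ η) := by
  obtain ⟨L, hL⟩ : ∃ L : ℝ, L = 100 / η := ⟨_, rfl⟩
  obtain ⟨ν, hν⟩ : ∃ ν : ℝ, ν = 200 / η := ⟨_, rfl⟩
  have hL100 : 100 ≤ L := by rw [hL, le_div_iff₀ hη]; linarith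
  have hν200 : 200 ≤ ν := by rw [hν, le_div_iff₀ hη]; linarith
  have hexp : Real.exp (-ν ^ 2 / 2) ≤ η / 20000 := by rw [hν]; exact exp_neg_sq_le hη hη1
  obtain ⟨NM, hNM⟩ : ∃ NM : ℝ, NM = L ^ ⌊L⌋₊ * ν := ⟨_, rfl⟩
  have hNM200 : 200 ≤ NM := by
    have : 1 ≤ L ^ ⌊L⌋₊ := one_le_pow₀ (by linarith)
    rw [hNM]
    nlinarith
  obtain ⟨RM, hRM⟩ : ∃ RM : ℝ, RM = (2 * L + 2) * NM := ⟨_, rfl⟩
  have hRM0 : 0 < RM := by rw [hRM]; positivity
  -- thresholds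
  obtain ⟨d1, hd1, H1⟩ := small_exists (NM ^ 3) (d := 1 / 1000) (by norm_num)
  obtain ⟨d2, hd2, H2⟩ := small_exists ((L + 2) * NM) (d := 1 / 50) (by norm_num)
  obtain ⟨d3, hd3, H3⟩ := small_exists (NM) (d := min (η / 8) (1 / 100)) (by positivity)
  obtain ⟨d4, hd4, H4⟩ := small_exists (4 * RM) (d := 3) (by norm_num)
  obtain ⟨d5, hd5, H5⟩ := small_exists (10 + 2 * RM ^ 2 * (L * NM + RM) ^ 3) (d := η / 4)
    (by positivity)
  obtain ⟨d6, hd6, H6⟩ := small_exists 10 (d := η / 4) (by positivity)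
  refine ⟨NM, by linarith, min (1 / 10 ^ 8) (min d1 (min d2 (min d3 (min d4 (min d5 d6))))),
    by positivity, ?_⟩
  intro n a δ h hδ ha
  have hδ8 : δ ≤ 1 / 10 ^ 8 := hδ.trans (min_le_left _ _)
  have hδ' := hδ.trans (min_le_right _ _)
  have h1 := H1 δ h.pos.le (hδ'.trans (min_le_left _ _))
  have hδ' := hδ'.trans (min_le_right _ _)
  have h2 := H2 δ h.pos.le (hδ'.trans (min_le_left _ _))
  have hδ' := hδ'.trans (min_le_right _ _)
  have h3 := H3 δ h.pos.le (hδ'.trans (min_le_left _ _))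
  have hδ' := hδ'.trans (min_le_right _ _)
  have h4 := H4 δ h.pos.le (hδ'.trans (min_le_left _ _))
  have hδ' := hδ'.trans (min_le_right _ _)
  have h5 := H5 δ h.pos.le (hδ'.trans (min_le_left _ _))
  have h6 := H6 δ h.pos.le (hδ'.trans (min_le_right _ _))
  clear H1 H2 H3 H4 H5 H6 hδ'
  have hκ := h.kap_pos
  have hsκ := h.sqrt_kap_pos
  have hsκδ := h.sqrt_kap_le
  have hδ0 := h.pos
  have hpi := Real.pi_gt_three
  have hpi4 := Real.pi_lt_four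
  obtain ⟨T₀, hT₀⟩ : ∃ T₀ : ℝ, T₀ = Real.pi / (2 * δ) := ⟨_, rfl⟩
  have hT₀pos : 0 < T₀ := by rw [hT₀]; positivity
  by_cases hex : ∃ t, T₀ ≤ t ∧ t ≤ L / Real.sqrt (kap a) ∧ NN a t ≤ ν
  swap
  · left
    push Not at hex
    have := DD_lower_none h hδ8 (L := L) (ν := ν) (by linarith) (by linarith)
      (fun t ht1 ht2 => (hex t (hT₀ ▸ ht1) ht2).le)
    refine le_trans ?_ this
    have h12 : 12 / L = 12 * η / 100 := by rw [hL]; field_simp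
    have he : 8 * Real.exp (-ν ^ 2 / 2) + 12 / L + 10 * δ ≤ η := by
      rw [h12]; linarith
    exact ft_final hκ.le he le_rfl
  right
  obtain ⟨i, hiL, t₁, ht₁, ht₁L, hNt₁, hgap⟩ := gap_select h (by linarith : (2:ℝ) ≤ L) (hT₀ ▸ hex)
  obtain ⟨N₁, hN₁⟩ : ∃ N₁ : ℝ, N₁ = L ^ i * ν := ⟨_, rfl⟩
  rw [← hN₁] at hNt₁
  have hpow1 : 1 ≤ L ^ i := one_le_pow₀ (by linarith)
  have hN₁ν : ν ≤ N₁ := by rw [hN₁]; nlinarith
  have hN₁M : N₁ ≤ NM := by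
    rw [hN₁, hNM]
    apply mul_le_mul_of_nonneg_right _ (by linarith)
    apply pow_le_pow_right₀ (by linarith)
    exact Nat.le_floor hiL
  have hN₁δ : N₁ * δ ≤ NM * δ := mul_le_mul_of_nonneg_right hN₁M hδ0.le
  have h3a : NM * δ ≤ η / 8 := h3.trans (min_le_left _ _)
  have h3b : NM * δ ≤ 1 / 100 := h3.trans (min_le_right _ _)
  -- profile
  have hM3 : N₁ ^ 3 * δ ≤ 1 / 1000 := by
    refine le_trans ?_ h1
    apply mul_le_mul_of_nonneg_right _ hδ0.le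
    exact pow_le_pow_left₀ (by linarith) hN₁M 3
  obtain ⟨T, k, hT1, horth, hsum, hprof, hk0⟩ := profile h hNt₁ (by linarith) hM3
  have hk0' := hk0 ha (by linarith)
  have hNt0 : 0 ≤ NN a t₁ := NN_nonneg a t₁
  have hTt : |T - t₁| ≤ N₁ := hT1.trans hNt₁
  have hsumB : ∑ i, (a i * T - Real.pi * k i) ^ 2 ≤ N₁ ^ 2 :=
    hsum.trans (pow_le_pow_left₀ hNt0 hNt₁ 2)
  -- size of T
  have hfar := NN_far h hNt₁ ht₁ (by linarith)
  have hN₁0 : 0 ≤ N₁ := by linarith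
  have hx0 : 0 ≤ 2 * N₁ * δ / Real.pi := by positivity
  have hx1 : 2 * N₁ * δ / Real.pi ≤ min (η / 12) (1 / 150) := by
    rw [div_le_iff₀ (by positivity)]
    have e0 : 2 * N₁ * δ ≤ 2 * (NM * δ) := by linarith
    rcases min_choice (η / 12) (1 / 150) with h' | h' <;> rw [h']
    · exact ft_m1 hη e0 h3a
    · exact ft_m2 e0 h3b
  obtain ⟨X, hX⟩ : ∃ X : ℝ, X = 2 * N₁ * δ / Real.pi := ⟨_, rfl⟩
  rw [← hX] at hfar hx0 hx1
  have hx1a : X ≤ η / 12 := hx1.trans (min_le_left _ _)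
  have hx1b : X ≤ 1 / 150 := hx1.trans (min_le_right _ _)
  have hXN : N₁ * δ = X * Real.pi / 2 := by rw [hX]; field_simp
  have hsq : 1 - X ^ 2 ≤ Real.sqrt (1 - X ^ 2) := ft_sqrt hx0 (by linarith)
  have hTlow : Real.pi * (1 - 2 * X) ≤ Real.sqrt (kap a) * T :=
    ft_low hsκ.le hsκδ (by linarith) hTt hXN hx0 (by linarith) hsq hfar
  have hT3' : 3 ≤ Real.sqrt (kap a) * T := ft_three hx0 hx1b hTlow
  have hT3 : 3 / Real.sqrt (kap a) ≤ T := by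
    rw [div_le_iff₀ hsκ]; linarith
  have hTpos : 0 < T := lt_of_lt_of_le (by positivity) hT3
  have hT3δ : 3 / δ ≤ T := le_trans (div_le_div_of_nonneg_left (by norm_num) hsκ hsκδ) hT3
  -- R
  obtain ⟨R, hR⟩ : ∃ R : ℝ, R = (2 * L + 2) * N₁ := ⟨_, rfl⟩
  have hRRM : R ≤ RM := by
    rw [hR, hRM]; exact mul_le_mul_of_nonneg_left hN₁M (by linarith)
  have hRN : N₁ ≤ R := by rw [hR]; exact le_mul_of_one_le_left hN₁0 (by linarith)
  have hRν : ν ≤ R := hN₁ν.trans hRN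
  have h4R : 4 * R ≤ T := by
    refine le_trans ?_ hT3δ
    rw [le_div_iff₀ hδ0]
    calc 4 * R * δ ≤ 4 * RM * δ := by
          apply mul_le_mul_of_nonneg_right _ hδ0.le; linarith
      _ ≤ 3 := h4
  have hclose : ∀ t, Real.pi / (2 * δ) ≤ t → t ≤ L / Real.sqrt (kap a) → NN a t < ν →
      ∃ j : ℕ, 1 ≤ j ∧ |t - j * T| ≤ R := by
    intro t ht htL hNt
    obtain ⟨j, hj1, hjL, hjt⟩ := close_to_multiple h (by linarith : (2:ℝ) ≤ L) ht₁ ht₁L hNt₁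
      (fun r hr1 hr2 => by
        have := hgap r hr1 hr2
        rw [hN₁]
        calc L * (L ^ i * ν) = L ^ (i + 1) * ν := by ring
          _ < _ := this)
      (by
        calc (L + 2) * N₁ * δ ≤ (L + 2) * NM * δ := by
              apply mul_le_mul_of_nonneg_right _ hδ0.le
              exact mul_le_mul_of_nonneg_left hN₁M (by linarith)
          _ ≤ 1 / 50 := h2) ht htL (by linarith)
    refine ⟨j, hj1, ?_⟩
    rw [hR]
    exact ft_tri (by linarith) hjL hTt hjt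
  have hmain := DD_lower_clusters h hδ8 horth (by linarith : (0:ℝ) ≤ N₁) hsumB
    (by linarith : (1:ℝ) ≤ R) (by linarith : (10:ℝ) ≤ L) (by linarith : (0:ℝ) ≤ ν) h4R hT3
    (by have := (abs_le.mp hTt).2; linarith) hclose
  have hRexp : Real.exp (-R ^ 2 / 2) ≤ η / 20000 := by
    refine le_trans (Real.exp_le_exp.mpr ?_) hexp
    have : ν ^ 2 ≤ R ^ 2 := pow_le_pow_left₀ (by linarith) hRν 2
    linarith
  have hpoly : δ * (10 + 2 * R ^ 2 * (L * N₁ + R) ^ 3) ≤ η / 4 :=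
    ft_poly (by linarith) hRRM (by linarith) (by linarith) hN₁M hδ0.le h5
  have hTτ : Real.pi * (T / Real.pi) = T := by field_simp
  have h12 : 12 / L = 12 * η / 100 := by rw [hL]; field_simp
  refine ⟨T / Real.pi, by positivity, k, hk0', ?_, ?_, ?_, ?_, ?_, ?_⟩
  · have e1 : ∀ i, (T / Real.pi * a i - k i) ^ 2 = (a i * T - Real.pi * k i) ^ 2 / Real.pi ^ 2 := by
      intro i; field_simp
    simp only [e1]
    rw [← Finset.sum_div, div_le_iff₀ (by positivity)]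
    exact ft_C hN₁0 hN₁M hsumB (by nlinarith [Real.pi_gt_three])
  · have e1 : ∀ i, a i * (T / Real.pi * a i - k i) =
        (a i * (a i * T - Real.pi * k i)) / Real.pi := by
      intro i; field_simp
    simp only [e1]
    rw [← Finset.sum_div, horth, zero_div]
  · have e1 : kap a * (T / Real.pi) ^ 2 = (Real.sqrt (kap a) * T / Real.pi) ^ 2 := by
      rw [div_pow, div_pow, mul_pow, Real.sq_sqrt hκ.le]; ring
    rw [e1]
    exact ft_kap hx0 hx1a hη hη1 hTlow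
  · rw [hTτ]
    refine le_trans ?_ hmain
    have he : 8 * Real.exp (-ν ^ 2 / 2) + 12 / L + Real.exp (-R ^ 2 / 2) +
        δ * (10 + 2 * R ^ 2 * (L * N₁ + R) ^ 3) ≤ η := by
      rw [h12]; linarith
    exact ft_final hκ.le he le_rfl
  · rw [hTτ]
    refine (abs_PP_le a T).trans (Real.exp_le_exp.mpr ?_)
    have := hprof 0 (by simp; linarith)
    rw [add_zero] at this
    have e1 : Real.pi ^ 2 * ∑ i, (T / Real.pi * a i - k i) ^ 2 =
        ∑ i, (a i * T - Real.pi * k i) ^ 2 := by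
      rw [Finset.mul_sum]
      apply Finset.sum_congr rfl
      intro i _
      field_simp
    rw [e1]
    linarith
  · intro hκτ m hm hmη
    have hTup : Real.sqrt (kap a) * T ≤ 8 := ft_up (Real.sq_sqrt hκ.le) hsκ.le hTpos.le hκτ
    have hm1 : (1 : ℝ) ≤ m := by exact_mod_cast hm.pos
    have ht_eq : (m : ℝ) * (Real.pi * (T / Real.pi) / 2) = m * T / 2 := by rw [hTτ]; ring
    rw [ht_eq]
    have hNN : ν ≤ NN a (m * T / 2) := by
      by_contra hcon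
      push Not at hcon
      have htpos : T / 2 ≤ m * T / 2 := by
        have := mul_le_mul_of_nonneg_right hm1 hTpos.le
        linarith
      by_cases htT : T₀ ≤ m * T / 2
      · have htL : m * T / 2 ≤ L / Real.sqrt (kap a) := by
          rw [le_div_iff₀ hsκ]
          rw [hL]
          have := ft_L hη (by linarith) hmη (by positivity) hTup
          calc (m : ℝ) * T / 2 * Real.sqrt (kap a) = m * (Real.sqrt (kap a) * T) / 2 := by ring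
            _ ≤ _ := this
        obtain ⟨j, hj1, hj⟩ := hclose _ (hT₀ ▸ htT) htL hcon
        -- m odd
        obtain ⟨l, hl⟩ := hm
        have e1 : (m : ℝ) * T / 2 - j * T = ((2 * (l : ℝ) + 1) / 2 - j) * T := by
          rw [hl]; push_cast; ring
        have e2 : (1 : ℝ) / 2 ≤ |(2 * (l : ℝ) + 1) / 2 - j| := by
          have : (2 * (l : ℝ) + 1) / 2 - j = ((2 * ((l : ℤ) - j) + 1 : ℤ) : ℝ) / 2 := by
            push_cast; ring
          rw [this, abs_div, abs_two]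
          have h5 : (1 : ℝ) ≤ |((2 * ((l : ℤ) - j) + 1 : ℤ) : ℝ)| := by
            rw [← Int.cast_abs]
            have : (1 : ℤ) ≤ |2 * ((l : ℤ) - j) + 1| := by
              apply Int.one_le_abs; omega
            exact_mod_cast this
          linarith
        rw [e1, abs_mul, abs_of_pos hTpos] at hj
        exact ft_clash hTpos h4R e2 hj
      · push Not at htT
        have e1 : NN a (m * T / 2) = |m * T / 2| := by
          apply NN_eq_abs h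
          rw [abs_of_pos (by positivity)]
          rw [← hT₀]; exact htT.le
        rw [e1, abs_of_pos (by positivity)] at hcon
        linarith
    refine (abs_PP_le a _).trans ?_
    have e2 : Real.exp (-(NN a (m * T / 2)) ^ 2 / 2) ≤ Real.exp (-ν ^ 2 / 2) := by
      apply Real.exp_le_exp.mpr
      have : ν ^ 2 ≤ NN a (m * T / 2) ^ 2 := pow_le_pow_left₀ (by linarith) hNN 2
      linarith
    linarith

/-- (helper58) Structure of `E|a.x|` for regular `a`. -/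
theorem FT (η : ℝ) (hη : 0 < η) :
    ∃ C₁ : ℝ, 1 ≤ C₁ ∧ ∃ δ₁ : ℝ, 0 < δ₁ ∧ ∀ (n : ℕ) (a : Fin n → ℝ) (δ : ℝ), Reg a δ → δ ≤ δ₁ →
      (∀ i, 0 ≤ a i) →
      (Real.sqrt (2 / Real.pi) * (1 + kap a / 12) - η * kap a ≤ DD a) ∨
      ∃ τ : ℝ, 0 < τ ∧ ∃ k : Fin n → ℤ, (∀ i, 0 ≤ k i) ∧ ∑ i, (τ * a i - k i) ^ 2 ≤ C₁ ^ 2 ∧
        ∑ i, a i * (τ * a i - k i) = 0 ∧ 1 - η ≤ kap a * τ ^ 2 ∧
        Real.sqrt (2 / Real.pi) * (1 + kap a / 12 - (2 / (Real.pi * τ) ^ 2) *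
          ∑' j : ℕ, PP a ((j + 1) * (Real.pi * τ)) / (j + 1) ^ 2) - η * kap a ≤ DD a ∧
        |PP a (Real.pi * τ)| ≤
          Real.exp (-(Real.pi ^ 2 * ∑ i, (τ * a i - k i) ^ 2) / 2 + 1 / 20) ∧
        (kap a * τ ^ 2 ≤ 5 → ∀ m : ℕ, Odd m → (m : ℝ) ≤ 1 / η →
          |PP a (m * (Real.pi * τ / 2))| ≤ η) := by
  have hm : 0 < min η 1 := lt_min hη one_pos
  obtain ⟨C₁, hC₁, δ₁, hδ₁, H⟩ := FT_aux (min η 1) hm (min_le_right _ _)
  refine ⟨C₁, hC₁, δ₁, hδ₁, fun n a δ h hδ ha => ?_⟩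
  have hκ := h.kap_pos
  have hle : min η 1 ≤ η := min_le_left _ _
  have hle2 : min η 1 * kap a ≤ η * kap a := mul_le_mul_of_nonneg_right hle hκ.le
  rcases H n a δ h hδ ha with h1 | ⟨τ, hτ, k, h1, h2, h3, h4, h5, h6, h7⟩
  · left; linarith
  · right
    refine ⟨τ, hτ, k, h1, h2, h3, by linarith, by linarith, h6, fun hκτ m hm1 hm2 => ?_⟩
    refine (h7 hκτ m hm1 (hm2.trans ?_)).trans hle
    exact one_div_le_one_div_of_le hm hle

end Pool.Agent.MP_cb3c9c_an.REG
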