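import Pool.Agent.MP_cb3c9c_an.REG.Base

set_option autoImplicit false

open Finset MeasureTheory
open scoped BigOperators

namespace Pool.Agent.MP_cb3c9c_an.REG

open Pool.Agent.MP_cb3c9c_an.TwoBlock

variable {n : ℕ}

/-- perturbation by powers of a small generic parameter -/
lemma g1_generic (b : Fin n → ℝ) (hb : ∀ i, 0 ≤ b i) {δ : ℝ} (hδ : 0 < δ) :
    ∃ t : ℝ, 0 < t ∧ t < δ ∧ t < 1 ∧
      ∀ i j : Fin n, i ≠ j → Irrational ((b i + t ^ (i.1 + 1)) / (b j + t ^ (j.1 + 1))) := by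
  classical
  -- the bad set
  let P : Fin n → Fin n → ℚ → Polynomial ℝ := fun i j q =>
    Polynomial.C (b i) + Polynomial.X ^ (i.1 + 1) -
      Polynomial.C (q : ℝ) * (Polynomial.C (b j) + Polynomial.X ^ (j.1 + 1))
  have hP : ∀ i j q, i ≠ j → P i j q ≠ 0 := by
    intro i j q hij h0
    have h1 : (P i j q).coeff (i.1 + 1) = 1 := by
      have hij' : i.1 ≠ j.1 := fun h => hij (Fin.ext h)
      simp only [P, Polynomial.coeff_sub, Polynomial.coeff_add, Polynomial.coeff_C_mul,
        Polynomial.coeff_X_pow, Polynomial.coeff_C]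
      simp
      intro h
      exact absurd h hij'
    rw [h0, Polynomial.coeff_zero] at h1
    exact zero_ne_one h1
  let B : Set ℝ := ⋃ p : {p : Fin n × Fin n × ℚ // p.1 ≠ p.2.1},
    {t | (P p.1.1 p.1.2.1 p.1.2.2).IsRoot t}
  have hB : B.Countable := by
    refine Set.countable_iUnion fun p => ?_
    exact (Polynomial.finite_setOfPred_isRoot (hP p.1.1 p.1.2.1 p.1.2.2 p.2)).countable
  have hn : ¬ (Set.Ioo 0 (min δ 1)).Countable := by
    rw [Cardinal.Real.Ioo_countable_iff]
    exact not_le.2 (lt_min hδ one_pos)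
  have hs : ∃ t ∈ Set.Ioo 0 (min δ 1), t ∉ B := by
    by_contra hcon
    push Not at hcon
    exact hn (hB.mono hcon)
  obtain ⟨t, ht, htB⟩ := hs
  refine ⟨t, ht.1, lt_of_lt_of_le ht.2 (min_le_left _ _), lt_of_lt_of_le ht.2 (min_le_right _ _),
    fun i j hij => ?_⟩
  rintro ⟨q, hq⟩
  apply htB
  refine Set.mem_iUnion.2 ⟨⟨(i, j, q), hij⟩, ?_⟩
  have hj : 0 < b j + t ^ (j.1 + 1) := by
    have := hb j
    have h2 : 0 < t ^ (j.1 + 1) := pow_pos ht.1 _
    linarith
  rw [eq_div_iff hj.ne'] at hq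
  change (P i j q).IsRoot t
  simp only [P, Polynomial.IsRoot.def, Polynomial.eval_sub, Polynomial.eval_add,
    Polynomial.eval_mul, Polynomial.eval_C, Polynomial.eval_pow, Polynomial.eval_X]
  linarith

lemma g1_sg {u v m : ℝ} (hv : m ≤ |v|) (h : |u - v| < m) : u ≠ 0 ∧ sg u = sg v := by
  rcases lt_trichotomy v 0 with hv0 | hv0 | hv0
  · rw [abs_of_neg hv0] at hv
    rw [abs_lt] at h
    have hu : u < 0 := by linarith [h.2]
    exact ⟨hu.ne, by rw [sg_neg' hu, sg_neg' hv0]⟩
  · subst hv0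
    rw [abs_zero] at hv
    have := abs_nonneg (u - 0)
    exact absurd h (by linarith)
  · rw [abs_of_pos hv0] at hv
    rw [abs_lt] at h
    have hu : 0 < u := by linarith [h.1]
    exact ⟨hu.ne', by rw [sg_pos hu, sg_pos hv0]⟩

lemma g1_flip_flip (z x : Fin n → Bool) : TwoBlock.flip z (TwoBlock.flip z x) = x := by
  funext i
  simp [TwoBlock.flip]

/-- `flip z` as an equivalence -/
def g1Equiv (z : Fin n → Bool) : (Fin n → Bool) ≃ (Fin n → Bool) where
  toFun := TwoBlock.flip z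
  invFun := TwoBlock.flip z
  left_inv := g1_flip_flip z
  right_inv := g1_flip_flip z

/-- ROW REG-G1 (generic weights).

PROOF.  Let `m = min_x |lf a x| > 0`, `ε' = min ε (m/(n+1))`.  Choose `a'_0, a'_1, …` one after the other, `a'_i` in
`(|a i|, |a i| + ε')` outside the countable set `{q a'_j : j < i, q ∈ ℚ}` (an interval is uncountable), so `a'_i/a'_j ∉ ℚ`
(all `a'_i > 0`; the inverse of an irrational is irrational).  Let `s_i = ±1` with `a_i = s_i |a_i|`; flipping the bits
with `s_i = -1` is an equivalence `φ` of the cube with `lf |a| x = lf a (φ x)`.  So `|lf |a| x| ≥ m` and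
`|lf a' x - lf |a| x| ≤ n ε' < m`: `lf a' x ≠ 0` and `sg (lf a' x) = sg (lf |a| x)`.  Therefore `cw a' i = cw |a| i = s_i cw a i`. -/
theorem generic_weights (a : Fin n → ℝ) (hne : ∀ x, lf a x ≠ 0) {ε : ℝ} (hε : 0 < ε) :
    ∃ a' : Fin n → ℝ, (∀ i, |a i| < a' i ∧ a' i < |a i| + ε) ∧
      (∀ i j, i ≠ j → Irrational (a' i / a' j)) ∧ (∀ x, lf a' x ≠ 0) ∧
      (∀ i, cw a' i ^ 2 = cw a i ^ 2) := by
  classical
  -- the minimal value
  obtain ⟨x0, -, hx0⟩ := Finset.exists_min_image (univ : Finset (Fin n → Bool))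
    (fun x => |lf a x|) ⟨fun _ => false, mem_univ _⟩
  have hm : 0 < |lf a x0| := abs_pos.2 (hne x0)
  have hmin : ∀ x, |lf a x0| ≤ |lf a x| := fun x => hx0 x (mem_univ x)
  have hδ : 0 < min ε (|lf a x0| / (n + 1)) := lt_min hε (by positivity)
  obtain ⟨t, ht0, htd, ht1, hirr⟩ := g1_generic (fun i => |a i|) (fun i => abs_nonneg _) hδ
  have htp : ∀ i : Fin n, 0 < t ^ (i.1 + 1) := fun i => pow_pos ht0 _
  have htle : ∀ i : Fin n, t ^ (i.1 + 1) ≤ t := fun i => by
    rw [pow_succ]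
    have h1 : t ^ i.1 ≤ 1 := pow_le_one₀ ht0.le ht1.le
    nlinarith
  let z : Fin n → Bool := fun i => decide (a i < 0)
  have hz : ∀ i, a i * sb (z i) = |a i| := by
    intro i
    by_cases h : a i < 0
    · have h1 : z i = true := decide_eq_true h
      rw [h1, sb_true, abs_of_neg h]
      ring
    · have h1 : z i = false := decide_eq_false h
      rw [h1, sb_false, abs_of_nonneg (not_lt.1 h)]
      ring
  have hlf : ∀ x, lf (fun i => |a i|) x = lf a (TwoBlock.flip z x) := by
    intro x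
    unfold lf
    refine Finset.sum_congr rfl fun i _ => ?_
    change |a i| * sb (x i) = a i * sb (xor (z i) (x i))
    rw [sb_xor, ← mul_assoc, hz]
  have hdiff : ∀ x, |lf (fun i => |a i| + t ^ (i.1 + 1)) x - lf a (TwoBlock.flip z x)| < |lf a x0| := by
    intro x
    rw [← hlf]
    have h1 : lf (fun i => |a i| + t ^ (i.1 + 1)) x - lf (fun i => |a i|) x =
        lfS univ (fun i => t ^ (i.1 + 1)) x := by
      unfold lf lfS
      rw [← Finset.sum_sub_distrib]
      refine Finset.sum_congr rfl fun i _ => ?_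
      ring
    rw [h1]
    refine (lfS_abs_le _ _ _).trans_lt ?_
    have h2 : ∑ i : Fin n, |t ^ (i.1 + 1)| ≤ n * t := by
      have h3 : ∀ i ∈ (univ : Finset (Fin n)), |t ^ (i.1 + 1)| ≤ t := fun i _ => by
        rw [abs_of_pos (htp i)]
        exact htle i
      have h4 := Finset.sum_le_card_nsmul univ _ _ h3
      rw [Finset.card_univ, Fintype.card_fin, nsmul_eq_mul] at h4
      exact h4
    have h5 : t < |lf a x0| / (n + 1) := lt_of_lt_of_le htd (min_le_right _ _)
    have hn1 : (0 : ℝ) < (n : ℝ) + 1 := by positivity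
    rw [lt_div_iff₀ hn1] at h5
    refine h2.trans_lt ?_
    nlinarith
  have hsg : ∀ x, lf (fun i => |a i| + t ^ (i.1 + 1)) x ≠ 0 ∧
      sg (lf (fun i => |a i| + t ^ (i.1 + 1)) x) = sg (lf a (TwoBlock.flip z x)) := fun x =>
    g1_sg (hmin _) (hdiff x)
  refine ⟨fun i => |a i| + t ^ (i.1 + 1), fun i => ⟨?_, ?_⟩, fun i j hij => hirr i j hij,
    fun x => (hsg x).1, fun i => ?_⟩
  · linarith [htp i]
  · have h5 : t < ε := lt_of_lt_of_le htd (min_le_left _ _)
    linarith [htle i]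
  · have h1 : cw (fun i => |a i| + t ^ (i.1 + 1)) i =
        Ex fun x => sg (lf a (TwoBlock.flip z x)) * sb (x i) := by
      unfold cw
      congr 1
      funext x
      rw [(hsg x).2]
    have h2 : cw a i = sb (z i) * Ex fun x => sg (lf a (TwoBlock.flip z x)) * sb (x i) := by
      unfold cw
      rw [← Ex_equiv (g1Equiv z) (fun x => sg (lf a x) * sb (x i)), ← Ex_mul]
      congr 1
      funext x
      change sg (lf a (TwoBlock.flip z x)) * sb (xor (z i) (x i)) = _
      rw [sb_xor]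
      ring
    rw [h1, h2, mul_pow]
    have h3 : sb (z i) ^ 2 = 1 := by
      rw [pow_two, sb_mul_self]
    rw [h3, one_mul]

end Pool.Agent.MP_cb3c9c_an.REG
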