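import Pool.Agent.MP_cb3c9c_an.REG.Base

set_option autoImplicit false

open Finset MeasureTheory
open scoped BigOperators

namespace Pool.Agent.MP_cb3c9c_an.REG

open Pool.Agent.MP_cb3c9c_an.TwoBlock

variable {n : ℕ}

/-- ROW REG-G2 (two statements).  Avoiding ties by a small perturbation.

PROOF.  For every `x` and `m` the equation `σ' * X x = 2 m` has exactly one solution; so the bad set of `σ'` is countable,
while `[σ, σ+ε]` is not. -/
theorem no_hit_scalar (X : (Fin n → Bool) → ℝ) (hX : ∀ x, X x ≠ 0) (σ : ℝ) {ε : ℝ} (hε : 0 < ε) :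
    ∃ σ' : ℝ, σ ≤ σ' ∧ σ' ≤ σ + ε ∧ ∀ x, ∀ m : ℤ, σ' * X x ≠ 2 * m := by
  have hc : (Set.range fun p : (Fin n → Bool) × ℤ => 2 * (p.2 : ℝ) / X p.1).Countable :=
    Set.countable_range _
  have hn : ¬ (Set.Ioo σ (σ + ε)).Countable := by
    rw [Cardinal.Real.Ioo_countable_iff]
    linarith
  have hs : ∃ σ' ∈ Set.Ioo σ (σ + ε),
      σ' ∉ Set.range fun p : (Fin n → Bool) × ℤ => 2 * (p.2 : ℝ) / X p.1 := by
    by_contra hcon
    push Not at hcon
    exact hn (hc.mono hcon)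
  obtain ⟨σ', h1, h2⟩ := hs
  refine ⟨σ', h1.1.le, h1.2.le, fun x m h => h2 ⟨(x, m), ?_⟩⟩
  change 2 * (m : ℝ) / X x = σ'
  rw [← h, mul_div_assoc, div_self (hX x), mul_one]

/-- PROOF.  `w i = 2^i`; `lfS I w x ≠ 0` for all `x` (`I` nonempty: the largest term dominates, or parity of
`∑ ± 2^{i - i_min}`).  `ν' = ν + t w`, `0 < t` small: for every `x` and `m` the equation
`c x - u * (lfS I ν x + t lfS I w x) = 2 m` has exactly one solution `t` (`u ≠ 0`), so the bad `t` are countable. -/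
theorem no_hit_vec {I : Finset (Fin n)} (hI : I.Nonempty) (c : (Fin n → Bool) → ℝ) {u : ℝ}
    (hu : u ≠ 0) (ν : Fin n → ℝ) {ε : ℝ} (hε : 0 < ε) :
    ∃ ν' : Fin n → ℝ, ∑ i ∈ I, (ν' i - ν i) ^ 2 ≤ ε ^ 2 ∧
      ∀ x, ∀ m : ℤ, c x - u * lfS I ν' x ≠ 2 * m := by
  classical
  obtain ⟨i0, hi0⟩ := hI
  have hsb : ∀ b : Bool, sb b ≠ 0 := by
    intro b
    cases b <;> simp
  have hlf : ∀ (t : ℝ) (x : Fin n → Bool),
      lfS I (fun i => ν i + if i = i0 then t else 0) x = lfS I ν x + t * sb (x i0) := by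
    intro t x
    unfold lfS
    simp only [add_mul, ite_mul, zero_mul]
    rw [Finset.sum_add_distrib, Finset.sum_ite_eq' I i0 (fun i => t * sb (x i)), if_pos hi0]
  have hc : (Set.range fun p : (Fin n → Bool) × ℤ =>
      ((c p.1 - 2 * (p.2 : ℝ)) / u - lfS I ν p.1) / sb (p.1 i0)).Countable :=
    Set.countable_range _
  have hn : ¬ (Set.Ioo 0 ε).Countable := by
    rw [Cardinal.Real.Ioo_countable_iff]
    linarith
  have hs : ∃ t ∈ Set.Ioo 0 ε, t ∉ Set.range fun p : (Fin n → Bool) × ℤ =>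
      ((c p.1 - 2 * (p.2 : ℝ)) / u - lfS I ν p.1) / sb (p.1 i0) := by
    by_contra hcon
    push Not at hcon
    exact hn (hc.mono hcon)
  obtain ⟨t, h1, h2⟩ := hs
  refine ⟨fun i => ν i + if i = i0 then t else 0, ?_, fun x m h => h2 ⟨(x, m), ?_⟩⟩
  · have h3 : ∀ i ∈ I, ((ν i + if i = i0 then t else 0) - ν i) ^ 2 =
        if i = i0 then t ^ 2 else 0 := by
      intro i _
      split_ifs <;> ring
    rw [Finset.sum_congr rfl h3, Finset.sum_ite_eq' I i0 (fun _ => t ^ 2), if_pos hi0]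
    exact pow_le_pow_left₀ h1.1.le h1.2.le 2
  · change ((c x - 2 * (m : ℝ)) / u - lfS I ν x) / sb (x i0) = t
    rw [hlf] at h
    rw [div_eq_iff (hsb _), sub_eq_iff_eq_add, div_eq_iff hu]
    linarith

end Pool.Agent.MP_cb3c9c_an.REG
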