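import Pool.Agent.MP_cb3c9c_an.REG.GMa

set_option autoImplicit false

open Finset MeasureTheory
open scoped BigOperators

namespace Pool.Agent.MP_cb3c9c_an.REG

open Pool.Agent.MP_cb3c9c_an.TwoBlock

variable {n : ℕ}

lemma gm_TT_bounds (a : Fin n → ℝ) (s : ℝ) :
    4 / Real.pi ^ 2 * TT a s ≤ 2 / 3 ∧ -(2 / 3) ≤ 4 / Real.pi ^ 2 * TT a s := by
  have h0 : 0 < Real.pi ^ 2 := by positivity
  have e : 4 / Real.pi ^ 2 * (Real.pi ^ 2 / 6) = 2 / 3 := by field_simp; norm_num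
  constructor
  · rw [← e]
    exact mul_le_mul_of_nonneg_left (TT_le a s) (by positivity)
  · have : 4 / Real.pi ^ 2 * -(Real.pi ^ 2 / 6) = -(2 / 3) := by rw [mul_neg, e]
    rw [← this]
    exact mul_le_mul_of_nonneg_left (TT_ge a s) (by positivity)

lemma V_bound {a : Fin n → ℝ} {δ σ σ' V : ℝ} (h : Reg a δ) (hσ : 100 ≤ σ)
    (hσσ : |σ' - σ| ≤ 1 / 10 ^ 6) (hhit : ∀ x, ∀ m : ℤ, σ' * lf a x ≠ 2 * m)
    (hV : (2 / Real.pi) * (1 / σ' ^ 2) * (∑ i, sc a σ' i ^ 2 - 1 / 10 ^ 6) ≤ V) :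
    (2 / Real.pi) * (1 / σ ^ 2) * (4 / Real.pi ^ 2 * TT a (Real.pi * σ) - 1 / 9 - 0.006) ≤ V := by
  obtain ⟨p1, p2, p3, p4, p5, p6⟩ := pi_facts
  have hsw := saw_weight a σ' hhit
  have hEx : Ex (fun x => saw (σ' * lf a x) ^ 2) =
      1 / 3 + (4 / Real.pi ^ 2) * TT a (Real.pi * σ') := Ex_saw_sq a σ'
  have hclose : |TT a (Real.pi * σ') - TT a (Real.pi * σ)| ≤
      5 * Real.sqrt |Real.pi * σ' - Real.pi * σ| := tsum_PP_close a h.unit.le _ _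
  have hsq : Real.sqrt |Real.pi * σ' - Real.pi * σ| ≤ 0.0018 := by
    apply Real.sqrt_le_iff.mpr ⟨by norm_num, ?_⟩
    have e : Real.pi * σ' - Real.pi * σ = Real.pi * (σ' - σ) := by ring
    rw [e, abs_mul, abs_of_pos Real.pi_pos]
    have hpi := Real.pi_lt_d2
    calc Real.pi * |σ' - σ| ≤ 3.15 * (1 / 10 ^ 6) :=
          mul_le_mul hpi.le hσσ (abs_nonneg _) (by norm_num)
      _ ≤ 0.0018 ^ 2 := by norm_num
  have hT : TT a (Real.pi * σ) - 0.009 ≤ TT a (Real.pi * σ') := by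
    have := (abs_le.mp hclose).1
    linarith
  obtain ⟨b1, b2⟩ := gm_TT_bounds a (Real.pi * σ)
  obtain ⟨X, hX⟩ : ∃ X, X = 4 / Real.pi ^ 2 * TT a (Real.pi * σ) - 1 / 9 - 0.0037 := ⟨_, rfl⟩
  have hX1 : |X| ≤ 1 := by rw [hX, abs_le]; constructor <;> linarith
  have hXc : X ≤ ∑ i, sc a σ' i ^ 2 - 1 / 10 ^ 6 := by
    have h1 : 4 / Real.pi ^ 2 * (TT a (Real.pi * σ) - 0.009) ≤
        4 / Real.pi ^ 2 * TT a (Real.pi * σ') := mul_le_mul_of_nonneg_left hT (by positivity)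
    rw [hEx] at hsw
    rw [hX]
    linarith
  have h1 := inv_sq_close hσ hσσ hX1
  have hpi0 : 0 < 2 / Real.pi := by positivity
  have h2 : 1 / σ' ^ 2 * X ≤ 1 / σ' ^ 2 * (∑ i, sc a σ' i ^ 2 - 1 / 10 ^ 6) :=
    mul_le_mul_of_nonneg_left hXc (by positivity)
  have h3 : 1 / σ ^ 2 * (4 / Real.pi ^ 2 * TT a (Real.pi * σ) - 1 / 9 - 0.006) ≤
      1 / σ ^ 2 * (X - 1 / 1000) := by
    apply mul_le_mul_of_nonneg_left _ (by positivity)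
    rw [hX]; linarith
  calc (2 / Real.pi) * (1 / σ ^ 2) * (4 / Real.pi ^ 2 * TT a (Real.pi * σ) - 1 / 9 - 0.006)
      = (2 / Real.pi) * (1 / σ ^ 2 * (4 / Real.pi ^ 2 * TT a (Real.pi * σ) - 1 / 9 - 0.006)) := by
        ring
    _ ≤ (2 / Real.pi) * (1 / σ' ^ 2 * (∑ i, sc a σ' i ^ 2 - 1 / 10 ^ 6)) :=
        mul_le_mul_of_nonneg_left (h3.trans (h1.trans h2)) hpi0.le
    _ = (2 / Real.pi) * (1 / σ' ^ 2) * (∑ i, sc a σ' i ^ 2 - 1 / 10 ^ 6) := by ring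
    _ ≤ V := hV

/-- numerics, case A -/
lemma num_A {κ z g W η x : ℝ} (hκ : 0 < κ) (hz : 0 ≤ z) (hx : 0 < x) (hx1 : x ≤ 1)
    (hg : g ≤ 2 / 3) (hzκ : z * (4 + x) ≤ κ) (hη : η = x / 400)
    (hW : 2 / Real.pi * (1 + (κ / 6 - z * g)) - 2 * (η * κ) ≤ W) :
    2 / Real.pi + x / 100 * κ ≤ W := by
  obtain ⟨p1, p2, p3, p4, p5, p6⟩ := pi_facts
  have h1 : z * g ≤ z * (2 / 3) := mul_le_mul_of_nonneg_left hg hz
  have h2 : z ≤ κ / 4 * (1 - x / 5) := by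
    have h3 : κ * 4 ≤ κ * (4 + x) * (1 - x / 5) := by
      have : 4 ≤ (4 + x) * (1 - x / 5) := by nlinarith
      calc κ * 4 ≤ κ * ((4 + x) * (1 - x / 5)) := mul_le_mul_of_nonneg_left this hκ.le
        _ = κ * (4 + x) * (1 - x / 5) := by ring
    have h4 : z * (4 + x) * 4 ≤ (κ * (1 - x / 5)) * (4 + x) := by linarith
    have h5 : z * 4 ≤ κ * (1 - x / 5) := by
      have h6 : (z * 4) * (4 + x) ≤ (κ * (1 - x / 5)) * (4 + x) := by linarith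
      exact le_of_mul_le_mul_right h6 (by linarith)
    linarith
  have h3 : κ * x / 30 ≤ κ / 6 - z * g := by linarith
  have h4 : 0.636 * (κ * x / 30) ≤ 2 / Real.pi * (κ / 6 - z * g) :=
    mul_le_mul p3 h3 (by positivity) (by positivity)
  have h5 : 0 < κ * x := by positivity
  rw [hη] at hW
  linarith

lemma num_B {κ z g D2 V η : ℝ} (hκ : 0 < κ) (hz : 0 ≤ z) (hη1 : η ≤ 1 / 1000)
    (hzκ : z * (1 - η) ≤ κ)
    (hD : 2 / Real.pi * (1 + (κ / 6 - z * g)) - 2 * (η * κ) ≤ D2)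
    (hV : (2 / Real.pi) * z * (g - 1 / 9 - 0.006) ≤ V) :
    2 / Real.pi + 1 / 100 * κ ≤ D2 + V := by
  obtain ⟨p1, p2, p3, p4, p5, p6⟩ := pi_facts
  have h0 : z * (999 / 1000) ≤ z * (1 - η) := mul_le_mul_of_nonneg_left (by linarith) hz
  have h1 : κ / 25 ≤ κ / 6 - z * (1 / 9 + 0.006) := by linarith
  have h2 : 0.636 * (κ / 25) ≤ 2 / Real.pi * (κ / 6 - z * (1 / 9 + 0.006)) :=
    mul_le_mul p3 h1 (by positivity) (by positivity)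
  have h3 : η * κ ≤ 1 / 1000 * κ := mul_le_mul_of_nonneg_right hη1 hκ.le
  have e : 2 / Real.pi * (κ / 6 - z * (1 / 9 + 0.006)) =
      2 / Real.pi * (κ / 6 - z * g) + (2 / Real.pi) * z * (g - 1 / 9 - 0.006) := by ring
  linarith

lemma num_C1 {κ z g W η : ℝ} (hκ : 0 < κ) (hz : 0 ≤ z) (hη1 : η ≤ 1 / 1000)
    (hzκ : z * 3.99 ≤ κ) (hg : g ≤ 2 / 3 - 0.2)
    (hW : 2 / Real.pi * (1 + (κ / 6 - z * g)) - 2 * (η * κ) ≤ W) :
    2 / Real.pi + 1 / 100 * κ ≤ W := by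
  obtain ⟨p1, p2, p3, p4, p5, p6⟩ := pi_facts
  have h1 : z * g ≤ z * (2 / 3 - 0.2) := mul_le_mul_of_nonneg_left hg hz
  have h2 : κ / 25 ≤ κ / 6 - z * g := by linarith
  have h3 : 0.636 * (κ / 25) ≤ 2 / Real.pi * (κ / 6 - z * g) :=
    mul_le_mul p3 h2 (by positivity) (by positivity)
  have h4 : η * κ ≤ 1 / 1000 * κ := mul_le_mul_of_nonneg_right hη1 hκ.le
  linarith

lemma num_C2 {κ z g D2 V η : ℝ} (hκ : 0 < κ) (hη1 : η ≤ 1 / 1000)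
    (hzκ : z * 3.99 ≤ κ)
    (hD : 2 / Real.pi * (1 + (κ / 6 - z * g)) - 2 * (η * κ) ≤ D2)
    (hV : (2 / Real.pi) * z * (g - 4 / 9 - 0.032) ≤ V) :
    2 / Real.pi + 1 / 100 * κ ≤ D2 + V := by
  obtain ⟨p1, p2, p3, p4, p5, p6⟩ := pi_facts
  have h1 : κ / 25 ≤ κ / 6 - z * (4 / 9 + 0.032) := by linarith
  have h2 : 0.636 * (κ / 25) ≤ 2 / Real.pi * (κ / 6 - z * (4 / 9 + 0.032)) :=
    mul_le_mul p3 h1 (by positivity) (by positivity)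
  have h3 : η * κ ≤ 1 / 1000 * κ := mul_le_mul_of_nonneg_right hη1 hκ.le
  have e : 2 / Real.pi * (κ / 6 - z * (4 / 9 + 0.032)) =
      2 / Real.pi * (κ / 6 - z * g) + (2 / Real.pi) * z * (g - 4 / 9 - 0.032) := by ring
  linarith

lemma gm_W {a : Fin n → ℝ} (h1 : ∑ i, a i ^ 2 = 1) :
    ∑ i, cw a i ^ 2 = DD a ^ 2 + ∑ i, (cw a i - DD a * a i) ^ 2 := by
  have e : ∀ i, (cw a i - DD a * a i) ^ 2 =
      cw a i ^ 2 - 2 * DD a * (a i * cw a i) + DD a ^ 2 * a i ^ 2 := fun i => by ring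
  rw [Finset.sum_congr rfl fun i _ => e i, Finset.sum_add_distrib, Finset.sum_sub_distrib,
    ← Finset.mul_sum, ← Finset.mul_sum, sum_mul_cw, h1]
  ring

lemma gm_yz {κ τ T : ℝ} : 2 * (κ / 12 - (2 / (Real.pi * τ) ^ 2) * T) =
    κ / 6 - 1 / τ ^ 2 * (4 / Real.pi ^ 2 * T) := by
  rw [mul_pow]
  by_cases h : τ = 0
  · rw [h]; simp; ring
  · have hpi := Real.pi_ne_zero
    field_simp
    ring

lemma exp_small {x : ℝ} (h : 1 / 2 < Real.exp (-(Real.pi ^ 2 * x) / 2 + 1 / 20)) : x ≤ 0.16 := by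
  obtain ⟨p1, p2, p3, p4, p5, p6⟩ := pi_facts
  by_contra hcon
  push Not at hcon
  have h1 : Real.exp (-(Real.pi ^ 2 * x) / 2 + 1 / 20) ≤ Real.exp (-0.7) := by
    apply Real.exp_le_exp.mpr
    have : 9.869 * 0.16 ≤ Real.pi ^ 2 * x := mul_le_mul p5 hcon.le (by norm_num) (by positivity)
    linarith
  have h2 : Real.exp (-0.7) ≤ 1 / 2 := by
    rw [Real.exp_neg]
    rw [one_div]
    apply inv_anti₀ (by norm_num)
    have := Real.quadratic_le_exp_of_nonneg (by norm_num : (0:ℝ) ≤ 0.7)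
    have h3 : Real.exp 0.7 = Real.exp 0.35 ^ 2 := by rw [← Real.exp_nat_mul]; norm_num
    have h4 := Real.quadratic_le_exp_of_nonneg (by norm_num : (0:ℝ) ≤ 0.35)
    rw [h3]
    have h5 : (1 + 0.35 + 0.35 ^ 2 / 2) ^ 2 ≤ Real.exp 0.35 ^ 2 :=
      pow_le_pow_left₀ (by norm_num) h4 2
    have h6 : (1.411 : ℝ) ^ 2 ≤ (1 + 0.35 + 0.35 ^ 2 / 2) ^ 2 := by norm_num
    have h7 : (0 : ℝ) < Real.exp (0.35 / 2) := Real.exp_pos _
    have h8 := Real.quadratic_le_exp_of_nonneg (by norm_num : (0:ℝ) ≤ 0.35 / 2)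
    have h9 : Real.exp 0.35 = Real.exp (0.35 / 2) ^ 2 := by rw [← Real.exp_nat_mul]; norm_num
    have h10 : (1 + 0.35 / 2 + (0.35 / 2) ^ 2 / 2) ^ 2 ≤ Real.exp (0.35 / 2) ^ 2 :=
      pow_le_pow_left₀ (by norm_num) h8 2
    have h11 : (1.4151 : ℝ) ≤ (1 + 0.35 / 2 + (0.35 / 2) ^ 2 / 2) ^ 2 := by norm_num
    have h12 : (1.4151 : ℝ) ≤ Real.exp 0.35 := by rw [h9]; linarith
    have h13 : (1.4151 : ℝ) ^ 2 ≤ Real.exp 0.35 ^ 2 := pow_le_pow_left₀ (by norm_num) h12 2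
    have h14 : (2 : ℝ) ≤ 1.4151 ^ 2 := by norm_num
    linarith
  linarith

end Pool.Agent.MP_cb3c9c_an.REG
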