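import Pool.Agent.MP_cb3c9c_an.REG.L2

set_option autoImplicit false

open Finset MeasureTheory
open scoped BigOperators

namespace Pool.Agent.MP_cb3c9c_an.REG

open Pool.Agent.MP_cb3c9c_an.TwoBlock

variable {n : ℕ}

lemma L3_left (F : (Fin n → Bool) → ℝ) (z : Fin n → Bool) :
    (Ex fun x => (Ex fun y => F (mix z x y)) ^ 2) = ∑ S : Finset (Fin n), fh F S ^ 2 * inU z S := by
  have e2 : ∀ u : Fin n → Bool, (Ex fun y => F (mix z u y)) =
      ∑ S : Finset (Fin n), (fh F S * inU z S) * chi S u := by
    intro u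
    have : (fun y => F (mix z u y)) = fun y => ∑ S : Finset (Fin n), fh F S * chi S (mix z u y) := by
      funext y; exact inversion F _
    rw [this, Ex_sum]
    simp only [Ex_mul, chi_mix_left]
    exact Finset.sum_congr rfl fun S _ => by ring
  simp only [e2]
  rw [parseval']
  exact Finset.sum_congr rfl fun S _ => by rw [mul_pow, inU_sq]

lemma L3_right (F : (Fin n → Bool) → ℝ) (z : Fin n → Bool) :
    (Ex fun y => (Ex fun x => F (mix z x y)) ^ 2) = ∑ S : Finset (Fin n), fh F S ^ 2 * outU z S := by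
  have e2 : ∀ u : Fin n → Bool, (Ex fun x => F (mix z x u)) =
      ∑ S : Finset (Fin n), (fh F S * outU z S) * chi S u := by
    intro u
    have : (fun x => F (mix z x u)) = fun x => ∑ S : Finset (Fin n), fh F S * chi S (mix z x u) := by
      funext x; exact inversion F _
    rw [this, Ex_sum]
    simp only [Ex_mul, chi_mix_right]
    exact Finset.sum_congr rfl fun S _ => by ring
  simp only [e2]
  rw [parseval']
  exact Finset.sum_congr rfl fun S _ => by rw [mul_pow, outU_sq]

lemma L3_even (F : (Fin n → Bool) → ℝ) (hF : ∀ x, F (negEquiv x) = - F x) (S : Finset (Fin n))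
    (hS : Even S.card) : fh F S = 0 := by
  unfold fh
  apply Ex_odd
  intro x
  have h1 : chi S (negEquiv x) = (-1) ^ S.card * chi S x := chi_not S x
  rw [hF, h1, hS.neg_one_pow]
  ring

lemma L3_one (c : Finset (Fin n) → ℝ) :
    ∑ S : Finset (Fin n), (if S.card = 1 then c S else 0) = ∑ i, c {i} := by
  rw [← Finset.sum_filter]
  have hset : (univ.filter (fun S : Finset (Fin n) => S.card = 1)) =
      ((univ : Finset (Fin n)).image fun i => ({i} : Finset (Fin n))) := by
    ext S
    simp only [mem_filter, mem_univ, true_and, mem_image]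
    constructor
    · intro hS
      obtain ⟨i, hi⟩ := Finset.card_eq_one.mp hS
      exact ⟨i, hi.symm⟩
    · rintro ⟨i, rfl⟩
      simp
  rw [hset, Finset.sum_image]
  intro i _ j _ hij
  simpa using hij

/-- ROW REG-L3 (averaging over the partitions).

PROOF.  `F x = saw (s * lf a x)`.  For `z : Fin n → Bool` put `X x = ∑_i if z i then s a_i sb (x i) else 0`,
`Y y = ∑_i if z i then 0 else s a_i sb (y i)`, so `X x + Y y = s * lf a (mix z x y)`, never an even integer.
`saw_core` gives `E F² ≤ 1/3 + E_x (E_y F (mix z x y))² + E_y (E_x F (mix z x y))²` (`Ex_mix` for the first term;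
drop the square `(E F)²`).  By `inversion`, `chi_mix_left`, `chi_mix_right`, `parseval'`, `inU_sq`, `outU_sq` (exactly as in
`block_ineq` of `TwoBlockMain.lean`) the last two terms are `∑_S F̂(S)² inU z S` and `∑_S F̂(S)² outU z S`.
Average over `z` (`Ex_inU`, `Ex_outU`): `E F² ≤ 1/3 + ∑_S 2 (1/2)^{|S|} F̂(S)²`.
`F` is odd: `F (negEquiv x) = - F x` (`saw_neg`, `lfS_neg`), so `F̂(S) = 0` for `|S|` even.  Hence with
`W₁ = ∑_i F̂({i})² = ∑_i (sc a s i)²`: `E F² ≤ 1/3 + W₁ + (1/4) (E F² - W₁)`  (`parseval`), i.e.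
`E F² ≤ 4/9 + W₁`. -/
theorem saw_weight (a : Fin n → ℝ) (s : ℝ) (hne : ∀ x, ∀ m : ℤ, s * lf a x ≠ 2 * m) :
    Ex (fun x => saw (s * lf a x) ^ 2) ≤ 4 / 9 + ∑ i, sc a s i ^ 2 := by
  set F : (Fin n → Bool) → ℝ := fun x => saw (s * lf a x) with hF
  have hodd : ∀ x, F (negEquiv x) = - F x := by
    intro x
    have h1 : s * lf a (negEquiv x) = -(s * lf a x) := by
      rw [lf_eq, lfS_neg, ← lf_eq]; ring
    simp only [hF]
    rw [h1, saw_neg (hne x)]
  have hsc : ∀ i, fh F {i} = sc a s i := by
    intro i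
    unfold fh sc
    congr 1; funext x
    simp [chi, hF]
  -- one partition
  have block : ∀ z : Fin n → Bool, Ex (fun x => F x ^ 2) ≤
      1 / 3 + (∑ S : Finset (Fin n), fh F S ^ 2 * inU z S) +
        ∑ S : Finset (Fin n), fh F S ^ 2 * outU z S := by
    intro z
    have hXY : ∀ x y : Fin n → Bool, (∑ i, if z i then s * a i * sb (x i) else 0) +
        (∑ i, if z i then 0 else s * a i * sb (y i)) = s * lf a (mix z x y) := by
      intro x y
      unfold lf
      rw [mul_sum, ← Finset.sum_add_distrib]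
      apply Finset.sum_congr rfl
      intro i _
      unfold mix
      cases z i <;> simp <;> ring
    have core := saw_core (fun x : Fin n → Bool => ∑ i, if z i then s * a i * sb (x i) else 0)
      (fun y : Fin n → Bool => ∑ i, if z i then 0 else s * a i * sb (y i)) (by
        intro x y m
        rw [hXY]
        exact hne _ m)
    simp only [hXY] at core
    have c1 : (Ex fun x => Ex fun y => saw (s * lf a (mix z x y)) ^ 2) = Ex (fun x => F x ^ 2) :=
      Ex_mix (fun x => F x ^ 2) z
    have c2 := L3_left F z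
    have c3 := L3_right F z
    simp only [hF] at c2 c3
    rw [c1, c2, c3] at core
    have := sq_nonneg (Ex fun x => Ex fun y => saw (s * lf a (mix z x y)))
    linarith
  -- average
  have h := Ex_mono block
  rw [Ex_const, Ex_add, Ex_add, Ex_const, Ex_sum, Ex_sum] at h
  simp only [Ex_mul, Ex_inU, Ex_outU] at h
  have hterm : ∀ S : Finset (Fin n), fh F S ^ 2 * (1 / 2) ^ S.card + fh F S ^ 2 * (1 / 2) ^ S.card ≤
      (1 / 4) * fh F S ^ 2 + (3 / 4) * (if S.card = 1 then fh F S ^ 2 else 0) := by
    intro S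
    rcases Nat.even_or_odd S.card with he | ho
    · rw [L3_even F hodd S he]
      simp
    · rcases Nat.lt_or_ge S.card 3 with h3 | h3
      · have h1 : S.card = 1 := by
          obtain ⟨k, hk⟩ := ho
          omega
        rw [if_pos h1, h1]
        linarith
      · have h1 : S.card ≠ 1 := by omega
        rw [if_neg h1]
        have h4 : ((1 : ℝ) / 2) ^ S.card ≤ (1 / 2) ^ 3 :=
          pow_le_pow_of_le_one (by norm_num) (by norm_num) h3
        have h5 : fh F S ^ 2 * (1 / 2) ^ S.card ≤ fh F S ^ 2 * (1 / 2) ^ 3 :=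
          mul_le_mul_of_nonneg_left h4 (sq_nonneg _)
        linarith
  have hsum := Finset.sum_le_sum (fun S (_ : S ∈ (univ : Finset (Finset (Fin n)))) => hterm S)
  rw [Finset.sum_add_distrib, Finset.sum_add_distrib, ← mul_sum, ← mul_sum, L3_one, ← parseval] at hsum
  simp only [hsc] at hsum
  linarith

end Pool.Agent.MP_cb3c9c_an.REG
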