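import Pool.Agent.MP_cb3c9c_an.REG.Base

set_option autoImplicit false

open Finset MeasureTheory
open scoped BigOperators

namespace Pool.Agent.MP_cb3c9c_an.REG

open Pool.Agent.MP_cb3c9c_an.TwoBlock

variable {n : ℕ}

/-- Fourier series of the square of the sawtooth. -/
theorem hasSum_saw_sq (t : ℝ) :
    HasSum (fun m : ℕ => Real.cos (((m : ℝ) + 1) * (Real.pi * t)) / ((m : ℝ) + 1) ^ 2)
      (Real.pi ^ 2 / 4 * (saw t ^ 2 - 1 / 3)) := by
  have hy : Int.fract (t / 2) ∈ Set.Icc (0 : ℝ) 1 :=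
    ⟨Int.fract_nonneg _, (Int.fract_lt_one _).le⟩
  have h := hasSum_one_div_nat_pow_mul_cos one_ne_zero hy
  rw [← hasSum_nat_add_iff' 1] at h
  simp only [Finset.sum_range_one, Nat.cast_zero] at h
  have e1 : (Polynomial.map (algebraMap ℚ ℝ) (Polynomial.bernoulli (2 * 1))).eval
      (Int.fract (t / 2)) = Int.fract (t / 2) ^ 2 - Int.fract (t / 2) + 6⁻¹ :=
    bernoulliFun_two _
  rw [e1] at h
  have e2 : (-1 : ℝ) ^ (1 + 1) * (2 * Real.pi) ^ (2 * 1) / 2 / ((2 * 1).factorial : ℕ) *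
      (Int.fract (t / 2) ^ 2 - Int.fract (t / 2) + 6⁻¹) -
        1 / (0 : ℝ) ^ (2 * 1) * Real.cos (2 * Real.pi * 0 * Int.fract (t / 2)) =
      Real.pi ^ 2 / 4 * (saw t ^ 2 - 1 / 3) := by
    unfold saw
    norm_num [Nat.factorial]
    ring
  rw [e2] at h
  have e3 : (fun m : ℕ => Real.cos (((m : ℝ) + 1) * (Real.pi * t)) / ((m : ℝ) + 1) ^ 2) =
      fun m : ℕ => 1 / ((m + 1 : ℕ) : ℝ) ^ (2 * 1) *
        Real.cos (2 * Real.pi * ((m + 1 : ℕ) : ℝ) * Int.fract (t / 2)) := by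
    funext m
    have e4 : 2 * Real.pi * ((m + 1 : ℕ) : ℝ) * Int.fract (t / 2) =
        ((m : ℝ) + 1) * (Real.pi * t) - (((m + 1 : ℕ) : ℤ) * ⌊t / 2⌋ : ℤ) * (2 * Real.pi) := by
      rw [Int.fract]
      push_cast
      ring
    rw [e4, Real.cos_sub_int_mul_two_pi]
    push_cast
    rw [one_div_mul_eq_div]
  rw [e3]
  exact h

theorem hasSum_Ex {α : Type} [Fintype α] {f : ℕ → α → ℝ} {g : α → ℝ}
    (h : ∀ x, HasSum (fun m => f m x) (g x)) : HasSum (fun m => Ex (f m)) (Ex g) := by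
  unfold Ex
  exact (hasSum_sum fun x _ => h x).div_const _

theorem hasSum_PP_saw (a : Fin n → ℝ) (s : ℝ) :
    HasSum (fun m : ℕ => PP a (((m : ℝ) + 1) * (Real.pi * s)) / ((m : ℝ) + 1) ^ 2)
      (Real.pi ^ 2 / 4 * (Ex (fun x => saw (s * lf a x) ^ 2) - 1 / 3)) := by
  have h := hasSum_Ex fun x : Fin n → Bool => hasSum_saw_sq (s * lf a x)
  have e1 : Ex (fun x : Fin n → Bool => Real.pi ^ 2 / 4 * (saw (s * lf a x) ^ 2 - 1 / 3)) =
      Real.pi ^ 2 / 4 * (Ex (fun x => saw (s * lf a x) ^ 2) - 1 / 3) := by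
    rw [Ex_mul, Ex_sub, Ex_const]
  rw [e1] at h
  have e2 : (fun m : ℕ => Ex fun x : Fin n → Bool =>
      Real.cos (((m : ℝ) + 1) * (Real.pi * (s * lf a x))) / ((m : ℝ) + 1) ^ 2) =
      fun m : ℕ => PP a (((m : ℝ) + 1) * (Real.pi * s)) / ((m : ℝ) + 1) ^ 2 := by
    funext m
    have e3 : (fun x : Fin n → Bool =>
        Real.cos (((m : ℝ) + 1) * (Real.pi * (s * lf a x))) / ((m : ℝ) + 1) ^ 2) =
        fun x => Real.cos ((((m : ℝ) + 1) * (Real.pi * s)) * lf a x + 0) * (1 / ((m : ℝ) + 1) ^ 2) := by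
      funext x
      rw [add_zero, mul_one_div]
      congr 2
      ring
    rw [e3, Ex_mul', Ex_cos_lf, Real.cos_zero, one_mul, mul_one_div]
  rw [e2] at h
  exact h

/-- ROW REG-L4 (Fourier series of the square of the sawtooth). -/
theorem Ex_saw_sq (a : Fin n → ℝ) (s : ℝ) :
    Ex (fun x => saw (s * lf a x) ^ 2) =
      1 / 3 + (4 / Real.pi ^ 2) * ∑' m : ℕ, PP a ((m + 1) * (Real.pi * s)) / (m + 1) ^ 2 := by
  rw [(hasSum_PP_saw a s).tsum_eq]
  have hpi : Real.pi ≠ 0 := Real.pi_ne_zero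
  field_simp
  ring

theorem summable_inv_succ_sq : Summable fun m : ℕ => 1 / ((m : ℝ) + 1) ^ 2 := by
  have h := (summable_nat_add_iff 1).2 (Real.summable_one_div_nat_pow.2 one_lt_two)
  refine h.congr fun m => ?_
  push_cast
  rfl

theorem summable_PP (a : Fin n → ℝ) (s : ℝ) :
    Summable fun m : ℕ => PP a ((m + 1) * s) / ((m : ℝ) + 1) ^ 2 := by
  refine Summable.of_norm_bounded summable_inv_succ_sq fun m => ?_
  rw [Real.norm_eq_abs, abs_div, abs_of_nonneg (by positivity : (0:ℝ) ≤ ((m : ℝ) + 1) ^ 2)]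
  exact div_le_div_of_nonneg_right (abs_PP_le_one a _) (by positivity)

theorem sum_three_half (N : ℕ) :
    ∑ m ∈ Finset.range (N + 1), 1 / (((m : ℝ) + 1) * Real.sqrt ((m : ℝ) + 1)) ≤
      3 - 2 / Real.sqrt ((N : ℝ) + 1) := by
  induction N with
  | zero => norm_num
  | succ N ih =>
    rw [Finset.sum_range_succ]
    push_cast
    set u := Real.sqrt ((N : ℝ) + 1) with hu
    set v := Real.sqrt ((N : ℝ) + 1 + 1) with hv
    have hu0 : 0 < u := Real.sqrt_pos.2 (by positivity)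
    have hv0 : 0 < v := Real.sqrt_pos.2 (by positivity)
    have hu2 : u ^ 2 = (N : ℝ) + 1 := Real.sq_sqrt (by positivity)
    have hv2 : v ^ 2 = (N : ℝ) + 1 + 1 := Real.sq_sqrt (by positivity)
    have huv : u ≤ v := Real.sqrt_le_sqrt (by linarith)
    have key : 1 / (((N : ℝ) + 1 + 1) * v) ≤ 2 / u - 2 / v := by
      rw [← hv2, div_sub_div _ _ hu0.ne' hv0.ne', div_le_div_iff₀ (by positivity) (by positivity)]
      have h1 : v ^ 2 - u ^ 2 = 1 := by rw [hu2, hv2]; ring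
      have h2 : (v - u) * (v + u) = 1 := by linarith [h1, (by ring : (v - u) * (v + u) = v ^ 2 - u ^ 2)]
      have h3 : 0 ≤ v - u := by linarith
      -- `u v (u+v) ≤ 2 v³`
      have h4 : u * v ≤ 2 * (v - u) * v ^ 2 * v := by
        have h5 : u * v = u * v * ((v - u) * (v + u)) := by rw [h2, mul_one]
        rw [h5]
        have h6 : u * (v + u) ≤ 2 * v ^ 2 := by nlinarith
        have h7 : 0 ≤ v * (v - u) := by positivity
        nlinarith [mul_le_mul_of_nonneg_left h6 h7]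
      nlinarith
    linarith

theorem sum_three_half' (N : ℕ) :
    ∑ m ∈ Finset.range N, 1 / (((m : ℝ) + 1) * Real.sqrt ((m : ℝ) + 1)) ≤ 3 := by
  cases N with
  | zero => norm_num
  | succ N =>
    have h := sum_three_half N
    have h2 : 0 ≤ 2 / Real.sqrt ((N : ℝ) + 1) := by positivity
    linarith

/-- Continuity in the frequency. -/
theorem tsum_PP_close (a : Fin n → ℝ) (h1 : ∑ i, a i ^ 2 ≤ 1) (s t : ℝ) :
    |(∑' m : ℕ, PP a ((m + 1) * s) / (m + 1) ^ 2) - ∑' m : ℕ, PP a ((m + 1) * t) / (m + 1) ^ 2| ≤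
      5 * Real.sqrt |s - t| := by
  have hs := summable_PP a s
  have ht := summable_PP a t
  rw [← hs.tsum_sub ht]
  have hd := (hs.sub ht).hasSum.tendsto_sum_nat
  refine le_of_tendsto hd.abs (Filter.Eventually.of_forall fun N => ?_)
  refine (Finset.abs_sum_le_sum_abs _ _).trans ?_
  have hterm : ∀ m : ℕ, |PP a (((m : ℝ) + 1) * s) / ((m : ℝ) + 1) ^ 2 -
      PP a (((m : ℝ) + 1) * t) / ((m : ℝ) + 1) ^ 2| ≤
      (Real.sqrt 2 * Real.sqrt |s - t|) * (1 / (((m : ℝ) + 1) * Real.sqrt ((m : ℝ) + 1))) := by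
    intro m
    have hm : (0:ℝ) < (m : ℝ) + 1 := by positivity
    rw [← sub_div, abs_div, abs_of_nonneg (by positivity : (0:ℝ) ≤ ((m : ℝ) + 1) ^ 2)]
    set d := |PP a (((m : ℝ) + 1) * s) - PP a (((m : ℝ) + 1) * t)| with hd
    have hd0 : 0 ≤ d := abs_nonneg _
    have d1 : d ≤ ((m : ℝ) + 1) * |s - t| := by
      have := abs_PP_sub_le a h1 (((m : ℝ) + 1) * s) (((m : ℝ) + 1) * t)
      rw [← mul_sub, abs_mul, abs_of_pos hm] at this
      exact this
    have d2 : d ≤ 2 := by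
      have e1 := abs_PP_le_one a (((m : ℝ) + 1) * s)
      have e2 := abs_PP_le_one a (((m : ℝ) + 1) * t)
      refine (abs_sub _ _).trans ?_
      linarith
    have d3 : d ≤ Real.sqrt 2 * Real.sqrt |s - t| * Real.sqrt ((m : ℝ) + 1) := by
      rw [← Real.sqrt_mul (by norm_num), ← Real.sqrt_mul (by positivity)]
      apply Real.le_sqrt_of_sq_le
      nlinarith
    have hq : Real.sqrt ((m : ℝ) + 1) * Real.sqrt ((m : ℝ) + 1) = (m : ℝ) + 1 :=
      Real.mul_self_sqrt hm.le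
    have hq0 : 0 < Real.sqrt ((m : ℝ) + 1) := Real.sqrt_pos.2 hm
    calc d / ((m : ℝ) + 1) ^ 2 ≤
        (Real.sqrt 2 * Real.sqrt |s - t| * Real.sqrt ((m : ℝ) + 1)) / ((m : ℝ) + 1) ^ 2 :=
          div_le_div_of_nonneg_right d3 (by positivity)
      _ = (Real.sqrt 2 * Real.sqrt |s - t|) * (1 / (((m : ℝ) + 1) * Real.sqrt ((m : ℝ) + 1))) := by
          rw [mul_one_div, div_eq_div_iff (by positivity) (by positivity)]
          linear_combination (Real.sqrt 2 * Real.sqrt |s - t| * ((m : ℝ) + 1)) * hq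
  refine (Finset.sum_le_sum fun m _ => hterm m).trans ?_
  rw [← Finset.mul_sum]
  have h3 := sum_three_half' N
  have h4 : Real.sqrt 2 ≤ 5 / 3 := by
    rw [Real.sqrt_le_left (by norm_num)]
    norm_num
  have h5 : 0 ≤ Real.sqrt |s - t| := Real.sqrt_nonneg _
  calc Real.sqrt 2 * Real.sqrt |s - t| *
      ∑ m ∈ Finset.range N, 1 / (((m : ℝ) + 1) * Real.sqrt ((m : ℝ) + 1)) ≤
      Real.sqrt 2 * Real.sqrt |s - t| * 3 := mul_le_mul_of_nonneg_left h3 (by positivity)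
    _ ≤ 5 * Real.sqrt |s - t| := by nlinarith

end Pool.Agent.MP_cb3c9c_an.REG
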