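import Pool.Agent.MP_cb3c9c_an.REG.RTf

set_option autoImplicit false

open Finset MeasureTheory
open scoped BigOperators

namespace Pool.Agent.MP_cb3c9c_an.REG

open Pool.Agent.MP_cb3c9c_an.TwoBlock

variable {n : ℕ}

lemma rt_square {p t S V η : ℝ} (hp : 0 ≤ p) (ht : 0 ≤ t) (hS : 0 ≤ S) (hS1 : S ≤ 1)
    (hV : 0 ≤ V) (hη : 0 ≤ η) (hη1 : η ≤ 1)
    (h : Real.sqrt p * t * (Real.sqrt S - η / 2) ≤ Real.sqrt V) :
    p * t ^ 2 * (S - η) ≤ V := by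
  obtain ⟨r, hr⟩ : ∃ r, r = Real.sqrt S := ⟨_, rfl⟩
  obtain ⟨v, hv⟩ : ∃ v, v = Real.sqrt V := ⟨_, rfl⟩
  obtain ⟨w, hw⟩ : ∃ w, w = Real.sqrt p := ⟨_, rfl⟩
  have hr2 : r ^ 2 = S := by rw [hr]; exact Real.sq_sqrt hS
  have hv2 : v ^ 2 = V := by rw [hv]; exact Real.sq_sqrt hV
  have hw2 : w ^ 2 = p := by rw [hw]; exact Real.sq_sqrt hp
  have hr0 : 0 ≤ r := by rw [hr]; exact Real.sqrt_nonneg _
  have hw0 : 0 ≤ w := by rw [hw]; exact Real.sqrt_nonneg _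
  rw [← hr, ← hv, ← hw] at h
  have hr1 : r ≤ 1 := by nlinarith
  by_cases hc : η / 2 ≤ r
  · have h1 : (w * t * (r - η / 2)) ^ 2 ≤ v ^ 2 :=
      pow_le_pow_left₀ (by have : 0 ≤ r - η / 2 := by linarith
                           positivity) h 2
    have h2 : (w * t * (r - η / 2)) ^ 2 = p * t ^ 2 * (r - η / 2) ^ 2 := by
      rw [← hw2]; ring
    rw [h2, hv2] at h1
    refine le_trans ?_ h1
    apply mul_le_mul_of_nonneg_left _ (by positivity)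
    rw [← hr2]
    nlinarith
  · push Not at hc
    have h1 : S - η ≤ 0 := by
      rw [← hr2]
      nlinarith
    have h2 : p * t ^ 2 * (S - η) ≤ 0 :=
      mul_nonpos_of_nonneg_of_nonpos (by positivity) h1
    linarith

/-- (helper58) Lower bound for `|v|` in the lattice case. -/
theorem RT (η C₁ ε₁ : ℝ) (hη : 0 < η) (hη1 : η ≤ 1) (hC₁ : 1 ≤ C₁) (hε₁ : 0 < ε₁)
    (hε₁1 : ε₁ ≤ 1) :
    ∃ ε₃ : ℝ, 0 < ε₃ ∧ ∃ δ₁ : ℝ, 0 < δ₁ ∧ ∀ (n : ℕ) (a : Fin n → ℝ) (δ σ : ℝ)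
      (O : Finset (Fin n)) (k : Fin n → ℤ), Reg a δ → δ ≤ δ₁ → (∀ i, 0 < a i) →
      (∀ i j, i ≠ j → Irrational (a i / a j)) → (∀ x, lf a x ≠ 0) → 0 < σ →
      ∑ i ∈ Oᶜ, (σ * a i - k i) ^ 2 ≤ C₁ ^ 2 → |∑ i ∈ Oᶜ, a i * (σ * a i - k i)| ≤ ε₃ →
      ∑ i ∈ O, a i ^ 2 ≤ ε₃ → ε₁ ≤ ∑ i ∈ Oᶜ.filter (fun i => k i = 1), a i ^ 2 →
      kap a * σ ^ 2 ≤ 5 →
      ∃ σ' : ℝ, |σ' - σ| ≤ η ∧ (∀ x, ∀ m : ℤ, σ' * lf a x ≠ 2 * m) ∧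
        (2 / Real.pi) * (1 / σ' ^ 2) * (∑ i, sc a σ' i ^ 2 - η) ≤
          ∑ i, (cw a i - DD a * a i) ^ 2 := by
  obtain ⟨q, β, e, μ, δ₀, N₁, hq0, hq20, hqC, hβ0, hβ1, hN1, he0, heq, hμ0, hδ₀0, hδ₀1, SM⟩ :=
    scene_main η C₁ ε₁ hη hη1 hC₁ hε₁ hε₁1
  obtain ⟨ε₃, δ₁, hε₃, hδ₁, PR⟩ := prep C₁ ε₁ q β e μ η N₁ hC₁ hε₁ hε₁1 hq0 hq20 hβ0 hβ1 he0 heq
    hμ0 hη hη1 hqC
  refine ⟨ε₃, hε₃, min δ₀ δ₁, by positivity, ?_⟩
  intro n a δ σ O k h hδ ha hirr hane hσ hC hlin hO hmass hκσ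
  obtain ⟨τ, hτσ, hhit, s, L, B, J₁, S⟩ := PR n a δ σ O k h (hδ.trans (min_le_right _ _)) ha hirr
    hane hσ hC hlin hO hmass hκσ
  refine ⟨τ, hτσ, hhit, ?_⟩
  have hmain := SM n a k τ s δ L B J₁ h (hδ.trans (min_le_left _ _)) (fun i => (ha i).le) hane S
  have hτ : 0 < τ := by linarith [S.h100]
  have hc1 : ∑ i, sc a τ i ^ 2 ≤ 1 := by
    refine (ac_bessel univ (fun x => saw (τ * lf a x))).trans ?_
    calc Ex (fun x : Fin n → Bool => saw (τ * lf a x) ^ 2) ≤ Ex fun _ => (1 : ℝ) := by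
          apply Ex_mono
          intro x
          have := abs_saw_le (τ * lf a x)
          rw [← sq_abs]
          have h0 := abs_nonneg (saw (τ * lf a x))
          nlinarith
      _ = 1 := Ex_const 1
  have := rt_square (p := 2 / Real.pi) (t := 1 / τ) (by positivity) (by positivity)
    (Finset.sum_nonneg fun i _ => sq_nonneg _) hc1 (Finset.sum_nonneg fun i _ => sq_nonneg _)
    hη.le hη1 hmain
  rw [one_div_pow] at this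
  exact this

end Pool.Agent.MP_cb3c9c_an.REG
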