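import Pool.Agent.MP_cb3c9c_an.REG.T2

set_option autoImplicit false

open Finset MeasureTheory
open scoped BigOperators

namespace Pool.Agent.MP_cb3c9c_an.REG

open Pool.Agent.MP_cb3c9c_an.TwoBlock

variable {n : ℕ}

/-- the degree at most one weight of `sg (lf a x + θ)` -/
noncomputable def t3W (a : Fin n → ℝ) (θ : ℝ) : ℝ :=
  (Ex fun x => sg (lf a x + θ)) ^ 2 + ∑ i, (Ex fun x => sg (lf a x + θ) * sb (x i)) ^ 2

theorem t3_sg_neg (t : ℝ) : sg (-t) = - sg t := by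
  rcases lt_trichotomy t 0 with h | h | h
  · rw [sg_neg' h, sg_pos (by linarith)]
    ring
  · rw [h, neg_zero, sg_zero, neg_zero]
  · rw [sg_pos h, sg_neg' (by linarith)]

theorem t3_sg_mul {c t : ℝ} (hc : 0 < c) : sg (t * c) = sg t := by
  rcases lt_trichotomy t 0 with h | h | h
  · rw [sg_neg' h, sg_neg' (mul_neg_of_neg_of_pos h hc)]
  · rw [h, zero_mul]
  · rw [sg_pos h, sg_pos (mul_pos h hc)]

theorem t3_neg0 (a : Fin n → ℝ) (θ : ℝ) :
    (Ex fun x : Fin n → Bool => sg (lf a x - θ)) = - Ex fun x => sg (lf a x + θ) := by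
  rw [← Ex_negEquiv, ← Ex_neg]
  congr 1
  funext x
  have h : lf a (negEquiv x) = - lf a x := lfS_neg univ a x
  rw [h, ← t3_sg_neg]
  congr 1
  ring

theorem t3_neg1 (a : Fin n → ℝ) (θ : ℝ) (i : Fin n) :
    (Ex fun x : Fin n → Bool => sg (lf a x - θ) * sb (x i)) =
      Ex fun x => sg (lf a x + θ) * sb (x i) := by
  rw [← Ex_negEquiv]
  congr 1
  funext x
  have h : lf a (negEquiv x) = - lf a x := lfS_neg univ a x
  have h2 : sb (negEquiv x i) = - sb (x i) := by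
    simp only [negEquiv, Equiv.coe_fn_mk, sb_not]
  rw [h, h2, show -lf a x - θ = -(lf a x + θ) by ring, t3_sg_neg]
  ring

theorem t3W_neg (a : Fin n → ℝ) (θ : ℝ) : t3W a (-θ) = t3W a θ := by
  unfold t3W
  congr 1
  · have h := t3_neg0 a θ
    simp only [sub_eq_add_neg] at h
    rw [h, neg_sq]
  · refine Finset.sum_congr rfl fun i _ => ?_
    have h := t3_neg1 a θ i
    simp only [sub_eq_add_neg] at h
    rw [h]

/-- splitting off the first coordinate -/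
theorem t3_Ex_cons (F : (Fin (n + 1) → Bool) → ℝ) :
    Ex F = ((Ex fun y : Fin n → Bool => F (Fin.cons false y)) +
      Ex fun y : Fin n → Bool => F (Fin.cons true y)) / 2 := by
  have h1 : ∑ x, F x = (∑ y : Fin n → Bool, F (Fin.cons true y)) +
      ∑ y : Fin n → Bool, F (Fin.cons false y) := by
    rw [← (Fin.consEquiv (fun _ : Fin (n + 1) => Bool)).sum_comp, Fintype.sum_prod_type,
      Fintype.sum_bool]
    rfl
  unfold Ex
  rw [h1, card_cube, card_cube, pow_succ]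
  field_simp
  ring

/-- the unit vector in dimension one more -/
noncomputable def t3v (a : Fin n → ℝ) (θ : ℝ) (i : Fin (n + 1)) : ℝ :=
  (Fin.cons θ a : Fin (n + 1) → ℝ) i * (Real.sqrt (1 + θ ^ 2))⁻¹

theorem t3_sqrt_pos (θ : ℝ) : 0 < (Real.sqrt (1 + θ ^ 2))⁻¹ :=
  inv_pos.2 (Real.sqrt_pos.2 (by positivity))

theorem t3_lf (a : Fin n → ℝ) (θ : ℝ) (b : Bool) (y : Fin n → Bool) :
    lf (t3v a θ) (Fin.cons b y : Fin (n + 1) → Bool) =
      (lf a y + θ * sb b) * (Real.sqrt (1 + θ ^ 2))⁻¹ := by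
  unfold lf t3v
  rw [Fin.sum_univ_succ]
  simp only [Fin.cons_zero, Fin.cons_succ]
  rw [add_mul, Finset.sum_mul, add_comm]
  congr 1
  · exact Finset.sum_congr rfl fun i _ => by ring
  · ring

theorem t3_unit (a : Fin n → ℝ) (θ : ℝ) (h1 : ∑ i, a i ^ 2 = 1) : ∑ i, t3v a θ i ^ 2 = 1 := by
  unfold t3v
  rw [Fin.sum_univ_succ]
  simp only [Fin.cons_zero, Fin.cons_succ, mul_pow, inv_pow]
  rw [← Finset.sum_mul, h1, Real.sq_sqrt (by positivity)]
  have : (1 + θ ^ 2) ≠ 0 := by positivity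
  field_simp
  ring

theorem t3_inv_le (θ : ℝ) : (Real.sqrt (1 + θ ^ 2))⁻¹ ≤ 1 := by
  apply inv_le_one_of_one_le₀
  rw [Real.one_le_sqrt]
  nlinarith [sq_nonneg θ]

theorem t3_cw0 (a : Fin n → ℝ) (θ : ℝ) :
    cw (t3v a θ) 0 = Ex fun x => sg (lf a x + θ) := by
  unfold cw
  rw [t3_Ex_cons]
  simp only [t3_lf, t3_sg_mul (t3_sqrt_pos θ), Fin.cons_zero, sb_true, sb_false, mul_one, mul_neg]
  have h := t3_neg0 a θ
  simp only [sub_eq_add_neg] at h
  rw [Ex_neg, h]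
  ring

theorem t3_cw1 (a : Fin n → ℝ) (θ : ℝ) (i : Fin n) :
    cw (t3v a θ) i.succ = Ex fun x => sg (lf a x + θ) * sb (x i) := by
  unfold cw
  rw [t3_Ex_cons]
  simp only [t3_lf, t3_sg_mul (t3_sqrt_pos θ), Fin.cons_succ, sb_true, sb_false, mul_one, mul_neg]
  have h := t3_neg1 a θ i
  simp only [sub_eq_add_neg] at h
  rw [h]
  ring

theorem t3_kap (a : Fin n → ℝ) {θ : ℝ} (h0 : 0 ≤ θ) (h1 : θ ≤ 1) :
    kap a / 4 ≤ kap (t3v a θ) := by
  unfold kap t3v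
  rw [Fin.sum_univ_succ]
  simp only [Fin.cons_zero, Fin.cons_succ, mul_pow]
  rw [← Finset.sum_mul]
  have e : ((Real.sqrt (1 + θ ^ 2))⁻¹) ^ 4 = ((1 + θ ^ 2) ^ 2)⁻¹ := by
    rw [inv_pow, show (4 : ℕ) = 2 * 2 by norm_num, pow_mul, Real.sq_sqrt (by positivity)]
  rw [e]
  have h2 : (4 : ℝ)⁻¹ ≤ ((1 + θ ^ 2) ^ 2)⁻¹ := by
    apply inv_anti₀ (by positivity)
    have h5 : θ ^ 2 ≤ 1 := by nlinarith
    have h6 : (1 + θ ^ 2) ^ 2 ≤ 2 ^ 2 := pow_le_pow_left₀ (by positivity) (by linarith) 2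
    linarith
  have h3 : 0 ≤ ∑ i, a i ^ 4 := Finset.sum_nonneg fun i _ => by positivity
  have h4 : 0 ≤ θ ^ 4 * ((1 + θ ^ 2) ^ 2)⁻¹ := by positivity
  calc (∑ i, a i ^ 4) / 4 = (∑ i, a i ^ 4) * 4⁻¹ := by ring
    _ ≤ (∑ i, a i ^ 4) * ((1 + θ ^ 2) ^ 2)⁻¹ := mul_le_mul_of_nonneg_left h2 h3
    _ ≤ _ := by linarith

/-- Cauchy-Schwarz -/
theorem t3_cs (a : Fin n → ℝ) (θ : ℝ) (h1 : ∑ i, a i ^ 2 = 1) :
    (Ex fun x => sg (lf a x + θ)) ^ 2 + (Ex fun x => sg (lf a x + θ) * lf a x) ^ 2 ≤ t3W a θ := by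
  unfold t3W
  have e : (Ex fun x : Fin n → Bool => sg (lf a x + θ) * lf a x) =
      ∑ i, a i * Ex (fun x : Fin n → Bool => sg (lf a x + θ) * sb (x i)) := by
    have e1 : (fun x : Fin n → Bool => sg (lf a x + θ) * lf a x) =
        fun x => ∑ i, a i * (sg (lf a x + θ) * sb (x i)) := by
      funext x
      conv_lhs => rw [show sg (lf a x + θ) * lf a x = sg (lf a x + θ) * ∑ i, a i * sb (x i) from rfl]
      rw [Finset.mul_sum]
      exact Finset.sum_congr rfl fun i _ => by ring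
    rw [e1, Ex_sum]
    exact Finset.sum_congr rfl fun i _ => by rw [Ex_mul]
  rw [e]
  have h2 := Finset.sum_mul_sq_le_sq_mul_sq univ a
    (fun i => Ex (fun x : Fin n → Bool => sg (lf a x + θ) * sb (x i)))
  rw [h1, one_mul] at h2
  linarith

theorem t3_core {c₀ δ₀ : ℝ} (hc₀ : 0 < c₀) (hδ₀ : 0 < δ₀)
    (hom : ∀ (n : ℕ) (a : Fin n → ℝ), ∑ i, a i ^ 2 = 1 → (∀ i, |a i| ≤ δ₀) →
      (∀ x, lf a x ≠ 0) → 2 / Real.pi + c₀ * kap a ≤ ∑ i, cw a i ^ 2) :
    ∃ c : ℝ, 0 < c ∧ ∃ ε : ℝ, 0 < ε ∧ ∀ (n : ℕ) (a : Fin n → ℝ) (θ : ℝ), ∑ i, a i ^ 2 = 1 →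
      0 ≤ θ → (∀ i, a i ^ 2 ≤ ε) → (∀ x, lf a x + θ ≠ 0) →
      2 / Real.pi + c * kap a ≤ t3W a θ := by
  set θ₁ := min (δ₀ / 2) 1 with hθ₁
  have hθ₁0 : 0 < θ₁ := lt_min (by linarith) one_pos
  obtain ⟨c₁, hc₁, hgap⟩ := omega_gap hθ₁0
  set ε := min (min (δ₀ ^ 2 / 4) (1 / 10 ^ 16)) ((c₁ / 400) ^ 2) with hε
  have hε0 : 0 < ε := lt_min (lt_min (by positivity) (by norm_num)) (by positivity)
  have hε1 : ε ≤ δ₀ ^ 2 / 4 := (min_le_left _ _).trans (min_le_left _ _)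
  have hε2 : ε ≤ 1 / 10 ^ 16 := (min_le_left _ _).trans (min_le_right _ _)
  have hε3 : ε ≤ (c₁ / 400) ^ 2 := min_le_right _ _
  set c := min (c₀ / 4) (min (c₁ / 2) (1 / 10)) with hc
  have hc0 : 0 < c := lt_min (by positivity) (lt_min (by positivity) (by norm_num))
  have hcc0 : c ≤ c₀ / 4 := min_le_left _ _
  have hcc1 : c ≤ c₁ / 2 := (min_le_right _ _).trans (min_le_left _ _)
  have hcc2 : c ≤ 1 / 10 := (min_le_right _ _).trans (min_le_right _ _)
  refine ⟨c, hc0, ε, hε0, fun n a θ h1 hθ0 ha hne => ?_⟩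
  have hsq : ∀ i, |a i| ≤ Real.sqrt ε := fun i => by
    rw [← Real.sqrt_sq_eq_abs]
    exact Real.sqrt_le_sqrt (ha i)
  have hk0 : 0 ≤ kap a := Finset.sum_nonneg fun i _ => by positivity
  have hk1 : kap a ≤ 1 := by
    unfold kap
    calc ∑ i, a i ^ 4 ≤ ∑ i, 1 * a i ^ 2 := by
          refine Finset.sum_le_sum fun i _ => ?_
          have h2 : a i ^ 2 ≤ 1 := (ha i).trans (hε2.trans (by norm_num))
          nlinarith [sq_nonneg (a i)]
      _ = 1 := by rw [← Finset.mul_sum, h1, mul_one]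
  rcases le_or_gt θ θ₁ with hA | hA
  · -- case A
    have hθle1 : θ ≤ 1 := hA.trans (min_le_right _ _)
    have hθle2 : θ ≤ δ₀ / 2 := hA.trans (min_le_left _ _)
    have hsε : Real.sqrt ε ≤ δ₀ / 2 := by
      rw [Real.sqrt_le_left (by positivity)]
      calc ε ≤ δ₀ ^ 2 / 4 := hε1
        _ = (δ₀ / 2) ^ 2 := by ring
    have h2 := hom (n + 1) (t3v a θ) (t3_unit a θ h1) (by
      intro i
      unfold t3v
      rw [abs_mul, abs_of_pos (t3_sqrt_pos θ)]
      have h3 : |(Fin.cons θ a : Fin (n + 1) → ℝ) i| ≤ δ₀ := by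
        refine Fin.cases ?_ (fun j => ?_) i
        · rw [Fin.cons_zero, abs_of_nonneg hθ0]
          linarith
        · rw [Fin.cons_succ]
          have := hsq j
          linarith
      calc _ ≤ δ₀ * 1 := mul_le_mul h3 (t3_inv_le θ) (t3_sqrt_pos θ).le hδ₀.le
        _ = δ₀ := mul_one _) (by
      intro x
      rw [← Fin.cons_self_tail x, t3_lf]
      refine mul_ne_zero ?_ (t3_sqrt_pos θ).ne'
      cases hx : x 0
      · rw [sb_false, mul_one]
        exact hne _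
      · rw [sb_true, mul_neg, mul_one]
        intro h0
        apply hne (negEquiv (Fin.tail x))
        have h4 : lf a (negEquiv (Fin.tail x)) = - lf a (Fin.tail x) := lfS_neg univ a _
        rw [h4]
        linarith)
    rw [Fin.sum_univ_succ, t3_cw0] at h2
    simp only [t3_cw1] at h2
    change _ ≤ t3W a θ at h2
    have h3 := t3_kap a hθ0 hθle1
    have h5 : c * kap a ≤ c₀ * kap (t3v a θ) := by
      calc c * kap a ≤ c₀ / 4 * kap a := mul_le_mul_of_nonneg_right hcc0 hk0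
        _ = c₀ * (kap a / 4) := by ring
        _ ≤ _ := mul_le_mul_of_nonneg_left h3 hc₀.le
    linarith
  · rcases le_or_gt θ 10 with hB | hB
    · -- case B
      obtain ⟨δ, hreg, hδ⟩ := reg_of_unit h1 hsq
      have hs8 : Real.sqrt ε ≤ 1 / 10 ^ 8 := by
        rw [Real.sqrt_le_left (by positivity)]
        calc ε ≤ 1 / 10 ^ 16 := hε2
          _ = (1 / 10 ^ 8) ^ 2 := by norm_num
      have hsc : Real.sqrt ε ≤ c₁ / 400 := by
        rw [Real.sqrt_le_left (by positivity)]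
        exact hε3
      have h2 := weight_theta hreg (hδ.trans hs8) hθ0 hB hne
      have h3 := hgap θ hA.le
      have h4 := t3_cs a θ h1
      have h5 := hreg.sqrt_kap_le
      have h6 : c * kap a ≤ c₁ / 2 := by
        calc c * kap a ≤ c₁ / 2 * 1 := mul_le_mul hcc1 hk1 hk0 (by positivity)
          _ = _ := mul_one _
      linarith
    · -- case C
      have h2 := weight_theta_large h1 hB.le hne
      have h3 : (Ex fun x : Fin n → Bool => sg (lf a x + θ)) ^ 2 ≤ t3W a θ := by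
        unfold t3W
        have : 0 ≤ ∑ i, (Ex fun x : Fin n → Bool => sg (lf a x + θ) * sb (x i)) ^ 2 :=
          Finset.sum_nonneg fun i _ => sq_nonneg _
        linarith
      have h4 : c * kap a ≤ 1 / 10 := by
        calc c * kap a ≤ 1 / 10 * 1 := mul_le_mul hcc2 hk1 hk0 (by norm_num)
          _ = _ := mul_one _
      have h5 : 2 / Real.pi ≤ 0.64 := by
        rw [div_le_iff₀ Real.pi_pos]
        have := Real.pi_gt_d2
        linarith
      linarith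

/-- ROW REG-T3 (thresholds: from the homogeneous theorem to the final statement).

PROOF.  Put `S = ∑ a_j²`.
(0) `S = 0`: all `a_i = 0`, `f` is constant `±1`, the right side is `≥ 1`, the left side is `2/π + c·0/0 = 2/π ≤ 1`.
(1) `S > 0`: replace `(a0, a)` by `(a0, a)/√S` (same `f`, and `(∑ a⁴)/(∑ a²)²` is unchanged), so `∑ a² = 1`, `κ = kap a`,
`θ = a0`, `a_i² ≤ ε`.  With `sb (x i) = if x i then -1 else 1`, `f x = sg (lf a x + θ)` (`f_eq_sg` style).  The right side is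
`W = (Ex f)² + ∑ (Ex f(x) sb (x i))²`.  If `θ < 0` replace `f` by `x ↦ -f(-x) = sg (lf a x - θ)` (`negEquiv`): `W` does not
change.  So `θ ≥ 0`.
(2) `W ≥ (Ex f)² + (Ex f(x) lf a x)²` (Cauchy–Schwarz, `Ex f lf a = ∑ a_i Ex (f x_i)`).
(3) Let `θ₁ = min (δ₀/2) 1`, and `c₁ > 0` from `omega_gap` (T1) with `θ₁`.  Choose `ε = min (δ₀²/4) (10^{-16}) ((c₁/400)²)` (and `ε ≤ 1`),
`c = min (c₀/4) (c₁/2) (1/10)`.
(4) Case `θ ≤ θ₁`: on `Fin (n+1)` let `a' = Fin.cons θ a / √(1+θ²)`: unit, `|a'_i| ≤ max (θ₁) (√ε) ≤ δ₀`, `lf a' (x₀, x) =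
(θ x₀ + lf a x)/√(1+θ²) ≠ 0` (it is `± (θ + lf a (±x))` up to a positive factor).  `cw a' 0 = Ex f` and
`cw a' (i+1) = Ex (f x_i)` (average over `x₀`; the part `x₀ = -1` is `sg (lf a x - θ) = - f (-x)`), so `hom` gives
`2/π + c₀ kap a' ≤ W`, `kap a' ≥ κ/(1+θ²)² ≥ κ/4`.
(5) Case `θ₁ ≤ θ ≤ 10`: `reg_of_unit` with `d = √ε ≤ 10^{-8}`, `kap a ≤ δ² ≤ ε`; (2), `weight_theta` (T2), `omega_gap`:
`W ≥ 2/π + c₁ - 200√ε ≥ 2/π + c₁/2 ≥ 2/π + c κ` (`κ ≤ 1`).
(6) Case `θ ≥ 10`: `weight_theta_large`: `W ≥ 0.96 ≥ 2/π + 1/10`.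
(`Ex g = (∑ x, g x)/2^n` by `card_cube`.) -/
theorem final_of_hom {c₀ δ₀ : ℝ} (hc₀ : 0 < c₀) (hδ₀ : 0 < δ₀)
    (hom : ∀ (n : ℕ) (a : Fin n → ℝ), ∑ i, a i ^ 2 = 1 → (∀ i, |a i| ≤ δ₀) →
      (∀ x, lf a x ≠ 0) → 2 / Real.pi + c₀ * kap a ≤ ∑ i, cw a i ^ 2) :
    ∃ c : ℝ, 0 < c ∧ ∃ ε : ℝ, 0 < ε ∧ ∀ (n : ℕ) (f : (Fin n → Bool) → ℝ) (a : Fin n → ℝ)
      (a0 : ℝ), (∀ x, f x = 1 ∨ f x = -1) →
      (∀ x, 0 < f x * (a0 + ∑ i, a i * (if x i then (-1 : ℝ) else 1))) →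
      (∀ i, a i ^ 2 ≤ ε * ∑ j, a j ^ 2) →
      2 / Real.pi + c * ((∑ i, a i ^ 4) / (∑ i, a i ^ 2) ^ 2) ≤
        ((∑ x, f x) / (2 : ℝ) ^ n) ^ 2 +
          ∑ i, ((∑ x, f x * (if x i then (-1 : ℝ) else 1)) / (2 : ℝ) ^ n) ^ 2 := by
  obtain ⟨c, hc, ε, hε, key⟩ := t3_core hc₀ hδ₀ hom
  refine ⟨c, hc, ε, hε, fun n f a a0 hf1 hf2 ha => ?_⟩
  have hEx : ∀ g : (Fin n → Bool) → ℝ, (∑ x, g x) / (2 : ℝ) ^ n = Ex g := by
    intro g
    unfold Ex
    rw [card_cube]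
  have hf2' : ∀ x, 0 < f x * (lf a x + a0) := by
    intro x
    have h := hf2 x
    rw [add_comm] at h
    exact h
  have hfs : ∀ x, f x = sg (lf a x + a0) := by
    intro x
    have h := hf2' x
    rcases hf1 x with h' | h'
    · rw [h'] at h ⊢
      rw [sg_pos (by linarith)]
    · rw [h'] at h ⊢
      rw [sg_neg' (by linarith)]
  have hR : ((∑ x, f x) / (2 : ℝ) ^ n) ^ 2 +
      ∑ i, ((∑ x, f x * (if x i then (-1 : ℝ) else 1)) / (2 : ℝ) ^ n) ^ 2 = t3W a a0 := by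
    unfold t3W
    rw [hEx]
    congr 1
    · congr 1
      congr 1
      funext x
      exact hfs x
    · refine Finset.sum_congr rfl fun i _ => ?_
      rw [hEx]
      congr 1
      congr 1
      funext x
      rw [hfs x]
      rfl
  rw [hR]
  set S := ∑ j, a j ^ 2 with hS
  have hS0 : 0 ≤ S := Finset.sum_nonneg fun i _ => sq_nonneg _
  rcases hS0.eq_or_lt with hS1 | hS1
  · -- all coefficients zero
    have ha0 : ∀ i, a i = 0 := by
      intro i
      have h := (Finset.sum_eq_zero_iff_of_nonneg (fun i _ => sq_nonneg (a i))).1 hS1.symm i (mem_univ i)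
      exact pow_eq_zero_iff two_ne_zero |>.1 h
    rw [← hS1]
    have hlf : ∀ x : Fin n → Bool, lf a x = 0 := by
      intro x
      unfold lf
      exact Finset.sum_eq_zero fun i _ => by rw [ha0 i, zero_mul]
    have h3 : (Ex fun x : Fin n → Bool => sg (lf a x + a0)) ^ 2 = 1 := by
      simp only [hlf, zero_add]
      rw [Ex_const]
      have h4 := hf1 (fun _ => false)
      rw [hfs, hlf, zero_add] at h4
      rcases h4 with h4 | h4 <;> rw [h4] <;> norm_num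
    have h5 : 0 ≤ ∑ i, (Ex fun x : Fin n → Bool => sg (lf a x + a0) * sb (x i)) ^ 2 :=
      Finset.sum_nonneg fun i _ => sq_nonneg _
    have h6 : 2 / Real.pi ≤ 1 := by
      rw [div_le_one Real.pi_pos]
      exact Real.two_le_pi
    unfold t3W
    rw [h3]
    have h7 : c * ((∑ i, a i ^ 4) / (0 : ℝ) ^ 2) = 0 := by simp
    rw [h7]
    linarith
  · -- normalise
    set q : ℝ := (Real.sqrt S)⁻¹ with hq
    have hq0 : 0 < q := inv_pos.2 (Real.sqrt_pos.2 hS1)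
    have hq2 : q ^ 2 = S⁻¹ := by rw [hq, inv_pow, Real.sq_sqrt hS0]
    set b : Fin n → ℝ := fun i => a i * q with hb
    have hlfb : ∀ x, lf b x = lf a x * q := by
      intro x
      unfold lf
      rw [Finset.sum_mul]
      exact Finset.sum_congr rfl fun i _ => by simp only [hb]; ring
    have hb1 : ∑ i, b i ^ 2 = 1 := by
      simp only [hb, mul_pow, ← Finset.sum_mul]
      rw [hq2, ← hS]
      exact mul_inv_cancel₀ hS1.ne'
    have hkap : kap b = (∑ i, a i ^ 4) / S ^ 2 := by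
      unfold kap
      simp only [hb, mul_pow, ← Finset.sum_mul]
      rw [show q ^ 4 = (q ^ 2) ^ 2 by ring, hq2, inv_pow, div_eq_mul_inv]
    have hbε : ∀ i, b i ^ 2 ≤ ε := by
      intro i
      simp only [hb, mul_pow]
      rw [hq2, ← div_eq_mul_inv, div_le_iff₀ hS1]
      exact ha i
    have hW : ∀ θ, t3W a θ = t3W b (θ * q) := by
      intro θ
      have e : ∀ x : Fin n → Bool, sg (lf b x + θ * q) = sg (lf a x + θ) := by
        intro x
        rw [hlfb, ← add_mul, t3_sg_mul hq0]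
      unfold t3W
      simp only [e]
    have hne : ∀ x, lf a x + a0 ≠ 0 := by
      intro x h0
      have h := hf2' x
      rw [h0, mul_zero] at h
      exact lt_irrefl _ h
    rw [← hkap]
    rcases le_or_gt 0 a0 with h0 | h0
    · rw [hW]
      refine key n b (a0 * q) hb1 (by positivity) hbε (fun x => ?_)
      rw [hlfb, ← add_mul]
      exact mul_ne_zero (hne x) hq0.ne'
    · rw [← t3W_neg, hW]
      refine key n b (-a0 * q) hb1 (mul_nonneg (by linarith) hq0.le) hbε (fun x => ?_)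
      rw [hlfb, ← add_mul]
      refine mul_ne_zero ?_ hq0.ne'
      intro h3
      apply hne (negEquiv x)
      have h4 : lf a (negEquiv x) = - lf a x := lfS_neg univ a x
      rw [h4]
      linarith

end Pool.Agent.MP_cb3c9c_an.REG
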