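import Pool.Agent.MP_cb3c9c_an.REG.FT
import Pool.Agent.MP_cb3c9c_an.REG.RT
import Pool.Agent.MP_cb3c9c_an.REG.L3
import Pool.Agent.MP_cb3c9c_an.REG.L4
import Pool.Agent.MP_cb3c9c_an.REG.G1
import Pool.Agent.MP_cb3c9c_an.REG.T3

set_option autoImplicit false

open Finset MeasureTheory
open scoped BigOperators

namespace Pool.Agent.MP_cb3c9c_an.REG

open Pool.Agent.MP_cb3c9c_an.TwoBlock

variable {n : ℕ}

/-- the theta-like sum -/
noncomputable def TT (a : Fin n → ℝ) (s : ℝ) : ℝ :=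
  ∑' j : ℕ, PP a ((j + 1) * s) / (j + 1) ^ 2

lemma hasSum_inv_sq : HasSum (fun j : ℕ => 1 / ((j : ℝ) + 1) ^ 2) (Real.pi ^ 2 / 6) := by
  have h := hasSum_zeta_two
  rw [← hasSum_nat_add_iff' 1] at h
  simp only [Finset.sum_range_one, Nat.cast_zero] at h
  have e : Real.pi ^ 2 / 6 - 1 / (0 : ℝ) ^ 2 = Real.pi ^ 2 / 6 := by norm_num
  rw [e] at h
  push_cast at h
  exact h

lemma TT_le (a : Fin n → ℝ) (s : ℝ) : TT a s ≤ Real.pi ^ 2 / 6 := by
  unfold TT
  rw [← hasSum_inv_sq.tsum_eq]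
  refine Summable.tsum_le_tsum (fun j => ?_) (summable_PP a s) hasSum_inv_sq.summable
  apply div_le_div_of_nonneg_right _ (by positivity)
  exact (le_abs_self _).trans (abs_PP_le_one a _)

lemma TT_ge (a : Fin n → ℝ) (s : ℝ) : -(Real.pi ^ 2 / 6) ≤ TT a s := by
  unfold TT
  rw [← hasSum_inv_sq.tsum_eq, ← tsum_neg]
  refine Summable.tsum_le_tsum (fun j => ?_) hasSum_inv_sq.summable.neg (summable_PP a s)
  rw [← neg_div]
  apply div_le_div_of_nonneg_right _ (by positivity)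
  exact (neg_le_of_abs_le (abs_PP_le_one a _))

lemma TT_le_half {a : Fin n → ℝ} {s : ℝ} (h : |PP a s| ≤ 1 / 2) :
    TT a s ≤ Real.pi ^ 2 / 6 - 1 / 2 := by
  have h1 : HasSum (fun j : ℕ => 1 / ((j : ℝ) + 1) ^ 2 - (if j = 0 then (1 / 2 : ℝ) else 0))
      (Real.pi ^ 2 / 6 - 1 / 2) := hasSum_inv_sq.sub (hasSum_ite_eq 0 _)
  unfold TT
  rw [← h1.tsum_eq]
  refine Summable.tsum_le_tsum (fun j => ?_) (summable_PP a s) h1.summable
  by_cases hj : j = 0
  · subst hj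
    simp only [Nat.cast_zero, zero_add, one_mul, if_true]
    have := (le_abs_self _).trans h
    norm_num
    linarith
  · rw [if_neg hj, sub_zero]
    apply div_le_div_of_nonneg_right _ (by positivity)
    exact (le_abs_self _).trans (abs_PP_le_one a _)

/-- halving the frequency: the odd terms are negligible -/
lemma TT_half {a : Fin n → ℝ} {s η : ℝ} (hη : 0 < η) (hη1 : η ≤ 1)
    (h : ∀ m : ℕ, Odd m → (m : ℝ) ≤ 1 / η → |PP a (m * s)| ≤ η) :
    TT a (2 * s) / 4 - 3 * Real.sqrt η ≤ TT a s := by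
  obtain ⟨f, hf⟩ : ∃ f : ℕ → ℝ, f = fun j : ℕ => PP a ((j + 1) * s) / ((j : ℝ) + 1) ^ 2 := ⟨_, rfl⟩
  have hfs : Summable f := by rw [hf]; exact summable_PP a s
  have hinj0 : Function.Injective (fun j : ℕ => 2 * j) := fun i j hij => by
    simp only at hij; omega
  have hinj1 : Function.Injective (fun j : ℕ => 2 * j + 1) := fun i j hij => by
    simp only at hij; omega
  have he : Summable fun j : ℕ => f (2 * j) := hfs.comp_injective hinj0
  have ho : Summable fun j : ℕ => f (2 * j + 1) := hfs.comp_injective hinj1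
  have hsplit : ∑' j, f j = ∑' j, f (2 * j) + ∑' j, f (2 * j + 1) :=
    (tsum_even_add_odd he ho).symm
  have hodd : ∑' j : ℕ, f (2 * j + 1) = TT a (2 * s) / 4 := by
    unfold TT
    rw [← tsum_div_const]
    congr 1
    funext j
    rw [hf]
    simp only
    push_cast
    have e1 : (2 * (j : ℝ) + 1 + 1) * s = (j + 1) * (2 * s) := by ring
    rw [e1]
    have e2 : (2 * (j : ℝ) + 1 + 1) ^ 2 = (j + 1) ^ 2 * 4 := by ring
    rw [e2, div_div]
  have hsq : 0 < Real.sqrt η := Real.sqrt_pos.mpr hη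
  have hsq1 : Real.sqrt η ≤ 1 := Real.sqrt_le_iff.mpr ⟨zero_le_one, by linarith⟩
  have hss : Real.sqrt η * Real.sqrt η = η := Real.mul_self_sqrt hη.le
  have hterm : ∀ j : ℕ, |f (2 * j)| ≤
      Real.sqrt η * (1 / (((j : ℝ) + 1) * Real.sqrt ((j : ℝ) + 1))) := by
    intro j
    rw [hf]
    simp only
    push_cast
    obtain ⟨M, hM⟩ : ∃ M : ℝ, M = 2 * (j : ℝ) + 1 := ⟨_, rfl⟩
    rw [← hM]
    have hj0 : (0 : ℝ) ≤ j := Nat.cast_nonneg j
    have hM1 : 1 ≤ M := by rw [hM]; linarith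
    have hjM : (j : ℝ) + 1 ≤ M := by rw [hM]; linarith
    have hMpos : 0 < M := by linarith
    have hsM : 0 < Real.sqrt M := Real.sqrt_pos.mpr hMpos
    have hsM2 : Real.sqrt M * Real.sqrt M = M := Real.mul_self_sqrt hMpos.le
    have key : |PP a (M * s)| * Real.sqrt M ≤ Real.sqrt η * M := by
      by_cases hc : M ≤ 1 / η
      · have h1 : |PP a (M * s)| ≤ η := by
          have := h (2 * j + 1) ⟨j, rfl⟩ (by push_cast; rw [← hM]; exact hc)
          push_cast at this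
          rw [← hM] at this
          exact this
        have h2 : Real.sqrt M ≤ M := by
          rw [Real.sqrt_le_left hMpos.le]; nlinarith
        have h3 : η ≤ Real.sqrt η := by nlinarith
        exact mul_le_mul (h1.trans h3) h2 hsM.le hsq.le
      · push Not at hc
        have h1 : |PP a (M * s)| ≤ 1 := abs_PP_le_one a _
        have h2 : 1 ≤ Real.sqrt η * Real.sqrt M := by
          rw [← Real.sqrt_mul hη.le]
          apply Real.one_le_sqrt.mpr
          rw [div_lt_iff₀ hη] at hc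
          linarith
        calc |PP a (M * s)| * Real.sqrt M ≤ 1 * Real.sqrt M :=
              mul_le_mul_of_nonneg_right h1 hsM.le
          _ ≤ (Real.sqrt η * Real.sqrt M) * Real.sqrt M := mul_le_mul_of_nonneg_right h2 hsM.le
          _ = Real.sqrt η * M := by rw [mul_assoc, hsM2]
    rw [abs_div, abs_of_nonneg (by positivity : 0 ≤ M ^ 2), div_le_iff₀ (by positivity)]
    have h4 : |PP a (M * s)| ≤ Real.sqrt η * Real.sqrt M := by
      have : |PP a (M * s)| * Real.sqrt M ≤ (Real.sqrt η * Real.sqrt M) * Real.sqrt M := by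
        rw [mul_assoc, hsM2]; exact key
      exact le_of_mul_le_mul_right this hsM
    have h5 : ((j : ℝ) + 1) * Real.sqrt ((j : ℝ) + 1) ≤ M * Real.sqrt M :=
      mul_le_mul hjM (Real.sqrt_le_sqrt hjM) (Real.sqrt_nonneg _) hMpos.le
    have h6 : 0 < ((j : ℝ) + 1) * Real.sqrt ((j : ℝ) + 1) := by positivity
    have h7 : Real.sqrt M ≤ 1 / (((j : ℝ) + 1) * Real.sqrt ((j : ℝ) + 1)) * M ^ 2 := by
      rw [one_div, ← div_eq_inv_mul, le_div_iff₀ h6]
      calc Real.sqrt M * (((j : ℝ) + 1) * Real.sqrt ((j : ℝ) + 1)) ≤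
            Real.sqrt M * (M * Real.sqrt M) := mul_le_mul_of_nonneg_left h5 hsM.le
        _ = M * (Real.sqrt M * Real.sqrt M) := by ring
        _ = M ^ 2 := by rw [hsM2]; ring
    calc |PP a (M * s)| ≤ Real.sqrt η * Real.sqrt M := h4
      _ ≤ Real.sqrt η * (1 / (((j : ℝ) + 1) * Real.sqrt ((j : ℝ) + 1)) * M ^ 2) :=
          mul_le_mul_of_nonneg_left h7 hsq.le
      _ = Real.sqrt η * (1 / (((j : ℝ) + 1) * Real.sqrt ((j : ℝ) + 1))) * M ^ 2 := by ring
  have heven : -(3 * Real.sqrt η) ≤ ∑' j : ℕ, f (2 * j) := by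
    have hd := he.hasSum.tendsto_sum_nat
    refine ge_of_tendsto hd (Filter.Eventually.of_forall fun N => ?_)
    have h1 : |∑ j ∈ Finset.range N, f (2 * j)| ≤ 3 * Real.sqrt η := by
      refine (Finset.abs_sum_le_sum_abs _ _).trans ?_
      refine (Finset.sum_le_sum fun j _ => hterm j).trans ?_
      rw [← Finset.mul_sum, mul_comm (3:ℝ)]
      exact mul_le_mul_of_nonneg_left (sum_three_half' N) hsq.le
    exact neg_le_of_abs_le h1
  have hTT : TT a s = ∑' j, f j := by rw [hf]; rfl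
  rw [hTT, hsplit, hodd]
  linarith

lemma pi_facts : 0.405 ≤ 4 / Real.pi ^ 2 ∧ 4 / Real.pi ^ 2 ≤ 0.4054 ∧ 0.636 ≤ 2 / Real.pi ∧
    2 / Real.pi ≤ 0.637 ∧ 9.869 ≤ Real.pi ^ 2 ∧ Real.pi ^ 2 ≤ 9.87 := by
  have h1 := Real.pi_gt_d4
  have h2 := Real.pi_lt_d4
  have h0 := Real.pi_pos
  have h3 : 9.869 ≤ Real.pi ^ 2 := by nlinarith
  have h4 : Real.pi ^ 2 ≤ 9.87 := by nlinarith
  refine ⟨?_, ?_, ?_, ?_, h3, h4⟩
  · rw [le_div_iff₀ (by positivity)]; linarith
  · rw [div_le_iff₀ (by positivity)]; linarith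
  · rw [le_div_iff₀ h0]; linarith
  · rw [div_le_iff₀ h0]; linarith

/-- the lower bound for `D²` -/
lemma D_sq {D p y η κ : ℝ} (hp : p ^ 2 = 2 / Real.pi) (hp0 : 0 ≤ p) (hp1 : p ≤ 1) (hη : 0 ≤ η)
    (hκ : 0 ≤ κ) (hD : p * (1 + y) - η * κ ≤ D) :
    2 / Real.pi * (1 + 2 * y) - 2 * (η * κ) ≤ D ^ 2 := by
  have h1 : 2 * p * D - p ^ 2 ≤ D ^ 2 := by nlinarith [sq_nonneg (D - p)]
  have h2 : p * (p * (1 + y) - η * κ) ≤ p * D := mul_le_mul_of_nonneg_left hD hp0
  have h3 : p * (η * κ) ≤ 1 * (η * κ) := mul_le_mul_of_nonneg_right hp1 (by positivity)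
  rw [← hp]
  nlinarith

/-- `1/σ'²` versus `1/σ²` -/
lemma inv_sq_close {σ σ' X : ℝ} (hσ : 100 ≤ σ) (h : |σ' - σ| ≤ 1 / 10 ^ 6) (hX : |X| ≤ 1) :
    1 / σ ^ 2 * (X - 1 / 1000) ≤ 1 / σ' ^ 2 * X := by
  obtain ⟨h1, h2⟩ := abs_le.mp h
  obtain ⟨x1, x2⟩ := abs_le.mp hX
  have hσ0 : 0 < σ := by linarith
  have hσ'0 : 0 < σ' := by linarith
  obtain ⟨r, hr⟩ : ∃ r, r = σ / σ' := ⟨_, rfl⟩
  have hr1 : r ≤ 10001 / 10000 := by
    rw [hr, div_le_iff₀ hσ'0]; linarith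
  have hr2 : 9999 / 10000 ≤ r := by
    rw [hr, le_div_iff₀ hσ'0]; linarith
  have e : 1 / σ' ^ 2 = 1 / σ ^ 2 * r ^ 2 := by
    rw [hr]; field_simp
  rw [e, mul_assoc]
  apply mul_le_mul_of_nonneg_left _ (by positivity)
  have hr3 : r ^ 2 - 1 ≤ 1 / 1000 := by nlinarith
  have hr4 : -(1 / 1000) ≤ r ^ 2 - 1 := by nlinarith
  nlinarith

/-- bookkeeping of the masses of the integers `k i` -/
lemma masses {a : Fin n → ℝ} {k : Fin n → ℤ} {τ δ C₁ ε₁ t : ℝ} (h : Reg a δ)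
    (hk : ∀ i, 0 ≤ k i) (hC₁ : 0 ≤ C₁)
    (hC : ∑ i, (τ * a i - k i) ^ 2 ≤ C₁ ^ 2) (hlo : 1 / 2 ≤ kap a * τ ^ 2)
    (hup : kap a * τ ^ 2 ≤ 5) (hm1 : ∑ i ∈ univ.filter (fun i => k i = 1), a i ^ 2 ≤ ε₁)
    (ht : 8 * C₁ ^ 2 * δ ^ 2 + 5 * (δ * C₁) + δ ^ 2 * C₁ ^ 2 ≤ t) :
    4 - 3 * ε₁ - t ≤ kap a * τ ^ 2 ∧
      5 * ∑ i ∈ univ.filter (fun i => 3 ≤ k i), a i ^ 2 ≤ kap a * τ ^ 2 - 4 + 3 * ε₁ + t ∧
      ∑ i ∈ univ.filter (fun i => k i = 0), a i ^ 2 ≤ t := by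
  have hκ := h.kap_pos
  have hκδ := h.kap_le
  have hδ0 := h.pos
  have hτ2 : 0 < τ ^ 2 := by
    by_contra hcon
    push Not at hcon
    have : kap a * τ ^ 2 ≤ 0 := mul_nonpos_of_nonneg_of_nonpos hκ.le hcon
    linarith
  -- the zero class
  have hm0 : ∑ i ∈ univ.filter (fun i => k i = 0), a i ^ 2 ≤ 2 * C₁ ^ 2 * δ ^ 2 := by
    have h1 : ∑ i ∈ univ.filter (fun i => k i = 0), a i ^ 2 * τ ^ 2 ≤ C₁ ^ 2 := by
      refine le_trans ?_ hC
      refine le_trans (le_of_eq ?_) (Finset.sum_le_sum_of_subset_of_nonneg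
        (Finset.filter_subset (fun i => k i = 0) univ) (fun i _ _ => sq_nonneg _))
      apply Finset.sum_congr rfl
      intro i hi
      rw [(Finset.mem_filter.mp hi).2]
      push_cast
      ring
    rw [← Finset.sum_mul] at h1
    have h0 : 0 ≤ ∑ i ∈ univ.filter (fun i => k i = 0), a i ^ 2 :=
      Finset.sum_nonneg fun i _ => sq_nonneg _
    have h2 : 1 / 2 * ∑ i ∈ univ.filter (fun i => k i = 0), a i ^ 2 ≤
        kap a * (∑ i ∈ univ.filter (fun i => k i = 0), a i ^ 2 * τ ^ 2) := by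
      rw [← Finset.sum_mul]
      have := mul_le_mul_of_nonneg_right hlo h0
      calc 1 / 2 * ∑ i ∈ univ.filter (fun i => k i = 0), a i ^ 2 ≤
          kap a * τ ^ 2 * ∑ i ∈ univ.filter (fun i => k i = 0), a i ^ 2 := this
        _ = _ := by ring
    rw [← Finset.sum_mul] at h2
    have h3 : kap a * ((∑ i ∈ univ.filter (fun i => k i = 0), a i ^ 2) * τ ^ 2) ≤
        δ ^ 2 * C₁ ^ 2 := mul_le_mul hκδ h1 (by positivity) (by positivity)
    linarith
  -- comparison of `∑ a² k²` with `κ τ²`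
  have hcomp : ∑ i, a i ^ 2 * (k i : ℝ) ^ 2 ≤ kap a * τ ^ 2 + (5 * (δ * C₁) + δ ^ 2 * C₁ ^ 2) := by
    have e : ∀ i, a i ^ 2 * (k i : ℝ) ^ 2 = a i ^ 4 * τ ^ 2 -
        2 * ((τ * a i ^ 2) * (a i * (τ * a i - k i))) + (a i * (τ * a i - k i)) ^ 2 := by
      intro i; ring
    rw [Finset.sum_congr rfl fun i _ => e i, Finset.sum_add_distrib, Finset.sum_sub_distrib,
      ← Finset.sum_mul, ← Finset.mul_sum]
    have h1 : ∑ i, (a i * (τ * a i - k i)) ^ 2 ≤ (δ * C₁) ^ 2 := by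
      have h2 : ∀ i ∈ (univ : Finset (Fin n)), (a i * (τ * a i - k i)) ^ 2 ≤
          δ ^ 2 * (τ * a i - k i) ^ 2 := by
        intro i _
        rw [mul_pow]
        apply mul_le_mul_of_nonneg_right _ (sq_nonneg _)
        rw [← sq_abs (a i)]
        exact pow_le_pow_left₀ (abs_nonneg _) (h.le i) 2
      refine (Finset.sum_le_sum h2).trans ?_
      rw [← Finset.mul_sum, mul_pow]
      exact mul_le_mul_of_nonneg_left hC (sq_nonneg _)
    have h3 : ∑ i, (τ * a i ^ 2) ^ 2 ≤ (5 / 2) ^ 2 := by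
      have : ∑ i, (τ * a i ^ 2) ^ 2 = kap a * τ ^ 2 := by
        unfold kap
        rw [Finset.sum_mul]
        exact Finset.sum_congr rfl fun i _ => by ring
      rw [this]
      linarith
    have h4 := rta_abs_sum_le (S := univ) (u := fun i => τ * a i ^ 2)
      (w := fun i => a i * (τ * a i - k i)) (by norm_num : (0:ℝ) ≤ 5 / 2)
      (by positivity : 0 ≤ δ * C₁) h3 h1
    have h5 := neg_le_of_abs_le h4
    unfold kap
    have h6 : (δ * C₁) ^ 2 = δ ^ 2 * C₁ ^ 2 := by ring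
    rw [h6] at h1
    linarith
  have hlow : 4 - 4 * ∑ i ∈ univ.filter (fun i => k i = 0), a i ^ 2 -
      3 * ∑ i ∈ univ.filter (fun i => k i = 1), a i ^ 2 +
      5 * ∑ i ∈ univ.filter (fun i => 3 ≤ k i), a i ^ 2 ≤ ∑ i, a i ^ 2 * (k i : ℝ) ^ 2 := by
    have e4 : (4 : ℝ) = ∑ i, 4 * a i ^ 2 := by
      rw [← Finset.mul_sum, h.unit, mul_one]
    rw [Finset.sum_filter, Finset.sum_filter, Finset.sum_filter, Finset.mul_sum, Finset.mul_sum,
      Finset.mul_sum]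
    calc 4 - ∑ i, 4 * (if k i = 0 then a i ^ 2 else 0) -
          ∑ i, 3 * (if k i = 1 then a i ^ 2 else 0) + ∑ i, 5 * (if 3 ≤ k i then a i ^ 2 else 0)
        = ∑ i, 4 * a i ^ 2 - ∑ i, 4 * (if k i = 0 then a i ^ 2 else 0) -
          ∑ i, 3 * (if k i = 1 then a i ^ 2 else 0) +
            ∑ i, 5 * (if 3 ≤ k i then a i ^ 2 else 0) := by rw [← e4]
      _ = ∑ i, (4 * a i ^ 2 - 4 * (if k i = 0 then a i ^ 2 else 0) -
          3 * (if k i = 1 then a i ^ 2 else 0) + 5 * (if 3 ≤ k i then a i ^ 2 else 0)) := by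
          rw [Finset.sum_add_distrib, Finset.sum_sub_distrib, Finset.sum_sub_distrib]
      _ ≤ ∑ i, a i ^ 2 * (k i : ℝ) ^ 2 := by
          apply Finset.sum_le_sum
          intro i _
          have ha2 : 0 ≤ a i ^ 2 := sq_nonneg _
          have hk0 := hk i
          rcases lt_or_ge (k i) 3 with hlt | hge
          · have : k i = 0 ∨ k i = 1 ∨ k i = 2 := by omega
            rcases this with h0 | h0 | h0
            · rw [h0]; norm_num
            · rw [h0]; norm_num; linarith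
            · rw [h0]; norm_num; linarith
          · have h0 : k i ≠ 0 := by omega
            have h1 : k i ≠ 1 := by omega
            rw [if_neg h0, if_neg h1, if_pos hge]
            have h9 : (9 : ℝ) ≤ (k i : ℝ) ^ 2 := by
              have : (3 : ℝ) ≤ k i := by exact_mod_cast hge
              nlinarith
            have := mul_le_mul_of_nonneg_left h9 ha2
            linarith
  have h30 : 0 ≤ ∑ i ∈ univ.filter (fun i => 3 ≤ k i), a i ^ 2 :=
    Finset.sum_nonneg fun i _ => sq_nonneg _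
  have hd1 : 0 ≤ δ * C₁ := by positivity
  have hd2 : 0 ≤ δ ^ 2 * C₁ ^ 2 := by positivity
  refine ⟨by linarith, by linarith, by linarith⟩

end Pool.Agent.MP_cb3c9c_an.REG
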