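import Pool.Agent.MP_cb3c9c_an.REG.GM

set_option autoImplicit false

open Finset MeasureTheory
open scoped BigOperators

namespace Pool.Agent.MP_cb3c9c_an.REG

open Pool.Agent.MP_cb3c9c_an.TwoBlock

variable {n : ℕ}

/-- Case C2: the frequency `τ / 2` -/
lemma case_C2 {a : Fin n → ℝ} {k : Fin n → ℤ} {δ τ ε₃ ηF x V : ℝ} (h : Reg a δ)
    (hV0 : V = ∑ i, (cw a i - DD a * a i) ^ 2)
    (RT2 : ∀ (σ : ℝ) (O : Finset (Fin n)) (k : Fin n → ℤ), 0 < σ →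
      ∑ i ∈ Oᶜ, (σ * a i - k i) ^ 2 ≤ 1 ^ 2 → |∑ i ∈ Oᶜ, a i * (σ * a i - k i)| ≤ ε₃ →
      ∑ i ∈ O, a i ^ 2 ≤ ε₃ → 1 / 2 ≤ ∑ i ∈ Oᶜ.filter (fun i => k i = 1), a i ^ 2 →
      kap a * σ ^ 2 ≤ 5 →
      ∃ σ' : ℝ, |σ' - σ| ≤ 1 / 10 ^ 6 ∧ (∀ x, ∀ m : ℤ, σ' * lf a x ≠ 2 * m) ∧
        (2 / Real.pi) * (1 / σ' ^ 2) * (∑ i, sc a σ' i ^ 2 - 1 / 10 ^ 6) ≤ V)
    (hε₃ : 0 < ε₃) (hx0 : 0 ≤ x) (hx1 : x ≤ ε₃) (hx2 : x ≤ ε₃ ^ 2) (hτ : 200 ≤ τ)
    (hsum : ∑ i, (τ * a i - k i) ^ 2 ≤ 0.16) (horth : ∑ i, a i * (τ * a i - k i) = 0)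
    (hodd : ∑ i ∈ univ.filter (fun i => Odd (k i)), a i ^ 2 ≤ x)
    (htwo : 1 / 2 ≤ ∑ i ∈ univ.filter (fun i => k i = 2), a i ^ 2)
    (hup : kap a * τ ^ 2 ≤ 5) (hηF : 0 < ηF) (hηF1 : ηF ≤ 1 / 400000)
    (hPP : ∀ m : ℕ, Odd m → (m : ℝ) ≤ 1 / ηF → |PP a (m * (Real.pi * τ / 2))| ≤ ηF) :
    (2 / Real.pi) * (1 / τ ^ 2) * (4 / Real.pi ^ 2 * TT a (Real.pi * τ) - 4 / 9 - 0.032) ≤ V := by
  obtain ⟨p1, p2, p3, p4, p5, p6⟩ := pi_facts
  obtain ⟨O, hO⟩ : ∃ O : Finset (Fin n), O = univ.filter (fun i => Odd (k i)) := ⟨_, rfl⟩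
  have hOc : ∀ i ∈ Oᶜ, ((k i / 2 : ℤ) : ℝ) = (k i : ℝ) / 2 := by
    intro i hi
    rw [hO, Finset.mem_compl, Finset.mem_filter] at hi
    push Not at hi
    have h2 : ¬ Odd (k i) := hi (Finset.mem_univ _)
    rw [Int.not_odd_iff_even] at h2
    obtain ⟨m, hm⟩ := h2
    have h3 : k i / 2 = m := by omega
    rw [h3, hm]
    push_cast
    ring
  rw [← hO] at hodd
  have hκ := h.kap_pos
  have hs1 : ∑ i ∈ Oᶜ, (τ / 2 * a i - (k i / 2 : ℤ)) ^ 2 ≤ 1 ^ 2 := by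
    have h1 : ∑ i ∈ Oᶜ, (τ / 2 * a i - (k i / 2 : ℤ)) ^ 2 =
        1 / 4 * ∑ i ∈ Oᶜ, (τ * a i - k i) ^ 2 := by
      rw [Finset.mul_sum]
      apply Finset.sum_congr rfl
      intro i hi
      rw [hOc i hi]; ring
    have h2 : ∑ i ∈ Oᶜ, (τ * a i - k i) ^ 2 ≤ ∑ i, (τ * a i - k i) ^ 2 :=
      Finset.sum_le_sum_of_subset_of_nonneg (Finset.subset_univ _) (fun i _ _ => sq_nonneg _)
    rw [h1]
    linarith
  have hs2 : |∑ i ∈ Oᶜ, a i * (τ / 2 * a i - (k i / 2 : ℤ))| ≤ ε₃ := by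
    have h1 : ∑ i ∈ Oᶜ, a i * (τ / 2 * a i - (k i / 2 : ℤ)) =
        1 / 2 * ∑ i ∈ Oᶜ, a i * (τ * a i - k i) := by
      rw [Finset.mul_sum]
      apply Finset.sum_congr rfl
      intro i hi
      rw [hOc i hi]; ring
    have h2 := Finset.sum_add_sum_compl O (fun i => a i * (τ * a i - k i))
    rw [horth] at h2
    have h3 := rta_abs_sum_le (S := O) (u := a) (w := fun i => τ * a i - k i)
      (hε₃.le) (by norm_num : (0:ℝ) ≤ 1 / 2) (hodd.trans hx2) (by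
        refine le_trans (Finset.sum_le_sum_of_subset_of_nonneg (Finset.subset_univ _)
          (fun i _ _ => sq_nonneg _)) (hsum.trans (by norm_num)))
    have h4 : ∑ i ∈ Oᶜ, a i * (τ * a i - k i) = -∑ i ∈ O, a i * (τ * a i - k i) := by linarith
    rw [h1, h4, abs_mul, abs_neg]
    have h5 : |(1 / 2 : ℝ)| = 1 / 2 := by norm_num
    rw [h5]
    linarith
  have hs3 : 1 / 2 ≤ ∑ i ∈ Oᶜ.filter (fun i => k i / 2 = 1), a i ^ 2 := by
    refine htwo.trans ?_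
    apply Finset.sum_le_sum_of_subset_of_nonneg _ (fun i _ _ => sq_nonneg _)
    intro i hi
    have hk2 := (Finset.mem_filter.mp hi).2
    rw [Finset.mem_filter, hO, Finset.mem_compl, Finset.mem_filter]
    refine ⟨?_, by rw [hk2]; norm_num⟩
    rintro ⟨-, hcon⟩
    rw [hk2] at hcon
    exact absurd hcon (by decide)
  have hs4 : kap a * (τ / 2) ^ 2 ≤ 5 := by
    have : kap a * (τ / 2) ^ 2 = kap a * τ ^ 2 / 4 := by ring
    rw [this]
    have : 0 < kap a * τ ^ 2 := by positivity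
    linarith
  obtain ⟨σ', hσ', hhit, hV⟩ := RT2 (τ / 2) O (fun i => k i / 2) (by linarith) hs1 hs2
    (hodd.trans hx1) hs3 hs4
  have hVb := V_bound h (by linarith : 100 ≤ τ / 2) hσ' hhit hV
  have hT := TT_half (a := a) (s := Real.pi * τ / 2) hηF (by linarith) hPP
  have e1 : 2 * (Real.pi * τ / 2) = Real.pi * τ := by ring
  have e2 : Real.pi * (τ / 2) = Real.pi * τ / 2 := by ring
  rw [e1] at hT
  rw [e2] at hVb
  have hsq : Real.sqrt ηF ≤ 0.0016 := by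
    apply Real.sqrt_le_iff.mpr ⟨by norm_num, ?_⟩
    refine hηF1.trans ?_
    norm_num
  refine le_trans ?_ hVb
  have hT' : 4 / Real.pi ^ 2 * (TT a (Real.pi * τ) / 4 - 0.0048) ≤
      4 / Real.pi ^ 2 * TT a (Real.pi * τ / 2) :=
    mul_le_mul_of_nonneg_left (by linarith) (by positivity)
  have e3 : 1 / (τ / 2) ^ 2 = 1 / τ ^ 2 * 4 := by
    have : τ ≠ 0 := by linarith
    field_simp
    norm_num
  rw [e3]
  have h1 : (2 / Real.pi) * (1 / τ ^ 2) *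
        (4 / Real.pi ^ 2 * TT a (Real.pi * τ) - 4 / 9 - 0.032) =
      (2 / Real.pi) * (1 / τ ^ 2) *
        (4 * (4 / Real.pi ^ 2 * (TT a (Real.pi * τ) / 4) - 1 / 9 - 0.008)) := by ring
  have h2 : (2 / Real.pi) * (1 / τ ^ 2 * 4) *
        (4 / Real.pi ^ 2 * TT a (Real.pi * τ / 2) - 1 / 9 - 0.006) =
      (2 / Real.pi) * (1 / τ ^ 2) *
        (4 * (4 / Real.pi ^ 2 * TT a (Real.pi * τ / 2) - 1 / 9 - 0.006)) := by ring
  rw [h1, h2]
  apply mul_le_mul_of_nonneg_left _ (by positivity)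
  linarith

theorem hom_reg :
    ∃ c₀ : ℝ, 0 < c₀ ∧ ∃ δ₀ : ℝ, 0 < δ₀ ∧ ∀ (n : ℕ) (a : Fin n → ℝ) (δ : ℝ), Reg a δ → δ ≤ δ₀ →
      (∀ i, 0 < a i) → (∀ i j, i ≠ j → Irrational (a i / a j)) → (∀ x, lf a x ≠ 0) →
      2 / Real.pi + c₀ * kap a ≤ ∑ i, cw a i ^ 2 := by
  obtain ⟨ε₃, hε₃, δ₂, hδ₂, RT2⟩ := RT (1 / 10 ^ 6) 1 (1 / 2) (by norm_num) (by norm_num) le_rfl
    (by norm_num) (by norm_num)
  obtain ⟨y, hy⟩ : ∃ y : ℝ, y = min (min (ε₃ / 4) (ε₃ ^ 2 / 4)) (1 / 1000) := ⟨_, rfl⟩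
  have hy0 : 0 < y := by rw [hy]; positivity
  have hy1 : y ≤ ε₃ / 4 := by rw [hy]; exact (min_le_left _ _).trans (min_le_left _ _)
  have hy2 : y ≤ ε₃ ^ 2 / 4 := by rw [hy]; exact (min_le_left _ _).trans (min_le_right _ _)
  have hy3 : y ≤ 1 / 1000 := by rw [hy]; exact min_le_right _ _
  obtain ⟨ηF, hηF⟩ : ∃ ηF : ℝ, ηF = y / 400 := ⟨_, rfl⟩
  have hηF0 : 0 < ηF := by rw [hηF]; positivity
  have hηF1 : ηF ≤ 1 / 400000 := by rw [hηF]; linarith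
  obtain ⟨C₁, hC₁, δ₃, hδ₃, FTm⟩ := FT_aux ηF hηF0 (by linarith)
  have hC0 : 0 < C₁ := by linarith
  obtain ⟨ε₄, hε₄, δ₄, hδ₄, RT1⟩ := RT (1 / 10 ^ 6) C₁ y (by norm_num) (by norm_num) hC₁ hy0
    (by linarith)
  obtain ⟨d5, hd5, H5⟩ := small_exists (8 * C₁ ^ 2 + 5 * C₁ + C₁ ^ 2) (d := y) hy0
  refine ⟨min (y / 100) (1 / 100), by positivity,
    min (min δ₂ δ₃) (min (min δ₄ d5) (1 / 1000)), by positivity, ?_⟩
  intro n a δ h hδ ha hirr hane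
  have hδa : δ ≤ δ₂ := hδ.trans ((min_le_left _ _).trans (min_le_left _ _))
  have hδb : δ ≤ δ₃ := hδ.trans ((min_le_left _ _).trans (min_le_right _ _))
  have hδr := hδ.trans (min_le_right _ _)
  have hδc : δ ≤ δ₄ := hδr.trans ((min_le_left _ _).trans (min_le_left _ _))
  have hδd : δ ≤ d5 := hδr.trans ((min_le_left _ _).trans (min_le_right _ _))
  have hδe : δ ≤ 1 / 1000 := hδr.trans (min_le_right _ _)
  have hδ0 := h.pos
  have hκ := h.kap_pos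
  have hκδ := h.kap_le
  have hδ2 : δ ^ 2 ≤ δ := by nlinarith
  have h5 := H5 δ hδ0.le hδd
  obtain ⟨κ, hκe⟩ : ∃ κ : ℝ, κ = kap a := ⟨_, rfl⟩
  rw [← hκe] at hκ hκδ ⊢
  obtain ⟨c, hc⟩ : ∃ c : ℝ, c = min (y / 100) (1 / 100) := ⟨_, rfl⟩
  have hc1 : c * κ ≤ y / 100 * κ := by
    rw [hc]; exact mul_le_mul_of_nonneg_right (min_le_left _ _) hκ.le
  have hc2 : c * κ ≤ 1 / 100 * κ := by
    rw [hc]; exact mul_le_mul_of_nonneg_right (min_le_right _ _) hκ.le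
  rw [← hc]
  obtain ⟨V, hV⟩ : ∃ V : ℝ, V = ∑ i, (cw a i - DD a * a i) ^ 2 := ⟨_, rfl⟩
  have hV0 : 0 ≤ V := by rw [hV]; exact Finset.sum_nonneg fun i _ => sq_nonneg _
  rw [gm_W h.unit, ← hV]
  obtain ⟨q1, q2⟩ := sqrt_two_div_pi_bounds
  have hp2 : Real.sqrt (2 / Real.pi) ^ 2 = 2 / Real.pi := Real.sq_sqrt (by positivity)
  have hp0 : 0 ≤ Real.sqrt (2 / Real.pi) := Real.sqrt_nonneg _
  obtain ⟨p1, p2, p3, p4, p5, p6⟩ := pi_facts
  rcases FTm n a δ h hδb (fun i => (ha i).le) with hD | ⟨τ, hτ0, k, hk, hsum, horth, hlo, hD, hPP1,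
      hPPodd⟩
  · -- Case I
    rw [← hκe] at hD
    have h1 := D_sq hp2 hp0 q2 hηF0.le hκ.le hD
    have h2 : 0.636 * (2 * (κ / 12)) ≤ 2 / Real.pi * (2 * (κ / 12)) :=
      mul_le_mul_of_nonneg_right p3 (by positivity)
    have h3 : ηF * κ ≤ 1 / 400000 * κ := mul_le_mul_of_nonneg_right hηF1 hκ.le
    have h4 : 2 / Real.pi * (1 + 2 * (κ / 12)) =
      2 / Real.pi + 2 / Real.pi * (2 * (κ / 12)) := by ring
    linarith
  -- the lattice case
  rw [← hκe] at hlo hD hPPodd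
  obtain ⟨z, hz⟩ : ∃ z : ℝ, z = 1 / τ ^ 2 := ⟨_, rfl⟩
  obtain ⟨g, hg⟩ : ∃ g : ℝ, g = 4 / Real.pi ^ 2 * TT a (Real.pi * τ) := ⟨_, rfl⟩
  obtain ⟨g1, g2⟩ := gm_TT_bounds a (Real.pi * τ)
  rw [← hg] at g1 g2
  have hz0 : 0 < z := by rw [hz]; positivity
  have hzτ : z * τ ^ 2 = 1 := by rw [hz]; field_simp
  have hD2 : 2 / Real.pi * (1 + (κ / 6 - z * g)) - 2 * (ηF * κ) ≤ DD a ^ 2 := by
    have hD' : Real.sqrt (2 / Real.pi) * (1 + (κ / 12 - (2 / (Real.pi * τ) ^ 2) *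
        TT a (Real.pi * τ))) - ηF * κ ≤ DD a := by
      refine le_trans (le_of_eq ?_) hD
      unfold TT
      ring
    have h1 := D_sq hp2 hp0 q2 hηF0.le hκ.le hD'
    rw [gm_yz, ← hz, ← hg] at h1
    exact h1
  have hzA : ∀ A : ℝ, A ≤ κ * τ ^ 2 → z * A ≤ κ := by
    intro A hA
    have := mul_le_mul_of_nonneg_left hA hz0.le
    calc z * A ≤ z * (κ * τ ^ 2) := this
      _ = κ * (z * τ ^ 2) := by ring
      _ = κ := by rw [hzτ, mul_one]
  have hτ200 : 200 ≤ τ := by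
    have h1 : 1 / 2 ≤ κ * τ ^ 2 := by linarith
    have h2 : κ * τ ^ 2 ≤ δ ^ 2 * τ ^ 2 := mul_le_mul_of_nonneg_right hκδ (sq_nonneg _)
    have h3 : δ ^ 2 ≤ (1 / 1000) ^ 2 := pow_le_pow_left₀ hδ0.le hδe 2
    have h4 : δ ^ 2 * τ ^ 2 ≤ (1 / 1000) ^ 2 * τ ^ 2 := mul_le_mul_of_nonneg_right h3 (sq_nonneg _)
    by_contra hcon
    push Not at hcon
    have h6 : τ ^ 2 ≤ 200 ^ 2 := pow_le_pow_left₀ hτ0.le hcon.le 2
    linarith
  by_cases hA : 4 + y ≤ κ * τ ^ 2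
  · -- Case A
    have h1 := num_A hκ hz0.le hy0 (by linarith) g1 (hzA _ hA) hηF hD2
    linarith
  push Not at hA
  have hκτ5 : κ * τ ^ 2 ≤ 5 := by linarith
  by_cases hm1 : y ≤ ∑ i ∈ univ.filter (fun i => k i = 1), a i ^ 2
  · -- Case B
    obtain ⟨σ', hσ', hhit, hVV⟩ := RT1 n a δ τ ∅ k h hδc ha hirr hane hτ0
      (by rw [Finset.compl_empty]; exact hsum)
      (by rw [Finset.compl_empty, horth, abs_zero]; exact hε₄.le)
      (by rw [Finset.sum_empty]; exact hε₄.le)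
      (by rw [Finset.compl_empty]; exact hm1) (by rw [← hκe]; exact hκτ5)
    rw [← hV] at hVV
    have hVb := V_bound h (by linarith : 100 ≤ τ) hσ' hhit hVV
    rw [← hz, ← hg] at hVb
    have h1 := num_B hκ hz0.le (by linarith) (hzA _ hlo) hD2 hVb
    linarith
  push Not at hm1
  -- Case C
  obtain ⟨t, ht⟩ : ∃ t : ℝ, t = 8 * C₁ ^ 2 * δ ^ 2 + 5 * (δ * C₁) + δ ^ 2 * C₁ ^ 2 := ⟨_, rfl⟩
  have hty : t ≤ y := by
    rw [ht]
    have h1 : 8 * C₁ ^ 2 * δ ^ 2 ≤ 8 * C₁ ^ 2 * δ := mul_le_mul_of_nonneg_left hδ2 (by positivity)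
    have h2 : δ ^ 2 * C₁ ^ 2 ≤ δ * C₁ ^ 2 := mul_le_mul_of_nonneg_right hδ2 (by positivity)
    linarith
  obtain ⟨m1, m2, m3⟩ := masses h hk hC0.le hsum (by rw [← hκe]; linarith)
    (by rw [← hκe]; exact hκτ5) hm1.le ht.ge
  rw [← hκe] at m1 m2
  have hz399 : z * 3.99 ≤ κ := hzA _ (by linarith)
  have h3mass : ∑ i ∈ univ.filter (fun i => 3 ≤ k i), a i ^ 2 ≤ y := by linarith
  by_cases hC1 : |PP a (Real.pi * τ)| ≤ 1 / 2
  · -- Case C1
    have hT := TT_le_half hC1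
    have hg' : g ≤ 2 / 3 - 0.2 := by
      rw [hg]
      have h1 : 4 / Real.pi ^ 2 * TT a (Real.pi * τ) ≤
          4 / Real.pi ^ 2 * (Real.pi ^ 2 / 6 - 1 / 2) := mul_le_mul_of_nonneg_left hT (by positivity)
      have h2 : 4 / Real.pi ^ 2 * (Real.pi ^ 2 / 6 - 1 / 2) = 2 / 3 - 4 / Real.pi ^ 2 / 2 := by
        have := Real.pi_ne_zero
        field_simp
        ring
      linarith
    have h1 := num_C1 hκ hz0.le (by linarith) hz399 hg' hD2
    linarith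
  · -- Case C2
    push Not at hC1
    have hsum' : ∑ i, (τ * a i - k i) ^ 2 ≤ 0.16 := exp_small (lt_of_lt_of_le hC1 hPP1)
    have hodd : ∑ i ∈ univ.filter (fun i => Odd (k i)), a i ^ 2 ≤ 2 * y := by
      have h1 : univ.filter (fun i => Odd (k i)) ⊆
          univ.filter (fun i => k i = 1) ∪ univ.filter (fun i => 3 ≤ k i) := by
        intro i hi
        have h2 := (Finset.mem_filter.mp hi).2
        obtain ⟨m, hm⟩ := h2
        have h3 := hk i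
        rw [Finset.mem_union, Finset.mem_filter, Finset.mem_filter]
        have : k i = 1 ∨ 3 ≤ k i := by omega
        rcases this with h4 | h4
        · exact Or.inl ⟨Finset.mem_univ _, h4⟩
        · exact Or.inr ⟨Finset.mem_univ _, h4⟩
      have h2 : ∑ i ∈ univ.filter (fun i => Odd (k i)), a i ^ 2 ≤
          ∑ i ∈ univ.filter (fun i => k i = 1) ∪ univ.filter (fun i => 3 ≤ k i), a i ^ 2 :=
        Finset.sum_le_sum_of_subset_of_nonneg h1 (fun i _ _ => sq_nonneg _)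
      have h3 := Finset.sum_union_inter (s₁ := univ.filter (fun i => k i = 1))
        (s₂ := univ.filter (fun i => 3 ≤ k i)) (f := fun i => a i ^ 2)
      have h4 : 0 ≤ ∑ i ∈ univ.filter (fun i => k i = 1) ∩ univ.filter (fun i => 3 ≤ k i), a i ^ 2 :=
        Finset.sum_nonneg fun i _ => sq_nonneg _
      linarith
    have htwo : 1 / 2 ≤ ∑ i ∈ univ.filter (fun i => k i = 2), a i ^ 2 := by
      have h1 : ∑ i, a i ^ 2 ≤ ∑ i ∈ univ.filter (fun i => k i = 0), a i ^ 2 +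
          ∑ i ∈ univ.filter (fun i => k i = 1), a i ^ 2 +
          ∑ i ∈ univ.filter (fun i => k i = 2), a i ^ 2 +
          ∑ i ∈ univ.filter (fun i => 3 ≤ k i), a i ^ 2 := by
        rw [Finset.sum_filter, Finset.sum_filter, Finset.sum_filter, Finset.sum_filter,
          ← Finset.sum_add_distrib, ← Finset.sum_add_distrib, ← Finset.sum_add_distrib]
        apply Finset.sum_le_sum
        intro i _
        have ha2 : 0 ≤ a i ^ 2 := sq_nonneg _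
        have hk0 := hk i
        rcases lt_or_ge (k i) 3 with hlt | hge
        · have : k i = 0 ∨ k i = 1 ∨ k i = 2 := by omega
          rcases this with h0 | h0 | h0 <;> rw [h0] <;> norm_num
        · have h0 : k i ≠ 0 := by omega
          have h1 : k i ≠ 1 := by omega
          have h2 : k i ≠ 2 := by omega
          rw [if_neg h0, if_neg h1, if_neg h2, if_pos hge]
          linarith
      rw [h.unit] at h1
      linarith
    have hVb := case_C2 (x := 2 * y) h hV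
      (fun σ O k' hσ h1 h2 h3 h4 h5 => by
        have := RT2 n a δ σ O k' h hδa ha hirr hane hσ h1 h2 h3 h4 h5
        rw [← hV] at this
        exact this)
      hε₃ (by linarith) (by linarith) (by linarith) hτ200 hsum' horth hodd htwo
      (by rw [← hκe]; exact hκτ5) hηF0 hηF1 (hPPodd hκτ5)
    rw [← hz, ← hg] at hVb
    have h1 := num_C2 hκ (by linarith) hz399 hD2 hVb
    linarith

/-- (helper58) the homogeneous theorem -/
theorem hom_main :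
    ∃ c₀ : ℝ, 0 < c₀ ∧ ∃ δ₀ : ℝ, 0 < δ₀ ∧ ∀ (n : ℕ) (a : Fin n → ℝ), ∑ i, a i ^ 2 = 1 →
      (∀ i, |a i| ≤ δ₀) → (∀ x, lf a x ≠ 0) → 2 / Real.pi + c₀ * kap a ≤ ∑ i, cw a i ^ 2 := by
  obtain ⟨c₀, hc₀, δ₀, hδ₀, HR⟩ := hom_reg
  refine ⟨c₀ / 2, by positivity, δ₀ / 2, by positivity, ?_⟩
  intro n a h1 hδ hane
  obtain ⟨ε, hε⟩ : ∃ ε : ℝ, ε = min (δ₀ / 2) (1 / (100 * (n + 1))) := ⟨_, rfl⟩
  have hε0 : 0 < ε := by rw [hε]; positivity
  have hε1 : ε ≤ δ₀ / 2 := by rw [hε]; exact min_le_left _ _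
  have hε2 : (n : ℝ) * ε ≤ 1 / 100 := by
    have h2 : ε ≤ 1 / (100 * (n + 1)) := by rw [hε]; exact min_le_right _ _
    have h3 : (n : ℝ) * ε ≤ n * (1 / (100 * (n + 1))) :=
      mul_le_mul_of_nonneg_left h2 (Nat.cast_nonneg n)
    have h4 : (n : ℝ) * (1 / (100 * (n + 1))) ≤ 1 / 100 := by
      rw [mul_one_div, div_le_div_iff₀ (by positivity) (by norm_num)]
      linarith
    linarith
  have hε3 : ε ≤ 1 := by
    have h2 : ε ≤ 1 / (100 * (n + 1)) := by rw [hε]; exact min_le_right _ _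
    have h3 : 1 / (100 * ((n : ℝ) + 1)) ≤ 1 := by
      rw [div_le_one (by positivity)]
      have : (0 : ℝ) ≤ n := Nat.cast_nonneg n
      linarith
    linarith
  obtain ⟨a', ha', hirr, hane', hcw⟩ := generic_weights a hane hε0
  have hpos : ∀ i, 0 < a' i := fun i => lt_of_le_of_lt (abs_nonneg _) (ha' i).1
  have hai1 : ∀ i, |a i| ≤ 1 := by
    intro i
    have h2 : a i ^ 2 ≤ ∑ j, a j ^ 2 :=
      Finset.single_le_sum (f := fun j => a j ^ 2) (fun j _ => sq_nonneg _) (Finset.mem_univ i)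
    rw [h1] at h2
    rw [← sq_abs] at h2
    have := abs_nonneg (a i)
    nlinarith
  obtain ⟨N2, hN2⟩ : ∃ N2 : ℝ, N2 = ∑ i, a' i ^ 2 := ⟨_, rfl⟩
  have hN2lo : 1 ≤ N2 := by
    rw [hN2, ← h1]
    apply Finset.sum_le_sum
    intro i _
    rw [← sq_abs (a i)]
    exact pow_le_pow_left₀ (abs_nonneg _) (ha' i).1.le 2
  have hN2up : N2 ≤ 1.03 := by
    rw [hN2]
    have h2 : ∀ i ∈ (univ : Finset (Fin n)), a' i ^ 2 ≤ a i ^ 2 + 3 * ε := by
      intro i _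
      have h3 : a' i ^ 2 ≤ (|a i| + ε) ^ 2 := pow_le_pow_left₀ (hpos i).le (ha' i).2.le 2
      have h4 : (|a i| + ε) ^ 2 = a i ^ 2 + 2 * (|a i| * ε) + ε * ε := by
        rw [← sq_abs (a i)]; ring
      have h5 : |a i| * ε ≤ 1 * ε := mul_le_mul_of_nonneg_right (hai1 i) hε0.le
      have h6 : ε * ε ≤ 1 * ε := mul_le_mul_of_nonneg_right hε3 hε0.le
      linarith
    refine (Finset.sum_le_sum h2).trans ?_
    rw [Finset.sum_add_distrib, h1, Finset.sum_const, Finset.card_univ, Fintype.card_fin,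
      nsmul_eq_mul]
    linarith
  obtain ⟨N, hN⟩ : ∃ N : ℝ, N = Real.sqrt N2 := ⟨_, rfl⟩
  have hNsq : N ^ 2 = N2 := by rw [hN]; exact Real.sq_sqrt (by linarith)
  have hN0 : 0 < N := by rw [hN]; exact Real.sqrt_pos.mpr (by linarith)
  have hN1 : 1 ≤ N := by rw [hN]; exact Real.one_le_sqrt.mpr hN2lo
  obtain ⟨b, hb⟩ : ∃ b : Fin n → ℝ, b = fun i => N⁻¹ * a' i := ⟨_, rfl⟩
  have hNinv : 0 < N⁻¹ := inv_pos.mpr hN0
  have hbunit : ∑ i, b i ^ 2 = 1 := by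
    have e : ∀ i, b i ^ 2 = (N ^ 2)⁻¹ * a' i ^ 2 := by
      intro i; rw [hb]; simp only; rw [mul_pow, inv_pow]
    rw [Finset.sum_congr rfl fun i _ => e i, ← Finset.mul_sum, ← hN2, hNsq]
    exact inv_mul_cancel₀ (by linarith)
  have hble : ∀ i, |b i| ≤ δ₀ := by
    intro i
    rw [hb]
    simp only
    rw [abs_mul, abs_of_pos hNinv, abs_of_pos (hpos i)]
    have h2 : N⁻¹ ≤ 1 := inv_le_one_of_one_le₀ hN1
    have h3 : N⁻¹ * a' i ≤ 1 * a' i := mul_le_mul_of_nonneg_right h2 (hpos i).le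
    have h4 := (ha' i).2
    have h5 := hδ i
    linarith
  obtain ⟨δ, hReg, hδle⟩ := reg_of_unit hbunit hble
  have hbpos : ∀ i, 0 < b i := by
    intro i; rw [hb]; exact mul_pos hNinv (hpos i)
  have hbirr : ∀ i j, i ≠ j → Irrational (b i / b j) := by
    intro i j hij
    have e : b i / b j = a' i / a' j := by
      rw [hb]
      simp only
      exact mul_div_mul_left _ _ hNinv.ne'
    rw [e]
    exact hirr i j hij
  have hblf : ∀ x, lf b x ≠ 0 := by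
    intro x
    have e : lf b x = N⁻¹ * lf a' x := by
      rw [hb]; unfold lf
      rw [Finset.mul_sum]
      exact Finset.sum_congr rfl fun i _ => by ring
    rw [e]
    exact mul_ne_zero hNinv.ne' (hane' x)
  have hmain := HR n b δ hReg hδle hbpos hbirr hblf
  have hcwb : ∑ i, cw b i ^ 2 = ∑ i, cw a i ^ 2 := by
    have h2 : cw b = cw a' := by rw [hb]; exact cw_smul a' hNinv
    rw [h2]
    exact Finset.sum_congr rfl fun i _ => hcw i
  rw [hcwb] at hmain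
  have hkap : kap a / 2 ≤ kap b := by
    have h2 : kap b = (N2 ^ 2)⁻¹ * ∑ i, a' i ^ 4 := by
      unfold kap
      rw [Finset.mul_sum]
      apply Finset.sum_congr rfl
      intro i _
      rw [hb]
      simp only
      rw [← hNsq]
      field_simp
    have h3 : kap a ≤ ∑ i, a' i ^ 4 := by
      unfold kap
      apply Finset.sum_le_sum
      intro i _
      have : a i ^ 4 = |a i| ^ 4 := (Even.pow_abs (by decide) (a i)).symm
      rw [this]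
      exact pow_le_pow_left₀ (abs_nonneg _) (ha' i).1.le 4
    have h4 : (1:ℝ) / 2 ≤ (N2 ^ 2)⁻¹ := by
      rw [one_div]
      apply inv_anti₀ (by positivity)
      nlinarith
    have h5 : 0 ≤ kap a := by
      unfold kap
      exact Finset.sum_nonneg fun i _ => by positivity
    rw [h2]
    calc kap a / 2 = 1 / 2 * kap a := by ring
      _ ≤ (N2 ^ 2)⁻¹ * ∑ i, a' i ^ 4 := mul_le_mul h4 h3 h5 (by positivity)
  have h9 : c₀ * (kap a / 2) ≤ c₀ * kap b := mul_le_mul_of_nonneg_left hkap hc₀.le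
  linarith

end Pool.Agent.MP_cb3c9c_an.REG
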