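import Pool.Agent.MP_cb3c9c_an.REG.R7b
import Pool.Agent.MP_cb3c9c_an.REG.R7c
import Pool.Agent.MP_cb3c9c_an.REG.R11

set_option autoImplicit false

open Finset MeasureTheory
open scoped BigOperators

namespace Pool.Agent.MP_cb3c9c_an.REG

open Pool.Agent.MP_cb3c9c_an.TwoBlock

variable {n : ℕ}

lemma hd_abs_sub (a b : ℝ) : |a - b| ≤ |a| + |b| := by
  have := abs_add_le a (-b)
  rw [abs_neg, ← sub_eq_add_neg] at this
  exact this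

lemma hd_smooth {I : Finset (Fin n)} {ν : Fin n → ℝ} (hν : ∑ i ∈ I, ν i ^ 2 ≤ 1) {r : ℝ}
    {φ : ℝ → ℝ} (hφ1 : ∀ t, |φ t| ≤ 1) (hφ : ∀ t, r ≤ dz t → φ t = saw t)
    (w g : (Fin n → Bool) → ℝ) (hg : ∀ x, |g x| ≤ 1) :
    |Ex (fun x => lfS I ν x * saw (w x) * g x) - Ex (fun x => lfS I ν x * φ (w x) * g x)| ≤
      2 * Real.sqrt (Ex fun x => if dz (w x) ≤ r then (1 : ℝ) else 0) := by
  have h1 : Ex (fun x => lfS I ν x * saw (w x) * g x) - Ex (fun x => lfS I ν x * φ (w x) * g x) =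
      Ex (fun x => lfS I ν x * ((saw (w x) - φ (w x)) * g x)) := by
    rw [← Ex_sub]
    congr 1
    funext x
    ring
  rw [h1]
  refine (Ex_cs_abs (fun x => lfS I ν x) (fun x => (saw (w x) - φ (w x)) * g x)).trans ?_
  have h2 : Real.sqrt (Ex fun x => lfS I ν x ^ 2) ≤ 1 := by
    rw [Real.sqrt_le_one]
    rw [Ex_lfS_sq]
    exact hν
  have h3 : Real.sqrt (Ex fun x => ((saw (w x) - φ (w x)) * g x) ^ 2) ≤
      2 * Real.sqrt (Ex fun x => if dz (w x) ≤ r then (1 : ℝ) else 0) := by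
    have h4 : (Ex fun x => ((saw (w x) - φ (w x)) * g x) ^ 2) ≤
        4 * Ex (fun x => if dz (w x) ≤ r then (1 : ℝ) else 0) := by
      refine le_trans (Ex_mono fun x => ?_) (saw_smooth_norm hφ1 hφ w)
      rw [mul_pow]
      have h5 : g x ^ 2 ≤ 1 := by
        rw [← sq_abs]
        exact pow_le_one₀ (abs_nonneg _) (hg x)
      nlinarith [sq_nonneg (saw (w x) - φ (w x))]
    have h6 : Real.sqrt (4 * Ex (fun x => if dz (w x) ≤ r then (1 : ℝ) else 0)) =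
        2 * Real.sqrt (Ex fun x => if dz (w x) ≤ r then (1 : ℝ) else 0) := by
      rw [Real.sqrt_mul (by norm_num)]
      congr 1
      rw [show (4 : ℝ) = 2 ^ 2 by norm_num]
      exact Real.sqrt_sq (by norm_num)
    rw [← h6]
    exact Real.sqrt_le_sqrt h4
  calc _ ≤ 1 * (2 * Real.sqrt (Ex fun x => if dz (w x) ≤ r then (1 : ℝ) else 0)) :=
        mul_le_mul h2 h3 (Real.sqrt_nonneg _) zero_le_one
    _ = _ := one_mul _

lemma hd_exp {p q : ℝ} (hp : 0 ≤ p) (hpq : p ≤ q) :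
    |Real.exp (-p) - Real.exp (-q)| ≤ q - p := by
  have h1 : Real.exp (-q) ≤ Real.exp (-p) := Real.exp_le_exp.mpr (by linarith)
  rw [abs_of_nonneg (by linarith)]
  have h2 : Real.exp (-q) = Real.exp (-p) * Real.exp (-(q - p)) := by
    rw [← Real.exp_add]
    congr 1
    ring
  have h3 : 1 - (q - p) ≤ Real.exp (-(q - p)) := by
    have := Real.add_one_le_exp (-(q - p))
    linarith
  have h4 : Real.exp (-p) ≤ 1 := by
    rw [Real.exp_le_one_iff]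
    linarith
  have h5 := Real.exp_pos (-p)
  rw [h2]
  nlinarith

/-- ROW REG-HD (decorrelation of `Ŷ saw(z)` from `X`).

PROOF.  `φ, ψ` from `exists_smooth_saw`, `A₁ = 3/r`, `A₂ = 3/r²`; `X = lfS I b`, `z = σX + N`, `Ŷ = lfS I ν`.
By `dec_main` (R7b) with `q = σ b` (`lfS I q = σ lfS I b`), `β = N`, `ν₀ = 0`, `α = 0`, `m = κ`, `E₁ = |∑_B b_i ν_i|` (the other
factor in `hE` is `≤ 1`): `|E[Ŷφ(z) cos (ζX)] - e^{-V_B ζ²/2} E[Ŷφ(z)]| ≤` the `R`-terms (`ζ ≤ R`), `V_B = ∑_B b²`.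
`|E[Ŷ (saw z - φ z) cos]| ≤ (E (saw z - φ z)²)^{1/2} ≤ 2√P` (`saw_smooth_norm` R11), twice (also at `ζ = 0`), and
`|e^{-V_Bζ²/2} - e^{-Vζ²/2}| ≤ (V - V_B) ζ²/2`, `V = ∑_I b²`, `|E[Ŷ saw z]| ≤ 1`. -/
theorem hdec_scene {I B : Finset (Fin n)} (hBI : B ⊆ I) {b ν : Fin n → ℝ} {κ : Fin n → ℤ}
    {N : ℕ} {σ δ s r R : ℝ} (hδ0 : 0 ≤ δ) (hδ : ∀ i ∈ I, |b i| ≤ δ) (hδ1 : δ ≤ 1)
    (hb : ∑ i ∈ I, b i ^ 2 ≤ 2) (hν : ∑ i ∈ I, ν i ^ 2 ≤ 1) (hs : 0 ≤ s)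
    (hω : ∑ i ∈ B, (σ * b i - κ i) ^ 2 ≤ s ^ 2) (hr : 0 < r) (hr2 : r ≤ 1 / 4) (hR : 0 ≤ R) :
    ∀ ζ ∈ Set.Icc 0 R,
      |Ex (fun x : Fin n → Bool =>
          lfS I ν x * saw (σ * lfS I b x + N) * Real.cos (ζ * lfS I b x)) -
        Real.exp (-(∑ i ∈ I, b i ^ 2) * ζ ^ 2 / 2) *
          Ex (fun x : Fin n → Bool => lfS I ν x * saw (σ * lfS I b x + N))| ≤
      4 * Real.sqrt (Ex fun x : Fin n → Bool =>
          if dz (σ * lfS I b x + N) ≤ r then (1 : ℝ) else 0) +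
        (∑ i ∈ I \ B, b i ^ 2) * R ^ 2 / 2 +
        R * (Real.sqrt (∑ i ∈ I \ B, b i ^ 2) + 3 / r * |∑ i ∈ B, b i * (σ * b i - κ i)| +
          |∑ i ∈ B, b i * ν i|) +
        20 * R * (1 + R ^ 3) * δ * (1 + 3 / r * s + 3 / r ^ 2 * s ^ 2) := by
  rintro ζ ⟨hζ0, hζR⟩
  obtain ⟨φ, ψ, hφ2, hψ2, hφ1, hψ1, hT, hL, hφs⟩ := exists_smooth_saw hr hr2
  obtain ⟨w, hw⟩ : ∃ w : (Fin n → Bool) → ℝ, w = fun x => σ * lfS I b x + N := ⟨_, rfl⟩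
  obtain ⟨P, hP⟩ : ∃ P, P = Ex (fun x : Fin n → Bool => if dz (w x) ≤ r then (1 : ℝ) else 0) :=
    ⟨_, rfl⟩
  have hq : ∀ x : Fin n → Bool, lfS I (fun i => σ * b i) x = σ * lfS I b x := fun x => by
    unfold lfS
    rw [Finset.mul_sum]
    exact Finset.sum_congr rfl fun i _ => by ring
  -- the smooth estimate
  have hmain := dec_main hBI (q := fun i => σ * b i) (m := κ) (β := (N : ℝ)) (ν₀ := 0) (α := 0)
    (E₁ := |∑ i ∈ B, b i * ν i|) hφ2 hψ2 hφ1 hψ1 hT hL (by simpa using hν) hδ0 hδ hδ1 hb hs hω hζ0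
    (fun ζ' _ => by
      have h1 : |Ex (fun x : Fin n → Bool =>
          φ (lfS I (fun i => σ * b i) x + N) * Real.sin (ζ' * lfS I b x + 0))| ≤ 1 := by
        apply Ex_bound
        intro x
        rw [abs_mul]
        exact mul_le_one₀ (hφ1 _) (abs_nonneg _) (Real.abs_sin_le_one _)
      calc _ ≤ |∑ i ∈ B, b i * ν i| * 1 := mul_le_mul_of_nonneg_left h1 (abs_nonneg _)
        _ = _ := mul_one _)
  simp only [hq, zero_add, add_zero, zero_mul, Real.cos_zero] at hmain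
  -- the four expectations
  obtain ⟨F, hF⟩ : ∃ F, F = Ex (fun x : Fin n → Bool =>
      lfS I ν x * φ (w x) * Real.cos (ζ * lfS I b x)) := ⟨_, rfl⟩
  obtain ⟨F0, hF0⟩ : ∃ F, F = Ex (fun x : Fin n → Bool => lfS I ν x * φ (w x) * 1) := ⟨_, rfl⟩
  obtain ⟨G, hG⟩ : ∃ F, F = Ex (fun x : Fin n → Bool =>
      lfS I ν x * saw (w x) * Real.cos (ζ * lfS I b x)) := ⟨_, rfl⟩
  obtain ⟨G0, hG0⟩ : ∃ F, F = Ex (fun x : Fin n → Bool => lfS I ν x * saw (w x) * 1) := ⟨_, rfl⟩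
  obtain ⟨VB, hVB⟩ : ∃ VB, VB = ∑ i ∈ B, b i ^ 2 := ⟨_, rfl⟩
  obtain ⟨VH, hVH⟩ : ∃ VH, VH = ∑ i ∈ I \ B, b i ^ 2 := ⟨_, rfl⟩
  have hV : ∑ i ∈ I, b i ^ 2 = VH + VB := by
    rw [hVH, hVB, Finset.sum_sdiff hBI]
  have hVB0 : 0 ≤ VB := by rw [hVB]; exact Finset.sum_nonneg fun i _ => sq_nonneg _
  have hVH0 : 0 ≤ VH := by rw [hVH]; exact Finset.sum_nonneg fun i _ => sq_nonneg _
  have hGF : |G - F| ≤ 2 * Real.sqrt P := by
    rw [hG, hF, hP]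
    exact hd_smooth hν hφ1 hφs w _ fun x => Real.abs_cos_le_one _
  have hGF0 : |G0 - F0| ≤ 2 * Real.sqrt P := by
    rw [hG0, hF0, hP]
    exact hd_smooth hν hφ1 hφs w _ fun x => by simp
  have hG01 : |G0| ≤ 1 := by
    rw [hG0]
    refine (Ex_cs_abs (fun x => lfS I ν x) (fun x => saw (w x) * 1)).trans' ?_ |>.trans ?_
    · apply le_of_eq
      congr 2
      funext x
      ring
    have h2 : Real.sqrt (Ex fun x : Fin n → Bool => lfS I ν x ^ 2) ≤ 1 := by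
      rw [Real.sqrt_le_one, Ex_lfS_sq]
      exact hν
    have h3 : Real.sqrt (Ex fun x : Fin n → Bool => (saw (w x) * 1) ^ 2) ≤ 1 := by
      rw [Real.sqrt_le_one]
      calc (Ex fun x : Fin n → Bool => (saw (w x) * 1) ^ 2) ≤ Ex (fun _ => (1 : ℝ)) :=
            Ex_mono fun x => by
              rw [mul_one, ← sq_abs]
              exact pow_le_one₀ (abs_nonneg _) (abs_saw_le _)
        _ = 1 := Ex_const 1
    exact mul_le_one₀ h2 (Real.sqrt_nonneg _) h3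
  have hmain' : |F - Real.exp (-VB * ζ ^ 2 / 2) * F0| ≤
      ζ * (Real.sqrt VH + 3 / r * |∑ i ∈ B, b i * (σ * b i - κ i)| + |∑ i ∈ B, b i * ν i|) +
        20 * ζ * (1 + ζ ^ 3) * δ * (1 + 3 / r * s + 3 / r ^ 2 * s ^ 2) := by
    rw [hF, hF0, hVB, hVH, hw]
    exact hmain
  have hexp : |Real.exp (-VB * ζ ^ 2 / 2) - Real.exp (-(VH + VB) * ζ ^ 2 / 2)| ≤ VH * ζ ^ 2 / 2 := by
    have h1 := hd_exp (p := VB * ζ ^ 2 / 2) (q := (VH + VB) * ζ ^ 2 / 2) (by positivity)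
      (by nlinarith [sq_nonneg ζ, mul_nonneg hVH0 (sq_nonneg ζ)])
    have e1 : -(VB * ζ ^ 2 / 2) = -VB * ζ ^ 2 / 2 := by ring
    have e2 : -((VH + VB) * ζ ^ 2 / 2) = -(VH + VB) * ζ ^ 2 / 2 := by ring
    rw [e1, e2] at h1
    refine h1.trans (le_of_eq ?_)
    ring
  have hE1 : |Real.exp (-VB * ζ ^ 2 / 2)| ≤ 1 := by
    rw [abs_of_pos (Real.exp_pos _), Real.exp_le_one_iff]
    have : 0 ≤ VB * ζ ^ 2 := by positivity
    linarith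
  -- the decomposition
  have hdecomp : G - Real.exp (-(VH + VB) * ζ ^ 2 / 2) * G0 =
      (G - F) + (F - Real.exp (-VB * ζ ^ 2 / 2) * F0) -
        Real.exp (-VB * ζ ^ 2 / 2) * (G0 - F0) +
        (Real.exp (-VB * ζ ^ 2 / 2) - Real.exp (-(VH + VB) * ζ ^ 2 / 2)) * G0 := by ring
  have hA : |Real.exp (-VB * ζ ^ 2 / 2) * (G0 - F0)| ≤ 2 * Real.sqrt P := by
    rw [abs_mul]
    calc _ ≤ 1 * (2 * Real.sqrt P) := mul_le_mul hE1 hGF0 (abs_nonneg _) zero_le_one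
      _ = _ := one_mul _
  have hB : |(Real.exp (-VB * ζ ^ 2 / 2) - Real.exp (-(VH + VB) * ζ ^ 2 / 2)) * G0| ≤
      VH * ζ ^ 2 / 2 := by
    rw [abs_mul]
    calc _ ≤ (VH * ζ ^ 2 / 2) * 1 := mul_le_mul hexp hG01 (abs_nonneg _) (by positivity)
      _ = _ := mul_one _
  have hmono1 : VH * ζ ^ 2 / 2 ≤ VH * R ^ 2 / 2 := by
    have : ζ ^ 2 ≤ R ^ 2 := pow_le_pow_left₀ hζ0 hζR 2
    nlinarith
  have hC0 : 0 ≤ Real.sqrt VH + 3 / r * |∑ i ∈ B, b i * (σ * b i - κ i)| +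
      |∑ i ∈ B, b i * ν i| := by positivity
  have hmono2 := mul_le_mul_of_nonneg_right hζR hC0
  have hmono3 : 20 * ζ * (1 + ζ ^ 3) * δ * (1 + 3 / r * s + 3 / r ^ 2 * s ^ 2) ≤
      20 * R * (1 + R ^ 3) * δ * (1 + 3 / r * s + 3 / r ^ 2 * s ^ 2) := by
    have h1 : ζ ^ 3 ≤ R ^ 3 := pow_le_pow_left₀ hζ0 hζR 3
    have h2 : 20 * ζ * (1 + ζ ^ 3) ≤ 20 * R * (1 + R ^ 3) := by
      apply mul_le_mul (by linarith) (by linarith) (by positivity) (by positivity)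
    have h3 : 0 ≤ 1 + 3 / r * s + 3 / r ^ 2 * s ^ 2 := by positivity
    exact mul_le_mul_of_nonneg_right (mul_le_mul_of_nonneg_right h2 hδ0) h3
  have hgoal : |G - Real.exp (-(VH + VB) * ζ ^ 2 / 2) * G0| ≤
      4 * Real.sqrt P + VH * R ^ 2 / 2 +
        R * (Real.sqrt VH + 3 / r * |∑ i ∈ B, b i * (σ * b i - κ i)| + |∑ i ∈ B, b i * ν i|) +
        20 * R * (1 + R ^ 3) * δ * (1 + 3 / r * s + 3 / r ^ 2 * s ^ 2) := by
    rw [hdecomp]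
    have t1 := abs_add_le ((G - F) + (F - Real.exp (-VB * ζ ^ 2 / 2) * F0) -
        Real.exp (-VB * ζ ^ 2 / 2) * (G0 - F0))
        ((Real.exp (-VB * ζ ^ 2 / 2) - Real.exp (-(VH + VB) * ζ ^ 2 / 2)) * G0)
    have t2 := hd_abs_sub ((G - F) + (F - Real.exp (-VB * ζ ^ 2 / 2) * F0))
        (Real.exp (-VB * ζ ^ 2 / 2) * (G0 - F0))
    have t3 := abs_add_le (G - F) (F - Real.exp (-VB * ζ ^ 2 / 2) * F0)
    linarith
  rw [hG, hG0, hP, hVH, hw] at hgoal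
  rw [← Finset.sum_sdiff hBI, ← hVB]
  simp only [mul_one] at hgoal
  exact hgoal

end Pool.Agent.MP_cb3c9c_an.REG
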