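import Pool.Agent.MP_cb3c9c_an.REG.S0

set_option autoImplicit false

open Finset MeasureTheory
open scoped BigOperators

namespace Pool.Agent.MP_cb3c9c_an.REG

open Pool.Agent.MP_cb3c9c_an.TwoBlock

variable {n : ℕ}

/-- Odd version of the sawtooth: `saw t` if `t` is not an even integer, `0` at the even integers. -/
noncomputable def saw0 (t : ℝ) : ℝ := (saw t - saw (-t)) / 2

/-- The square, continuous version: `1` at the even integers. -/
noncomputable def ssq (t : ℝ) : ℝ := saw t ^ 2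

/-- ROW REG-L1 (five statements). -/
theorem saw0_neg (t : ℝ) : saw0 (-t) = - saw0 t := by
  unfold saw0
  rw [neg_neg]
  ring

/-- PROOF.  `saw_neg` (S0). -/
theorem saw0_of_ne {t : ℝ} (h : ∀ m : ℤ, t ≠ 2 * m) : saw0 t = saw t := by
  unfold saw0
  rw [saw_neg h]
  ring

lemma L1_saw_even (m : ℤ) : saw (2 * m) = -1 := by
  have h1 := saw_add_two_mul 0 m
  rw [zero_add] at h1
  rw [h1]
  unfold saw
  simp

/-- PROOF.  `saw (2m) = -1 = saw (-2m)`. -/
theorem saw0_even (m : ℤ) : saw0 (2 * m) = 0 := by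
  unfold saw0
  have h1 := L1_saw_even m
  have h2 := L1_saw_even (-m)
  push_cast at h2
  rw [mul_neg] at h2
  rw [h1, h2]
  ring

/-- Two-point identity: if `u, v` are not even integers then, with `Δ = saw u - saw v`,
`2 Δ saw0 (u - v) = Δ² - (1 - ssq (u - v))`.

PROOF.  `|Δ| < 2` (`abs_saw_lt`) and `Δ - (u - v) ∈ 2ℤ` (`sub_saw`).  If `u - v ∈ 2ℤ`: `Δ ∈ 2ℤ`, `|Δ| < 2`, so `Δ = 0`;
`ssq (u-v) = 1`.  Otherwise `Δ - saw (u-v)` is an odd integer of absolute value `< 3`, i.e. `Δ = s + ε`, `ε = ±1`,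
`s = saw (u-v)`; `2Δs = 2s² + 2εs`, `Δ² - (1 - s²) = 2s² + 2εs`. -/
theorem saw_two_point {u v : ℝ} (hu : ∀ m : ℤ, u ≠ 2 * m) (hv : ∀ m : ℤ, v ≠ 2 * m) :
    2 * (saw u - saw v) * saw0 (u - v) = (saw u - saw v) ^ 2 - (1 - ssq (u - v)) := by
  obtain ⟨m, hm⟩ := sub_saw u
  obtain ⟨k, hk⟩ := sub_saw v
  have hu1 := abs_lt.mp (abs_saw_lt hu)
  have hv1 := abs_lt.mp (abs_saw_lt hv)
  by_cases h : ∃ p : ℤ, u - v = 2 * p
  · obtain ⟨p, hp⟩ := h
    have hΔ : saw u - saw v = ((2 * (p - m + k) : ℤ) : ℝ) := by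
      push_cast
      linarith
    have h1 : ((2 * (p - m + k) : ℤ) : ℝ) < ((2 : ℤ) : ℝ) := by
      rw [← hΔ]; push_cast; linarith [hu1.2, hv1.1]
    have h2 : ((-2 : ℤ) : ℝ) < ((2 * (p - m + k) : ℤ) : ℝ) := by
      rw [← hΔ]; push_cast; linarith [hu1.1, hv1.2]
    have h3 := Int.cast_lt.mp h1
    have h4 := Int.cast_lt.mp h2
    have h5 : 2 * (p - m + k) = 0 := by omega
    have h6 : saw u - saw v = 0 := by rw [hΔ, h5]; simp
    rw [h6]
    unfold ssq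
    rw [hp, L1_saw_even]
    ring
  · push Not at h
    rw [saw0_of_ne h]
    obtain ⟨j, hj⟩ := sub_saw (u - v)
    have hs1 := abs_lt.mp (abs_saw_lt h)
    have hΔ : saw u - saw v = saw (u - v) + ((2 * (j - m + k) + 1 : ℤ) : ℝ) := by
      push_cast
      linarith
    have h1 : ((2 * (j - m + k) + 1 : ℤ) : ℝ) < ((3 : ℤ) : ℝ) := by
      have : ((2 * (j - m + k) + 1 : ℤ) : ℝ) = saw u - saw v - saw (u - v) := by linarith
      rw [this]; push_cast; linarith [hu1.2, hv1.1, hs1.1]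
    have h2 : ((-3 : ℤ) : ℝ) < ((2 * (j - m + k) + 1 : ℤ) : ℝ) := by
      have : ((2 * (j - m + k) + 1 : ℤ) : ℝ) = saw u - saw v - saw (u - v) := by linarith
      rw [this]; push_cast; linarith [hu1.1, hv1.2, hs1.2]
    have h3 := Int.cast_lt.mp h1
    have h4 := Int.cast_lt.mp h2
    have h5 : 2 * (j - m + k) + 1 = 1 ∨ 2 * (j - m + k) + 1 = -1 := by omega
    have h6 : ((2 * (j - m + k) + 1 : ℤ) : ℝ) ^ 2 = 1 := by
      rcases h5 with h5 | h5 <;> rw [h5] <;> norm_num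
    rw [hΔ]
    unfold ssq
    generalize ((2 * (j - m + k) + 1 : ℤ) : ℝ) = E at h6
    have h7 : 2 * (saw (u - v) + E) * saw (u - v) =
      (saw (u - v) + E) ^ 2 - E ^ 2 + saw (u - v) ^ 2 := by ring
    rw [h7, h6]
    ring

lemma L1_dich (t : ℝ) : (saw0 t = 0 ∧ ssq t = 1) ∨
    (saw0 t ^ 2 = ssq t ∧ ∃ m : ℤ, t - saw0 t = 2 * m + 1) := by
  by_cases h : ∃ p : ℤ, t = 2 * p
  · obtain ⟨p, rfl⟩ := h
    left
    refine ⟨saw0_even p, ?_⟩
    unfold ssq
    rw [L1_saw_even]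
    norm_num
  · push Not at h
    right
    rw [saw0_of_ne h]
    exact ⟨rfl, sub_saw t⟩

/-- Three-point inequality.

PROOF.  Let `α = u-v, β = v-w, γ = w-u`, `α+β+γ = 0`, `s = saw0`.  By `saw0_neg` the left side is
`-(s α s γ + s β s α + s γ s β) = ½ (s α² + s β² + s γ² - (s α + s β + s γ)²)`.  Also `ssq` is even.
(i) none of `α, β, γ` in `2ℤ`: `s² = ssq`, and `s α + s β + s γ` is an odd integer (`sub_saw`), so its square is `≥ 1`.
(ii) exactly one, say `α ∈ 2ℤ` : `s α = 0`, `ssq α = 1`, `γ ≡ -β` mod 2, so `s γ = - s β`, both sides are `s β²`.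
(iii) two (hence all) in `2ℤ`: left side `0`, right side `½ (3 - 1) = 1`. -/
theorem saw_three_point (u v w : ℝ) :
    saw0 (u - v) * saw0 (u - w) + saw0 (v - u) * saw0 (v - w) + saw0 (w - u) * saw0 (w - v) ≤
      (1 / 2) * (ssq (u - v) + ssq (v - w) + ssq (w - u) - 1) := by
  have e1 : saw0 (u - w) = - saw0 (w - u) := by rw [← saw0_neg]; congr 1; ring
  have e2 : saw0 (v - u) = - saw0 (u - v) := by rw [← saw0_neg]; congr 1; ring
  have e3 : saw0 (w - v) = - saw0 (v - w) := by rw [← saw0_neg]; congr 1; ring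
  rw [e1, e2, e3]
  have nα : 0 ≤ ssq (u - v) := by unfold ssq; positivity
  have nβ : 0 ≤ ssq (v - w) := by unfold ssq; positivity
  have nγ : 0 ≤ ssq (w - u) := by unfold ssq; positivity
  rcases L1_dich (u - v) with ⟨a1, a2⟩ | ⟨a1, p, a2⟩ <;>
    rcases L1_dich (v - w) with ⟨b1, b2⟩ | ⟨b1, q, b2⟩ <;>
    rcases L1_dich (w - u) with ⟨c1, c2⟩ | ⟨c1, r, c2⟩
  · rw [a1, a2, b1, b2, c1, c2]; norm_num
  · rw [a1, a2, b1, b2]; linarith
  · rw [a1, a2, c1, c2]; linarith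
  · rw [a1, a2]
    nlinarith [sq_nonneg (saw0 (v - w) + saw0 (w - u))]
  · rw [b1, b2, c1, c2]; linarith
  · rw [b1, b2]
    nlinarith [sq_nonneg (saw0 (u - v) + saw0 (w - u))]
  · rw [c1, c2]
    nlinarith [sq_nonneg (saw0 (u - v) + saw0 (v - w))]
  · have h1 : saw0 (u - v) + saw0 (v - w) + saw0 (w - u) = ((-(2 * (p + q + r + 1) + 1) : ℤ) : ℝ) := by
      push_cast
      linarith
    have h2 : 1 ≤ (saw0 (u - v) + saw0 (v - w) + saw0 (w - u)) ^ 2 := by
      rw [h1]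
      have h3 : (-(2 * (p + q + r + 1) + 1) : ℤ) ≠ 0 := by omega
      have h4 : (1 : ℤ) ≤ (-(2 * (p + q + r + 1) + 1) : ℤ) ^ 2 := by
        have := sq_pos_of_ne_zero h3
        omega
      exact_mod_cast h4
    nlinarith

end Pool.Agent.MP_cb3c9c_an.REG
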