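import Pool.Agent.MP_cb3c9c_an.REG.L1

set_option autoImplicit false

open Finset MeasureTheory
open scoped BigOperators

namespace Pool.Agent.MP_cb3c9c_an.REG

open Pool.Agent.MP_cb3c9c_an.TwoBlock

variable {n : ℕ}

/-- ROW REG-L2 (two-block inequality for the sawtooth).

PROOF.  `F a b = saw (X a + Y b)`, `h a = E_b F`, `g b = E_a F`, `m = E F`, `D a = E_{a'} saw0 (X a - X a')`,
`σ = E_{a,a'} ssq (X a - X a')`.
(1) Apply `saw_two_point` with `u = X a + Y b`, `v = X a' + Y b` and average over `a, a', b`: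
`2 E (F a b - F a' b) saw0 (X a - X a') = E (F a b - F a' b)² - (1 - σ)`.  By antisymmetry the left side is
`4 E_a h(a) D(a)`, and `E (F - F')² = 2 E F² - 2 E g²`.  So `2 E h D = E F² - E g² - (1 - σ)/2`.
(2) `E D² = E_{a,a',a''} saw0 (X a - X a') saw0 (X a - X a'')`; sum over the three cyclic versions (same value, by
`Ex_comm`) and `saw_three_point`: `3 E D² ≤ ½ (3σ - 1)`.
(3) `E D = 0` (`saw0_neg`), so `0 ≤ E (h - m - D)² = E h² - m² - 2 E h D + E D²`.
Insert (1), (2): `0 ≤ E h² - m² - E F² + E g² + (1 - σ)/2 + σ/2 - 1/6`, which is the claim.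
(Compare `core0` in `TwoBlockCore.lean`, the same proof for `sg`; it can be copied and adapted.) -/
theorem saw_core {α β : Type} [Fintype α] [Fintype β] [Nonempty α] [Nonempty β] (X : α → ℝ)
    (Y : β → ℝ) (hne : ∀ a b, ∀ m : ℤ, X a + Y b ≠ 2 * m) :
    (Ex fun a => Ex fun b => saw (X a + Y b) ^ 2) +
        (Ex fun a => Ex fun b => saw (X a + Y b)) ^ 2 ≤
      1 / 3 + (Ex fun a => (Ex fun b => saw (X a + Y b)) ^ 2) +
        Ex fun b => (Ex fun a => saw (X a + Y b)) ^ 2 := by
  set h : α → ℝ := fun a => Ex fun b => saw (X a + Y b) with hh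
  set g : β → ℝ := fun b => Ex fun a => saw (X a + Y b) with hg
  set D : α → ℝ := fun a => Ex fun a' => saw0 (X a - X a') with hD
  set M2 : ℝ := Ex fun a => Ex fun b => saw (X a + Y b) ^ 2 with hM2
  set σ : ℝ := Ex fun a => Ex fun a' => ssq (X a - X a') with hσ
  set m : ℝ := Ex h with hm
  -- (1)
  have h1 : 2 * (Ex fun a => h a * D a) = M2 - (Ex fun b => g b ^ 2) - (1 - σ) / 2 := by
    have e1 : (Ex fun a => h a * D a) =
        Ex fun a => Ex fun a' => Ex fun b => saw (X a + Y b) * saw0 (X a - X a') := by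
      congr 1; funext a
      simp only [hh, hD]
      rw [← Ex_mul]
      congr 1; funext a'
      rw [← Ex_mul']
    have e2 : (Ex fun a => h a * D a) =
        Ex fun a => Ex fun a' => Ex fun b => - (saw (X a' + Y b) * saw0 (X a - X a')) := by
      rw [e1, Ex_comm]
      congr 1; funext a; congr 1; funext a'; congr 1; funext b
      have : saw0 (X a' - X a) = - saw0 (X a - X a') := by rw [← saw0_neg]; congr 1; ring
      rw [this]; ring
    have e4 : (Ex fun b => g b ^ 2) =
        Ex fun a => Ex fun a' => Ex fun b => saw (X a + Y b) * saw (X a' + Y b) := by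
      have : (Ex fun b => g b ^ 2) =
          Ex fun b => Ex fun a => Ex fun a' => saw (X a + Y b) * saw (X a' + Y b) := by
        congr 1; funext b
        simp only [hg]
        rw [pow_two, ← Ex_mul']
        congr 1; funext a
        rw [← Ex_mul]
      rw [this, Ex_comm]
      congr 1; funext a
      rw [Ex_comm]
    calc 2 * (Ex fun a => h a * D a) = (Ex fun a => h a * D a) + (Ex fun a => h a * D a) := by ring
      _ = Ex fun a => Ex fun a' => Ex fun b => ((1 / 2) * saw (X a + Y b) ^ 2 +
            (1 / 2) * saw (X a' + Y b) ^ 2 - saw (X a + Y b) * saw (X a' + Y b)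
            + (1 / 2) * ssq (X a - X a') - 1 / 2) := by
        nth_rewrite 1 [e1]
        rw [e2, ← Ex_add]
        congr 1; funext a
        rw [← Ex_add]
        congr 1; funext a'
        rw [← Ex_add]
        congr 1; funext b
        have := saw_two_point (u := X a + Y b) (v := X a' + Y b) (hne a b) (hne a' b)
        have e0 : X a + Y b - (X a' + Y b) = X a - X a' := by ring
        rw [e0] at this
        linarith
      _ = _ := by
        simp only [Ex_sub, Ex_add, Ex_mul, Ex_const]
        rw [← e4, ← hM2, ← hσ]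
        ring
  -- (2)
  have h2 : (Ex fun a => D a ^ 2) ≤ (3 * σ - 1) / 6 := by
    have e1 : (Ex fun a => D a ^ 2) =
        Ex fun a => Ex fun a' => Ex fun a'' => saw0 (X a - X a') * saw0 (X a - X a'') := by
      congr 1; funext a
      simp only [hD]
      rw [pow_two, ← Ex_mul']
      congr 1; funext a'
      rw [← Ex_mul]
    have e2 : (Ex fun a => D a ^ 2) =
        Ex fun a => Ex fun a' => Ex fun a'' => saw0 (X a' - X a) * saw0 (X a' - X a'') := by
      rw [e1, Ex_comm]
    have e3 : (Ex fun a => D a ^ 2) =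
        Ex fun a => Ex fun a' => Ex fun a'' => saw0 (X a'' - X a) * saw0 (X a'' - X a') := by
      rw [e1, Ex_comm]
      have : ∀ a' : α, (Ex fun a => Ex fun a'' => saw0 (X a - X a') * saw0 (X a - X a'')) =
          Ex fun a'' => Ex fun a => saw0 (X a - X a') * saw0 (X a - X a'') := fun a' => Ex_comm _
      simp only [this]
    have f1 : (Ex fun a : α => Ex fun a' : α => Ex fun _a'' : α => ssq (X a - X a')) = σ := by
      simp only [Ex_const, hσ]
    have f2 : (Ex fun _a : α => Ex fun a' : α => Ex fun a'' : α => ssq (X a' - X a'')) = σ := by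
      rw [Ex_const]
    have f3 : (Ex fun a : α => Ex fun _a' : α => Ex fun a'' : α => ssq (X a'' - X a)) = σ := by
      simp only [Ex_const]
      rw [Ex_comm]
    have e4 : 3 * (Ex fun a => D a ^ 2) ≤ (3 * σ - 1) / 2 := by
      calc 3 * (Ex fun a => D a ^ 2) = (Ex fun a => D a ^ 2) + (Ex fun a => D a ^ 2) +
            (Ex fun a => D a ^ 2) := by ring
        _ = Ex fun a => Ex fun a' => Ex fun a'' => (saw0 (X a - X a') * saw0 (X a - X a'') +
              saw0 (X a' - X a) * saw0 (X a' - X a'') +
              saw0 (X a'' - X a) * saw0 (X a'' - X a')) := by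
            simp only [Ex_add]
            rw [← e1, ← e2, ← e3]
        _ ≤ Ex fun a : α => Ex fun a' : α => Ex fun a'' : α =>
              ((1 / 2) * (ssq (X a - X a') + ssq (X a' - X a'') + ssq (X a'' - X a) - 1)) :=
            Ex_mono fun a => Ex_mono fun a' => Ex_mono fun a'' => saw_three_point _ _ _
        _ = _ := by
            simp only [Ex_mul, Ex_sub, Ex_add, Ex_const]
            simp only [Ex_const] at f1 f2 f3
            rw [f1, f3]
            ring
    linarith
  -- (3)
  have h3 : Ex D = 0 := by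
    have e1 : Ex D = Ex fun a => Ex fun a' => saw0 (X a - X a') := rfl
    have e2 : Ex D = Ex fun a => Ex fun a' => - saw0 (X a - X a') := by
      rw [e1, Ex_comm]
      congr 1; funext a; congr 1; funext a'
      rw [← saw0_neg]; congr 1; ring
    have e3 : (Ex fun a => Ex fun a' => - saw0 (X a - X a')) = - Ex D := by
      rw [e1]
      simp only [Ex_neg]
    linarith
  have h5 : 0 ≤ Ex fun a => (h a - m - D a) ^ 2 := Ex_nonneg fun a => sq_nonneg _
  have h6 : ∀ r : ℝ, (Ex fun a => (h a - r - D a) ^ 2) =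
      (Ex fun a => h a ^ 2) - 2 * (Ex fun a => h a * D a) + (Ex fun a => D a ^ 2)
        - 2 * r * (Ex fun a => h a) + 2 * r * (Ex fun a => D a) + r ^ 2 := by
    intro r
    have hc : r ^ 2 = Ex fun _ : α => r ^ 2 := (Ex_const _).symm
    rw [hc, ← Ex_mul, ← Ex_mul, ← Ex_mul, ← Ex_sub, ← Ex_add, ← Ex_sub, ← Ex_add, ← Ex_add]
    congr 1; funext a; ring
  have h7 : (Ex fun a => h a) = m := rfl
  have h8 : (Ex fun a => D a) = 0 := h3
  rw [h6, h7, h8] at h5
  change M2 + m ^ 2 ≤ 1 / 3 + (Ex fun a => h a ^ 2) + Ex fun b => g b ^ 2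
  nlinarith [h1, h2, h5]

end Pool.Agent.MP_cb3c9c_an.REG
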