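import Pool.Agent.MP_cb3c9c_an.REG.Base

set_option autoImplicit false

open Finset MeasureTheory
open scoped BigOperators

namespace Pool.Agent.MP_cb3c9c_an.REG

open Pool.Agent.MP_cb3c9c_an.TwoBlock

variable {n : ℕ}

/-! ROW REG-N1: elementary facts on `dp u = |u - π round (u/π)|`, the distance to `π ℤ`. -/

theorem n1_eq (u : ℝ) (m : ℤ) : |u - Real.pi * m| = Real.pi * |u / Real.pi - m| := by
  have hp := Real.pi_pos
  have e : u - Real.pi * m = Real.pi * (u / Real.pi - m) := by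
    field_simp
  rw [e, abs_mul, abs_of_pos hp]

/-- PROOF.  `|u/π - m| ≥ |u/π - round (u/π)|` (`round_le`), multiply by `π`. -/
theorem dp_le (u : ℝ) (m : ℤ) : dp u ≤ |u - Real.pi * m| := by
  unfold dp
  rw [n1_eq, n1_eq]
  exact mul_le_mul_of_nonneg_left (round_le _ _) Real.pi_pos.le

theorem dp_nonneg (u : ℝ) : 0 ≤ dp u := abs_nonneg _

/-- PROOF.  `abs_sub_round`. -/
theorem dp_le_half (u : ℝ) : dp u ≤ Real.pi / 2 := by
  unfold dp
  rw [n1_eq]
  have h1 := abs_sub_round (u / Real.pi)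
  have h2 := mul_le_mul_of_nonneg_left h1 Real.pi_pos.le
  linarith

theorem n1_far (u : ℝ) {m : ℤ} (hm : m ≠ 0) : Real.pi - |u| ≤ |u - Real.pi * m| := by
  have h1 : (1 : ℝ) ≤ |(m : ℝ)| := by
    have h2 : (1 : ℤ) ≤ |m| := Int.one_le_abs hm
    exact_mod_cast h2
  have h2 : |Real.pi * m| ≤ |u| + |u - Real.pi * m| := by
    calc |Real.pi * m| = |u - (u - Real.pi * m)| := by congr 1; ring
      _ ≤ _ := abs_sub _ _
  rw [abs_mul, abs_of_pos Real.pi_pos] at h2
  nlinarith [Real.pi_pos]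

/-- PROOF.  `≤`: `dp_le u 0`.  `≥`: for every integer `m ≠ 0`, `|u - π m| ≥ π - |u| ≥ π/2 ≥ |u|`. -/
theorem dp_eq_abs {u : ℝ} (h : |u| ≤ Real.pi / 2) : dp u = |u| := by
  apply le_antisymm
  · have h1 := dp_le u 0
    simpa using h1
  · unfold dp
    by_cases hm : round (u / Real.pi) = 0
    · rw [hm]; simp
    · have h1 := n1_far u hm
      linarith

/-- For `π/2 ≤ |u| ≤ π`.  PROOF.  every integer `m` satisfies `|u - π m| ≥ π - |u|`
(`m = 0`: `|u| ≥ π - |u|`; `|m| ≥ 1`: triangle inequality). -/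
theorem dp_ge_sub {u : ℝ} (h : Real.pi / 2 ≤ |u|) : Real.pi - |u| ≤ dp u := by
  unfold dp
  by_cases hm : round (u / Real.pi) = 0
  · rw [hm]
    simp only [Int.cast_zero, mul_zero, sub_zero]
    linarith
  · exact n1_far u hm

theorem dp_neg (u : ℝ) : dp (-u) = dp u := by
  have key : ∀ s : ℝ, dp (-s) ≤ dp s := by
    intro s
    have h1 := dp_le (-s) (-round (s / Real.pi))
    refine h1.trans (le_of_eq ?_)
    unfold dp
    push_cast
    rw [← abs_neg]
    congr 1
    ring
  apply le_antisymm (key u)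
  have h2 := key (-u)
  rwa [neg_neg] at h2

/-- PROOF.  `dp_le (u+v) (round (u/π) + round (v/π))`. -/
theorem dp_add (u v : ℝ) : dp (u + v) ≤ dp u + dp v := by
  refine (dp_le (u + v) (round (u / Real.pi) + round (v / Real.pi))).trans ?_
  unfold dp
  push_cast
  have e : u + v - Real.pi * ((round (u / Real.pi) : ℝ) + (round (v / Real.pi) : ℝ)) =
      (u - Real.pi * (round (u / Real.pi) : ℝ)) + (v - Real.pi * (round (v / Real.pi) : ℝ)) := by
    ring
  rw [e]
  exact abs_add_le _ _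

/-- PROOF.  `dp_le u (round (v/π))` and symmetry. -/
theorem abs_dp_sub_le (u v : ℝ) : |dp u - dp v| ≤ |u - v| := by
  have key : ∀ s t : ℝ, dp s ≤ dp t + |s - t| := by
    intro s t
    refine (dp_le s (round (t / Real.pi))).trans ?_
    have h1 : s - Real.pi * (round (t / Real.pi) : ℝ) =
        (t - Real.pi * (round (t / Real.pi) : ℝ)) + (s - t) := by ring
    rw [h1]
    exact abs_add_le _ _
  rw [abs_le]
  have h1 := key u v
  have h2 := key v u
  rw [abs_sub_comm v u] at h2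
  constructor <;> linarith

theorem continuous_dp : Continuous dp := by
  have h : LipschitzWith 1 dp := by
    apply LipschitzWith.mk_one
    intro x y
    rw [Real.dist_eq, Real.dist_eq]
    exact abs_dp_sub_le x y
  exact h.continuous

theorem n1_cos_exp {y : ℝ} (h0 : 0 ≤ y) (h1 : y ≤ Real.pi / 2) :
    Real.cos y ≤ Real.exp (-y ^ 2 / 2) := by
  have hd : ∀ x : ℝ, HasDerivAt (fun x : ℝ => Real.exp (x ^ 2 / 2) * Real.cos x)
      (Real.exp (x ^ 2 / 2) * x * Real.cos x + Real.exp (x ^ 2 / 2) * (-Real.sin x)) x := by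
    intro x
    have h2 : HasDerivAt (fun x : ℝ => x ^ 2 / 2) x x := by
      have := (hasDerivAt_pow 2 x).div_const 2
      simpa using this
    exact (h2.exp).mul (Real.hasDerivAt_cos x)
  have hanti : AntitoneOn (fun x : ℝ => Real.exp (x ^ 2 / 2) * Real.cos x)
      (Set.Icc 0 (Real.pi / 2)) := by
    apply antitoneOn_of_deriv_nonpos (convex_Icc 0 (Real.pi / 2))
    · exact fun x _ => (hd x).continuousAt.continuousWithinAt
    · exact fun x _ => (hd x).differentiableAt.differentiableWithinAt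
    · intro x hx
      rw [interior_Icc] at hx
      rw [(hd x).deriv]
      have h3 : 0 < Real.cos x :=
        Real.cos_pos_of_mem_Ioo ⟨by linarith [hx.1, Real.pi_pos], hx.2⟩
      have h4 := Real.le_tan hx.1.le hx.2
      rw [Real.tan_eq_sin_div_cos, le_div_iff₀ h3] at h4
      have h5 := Real.exp_pos (x ^ 2 / 2)
      nlinarith
  have h2 := hanti (Set.left_mem_Icc.2 (by positivity)) (Set.mem_Icc.2 ⟨h0, h1⟩) h0
  simp only at h2
  have e : Real.exp (-y ^ 2 / 2) = (Real.exp (y ^ 2 / 2))⁻¹ := by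
    rw [← Real.exp_neg]
    congr 1
    ring
  rw [e, ← one_div, le_div_iff₀ (Real.exp_pos _)]
  calc Real.cos y * Real.exp (y ^ 2 / 2) = Real.exp (y ^ 2 / 2) * Real.cos y := mul_comm _ _
    _ ≤ Real.exp (0 ^ 2 / 2) * Real.cos 0 := h2
    _ = 1 := by simp

/-- PROOF.  `|cos u| = cos (dp u)` (periodicity with sign `(-1)^m`), and `cos y ≤ exp (-y²/2)` for
`0 ≤ y ≤ π/2` (e.g. `Real.cos_le_one_sub_mul_cos_sq` is not needed: `F y = exp (y²/2) cos y` has
`F' = exp (y²/2) (y cos y - sin y) ≤ 0`, or use `Real.cos_lt_one_div_sqrt_sq_add_one` and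
`1/√(1+y²)`.. any proof). -/
theorem abs_cos_le (u : ℝ) : |Real.cos u| ≤ Real.exp (-(dp u) ^ 2 / 2) := by
  have h1 : |Real.cos u| = Real.cos (dp u) := by
    have h2 : |Real.cos (dp u)| = Real.cos (dp u) := by
      apply abs_of_nonneg
      apply Real.cos_nonneg_of_mem_Icc
      have h3 := dp_nonneg u
      have h4 := dp_le_half u
      constructor <;> linarith [Real.pi_pos]
    rw [← h2]
    unfold dp
    rw [Real.cos_abs, mul_comm Real.pi, Real.cos_sub_int_mul_pi, abs_mul]
    have h5 : |((-1 : ℝ)) ^ round (u / Real.pi)| = 1 := by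
      rw [abs_zpow, abs_neg, abs_one, one_zpow]
    rw [h5, one_mul]
  rw [h1]
  exact n1_cos_exp (dp_nonneg u) (dp_le_half u)

end Pool.Agent.MP_cb3c9c_an.REG
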