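import Pool.Agent.MP_cb3c9c_an.REG.N1

set_option autoImplicit false

open Finset MeasureTheory
open scoped BigOperators

namespace Pool.Agent.MP_cb3c9c_an.REG

open Pool.Agent.MP_cb3c9c_an.TwoBlock

variable {n : ℕ}

/-! ROW REG-N2: the almost period norm `NN a t = (∑ dp (a_i t)²)^{1/2}`.
Use N1 and Minkowski's inequality for `(∑ ..²)^{1/2}` (`Real.Lp_add_le` or the norm of `EuclideanSpace ℝ (Fin n)`). -/

theorem NN_nonneg (a : Fin n → ℝ) (t : ℝ) : 0 ≤ NN a t := Real.sqrt_nonneg _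

theorem NN_sq (a : Fin n → ℝ) (t : ℝ) : NN a t ^ 2 = ∑ i, dp (a i * t) ^ 2 := by
  unfold NN
  exact Real.sq_sqrt (Finset.sum_nonneg fun i _ => sq_nonneg _)

/-- PROOF.  `abs_cos_le` for every factor and `Real.exp_sum`. -/
theorem abs_PP_le (a : Fin n → ℝ) (t : ℝ) : |PP a t| ≤ Real.exp (-(NN a t) ^ 2 / 2) := by
  have h1 : -(NN a t) ^ 2 / 2 = ∑ i, -(dp (a i * t)) ^ 2 / 2 := by
    rw [NN_sq, ← Finset.sum_div, Finset.sum_neg_distrib]
  rw [h1, Real.exp_sum]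
  unfold PP
  rw [Finset.abs_prod]
  exact Finset.prod_le_prod (fun i _ => abs_nonneg _) fun i _ => abs_cos_le _

/-- Minkowski for the Euclidean norm -/
theorem n2_mink (x y z : Fin n → ℝ) (hx : ∀ i, 0 ≤ x i) (hz : ∀ i, x i ≤ y i + z i) :
    Real.sqrt (∑ i, x i ^ 2) ≤ Real.sqrt (∑ i, y i ^ 2) + Real.sqrt (∑ i, z i ^ 2) := by
  have h1 : Real.sqrt (∑ i, x i ^ 2) ≤ Real.sqrt (∑ i, (y i + z i) ^ 2) := by
    apply Real.sqrt_le_sqrt
    exact Finset.sum_le_sum fun i _ => pow_le_pow_left₀ (hx i) (hz i) 2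
  refine h1.trans ?_
  have h2 := norm_add_le (WithLp.toLp 2 y : EuclideanSpace ℝ (Fin n)) (WithLp.toLp 2 z)
  rw [EuclideanSpace.norm_eq, EuclideanSpace.norm_eq, EuclideanSpace.norm_eq] at h2
  simpa using h2

theorem NN_add (a : Fin n → ℝ) (s t : ℝ) : NN a (s + t) ≤ NN a s + NN a t := by
  unfold NN
  apply n2_mink
  · intro i
    exact dp_nonneg _
  · intro i
    rw [mul_add]
    exact dp_add _ _

theorem NN_neg (a : Fin n → ℝ) (t : ℝ) : NN a (-t) = NN a t := by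
  unfold NN
  congr 1
  refine Finset.sum_congr rfl fun i _ => ?_
  rw [mul_neg, dp_neg]

theorem NN_sub (a : Fin n → ℝ) (s t : ℝ) : NN a (s - t) ≤ NN a s + NN a t := by
  have h := NN_add a s (-t)
  rwa [NN_neg, ← sub_eq_add_neg] at h

theorem n2_zero (a : Fin n → ℝ) : NN a 0 = 0 := by
  unfold NN
  have h : ∀ i : Fin n, dp (a i * 0) ^ 2 = 0 := by
    intro i
    rw [mul_zero, dp_eq_abs (by rw [abs_zero]; positivity)]
    simp
  rw [Finset.sum_congr rfl fun i _ => h i]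
  simp

/-- PROOF.  induction with `NN_add`. -/
theorem NN_nat_mul (a : Fin n → ℝ) (m : ℕ) (t : ℝ) : NN a (m * t) ≤ m * NN a t := by
  induction m with
  | zero => simp [n2_zero]
  | succ m ih =>
    push_cast
    rw [add_mul, one_mul, add_mul, one_mul]
    exact (NN_add a _ _).trans (by linarith)

/-- PROOF.  `dp_le` for each `i`. -/
theorem NN_sq_le_of_int (a : Fin n → ℝ) (t : ℝ) (k : Fin n → ℤ) :
    NN a t ^ 2 ≤ ∑ i, (a i * t - Real.pi * k i) ^ 2 := by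
  rw [NN_sq]
  refine Finset.sum_le_sum fun i _ => ?_
  rw [← sq_abs (a i * t - Real.pi * k i)]
  exact pow_le_pow_left₀ (dp_nonneg _) (dp_le _ _) 2

theorem NN_le_abs {a : Fin n → ℝ} (h1 : ∑ i, a i ^ 2 = 1) (t : ℝ) : NN a t ≤ |t| := by
  have h2 := NN_sq_le_of_int a t (fun _ => 0)
  have h3 : ∑ i, (a i * t - Real.pi * ((0 : ℤ) : ℝ)) ^ 2 = t ^ 2 := by
    have h4 : ∀ i : Fin n, (a i * t - Real.pi * ((0 : ℤ) : ℝ)) ^ 2 = t ^ 2 * a i ^ 2 := by
      intro i
      push_cast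
      ring
    rw [Finset.sum_congr rfl fun i _ => h4 i, ← Finset.mul_sum, h1, mul_one]
  rw [h3, ← sq_abs t] at h2
  exact le_of_sq_le_sq h2 (abs_nonneg t)

/-- PROOF.  `|a i t| ≤ δ |t| ≤ π/2`, so `dp (a i t) = |a i t|` (`dp_eq_abs`). -/
theorem NN_eq_abs {a : Fin n → ℝ} {δ : ℝ} (h : Reg a δ) {t : ℝ} (ht : |t| ≤ Real.pi / (2 * δ)) :
    NN a t = |t| := by
  have hδ := h.pos
  have h1 : NN a t ^ 2 = |t| ^ 2 := by
    rw [NN_sq, sq_abs]
    have h4 : ∀ i : Fin n, dp (a i * t) ^ 2 = t ^ 2 * a i ^ 2 := by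
      intro i
      have h5 : |a i * t| ≤ Real.pi / 2 := by
        rw [abs_mul]
        calc |a i| * |t| ≤ δ * (Real.pi / (2 * δ)) :=
              mul_le_mul (h.le i) ht (abs_nonneg _) hδ.le
          _ = Real.pi / 2 := by field_simp
      rw [dp_eq_abs h5, sq_abs]
      ring
    rw [Finset.sum_congr rfl fun i _ => h4 i, ← Finset.mul_sum, h.unit, mul_one]
  exact (pow_left_inj₀ (NN_nonneg a t) (abs_nonneg t) two_ne_zero).1 h1

/-- PROOF.  `NN a t ≤ NN a s + NN a (t - s) ≤ NN a s + |t - s|`. -/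
theorem abs_NN_sub_le {a : Fin n → ℝ} (h1 : ∑ i, a i ^ 2 = 1) (s t : ℝ) :
    |NN a s - NN a t| ≤ |s - t| := by
  have key : ∀ s t : ℝ, NN a s ≤ NN a t + |s - t| := by
    intro s t
    have h2 := NN_add a t (s - t)
    have h3 := NN_le_abs h1 (s - t)
    rw [add_sub_cancel] at h2
    linarith
  rw [abs_le]
  have h2 := key s t
  have h3 := key t s
  rw [abs_sub_comm t s] at h3
  constructor <;> linarith

theorem continuous_NN (a : Fin n → ℝ) : Continuous (NN a) := by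
  unfold NN
  apply Real.continuous_sqrt.comp
  refine continuous_finsetSum _ fun i _ => ?_
  exact (continuous_dp.comp (by fun_prop)).pow 2

end Pool.Agent.MP_cb3c9c_an.REG
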