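import Pool.Agent.MP_cb3c9c_an.REG.N2

set_option autoImplicit false

open Finset MeasureTheory
open scoped BigOperators

namespace Pool.Agent.MP_cb3c9c_an.REG

open Pool.Agent.MP_cb3c9c_an.TwoBlock

variable {n : ℕ}

/-- Minkowski's inequality for square sums. -/
theorem n3_mink {ι : Type} (s : Finset ι) (u v : ι → ℝ) {U V : ℝ} (hU : 0 ≤ U) (hV : 0 ≤ V)
    (h1 : ∑ i ∈ s, u i ^ 2 ≤ U ^ 2) (h2 : ∑ i ∈ s, v i ^ 2 ≤ V ^ 2) :
    ∑ i ∈ s, (u i + v i) ^ 2 ≤ (U + V) ^ 2 := by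
  have hcs := Finset.sum_mul_sq_le_sq_mul_sq s u v
  have hb : (∑ i ∈ s, u i * v i) ^ 2 ≤ (U * V) ^ 2 := by
    refine hcs.trans ?_
    rw [mul_pow]
    exact mul_le_mul h1 h2 (Finset.sum_nonneg fun i _ => sq_nonneg _) (sq_nonneg _)
  have hc : ∑ i ∈ s, u i * v i ≤ U * V := abs_le_of_sq_le_sq' hb (mul_nonneg hU hV) |>.2
  have he : ∑ i ∈ s, (u i + v i) ^ 2 =
      ∑ i ∈ s, u i ^ 2 + 2 * ∑ i ∈ s, u i * v i + ∑ i ∈ s, v i ^ 2 := by
    rw [Finset.mul_sum, ← Finset.sum_add_distrib, ← Finset.sum_add_distrib]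
    exact Finset.sum_congr rfl fun i _ => by ring
  rw [he]
  nlinarith

/-- ROW REG-N3.  An almost period beyond `π/(2δ)` is at least about `π/√κ`.

PROOF.  Let `S = {i : |a i| t ≤ π/2}` (`t > 0`).  For `i ∈ S`: `dp (a i t) = |a i| t` (`dp_eq_abs`), so
`t² ∑_S a_i² ≤ NN² ≤ M²` and `∑_S a_i² ≤ M²/t² ≤ (2Mδ/π)²` (as `t ≥ π/(2δ)`).  For `i ∉ S`:
`|a i t| ≥ π - dp (a i t) ≥ π/2 > 0` (`dp_ge_sub`, `dp_le_half`).  By the triangle inequality for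
`(∑_{i∉S} a_i² y_i²)^{1/2}` (`y_i ≥ 0`):
`√κ t = (∑ a_i² (a_i t)²)^{1/2} ≥ (∑_{i∉S} a_i² (π - dp_i)²)^{1/2} ≥ π (∑_{i∉S} a_i²)^{1/2} - (∑ a_i² dp_i²)^{1/2}
 ≥ π √(1 - (2Mδ/π)²) - δ M`. -/
theorem NN_far {a : Fin n → ℝ} {δ : ℝ} (h : Reg a δ) {t M : ℝ} (hM : NN a t ≤ M)
    (ht : Real.pi / (2 * δ) ≤ t) (hMδ : 2 * M * δ ≤ Real.pi) :
    Real.pi * Real.sqrt (1 - (2 * M * δ / Real.pi) ^ 2) - δ * M ≤ Real.sqrt (kap a) * t := by
  have hπ := Real.pi_pos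
  have hδ := h.pos
  have hM0 : 0 ≤ M := (NN_nonneg a t).trans hM
  have ht0 : 0 < t := lt_of_lt_of_le (by positivity) ht
  set S : Finset (Fin n) := univ.filter fun i => |a i * t| ≤ Real.pi / 2 with hS
  -- the coordinates in `S`
  have hS1 : t ^ 2 * ∑ i ∈ S, a i ^ 2 ≤ M ^ 2 := by
    calc t ^ 2 * ∑ i ∈ S, a i ^ 2 = ∑ i ∈ S, dp (a i * t) ^ 2 := by
          rw [Finset.mul_sum]
          apply Finset.sum_congr rfl
          intro i hi
          rw [dp_eq_abs (Finset.mem_filter.mp hi).2, sq_abs]; ring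
      _ ≤ ∑ i, dp (a i * t) ^ 2 :=
          Finset.sum_le_sum_of_subset_of_nonneg (Finset.subset_univ _) fun i _ _ => sq_nonneg _
      _ = NN a t ^ 2 := (NN_sq a t).symm
      _ ≤ M ^ 2 := pow_le_pow_left₀ (NN_nonneg a t) hM 2
  have hS2 : ∑ i ∈ S, a i ^ 2 ≤ (2 * M * δ / Real.pi) ^ 2 := by
    have e1 : ∑ i ∈ S, a i ^ 2 ≤ (M / t) ^ 2 := by
      rw [div_pow, le_div_iff₀ (by positivity)]
      linarith
    refine e1.trans (pow_le_pow_left₀ (by positivity) ?_ 2)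
    rw [div_le_div_iff₀ ht0 hπ]
    have e2 : Real.pi ≤ t * (2 * δ) := by
      rwa [div_le_iff₀ (by positivity)] at ht
    nlinarith
  -- the coordinates outside
  have hout : ∀ i ∈ Sᶜ, Real.pi ≤ |a i * t| + dp (a i * t) := by
    intro i hi
    have hi' : ¬ |a i * t| ≤ Real.pi / 2 := by
      intro hcon
      exact (Finset.mem_compl.mp hi) (Finset.mem_filter.mpr ⟨mem_univ i, hcon⟩)
    have := dp_ge_sub (u := a i * t) (le_of_lt (not_le.mp hi'))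
    linarith
  have hsum : ∑ i ∈ S, a i ^ 2 + ∑ i ∈ Sᶜ, a i ^ 2 = 1 := by
    rw [Finset.sum_add_sum_compl, h.unit]
  have hU : ∑ i ∈ Sᶜ, (|a i| * |a i * t|) ^ 2 ≤ (Real.sqrt (kap a) * t) ^ 2 := by
    rw [mul_pow, Real.sq_sqrt h.kap_pos.le]
    calc ∑ i ∈ Sᶜ, (|a i| * |a i * t|) ^ 2 ≤ ∑ i, (|a i| * |a i * t|) ^ 2 :=
          Finset.sum_le_sum_of_subset_of_nonneg (Finset.subset_univ _) fun i _ _ => sq_nonneg _
      _ = kap a * t ^ 2 := by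
          unfold kap
          rw [Finset.sum_mul]
          apply Finset.sum_congr rfl
          intro i _
          rw [mul_pow, sq_abs, sq_abs]; ring
  have hV : ∑ i ∈ Sᶜ, (|a i| * dp (a i * t)) ^ 2 ≤ (δ * M) ^ 2 := by
    calc ∑ i ∈ Sᶜ, (|a i| * dp (a i * t)) ^ 2 ≤ ∑ i, (|a i| * dp (a i * t)) ^ 2 :=
          Finset.sum_le_sum_of_subset_of_nonneg (Finset.subset_univ _) fun i _ _ => sq_nonneg _
      _ ≤ ∑ i, δ ^ 2 * dp (a i * t) ^ 2 := by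
          apply Finset.sum_le_sum
          intro i _
          rw [mul_pow]
          exact mul_le_mul_of_nonneg_right (pow_le_pow_left₀ (abs_nonneg _) (h.le i) 2)
            (sq_nonneg _)
      _ = δ ^ 2 * NN a t ^ 2 := by rw [← Finset.mul_sum, NN_sq]
      _ ≤ (δ * M) ^ 2 := by
          rw [mul_pow]
          exact mul_le_mul_of_nonneg_left (pow_le_pow_left₀ (NN_nonneg a t) hM 2) (sq_nonneg _)
  have hmink := n3_mink Sᶜ (fun i => |a i| * |a i * t|) (fun i => |a i| * dp (a i * t))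
    (mul_nonneg (Real.sqrt_nonneg _) ht0.le) (mul_nonneg hδ.le hM0) hU hV
  have hlow : Real.pi ^ 2 * ∑ i ∈ Sᶜ, a i ^ 2 ≤
      ∑ i ∈ Sᶜ, (|a i| * |a i * t| + |a i| * dp (a i * t)) ^ 2 := by
    rw [Finset.mul_sum]
    apply Finset.sum_le_sum
    intro i hi
    have e1 := hout i hi
    have e2 : Real.pi ^ 2 ≤ (|a i * t| + dp (a i * t)) ^ 2 := pow_le_pow_left₀ hπ.le e1 2
    calc Real.pi ^ 2 * a i ^ 2 ≤ (|a i * t| + dp (a i * t)) ^ 2 * a i ^ 2 :=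
          mul_le_mul_of_nonneg_right e2 (sq_nonneg _)
      _ = (|a i * t| + dp (a i * t)) ^ 2 * |a i| ^ 2 := by rw [sq_abs]
      _ = _ := by ring
  have hr0 : 0 ≤ 1 - (2 * M * δ / Real.pi) ^ 2 := by
    have e1 : 2 * M * δ / Real.pi ≤ 1 := by
      rw [div_le_one hπ]; exact hMδ
    have e2 : 0 ≤ 2 * M * δ / Real.pi := by positivity
    nlinarith
  have hfin : (Real.pi * Real.sqrt (1 - (2 * M * δ / Real.pi) ^ 2)) ^ 2 ≤
      (Real.sqrt (kap a) * t + δ * M) ^ 2 := by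
    rw [mul_pow, Real.sq_sqrt hr0]
    refine le_trans ?_ (hlow.trans hmink)
    exact mul_le_mul_of_nonneg_left (by linarith) (sq_nonneg _)
  have hfin2 := abs_le_of_sq_le_sq' hfin
    (add_nonneg (mul_nonneg (Real.sqrt_nonneg _) ht0.le) (mul_nonneg hδ.le hM0))
  linarith [hfin2.2]

/-- PROOF.  If `t ≤ π/(2δ)`: `t = NN a t ≤ M` (`NN_eq_abs`).  Otherwise `NN_far` with
`M δ ≤ 1/50` and `π > 3.14`: `π √(1 - (1/(25π))²) - 1/50 ≥ 3`. -/
theorem NN_sep {a : Fin n → ℝ} {δ : ℝ} (h : Reg a δ) {t M : ℝ} (hM : NN a t ≤ M) (ht : 0 ≤ t)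
    (hMδ : M * δ ≤ 1 / 50) : t ≤ M ∨ 3 ≤ Real.sqrt (kap a) * t := by
  have hπ := Real.pi_pos
  have hπ3 := Real.pi_gt_d2
  have hδ := h.pos
  have hM0 : 0 ≤ M := (NN_nonneg a t).trans hM
  rcases le_total t (Real.pi / (2 * δ)) with h1 | h1
  · left
    have h2 := NN_eq_abs h (t := t) (by rwa [abs_of_nonneg ht])
    rw [abs_of_nonneg ht] at h2
    linarith
  · right
    have h2 := NN_far h hM h1 (by linarith)
    have h3 : (98 / 100 : ℝ) ≤ Real.sqrt (1 - (2 * M * δ / Real.pi) ^ 2) := by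
      apply Real.le_sqrt_of_sq_le
      have e1 : 2 * M * δ / Real.pi ≤ 1 / 50 := by
        rw [div_le_iff₀ hπ]
        linarith
      have e2 : 0 ≤ 2 * M * δ / Real.pi := by positivity
      nlinarith
    nlinarith

end Pool.Agent.MP_cb3c9c_an.REG
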