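import Pool.Agent.MP_cb3c9c_an.REG.Base

set_option autoImplicit false

open Finset MeasureTheory
open scoped BigOperators

namespace Pool.Agent.MP_cb3c9c_an.REG

open Pool.Agent.MP_cb3c9c_an.TwoBlock

variable {n : ℕ}

lemma lo_central (m : ℕ) : m.centralBinom ^ 2 * (2 * m + 1) ≤ 16 ^ m := by
  induction m with
  | zero => simp
  | succ m ih =>
    have h1 := Nat.succ_mul_centralBinom_succ m
    have h2 : ((m + 1) * (m + 1).centralBinom) ^ 2 * (2 * (m + 1) + 1) ≤
        (m + 1) ^ 2 * 16 ^ (m + 1) := by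
      rw [h1]
      calc (2 * (2 * m + 1) * m.centralBinom) ^ 2 * (2 * (m + 1) + 1)
          = (m.centralBinom ^ 2 * (2 * m + 1)) * (4 * (2 * m + 1) * (2 * m + 3)) := by ring
        _ ≤ 16 ^ m * (16 * (m + 1) ^ 2) := Nat.mul_le_mul ih (by nlinarith)
        _ = (m + 1) ^ 2 * 16 ^ (m + 1) := by ring
    have h3 : (m + 1) ^ 2 * ((m + 1).centralBinom ^ 2 * (2 * (m + 1) + 1)) ≤
        (m + 1) ^ 2 * 16 ^ (m + 1) := by
      calc (m + 1) ^ 2 * ((m + 1).centralBinom ^ 2 * (2 * (m + 1) + 1))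
          = ((m + 1) * (m + 1).centralBinom) ^ 2 * (2 * (m + 1) + 1) := by ring
        _ ≤ _ := h2
    exact Nat.le_of_mul_le_mul_left h3 (by positivity)

lemma lo_choose_half (N : ℕ) : (N.choose (N / 2)) ^ 2 * N ≤ 4 ^ N := by
  rcases Nat.even_or_odd' N with ⟨m, hm | hm⟩
  · subst hm
    have h1 : 2 * m / 2 = m := by omega
    rw [h1]
    have h2 := lo_central m
    rw [Nat.centralBinom_eq_two_mul_choose] at h2
    calc ((2 * m).choose m) ^ 2 * (2 * m) ≤ ((2 * m).choose m) ^ 2 * (2 * m + 1) :=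
          Nat.mul_le_mul_left _ (by omega)
      _ ≤ 16 ^ m := h2
      _ = 4 ^ (2 * m) := by rw [pow_mul]; norm_num
  · subst hm
    have h1 : (2 * m + 1) / 2 = m := by omega
    rw [h1]
    have h2 := lo_central (m + 1)
    rw [Nat.centralBinom_eq_two_mul_choose] at h2
    have h3 : (2 * (m + 1)).choose (m + 1) = 2 * (2 * m + 1).choose m := by
      have h4 : 2 * (m + 1) = (2 * m + 1) + 1 := by ring
      rw [h4, Nat.choose_succ_succ]
      have h5 : (2 * m + 1).choose (m + 1) = (2 * m + 1).choose m := by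
        rw [← Nat.choose_symm_half m]
      rw [Nat.succ_eq_add_one, h5]; ring
    rw [h3] at h2
    have h6 : 4 * (((2 * m + 1).choose m) ^ 2 * (2 * m + 1)) ≤ 4 * 4 ^ (2 * m + 1) := by
      calc 4 * (((2 * m + 1).choose m) ^ 2 * (2 * m + 1))
          ≤ (2 * (2 * m + 1).choose m) ^ 2 * (2 * (m + 1) + 1) := by
            have : (2 * (2 * m + 1).choose m) ^ 2 * (2 * (m + 1) + 1) =
              4 * (((2 * m + 1).choose m) ^ 2 * (2 * m + 1)) +
                8 * ((2 * m + 1).choose m) ^ 2 := by ring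
            omega
        _ ≤ 16 ^ (m + 1) := h2
        _ = 4 * 4 ^ (2 * m + 1) := by
            rw [pow_succ, pow_succ, pow_mul]; norm_num; ring
    omega

/-- the coordinates in `S` on which the summand is positive -/
def loV (S : Finset (Fin n)) (ρ : Fin n → ℝ) (x : Fin n → Bool) : Set S :=
  {i | 0 < ρ i * sb (x i)}

lemma lo_term {ρ : Fin n → ℝ} {r : ℝ} (hr : 0 < r) {i : Fin n} (hρ : r ≤ |ρ i|) (b : Bool) :
    ρ i * sb b = |ρ i| ∨ ρ i * sb b = - |ρ i| := by
  rcases abs_cases (ρ i) with ⟨h, _⟩ | ⟨h, _⟩ <;> cases b <;> simp [h]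

lemma lo_fiber {S : Finset (Fin n)} {ρ : Fin n → ℝ} {r h : ℝ} (hr : 0 < r)
    (hρ : ∀ i ∈ S, r ≤ |ρ i|) (hh : h < r) (c : ℝ) (A : Finset (Fin n → Bool))
    (hA : ∀ x ∈ A, |lfS S ρ x - c| ≤ h)
    (hout : ∀ x ∈ A, ∀ y ∈ A, ∀ i, i ∉ S → x i = y i) :
    A.card ≤ S.card.choose (S.card / 2) := by
  classical
  set V : (Fin n → Bool) → Finset S := fun x => univ.filter fun i : S => 0 < ρ i * sb (x i)
    with hV
  have hinj : Set.InjOn V (A : Set (Fin n → Bool)) := by
    intro x hx y hy hxy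
    funext i
    by_cases hi : i ∈ S
    · have h1 : (⟨i, hi⟩ : S) ∈ V x ↔ (⟨i, hi⟩ : S) ∈ V y := by rw [hxy]
      simp only [hV, mem_filter, mem_univ, true_and] at h1
      have h2 : 0 < |ρ i| := lt_of_lt_of_le hr (hρ i hi)
      have h3 : ρ i ≠ 0 := abs_pos.mp h2
      cases hxi : x i <;> cases hyi : y i
      · rfl
      · rw [hxi, hyi] at h1
        simp only [sb_false, sb_true, mul_one, mul_neg] at h1
        rcases lt_or_gt_of_ne h3 with h4 | h4
        · have := h1.mpr (by linarith); linarith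
        · have := h1.mp h4; linarith
      · rw [hxi, hyi] at h1
        simp only [sb_false, sb_true, mul_one, mul_neg] at h1
        rcases lt_or_gt_of_ne h3 with h4 | h4
        · have := h1.mp (by linarith); linarith
        · have := h1.mpr h4; linarith
      · rfl
    · exact hout x hx y hy i hi
  have hsum : ∀ x, lfS S ρ x = ∑ i : S, (if i ∈ V x then |ρ i| else -|ρ i|) := by
    intro x
    unfold lfS
    rw [← Finset.sum_coe_sort S (fun i => ρ i * sb (x i))]
    apply Finset.sum_congr rfl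
    intro i _
    have h2 : 0 < |ρ i| := lt_of_lt_of_le hr (hρ i i.2)
    simp only [hV, mem_filter, mem_univ, true_and]
    rcases lo_term hr (hρ i i.2) (x i) with h3 | h3
    · rw [if_pos (by rw [h3]; exact h2), h3]
    · rw [if_neg (by rw [h3]; linarith), h3]
  have hanti : IsAntichain (· ⊆ ·) ((A.image V : Finset (Finset S)) : Set (Finset S)) := by
    intro U hU W hW hne hsub
    rw [Finset.mem_coe, Finset.mem_image] at hU hW
    obtain ⟨x, hx, rfl⟩ := hU
    obtain ⟨y, hy, rfl⟩ := hW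
    obtain ⟨i, hiW, hiU⟩ := Finset.exists_of_ssubset (lt_of_le_of_ne hsub hne)
    have h1 : 2 * r ≤ lfS S ρ y - lfS S ρ x := by
      rw [hsum x, hsum y, ← Finset.sum_sub_distrib]
      have h2 : ∀ j ∈ (univ : Finset S), 0 ≤
          (if j ∈ V y then |ρ j| else -|ρ j|) - (if j ∈ V x then |ρ j| else -|ρ j|) := by
        intro j _
        have h3 : 0 < |ρ j| := lt_of_lt_of_le hr (hρ j j.2)
        by_cases h4 : j ∈ V x
        · rw [if_pos h4, if_pos (hsub h4)]; linarith
        · rw [if_neg h4]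
          split_ifs <;> linarith
      have h5 := Finset.single_le_sum h2 (Finset.mem_univ i)
      refine le_trans ?_ h5
      rw [if_pos hiW, if_neg hiU]
      have := hρ i i.2
      linarith
    have h6 := abs_le.mp (hA x hx)
    have h7 := abs_le.mp (hA y hy)
    linarith [h6.1, h7.2]
  have h1 := hanti.sperner
  rw [Fintype.card_coe, Finset.card_image_of_injOn hinj] at h1
  exact h1

/-- ROW REG-R3 (Littlewood–Offord–Erdős).

PROOF.  Flipping bits (an equivalence of the cube) we may assume `ρ_i > 0` on `S`, i.e. `ρ_i ≥ r`.  Fix the bits outside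
`S`.  The set family `{ {i ∈ S : x_i = +1} : |∑_S ρ_i x_i - c| ≤ h }` is an antichain in the subsets of `S`: if `U ⊂ V`
strictly, the two sums differ by `≥ 2 r > 2 h`.  Sperner (`IsAntichain.sperner`) : at most `C(N, ⌊N/2⌋)` sets, `N = |S|`,
and `C(N, ⌊N/2⌋)/2^N ≤ 1/√N·(..) ≤ 2/√N` (any proof: for `N = 2m`, `C(2m,m)² (2m+1) ≤ 16^m` by induction; for odd
`N`, `C(2m+1, m) = C(2m+2,m+1)/2`).  Average over the bits outside `S`. -/
theorem littlewood_offord {S : Finset (Fin n)} {ρ : Fin n → ℝ} {r h : ℝ} (hr : 0 < r)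
    (hρ : ∀ i ∈ S, r ≤ |ρ i|) (hS : 1 ≤ S.card) (hh : h < r) (c : ℝ) :
    Ex (fun x : Fin n → Bool => if |lfS S ρ x - c| ≤ h then (1 : ℝ) else 0) ≤
      2 / Real.sqrt S.card := by
  classical
  set N := S.card with hN
  set A : Finset (Fin n → Bool) := univ.filter fun x => |lfS S ρ x - c| ≤ h with hA
  set K := N.choose (N / 2) with hK
  -- the fibres over the coordinates outside `S`
  set g : (Fin n → Bool) → Finset (Fin n) := fun x => Sᶜ.filter fun i => x i = true with hg
  have hcard : A.card ≤ K * 2 ^ (n - N) := by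
    have h1 : A.card ≤ K * (A.image g).card := by
      apply Finset.card_le_mul_card_image
      intro b _
      apply lo_fiber hr hρ hh c
      · intro x hx
        rw [mem_filter, hA, mem_filter] at hx
        exact hx.1.2
      · intro x hx y hy i hi
        rw [mem_filter] at hx hy
        have h2 : i ∈ g x ↔ i ∈ g y := by rw [hx.2, hy.2]
        simp only [hg, mem_filter, mem_compl, hi, not_false_eq_true, true_and] at h2
        cases hxi : x i <;> cases hyi : y i <;> simp_all
    have h2 : (A.image g).card ≤ 2 ^ (n - N) := by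
      have h3 : A.image g ⊆ Sᶜ.powerset := by
        intro U hU
        rw [mem_image] at hU
        obtain ⟨x, _, rfl⟩ := hU
        rw [mem_powerset]
        exact filter_subset _ _
      have h4 := Finset.card_le_card h3
      rw [Finset.card_powerset, Finset.card_compl, Fintype.card_fin] at h4
      exact h4
    exact h1.trans (Nat.mul_le_mul_left _ h2)
  have hNn : N ≤ n := by
    have := Finset.card_le_univ S
    rwa [Fintype.card_fin] at this
  have hE : Ex (fun x : Fin n → Bool => if |lfS S ρ x - c| ≤ h then (1 : ℝ) else 0) =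
      (A.card : ℝ) / 2 ^ n := by
    unfold Ex
    rw [Finset.sum_boole, Fintype.card_fun, Fintype.card_bool, Fintype.card_fin]
    push_cast
    rfl
  rw [hE]
  have hN0 : (0 : ℝ) < N := by exact_mod_cast hS
  have hsq : 0 < Real.sqrt N := Real.sqrt_pos.mpr hN0
  rw [div_le_div_iff₀ (by positivity) hsq]
  have h1 : (A.card : ℝ) ≤ K * 2 ^ (n - N) := by exact_mod_cast hcard
  have h2 : (K : ℝ) * Real.sqrt N ≤ 2 ^ N := by
    have h3 : ((K : ℝ)) ^ 2 * N ≤ 4 ^ N := by exact_mod_cast lo_choose_half N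
    have h4 : ((K : ℝ) * Real.sqrt N) ^ 2 ≤ (2 ^ N) ^ 2 := by
      rw [mul_pow, Real.sq_sqrt hN0.le, ← pow_mul, mul_comm N 2, pow_mul]
      norm_num
      exact h3
    exact le_of_sq_le_sq h4 (by positivity)
  have h5 : (2 : ℝ) ^ n = 2 ^ (n - N) * 2 ^ N := by
    rw [← pow_add]; congr 1; omega
  calc (A.card : ℝ) * Real.sqrt N ≤ (K * 2 ^ (n - N)) * Real.sqrt N :=
        mul_le_mul_of_nonneg_right h1 hsq.le
    _ = 2 ^ (n - N) * (K * Real.sqrt N) := by ring
    _ ≤ 2 ^ (n - N) * 2 ^ N := mul_le_mul_of_nonneg_left h2 (by positivity)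
    _ = 2 ^ n := h5.symm
    _ ≤ 2 * 2 ^ n := by
        have : (0 : ℝ) < 2 ^ n := by positivity
        linarith

end Pool.Agent.MP_cb3c9c_an.REG
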