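import Pool.Agent.MP_cb3c9c_an.REG.S0

set_option autoImplicit false

open Finset MeasureTheory
open scoped BigOperators

namespace Pool.Agent.MP_cb3c9c_an.REG

open Pool.Agent.MP_cb3c9c_an.TwoBlock

variable {n : ℕ}

/-- Bits as integer signs have the parity of the sum of the coefficients. -/
theorem r4_parity (T : Finset (Fin n)) (κ : Fin n → ℤ) (y : Fin n → Bool) :
    ∃ j : ℤ, ∑ i ∈ T, (κ i : ℝ) * sb (y i) = ((∑ i ∈ T, κ i : ℤ) : ℝ) - 2 * (j : ℝ) := by
  refine ⟨∑ i ∈ T, (if y i then κ i else 0), ?_⟩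
  push_cast
  rw [Finset.mul_sum, ← Finset.sum_sub_distrib]
  apply Finset.sum_congr rfl
  intro i _
  cases y i
  · simp
  · simp; ring

/-- The number of integers in an interval. -/
theorem r4_card (p q : ℝ) (hpq : p ≤ q) :
    (((Finset.Icc ⌈p⌉ ⌊q⌋).card : ℕ) : ℝ) ≤ q - p + 1 := by
  rw [Int.card_Icc]
  have h1 : (((⌊q⌋ + 1 - ⌈p⌉).toNat : ℕ) : ℝ) = (((⌊q⌋ + 1 - ⌈p⌉).toNat : ℤ) : ℝ) := by
    push_cast; rfl
  rw [h1, Int.toNat_eq_max]
  rcases le_total (⌊q⌋ + 1 - ⌈p⌉) 0 with h | h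
  · rw [max_eq_right h]
    push_cast
    linarith
  · rw [max_eq_left h]
    push_cast
    have h2 := Int.floor_le q
    have h3 := Int.le_ceil p
    linarith

/-- The fibre version. -/
theorem r4_fibre {a : Fin n → ℝ} {σ C A Q h : ℝ} {T : Finset (Fin n)} {κ : Fin n → ℤ}
    (hC : ∑ i ∈ T, (σ * a i - κ i) ^ 2 ≤ C ^ 2)
    (hQ : ∀ c : ℝ, Ex (fun x : Fin n → Bool =>
      if |lfS T (fun i => σ * a i - κ i) x - c| ≤ h then (1 : ℝ) else 0) ≤ Q)
    (hh1 : h ≤ 1) (hA : 1 ≤ A) (β : ℝ) :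
    Ex (fun y : Fin n → Bool => if dz (β + σ * lfS T a y) ≤ h then (1 : ℝ) else 0) ≤
      (A + 3) * Q + C ^ 2 / A ^ 2 := by
  classical
  have hQ0 : 0 ≤ Q := by
    refine le_trans (Ex_nonneg fun x => ?_) (hQ 0)
    split_ifs <;> norm_num
  have hA0 : 0 < A := by linarith
  set P : ℤ := ∑ i ∈ T, κ i with hP
  set p : ℝ := (β - (A + 1) - P) / 2 with hp
  set q : ℝ := (β + (A + 1) - P) / 2 with hq
  have hpq : p ≤ q := by rw [hp, hq]; linarith
  set I : Finset ℤ := Finset.Icc ⌈p⌉ ⌊q⌋ with hI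
  have hcard : ((I.card : ℕ) : ℝ) ≤ A + 2 := by
    refine (r4_card p q hpq).trans (le_of_eq ?_)
    rw [hp, hq]; ring
  have hpt : ∀ y : Fin n → Bool,
      (if dz (β + σ * lfS T a y) ≤ h then (1 : ℝ) else 0) ≤
      (∑ k ∈ I, (if |lfS T (fun i => σ * a i - κ i) y - (2 * (k : ℝ) + P - β)| ≤ h
        then (1 : ℝ) else 0)) +
      (1 / A ^ 2) * (lfS T (fun i => σ * a i - κ i) y) ^ 2 := by
    intro y
    set Y := lfS T (fun i => σ * a i - κ i) y with hY
    have hsum0 : 0 ≤ ∑ k ∈ I, (if |Y - (2 * (k : ℝ) + P - β)| ≤ h then (1 : ℝ) else 0) := by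
      apply Finset.sum_nonneg
      intro k _
      split_ifs <;> norm_num
    have hsq0 : 0 ≤ (1 / A ^ 2) * Y ^ 2 := by positivity
    by_cases hd : dz (β + σ * lfS T a y) ≤ h
    · rw [if_pos hd]
      by_cases hYA : |Y| ≤ A
      · obtain ⟨j, hj⟩ := r4_parity T κ y
        have hform : σ * lfS T a y = ((P : ℤ) : ℝ) - 2 * (j : ℝ) + Y := by
          rw [← hj, hY]
          unfold lfS
          rw [Finset.mul_sum, ← Finset.sum_add_distrib]
          apply Finset.sum_congr rfl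
          intro i _
          ring
        unfold dz at hd
        set m : ℤ := round ((β + σ * lfS T a y) / 2) with hm
        -- the integer
        have hk : |Y - (2 * ((m + j - P : ℤ) : ℝ) + P - β)| ≤ h := by
          have e : Y - (2 * ((m + j - P : ℤ) : ℝ) + P - β) =
              (β + σ * lfS T a y) - 2 * (m : ℝ) := by
            rw [hform]; push_cast; ring
          rw [e]; exact hd
        have hkI : (m + j - P : ℤ) ∈ I := by
          rw [hI, Finset.mem_Icc]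
          have e1 := abs_le.mp hk
          have e2 := abs_le.mp hYA
          constructor
          · apply Int.ceil_le.mpr
            rw [hp]
            linarith [e1.1, e1.2, e2.1, e2.2]
          · apply Int.le_floor.mpr
            rw [hq]
            linarith [e1.1, e1.2, e2.1, e2.2]
        have hone : (1 : ℝ) ≤ ∑ k ∈ I,
            (if |Y - (2 * (k : ℝ) + P - β)| ≤ h then (1 : ℝ) else 0) := by
          have e3 := Finset.single_le_sum
            (f := fun k : ℤ => if |Y - (2 * (k : ℝ) + P - β)| ≤ h then (1 : ℝ) else 0)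
            (fun k _ => by split_ifs <;> norm_num) hkI
          simp only [if_pos hk] at e3
          exact e3
        linarith
      · have e4 : A ^ 2 ≤ Y ^ 2 := by
          rw [← sq_abs Y]
          exact pow_le_pow_left₀ hA0.le (not_le.mp hYA).le 2
        have e5 : 1 ≤ (1 / A ^ 2) * Y ^ 2 := by
          rw [one_div, inv_mul_eq_div, le_div_iff₀ (by positivity)]
          linarith
        linarith
    · rw [if_neg hd]
      linarith
  refine (Ex_mono hpt).trans ?_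
  rw [Ex_add, Ex_mul, Ex_lfS_sq, Ex_sum]
  have h1 : ∑ k ∈ I, Ex (fun x : Fin n → Bool =>
      if |lfS T (fun i => σ * a i - κ i) x - (2 * (k : ℝ) + P - β)| ≤ h then (1 : ℝ) else 0) ≤
      (A + 2) * Q := by
    calc ∑ k ∈ I, Ex (fun x : Fin n → Bool =>
        if |lfS T (fun i => σ * a i - κ i) x - (2 * (k : ℝ) + P - β)| ≤ h then (1 : ℝ) else 0)
        ≤ ∑ _k ∈ I, Q := Finset.sum_le_sum fun k _ => hQ _
      _ = (I.card : ℝ) * Q := by rw [Finset.sum_const, nsmul_eq_mul]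
      _ ≤ (A + 2) * Q := mul_le_mul_of_nonneg_right hcard hQ0
  have h2 : 1 / A ^ 2 * ∑ i ∈ T, (σ * a i - κ i) ^ 2 ≤ C ^ 2 / A ^ 2 := by
    rw [one_div, inv_mul_eq_div]
    exact div_le_div_of_nonneg_right hC (by positivity)
  calc _ ≤ (A + 2) * Q + C ^ 2 / A ^ 2 := add_le_add h1 h2
    _ ≤ (A + 3) * Q + C ^ 2 / A ^ 2 := by nlinarith

/-- ROW REG-R4 (near ties).

PROOF.  `ρ_i = σ a_i - κ_i`, `Y x = lfS T ρ x`.  By `Ex_mix` (with `z i = decide (i ∈ Tᶜ)`) it suffices to bound the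
average over `y` for fixed `x`, at the points `w = mix z x y` (coordinates of `T` from `y`, others from `x`).  There
`σ * lf a w = β + ∑_{T} κ_i sb (y i) + Y y` with `β = σ * lfS Tᶜ a x`.  If `dz (σ * lf a w) ≤ h` there is `m : ℤ` with
`|σ lf a w - 2m| ≤ h`; `z' = 2m - ∑_T κ_i sb (y i)` is an integer of the parity of `∑_T κ_i` and
`|Y y - (z' - β)| ≤ h`.  If also `|Y y| ≤ A` then `|z' - β| ≤ A + h ≤ A + 1`; the number of integers `z'` of given parity
with `|z' - β| ≤ A + 1` is at most `A + 2`.  For each of them `P(|Y - (z' - β)| ≤ h) ≤ Q`.  Finally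
`P(|Y| > A) ≤ E Y²/A² ≤ C²/A²` (`Ex_lfS_sq`, Chebyshev).  Total `≤ (A + 3) Q + C²/A²`. -/
theorem near_tie {a : Fin n → ℝ} {σ C A Q h : ℝ} {T : Finset (Fin n)} {κ : Fin n → ℤ}
    (hC : ∑ i ∈ T, (σ * a i - κ i) ^ 2 ≤ C ^ 2)
    (hQ : ∀ c : ℝ, Ex (fun x : Fin n → Bool =>
      if |lfS T (fun i => σ * a i - κ i) x - c| ≤ h then (1 : ℝ) else 0) ≤ Q)
    (hh : 0 ≤ h) (hh1 : h ≤ 1) (hA : 1 ≤ A) :
    Ex (fun x : Fin n → Bool => if dz (σ * lf a x) ≤ h then (1 : ℝ) else 0) ≤
      (A + 3) * Q + C ^ 2 / A ^ 2 := by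
  classical
  let z : Fin n → Bool := fun i => decide (i ∈ Tᶜ)
  rw [← Ex_mix (fun x : Fin n → Bool => if dz (σ * lf a x) ≤ h then (1 : ℝ) else 0) z]
  have hfib : ∀ x : Fin n → Bool,
      Ex (fun y => (fun x : Fin n → Bool => if dz (σ * lf a x) ≤ h then (1 : ℝ) else 0)
        (mix z x y)) ≤ (A + 3) * Q + C ^ 2 / A ^ 2 := by
    intro x
    have e : ∀ y : Fin n → Bool, σ * lf a (mix z x y) = σ * lfS Tᶜ a x + σ * lfS T a y := by
      intro y
      rw [lf_split T a (mix z x y)]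
      have e1 : lfS T a (mix z x y) = lfS T a y := by
        apply lfS_dep
        intro i hi
        simp [mix, z, hi]
      have e2 : lfS Tᶜ a (mix z x y) = lfS Tᶜ a x := by
        apply lfS_dep
        intro i hi
        have hi' : i ∉ T := Finset.mem_compl.mp hi
        simp [mix, z, hi']
      rw [e1, e2]; ring
    simp only [e]
    exact r4_fibre hC hQ hh1 hA (σ * lfS Tᶜ a x)
  refine (Ex_mono hfib).trans ?_
  rw [Ex_const]

end Pool.Agent.MP_cb3c9c_an.REG
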