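import Pool.Agent.MP_cb3c9c_an.REG.R2
import Pool.Agent.MP_cb3c9c_an.REG.R3
import Pool.Agent.MP_cb3c9c_an.REG.R4

set_option autoImplicit false

open Finset MeasureTheory
open scoped BigOperators

namespace Pool.Agent.MP_cb3c9c_an.REG

open Pool.Agent.MP_cb3c9c_an.TwoBlock

variable {n : ℕ}

theorem nt_sub {ν : Fin n → ℝ} (hν : ∑ i, ν i ^ 2 ≤ 1) (T : Finset (Fin n)) :
    ∑ i ∈ T, ν i ^ 2 ≤ 1 :=
  (Finset.sum_le_sum_of_subset_of_nonneg (Finset.subset_univ T)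
    (fun i _ _ => sq_nonneg _)).trans hν

theorem nt_one {ν : Fin n → ℝ} (hν : ∑ i, ν i ^ 2 ≤ 1) (i : Fin n) : |ν i| ≤ 1 := by
  have h1 := nt_sub hν {i}
  rw [Finset.sum_singleton, ← sq_abs] at h1
  nlinarith [abs_nonneg (ν i)]

theorem nt_up {ω ν : Fin n → ℝ} {u : ℝ} (hν : ∑ i, ν i ^ 2 ≤ 1) (T : Finset (Fin n)) :
    ∑ i ∈ T, (ω i - u * ν i) ^ 2 ≤ 3 / 2 * ∑ i ∈ T, ω i ^ 2 + 3 * u ^ 2 := by
  calc ∑ i ∈ T, (ω i - u * ν i) ^ 2 ≤ ∑ i ∈ T, (3 / 2 * ω i ^ 2 + 3 * u ^ 2 * ν i ^ 2) := by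
        apply Finset.sum_le_sum
        intro i _
        nlinarith [sq_nonneg (ω i + 2 * (u * ν i))]
    _ = 3 / 2 * ∑ i ∈ T, ω i ^ 2 + 3 * u ^ 2 * ∑ i ∈ T, ν i ^ 2 := by
        rw [Finset.sum_add_distrib, Finset.mul_sum, Finset.mul_sum]
    _ ≤ _ := by
        have h1 := mul_le_mul_of_nonneg_left (nt_sub hν T) (by positivity : 0 ≤ 3 * u ^ 2)
        linarith

theorem nt_low {ω ν : Fin n → ℝ} {u : ℝ} (hν : ∑ i, ν i ^ 2 ≤ 1) (T : Finset (Fin n)) :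
    4 / 5 * ∑ i ∈ T, ω i ^ 2 - 4 * u ^ 2 ≤ ∑ i ∈ T, (ω i - u * ν i) ^ 2 := by
  have h1 : ∑ i ∈ T, (4 / 5 * ω i ^ 2 - 4 * u ^ 2 * ν i ^ 2) ≤
      ∑ i ∈ T, (ω i - u * ν i) ^ 2 := by
    apply Finset.sum_le_sum
    intro i _
    nlinarith [sq_nonneg (ω i - 5 * (u * ν i))]
  have h2 : ∑ i ∈ T, (4 / 5 * ω i ^ 2 - 4 * u ^ 2 * ν i ^ 2) =
      4 / 5 * ∑ i ∈ T, ω i ^ 2 - 4 * u ^ 2 * ∑ i ∈ T, ν i ^ 2 := by
    rw [Finset.sum_sub_distrib, Finset.mul_sum, Finset.mul_sum]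
  have h3 := mul_le_mul_of_nonneg_left (nt_sub hν T) (by positivity : 0 ≤ 4 * u ^ 2)
  linarith

/-- concentration in the first case -/
theorem nt_case1 {ω ν : Fin n → ℝ} {s u β h : ℝ} {B T : Finset (Fin n)} (hs : 0 < s)
    (hu : 0 ≤ u) (hus : u ≤ s / 8) (hν : ∑ i, ν i ^ 2 ≤ 1) (hβ : 0 < β) (hβ1 : β ≤ 1 / 16)
    (hB1 : s ^ 2 / 2 ≤ ∑ i ∈ B, ω i ^ 2) (hc : ∀ i ∈ B, |ω i| ≤ β * s)
    (hT : T = B.filter (fun i => |ν i| ≤ Real.sqrt β)) (hh : 0 ≤ h) (c : ℝ) :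
    Ex (fun x : Fin n → Bool =>
      if |lfS T (fun i => ω i - u * ν i) x - c| ≤ h then (1 : ℝ) else 0) ≤
        8 * h / s + 4 * Real.sqrt (Real.sqrt β) := by
  have hu2 : u ^ 2 ≤ s ^ 2 / 64 := by nlinarith
  have hTB : T ⊆ B := by rw [hT]; exact Finset.filter_subset _ _
  have hsqβ : Real.sqrt β * Real.sqrt β = β := Real.mul_self_sqrt hβ.le
  have hsqβ0 : 0 < Real.sqrt β := Real.sqrt_pos.mpr hβ
  have hsqβ1 : Real.sqrt β ≤ 1 / 4 := by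
    rw [Real.sqrt_le_left (by norm_num)]; linarith
  -- the complement
  have hcard : β * ((B \ T).card : ℝ) ≤ 1 := by
    have h1 : ∑ i ∈ B \ T, β ≤ ∑ i ∈ B \ T, ν i ^ 2 := by
      apply Finset.sum_le_sum
      intro i hi
      rw [Finset.mem_sdiff, hT, Finset.mem_filter, not_and] at hi
      have h2 := hi.2 hi.1
      push Not at h2
      rw [← sq_abs (ν i)]
      calc β = Real.sqrt β * Real.sqrt β := hsqβ.symm
        _ = Real.sqrt β ^ 2 := by ring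
        _ ≤ |ν i| ^ 2 := pow_le_pow_left₀ (Real.sqrt_nonneg _) h2.le 2
    rw [Finset.sum_const, nsmul_eq_mul] at h1
    have h2 := nt_sub hν (B \ T)
    linarith
  have hcomp : ∑ i ∈ B \ T, ω i ^ 2 ≤ β * s ^ 2 := by
    calc ∑ i ∈ B \ T, ω i ^ 2 ≤ ∑ i ∈ B \ T, (β * s) ^ 2 := by
          apply Finset.sum_le_sum
          intro i hi
          rw [← sq_abs (ω i)]
          exact pow_le_pow_left₀ (abs_nonneg _) (hc i (Finset.mem_sdiff.mp hi).1) 2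
      _ = (β * ((B \ T).card : ℝ)) * (β * s ^ 2) := by
          rw [Finset.sum_const, nsmul_eq_mul]; ring
      _ ≤ 1 * (β * s ^ 2) := mul_le_mul_of_nonneg_right hcard (by positivity)
      _ = _ := one_mul _
  have hTsum : 7 / 16 * s ^ 2 ≤ ∑ i ∈ T, ω i ^ 2 := by
    have h1 := Finset.sum_sdiff hTB (f := fun i => ω i ^ 2)
    have h2 : β * s ^ 2 ≤ 1 / 16 * s ^ 2 := mul_le_mul_of_nonneg_right hβ1 (by positivity)
    linarith
  obtain ⟨sT, hsTdef⟩ : ∃ sT : ℝ, sT = Real.sqrt (∑ i ∈ T, (ω i - u * ν i) ^ 2) := ⟨_, rfl⟩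
  have hsT2 : ∑ i ∈ T, (fun i => ω i - u * ν i) i ^ 2 = sT ^ 2 := by
    rw [hsTdef, Real.sq_sqrt (Finset.sum_nonneg fun i _ => sq_nonneg _)]
  have hlow : s ^ 2 / 4 ≤ ∑ i ∈ T, (ω i - u * ν i) ^ 2 := by
    have h1 := nt_low (ω := ω) (u := u) hν T
    have h2 : 0 ≤ s ^ 2 := sq_nonneg _
    linarith
  have hsTs : s / 2 ≤ sT := by
    rw [hsTdef]
    apply Real.le_sqrt_of_sq_le
    have : (s / 2) ^ 2 = s ^ 2 / 4 := by ring
    rw [this]; exact hlow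
  have hsT0 : 0 < sT := by linarith
  have hreg : ∀ i ∈ T, |(fun i => ω i - u * ν i) i| ≤ Real.sqrt β * sT := by
    intro i hi
    beta_reduce
    have h2 : |ω i| ≤ β * s := hc i (hTB hi)
    have h3 : |ν i| ≤ Real.sqrt β := by
      rw [hT] at hi
      exact (Finset.mem_filter.mp hi).2
    have h4 : |ω i - u * ν i| ≤ |ω i| + u * |ν i| := by
      have := abs_sub (ω i) (u * ν i)
      rw [abs_mul, abs_of_nonneg hu] at this
      exact this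
    have h5 : u * |ν i| ≤ s / 8 * Real.sqrt β :=
      mul_le_mul hus h3 (abs_nonneg _) (by positivity)
    have h6 : β ≤ Real.sqrt β / 4 := by
      have := mul_le_mul_of_nonneg_left hsqβ1 hsqβ0.le
      linarith
    have h7 : β * s ≤ Real.sqrt β / 4 * s := mul_le_mul_of_nonneg_right h6 hs.le
    have h8 : Real.sqrt β * (s / 2) ≤ Real.sqrt β * sT :=
      mul_le_mul_of_nonneg_left hsTs hsqβ0.le
    have h9 : 0 < Real.sqrt β * s := mul_pos hsqβ0 hs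
    calc |ω i - u * ν i| ≤ |ω i| + u * |ν i| := h4
      _ ≤ Real.sqrt β / 4 * s + s / 8 * Real.sqrt β := by linarith
      _ ≤ Real.sqrt β * (s / 2) := by linarith
      _ ≤ _ := h8
  have hsqb1 : Real.sqrt β ≤ 1 := by linarith
  have h1 : Ex (fun x : Fin n → Bool =>
      if |lfS T (fun i => ω i - u * ν i) x - c| ≤ h then (1 : ℝ) else 0) ≤
      4 * (h / sT + Real.sqrt (Real.sqrt β)) :=
    conc_regular hsT0 hsT2 hsqβ0 hsqb1 hreg hh c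
  have h2 : h / sT ≤ 2 * h / s := by
    rw [div_le_div_iff₀ hsT0 hs]
    have := mul_le_mul_of_nonneg_left hsTs hh
    linarith
  have h3 : 4 * (h / sT + Real.sqrt (Real.sqrt β)) ≤
      8 * h / s + 4 * Real.sqrt (Real.sqrt β) := by
    have : 8 * h / s = 4 * (2 * h / s) := by ring
    rw [this]; linarith
  linarith

/-- concentration in the second case -/
theorem nt_case2 {ω ν : Fin n → ℝ} {s u h : ℝ} {J₁ : Finset (Fin n)} {N₁ : ℕ} (hN₁ : 1 ≤ N₁)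
    (hs : 0 < s) (hu : 0 ≤ u) (hus : u ≤ s / 8) (hν : ∑ i, ν i ^ 2 ≤ 1)
    (hc1 : N₁ ≤ J₁.card) (hc2 : ∀ j ∈ J₁, s / 2 ≤ |ω j|) (hhs : h ≤ s / 4) (c : ℝ) :
    Ex (fun x : Fin n → Bool =>
      if |lfS J₁ (fun i => ω i - u * ν i) x - c| ≤ h then (1 : ℝ) else 0) ≤
        2 / Real.sqrt N₁ := by
  have hN0 : (0 : ℝ) < N₁ := by exact_mod_cast hN₁
  have hreg : ∀ i ∈ J₁, 3 * s / 8 ≤ |(fun i => ω i - u * ν i) i| := by
    intro i hi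
    beta_reduce
    have h2 := hc2 i hi
    have h3 : |ω i| - |u * ν i| ≤ |ω i - u * ν i| := abs_sub_abs_le_abs_sub _ _
    rw [abs_mul, abs_of_nonneg hu] at h3
    have h4 : u * |ν i| ≤ s / 8 * 1 :=
      mul_le_mul hus (nt_one hν i) (abs_nonneg _) (by positivity)
    linarith
  have hr : 0 < 3 * s / 8 := by positivity
  have hhr : h < 3 * s / 8 := by linarith
  have hJ1 : 1 ≤ J₁.card := by omega
  have h1 : Ex (fun x : Fin n → Bool =>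
      if |lfS J₁ (fun i => ω i - u * ν i) x - c| ≤ h then (1 : ℝ) else 0) ≤
      2 / Real.sqrt (J₁.card : ℝ) := littlewood_offord hr hreg hJ1 hhr c
  have h2 : 2 / Real.sqrt (J₁.card : ℝ) ≤ 2 / Real.sqrt N₁ := by
    apply div_le_div_of_nonneg_left (by norm_num) (Real.sqrt_pos.mpr hN0)
    apply Real.sqrt_le_sqrt
    exact_mod_cast hc1
  linarith

/-- passing from `σ b - κ` to `ω - u ν` -/
theorem nt_congr {b ω ν : Fin n → ℝ} {κ : Fin n → ℤ} {σ u : ℝ} {T : Finset (Fin n)}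
    (hbT : ∀ i ∈ T, σ * b i = κ i + ω i - u * ν i) :
    (∀ x : Fin n → Bool, lfS T (fun i => σ * b i - κ i) x = lfS T (fun i => ω i - u * ν i) x) ∧
      ∑ i ∈ T, (σ * b i - κ i) ^ 2 = ∑ i ∈ T, (ω i - u * ν i) ^ 2 := by
  have h1 : ∀ i ∈ T, σ * b i - κ i = ω i - u * ν i := by
    intro i hi
    rw [hbT i hi]; ring
  constructor
  · intro x
    unfold lfS
    apply Finset.sum_congr rfl
    intro i hi
    beta_reduce
    rw [h1 i hi]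
  · exact Finset.sum_congr rfl fun i hi => by rw [h1 i hi]

/-- ROW REG-NT (near ties of a perturbed form).  `σ b_i - κ_i = ω_i - u ν_i` on `B ∪ J₁`.

PROOF.  Case 1 (`|ω_i| ≤ β s` on `B`).  Let `T = {i ∈ B : |ν_i| ≤ √β}`.  Then `|B \ T| ≤ 1/β` (`∑ ν² ≤ 1`), so
`∑_{B\T} ω² ≤ β s²` and `∑_T ω² ≥ s²/2 - β s² ≥ (0.43) s²` (`β ≤ 1/16`).  With `τ_i = ω_i - uν_i`, `s_T² = ∑_T τ_i²`:
`s_T ≥ (∑_T ω²)^{1/2} - u ≥ 0.65 s - 0.125 s ≥ s/2` (Minkowski), `s_T ≤ C + u ≤ 2C`, and for `i ∈ T`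
`|τ_i| ≤ β s + (s/8) √β ≤ √β s (1/4 + 1/8) ≤ √β s_T`.  `conc_regular` (R2) with `√β` for `β`: for every `c`
`P(|lfS T τ x - c| ≤ h) ≤ 4 (h/s_T + β^{1/4}) ≤ 8 h/s + 4 β^{1/4} =: Q` (`β^{1/4} = √(√β)`).  `near_tie` (R4) with `T`, `2C`.
Case 2.  `T = J₁`: `|τ_j| ≥ s/2 - s/8 > h` , so `littlewood_offord` (R3) with `r = 3s/8` gives `Q = 2/√|J₁| ≤ 2/√N₁`;
`∑_{J₁} τ² ≤ (3C + u)² ≤ (4C)²`.  `near_tie` with `4C`. -/
theorem near_tie_scene {b ω ν : Fin n → ℝ} {κ : Fin n → ℤ} {σ s u β C A h : ℝ}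
    {B J₁ : Finset (Fin n)} {N₁ : ℕ} (hN₁ : 1 ≤ N₁) (hs : 0 < s) (hsC : s ≤ C) (hu : 0 ≤ u)
    (hus : u ≤ s / 8) (hν : ∑ i, ν i ^ 2 ≤ 1) (hβ : 0 < β) (hβ1 : β ≤ 1 / 16)
    (hb : ∀ i ∈ B ∪ J₁, σ * b i = κ i + ω i - u * ν i)
    (hB1 : s ^ 2 / 2 ≤ ∑ i ∈ B, ω i ^ 2) (hB2 : ∑ i ∈ B, ω i ^ 2 ≤ C ^ 2)
    (hcase : (∀ i ∈ B, |ω i| ≤ β * s) ∨
      (N₁ ≤ J₁.card ∧ (∀ j ∈ J₁, s / 2 ≤ |ω j|) ∧ ∑ j ∈ J₁, ω j ^ 2 ≤ (3 * C) ^ 2))
    (hh : 0 ≤ h) (hhs : h ≤ s / 4) (hh1 : h ≤ 1) (hA : 1 ≤ A) :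
    Ex (fun x : Fin n → Bool => if dz (σ * lf b x) ≤ h then (1 : ℝ) else 0) ≤
      (A + 3) * (8 * h / s + 4 * Real.sqrt (Real.sqrt β) + 2 / Real.sqrt N₁) +
        (4 * C) ^ 2 / A ^ 2 := by
  have hC : 0 < C := lt_of_lt_of_le hs hsC
  have hu2 : u ^ 2 ≤ s ^ 2 / 64 := by nlinarith
  have hsC2 : s ^ 2 ≤ C ^ 2 := pow_le_pow_left₀ hs.le hsC 2
  have hC2 : (4 * C) ^ 2 = 16 * C ^ 2 := by ring
  have hC20 : 0 < C ^ 2 := by positivity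
  have hrq0 : 0 ≤ 8 * h / s := by positivity
  have hrq1 : 0 ≤ 4 * Real.sqrt (Real.sqrt β) := by positivity
  have hrq2 : 0 ≤ 2 / Real.sqrt N₁ := by positivity
  rcases hcase with hc | ⟨hc1, hc2, hc3⟩
  · -- Case 1
    obtain ⟨T, hT⟩ : ∃ T : Finset (Fin n), T = B.filter (fun i => |ν i| ≤ Real.sqrt β) :=
      ⟨_, rfl⟩
    have hTB : T ⊆ B := by rw [hT]; exact Finset.filter_subset _ _
    obtain ⟨hlf, hsq⟩ := nt_congr (T := T) (fun i hi => hb i (Finset.mem_union_left _ (hTB hi)))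
    have hQ : ∀ c : ℝ, Ex (fun x : Fin n → Bool =>
        if |lfS T (fun i => σ * b i - κ i) x - c| ≤ h then (1 : ℝ) else 0) ≤
          8 * h / s + 4 * Real.sqrt (Real.sqrt β) + 2 / Real.sqrt N₁ := by
      intro c
      simp only [hlf]
      have h1 := nt_case1 hs hu hus hν hβ hβ1 hB1 hc hT hh c
      linarith
    refine near_tie (T := T) (κ := κ) (C := 4 * C) ?_ hQ hh hh1 hA
    have h1 : ∑ i ∈ T, ω i ^ 2 ≤ ∑ i ∈ B, ω i ^ 2 :=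
      Finset.sum_le_sum_of_subset_of_nonneg hTB (fun i _ _ => sq_nonneg _)
    have h2 := nt_up (ω := ω) (u := u) hν T
    rw [hsq, hC2]
    linarith
  · -- Case 2
    obtain ⟨hlf, hsq⟩ := nt_congr (T := J₁) (fun i hi => hb i (Finset.mem_union_right _ hi))
    have hQ : ∀ c : ℝ, Ex (fun x : Fin n → Bool =>
        if |lfS J₁ (fun i => σ * b i - κ i) x - c| ≤ h then (1 : ℝ) else 0) ≤
          8 * h / s + 4 * Real.sqrt (Real.sqrt β) + 2 / Real.sqrt N₁ := by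
      intro c
      simp only [hlf]
      have h1 := nt_case2 hN₁ hs hu hus hν hc1 hc2 hhs c
      linarith
    refine near_tie (T := J₁) (κ := κ) (C := 4 * C) ?_ hQ hh hh1 hA
    have h2 := nt_up (ω := ω) (u := u) hν J₁
    have h3 : (3 * C) ^ 2 = 9 * C ^ 2 := by ring
    rw [h3] at hc3
    rw [hsq, hC2]
    linarith

end Pool.Agent.MP_cb3c9c_an.REG
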