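import Pool.Agent.MP_cb3c9c_an.REG.Base

set_option autoImplicit false

open Finset MeasureTheory
open scoped BigOperators

namespace Pool.Agent.MP_cb3c9c_an.REG

open Pool.Agent.MP_cb3c9c_an.TwoBlock

variable {n : ℕ}

/-- ROW REG-ODE.

PROOF.  `G t = exp (v t²/2) Θ t` has derivative `exp (v t²/2) (Θ' t + v t Θ t)`, of absolute value
`≤ exp (v Z²/2) E` on `[0,Z]`.  Mean value inequality (`Convex.norm_image_sub_le_of_norm_hasDerivWithin_le` or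
`image_norm_le_of_norm_deriv_right_le_deriv_boundary`): `|G Z - G 0| ≤ Z exp (v Z²/2) E`.  Multiply by `exp (-v Z²/2)`. -/
theorem ode_gauss {Θ Θ' : ℝ → ℝ} {v E Z : ℝ} (hv : 0 ≤ v) (hZ : 0 ≤ Z)
    (hd : ∀ t ∈ Set.Icc 0 Z, HasDerivAt Θ (Θ' t) t)
    (hE : ∀ t ∈ Set.Icc 0 Z, |Θ' t + v * t * Θ t| ≤ E) :
    |Θ Z - Real.exp (-v * Z ^ 2 / 2) * Θ 0| ≤ Z * E := by
  have hG : ∀ t ∈ Set.Icc 0 Z, HasDerivWithinAt (fun s => Real.exp (v * s ^ 2 / 2) * Θ s)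
      (Real.exp (v * t ^ 2 / 2) * (Θ' t + v * t * Θ t)) (Set.Icc 0 Z) t := by
    intro t ht
    have h1 : HasDerivAt (fun s : ℝ => v * s ^ 2 / 2) (v * t) t := by
      have := ((hasDerivAt_pow 2 t).const_mul v).div_const 2
      refine this.congr_deriv ?_
      simp only [Nat.cast_ofNat, Nat.add_one_sub_one, pow_one]
      ring
    have h2 := (h1.exp).mul (hd t ht)
    refine HasDerivAt.hasDerivWithinAt ?_
    refine h2.congr_deriv ?_
    ring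
  have hb : ∀ t ∈ Set.Icc 0 Z, ‖Real.exp (v * t ^ 2 / 2) * (Θ' t + v * t * Θ t)‖ ≤
      Real.exp (v * Z ^ 2 / 2) * E := by
    intro t ht
    rw [Real.norm_eq_abs, abs_mul, abs_of_pos (Real.exp_pos _)]
    refine mul_le_mul ?_ (hE t ht) (abs_nonneg _) (Real.exp_pos _).le
    apply Real.exp_le_exp.2
    have : t ^ 2 ≤ Z ^ 2 := pow_le_pow_left₀ ht.1 ht.2 2
    nlinarith
  have h := Convex.norm_image_sub_le_of_norm_hasDerivWithin_le hG hb (convex_Icc 0 Z)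
    (Set.left_mem_Icc.2 hZ) (Set.right_mem_Icc.2 hZ)
  simp only [Real.norm_eq_abs, sub_zero, abs_of_nonneg hZ] at h
  have e0 : Real.exp (v * 0 ^ 2 / 2) = 1 := by simp
  rw [e0, one_mul] at h
  have e1 : Θ Z - Real.exp (-v * Z ^ 2 / 2) * Θ 0 =
      Real.exp (-v * Z ^ 2 / 2) * (Real.exp (v * Z ^ 2 / 2) * Θ Z - Θ 0) := by
    rw [mul_sub, ← mul_assoc, ← Real.exp_add]
    have : -v * Z ^ 2 / 2 + v * Z ^ 2 / 2 = 0 := by ring
    rw [this, Real.exp_zero, one_mul]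
  rw [e1, abs_mul, abs_of_pos (Real.exp_pos _)]
  calc Real.exp (-v * Z ^ 2 / 2) * |Real.exp (v * Z ^ 2 / 2) * Θ Z - Θ 0|
      ≤ Real.exp (-v * Z ^ 2 / 2) * (Real.exp (v * Z ^ 2 / 2) * E * Z) :=
        mul_le_mul_of_nonneg_left h (Real.exp_pos _).le
    _ = (Real.exp (-v * Z ^ 2 / 2) * Real.exp (v * Z ^ 2 / 2)) * (Z * E) := by ring
    _ = Z * E := by
        rw [← Real.exp_add]
        have : -v * Z ^ 2 / 2 + v * Z ^ 2 / 2 = 0 := by ring
        rw [this, Real.exp_zero, one_mul]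

end Pool.Agent.MP_cb3c9c_an.REG
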