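import Pool.Agent.MP_cb3c9c_an.REG.Base

set_option autoImplicit false

open Finset MeasureTheory
open scoped BigOperators

namespace Pool.Agent.MP_cb3c9c_an.REG

open Pool.Agent.MP_cb3c9c_an.TwoBlock

variable {n : ℕ}

/-- Pythagoras -/
theorem r1_pyth {B : Finset (Fin n)} {a : Fin n → ℝ} {κ : Fin n → ℤ} {σ τ : ℝ}
    (h : ∑ i ∈ B, a i * (σ * a i - κ i) = 0) :
    ∑ i ∈ B, (τ * a i - κ i) ^ 2 =
      ∑ i ∈ B, (σ * a i - κ i) ^ 2 + (τ - σ) ^ 2 * ∑ i ∈ B, a i ^ 2 := by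
  have h1 : ∀ i, (τ * a i - κ i) ^ 2 = (σ * a i - κ i) ^ 2 +
      2 * (τ - σ) * (a i * (σ * a i - κ i)) + (τ - σ) ^ 2 * a i ^ 2 := by
    intro i
    ring
  rw [Finset.sum_congr rfl fun i _ => h1 i, Finset.sum_add_distrib, Finset.sum_add_distrib,
    ← Finset.mul_sum, ← Finset.mul_sum, h]
  ring

theorem r1_orth {B : Finset (Fin n)} {a : Fin n → ℝ} {κ : Fin n → ℤ}
    (hA : 0 < ∑ i ∈ B, a i ^ 2) :
    ∑ i ∈ B, a i * ((∑ i ∈ B, a i * κ i) / (∑ i ∈ B, a i ^ 2) * a i - κ i) = 0 := by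
  set A := ∑ i ∈ B, a i ^ 2 with hAdef
  set P := ∑ i ∈ B, a i * κ i with hP
  have h1 : ∀ i, a i * (P / A * a i - κ i) = P / A * a i ^ 2 - a i * κ i := by
    intro i
    ring
  rw [Finset.sum_congr rfl fun i _ => h1 i, Finset.sum_sub_distrib, ← Finset.mul_sum, ← hAdef,
    ← hP, div_mul_cancel₀ _ hA.ne', sub_self]

/-- ROW REG-R1a (one step of the structure theorem).  Here `σ` is chosen such that `σ a - κ` is orthogonal to `a` on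
`B`, `s² = ∑_B (σ a - κ)²`; we remove the coordinate `i₀` from `B`.

PROOF.  `B' = B.erase i₀`, `A' = ∑_{B'} a_i² > 0`, `σ' = (∑_{B'} a_i κ_i)/A'`, `ρ_i = σ a_i - κ_i`, `ρ'_i = σ' a_i - κ_i`.
Then `∑_{B'} a_i ρ'_i = 0` and `∑_{B'} ρ_i² = ∑_{B'} ρ'_i² + (σ-σ')² A'` (Pythagoras), so
`∑_{B'} ρ'² ≤ ∑_{B'} ρ² = s² - ρ_{i₀}²`.  Also `(σ - σ') A' = ∑_{B'} a_i ρ_i = - a_{i₀} ρ_{i₀}`, so
`|σ-σ'| ≤ δ |ρ_{i₀}|/A' ≤ 2 δ |ρ_{i₀}| ≤ 2 δ s`. -/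
theorem remove_one {a : Fin n → ℝ} {κ : Fin n → ℤ} {δ σ s : ℝ} {B : Finset (Fin n)} {i₀ : Fin n}
    (hi : i₀ ∈ B) (ha : ∀ i, 0 ≤ a i) (hδ : ∀ i, a i ≤ δ)
    (hA : 1 / 2 ≤ ∑ i ∈ B.erase i₀, a i ^ 2) (hs : 0 ≤ s)
    (horth : ∑ i ∈ B, a i * (σ * a i - κ i) = 0) (hsq : ∑ i ∈ B, (σ * a i - κ i) ^ 2 = s ^ 2) :
    ∃ σ' s' : ℝ, 0 ≤ s' ∧ ∑ i ∈ B.erase i₀, a i * (σ' * a i - κ i) = 0 ∧
      ∑ i ∈ B.erase i₀, (σ' * a i - κ i) ^ 2 = s' ^ 2 ∧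
      s' ^ 2 ≤ s ^ 2 - (σ * a i₀ - κ i₀) ^ 2 ∧ |σ - σ'| ≤ 2 * δ * s := by
  set A := ∑ i ∈ B.erase i₀, a i ^ 2 with hAdef
  have hA0 : 0 < A := by linarith
  have horth' := r1_orth (κ := κ) hA0
  set σ' := (∑ i ∈ B.erase i₀, a i * κ i) / A with hσ'
  have hnn : 0 ≤ ∑ i ∈ B.erase i₀, (σ' * a i - κ i) ^ 2 :=
    Finset.sum_nonneg fun i _ => sq_nonneg _
  have e1 : ∑ i ∈ B.erase i₀, (σ * a i - κ i) ^ 2 = s ^ 2 - (σ * a i₀ - κ i₀) ^ 2 := by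
    rw [← hsq, ← Finset.add_sum_erase B _ hi]
    ring
  have e2 : ∑ i ∈ B.erase i₀, a i * (σ * a i - κ i) = -(a i₀ * (σ * a i₀ - κ i₀)) := by
    have := horth
    rw [← Finset.add_sum_erase B _ hi] at this
    linarith
  have e3 := r1_pyth (τ := σ) horth'
  rw [← hAdef, e1] at e3
  have e4 : (σ - σ') * A = -(a i₀ * (σ * a i₀ - κ i₀)) := by
    rw [← e2]
    have h1 : ∀ i, a i * (σ * a i - κ i) = a i * (σ' * a i - κ i) + (σ - σ') * a i ^ 2 := by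
      intro i
      ring
    rw [Finset.sum_congr rfl fun i _ => h1 i, Finset.sum_add_distrib, ← Finset.mul_sum, horth',
      zero_add]
  have hρ : |σ * a i₀ - κ i₀| ≤ s := by
    apply abs_le_of_sq_le_sq _ hs
    nlinarith [sq_nonneg (σ - σ')]
  refine ⟨σ', Real.sqrt (∑ i ∈ B.erase i₀, (σ' * a i - κ i) ^ 2), Real.sqrt_nonneg _, horth',
    (Real.sq_sqrt hnn).symm, ?_, ?_⟩
  · rw [Real.sq_sqrt hnn]
    nlinarith [sq_nonneg (σ - σ')]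
  · have h1 : |σ - σ'| * A = a i₀ * |σ * a i₀ - κ i₀| := by
      rw [← abs_of_pos hA0, ← abs_mul, e4, abs_neg, abs_mul, abs_of_nonneg (ha i₀)]
    have h2 : a i₀ * |σ * a i₀ - κ i₀| ≤ δ * s :=
      mul_le_mul (hδ i₀) hρ (abs_nonneg _) ((ha i₀).trans (hδ i₀))
    have h3 : |σ - σ'| * (1 / 2) ≤ |σ - σ'| * A := mul_le_mul_of_nonneg_left hA (abs_nonneg _)
    linarith

theorem r1_le_of_sq {x y : ℝ} (h : x ^ 2 ≤ y ^ 2) (hy : 0 ≤ y) : x ≤ y :=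
  (abs_le_of_sq_le_sq' h hy).2

/-- the state after `m` steps -/
def r1_St (β δ : ℝ) (N₁ : ℕ) (a : Fin n → ℝ) (κ : Fin n → ℤ) (G : Finset (Fin n)) (m : ℕ)
    (J J₁ : Finset (Fin n)) (σ s : ℝ) : Prop :=
  J ⊆ G ∧ J.card = m ∧ J₁ ⊆ J ∧ J₁.card = min m N₁ ∧ 0 ≤ s ∧
    ∑ i ∈ G \ J, a i * (σ * a i - κ i) = 0 ∧ ∑ i ∈ G \ J, (σ * a i - κ i) ^ 2 = s ^ 2 ∧
    ∀ j ∈ J₁, ∃ t : ℝ, 0 ≤ t ∧ s ^ 2 ≤ t ^ 2 * (1 - β ^ 2) ^ (m - N₁) ∧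
      (β - 2 * δ ^ 2 * m) * t ≤ |σ * a j - κ j|

theorem r1_step {β δ : ℝ} (hβ : 0 < β) (hβ1 : β < 1) {N₁ : ℕ} {a : Fin n → ℝ} {κ : Fin n → ℤ}
    {G : Finset (Fin n)} {m : ℕ} {J J₁ : Finset (Fin n)} {σ s : ℝ} (ha : ∀ i, 0 ≤ a i)
    (hδ : ∀ i, a i ≤ δ) (h : r1_St β δ N₁ a κ G m J J₁ σ s) {i₀ : Fin n} (hi : i₀ ∈ G \ J)
    (hβs : β * s < |σ * a i₀ - κ i₀|) (hmass : 1 / 2 ≤ ∑ i ∈ (G \ J).erase i₀, a i ^ 2) :
    ∃ J' J₁' σ' s', r1_St β δ N₁ a κ G (m + 1) J' J₁' σ' s' := by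
  obtain ⟨hJG, hJc, hJJ, hJ1c, hs, horth, hsq, hlow⟩ := h
  obtain ⟨σ', s', hs', horth', hsq', hle, hσ⟩ := remove_one hi ha hδ hmass hs horth hsq
  have hiG := (Finset.mem_sdiff.1 hi).1
  have hiJ := (Finset.mem_sdiff.1 hi).2
  have hq0 : 0 < 1 - β ^ 2 := by nlinarith
  have hq1 : 1 - β ^ 2 ≤ 1 := by nlinarith
  have hδ0 : 0 ≤ δ := (ha i₀).trans (hδ i₀)
  have hρ : β ^ 2 * s ^ 2 ≤ (σ * a i₀ - κ i₀) ^ 2 := by
    rw [← mul_pow, ← sq_abs (σ * a i₀ - κ i₀)]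
    exact pow_le_pow_left₀ (by positivity) hβs.le 2
  have hs'2 : s' ^ 2 ≤ (1 - β ^ 2) * s ^ 2 := by linarith
  have hmove : ∀ j, |σ * a j - κ j| - 2 * δ ^ 2 * s ≤ |σ' * a j - κ j| := by
    intro j
    have h1 : |σ * a j - κ j| ≤ |σ' * a j - κ j| + |(σ - σ') * a j| := by
      have h2 : σ * a j - κ j = (σ' * a j - κ j) + (σ - σ') * a j := by ring
      rw [h2]
      exact abs_add_le _ _
    have h3 : |(σ - σ') * a j| ≤ 2 * δ * s * δ := by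
      rw [abs_mul, abs_of_nonneg (ha j)]
      exact mul_le_mul hσ (hδ j) (ha j) (by positivity)
    nlinarith
  have hsd : G \ insert i₀ J = (G \ J).erase i₀ := Finset.sdiff_insert G J i₀
  have hold : ∀ j ∈ J₁, ∃ t : ℝ, 0 ≤ t ∧ s' ^ 2 ≤ t ^ 2 * (1 - β ^ 2) ^ (m + 1 - N₁) ∧
      (β - 2 * δ ^ 2 * ((m + 1 : ℕ) : ℝ)) * t ≤ |σ' * a j - κ j| := by
    intro j hj
    obtain ⟨t, ht, ht1, ht2⟩ := hlow j hj
    have hst : s ≤ t := by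
      refine r1_le_of_sq ?_ ht
      refine ht1.trans ?_
      have : (1 - β ^ 2) ^ (m - N₁) ≤ 1 := pow_le_one₀ hq0.le hq1
      nlinarith [sq_nonneg t]
    refine ⟨t, ht, ?_, ?_⟩
    · rcases Nat.lt_or_ge m N₁ with hm | hm
      · have e1 : m - N₁ = 0 := by omega
        have e2 : m + 1 - N₁ = 0 := by omega
        rw [e1, pow_zero, mul_one] at ht1
        rw [e2, pow_zero, mul_one]
        nlinarith [sq_nonneg s]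
      · have e2 : m + 1 - N₁ = (m - N₁) + 1 := by omega
        rw [e2, pow_succ]
        calc s' ^ 2 ≤ (1 - β ^ 2) * s ^ 2 := hs'2
          _ ≤ (1 - β ^ 2) * (t ^ 2 * (1 - β ^ 2) ^ (m - N₁)) :=
            mul_le_mul_of_nonneg_left ht1 hq0.le
          _ = _ := by ring
    · refine le_trans ?_ (hmove j)
      push_cast
      nlinarith [mul_le_mul_of_nonneg_left hst (sq_nonneg δ)]
  rcases Nat.lt_or_ge m N₁ with hm | hm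
  · refine ⟨insert i₀ J, insert i₀ J₁, σ', s', ?_, ?_, ?_, ?_, hs', ?_, ?_, ?_⟩
    · exact Finset.insert_subset hiG hJG
    · rw [Finset.card_insert_of_notMem hiJ, hJc]
    · exact Finset.insert_subset_insert _ hJJ
    · rw [Finset.card_insert_of_notMem (fun h1 => hiJ (hJJ h1)), hJ1c]
      omega
    · rw [hsd]
      exact horth'
    · rw [hsd]
      exact hsq'
    · intro j hj
      rcases Finset.mem_insert.1 hj with rfl | hj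
      · refine ⟨s, hs, ?_, ?_⟩
        · have e2 : m + 1 - N₁ = 0 := by omega
          rw [e2, pow_zero, mul_one]
          nlinarith [sq_nonneg s]
        · refine le_trans ?_ (hmove j)
          push_cast
          have : 0 ≤ δ ^ 2 * m * s := by positivity
          nlinarith
      · exact hold j hj
  · refine ⟨insert i₀ J, J₁, σ', s', ?_, ?_, ?_, ?_, hs', ?_, ?_, hold⟩
    · exact Finset.insert_subset hiG hJG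
    · rw [Finset.card_insert_of_notMem hiJ, hJc]
    · exact hJJ.trans (Finset.subset_insert _ _)
    · rw [hJ1c]
      omega
    · rw [hsd]
      exact horth'
    · rw [hsd]
      exact hsq'

theorem r1_mass {a : Fin n → ℝ} {δ : ℝ} {G J : Finset (Fin n)} {K : ℕ} (ha : ∀ i, 0 ≤ a i)
    (hδ : ∀ i, a i ≤ δ) (hG : 3 / 4 ≤ ∑ i ∈ G, a i ^ 2) (hJG : J ⊆ G) (hJ : J.card ≤ K)
    (hK : K * δ ^ 2 ≤ 1 / 16) :
    ∑ i ∈ J, a i ^ 2 ≤ 1 / 16 ∧ 1 / 2 ≤ ∑ i ∈ G \ J, a i ^ 2 := by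
  have h1 : ∑ i ∈ J, a i ^ 2 ≤ J.card * δ ^ 2 := by
    calc ∑ i ∈ J, a i ^ 2 ≤ ∑ _i ∈ J, δ ^ 2 :=
          Finset.sum_le_sum fun i _ => pow_le_pow_left₀ (ha i) (hδ i) 2
      _ = J.card * δ ^ 2 := by rw [Finset.sum_const, nsmul_eq_mul]
  have h2 : (J.card : ℝ) * δ ^ 2 ≤ K * δ ^ 2 :=
    mul_le_mul_of_nonneg_right (by exact_mod_cast hJ) (sq_nonneg _)
  have h3 := Finset.sum_sdiff (f := fun i => a i ^ 2) hJG
  constructor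
  · linarith
  · linarith

theorem r1_facts {a : Fin n → ℝ} {κ : Fin n → ℤ} {δ C₁ σ₀ σ s : ℝ} {G J : Finset (Fin n)}
    {K : ℕ} (hC₁ : 0 < C₁) (ha : ∀ i, 0 ≤ a i) (hδ : ∀ i, a i ≤ δ) (hδ4 : δ ≤ 1 / 4)
    (hG : 3 / 4 ≤ ∑ i ∈ G, a i ^ 2) (hσ₀ : 2 * C₁ ≤ σ₀)
    (hsum : ∑ i ∈ G, (σ₀ * a i - κ i) ^ 2 ≤ C₁ ^ 2)
    (hno : ∀ σ : ℝ, 0 < σ → ∀ i ∈ G, ∀ j ∈ G, i ≠ j → ¬ (σ * a i = κ i ∧ σ * a j = κ j))
    (hJG : J ⊆ G) (hJ : J.card ≤ K) (hK : K * δ ^ 2 ≤ 1 / 16)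
    (hs : 0 ≤ s) (horth : ∑ i ∈ G \ J, a i * (σ * a i - κ i) = 0)
    (hsq : ∑ i ∈ G \ J, (σ * a i - κ i) ^ 2 = s ^ 2) :
    0 < s ∧ s ≤ C₁ ∧ (σ₀ - σ) ^ 2 ≤ 2 * C₁ ^ 2 := by
  obtain ⟨_, hm⟩ := r1_mass ha hδ hG hJG hJ hK
  have h1 := r1_pyth (τ := σ₀) horth
  rw [hsq] at h1
  have h2 : ∑ i ∈ G \ J, (σ₀ * a i - κ i) ^ 2 ≤ ∑ i ∈ G, (σ₀ * a i - κ i) ^ 2 :=
    Finset.sum_le_sum_of_subset_of_nonneg Finset.sdiff_subset fun i _ _ => sq_nonneg _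
  have h3 : (σ₀ - σ) ^ 2 * (1 / 2) ≤ (σ₀ - σ) ^ 2 * ∑ i ∈ G \ J, a i ^ 2 :=
    mul_le_mul_of_nonneg_left hm (sq_nonneg _)
  have h4 : (σ₀ - σ) ^ 2 ≤ 2 * C₁ ^ 2 := by nlinarith [sq_nonneg s]
  have h5 : s ≤ C₁ := by
    refine r1_le_of_sq ?_ hC₁.le
    nlinarith [sq_nonneg (σ₀ - σ)]
  have hσ : 0 < σ := by
    by_contra hcon
    rw [not_lt] at hcon
    nlinarith
  refine ⟨?_, h5, h4⟩
  rcases hs.lt_or_eq with h6 | h6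
  · exact h6
  exfalso
  rw [← h6] at hsq
  have h7 : ∀ i ∈ G \ J, (σ * a i - κ i) ^ 2 = 0 := by
    have := (Finset.sum_eq_zero_iff_of_nonneg (s := G \ J)
      (f := fun i => (σ * a i - κ i) ^ 2) (fun i _ => sq_nonneg _)).1 (by rw [hsq]; norm_num)
    exact this
  have h8 : 1 < (G \ J).card := by
    by_contra hcon
    rw [not_lt] at hcon
    have h9 : ∑ i ∈ G \ J, a i ^ 2 ≤ (G \ J).card * (1 / 4) ^ 2 := by
      calc ∑ i ∈ G \ J, a i ^ 2 ≤ ∑ _i ∈ G \ J, (1 / 4 : ℝ) ^ 2 :=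
            Finset.sum_le_sum fun i _ => pow_le_pow_left₀ (ha i) ((hδ i).trans hδ4) 2
        _ = (G \ J).card * (1 / 4) ^ 2 := by rw [Finset.sum_const, nsmul_eq_mul]
    have h10 : ((G \ J).card : ℝ) ≤ 1 := by exact_mod_cast hcon
    nlinarith
  obtain ⟨i, hi, j, hj, hij⟩ := Finset.one_lt_card.1 h8
  have h9 : ∀ k ∈ G \ J, σ * a k = κ k := by
    intro k hk
    have := h7 k hk
    have h11 := pow_eq_zero_iff (two_ne_zero) |>.1 this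
    linarith
  exact hno σ hσ i (Finset.mem_sdiff.1 hi).1 j (Finset.mem_sdiff.1 hj).1 hij ⟨h9 i hi, h9 j hj⟩

/-- ROW REG-R1b (structure theorem).

PROOF.  Let `T` be such that `(1-β²)^{T} ≤ (β/4)²`, `K = N₁ + T`, `δ₁` with `K δ₁² ≤ 1/4`, `4 K δ₁² ≤ β` and `√K δ₁ ≤ 1/2`, `δ₁≤1`.
Start: `J_0 = ∅`, `σ_0 = (∑_G a κ)/(∑_G a²)` (orthogonal), `s_0² = ∑_G (σ_0 a - κ)² ≤ ∑_G (σ₀' a - κ)² ≤ C₁²` (minimality,
`σ₀'` = the given `σ₀`).  As long as `m < K` and there is `i_m ∈ G \ J_m` with `|ρ^m_{i_m}| > β s_m`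
(`ρ^m_i = σ_m a_i - κ_i`), put `J_{m+1} = J_m ∪ {i_m}` and use `remove_one` (`∑_{G \ J} a² ≥ 3/4 - K δ₁² ≥ 1/2`):
`s_{m+1}² ≤ (1-β²) s_m²`, `|σ_{m+1} - σ_m| ≤ 2δ s_m`.
If the process stops at some `m ≤ K` because there is no such `i_m`: first alternative, with `J = J_m`.
If it runs `K` steps: `J = J_K`, `σ = σ_K`, `s = s_K`, `J₁ = {i_0, …, i_{N₁-1}}`.  For `j = i_m`, `m < N₁`:
`|σ a_j - κ_j| ≥ |ρ^m_j| - a_j ∑_{m' ≥ m} |σ_{m'+1} - σ_{m'}| ≥ β s_m - 2 δ² K s_m ≥ (β/2) s_m`, and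
`s_K ≤ (1-β²)^{(K-m)/2} s_m ≤ (1-β²)^{T/2} s_m ≤ (β/4) s_m`; so `|σ a_j - κ_j| ≥ s_K`.
`s > 0` always: `G \ J` has at least two elements (its mass is `≥ 1/2` and each `a_i² ≤ δ₁² ≤ 1/4` ...; choose `δ₁ ≤ 1/2`),
`σ > 0` (see below), and the last hypothesis excludes `σ a_i = κ_i` for two indices.
`|σ - σ₀|`: `(σ₀ - σ) ∑_B a² = ∑_B a (σ₀ a - κ)`, `B = G \ J`, so `|σ₀-σ| ≤ C₁ / (∑_B a²)^{1/2} ≤ √2 C₁ < 2 C₁ ≤ σ₀`
(this holds for every `σ_m`, `B = G \ J_m`; so all `σ_m > 0`), and hence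
`(∑_{J₁} (σ a - κ)²)^{1/2} ≤ C₁ + √2 C₁ (∑_{J₁} a²)^{1/2} ≤ C₁ + √2 C₁ √K δ₁ ≤ 2 C₁`. -/
theorem structure_thm (β : ℝ) (hβ : 0 < β) (hβ1 : β < 1) (N₁ : ℕ) (C₁ : ℝ) (hC₁ : 0 < C₁) :
    ∃ K : ℕ, ∃ δ₁ : ℝ, 0 < δ₁ ∧ ∀ (n : ℕ) (a : Fin n → ℝ) (κ : Fin n → ℤ) (G : Finset (Fin n))
      (σ₀ : ℝ), (∀ i, 0 ≤ a i) → (∀ i, a i ≤ δ₁) → 3 / 4 ≤ ∑ i ∈ G, a i ^ 2 → 2 * C₁ ≤ σ₀ →
      ∑ i ∈ G, (σ₀ * a i - κ i) ^ 2 ≤ C₁ ^ 2 →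
      (∀ σ : ℝ, 0 < σ → ∀ i ∈ G, ∀ j ∈ G, i ≠ j → ¬ (σ * a i = κ i ∧ σ * a j = κ j)) →
      ∃ J : Finset (Fin n), J ⊆ G ∧ J.card ≤ K ∧ ∃ s σ : ℝ, 0 < s ∧ s ≤ C₁ ∧
        ∑ i ∈ G \ J, a i * (σ * a i - κ i) = 0 ∧
        ∑ i ∈ G \ J, (σ * a i - κ i) ^ 2 = s ^ 2 ∧
        ((∀ i ∈ G \ J, |σ * a i - κ i| ≤ β * s) ∨
          ∃ J₁ : Finset (Fin n), J₁ ⊆ J ∧ J₁.card = N₁ ∧ (∀ j ∈ J₁, s ≤ |σ * a j - κ j|) ∧
            ∑ j ∈ J₁, (σ * a j - κ j) ^ 2 ≤ (2 * C₁) ^ 2) := by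
  have hq0 : 0 < 1 - β ^ 2 := by nlinarith
  have hq1 : 1 - β ^ 2 < 1 := by nlinarith
  obtain ⟨T, hT⟩ := exists_pow_lt_of_lt_one (show 0 < (β / 4) ^ 2 by positivity) hq1
  set K := N₁ + T with hKdef
  have hK1 : (0 : ℝ) < (K : ℝ) + 1 := by positivity
  refine ⟨K, β / (4 * (K + 1)), by positivity, ?_⟩
  intro n a κ G σ₀ ha hδ hG hσ₀ hsum hno
  set δ := β / (4 * ((K : ℝ) + 1)) with hδdef
  have hδ0 : 0 < δ := by positivity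
  have hδK : δ * (K + 1) = β / 4 := by
    rw [hδdef]
    field_simp
  have hδ4 : δ ≤ 1 / 4 := by
    have : δ ≤ δ * (K + 1) := by
      have : (0 : ℝ) ≤ K := by positivity
      nlinarith
    linarith
  have hKδ : (K : ℝ) * δ ^ 2 ≤ β / 16 := by
    have h1 : (K : ℝ) * δ ≤ β / 4 := by nlinarith
    have h2 : (K : ℝ) * δ ^ 2 = (K * δ) * δ := by ring
    rw [h2]
    have h3 : (K : ℝ) * δ * δ ≤ β / 4 * (1 / 4) :=
      mul_le_mul h1 hδ4 hδ0.le (by positivity)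
    linarith
  have hK16 : (K : ℝ) * δ ^ 2 ≤ 1 / 16 := by linarith
  have key : ∀ m : ℕ, m ≤ K → (∃ J : Finset (Fin n), J ⊆ G ∧ J.card ≤ K ∧ ∃ s σ : ℝ, 0 < s ∧
      s ≤ C₁ ∧ ∑ i ∈ G \ J, a i * (σ * a i - κ i) = 0 ∧
        ∑ i ∈ G \ J, (σ * a i - κ i) ^ 2 = s ^ 2 ∧
        ∀ i ∈ G \ J, |σ * a i - κ i| ≤ β * s) ∨
      ∃ J J₁ σ s, r1_St β δ N₁ a κ G m J J₁ σ s := by
    intro m
    induction m with
    | zero =>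
      intro _
      right
      have hA : 0 < ∑ i ∈ G, a i ^ 2 := by linarith
      have h1 := r1_orth (κ := κ) hA
      have hnn : 0 ≤ ∑ i ∈ G, ((∑ i ∈ G, a i * κ i) / (∑ i ∈ G, a i ^ 2) * a i - κ i) ^ 2 :=
        Finset.sum_nonneg fun i _ => sq_nonneg _
      refine ⟨∅, ∅, (∑ i ∈ G, a i * κ i) / (∑ i ∈ G, a i ^ 2),
        Real.sqrt (∑ i ∈ G, ((∑ i ∈ G, a i * κ i) / (∑ i ∈ G, a i ^ 2) * a i - κ i) ^ 2),
        Finset.empty_subset _, rfl, Finset.empty_subset _, ?_, Real.sqrt_nonneg _, ?_, ?_, ?_⟩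
      · simp
      · rw [Finset.sdiff_empty]
        exact h1
      · rw [Finset.sdiff_empty]
        exact (Real.sq_sqrt hnn).symm
      · intro j hj
        simp at hj
    | succ m ih =>
      intro hm
      rcases ih (by omega) with h1 | ⟨J, J₁, σ, s, hSt⟩
      · exact Or.inl h1
      · have hSt' := hSt
        obtain ⟨hJG, hJc, hJJ, hJ1c, hs, horth, hsq, hlow⟩ := hSt
        by_cases hstop : ∀ i ∈ G \ J, |σ * a i - κ i| ≤ β * s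
        · left
          obtain ⟨f1, f2, _⟩ := r1_facts hC₁ ha hδ hδ4 hG hσ₀ hsum hno hJG
            (by omega : J.card ≤ K) hK16 hs horth hsq
          exact ⟨J, hJG, by omega, s, σ, f1, f2, horth, hsq, hstop⟩
        · right
          push Not at hstop
          obtain ⟨i₀, hi₀, hlt⟩ := hstop
          have hiG := (Finset.mem_sdiff.1 hi₀).1
          have hiJ := (Finset.mem_sdiff.1 hi₀).2
          obtain ⟨_, hmass⟩ := r1_mass (J := insert i₀ J) (K := K) ha hδ hG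
            (Finset.insert_subset hiG hJG)
            (by rw [Finset.card_insert_of_notMem hiJ]; omega) hK16
          rw [Finset.sdiff_insert] at hmass
          exact r1_step hβ hβ1 ha hδ hSt' hi₀ hlt hmass
  rcases key K le_rfl with ⟨J, h1, h2, s, σ, h3, h4, h5, h6, h7⟩ | ⟨J, J₁, σ, s, hSt⟩
  · exact ⟨J, h1, h2, s, σ, h3, h4, h5, h6, Or.inl h7⟩
  · obtain ⟨hJG, hJc, hJJ, hJ1c, hs, horth, hsq, hlow⟩ := hSt
    obtain ⟨f1, f2, f3⟩ := r1_facts hC₁ ha hδ hδ4 hG hσ₀ hsum hno hJG hJc.le hK16 hs horth hsq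
    refine ⟨J, hJG, hJc.le, s, σ, f1, f2, horth, hsq, Or.inr ⟨J₁, hJJ, ?_, ?_, ?_⟩⟩
    · rw [hJ1c]
      omega
    · intro j hj
      obtain ⟨t, ht, ht1, ht2⟩ := hlow j hj
      have e1 : K - N₁ = T := by omega
      rw [e1] at ht1
      have h1 : s ≤ t * (β / 4) := by
        refine r1_le_of_sq ?_ (by positivity)
        rw [mul_pow]
        exact ht1.trans (mul_le_mul_of_nonneg_left hT.le (sq_nonneg t))
      refine le_trans ?_ ht2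
      have h2 : β / 2 ≤ β - 2 * δ ^ 2 * K := by nlinarith
      nlinarith
    · obtain ⟨hm1, _⟩ := r1_mass ha hδ hG (hJJ.trans hJG)
        ((Finset.card_le_card hJJ).trans hJc.le) hK16
      have h1 : ∀ j, (σ * a j - κ j) ^ 2 ≤ 2 * (σ₀ * a j - κ j) ^ 2 +
          2 * (σ₀ - σ) ^ 2 * a j ^ 2 := by
        intro j
        nlinarith [sq_nonneg ((σ₀ * a j - κ j) + (σ₀ - σ) * a j)]
      have h2 : ∑ j ∈ J₁, (σ₀ * a j - κ j) ^ 2 ≤ ∑ i ∈ G, (σ₀ * a i - κ i) ^ 2 :=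
        Finset.sum_le_sum_of_subset_of_nonneg (hJJ.trans hJG) fun i _ _ => sq_nonneg _
      calc ∑ j ∈ J₁, (σ * a j - κ j) ^ 2 ≤ ∑ j ∈ J₁, (2 * (σ₀ * a j - κ j) ^ 2 +
          2 * (σ₀ - σ) ^ 2 * a j ^ 2) := Finset.sum_le_sum fun j _ => h1 j
        _ = 2 * ∑ j ∈ J₁, (σ₀ * a j - κ j) ^ 2 + 2 * (σ₀ - σ) ^ 2 * ∑ j ∈ J₁, a j ^ 2 := by
          rw [Finset.sum_add_distrib, ← Finset.mul_sum, ← Finset.mul_sum]
        _ ≤ 2 * C₁ ^ 2 + 2 * (2 * C₁ ^ 2) * (1 / 16) := by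
          have h3 : 2 * (σ₀ - σ) ^ 2 * ∑ j ∈ J₁, a j ^ 2 ≤ 2 * (2 * C₁ ^ 2) * (1 / 16) := by
            apply mul_le_mul (by linarith) hm1 (Finset.sum_nonneg fun i _ => sq_nonneg _)
              (by positivity)
          linarith
        _ ≤ (2 * C₁) ^ 2 := by nlinarith [sq_nonneg C₁]

end Pool.Agent.MP_cb3c9c_an.REG
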