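import Pool.Agent.MP_cb3c9c_an.REG.GK

set_option autoImplicit false

open Finset MeasureTheory
open scoped BigOperators

namespace Pool.Agent.MP_cb3c9c_an.REG

open Pool.Agent.MP_cb3c9c_an.TwoBlock

variable {n : ℕ}

lemma r2_cos {y : ℝ} (hy : |y| ≤ Real.pi / 2) : |Real.cos y| ≤ Real.exp (-(y ^ 2) / 2) := by
  have key : ∀ z : ℝ, 0 ≤ z → z ≤ Real.pi / 2 → Real.cos z ≤ Real.exp (-(z ^ 2) / 2) := by
    intro z hz0 hz1
    have hanti : AntitoneOn (fun u : ℝ => Real.exp (u ^ 2 / 2) * Real.cos u)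
        (Set.Icc 0 (Real.pi / 2)) := by
      apply antitoneOn_of_deriv_nonpos (convex_Icc _ _)
      · exact (Continuous.mul (Real.continuous_exp.comp (by fun_prop))
          Real.continuous_cos).continuousOn
      · intro u _
        exact (DifferentiableAt.mul (by fun_prop) (by fun_prop)).differentiableWithinAt
      · intro u hu
        rw [interior_Icc, Set.mem_Ioo] at hu
        have h1 : HasDerivAt (fun u : ℝ => Real.exp (u ^ 2 / 2) * Real.cos u)
            (Real.exp (u ^ 2 / 2) * u * Real.cos u + Real.exp (u ^ 2 / 2) * (-Real.sin u)) u := by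
          have h2 : HasDerivAt (fun u : ℝ => u ^ 2 / 2) u u := by
            have h0 := (hasDerivAt_pow 2 u).div_const 2
            have e0 : ((2 : ℕ) : ℝ) * u ^ (2 - 1) / 2 = u := by
              norm_num
            rw [e0] at h0
            exact h0
          exact (h2.exp).mul (Real.hasDerivAt_cos u)
        rw [h1.deriv]
        have h3 : u < Real.tan u := Real.lt_tan hu.1 hu.2
        have hc : 0 < Real.cos u := Real.cos_pos_of_mem_Ioo ⟨by linarith [hu.1], hu.2⟩
        have h4 : u * Real.cos u ≤ Real.sin u := by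
          rw [Real.tan_eq_sin_div_cos, lt_div_iff₀ hc] at h3
          exact h3.le
        have h5 := Real.exp_pos (u ^ 2 / 2)
        nlinarith
    have h6 := hanti (Set.mem_Icc.mpr ⟨le_refl 0, by positivity⟩) (Set.mem_Icc.mpr ⟨hz0, hz1⟩) hz0
    simp only [Real.cos_zero, mul_one] at h6
    norm_num at h6
    have h7 := Real.exp_pos (z ^ 2 / 2)
    have h8 : Real.exp (-(z ^ 2) / 2) * Real.exp (z ^ 2 / 2) = 1 := by
      rw [← Real.exp_add]
      have : -(z ^ 2) / 2 + z ^ 2 / 2 = 0 := by ring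
      rw [this, Real.exp_zero]
    by_contra hcon
    rw [not_le] at hcon
    nlinarith
  have h1 := key |y| (abs_nonneg y) hy
  rw [Real.cos_abs, sq_abs] at h1
  rw [abs_of_nonneg]
  · exact h1
  · rw [← Real.cos_abs]
    exact Real.cos_nonneg_of_mem_Icc ⟨by linarith [abs_nonneg y, Real.pi_pos], hy⟩

lemma r2_int {b : ℝ} (hb : 0 < b) :
    ∫ t in Set.Ioi (0 : ℝ), t * Real.exp (-b * t ^ 2) = (2 * b)⁻¹ := by
  have h := integral_mul_cexp_neg_mul_sq (b := (b : ℂ)) (by simpa using hb)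
  have h2 : (fun r : ℝ => (r : ℂ) * Complex.exp (-(b : ℂ) * (r : ℂ) ^ 2)) =
      fun r : ℝ => ((r * Real.exp (-b * r ^ 2) : ℝ) : ℂ) := by
    funext r
    push_cast
    rfl
  rw [h2, integral_complex_ofReal] at h
  exact_mod_cast h

/-- ROW REG-R2 (concentration of a regular block).

PROOF.  `conc_le` (GK) with `h' = max h (√β s)` instead of `h` (the event only grows).  For
`0 < t ≤ T := π/(2 β s)`: `|ρ_i t| ≤ π/2` and `|cos y| ≤ e^{-y²/2}` there (`Real.cos_le_exp..`; or
`F y = e^{y²/2} cos y` decreasing on `[0, π/2]`), so `∏ |cos (ρ_i t)| ≤ e^{-s² t²/2}`; for `t > T` bound the product by `1`.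
`2h' (∫_0^∞ e^{-s²t²/2} dt + ∫_T^∞ e^{-h'² t²/2} dt) ≤ 2h' (√(π/2)/s + (1/(T h'²)) e^{-h'²T²/2})
 = 2.507 h'/s + (4 β s/(π h')) e^{-π² h'²/(8β²s²)} ≤ 2.507 h'/s + (4/π) √β e^{-π²/(8β)}`
(`∫_T^∞ e^{-h'²t²/2} ≤ ∫_T^∞ (t/T) e^{-h'²t²/2}`; `h' ≥ √β s`).  Since `β ≤ 1`, `e^{-π²/(8β)} ≤ e^{-1.2} < 0.31`, and
`h' ≤ h + √β s`: total `≤ 2.51 h/s + (2.51 + 0.4) √β ≤ 4 (h/s + √β)`. -/
theorem conc_regular {S : Finset (Fin n)} {ρ : Fin n → ℝ} {s β h : ℝ} (hs : 0 < s)
    (hS : ∑ i ∈ S, ρ i ^ 2 = s ^ 2) (hβ : 0 < β) (hβ1 : β ≤ 1) (hρ : ∀ i ∈ S, |ρ i| ≤ β * s)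
    (hh : 0 ≤ h) (c : ℝ) :
    Ex (fun x : Fin n → Bool => if |lfS S ρ x - c| ≤ h then (1 : ℝ) else 0) ≤
      4 * (h / s + Real.sqrt β) := by
  have hβs : 0 < Real.sqrt β := Real.sqrt_pos.mpr hβ
  have hββ : Real.sqrt β * Real.sqrt β = β := Real.mul_self_sqrt hβ.le
  have hπ := Real.pi_pos
  obtain ⟨h', hh'⟩ : ∃ h', h' = max h (Real.sqrt β * s) := ⟨_, rfl⟩
  have hh1 : h ≤ h' := by rw [hh']; exact le_max_left _ _
  have hh2 : Real.sqrt β * s ≤ h' := by rw [hh']; exact le_max_right _ _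
  have hh3 : h' ≤ h + Real.sqrt β * s := by
    rw [hh']
    apply max_le
    · have : 0 ≤ Real.sqrt β * s := by positivity
      linarith
    · linarith
  have hh0 : 0 < h' := lt_of_lt_of_le (by positivity) hh2
  obtain ⟨T, hT⟩ : ∃ T, T = Real.pi / (2 * β * s) := ⟨_, rfl⟩
  have hT0 : 0 < T := by rw [hT]; positivity
  have hβT : β * s * T = Real.pi / 2 := by
    rw [hT]
    field_simp
  -- the event grows
  have hstep1 : Ex (fun x : Fin n → Bool => if |lfS S ρ x - c| ≤ h then (1 : ℝ) else 0) ≤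
      Ex (fun x : Fin n → Bool => if |lfS S ρ x - c| ≤ h' then (1 : ℝ) else 0) := by
    apply Ex_mono
    intro x
    by_cases hx : |lfS S ρ x - c| ≤ h
    · rw [if_pos hx, if_pos (hx.trans hh1)]
    · rw [if_neg hx]
      split_ifs <;> norm_num
  refine hstep1.trans ((conc_le S ρ c hh0).trans ?_)
  -- the integral
  have hint : ∫ t in Set.Ioi (0 : ℝ),
        (∏ i ∈ S, |Real.cos (ρ i * t)|) * Real.exp (-(h' ^ 2 * t ^ 2) / 2) ≤
      Real.sqrt (Real.pi / (s ^ 2 / 2)) / 2 + 1 / T * (2 * (h' ^ 2 / 2))⁻¹ := by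
    have hb1 : 0 < s ^ 2 / 2 := by positivity
    have hb2 : 0 < h' ^ 2 / 2 := by positivity
    have hi1 : IntegrableOn (fun t : ℝ => Real.exp (-(s ^ 2 / 2) * t ^ 2)) (Set.Ioi 0) :=
      (integrable_exp_neg_mul_sq hb1).integrableOn
    have hi2 : IntegrableOn (fun t : ℝ => 1 / T * (t * Real.exp (-(h' ^ 2 / 2) * t ^ 2)))
        (Set.Ioi 0) :=
      ((integrable_mul_exp_neg_mul_sq hb2).const_mul (1 / T)).integrableOn
    have hval : ∫ t in Set.Ioi (0 : ℝ), (Real.exp (-(s ^ 2 / 2) * t ^ 2) +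
        1 / T * (t * Real.exp (-(h' ^ 2 / 2) * t ^ 2))) =
        Real.sqrt (Real.pi / (s ^ 2 / 2)) / 2 + 1 / T * (2 * (h' ^ 2 / 2))⁻¹ := by
      rw [integral_add hi1 hi2, integral_gaussian_Ioi, integral_const_mul, r2_int hb2]
    rw [← hval]
    apply integral_mono_of_nonneg
    · exact Filter.Eventually.of_forall fun t => by positivity
    · exact hi1.add hi2
    · refine (ae_restrict_iff' measurableSet_Ioi).mpr (Filter.Eventually.of_forall fun t ht => ?_)
      have ht0 : 0 < t := ht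
      have he2 : -(h' ^ 2 * t ^ 2) / 2 = -(h' ^ 2 / 2) * t ^ 2 := by ring
      have hE := Real.exp_pos (-(h' ^ 2 / 2) * t ^ 2)
      have hE1 := Real.exp_pos (-(s ^ 2 / 2) * t ^ 2)
      simp only []
      rw [he2]
      by_cases htT : t ≤ T
      · have hprod : ∏ i ∈ S, |Real.cos (ρ i * t)| ≤ Real.exp (-(s ^ 2 / 2) * t ^ 2) := by
          have hle : ∏ i ∈ S, |Real.cos (ρ i * t)| ≤ ∏ i ∈ S, Real.exp (-((ρ i * t) ^ 2) / 2) := by
            apply Finset.prod_le_prod
            · intro i _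
              exact abs_nonneg _
            · intro i hi
              apply r2_cos
              rw [abs_mul, abs_of_pos ht0]
              calc |ρ i| * t ≤ (β * s) * T := by
                    apply mul_le_mul (hρ i hi) htT ht0.le (by positivity)
                _ = Real.pi / 2 := hβT
          refine hle.trans (le_of_eq ?_)
          rw [← Real.exp_sum]
          congr 1
          rw [← Finset.sum_div]
          have : ∑ i ∈ S, -((ρ i * t) ^ 2) = -(s ^ 2 * t ^ 2) := by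
            rw [← hS, Finset.sum_mul, ← Finset.sum_neg_distrib]
            exact Finset.sum_congr rfl fun i _ => by ring
          rw [this]
          ring
        have hE' : Real.exp (-(h' ^ 2 / 2) * t ^ 2) ≤ 1 := by
          rw [Real.exp_le_one_iff]
          have : 0 ≤ (h' ^ 2 / 2) * t ^ 2 := by positivity
          linarith
        have h1 : (∏ i ∈ S, |Real.cos (ρ i * t)|) * Real.exp (-(h' ^ 2 / 2) * t ^ 2) ≤
            Real.exp (-(s ^ 2 / 2) * t ^ 2) * 1 :=
          mul_le_mul hprod hE' hE.le hE1.le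
        have h2 : 0 ≤ 1 / T * (t * Real.exp (-(h' ^ 2 / 2) * t ^ 2)) := by positivity
        linarith
      · rw [not_le] at htT
        have hprod : ∏ i ∈ S, |Real.cos (ρ i * t)| ≤ 1 :=
          Finset.prod_le_one (fun i _ => abs_nonneg _) fun i _ => Real.abs_cos_le_one _
        have h1 : (∏ i ∈ S, |Real.cos (ρ i * t)|) * Real.exp (-(h' ^ 2 / 2) * t ^ 2) ≤
            1 * Real.exp (-(h' ^ 2 / 2) * t ^ 2) :=
          mul_le_mul_of_nonneg_right hprod hE.le
        have h3 : 1 ≤ 1 / T * t := by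
          rw [one_div, inv_mul_eq_div, one_le_div hT0]
          exact htT.le
        have h4 : 1 * Real.exp (-(h' ^ 2 / 2) * t ^ 2) ≤
            (1 / T * t) * Real.exp (-(h' ^ 2 / 2) * t ^ 2) :=
          mul_le_mul_of_nonneg_right h3 hE.le
        have h5 : (1 / T * t) * Real.exp (-(h' ^ 2 / 2) * t ^ 2) =
          1 / T * (t * Real.exp (-(h' ^ 2 / 2) * t ^ 2)) := by ring
        linarith
  have h2h : 0 ≤ 2 * h' := by positivity
  refine (mul_le_mul_of_nonneg_left hint h2h).trans ?_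
  -- the final inequality
  have hsq : Real.sqrt (Real.pi / (s ^ 2 / 2)) = Real.sqrt (2 * Real.pi) / s := by
    rw [show Real.pi / (s ^ 2 / 2) = (2 * Real.pi) / s ^ 2 by field_simp, Real.sqrt_div (by positivity),
      Real.sqrt_sq hs.le]
  have hsqle : Real.sqrt (2 * Real.pi) ≤ 2.51 := by
    rw [Real.sqrt_le_left (by norm_num)]
    have := Real.pi_lt_d2
    nlinarith
  have hA : 2 * h' * (Real.sqrt (2 * Real.pi) / s / 2) ≤ 2.51 * (h / s + Real.sqrt β) := by
    have h1 : h' / s ≤ h / s + Real.sqrt β := by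
      rw [div_le_iff₀ hs, add_mul, div_mul_cancel₀ _ hs.ne']
      exact hh3
    have h2 : 2 * h' * (Real.sqrt (2 * Real.pi) / s / 2) = Real.sqrt (2 * Real.pi) * (h' / s) := by
      field_simp
    rw [h2]
    have h3 : 0 ≤ h' / s := by positivity
    calc Real.sqrt (2 * Real.pi) * (h' / s) ≤ 2.51 * (h' / s) :=
          mul_le_mul_of_nonneg_right hsqle h3
      _ ≤ _ := mul_le_mul_of_nonneg_left h1 (by norm_num)
  have hB : 2 * h' * (1 / T * (2 * (h' ^ 2 / 2))⁻¹) ≤ 1.3 * Real.sqrt β := by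
    have h1 : 2 * h' * (1 / T * (2 * (h' ^ 2 / 2))⁻¹) = (4 / Real.pi) * (β * s / h') := by
      rw [hT]
      field_simp
      norm_num
    rw [h1]
    have h2 : β * s / h' ≤ Real.sqrt β := by
      rw [div_le_iff₀ hh0]
      calc β * s = Real.sqrt β * (Real.sqrt β * s) := by rw [← mul_assoc, hββ]
        _ ≤ _ := mul_le_mul_of_nonneg_left hh2 hβs.le
    have h3 : 4 / Real.pi ≤ 1.3 := by
      rw [div_le_iff₀ hπ]
      have := Real.pi_gt_d2
      nlinarith
    have h4 : 0 ≤ β * s / h' := by positivity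
    calc (4 / Real.pi) * (β * s / h') ≤ 1.3 * (β * s / h') :=
          mul_le_mul_of_nonneg_right h3 h4
      _ ≤ _ := mul_le_mul_of_nonneg_left h2 (by norm_num)
  rw [hsq, mul_add]
  have h5 : 0 ≤ h / s := by positivity
  nlinarith

end Pool.Agent.MP_cb3c9c_an.REG
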