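import Pool.Agent.MP_cb3c9c_an.REG.Base

set_option autoImplicit false

open Finset MeasureTheory
open scoped BigOperators

namespace Pool.Agent.MP_cb3c9c_an.REG

open Pool.Agent.MP_cb3c9c_an.TwoBlock

variable {n : ℕ}

/-- auxiliary form of `choose_small`, induction on `k = S.card - N` -/
lemma r5_choose_small_aux (w : Fin n → ℝ) (N : ℕ) (k : ℕ) :
    ∀ S : Finset (Fin n), (∀ i ∈ S, 0 ≤ w i) → S.card = N + k →
    ∃ L : Finset (Fin n), L ⊆ S ∧ L.card = N ∧ (S.card : ℝ) * ∑ i ∈ L, w i ≤ N * ∑ i ∈ S, w i := by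
  induction k with
  | zero =>
    intro S _ hS
    refine ⟨S, Finset.Subset.refl S, by omega, ?_⟩
    have : (S.card : ℝ) = N := by exact_mod_cast (by omega : S.card = N)
    rw [this]
  | succ k ih =>
    intro S hw hS
    have hne : S.Nonempty := by
      rw [← Finset.card_pos]; omega
    obtain ⟨i0, hi0, hmax⟩ := Finset.exists_max_image S w hne
    have hcard : (S.erase i0).card = N + k := by
      rw [Finset.card_erase_of_mem hi0]; omega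
    obtain ⟨L, hL1, hL2, hL3⟩ := ih (S.erase i0)
      (fun i hi => hw i (Finset.mem_of_mem_erase hi)) hcard
    refine ⟨L, hL1.trans (Finset.erase_subset _ _), hL2, ?_⟩
    have hsum : ∑ i ∈ S.erase i0, w i + w i0 = ∑ i ∈ S, w i := Finset.sum_erase_add _ _ hi0
    have hmaxsum : ∑ i ∈ S, w i ≤ S.card * w i0 := by
      have := Finset.sum_le_card_nsmul S w (w i0) hmax
      simpa [nsmul_eq_mul] using this
    have hScast : (S.card : ℝ) = N + k + 1 := by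
      rw [hS]; push_cast; ring
    have hEcast : ((S.erase i0).card : ℝ) = N + k := by
      rw [hcard]; push_cast; ring
    rw [hEcast] at hL3
    rw [hScast] at hmaxsum ⊢
    have hN0 : (0 : ℝ) ≤ N := Nat.cast_nonneg _
    have hk0 : (0 : ℝ) ≤ k := Nat.cast_nonneg _
    have hLnn : 0 ≤ ∑ i ∈ L, w i :=
      Finset.sum_nonneg fun i hi => hw i (Finset.mem_of_mem_erase (hL1 hi))
    rcases Nat.eq_zero_or_pos (N + k) with h0 | hpos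
    · have hN : N = 0 := by omega
      have hLe : L = ∅ := by rw [← Finset.card_eq_zero, hL2, hN]
      rw [hLe, hN]; simp
    · have hpos' : (0 : ℝ) < N + k := by exact_mod_cast hpos
      -- (N+k) * ((N+k+1) ΣL) ≤ (N+k+1) N Σ_{S\i} ≤ (N+k) N Σ_S
      have h1 : ((N : ℝ) + k + 1) * ∑ i ∈ S.erase i0, w i ≤ (N + k) * ∑ i ∈ S, w i := by
        nlinarith
      have h2 : ((N : ℝ) + k) * (((N : ℝ) + k + 1) * ∑ i ∈ L, w i) ≤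
          ((N : ℝ) + k) * (N * ∑ i ∈ S, w i) := by
        calc ((N : ℝ) + k) * (((N : ℝ) + k + 1) * ∑ i ∈ L, w i)
            = ((N : ℝ) + k + 1) * (((N : ℝ) + k) * ∑ i ∈ L, w i) := by ring
          _ ≤ ((N : ℝ) + k + 1) * (N * ∑ i ∈ S.erase i0, w i) :=
              mul_le_mul_of_nonneg_left hL3 (by positivity)
          _ = N * (((N : ℝ) + k + 1) * ∑ i ∈ S.erase i0, w i) := by ring
          _ ≤ N * (((N : ℝ) + k) * ∑ i ∈ S, w i) := mul_le_mul_of_nonneg_left h1 hN0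
          _ = ((N : ℝ) + k) * (N * ∑ i ∈ S, w i) := by ring
      exact le_of_mul_le_mul_left h2 hpos'

/-- ROW REG-R5 (two statements).  The `N` smallest weights.

PROOF.  Induction on `S.card - N`: if `N = S.card` take `L = S`.  Otherwise remove from `S` an element `i` of maximal
weight; `w i ≥ (∑_S w)/|S|`, so `∑_{S \ i} w ≤ (1 - 1/|S|) ∑_S w`, i.e. `|S| ∑_{S\i} w ≤ (|S|-1) ∑_S w`.  Apply the
induction hypothesis: `(|S|-1) ∑_L w ≤ N ∑_{S\i} w`.  Multiply: `|S| (|S|-1) ∑_L w ≤ N (|S|-1) ∑_S w`, divide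
(`|S| ≥ 2` here, the case `|S| = 1, N = 0` is trivial: `L = ∅`). -/
theorem choose_small (S : Finset (Fin n)) (w : Fin n → ℝ) (hw : ∀ i ∈ S, 0 ≤ w i) (N : ℕ)
    (hN : N ≤ S.card) :
    ∃ L : Finset (Fin n), L ⊆ S ∧ L.card = N ∧ (S.card : ℝ) * ∑ i ∈ L, w i ≤ N * ∑ i ∈ S, w i :=
  r5_choose_small_aux w N (S.card - N) S hw (by omega)

/-- The reservoir.

PROOF.  `ρ_i = σ a_i - κ_i`, `G₁ = {i ∈ B : κ_i = 1, |ρ_i| ≤ 1/4}`.  The number of `i ∈ B` with `|ρ_i| > 1/4` is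
`≤ 16 s² ≤ 16 C₁²`, of total mass `≤ 16 C₁² δ² ≤ ε₁/2`; so `∑_{G₁} a_i² ≥ ε₁/2`.  For `i ∈ G₁`: `a_i = (1+ρ_i)/σ ≤ (5/4)/σ`,
so `|G₁| ≥ (ε₁/2)(16/25) σ² ≥ 0.3 ε₁ σ²`.  `N = ⌊ε₂ σ²⌋₊ ≤ ε₂σ² ≤ (ε₁/4) σ² ≤ |G₁|`.  `choose_small` with `w = ρ²`:
`∑_L ρ² ≤ (N/|G₁|) s² ≤ (ε₂/(0.3 ε₁)) s² ≤ (4 ε₂/ε₁) s²`.  The last claim: `a_i ≥ (3/4)/σ` and `≤ (5/4)/σ` on `L ⊆ G₁`.
(If `|G₁| = 0` then `ε₁/2 ≤ 0`, excluded.) -/
theorem reservoir {a : Fin n → ℝ} {κ : Fin n → ℤ} {σ s C₁ ε₁ ε₂ δ : ℝ} {B : Finset (Fin n)}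
    (hσ : 0 < σ) (ha : ∀ i, 0 ≤ a i) (hδ : ∀ i, a i ≤ δ)
    (hs : ∑ i ∈ B, (σ * a i - κ i) ^ 2 ≤ s ^ 2) (hsC : s ^ 2 ≤ C₁ ^ 2) (hε₁ : 0 < ε₁)
    (hmass : ε₁ ≤ ∑ i ∈ B.filter (fun i => κ i = 1), a i ^ 2)
    (hδ1 : 16 * C₁ ^ 2 * δ ^ 2 ≤ ε₁ / 2) (hε₂ : 0 < ε₂) (hε₂1 : ε₂ ≤ ε₁ / 4) :
    ∃ L : Finset (Fin n), L ⊆ B ∧ (∀ i ∈ L, κ i = 1) ∧ L.card = ⌊ε₂ * σ ^ 2⌋₊ ∧
      ∑ i ∈ L, (σ * a i - κ i) ^ 2 ≤ (4 * ε₂ / ε₁) * s ^ 2 ∧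
      (∀ i ∈ L, 3 / 4 ≤ σ * a i ∧ σ * a i ≤ 5 / 4) := by
  classical
  set F := B.filter (fun i => κ i = 1) with hF
  set G1 := F.filter (fun i => |σ * a i - κ i| ≤ 1 / 4) with hG1
  set G2 := F.filter (fun i => ¬ |σ * a i - κ i| ≤ 1 / 4) with hG2
  have hFB : F ⊆ B := Finset.filter_subset _ _
  have hG1F : G1 ⊆ F := Finset.filter_subset _ _
  have hG2F : G2 ⊆ F := Finset.filter_subset _ _
  have hsplit : ∑ i ∈ G1, a i ^ 2 + ∑ i ∈ G2, a i ^ 2 = ∑ i ∈ F, a i ^ 2 :=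
    Finset.sum_filter_add_sum_filter_not F _ _
  -- the bad set
  have hG2card : (G2.card : ℝ) ≤ 16 * s ^ 2 := by
    have h1 : ∑ i ∈ G2, (1 / 16 : ℝ) ≤ ∑ i ∈ G2, (σ * a i - κ i) ^ 2 := by
      apply Finset.sum_le_sum
      intro i hi
      rw [hG2, Finset.mem_filter, not_le] at hi
      have h2 := hi.2
      rw [← sq_abs (σ * a i - κ i)]
      nlinarith
    have h3 : ∑ i ∈ G2, (σ * a i - κ i) ^ 2 ≤ ∑ i ∈ B, (σ * a i - κ i) ^ 2 :=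
      Finset.sum_le_sum_of_subset_of_nonneg (hG2F.trans hFB) fun i _ _ => sq_nonneg _
    rw [Finset.sum_const, nsmul_eq_mul] at h1
    linarith
  have hG2mass : ∑ i ∈ G2, a i ^ 2 ≤ ε₁ / 2 := by
    have h1 : ∑ i ∈ G2, a i ^ 2 ≤ ∑ i ∈ G2, δ ^ 2 := by
      apply Finset.sum_le_sum
      intro i _
      exact pow_le_pow_left₀ (ha i) (hδ i) 2
    rw [Finset.sum_const, nsmul_eq_mul] at h1
    have h2 : (G2.card : ℝ) * δ ^ 2 ≤ 16 * C₁ ^ 2 * δ ^ 2 := by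
      apply mul_le_mul_of_nonneg_right _ (sq_nonneg δ)
      linarith
    linarith
  have hG1mass : ε₁ / 2 ≤ ∑ i ∈ G1, a i ^ 2 := by linarith
  have hG1le : ∀ i ∈ G1, 3 / 4 ≤ σ * a i ∧ σ * a i ≤ 5 / 4 := by
    intro i hi
    rw [hG1, Finset.mem_filter, hF, Finset.mem_filter] at hi
    have h1 := hi.2
    rw [hi.1.2, abs_le] at h1
    push_cast at h1
    constructor <;> linarith [h1.1, h1.2]
  have hG1card : (8 / 25 : ℝ) * ε₁ * σ ^ 2 ≤ G1.card := by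
    have h1 : σ ^ 2 * ∑ i ∈ G1, a i ^ 2 ≤ ∑ i ∈ G1, (25 / 16 : ℝ) := by
      rw [Finset.mul_sum]
      apply Finset.sum_le_sum
      intro i hi
      have h2 := (hG1le i hi).2
      have h3 : 0 ≤ σ * a i := mul_nonneg hσ.le (ha i)
      calc σ ^ 2 * a i ^ 2 = (σ * a i) ^ 2 := by ring
        _ ≤ (5 / 4) ^ 2 := pow_le_pow_left₀ h3 h2 2
        _ = 25 / 16 := by norm_num
    rw [Finset.sum_const, nsmul_eq_mul] at h1
    have h2 : σ ^ 2 * (ε₁ / 2) ≤ σ ^ 2 * ∑ i ∈ G1, a i ^ 2 :=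
      mul_le_mul_of_nonneg_left hG1mass (sq_nonneg σ)
    linarith
  have hσ2 : 0 < σ ^ 2 := by positivity
  have hNle : ((⌊ε₂ * σ ^ 2⌋₊ : ℕ) : ℝ) ≤ ε₂ * σ ^ 2 := Nat.floor_le (by positivity)
  have hNG : ⌊ε₂ * σ ^ 2⌋₊ ≤ G1.card := by
    have h1 : ((⌊ε₂ * σ ^ 2⌋₊ : ℕ) : ℝ) ≤ (G1.card : ℝ) := by
      refine hNle.trans (le_trans ?_ hG1card)
      have : ε₂ * σ ^ 2 ≤ ε₁ / 4 * σ ^ 2 := mul_le_mul_of_nonneg_right hε₂1 hσ2.le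
      nlinarith [mul_pos hε₁ hσ2]
    exact_mod_cast h1
  obtain ⟨L, hL1, hL2, hL3⟩ := choose_small G1 (fun i => (σ * a i - κ i) ^ 2)
    (fun i _ => sq_nonneg _) ⌊ε₂ * σ ^ 2⌋₊ hNG
  refine ⟨L, hL1.trans (hG1F.trans hFB), ?_, hL2, ?_, fun i hi => hG1le i (hL1 hi)⟩
  · intro i hi
    have := hG1F (hL1 hi)
    rw [hF, Finset.mem_filter] at this
    exact this.2
  · have hsum1 : ∑ i ∈ G1, (σ * a i - κ i) ^ 2 ≤ s ^ 2 :=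
      (Finset.sum_le_sum_of_subset_of_nonneg (hG1F.trans hFB) fun i _ _ => sq_nonneg _).trans hs
    have hsum0 : 0 ≤ ∑ i ∈ G1, (σ * a i - κ i) ^ 2 := Finset.sum_nonneg fun i _ => sq_nonneg _
    have hcpos : 0 < (8 / 25 : ℝ) * ε₁ * σ ^ 2 := by positivity
    have hLnn : 0 ≤ ∑ i ∈ L, (σ * a i - κ i) ^ 2 := Finset.sum_nonneg fun i _ => sq_nonneg _
    have h4 : ((8 / 25 : ℝ) * ε₁ * σ ^ 2) * ∑ i ∈ L, (σ * a i - κ i) ^ 2 ≤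
        (ε₂ * σ ^ 2) * s ^ 2 := by
      calc ((8 / 25 : ℝ) * ε₁ * σ ^ 2) * ∑ i ∈ L, (σ * a i - κ i) ^ 2
          ≤ G1.card * ∑ i ∈ L, (σ * a i - κ i) ^ 2 := mul_le_mul_of_nonneg_right hG1card hLnn
        _ ≤ (⌊ε₂ * σ ^ 2⌋₊ : ℕ) * ∑ i ∈ G1, (σ * a i - κ i) ^ 2 := hL3
        _ ≤ (ε₂ * σ ^ 2) * s ^ 2 := by
            apply mul_le_mul hNle hsum1 hsum0 (by positivity)
    have h5 : ε₁ * ∑ i ∈ L, (σ * a i - κ i) ^ 2 ≤ (25 / 8) * ε₂ * s ^ 2 := by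
      have h6 : σ ^ 2 * (ε₁ * ∑ i ∈ L, (σ * a i - κ i) ^ 2) ≤ σ ^ 2 * ((25 / 8) * ε₂ * s ^ 2) := by
        nlinarith
      exact le_of_mul_le_mul_left h6 hσ2
    have h7 : (25 / 8) * ε₂ * s ^ 2 ≤ 4 * ε₂ * s ^ 2 := by
      have : 0 ≤ ε₂ * s ^ 2 := by positivity
      nlinarith
    rw [show 4 * ε₂ / ε₁ * s ^ 2 = (4 * ε₂ * s ^ 2) / ε₁ by ring, le_div_iff₀ hε₁]
    linarith

end Pool.Agent.MP_cb3c9c_an.REG
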