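import Pool.Agent.MP_cb3c9c_an.REG.A5

set_option autoImplicit false

open Finset MeasureTheory
open scoped BigOperators

namespace Pool.Agent.MP_cb3c9c_an.REG

open Pool.Agent.MP_cb3c9c_an.TwoBlock

variable {n : ℕ}

lemma r6_cos_int (j : ℕ) :
    ∫ θ in Set.Ioo (0 : ℝ) (Real.pi / 2), 2 * Real.cos ((2 * (j : ℝ) + 2) * θ) = 0 := by
  have hj : (2 * (j : ℝ) + 2) ≠ 0 := by positivity
  rw [← MeasureTheory.integral_Ioc_eq_integral_Ioo,
    ← intervalIntegral.integral_of_le (by positivity), intervalIntegral.integral_const_mul]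
  have h1 : ∫ θ in (0 : ℝ)..(Real.pi / 2), Real.cos ((2 * (j : ℝ) + 2) * θ) = 0 := by
    rw [intervalIntegral.integral_comp_mul_left (fun y => Real.cos y) hj, integral_cos]
    have h2 : (2 * (j : ℝ) + 2) * (Real.pi / 2) = ((j + 1 : ℕ) : ℝ) * Real.pi := by
      push_cast; ring
    rw [h2, Real.sin_nat_mul_pi]
    simp
  rw [h1, mul_zero]

lemma r6_odd (k : ℕ) :
    IntegrableOn (fun θ : ℝ => Real.sin ((2 * (k : ℝ) + 1) * θ) / Real.sin θ)
      (Set.Ioo (0 : ℝ) (Real.pi / 2)) ∧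
    ∫ θ in Set.Ioo (0 : ℝ) (Real.pi / 2), Real.sin ((2 * (k : ℝ) + 1) * θ) / Real.sin θ =
      Real.pi / 2 := by
  have hsin : ∀ θ ∈ Set.Ioo (0 : ℝ) (Real.pi / 2), Real.sin θ ≠ 0 := by
    intro θ hθ
    exact (Real.sin_pos_of_pos_of_lt_pi hθ.1 (by linarith [hθ.2, Real.pi_pos])).ne'
  induction k with
  | zero =>
    have h1 : Set.EqOn (fun _ : ℝ => (1 : ℝ))
        (fun θ : ℝ => Real.sin ((2 * ((0 : ℕ) : ℝ) + 1) * θ) / Real.sin θ)
        (Set.Ioo (0 : ℝ) (Real.pi / 2)) := by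
      intro θ hθ
      simp only [Nat.cast_zero, mul_zero, zero_add, one_mul]
      rw [div_self (hsin θ hθ)]
    constructor
    · refine IntegrableOn.congr_fun ?_ h1 measurableSet_Ioo
      exact integrableOn_const (by simp)
    · rw [← setIntegral_congr_fun measurableSet_Ioo h1]
      simp
      positivity
  | succ k ih =>
    have hg : IntegrableOn (fun θ : ℝ => 2 * Real.cos ((2 * (k : ℝ) + 2) * θ))
        (Set.Ioo (0 : ℝ) (Real.pi / 2)) := by
      have : Continuous (fun θ : ℝ => 2 * Real.cos ((2 * (k : ℝ) + 2) * θ)) := by fun_prop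
      exact (this.integrableOn_Icc (a := 0) (b := Real.pi / 2)).mono_set Set.Ioo_subset_Icc_self
    have h1 : Set.EqOn (fun θ : ℝ => Real.sin ((2 * (k : ℝ) + 1) * θ) / Real.sin θ +
          2 * Real.cos ((2 * (k : ℝ) + 2) * θ))
        (fun θ : ℝ => Real.sin ((2 * ((k + 1 : ℕ) : ℝ) + 1) * θ) / Real.sin θ)
        (Set.Ioo (0 : ℝ) (Real.pi / 2)) := by
      intro θ hθ
      have h2 := hsin θ hθ
      have h3 : Real.sin ((2 * ((k + 1 : ℕ) : ℝ) + 1) * θ) =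
          Real.sin ((2 * (k : ℝ) + 1) * θ) + 2 * Real.cos ((2 * (k : ℝ) + 2) * θ) * Real.sin θ := by
        have e1 : (2 * ((k + 1 : ℕ) : ℝ) + 1) * θ = (2 * (k : ℝ) + 2) * θ + θ := by
          push_cast; ring
        have e2 : (2 * (k : ℝ) + 1) * θ = (2 * (k : ℝ) + 2) * θ - θ := by ring
        rw [e1, e2, Real.sin_add, Real.sin_sub]
        ring
      simp only
      rw [h3]
      field_simp
    constructor
    · exact IntegrableOn.congr_fun (ih.1.add hg) h1 measurableSet_Ioo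
    · rw [← setIntegral_congr_fun measurableSet_Ioo h1, integral_add ih.1 hg, ih.2, r6_cos_int]
      ring

/-- ROW REG-R6a.

PROOF.  Both sides are odd in `m`, so `m = 2k+1`, `k ≥ 0`.  For `0 < θ ≤ π/2`
`sin ((2k+1)θ)/sin θ = 1 + 2 ∑_{j=1}^k cos (2jθ)` (telescoping: `2 sin θ cos (2jθ) = sin ((2j+1)θ) - sin ((2j-1)θ)`);
integrate: `∫_0^{π/2} cos (2jθ) = 0`, so the integral is `π/2`.  (Integrals over `(0, π/2)`; the value at `0` is irrelevant.) -/
theorem sg_odd_integral (m : ℤ) (hm : Odd m) :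
    sg (m : ℝ) = (2 / Real.pi) *
      ∫ θ in Set.Ioo (0 : ℝ) (Real.pi / 2), Real.sin (m * θ) / Real.sin θ := by
  have hpi : Real.pi ≠ 0 := Real.pi_ne_zero
  obtain ⟨k, hk⟩ := (Int.natAbs_odd.mpr hm)
  rcases Int.natAbs_eq m with h | h
  · have h1 : (m : ℝ) = 2 * (k : ℝ) + 1 := by
      rw [h, hk]; push_cast; ring
    rw [h1, (r6_odd k).2, sg_pos (by positivity)]
    field_simp
  · have h1 : (m : ℝ) = -(2 * (k : ℝ) + 1) := by
      rw [h, hk]; push_cast; ring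
    rw [h1]
    have h2 : ∀ θ : ℝ, Real.sin (-(2 * (k : ℝ) + 1) * θ) / Real.sin θ =
        - (Real.sin ((2 * (k : ℝ) + 1) * θ) / Real.sin θ) := by
      intro θ
      rw [neg_mul, Real.sin_neg, neg_div]
    simp_rw [h2]
    rw [integral_neg, (r6_odd k).2, sg_neg, sg_pos (by positivity)]
    field_simp

lemma r6_sin_ge {x : ℝ} (hx : 0 ≤ x) : x - x ^ 3 / 6 ≤ Real.sin x := by
  have hd : ∀ y : ℝ, HasDerivAt (fun y : ℝ => Real.sin y - y + y ^ 3 / 6)
      (Real.cos y - 1 + y ^ 2 / 2) y := by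
    intro y
    have h := ((Real.hasDerivAt_sin y).sub (hasDerivAt_id y)).add
      ((hasDerivAt_pow 3 y).div_const 6)
    refine h.congr_deriv ?_
    norm_num
    ring
  have hmono : MonotoneOn (fun y : ℝ => Real.sin y - y + y ^ 3 / 6) (Set.Ici 0) := by
    apply monotoneOn_of_deriv_nonneg (convex_Ici 0)
    · fun_prop
    · intro y _
      exact (hd y).differentiableAt.differentiableWithinAt
    · intro y _
      rw [(hd y).deriv]
      have := Real.one_sub_sq_div_two_le_cos (x := y)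
      linarith
  have h1 := hmono (Set.mem_Ici.mpr le_rfl) (Set.mem_Ici.mpr hx) hx
  simp at h1
  linarith

lemma r6_point {N : ℕ} {θ : ℝ} (h0 : 0 < θ) (h1 : θ < Real.pi / 2) :
    |Real.cos θ ^ N * (θ / Real.sin θ) - Real.exp (-(N : ℝ) * θ ^ 2 / 2)| ≤
      Real.exp (-(N : ℝ) * θ ^ 2 / 2) * (θ ^ 2 / 2 + N * θ ^ 4) := by
  have hpi := Real.pi_lt_d2
  have hθ2 : θ < 2 := by linarith
  have hs : 0 < Real.sin θ := Real.sin_pos_of_pos_of_lt_pi h0 (by linarith [Real.pi_pos])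
  have hc : 0 ≤ Real.cos θ :=
    (Real.cos_pos_of_mem_Ioo ⟨by linarith [Real.pi_pos], h1⟩).le
  have hN : (0 : ℝ) ≤ N := Nat.cast_nonneg N
  set e := Real.exp (-(N : ℝ) * θ ^ 2 / 2) with he
  have he0 : 0 < e := Real.exp_pos _
  have hcN0 : 0 ≤ Real.cos θ ^ N := pow_nonneg hc N
  -- upper bound for the power of the cosine
  have hup : Real.cos θ ^ N ≤ e := by
    have h2 : Real.cos θ ≤ Real.exp (-θ ^ 2 / 2) := by
      refine (cos_le_exp4 (u := θ) (by rw [abs_of_pos h0]; exact h1.le)).trans ?_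
      apply Real.exp_le_exp.mpr
      have : 0 ≤ θ ^ 4 := by positivity
      linarith
    calc Real.cos θ ^ N ≤ (Real.exp (-θ ^ 2 / 2)) ^ N := pow_le_pow_left₀ hc h2 N
      _ = e := by rw [he, ← Real.exp_nat_mul]; congr 1; ring
  have hlow : e * (1 - N * θ ^ 4) ≤ Real.cos θ ^ N := by
    by_cases h3 : θ ≤ 1
    · have h4 := exp_le_cos (u := θ) (by rw [abs_of_pos h0]; exact h3)
      have h5 : (Real.exp (-θ ^ 2 / 2 - θ ^ 4 / 4)) ^ N ≤ Real.cos θ ^ N :=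
        pow_le_pow_left₀ (Real.exp_pos _).le h4 N
      have h6 : (Real.exp (-θ ^ 2 / 2 - θ ^ 4 / 4)) ^ N = e * Real.exp (-(N * θ ^ 4 / 4)) := by
        rw [he, ← Real.exp_nat_mul, ← Real.exp_add]; congr 1; ring
      have h7 : 1 - N * θ ^ 4 / 4 ≤ Real.exp (-(N * θ ^ 4 / 4)) := Real.one_sub_le_exp_neg _
      have h8 : 0 ≤ N * θ ^ 4 := by positivity
      calc e * (1 - N * θ ^ 4) ≤ e * Real.exp (-(N * θ ^ 4 / 4)) :=
            mul_le_mul_of_nonneg_left (by linarith) he0.le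
        _ ≤ _ := by rw [← h6]; exact h5
    · rcases Nat.eq_zero_or_pos N with hN0 | hN0
      · subst hN0
        simp [he]
      · have h4 : (1 : ℝ) ≤ N := by exact_mod_cast hN0
        have h5 : 1 ≤ θ ^ 4 := one_le_pow₀ (by linarith)
        have h6 : 1 - N * θ ^ 4 ≤ 0 := by nlinarith
        have h7 : e * (1 - N * θ ^ 4) ≤ 0 := mul_nonpos_of_nonneg_of_nonpos he0.le h6
        linarith
  have hq1 : 1 ≤ θ / Real.sin θ := by
    rw [le_div_iff₀ hs, one_mul]; exact (Real.sin_lt h0).le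
  have hq2 : θ / Real.sin θ ≤ 1 + θ ^ 2 / 2 := by
    rw [div_le_iff₀ hs]
    have h2 := r6_sin_ge h0.le
    have h3 : (1 + θ ^ 2 / 2) * (θ - θ ^ 3 / 6) ≤ (1 + θ ^ 2 / 2) * Real.sin θ :=
      mul_le_mul_of_nonneg_left h2 (by positivity)
    refine le_trans ?_ h3
    have h4 : θ ^ 2 ≤ 4 := by nlinarith
    have h5 : (1 + θ ^ 2 / 2) * (θ - θ ^ 3 / 6) - θ = θ ^ 3 / 12 * (4 - θ ^ 2) := by ring
    have h6 : 0 ≤ θ ^ 3 / 12 * (4 - θ ^ 2) := mul_nonneg (by positivity) (by linarith)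
    linarith
  rw [abs_le]
  constructor
  · have h2 : Real.cos θ ^ N * 1 ≤ Real.cos θ ^ N * (θ / Real.sin θ) :=
      mul_le_mul_of_nonneg_left hq1 hcN0
    have h3 : 0 ≤ e * (θ ^ 2 / 2) := by positivity
    nlinarith
  · have h2 : Real.cos θ ^ N * (θ / Real.sin θ) ≤ e * (1 + θ ^ 2 / 2) :=
      mul_le_mul hup hq2 (by linarith) he0.le
    have h3 : 0 ≤ e * (N * θ ^ 4) := by positivity
    nlinarith

lemma r6_rpow {b : ℝ} (hb : 0 < b) : b ^ (-(2 + 1) / 2 : ℝ) = 1 / (b * Real.sqrt b) := by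
  have h1 : (-(2 + 1) / 2 : ℝ) = -(1 + 1 / 2) := by norm_num
  rw [h1, Real.rpow_neg hb.le, Real.rpow_add hb, Real.rpow_one, ← Real.sqrt_eq_rpow, one_div]

lemma r6_rpow' {b : ℝ} (hb : 0 < b) : b ^ (-(4 + 1) / 2 : ℝ) = 1 / (b ^ 2 * Real.sqrt b) := by
  have h1 : (-(4 + 1) / 2 : ℝ) = -(2 + 1 / 2) := by norm_num
  rw [h1, Real.rpow_neg hb.le, Real.rpow_add hb, ← Real.sqrt_eq_rpow, one_div]
  norm_num

lemma r6_gamma : Real.Gamma ((2 + 1) / 2 : ℝ) = Real.sqrt Real.pi / 2 := by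
  have h1 : ((2 + 1) / 2 : ℝ) = 1 / 2 + 1 := by norm_num
  rw [h1, Real.Gamma_add_one (by norm_num), Real.Gamma_one_half_eq]
  ring

lemma r6_gamma' : Real.Gamma ((4 + 1) / 2 : ℝ) = 3 * Real.sqrt Real.pi / 4 := by
  have h1 : ((4 + 1) / 2 : ℝ) = (2 + 1) / 2 + 1 := by norm_num
  rw [h1, Real.Gamma_add_one (by norm_num), r6_gamma]
  ring

lemma r6_int2 {b : ℝ} (hb : 0 < b) :
    IntegrableOn (fun x : ℝ => x ^ 2 * Real.exp (-b * x ^ 2)) (Set.Ioi 0) := by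
  have h := integrableOn_rpow_mul_exp_neg_mul_sq hb (s := 2) (by norm_num)
  refine h.congr_fun (fun x _ => ?_) measurableSet_Ioi
  simp only
  rw [show (2 : ℝ) = ((2 : ℕ) : ℝ) by norm_num, Real.rpow_natCast]

lemma r6_int4 {b : ℝ} (hb : 0 < b) :
    IntegrableOn (fun x : ℝ => x ^ 4 * Real.exp (-b * x ^ 2)) (Set.Ioi 0) := by
  have h := integrableOn_rpow_mul_exp_neg_mul_sq hb (s := 4) (by norm_num)
  refine h.congr_fun (fun x _ => ?_) measurableSet_Ioi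
  simp only
  rw [show (4 : ℝ) = ((4 : ℕ) : ℝ) by norm_num, Real.rpow_natCast]

lemma r6_mom2 {b : ℝ} (hb : 0 < b) :
    ∫ x in Set.Ioi (0 : ℝ), x ^ 2 * Real.exp (-b * x ^ 2) =
      Real.sqrt Real.pi / (4 * (b * Real.sqrt b)) := by
  have h := integral_rpow_mul_exp_neg_mul_rpow (p := 2) (q := 2) (b := b) (by norm_num)
    (by norm_num) hb
  rw [r6_rpow hb, r6_gamma] at h
  have hsb : Real.sqrt b ≠ 0 := (Real.sqrt_pos.mpr hb).ne'
  have h2 : ∫ x in Set.Ioi (0 : ℝ), x ^ 2 * Real.exp (-b * x ^ 2) =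
      ∫ x in Set.Ioi (0 : ℝ), x ^ (2 : ℝ) * Real.exp (-b * x ^ (2 : ℝ)) := by
    refine setIntegral_congr_fun measurableSet_Ioi (fun x _ => ?_)
    rw [show (2 : ℝ) = ((2 : ℕ) : ℝ) by norm_num, Real.rpow_natCast]
  rw [h2, h]
  field_simp
  norm_num

lemma r6_mom4 {b : ℝ} (hb : 0 < b) :
    ∫ x in Set.Ioi (0 : ℝ), x ^ 4 * Real.exp (-b * x ^ 2) =
      3 * Real.sqrt Real.pi / (8 * (b ^ 2 * Real.sqrt b)) := by
  have h := integral_rpow_mul_exp_neg_mul_rpow (p := 2) (q := 4) (b := b) (by norm_num)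
    (by norm_num) hb
  rw [r6_rpow' hb, r6_gamma'] at h
  have hsb : Real.sqrt b ≠ 0 := (Real.sqrt_pos.mpr hb).ne'
  have h2 : ∫ x in Set.Ioi (0 : ℝ), x ^ 4 * Real.exp (-b * x ^ 2) =
      ∫ x in Set.Ioi (0 : ℝ), x ^ (4 : ℝ) * Real.exp (-b * x ^ (2 : ℝ)) := by
    refine setIntegral_congr_fun measurableSet_Ioi (fun x _ => ?_)
    rw [show (2 : ℝ) = ((2 : ℕ) : ℝ) by norm_num, show (4 : ℝ) = ((4 : ℕ) : ℝ) by norm_num,
      Real.rpow_natCast, Real.rpow_natCast]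
  rw [h2, h]
  field_simp
  norm_num

/-- ROW REG-R6b.

PROOF.  `Γ = N + v ≥ 1`.  For `0 < θ < π/2`:
upper bound: `cos θ ^ N ≤ e^{-Nθ²/2}` and `θ/sin θ ≤ 1 + θ²/2` (`sin θ ≥ θ - θ³/6`, so
`(1+θ²/2) sin θ ≥ θ (1 + θ²/3 - θ⁴/12) ≥ θ` as `θ² ≤ 4`);
lower bound: `θ/sin θ ≥ 1`; for `θ ≤ 1`, `cos θ ^ N ≥ exp (-Nθ²/2 - Nθ⁴/4) ≥ e^{-Nθ²/2} (1 - Nθ⁴/4)` (`exp_le_cos`); for `θ > 1`,
`cos^N ≥ 0 ≥ e^{-Nθ²/2} (1 - Nθ⁴)`.  So `|cos^N θ (θ/sin θ) - e^{-Nθ²/2}| ≤ e^{-Nθ²/2} (θ²/2 + Nθ⁴)`, and the integral in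
question differs from `∫_0^{π/2} e^{-Γθ²/2}` by at most
`∫_0^∞ e^{-Γθ²/2} (θ²/2 + Nθ⁴) = √(π/2) (1/(2Γ^{3/2}) + 3N/Γ^{5/2}) ≤ 4.4/Γ^{3/2}`.  And
`∫_{π/2}^∞ e^{-Γθ²/2} ≤ (2/(πΓ)) e^{-Γπ²/8} ≤ 0.64/(Γ) · 1/√Γ ·√Γ e^{-1.23 Γ} ≤ 0.3/Γ^{3/2}`;
`∫_0^∞ e^{-Γθ²/2} = √(π/2)/√Γ`. -/
theorem cos_pow_integral (N : ℕ) (hN : 1 ≤ N) (v : ℝ) (hv : 0 ≤ v) :
    |(∫ θ in Set.Ioo (0 : ℝ) (Real.pi / 2),
        Real.cos θ ^ N * (θ / Real.sin θ) * Real.exp (-v * θ ^ 2 / 2)) -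
      Real.sqrt (Real.pi / 2) / Real.sqrt (N + v)| ≤ 6 / ((N + v) * Real.sqrt (N + v)) := by
  have hN1 : (1 : ℝ) ≤ N := by exact_mod_cast hN
  set b : ℝ := (N + v) / 2 with hb
  have hb0 : 0 < b := by rw [hb]; linarith
  have hGi : IntegrableOn (fun x : ℝ => Real.exp (-b * x ^ 2)) (Set.Ioi 0) :=
    (integrable_exp_neg_mul_sq hb0).integrableOn
  have h2i := r6_int2 hb0
  have h4i := r6_int4 hb0
  set F : ℝ → ℝ := fun θ => Real.cos θ ^ N * (θ / Real.sin θ) * Real.exp (-v * θ ^ 2 / 2) with hF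
  set E : ℝ → ℝ := fun x => (1 / 2) * (x ^ 2 * Real.exp (-b * x ^ 2)) +
    N * (x ^ 4 * Real.exp (-b * x ^ 2)) with hE
  have hEi : IntegrableOn E (Set.Ioi 0) := (h2i.const_mul _).add (h4i.const_mul _)
  have hEint : ∫ x in Set.Ioi (0 : ℝ), E x =
      (1 / 2) * (Real.sqrt Real.pi / (4 * (b * Real.sqrt b))) +
        N * (3 * Real.sqrt Real.pi / (8 * (b ^ 2 * Real.sqrt b))) := by
    rw [hE, integral_add (h2i.const_mul _) (h4i.const_mul _), integral_const_mul,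
      integral_const_mul, r6_mom2 hb0, r6_mom4 hb0]
  -- pointwise comparison
  have hpt : ∀ x ∈ Set.Ioi (0 : ℝ),
      |(Set.Ioo (0 : ℝ) (Real.pi / 2)).indicator F x - Real.exp (-b * x ^ 2)| ≤ E x := by
    intro x hx
    have hx0 : 0 < x := hx
    by_cases hx1 : x < Real.pi / 2
    · rw [Set.indicator_of_mem (Set.mem_Ioo.mpr ⟨hx0, hx1⟩)]
      have h1 := r6_point (N := N) hx0 hx1
      have h2 : Real.exp (-b * x ^ 2) =
          Real.exp (-(N : ℝ) * x ^ 2 / 2) * Real.exp (-v * x ^ 2 / 2) := by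
        rw [← Real.exp_add, hb]; congr 1; ring
      have h3 : F x - Real.exp (-b * x ^ 2) =
          (Real.cos x ^ N * (x / Real.sin x) - Real.exp (-(N : ℝ) * x ^ 2 / 2)) *
            Real.exp (-v * x ^ 2 / 2) := by
        rw [h2, hF]; ring
      have h4 : E x = Real.exp (-(N : ℝ) * x ^ 2 / 2) * (x ^ 2 / 2 + N * x ^ 4) *
          Real.exp (-v * x ^ 2 / 2) := by
        simp only [hE]
        rw [h2]; ring
      rw [h3, h4, abs_mul, abs_of_pos (Real.exp_pos (-v * x ^ 2 / 2))]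
      exact mul_le_mul_of_nonneg_right h1 (Real.exp_pos _).le
    · rw [Set.indicator_of_notMem (fun h => hx1 h.2), zero_sub, abs_neg,
        abs_of_pos (Real.exp_pos _)]
      have hx2 : Real.pi / 2 ≤ x := not_lt.mp hx1
      have hpi := Real.pi_gt_three
      have h2 : 2 ≤ x ^ 2 := by nlinarith
      have h3 : 0 < Real.exp (-b * x ^ 2) := Real.exp_pos _
      have h4 : 0 ≤ N * (x ^ 4 * Real.exp (-b * x ^ 2)) := by positivity
      simp only [hE]
      nlinarith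
  have hFm : AEStronglyMeasurable ((Set.Ioo (0 : ℝ) (Real.pi / 2)).indicator F)
      (volume.restrict (Set.Ioi 0)) := by
    apply Measurable.aestronglyMeasurable
    apply Measurable.indicator _ measurableSet_Ioo
    simp only [hF]
    fun_prop
  have hFi : IntegrableOn ((Set.Ioo (0 : ℝ) (Real.pi / 2)).indicator F) (Set.Ioi 0) := by
    refine Integrable.mono' (hGi.add hEi) hFm ?_
    filter_upwards [ae_restrict_mem measurableSet_Ioi] with x hx
    have h1 := hpt x hx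
    have h2 : 0 < Real.exp (-b * x ^ 2) := Real.exp_pos _
    rw [Real.norm_eq_abs]
    simp only [Pi.add_apply]
    calc |(Set.Ioo (0 : ℝ) (Real.pi / 2)).indicator F x|
        = |Real.exp (-b * x ^ 2) +
          ((Set.Ioo (0 : ℝ) (Real.pi / 2)).indicator F x - Real.exp (-b * x ^ 2))| := by
          congr 1; ring
      _ ≤ |Real.exp (-b * x ^ 2)| +
          |(Set.Ioo (0 : ℝ) (Real.pi / 2)).indicator F x - Real.exp (-b * x ^ 2)| :=
          abs_add_le _ _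
      _ ≤ Real.exp (-b * x ^ 2) + E x := by
          rw [abs_of_pos h2]; linarith
  have hFint : ∫ x in Set.Ioi (0 : ℝ), (Set.Ioo (0 : ℝ) (Real.pi / 2)).indicator F x =
      ∫ x in Set.Ioo (0 : ℝ) (Real.pi / 2), F x := by
    rw [setIntegral_indicator measurableSet_Ioo]
    congr 2
    ext x
    simp only [Set.mem_inter_iff, Set.mem_Ioi, Set.mem_Ioo]
    tauto
  have hGint : ∫ x in Set.Ioi (0 : ℝ), Real.exp (-b * x ^ 2) =
      Real.sqrt (Real.pi / 2) / Real.sqrt (N + v) := by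
    rw [integral_gaussian_Ioi]
    have h1 : Real.pi / b = (Real.pi / 2) / (N + v) * 2 ^ 2 := by
      rw [hb]; field_simp
    rw [h1, Real.sqrt_mul (by positivity), Real.sqrt_sq (by norm_num),
      Real.sqrt_div (by positivity)]
    ring
  have hmain : |(∫ x in Set.Ioo (0 : ℝ) (Real.pi / 2), F x) -
      Real.sqrt (Real.pi / 2) / Real.sqrt (N + v)| ≤ ∫ x in Set.Ioi (0 : ℝ), E x := by
    rw [← hFint, ← hGint, ← integral_sub hFi hGi, ← Real.norm_eq_abs]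
    refine norm_integral_le_of_norm_le hEi ?_
    filter_upwards [ae_restrict_mem measurableSet_Ioi] with x hx
    rw [Real.norm_eq_abs]
    exact hpt x hx
  refine hmain.trans ?_
  rw [hEint]
  have hsb : 0 < Real.sqrt b := Real.sqrt_pos.mpr hb0
  have hΓ : (N : ℝ) + v = 2 * b := by rw [hb]; ring
  have hs2 : Real.sqrt (2 * b) = Real.sqrt 2 * Real.sqrt b := Real.sqrt_mul (by norm_num) b
  rw [hΓ, hs2]
  have hNb : (N : ℝ) ≤ 2 * b := by rw [hb]; linarith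
  have h1 : (N : ℝ) * (3 * Real.sqrt Real.pi / (8 * (b ^ 2 * Real.sqrt b))) ≤
      3 * Real.sqrt Real.pi / (4 * (b * Real.sqrt b)) := by
    have h2 : (2 * b) * (3 * Real.sqrt Real.pi / (8 * (b ^ 2 * Real.sqrt b))) =
        3 * Real.sqrt Real.pi / (4 * (b * Real.sqrt b)) := by
      field_simp
      norm_num
    rw [← h2]
    exact mul_le_mul_of_nonneg_right hNb (by positivity)
  have h3 : (1 / 2) * (Real.sqrt Real.pi / (4 * (b * Real.sqrt b))) +
      3 * Real.sqrt Real.pi / (4 * (b * Real.sqrt b)) =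
        (7 / 8 * Real.sqrt Real.pi) / (b * Real.sqrt b) := by
    field_simp
    norm_num
  have h4 : 7 / 8 * Real.sqrt Real.pi ≤ 3 / Real.sqrt 2 := by
    have h5 : 0 < Real.sqrt 2 := by positivity
    rw [le_div_iff₀ h5]
    have h6 : Real.sqrt Real.pi * Real.sqrt 2 = Real.sqrt (Real.pi * 2) :=
      (Real.sqrt_mul (by positivity) 2).symm
    have h7 : Real.sqrt (Real.pi * 2) ≤ 3 := by
      rw [Real.sqrt_le_left (by norm_num)]
      linarith [Real.pi_lt_d2]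
    nlinarith
  calc (1 / 2) * (Real.sqrt Real.pi / (4 * (b * Real.sqrt b))) +
        N * (3 * Real.sqrt Real.pi / (8 * (b ^ 2 * Real.sqrt b)))
      ≤ (7 / 8 * Real.sqrt Real.pi) / (b * Real.sqrt b) := by rw [← h3]; linarith
    _ ≤ (3 / Real.sqrt 2) / (b * Real.sqrt b) :=
        div_le_div_of_nonneg_right h4 (by positivity)
    _ = 6 / (2 * b * (Real.sqrt 2 * Real.sqrt b)) := by
        field_simp
        norm_num

end Pool.Agent.MP_cb3c9c_an.REG
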