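import Pool.Agent.MP_cb3c9c_an.REG.Base

set_option autoImplicit false

open Finset MeasureTheory
open scoped BigOperators

namespace Pool.Agent.MP_cb3c9c_an.REG

open Pool.Agent.MP_cb3c9c_an.TwoBlock

variable {n : ℕ}

lemma r7a_lin (ν₀ : ℝ) (S : Finset (Fin n)) (ν : Fin n → ℝ) (h : ν₀ ^ 2 + ∑ j ∈ S, ν j ^ 2 ≤ 1) :
    Ex (fun x : Fin n → Bool => |ν₀ + lfS S ν x|) ≤ 1 := by
  have h1 := Ex_cs (fun x : Fin n → Bool => |ν₀ + lfS S ν x|) (fun _ => (1 : ℝ))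
  simp only [mul_one, one_pow, Ex_const, sq_abs] at h1
  have h2 : Ex (fun x : Fin n → Bool => (ν₀ + lfS S ν x) ^ 2) = ν₀ ^ 2 + ∑ j ∈ S, ν j ^ 2 := by
    have e1 : (fun x : Fin n → Bool => (ν₀ + lfS S ν x) ^ 2) =
        fun x => (ν₀ ^ 2 + (2 * ν₀) * lfS S ν x) + lfS S ν x ^ 2 := by
      funext x; ring
    rw [e1, Ex_add, Ex_add, Ex_mul, Ex_lfS_sq, Ex_const]
    have e2 : Ex (fun x : Fin n → Bool => lfS S ν x) = 0 := Ex_odd _ (lfS_neg S ν)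
    rw [e2]; ring
  rw [h2] at h1
  have h3 : 0 ≤ Ex (fun x : Fin n → Bool => |ν₀ + lfS S ν x|) := Ex_nonneg fun x => abs_nonneg _
  nlinarith

lemma r7a_sin (y : ℝ) : |Real.sin y - y| ≤ (2 / 3) * |y| ^ 3 + (3 / 2) * y ^ 2 := by
  rcases le_or_gt |y| 1 with h | h
  · have h1 := Real.sin_bound h
    have h2 : |Real.sin y - y| ≤ |Real.sin y - (y - y ^ 3 / 6)| + |y ^ 3 / 6| := by
      have : Real.sin y - y = (Real.sin y - (y - y ^ 3 / 6)) + (-(y ^ 3 / 6)) := by ring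
      rw [this]
      refine (abs_add_le _ _).trans ?_
      rw [abs_neg]
    have h3 : |y ^ 3 / 6| = |y| ^ 3 / 6 := by rw [abs_div, abs_pow]; norm_num
    have h4 : |y| ^ 5 ≤ |y| ^ 3 :=
      pow_le_pow_of_le_one (abs_nonneg y) h (by norm_num)
    have h5 := pow_nonneg (abs_nonneg y) 3
    nlinarith [sq_nonneg y]
  · have h1 : |Real.sin y - y| ≤ 1 + |y| := by
      refine (abs_sub _ _).trans ?_
      linarith [Real.abs_sin_le_one y]
    have h2 : |y| ≤ |y| ^ 3 := by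
      have : 1 ≤ |y| ^ 2 := one_le_pow₀ h.le
      nlinarith
    have h3 : y ^ 2 = |y| ^ 2 := (sq_abs y).symm
    nlinarith

lemma r7a_key {m : ℤ} {A₂ : ℝ}
    {φ ψ : ℝ → ℝ} (hφ2 : ∀ t, φ (t + 2) = φ t) (hψ2 : ∀ t, ψ (t + 2) = ψ t)
    (hT : ∀ t h, |φ (t + h) - φ t - h * ψ t| ≤ A₂ * h ^ 2)
    (hL : ∀ t u, |ψ t - ψ u| ≤ A₂ * |t - u|) (z q : ℝ) :
    |(φ (z + q) - φ (z - q)) / 2 - (q - m) * ((ψ (z + q) + ψ (z - q)) / 2)| ≤
      2 * A₂ * (q - m) ^ 2 := by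
  set w := q - m with hw
  set t := z + m with ht
  have hp1 : Function.Periodic φ 2 := hφ2
  have hp2 : Function.Periodic ψ 2 := hψ2
  have e1 : z + q = t + w := by rw [hw, ht]; ring
  have e2 : z - q = t + (-w) - m * 2 := by rw [hw, ht]; ring
  have e3 : φ (z - q) = φ (t + (-w)) := by
    rw [e2]; exact (hp1.int_mul m).sub_eq _
  have e4 : ψ (z - q) = ψ (t + (-w)) := by
    rw [e2]; exact (hp2.int_mul m).sub_eq _
  rw [e3, e4, e1]
  have h1 := hT t w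
  have h2 := hT t (-w)
  have h3 := hL t (t + w)
  have h4 := hL t (t + (-w))
  rw [show t - (t + w) = -w by ring, abs_neg] at h3
  rw [show t - (t + -w) = w by ring] at h4
  have h5 : |w * (ψ t - ψ (t + w))| ≤ A₂ * w ^ 2 := by
    rw [abs_mul]
    have : |w| * |ψ t - ψ (t + w)| ≤ |w| * (A₂ * |w|) := mul_le_mul_of_nonneg_left h3 (abs_nonneg _)
    have h6 : |w| * (A₂ * |w|) = A₂ * w ^ 2 := by rw [← sq_abs w]; ring
    linarith
  have h6 : |w * (ψ t - ψ (t + -w))| ≤ A₂ * w ^ 2 := by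
    rw [abs_mul]
    have : |w| * |ψ t - ψ (t + -w)| ≤ |w| * (A₂ * |w|) := mul_le_mul_of_nonneg_left h4 (abs_nonneg _)
    have h6 : |w| * (A₂ * |w|) = A₂ * w ^ 2 := by rw [← sq_abs w]; ring
    linarith
  rw [abs_le] at h1 h2 h5 h6 ⊢
  constructor
  · nlinarith [h1.1, h2.2, h5.1, h6.1]
  · nlinarith [h1.2, h2.1, h5.2, h6.2]

lemma r7a_sinle (t y : ℝ) : |Real.sin t - Real.sin (t + y)| ≤ |y| := by
  have h := abs_cos_sub_cos_le (Real.pi / 2 - t) (Real.pi / 2 - (t + y))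
  rw [Real.cos_pi_div_two_sub, Real.cos_pi_div_two_sub] at h
  rw [show Real.pi / 2 - t - (Real.pi / 2 - (t + y)) = y by ring] at h
  exact h

lemma r7a_point {A₁ A₂ w Z ν y φp φm ψp ψm s Sp Sm : ℝ} (h1 : |φp| ≤ 1) (h2 : |φm| ≤ 1)
    (h3 : |ψp| ≤ A₁) (h4 : |ψm| ≤ A₁) (hs : |s| ≤ 1) (hSp : |s - Sp| ≤ |y|) (hSm : |s - Sm| ≤ |y|)
    (hSp1 : |Sp| ≤ 1) (hSm1 : |Sm| ≤ 1)
    (hk : |(φp - φm) / 2 - w * ((ψp + ψm) / 2)| ≤ 2 * A₂ * w ^ 2) :
    |((Z + ν) * φp - (Z - ν) * φm) / 2 * s - w * ((ψp * (Z + ν) * Sp + ψm * (Z - ν) * Sm) / 2) -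
      ν * ((φp * Sp + φm * Sm) / 2)| ≤
      |Z| * (2 * A₂ * w ^ 2 + A₁ * |w| * |y|) + (|ν| * |y| + A₁ * |w| * |ν|) := by
  have e : ((Z + ν) * φp - (Z - ν) * φm) / 2 * s -
      w * ((ψp * (Z + ν) * Sp + ψm * (Z - ν) * Sm) / 2) - ν * ((φp * Sp + φm * Sm) / 2) =
      Z * s * ((φp - φm) / 2 - w * ((ψp + ψm) / 2)) +
      w * Z * ((ψp * (s - Sp) + ψm * (s - Sm)) / 2) +
      ν * ((φp * (s - Sp) + φm * (s - Sm)) / 2) - w * ν * ((ψp * Sp - ψm * Sm) / 2) := by ring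
  rw [e]
  have hA1 : 0 ≤ A₁ := (abs_nonneg _).trans h3
  have b1 : |Z * s * ((φp - φm) / 2 - w * ((ψp + ψm) / 2))| ≤ |Z| * (2 * A₂ * w ^ 2) := by
    rw [abs_mul, abs_mul]
    calc |Z| * |s| * |(φp - φm) / 2 - w * ((ψp + ψm) / 2)|
        ≤ |Z| * 1 * (2 * A₂ * w ^ 2) := by
          apply mul_le_mul _ hk (abs_nonneg _) (by positivity)
          exact mul_le_mul_of_nonneg_left hs (abs_nonneg _)
      _ = _ := by ring
  have c1 : |(ψp * (s - Sp) + ψm * (s - Sm)) / 2| ≤ A₁ * |y| := by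
    rw [abs_div, abs_two, div_le_iff₀ (by norm_num)]
    have := abs_add_le (ψp * (s - Sp)) (ψm * (s - Sm))
    rw [abs_mul, abs_mul] at this
    have t1 := mul_le_mul h3 hSp (abs_nonneg _) hA1
    have t2 := mul_le_mul h4 hSm (abs_nonneg _) hA1
    linarith
  have c2 : |(φp * (s - Sp) + φm * (s - Sm)) / 2| ≤ |y| := by
    rw [abs_div, abs_two, div_le_iff₀ (by norm_num)]
    have := abs_add_le (φp * (s - Sp)) (φm * (s - Sm))
    rw [abs_mul, abs_mul] at this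
    have t1 := mul_le_mul h1 hSp (abs_nonneg _) zero_le_one
    have t2 := mul_le_mul h2 hSm (abs_nonneg _) zero_le_one
    linarith
  have c3 : |(ψp * Sp - ψm * Sm) / 2| ≤ A₁ := by
    rw [abs_div, abs_two, div_le_iff₀ (by norm_num)]
    have := abs_sub (ψp * Sp) (ψm * Sm)
    rw [abs_mul, abs_mul] at this
    have t1 := mul_le_mul h3 hSp1 (abs_nonneg _) hA1
    have t2 := mul_le_mul h4 hSm1 (abs_nonneg _) hA1
    linarith
  have b2 : |w * Z * ((ψp * (s - Sp) + ψm * (s - Sm)) / 2)| ≤ |w| * |Z| * (A₁ * |y|) := by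
    rw [abs_mul, abs_mul]
    exact mul_le_mul_of_nonneg_left c1 (by positivity)
  have b3 : |ν * ((φp * (s - Sp) + φm * (s - Sm)) / 2)| ≤ |ν| * |y| := by
    rw [abs_mul]
    exact mul_le_mul_of_nonneg_left c2 (by positivity)
  have b4 : |w * ν * ((ψp * Sp - ψm * Sm) / 2)| ≤ |w| * |ν| * A₁ := by
    rw [abs_mul, abs_mul]
    exact mul_le_mul_of_nonneg_left c3 (by positivity)
  have t := abs_add_le (Z * s * ((φp - φm) / 2 - w * ((ψp + ψm) / 2)))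
    (w * Z * ((ψp * (s - Sp) + ψm * (s - Sm)) / 2))
  have t' := abs_add_le (Z * s * ((φp - φm) / 2 - w * ((ψp + ψm) / 2)) +
    w * Z * ((ψp * (s - Sp) + ψm * (s - Sm)) / 2)) (ν * ((φp * (s - Sp) + φm * (s - Sm)) / 2))
  have t'' := abs_sub (Z * s * ((φp - φm) / 2 - w * ((ψp + ψm) / 2)) +
    w * Z * ((ψp * (s - Sp) + ψm * (s - Sm)) / 2) + ν * ((φp * (s - Sp) + φm * (s - Sm)) / 2))
    (w * ν * ((ψp * Sp - ψm * Sm) / 2))
  nlinarith

/-- ROW REG-R7a (one coordinate of the decorrelation lemma).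

Notation: `Z x = ν₀ + lfS I ν x`, `z x = lfS I q x + β`, `X x = lfS I b x`, `S = sin (ζ X + α)`, `Ψ = Z φ(z)`, `y = ζ b_i`,
`ω = q_i - m`, `T = E [x_i Ψ S]`, `Θ = E [Ψ cos (ζ X + α)]`.

PROOF.  `X = X_i + b_i x_i` where `X_i = lfS (I.erase i) b` does not depend on `x_i`.  `E Z² = ν₀² + ∑_I ν² ≤ 1`, `|φ| ≤ 1`, so
`|T|, |Θ| ≤ 1`.
(1) By `Ex_sb_mul`, `DI_mul` and `A_i S = cos y sin (ζX_i+α)`, `D_i S = sin y cos (ζX_i+α)`:
`T = cos y · Q + sin y · E[A_iΨ cos (ζX_i+α)]`, `Q = E[D_iΨ · sin (ζX_i+α)]`, and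
`E[A_iΨ cos (ζX_i+α)] = E[Ψ cos (ζX_i+α)] = cos y Θ + sin y T`  (`cos (ζX_i+α) = cos (ζX+α - y x_i)`, `Ex_AI`).  So
`T - yΘ - Q = (sin y cos y - y) Θ + sin² y T + (cos y - 1) Q`; `|sin y cos y - y| ≤ (2/3)|y|³`, `sin² y ≤ y²`,
`|cos y - 1| ≤ y²/2`, `|Q| ≤ E|D_iΨ| ≤ 2·(1/2)(E|Ψ(up)| + E|Ψ(dn)|)/1 ≤ 2` (`|D_iΨ| ≤ A_i|Ψ|`, in fact `|Q| ≤ 1`).
Error so far `≤ (2/3)|y|³ + 2y²`.
(2) `D_iΨ = D_iφ · A_iZ + A_iφ · D_iZ` (`DI_mul`), `D_iZ = ν_i`, `A_iZ = Z - ν_i x_i`, where `φ` stands for `φ∘z`.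
(2a) `ν_i E[A_iφ sin (ζX_i+α)] = ν_i E[φ sin (ζX_i+α)]`, and `|sin (ζX_i+α) - S| ≤ |y|`: error `|ν_i||y|`.
(2b) Let `z_i = z - q_i x_i` (no `x_i`), `y_i = z_i + m`.  As `q_i = m + ω` and `φ` has period `2`:
`z_i + q_i = y_i + ω`, `z_i - q_i = y_i - ω - 2m`, so `D_iφ = (φ(y_i+ω) - φ(y_i-ω))/2` and
`|D_iφ - ω ψ(y_i)| ≤ A₂ ω²`.  Also `z ≡ y_i ± ω mod 2`, so `|ψ(y_i) - ψ(z)| ≤ A₂|ω|`.  Together
`|D_iφ - ωψ(z)| ≤ 2A₂ω²`.  Hence `E[D_iφ A_iZ sin (ζX_i+α)]` differs from `ω E[ψ(z) Z S]` by at most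
`2A₂ω² E|A_iZ| + |ω|A₁|ν_i| + |ω|A₁|y| E|Z| ≤ 2A₂ω² + A₁|ω||ν_i| + A₁|ω||y|` (`E (A_iZ)² ≤ E Z² ≤ 1`). -/
theorem dec_coord {I : Finset (Fin n)} {b q ν : Fin n → ℝ} {m : ℤ} {β ν₀ α ζ A₁ A₂ : ℝ}
    {φ ψ : ℝ → ℝ} (hφ2 : ∀ t, φ (t + 2) = φ t) (hψ2 : ∀ t, ψ (t + 2) = ψ t)
    (hφ1 : ∀ t, |φ t| ≤ 1) (hψ1 : ∀ t, |ψ t| ≤ A₁)
    (hT : ∀ t h, |φ (t + h) - φ t - h * ψ t| ≤ A₂ * h ^ 2)
    (hL : ∀ t u, |ψ t - ψ u| ≤ A₂ * |t - u|) (hν : ν₀ ^ 2 + ∑ j ∈ I, ν j ^ 2 ≤ 1)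
    {i : Fin n} (hi : i ∈ I) :
    |Ex (fun x : Fin n → Bool => sb (x i) *
          ((ν₀ + lfS I ν x) * φ (lfS I q x + β) * Real.sin (ζ * lfS I b x + α))) -
        ζ * b i * Ex (fun x : Fin n → Bool =>
          (ν₀ + lfS I ν x) * φ (lfS I q x + β) * Real.cos (ζ * lfS I b x + α)) -
        (q i - m) * Ex (fun x : Fin n → Bool =>
          ψ (lfS I q x + β) * (ν₀ + lfS I ν x) * Real.sin (ζ * lfS I b x + α)) -
        ν i * Ex (fun x : Fin n → Bool =>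
          φ (lfS I q x + β) * Real.sin (ζ * lfS I b x + α))| ≤
      (2 / 3) * |ζ * b i| ^ 3 + 2 * (ζ * b i) ^ 2 + |ν i| * |ζ * b i| + 2 * A₂ * (q i - m) ^ 2 +
        A₁ * |q i - m| * |ν i| + A₁ * |q i - m| * |ζ * b i| := by
  set Z : (Fin n → Bool) → ℝ := fun x => ν₀ + lfS (I.erase i) ν x with hZ
  set z : (Fin n → Bool) → ℝ := fun x => lfS (I.erase i) q x + β with hz
  set θ : (Fin n → Bool) → ℝ := fun x => ζ * lfS (I.erase i) b x + α with hθ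
  set y := ζ * b i with hy
  set w := q i - m with hw
  set T := Ex (fun x : Fin n → Bool => sb (x i) *
          ((ν₀ + lfS I ν x) * φ (lfS I q x + β) * Real.sin (ζ * lfS I b x + α))) with hTd
  set Θ := Ex (fun x : Fin n → Bool =>
          (ν₀ + lfS I ν x) * φ (lfS I q x + β) * Real.cos (ζ * lfS I b x + α)) with hΘd
  set E3 := Ex (fun x : Fin n → Bool =>
          ψ (lfS I q x + β) * (ν₀ + lfS I ν x) * Real.sin (ζ * lfS I b x + α)) with hE3d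
  set E4 := Ex (fun x : Fin n → Bool =>
          φ (lfS I q x + β) * Real.sin (ζ * lfS I b x + α)) with hE4d
  have a1 : ∀ x, ν₀ + (lfS (I.erase i) ν x + ν i) = Z x + ν i := fun x => by
    simp only [hZ]; ring
  have a2 : ∀ x, ν₀ + (lfS (I.erase i) ν x - ν i) = Z x - ν i := fun x => by
    simp only [hZ]; ring
  have a3 : ∀ x, lfS (I.erase i) q x + q i + β = z x + q i := fun x => by
    simp only [hz]; ring
  have a4 : ∀ x, lfS (I.erase i) q x - q i + β = z x - q i := fun x => by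
    simp only [hz]; ring
  have a5 : ∀ x, ζ * (lfS (I.erase i) b x + b i) + α = θ x + y := fun x => by
    simp only [hθ, hy]; ring
  have a6 : ∀ x, ζ * (lfS (I.erase i) b x - b i) + α = θ x - y := fun x => by
    simp only [hθ, hy]; ring
  have hT1 : T = Ex (fun x => ((Z x + ν i) * φ (z x + q i) * Real.sin (θ x + y) -
      (Z x - ν i) * φ (z x - q i) * Real.sin (θ x - y)) / 2) := by
    rw [hTd, Ex_sb_mul]
    congr 1
    funext x
    simp only [DI, lfS_up _ _ hi, lfS_dn _ _ hi, a1, a2, a3, a4, a5, a6]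
  have hΘ1 : Θ = Ex (fun x => ((Z x + ν i) * φ (z x + q i) * Real.cos (θ x + y) +
      (Z x - ν i) * φ (z x - q i) * Real.cos (θ x - y)) / 2) := by
    rw [hΘd, ← Ex_AI i]
    congr 1
    funext x
    simp only [AI, lfS_up _ _ hi, lfS_dn _ _ hi, a1, a2, a3, a4, a5, a6]
  have hE31 : E3 = Ex (fun x => (ψ (z x + q i) * (Z x + ν i) * Real.sin (θ x + y) +
      ψ (z x - q i) * (Z x - ν i) * Real.sin (θ x - y)) / 2) := by
    rw [hE3d, ← Ex_AI i]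
    congr 1
    funext x
    simp only [AI, lfS_up _ _ hi, lfS_dn _ _ hi, a1, a2, a3, a4, a5, a6]
  have hE41 : E4 = Ex (fun x => (φ (z x + q i) * Real.sin (θ x + y) +
      φ (z x - q i) * Real.sin (θ x - y)) / 2) := by
    rw [hE4d, ← Ex_AI i]
    congr 1
    funext x
    simp only [AI, lfS_up _ _ hi, lfS_dn _ _ hi, a3, a4, a5, a6]
  set Q := Ex (fun x => ((Z x + ν i) * φ (z x + q i) - (Z x - ν i) * φ (z x - q i)) / 2 *
    Real.sin (θ x)) with hQd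
  have hQ : Q = T * Real.cos y - Θ * Real.sin y := by
    rw [hT1, hΘ1, ← Ex_mul', ← Ex_mul', ← Ex_sub, hQd]
    congr 1
    funext x
    have s1 : Real.sin (θ x + y) * Real.cos y - Real.cos (θ x + y) * Real.sin y =
        Real.sin (θ x) := by
      rw [← Real.sin_sub]; congr 1; ring
    have s2 : Real.sin (θ x - y) * Real.cos y + Real.cos (θ x - y) * Real.sin y =
        Real.sin (θ x) := by
      rw [← Real.sin_add]; congr 1; ring
    calc _ = ((Z x + ν i) * φ (z x + q i)) / 2 * Real.sin (θ x) -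
          ((Z x - ν i) * φ (z x - q i)) / 2 * Real.sin (θ x) := by ring
      _ = ((Z x + ν i) * φ (z x + q i)) / 2 *
            (Real.sin (θ x + y) * Real.cos y - Real.cos (θ x + y) * Real.sin y) -
          ((Z x - ν i) * φ (z x - q i)) / 2 *
            (Real.sin (θ x - y) * Real.cos y + Real.cos (θ x - y) * Real.sin y) := by
          rw [s1, s2]
      _ = _ := by ring
  -- bounds for T and Θ
  have hZ1 := r7a_lin ν₀ I ν hν
  have hTb : |T| ≤ 1 := by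
    refine (Ex_abs_le _).trans (le_trans (Ex_mono fun x => ?_) hZ1)
    have e1 : |sb (x i)| = 1 := by cases x i <;> simp
    rw [abs_mul, abs_mul, abs_mul, e1, one_mul]
    calc |ν₀ + lfS I ν x| * |φ (lfS I q x + β)| * |Real.sin (ζ * lfS I b x + α)|
        ≤ |ν₀ + lfS I ν x| * 1 * 1 := by
          apply mul_le_mul _ (Real.abs_sin_le_one _) (abs_nonneg _) (by positivity)
          exact mul_le_mul_of_nonneg_left (hφ1 _) (abs_nonneg _)
      _ = _ := by ring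
  have hΘb : |Θ| ≤ 1 := by
    refine (Ex_abs_le _).trans (le_trans (Ex_mono fun x => ?_) hZ1)
    rw [abs_mul, abs_mul]
    calc |ν₀ + lfS I ν x| * |φ (lfS I q x + β)| * |Real.cos (ζ * lfS I b x + α)|
        ≤ |ν₀ + lfS I ν x| * 1 * 1 := by
          apply mul_le_mul _ (Real.abs_cos_le_one _) (abs_nonneg _) (by positivity)
          exact mul_le_mul_of_nonneg_left (hφ1 _) (abs_nonneg _)
      _ = _ := by ring
  have hstep1 : |T - y * Θ - Q| ≤ (2 / 3) * |y| ^ 3 + 2 * y ^ 2 := by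
    rw [hQ]
    have e : T - y * Θ - (T * Real.cos y - Θ * Real.sin y) =
        T * (1 - Real.cos y) + Θ * (Real.sin y - y) := by ring
    rw [e]
    refine (abs_add_le _ _).trans ?_
    rw [abs_mul, abs_mul]
    have h1 : |1 - Real.cos y| ≤ y ^ 2 / 2 := by
      rw [abs_of_nonneg (by linarith [Real.cos_le_one y])]
      linarith [Real.one_sub_sq_div_two_le_cos (x := y)]
    have h2 := r7a_sin y
    have h3 := mul_le_mul hTb h1 (abs_nonneg _) zero_le_one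
    have h4 := mul_le_mul hΘb h2 (abs_nonneg _) zero_le_one
    linarith
  have hstep2 : |Q - w * E3 - ν i * E4| ≤ (2 * A₂ * w ^ 2 + A₁ * |w| * |y|) +
      (|ν i| * |y| + A₁ * |w| * |ν i|) := by
    have e : Q - w * E3 - ν i * E4 = Ex (fun x =>
        ((Z x + ν i) * φ (z x + q i) - (Z x - ν i) * φ (z x - q i)) / 2 * Real.sin (θ x) -
        w * ((ψ (z x + q i) * (Z x + ν i) * Real.sin (θ x + y) +
          ψ (z x - q i) * (Z x - ν i) * Real.sin (θ x - y)) / 2) -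
        ν i * ((φ (z x + q i) * Real.sin (θ x + y) +
          φ (z x - q i) * Real.sin (θ x - y)) / 2)) := by
      rw [hE31, hE41, hQd, ← Ex_mul, ← Ex_mul, ← Ex_sub, ← Ex_sub]
    rw [e]
    refine (Ex_abs_le _).trans ?_
    have hA1 : 0 ≤ A₁ := (abs_nonneg _).trans (hψ1 0)
    have hA2 : 0 ≤ A₂ := by
      have := (abs_nonneg _).trans (hT 0 1)
      simpa using this
    calc _ ≤ Ex (fun x : Fin n → Bool => |Z x| * (2 * A₂ * w ^ 2 + A₁ * |w| * |y|) +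
          (|ν i| * |y| + A₁ * |w| * |ν i|)) := by
          refine Ex_mono fun x => ?_
          refine r7a_point (hφ1 _) (hφ1 _) (hψ1 _) (hψ1 _) (Real.abs_sin_le_one _)
            (r7a_sinle _ _) ?_ (Real.abs_sin_le_one _) (Real.abs_sin_le_one _)
            (r7a_key hφ2 hψ2 hT hL (z x) (q i))
          have := r7a_sinle (θ x) (-y)
          rwa [abs_neg, ← sub_eq_add_neg] at this
      _ = Ex (fun x : Fin n → Bool => |Z x|) * (2 * A₂ * w ^ 2 + A₁ * |w| * |y|) +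
          (|ν i| * |y| + A₁ * |w| * |ν i|) := by
          rw [Ex_add, Ex_mul', Ex_const]
      _ ≤ _ := by
          have h1 : Ex (fun x : Fin n → Bool => |Z x|) ≤ 1 := by
            apply r7a_lin
            have := Finset.sum_erase_add I (fun j => ν j ^ 2) hi
            nlinarith [sq_nonneg (ν i)]
          have h2 : 0 ≤ 2 * A₂ * w ^ 2 + A₁ * |w| * |y| := by positivity
          nlinarith
  have hfin : T - y * Θ - w * E3 - ν i * E4 = (T - y * Θ - Q) + (Q - w * E3 - ν i * E4) := by ring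
  rw [hfin]
  refine (abs_add_le _ _).trans ?_
  linarith

end Pool.Agent.MP_cb3c9c_an.REG
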