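import Pool.Agent.MP_cb3c9c_an.REG.R7a
import Pool.Agent.MP_cb3c9c_an.REG.ODE

set_option autoImplicit false

open Finset MeasureTheory
open scoped BigOperators

namespace Pool.Agent.MP_cb3c9c_an.REG

open Pool.Agent.MP_cb3c9c_an.TwoBlock

variable {n : ℕ}

theorem r7b_cs {B : Finset (Fin n)} {f g : Fin n → ℝ} {s t : ℝ} (hs : 0 ≤ s) (ht : 0 ≤ t)
    (hf : ∑ i ∈ B, f i ^ 2 ≤ s ^ 2) (hg : ∑ i ∈ B, g i ^ 2 ≤ t ^ 2) :
    ∑ i ∈ B, |f i| * |g i| ≤ s * t := by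
  have h := Finset.sum_mul_sq_le_sq_mul_sq B (fun i => |f i|) (fun i => |g i|)
  simp only [sq_abs] at h
  have h0 : 0 ≤ ∑ i ∈ B, |f i| * |g i| :=
    Finset.sum_nonneg fun i _ => mul_nonneg (abs_nonneg _) (abs_nonneg _)
  have h1 : (∑ i ∈ B, |f i| * |g i|) ^ 2 ≤ (s * t) ^ 2 := by
    refine h.trans ?_
    rw [mul_pow]
    exact mul_le_mul hf hg (Finset.sum_nonneg fun i _ => sq_nonneg _) (sq_nonneg _)
  exact (pow_le_pow_iff_left₀ h0 (mul_nonneg hs ht) two_ne_zero).1 h1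

theorem r7b_sq (I : Finset (Fin n)) (ν : Fin n → ℝ) (ν₀ : ℝ) :
    Ex (fun x : Fin n → Bool => (ν₀ + lfS I ν x) ^ 2) = ν₀ ^ 2 + ∑ j ∈ I, ν j ^ 2 := by
  have h0 : Ex (fun x : Fin n → Bool => lfS I ν x) = 0 := Ex_odd _ (fun x => lfS_neg I ν x)
  have h1 : (fun x : Fin n → Bool => (ν₀ + lfS I ν x) ^ 2) =
      fun x => (ν₀ ^ 2 + 2 * ν₀ * lfS I ν x) + lfS I ν x ^ 2 := by
    funext x; ring
  rw [h1, Ex_add, Ex_add, Ex_const, Ex_mul, h0, Ex_lfS_sq]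
  ring

theorem r7b_abs (I : Finset (Fin n)) (ν : Fin n → ℝ) (ν₀ : ℝ)
    (hν : ν₀ ^ 2 + ∑ j ∈ I, ν j ^ 2 ≤ 1) :
    Ex (fun x : Fin n → Bool => |ν₀ + lfS I ν x|) ≤ 1 := by
  have h1 := Ex_cs (fun x : Fin n → Bool => |ν₀ + lfS I ν x|) (fun _ => (1 : ℝ))
  simp only [mul_one, one_pow, Ex_const, sq_abs, r7b_sq] at h1
  have h2 : 0 ≤ Ex (fun x : Fin n → Bool => |ν₀ + lfS I ν x|) := Ex_nonneg fun x => abs_nonneg _
  nlinarith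

/-- the error sum -/
theorem r7b_err {B : Finset (Fin n)} {b ω ν : Fin n → ℝ} {A₁ A₂ δ s t ζ : ℝ} (hA1 : 0 ≤ A₁)
    (hA2 : 0 ≤ A₂) (hδ0 : 0 ≤ δ) (hδ : ∀ i ∈ B, |b i| ≤ δ) (hδ1 : δ ≤ 1)
    (hb : ∑ i ∈ B, b i ^ 2 ≤ 2) (hν : ∑ i ∈ B, ν i ^ 2 ≤ 1) (hs : 0 ≤ s)
    (hω : ∑ i ∈ B, ω i ^ 2 ≤ s ^ 2) (ht : 0 ≤ t) (htζ : t ≤ ζ) :
    ∑ i ∈ B, |b i| * ((2 / 3) * |t * b i| ^ 3 + 2 * (t * b i) ^ 2 + |ν i| * |t * b i| +
        2 * A₂ * (ω i) ^ 2 + A₁ * |ω i| * |ν i| + A₁ * |ω i| * |t * b i|) ≤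
      20 * (1 + ζ ^ 3) * δ * (1 + A₁ * s + A₂ * s ^ 2) := by
  have hζ : 0 ≤ ζ := ht.trans htζ
  have h1 : ∀ i ∈ B, |b i| * ((2 / 3) * |t * b i| ^ 3 + 2 * (t * b i) ^ 2 + |ν i| * |t * b i| +
        2 * A₂ * (ω i) ^ 2 + A₁ * |ω i| * |ν i| + A₁ * |ω i| * |t * b i|) ≤
      δ * ((2 / 3) * ζ ^ 3 + 2 * ζ ^ 2) * b i ^ 2 + δ * ζ * (|ν i| * |b i|) +
        2 * A₂ * δ * ω i ^ 2 + A₁ * δ * (|ω i| * |ν i|) + A₁ * δ * ζ * (|ω i| * |b i|) := by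
    intro i hi
    have e0 : |t * b i| = t * |b i| := by rw [abs_mul, abs_of_nonneg ht]
    have e1 : (t * b i) ^ 2 = t ^ 2 * |b i| ^ 2 := by rw [sq_abs]; ring
    have e2 : b i ^ 2 = |b i| ^ 2 := (sq_abs _).symm
    rw [e0, e1, e2]
    have hβ := hδ i hi
    have hβ0 := abs_nonneg (b i)
    have hν0 := abs_nonneg (ν i)
    have hω0 := abs_nonneg (ω i)
    have hω2 := sq_nonneg (ω i)
    generalize |b i| = β at *
    generalize |ν i| = νi at *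
    generalize |ω i| = wi at *
    have ht3 : t ^ 3 ≤ ζ ^ 3 := pow_le_pow_left₀ ht htζ 3
    have ht2 : t ^ 2 ≤ ζ ^ 2 := pow_le_pow_left₀ ht htζ 2
    have hβ1 : β ≤ 1 := hβ.trans hδ1
    have g1 : β * ((2 / 3) * (t * β) ^ 3) ≤ δ * ((2 / 3) * ζ ^ 3) * β ^ 2 := by
      have k1 : β * β ≤ δ * 1 := mul_le_mul hβ hβ1 hβ0 hδ0
      have k2 : t ^ 3 * (β * β) ≤ ζ ^ 3 * (δ * 1) :=
        mul_le_mul ht3 k1 (mul_nonneg hβ0 hβ0) (pow_nonneg hζ 3)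
      have k3 := mul_le_mul_of_nonneg_right k2 (sq_nonneg β)
      nlinarith [k3]
    have g2 : β * (2 * (t ^ 2 * β ^ 2)) ≤ δ * (2 * ζ ^ 2) * β ^ 2 := by
      have k2 : t ^ 2 * β ≤ ζ ^ 2 * δ := mul_le_mul ht2 hβ hβ0 (pow_nonneg hζ 2)
      have k3 := mul_le_mul_of_nonneg_right k2 (sq_nonneg β)
      nlinarith [k3]
    have g3 : β * (νi * (t * β)) ≤ δ * ζ * (νi * β) := by
      have k2 : β * t ≤ δ * ζ := mul_le_mul hβ htζ ht hδ0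
      have k3 := mul_le_mul_of_nonneg_right k2 (mul_nonneg hν0 hβ0)
      nlinarith [k3]
    have g4 : β * (2 * A₂ * (ω i) ^ 2) ≤ 2 * A₂ * δ * ω i ^ 2 := by
      have k3 := mul_le_mul_of_nonneg_right hβ (mul_nonneg (mul_nonneg zero_le_two hA2) hω2)
      nlinarith [k3]
    have g5 : β * (A₁ * wi * νi) ≤ A₁ * δ * (wi * νi) := by
      have k3 := mul_le_mul_of_nonneg_right hβ (mul_nonneg (mul_nonneg hA1 hω0) hν0)
      nlinarith [k3]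
    have g6 : β * (A₁ * wi * (t * β)) ≤ A₁ * δ * ζ * (wi * β) := by
      have k2 : β * t ≤ δ * ζ := mul_le_mul hβ htζ ht hδ0
      have k3 := mul_le_mul_of_nonneg_right k2 (mul_nonneg (mul_nonneg hA1 hω0) hβ0)
      nlinarith [k3]
    nlinarith [g1, g2, g3, g4, g5, g6]
  refine (Finset.sum_le_sum h1).trans ?_
  rw [Finset.sum_add_distrib, Finset.sum_add_distrib, Finset.sum_add_distrib,
    Finset.sum_add_distrib, ← Finset.mul_sum, ← Finset.mul_sum, ← Finset.mul_sum,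
    ← Finset.mul_sum, ← Finset.mul_sum]
  have c1 : ∑ i ∈ B, |ν i| * |b i| ≤ 1 * (3 / 2) :=
    r7b_cs zero_le_one (by norm_num) (by linarith) (by linarith)
  have c2 : ∑ i ∈ B, |ω i| * |ν i| ≤ s * 1 := r7b_cs hs zero_le_one hω (by linarith)
  have c3 : ∑ i ∈ B, |ω i| * |b i| ≤ s * (3 / 2) :=
    r7b_cs hs (by norm_num) hω (by linarith)
  have d1 : δ * ((2 / 3) * ζ ^ 3 + 2 * ζ ^ 2) * ∑ i ∈ B, b i ^ 2 ≤
      δ * ((2 / 3) * ζ ^ 3 + 2 * ζ ^ 2) * 2 := mul_le_mul_of_nonneg_left hb (by positivity)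
  have d2 : δ * ζ * ∑ i ∈ B, |ν i| * |b i| ≤ δ * ζ * (1 * (3 / 2)) :=
    mul_le_mul_of_nonneg_left c1 (by positivity)
  have d3 : 2 * A₂ * δ * ∑ i ∈ B, ω i ^ 2 ≤ 2 * A₂ * δ * s ^ 2 :=
    mul_le_mul_of_nonneg_left hω (by positivity)
  have d4 : A₁ * δ * ∑ i ∈ B, |ω i| * |ν i| ≤ A₁ * δ * (s * 1) :=
    mul_le_mul_of_nonneg_left c2 (by positivity)
  have d5 : A₁ * δ * ζ * ∑ i ∈ B, |ω i| * |b i| ≤ A₁ * δ * ζ * (s * (3 / 2)) :=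
    mul_le_mul_of_nonneg_left c3 (by positivity)
  have z1 : ζ ≤ 1 + ζ ^ 3 := by
    nlinarith [sq_nonneg (ζ - 1), mul_nonneg hζ (sq_nonneg (ζ - 1))]
  have z2 : ζ ^ 2 ≤ 1 + ζ ^ 3 := by
    nlinarith [sq_nonneg (ζ - 1), mul_nonneg hζ (sq_nonneg (ζ - 1))]
  have z3 : 0 ≤ ζ ^ 3 := pow_nonneg hζ 3
  have w1 : δ * ((2 / 3) * ζ ^ 3 + 2 * ζ ^ 2) * 2 + δ * ζ * (1 * (3 / 2)) ≤
      20 * (1 + ζ ^ 3) * δ * 1 := by
    have : ((2 / 3) * ζ ^ 3 + 2 * ζ ^ 2) * 2 + ζ * (3 / 2) ≤ 20 * (1 + ζ ^ 3) := by linarith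
    nlinarith [mul_le_mul_of_nonneg_left this hδ0]
  have w2 : 2 * A₂ * δ * s ^ 2 ≤ 20 * (1 + ζ ^ 3) * δ * (A₂ * s ^ 2) := by
    have h0 : 0 ≤ A₂ * δ * s ^ 2 := by positivity
    nlinarith [mul_nonneg h0 z3]
  have w3 : A₁ * δ * (s * 1) + A₁ * δ * ζ * (s * (3 / 2)) ≤
      20 * (1 + ζ ^ 3) * δ * (A₁ * s) := by
    have h0 : 0 ≤ A₁ * δ * s := by positivity
    have h2 : 1 + ζ * (3 / 2) ≤ 20 * (1 + ζ ^ 3) := by linarith
    nlinarith [mul_le_mul_of_nonneg_left h2 h0]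
  linarith

theorem r7b_deriv (I : Finset (Fin n)) (b : Fin n → ℝ) (α : ℝ) (Ψ : (Fin n → Bool) → ℝ) (t : ℝ) :
    HasDerivAt (fun t : ℝ => Ex (fun x : Fin n → Bool => Ψ x * Real.cos (t * lfS I b x + α)))
      (- Ex (fun x : Fin n → Bool => lfS I b x * (Ψ x * Real.sin (t * lfS I b x + α)))) t := by
  have h1 : ∀ x : Fin n → Bool, HasDerivAt (fun t : ℝ => Ψ x * Real.cos (t * lfS I b x + α))
      (Ψ x * (- Real.sin (t * lfS I b x + α) * (1 * lfS I b x))) t := by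
    intro x
    exact (((hasDerivAt_id t).mul_const (lfS I b x)).add_const α).cos.const_mul (Ψ x)
  have h2 := (HasDerivAt.fun_sum (u := (Finset.univ : Finset (Fin n → Bool)))
    (fun x _ => h1 x)).div_const (Fintype.card (Fin n → Bool) : ℝ)
  have h3 : - Ex (fun x : Fin n → Bool => lfS I b x * (Ψ x * Real.sin (t * lfS I b x + α))) =
      (∑ x : Fin n → Bool, Ψ x * (- Real.sin (t * lfS I b x + α) * (1 * lfS I b x))) /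
        (Fintype.card (Fin n → Bool) : ℝ) := by
    rw [← Ex_neg]
    unfold Ex
    congr 1
    apply Finset.sum_congr rfl
    intro x _
    ring
  rw [h3]
  exact h2

/-- ROW REG-R7b (decorrelation lemma).

PROOF.  Notation of R7a; `Θ(ζ) = E[Z φ(z) cos (ζ X + α)]`, `Θ'(ζ) = - E[X Z φ(z) S]`, `X = ∑_{i ∈ I} b_i x_i`.  Split
`X = X_B + X_H`, `H = I \ B`.  `|E[X_H Z φ S]| ≤ (E X_H²)^{1/2} (E Z²)^{1/2} ≤ √(∑_H b²)`.  Sum `dec_coord` (R7a) over `i ∈ B` with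
weights `b_i`, `V = ∑_B b_i²`:
`|Θ' + ζ V Θ| ≤ √(∑_H b²) + |∑_B b_i ω_i| A₁ E|Z| + |∑_B b_i ν_i| |E[φ S]| + ∑_B |b_i| (error_i)`, where
`∑_B |b_i| error_i ≤ (2/3) ζ³ ∑ b⁴ + 2ζ² ∑ |b|³ + ζ ∑ b²|ν| + 2A₂ δ ∑ ω² + A₁ δ ∑ |ω||ν| + A₁ ζ ∑ b² |ω|
  ≤ δ [ (4/3) ζ³ + 4ζ² + √2 ζ ] + 2A₂ δ s² + A₁ δ s + A₁ ζ δ √2 s ≤ 20 (1+ζ³) δ (1 + A₁ s + A₂ s²)`
(`|b_i| ≤ δ ≤ 1`, `∑_I b² ≤ 2`, `∑ ν² ≤ 1`, `∑_B ω² ≤ s²`, Cauchy–Schwarz; `A₁, A₂ ≥ 0` follow from `hψ1`, `hL`).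
Apply `ode_gauss` on `[0, ζ]` (the right side is monotone in `ζ`). -/
theorem dec_main {I B : Finset (Fin n)} (hBI : B ⊆ I) {b q ν : Fin n → ℝ} {m : Fin n → ℤ}
    {β ν₀ α A₁ A₂ δ s E₁ : ℝ} {φ ψ : ℝ → ℝ} (hφ2 : ∀ t, φ (t + 2) = φ t)
    (hψ2 : ∀ t, ψ (t + 2) = ψ t) (hφ1 : ∀ t, |φ t| ≤ 1) (hψ1 : ∀ t, |ψ t| ≤ A₁)
    (hT : ∀ t h, |φ (t + h) - φ t - h * ψ t| ≤ A₂ * h ^ 2)
    (hL : ∀ t u, |ψ t - ψ u| ≤ A₂ * |t - u|) (hν : ν₀ ^ 2 + ∑ j ∈ I, ν j ^ 2 ≤ 1)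
    (hδ0 : 0 ≤ δ) (hδ : ∀ i ∈ I, |b i| ≤ δ) (hδ1 : δ ≤ 1) (hb : ∑ i ∈ I, b i ^ 2 ≤ 2) (hs : 0 ≤ s)
    (hω : ∑ i ∈ B, (q i - m i) ^ 2 ≤ s ^ 2) {ζ : ℝ} (hζ : 0 ≤ ζ)
    (hE : ∀ ζ' ∈ Set.Icc 0 ζ, |∑ i ∈ B, b i * ν i| * |Ex (fun x : Fin n → Bool =>
      φ (lfS I q x + β) * Real.sin (ζ' * lfS I b x + α))| ≤ E₁) :
    |Ex (fun x : Fin n → Bool =>
          (ν₀ + lfS I ν x) * φ (lfS I q x + β) * Real.cos (ζ * lfS I b x + α)) -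
        Real.exp (-(∑ i ∈ B, b i ^ 2) * ζ ^ 2 / 2) * Ex (fun x : Fin n → Bool =>
          (ν₀ + lfS I ν x) * φ (lfS I q x + β) * Real.cos (0 * lfS I b x + α))| ≤
      ζ * (Real.sqrt (∑ i ∈ I \ B, b i ^ 2) + A₁ * |∑ i ∈ B, b i * (q i - m i)| + E₁) +
        20 * ζ * (1 + ζ ^ 3) * δ * (1 + A₁ * s + A₂ * s ^ 2) := by
  have hA1 : 0 ≤ A₁ := (abs_nonneg _).trans (hψ1 0)
  have hA2 : 0 ≤ A₂ := by
    have h := hL 1 0
    rw [sub_zero, abs_one, mul_one] at h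
    exact (abs_nonneg _).trans h
  set Ψ : (Fin n → Bool) → ℝ := fun x => (ν₀ + lfS I ν x) * φ (lfS I q x + β) with hΨ
  have hBb : ∑ i ∈ B, b i ^ 2 ≤ 2 :=
    (Finset.sum_le_sum_of_subset_of_nonneg hBI (fun i _ _ => sq_nonneg _)).trans hb
  have hBν : ∑ i ∈ B, ν i ^ 2 ≤ 1 := by
    have h1 : ∑ i ∈ B, ν i ^ 2 ≤ ∑ i ∈ I, ν i ^ 2 :=
      Finset.sum_le_sum_of_subset_of_nonneg hBI (fun i _ _ => sq_nonneg _)
    nlinarith [sq_nonneg ν₀]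
  have hmain := ode_gauss (Θ := fun t : ℝ => Ex (fun x : Fin n → Bool =>
      Ψ x * Real.cos (t * lfS I b x + α)))
    (Θ' := fun t : ℝ => - Ex (fun x : Fin n → Bool =>
      lfS I b x * (Ψ x * Real.sin (t * lfS I b x + α))))
    (v := ∑ i ∈ B, b i ^ 2)
    (E := Real.sqrt (∑ i ∈ I \ B, b i ^ 2) + A₁ * |∑ i ∈ B, b i * (q i - m i)| + E₁ +
      20 * (1 + ζ ^ 3) * δ * (1 + A₁ * s + A₂ * s ^ 2))
    (Z := ζ) (Finset.sum_nonneg fun i _ => sq_nonneg _) hζ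
    (fun t _ => r7b_deriv I b α Ψ t) ?_
  · refine hmain.trans (le_of_eq ?_)
    ring
  intro t ht
  obtain ⟨ht0, htζ⟩ := ht
  show |- Ex (fun x : Fin n → Bool => lfS I b x * (Ψ x * Real.sin (t * lfS I b x + α))) +
    (∑ i ∈ B, b i ^ 2) * t * Ex (fun x : Fin n → Bool => Ψ x * Real.cos (t * lfS I b x + α))| ≤ _
  set S : (Fin n → Bool) → ℝ := fun x => Real.sin (t * lfS I b x + α) with hS
  set Θ : ℝ := Ex (fun x : Fin n → Bool => Ψ x * Real.cos (t * lfS I b x + α)) with hΘ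
  set P : ℝ := Ex (fun x : Fin n → Bool =>
    ψ (lfS I q x + β) * (ν₀ + lfS I ν x) * S x) with hP
  set R : ℝ := Ex (fun x : Fin n → Bool => φ (lfS I q x + β) * S x) with hR
  set T : Fin n → ℝ := fun i => Ex (fun x : Fin n → Bool => sb (x i) * (Ψ x * S x)) with hT'
  set XH : ℝ := Ex (fun x : Fin n → Bool => lfS (I \ B) b x * (Ψ x * S x)) with hXH
  have hdec : Ex (fun x : Fin n → Bool => lfS I b x * (Ψ x * S x)) =
      (∑ i ∈ B, b i * T i) + XH := by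
    have h1 : (fun x : Fin n → Bool => lfS I b x * (Ψ x * S x)) = fun x =>
        (∑ i ∈ B, b i * (sb (x i) * (Ψ x * S x))) + lfS (I \ B) b x * (Ψ x * S x) := by
      funext x
      have h2 : lfS I b x = lfS B b x + lfS (I \ B) b x := by
        unfold lfS
        rw [add_comm, Finset.sum_sdiff hBI]
      rw [h2, add_mul]
      congr 1
      unfold lfS
      rw [Finset.sum_mul]
      apply Finset.sum_congr rfl
      intro i _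
      ring
    rw [h1, Ex_add, Ex_sum]
    congr 1
    apply Finset.sum_congr rfl
    intro i _
    rw [Ex_mul]
  have hSle : ∀ x, |S x| ≤ 1 := fun x => Real.abs_sin_le_one _
  have hXHle : |XH| ≤ Real.sqrt (∑ i ∈ I \ B, b i ^ 2) := by
    have h1 := Ex_cs_abs (fun x : Fin n → Bool => lfS (I \ B) b x) (fun x => Ψ x * S x)
    rw [Ex_lfS_sq] at h1
    have h2 : Ex (fun x : Fin n → Bool => (Ψ x * S x) ^ 2) ≤ 1 := by
      refine le_trans (Ex_mono (g := fun x : Fin n → Bool => (ν₀ + lfS I ν x) ^ 2) ?_) ?_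
      · intro x
        have k1 : (Ψ x * S x) ^ 2 = (ν₀ + lfS I ν x) ^ 2 * (φ (lfS I q x + β) ^ 2 * S x ^ 2) := by
          simp only [hΨ]; ring
        rw [k1]
        have k2 : φ (lfS I q x + β) ^ 2 ≤ 1 := by
          have := hφ1 (lfS I q x + β)
          rw [← sq_abs]
          exact pow_le_one₀ (abs_nonneg _) this
        have k3 : S x ^ 2 ≤ 1 := by
          rw [← sq_abs]
          exact pow_le_one₀ (abs_nonneg _) (hSle x)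
        have k4 : φ (lfS I q x + β) ^ 2 * S x ^ 2 ≤ 1 :=
          mul_le_one₀ k2 (sq_nonneg _) k3
        exact mul_le_of_le_one_right (sq_nonneg _) k4
      · rw [r7b_sq]; exact hν
    have h3 : Real.sqrt (Ex (fun x : Fin n → Bool => (Ψ x * S x) ^ 2)) ≤ 1 :=
      Real.sqrt_le_one.2 h2
    exact h1.trans (mul_le_of_le_one_right (Real.sqrt_nonneg _) h3)
  have hPle : |P| ≤ A₁ := by
    refine (Ex_abs_le _).trans ?_
    refine le_trans (Ex_mono (g := fun x : Fin n → Bool => A₁ * |ν₀ + lfS I ν x|) ?_) ?_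
    · intro x
      rw [abs_mul, abs_mul]
      have k1 := hψ1 (lfS I q x + β)
      have k2 := hSle x
      have k3 : |ψ (lfS I q x + β)| * |ν₀ + lfS I ν x| ≤ A₁ * |ν₀ + lfS I ν x| :=
        mul_le_mul_of_nonneg_right k1 (abs_nonneg _)
      calc |ψ (lfS I q x + β)| * |ν₀ + lfS I ν x| * |S x|
          ≤ |ψ (lfS I q x + β)| * |ν₀ + lfS I ν x| * 1 :=
            mul_le_mul_of_nonneg_left k2 (mul_nonneg (abs_nonneg _) (abs_nonneg _))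
        _ ≤ _ := by rw [mul_one]; exact k3
    · rw [Ex_mul]
      have := r7b_abs I ν ν₀ hν
      calc A₁ * Ex (fun x : Fin n → Bool => |ν₀ + lfS I ν x|) ≤ A₁ * 1 :=
            mul_le_mul_of_nonneg_left this hA1
        _ = A₁ := mul_one _
  have hRle : |∑ i ∈ B, b i * ν i| * |R| ≤ E₁ := hE t ⟨ht0, htζ⟩
  have hcoord : ∀ i ∈ B, |T i - t * b i * Θ - (q i - m i) * P - ν i * R| ≤
      (2 / 3) * |t * b i| ^ 3 + 2 * (t * b i) ^ 2 + |ν i| * |t * b i| +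
        2 * A₂ * (q i - m i) ^ 2 + A₁ * |q i - m i| * |ν i| + A₁ * |q i - m i| * |t * b i| := by
    intro i hi
    exact dec_coord hφ2 hψ2 hφ1 hψ1 hT hL hν (hBI hi)
  have herr := r7b_err (ω := fun i => q i - m i) hA1 hA2 hδ0 (fun i hi => hδ i (hBI hi)) hδ1
    hBb hBν hs hω ht0 htζ
  have hsum : |∑ i ∈ B, b i * (T i - t * b i * Θ - (q i - m i) * P - ν i * R)| ≤
      20 * (1 + ζ ^ 3) * δ * (1 + A₁ * s + A₂ * s ^ 2) := by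
    refine (Finset.abs_sum_le_sum_abs _ _).trans ?_
    refine le_trans (Finset.sum_le_sum ?_) herr
    intro i hi
    rw [abs_mul]
    exact mul_le_mul_of_nonneg_left (hcoord i hi) (abs_nonneg _)
  have hexp : ∑ i ∈ B, b i * (T i - t * b i * Θ - (q i - m i) * P - ν i * R) =
      (∑ i ∈ B, b i * T i) - (∑ i ∈ B, b i ^ 2) * t * Θ - (∑ i ∈ B, b i * (q i - m i)) * P -
        (∑ i ∈ B, b i * ν i) * R := by
    rw [Finset.sum_mul, Finset.sum_mul, Finset.sum_mul, Finset.sum_mul, ← Finset.sum_sub_distrib,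
      ← Finset.sum_sub_distrib, ← Finset.sum_sub_distrib]
    apply Finset.sum_congr rfl
    intro i _
    ring
  rw [hdec]
  have hfin : -((∑ i ∈ B, b i * T i) + XH) + (∑ i ∈ B, b i ^ 2) * t * Θ =
      -(∑ i ∈ B, b i * (T i - t * b i * Θ - (q i - m i) * P - ν i * R)) -
        (∑ i ∈ B, b i * (q i - m i)) * P - (∑ i ∈ B, b i * ν i) * R - XH := by
    rw [hexp]; ring
  rw [hfin]
  have a1 : |(∑ i ∈ B, b i * (q i - m i)) * P| ≤ A₁ * |∑ i ∈ B, b i * (q i - m i)| := by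
    rw [abs_mul, mul_comm]
    exact mul_le_mul_of_nonneg_right hPle (abs_nonneg _)
  have a2 : |(∑ i ∈ B, b i * ν i) * R| ≤ E₁ := by rw [abs_mul]; exact hRle
  rw [abs_le] at hsum a1 a2 hXHle ⊢
  constructor
  · linarith [hsum.1, hsum.2, a1.1, a1.2, a2.1, a2.2, hXHle.1, hXHle.2]
  · linarith [hsum.1, hsum.2, a1.1, a1.2, a2.1, a2.2, hXHle.1, hXHle.2]

end Pool.Agent.MP_cb3c9c_an.REG
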