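import Pool.Agent.MP_cb3c9c_an.REG.Base

set_option autoImplicit false

open Finset MeasureTheory
open scoped BigOperators

namespace Pool.Agent.MP_cb3c9c_an.REG

open Pool.Agent.MP_cb3c9c_an.TwoBlock

variable {n : ℕ}

/-! ROW REG-S0: elementary facts on `saw t = 2 fract (t/2) - 1` and `dz t = |t - 2 round (t/2)|`. -/

theorem abs_saw_le (t : ℝ) : |saw t| ≤ 1 := by
  unfold saw
  have h1 := Int.fract_nonneg (t / 2)
  have h2 := Int.fract_lt_one (t / 2)
  rw [abs_le]
  constructor <;> linarith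

theorem saw_add_two_mul (t : ℝ) (m : ℤ) : saw (t + 2 * m) = saw t := by
  unfold saw
  have e : (t + 2 * m) / 2 = t / 2 + m := by ring
  rw [e, Int.fract_add_intCast]

/-- `t - saw t` is an odd integer. -/
theorem sub_saw (t : ℝ) : ∃ m : ℤ, t - saw t = 2 * m + 1 := by
  refine ⟨⌊t / 2⌋, ?_⟩
  unfold saw Int.fract
  ring

/-- If `t` is not an even integer then `|saw t| < 1`. -/
theorem abs_saw_lt {t : ℝ} (h : ∀ m : ℤ, t ≠ 2 * m) : |saw t| < 1 := by
  have h1 := Int.fract_nonneg (t / 2)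
  have h2 := Int.fract_lt_one (t / 2)
  have h3 : Int.fract (t / 2) ≠ 0 := by
    intro h0
    apply h ⌊t / 2⌋
    unfold Int.fract at h0
    linarith
  have h4 : 0 < Int.fract (t / 2) := lt_of_le_of_ne h1 (Ne.symm h3)
  unfold saw
  rw [abs_lt]
  constructor <;> linarith

theorem saw_neg {t : ℝ} (h : ∀ m : ℤ, t ≠ 2 * m) : saw (-t) = - saw t := by
  have h3 : Int.fract (t / 2) ≠ 0 := by
    intro h0
    apply h ⌊t / 2⌋
    unfold Int.fract at h0
    linarith
  unfold saw
  have e : -t / 2 = -(t / 2) := by ring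
  rw [e, Int.fract_neg h3]
  ring

theorem dz_nonneg (t : ℝ) : 0 ≤ dz t := abs_nonneg _

theorem dz_le (t : ℝ) (m : ℤ) : dz t ≤ |t - 2 * m| := by
  unfold dz
  have h1 := round_le (t / 2) m
  have e1 : t - 2 * (round (t / 2) : ℝ) = 2 * (t / 2 - round (t / 2)) := by ring
  have e2 : t - 2 * (m : ℝ) = 2 * (t / 2 - m) := by ring
  rw [e1, e2, abs_mul, abs_mul]
  exact mul_le_mul_of_nonneg_left h1 (abs_nonneg _)

theorem dz_le_one (t : ℝ) : dz t ≤ 1 := by
  unfold dz
  have h1 := abs_sub_round (t / 2)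
  have e1 : t - 2 * (round (t / 2) : ℝ) = 2 * (t / 2 - round (t / 2)) := by ring
  rw [e1, abs_mul, abs_two]
  linarith

theorem dz_add_two_mul (t : ℝ) (m : ℤ) : dz (t + 2 * m) = dz t := by
  unfold dz
  have e : (t + 2 * m) / 2 = t / 2 + m := by ring
  rw [e, round_add_intCast]
  push_cast
  congr 1
  ring

theorem dz_neg (t : ℝ) : dz (-t) = dz t := by
  have key : ∀ s : ℝ, dz (-s) ≤ dz s := by
    intro s
    have h1 := dz_le (-s) (-round (s / 2))
    refine h1.trans (le_of_eq ?_)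
    unfold dz
    push_cast
    rw [← abs_neg]
    congr 1
    ring
  apply le_antisymm (key t)
  have h2 := key (-t)
  rwa [neg_neg] at h2

theorem abs_dz_sub_le (s t : ℝ) : |dz s - dz t| ≤ |s - t| := by
  have key : ∀ s t : ℝ, dz s ≤ dz t + |s - t| := by
    intro s t
    refine (dz_le s (round (t / 2))).trans ?_
    have h1 : s - 2 * (round (t / 2) : ℝ) = (t - 2 * (round (t / 2) : ℝ)) + (s - t) := by ring
    rw [h1]
    exact abs_add_le _ _
  rw [abs_le]
  have h1 := key s t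
  have h2 := key t s
  rw [abs_sub_comm t s] at h2
  constructor <;> linarith

/-- Away from the jumps `saw` is affine with slope one.
PROOF.  Let `k = ⌊s/2⌋`.  As `s` is at distance `> |y|` from `2k` and from `2k+2`, `s - y ∈ (2k, 2k+2)`. -/
theorem saw_sub_of_lt {s y : ℝ} (h : |y| < dz s) : saw (s - y) = saw s - y := by
  have h1 := dz_le s ⌊s / 2⌋
  have h2 := dz_le s (⌊s / 2⌋ + 1)
  have h3 := Int.floor_le (s / 2)
  have h4 := Int.lt_floor_add_one (s / 2)
  push_cast at h2
  rw [abs_of_nonneg (by linarith)] at h1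
  rw [abs_of_nonpos (by linarith)] at h2
  have h5 := abs_lt.1 h
  have h6 : ⌊(s - y) / 2⌋ = ⌊s / 2⌋ := by
    rw [Int.floor_eq_iff]
    constructor <;> linarith
  unfold saw Int.fract
  rw [h6]
  ring

end Pool.Agent.MP_cb3c9c_an.REG
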