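import Pool.Agent.MP_cb3c9c_an.REG.R6
import Pool.Agent.MP_cb3c9c_an.REG.S0

set_option autoImplicit false

open Finset MeasureTheory
open scoped BigOperators

namespace Pool.Agent.MP_cb3c9c_an.REG

open Pool.Agent.MP_cb3c9c_an.TwoBlock

variable {n : ℕ}

lemma r8b_K (L : Finset (Fin n)) (x : Fin n → Bool) :
    ∃ m : ℤ, lfS L (fun _ => (1 : ℝ)) x = (L.card : ℝ) - 2 * m := by
  refine ⟨∑ i ∈ L, (if x i then 1 else 0), ?_⟩
  unfold lfS
  push_cast
  rw [Finset.mul_sum, Finset.card_eq_sum_ones]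
  push_cast
  rw [← Finset.sum_sub_distrib]
  apply Finset.sum_congr rfl
  intro i _
  cases x i <;> norm_num [sb]

lemma r8b_sg_mul {c : ℝ} (hc : 0 < c) (t : ℝ) : sg (c * t) = sg t := by
  rcases lt_trichotomy t 0 with h | h | h
  · rw [sg_neg' h, sg_neg' (mul_neg_of_pos_of_neg hc h)]
  · rw [h, mul_zero]
  · rw [sg_pos h, sg_pos (mul_pos hc h)]

lemma r8b_sg_add (m : ℤ) {e : ℝ} (he : |e| < 1) :
    sg ((2 * m + 1 : ℤ) + e : ℝ) = sg ((2 * m + 1 : ℤ) : ℝ) := by
  obtain ⟨h1, h2⟩ := abs_lt.mp he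
  rcases le_or_gt 0 m with h | h
  · have h3 : (0 : ℝ) ≤ m := by exact_mod_cast h
    rw [sg_pos, sg_pos]
    · push_cast; linarith
    · push_cast; linarith
  · have h4 : m + 1 ≤ 0 := h
    have h3 : (m : ℝ) + 1 ≤ 0 := by exact_mod_cast h4
    rw [sg_neg', sg_neg']
    · push_cast; linarith
    · push_cast; linarith

lemma r8b_int (M : ℝ) :
    IntegrableOn (fun θ : ℝ => Real.sin (M * θ) / Real.sin θ) (Set.Ioo 0 (Real.pi / 2)) := by
  have hb : IntegrableOn (fun _ : ℝ => |M| * Real.pi / 2) (Set.Ioo 0 (Real.pi / 2)) :=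
    integrableOn_const (by simp)
  refine Integrable.mono' hb ?_ ?_
  · apply Measurable.aestronglyMeasurable
    fun_prop
  · refine (ae_restrict_iff' measurableSet_Ioo).mpr (Filter.Eventually.of_forall fun θ hθ => ?_)
    have h1 := Real.mul_le_sin hθ.1.le hθ.2.le
    have h2 : 0 < Real.sin θ := Real.sin_pos_of_pos_of_lt_pi hθ.1 (by linarith [hθ.2, Real.pi_pos])
    have h3 : |Real.sin (M * θ)| ≤ |M * θ| := Real.abs_sin_le_abs
    rw [Real.norm_eq_abs, abs_div, abs_of_pos h2, div_le_iff₀ h2]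
    rw [abs_mul, abs_of_pos hθ.1] at h3
    have h4 : θ ≤ Real.pi / 2 * Real.sin θ := by
      have : Real.pi / 2 * (2 / Real.pi * θ) ≤ Real.pi / 2 * Real.sin θ :=
        mul_le_mul_of_nonneg_left h1 (by positivity)
      have e : Real.pi / 2 * (2 / Real.pi * θ) = θ := by
        field_simp
      linarith
    calc |Real.sin (M * θ)| ≤ |M| * θ := h3
      _ ≤ |M| * (Real.pi / 2 * Real.sin θ) := mul_le_mul_of_nonneg_left h4 (abs_nonneg _)
      _ = |M| * Real.pi / 2 * Real.sin θ := by ring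

lemma r8b_Ex_int {s : Set ℝ} (f : (Fin n → Bool) → ℝ → ℝ) (h : ∀ x, IntegrableOn (f x) s) :
    Ex (fun x => ∫ θ in s, f x θ) = ∫ θ in s, Ex (fun x => f x θ) := by
  unfold Ex
  rw [integral_div, integral_finsetSum _ (fun x _ => h x)]

lemma r8b_avg {I L : Finset (Fin n)} (hIL : Disjoint I L) (F : (Fin n → Bool) → ℝ)
    (hF : Dep I F) (D : (Fin n → Bool) → ℝ) (hD : Dep I D) (θ : ℝ) :
    Ex (fun x : Fin n → Bool => F x * Real.sin ((D x + lfS L (fun _ => 1) x) * θ)) =
      Real.cos θ ^ L.card * Ex (fun x : Fin n → Bool => F x * Real.sin (D x * θ)) := by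
  have hK : ∀ x : Fin n → Bool, lfS L (fun _ => θ) x = lfS L (fun _ => 1) x * θ := by
    intro x
    unfold lfS
    rw [Finset.sum_mul]
    apply Finset.sum_congr rfl
    intro i _
    ring
  have h1 : (fun x : Fin n → Bool => F x * Real.sin ((D x + lfS L (fun _ => 1) x) * θ)) =
      fun x => (F x * Real.sin (D x * θ)) * Real.cos (lfS L (fun _ => θ) x) +
        (F x * Real.cos (D x * θ)) * Real.sin (lfS L (fun _ => θ) x) := by
    funext x
    rw [hK, add_mul, Real.sin_add]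
    ring
  have hdL : Dep L (fun x : Fin n → Bool => Real.cos (lfS L (fun _ => θ) x)) := by
    intro x y h
    simp only
    rw [lfS_dep L _ x y h]
  have hdL' : Dep L (fun x : Fin n → Bool => Real.sin (lfS L (fun _ => θ) x)) := by
    intro x y h
    simp only
    rw [lfS_dep L _ x y h]
  have hdI : Dep I (fun x : Fin n → Bool => F x * Real.sin (D x * θ)) := by
    intro x y h
    simp only
    rw [hF x y h, hD x y h]
  have hdI' : Dep I (fun x : Fin n → Bool => F x * Real.cos (D x * θ)) := by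
    intro x y h
    simp only
    rw [hF x y h, hD x y h]
  have h2 : Ex (fun x : Fin n → Bool => Real.sin (lfS L (fun _ => θ) x)) = 0 := by
    apply Ex_odd
    intro x
    rw [lfS_neg, Real.sin_neg]
  have h3 : Ex (fun x : Fin n → Bool => Real.cos (lfS L (fun _ => θ) x)) =
      Real.cos θ ^ L.card := by
    have := Ex_cos L (fun _ => θ) 0
    simpa using this
  rw [h1, Ex_add, Ex_indep hIL hdI hdL, Ex_indep hIL hdI' hdL', h2, h3]
  ring

/-- ROW REG-R8b (exact formula for the averaged sign).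

PROOF.  `w = σ * lfS I b x`, `e = saw (w + N)`, `N = L.card`.  `sg (lfS I b x + (1/σ) K) = sg (w + K)`, `K = lfS L 1 y ≡ N mod 2`
an integer.  `w + N - e` is an odd integer (`sub_saw`), `|e| < 1` (`abs_saw_lt`), so `w + K = M + e` with `M` an odd
integer, and `sg (M + e) = sg M`.  So `sg (w+K) = (2/π) ∫ sin (M θ)/sin θ` (`sg_odd_integral`), `M = (w - e) + K`.
Average over the coordinates of `L`: `I` and `L` are disjoint, `lfS I ν`, `w`, `e` do not depend on them, and
`E sin ((w-e)θ + Kθ) = sin ((w-e)θ) cos^N θ` (`Ex_cos L (fun _ => θ) (..)`, `sin y = cos (y - π/2)`).  (`Ex_mix` or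
`Ex_indep` after expanding `sin ((w-e)θ + Kθ)`; `E sin (Kθ) = 0`, `E cos (Kθ) = cos^N θ`.)  Exchange the finite average and
the integral (each `sin (Mθ)/sin θ` is bounded on `(0,π/2)`). -/
theorem Ex_sg_formula {I L : Finset (Fin n)} (hIL : Disjoint I L) {σ : ℝ} (hσ : 0 < σ)
    {b ν : Fin n → ℝ} (hne : ∀ x : Fin n → Bool, ∀ m : ℤ, σ * lfS I b x + L.card ≠ 2 * m) :
    Ex (fun x : Fin n → Bool => lfS I ν x * sg (lfS I b x + (1 / σ) * lfS L (fun _ => 1) x)) =
      (2 / Real.pi) * ∫ θ in Set.Ioo (0 : ℝ) (Real.pi / 2), (Real.cos θ ^ L.card / Real.sin θ) *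
        Ex (fun x : Fin n → Bool => lfS I ν x *
          Real.sin ((σ * lfS I b x - saw (σ * lfS I b x + L.card)) * θ)) := by
  set D : (Fin n → Bool) → ℝ := fun x => σ * lfS I b x - saw (σ * lfS I b x + L.card) with hD
  have hsg : ∀ x : Fin n → Bool, sg (lfS I b x + (1 / σ) * lfS L (fun _ => 1) x) =
      (2 / Real.pi) * ∫ θ in Set.Ioo (0 : ℝ) (Real.pi / 2),
        Real.sin ((D x + lfS L (fun _ => 1) x) * θ) / Real.sin θ := by
    intro x
    obtain ⟨m, hm⟩ := r8b_K L x
    obtain ⟨m', hm'⟩ := sub_saw (σ * lfS I b x + L.card)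
    have hlt := abs_saw_lt (hne x)
    have e1 : sg (lfS I b x + (1 / σ) * lfS L (fun _ => 1) x) =
        sg (σ * (lfS I b x + (1 / σ) * lfS L (fun _ => 1) x)) := (r8b_sg_mul hσ _).symm
    have e2 : σ * (lfS I b x + (1 / σ) * lfS L (fun _ => 1) x) =
        ((2 * (m' - m) + 1 : ℤ) : ℝ) + saw (σ * lfS I b x + L.card) := by
      rw [mul_add, ← mul_assoc, mul_one_div_cancel hσ.ne', one_mul, hm]
      push_cast
      linarith
    have e3 : D x + lfS L (fun _ => 1) x = ((2 * (m' - m) + 1 : ℤ) : ℝ) := by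
      rw [hm]
      simp only [hD]
      push_cast
      linarith
    rw [e1, e2, r8b_sg_add _ hlt, sg_odd_integral _ ⟨m' - m, rfl⟩, e3]
  have h1 : (fun x : Fin n → Bool => lfS I ν x * sg (lfS I b x + (1 / σ) * lfS L (fun _ => 1) x)) =
      fun x => (2 / Real.pi) * ∫ θ in Set.Ioo (0 : ℝ) (Real.pi / 2),
        lfS I ν x * (Real.sin ((D x + lfS L (fun _ => 1) x) * θ) / Real.sin θ) := by
    funext x
    rw [hsg, integral_const_mul]
    ring
  rw [h1, Ex_mul, r8b_Ex_int _ (fun x => (r8b_int _).const_mul _)]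
  congr 1
  apply integral_congr_ae
  refine Filter.Eventually.of_forall fun θ => ?_
  have hF : Dep I (fun x : Fin n → Bool => lfS I ν x) := fun x y h => lfS_dep I _ x y h
  have hDD : Dep I D := by
    intro x y h
    simp only [hD]
    rw [lfS_dep I _ x y h]
  have h2 := r8b_avg hIL _ hF D hDD θ
  have h3 : (fun x : Fin n → Bool =>
      lfS I ν x * (Real.sin ((D x + lfS L (fun _ => 1) x) * θ) / Real.sin θ)) =
      fun x => (lfS I ν x * Real.sin ((D x + lfS L (fun _ => 1) x) * θ)) * (1 / Real.sin θ) := by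
    funext x
    ring
  simp only
  rw [h3, Ex_mul', h2]
  ring

end Pool.Agent.MP_cb3c9c_an.REG
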