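import Pool.Agent.MP_cb3c9c_an.REG.R8a
import Pool.Agent.MP_cb3c9c_an.REG.R8b
import Pool.Agent.MP_cb3c9c_an.REG.A3

set_option autoImplicit false

open Finset MeasureTheory
open scoped BigOperators

namespace Pool.Agent.MP_cb3c9c_an.REG

open Pool.Agent.MP_cb3c9c_an.TwoBlock

variable {n : ℕ}

theorem r8_gauss1 : IntegrableOn (fun t : ℝ => t * Real.exp (-t ^ 2 / 2)) (Set.Ioi 0) ∧
    ∫ t in Set.Ioi (0 : ℝ), t * Real.exp (-t ^ 2 / 2) = 1 := by
  have hder : ∀ x ∈ Set.Ici (0 : ℝ),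
      HasDerivAt (fun t : ℝ => -Real.exp (-t ^ 2 / 2)) (x * Real.exp (-x ^ 2 / 2)) x := by
    intro x _
    have h1 : HasDerivAt (fun t : ℝ => -t ^ 2 / 2) (-x) x := by
      have h2 := (hasDerivAt_pow 2 x).neg.div_const 2
      refine h2.congr_deriv ?_
      push_cast
      ring
    refine h1.exp.neg.congr_deriv ?_
    ring
  have hpos : ∀ x ∈ Set.Ioi (0 : ℝ), 0 ≤ x * Real.exp (-x ^ 2 / 2) := fun x hx =>
    mul_nonneg (le_of_lt hx) (Real.exp_pos _).le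
  have hlim : Filter.Tendsto (fun t : ℝ => -Real.exp (-t ^ 2 / 2)) Filter.atTop (nhds 0) := by
    have h1 : Filter.Tendsto (fun t : ℝ => -t ^ 2 / 2) Filter.atTop Filter.atBot := by
      have h2 : Filter.Tendsto (fun t : ℝ => t ^ 2 / 2) Filter.atTop Filter.atTop :=
        (Filter.tendsto_pow_atTop (two_ne_zero)).atTop_div_const (by norm_num)
      have h3 := Filter.tendsto_neg_atTop_atBot.comp h2
      refine h3.congr fun t => ?_
      show -(t ^ 2 / 2) = -t ^ 2 / 2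
      ring
    have h2 := (Real.tendsto_exp_atBot.comp h1).neg
    rw [neg_zero] at h2
    exact h2
  refine ⟨MeasureTheory.integrableOn_Ioi_deriv_of_nonneg' hder hpos hlim, ?_⟩
  rw [MeasureTheory.integral_Ioi_of_hasDerivAt_of_nonneg' hder hpos hlim]
  norm_num

theorem r8_scale {g : ℝ → ℝ} {s c : ℝ} (hs : 0 < s)
    (h : IntegrableOn g (Set.Ioi 0) ∧ ∫ t in Set.Ioi (0 : ℝ), g t = c) :
    IntegrableOn (fun t => g (s * t)) (Set.Ioi 0) ∧
      ∫ t in Set.Ioi (0 : ℝ), g (s * t) = s⁻¹ * c := by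
  constructor
  · rw [MeasureTheory.integrableOn_Ioi_comp_mul_left_iff g 0 hs, mul_zero]
    exact h.1
  · rw [MeasureTheory.integral_comp_mul_left_Ioi g 0 hs, mul_zero, h.2, smul_eq_mul]

theorem r8_H {s A B C : ℝ} (hs : 0 < s) :
    IntegrableOn (fun θ : ℝ => Real.exp (-(s * θ) ^ 2 / 2) * (A * θ + B + C * θ ^ 6))
      (Set.Ioi 0) ∧
    ∫ θ in Set.Ioi (0 : ℝ), Real.exp (-(s * θ) ^ 2 / 2) * (A * θ + B + C * θ ^ 6) =
      A / s ^ 2 + B * Real.sqrt (Real.pi / 2) / s +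
        C * (15 * Real.sqrt (Real.pi / 2)) / s ^ 7 := by
  obtain ⟨i1, e1⟩ := r8_scale hs r8_gauss1
  obtain ⟨i0, e0⟩ := r8_scale hs integral_gauss0
  obtain ⟨i6, e6⟩ := r8_scale hs integral_gauss6
  have hfun : (fun θ : ℝ => Real.exp (-(s * θ) ^ 2 / 2) * (A * θ + B + C * θ ^ 6)) =
      fun θ : ℝ => (A / s) * ((s * θ) * Real.exp (-(s * θ) ^ 2 / 2)) +
        B * Real.exp (-(s * θ) ^ 2 / 2) +
        (C / s ^ 6) * ((s * θ) ^ 6 * Real.exp (-(s * θ) ^ 2 / 2)) := by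
    funext θ
    field_simp
  rw [hfun]
  have j1 := i1.const_mul (A / s)
  have j0 := i0.const_mul B
  have j6 := i6.const_mul (C / s ^ 6)
  refine ⟨(j1.add j0).add j6, ?_⟩
  have h1 := MeasureTheory.integral_add (j1.add j0) j6
  have h2 := MeasureTheory.integral_add j1 j0
  simp only [Pi.add_apply] at h1 h2
  rw [h1, h2, MeasureTheory.integral_const_mul, MeasureTheory.integral_const_mul,
    MeasureTheory.integral_const_mul, e1, e0, e6]
  field_simp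

theorem r8_trig {u y : ℝ} (hy : |y| ≤ 2) :
    |Real.sin (u - y) - (Real.sin u - y * Real.cos u)| ≤ y ^ 2 := by
  have h1 : Real.sin (u - y) - (Real.sin u - y * Real.cos u) =
      Real.sin u * (Real.cos y - 1) + Real.cos u * (y - Real.sin y) := by
    rw [Real.sin_sub]
    ring
  have h2 : |Real.cos y - 1| ≤ y ^ 2 / 2 := by
    have h3 := Real.one_sub_sq_div_two_le_cos (x := y)
    have h4 := Real.cos_le_one y
    rw [abs_le]
    constructor <;> linarith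
  have h3 : |y - Real.sin y| ≤ |y| ^ 3 / 6 := Real.abs_sub_sin_le y
  have h4 : |y| ^ 3 / 6 ≤ y ^ 2 / 2 := by
    have h5 : |y| ^ 3 = y ^ 2 * |y| := by
      rw [pow_succ, sq_abs]
    rw [h5]
    nlinarith [sq_nonneg y]
  rw [h1]
  calc |Real.sin u * (Real.cos y - 1) + Real.cos u * (y - Real.sin y)|
      ≤ |Real.sin u * (Real.cos y - 1)| + |Real.cos u * (y - Real.sin y)| := abs_add_le _ _
    _ ≤ 1 * (y ^ 2 / 2) + 1 * (y ^ 2 / 2) := by
      rw [abs_mul, abs_mul]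
      exact add_le_add
        (mul_le_mul (Real.abs_sin_le_one _) h2 (abs_nonneg _) zero_le_one)
        (mul_le_mul (Real.abs_cos_le_one _) (h3.trans h4) (abs_nonneg _) zero_le_one)
    _ = y ^ 2 := by ring

section core
variable {α : Type} [Fintype α] [Nonempty α]

theorem r8_point (Y X e : α → ℝ) {σ m v K η₁ R : ℝ} (hσ : 1 ≤ σ) (hv : 0 ≤ v) (hη : 0 ≤ η₁)
    (hR : 0 < R) (hY : Ex (fun x => |Y x|) ≤ 1) (he : ∀ x, |e x| ≤ 1)
    (hA : ∀ ζ : ℝ, 0 ≤ ζ → |Ex (fun x => Y x * Real.sin (ζ * X x)) -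
      ζ * m * Real.exp (-v * ζ ^ 2 / 2)| ≤ 4 * (ζ + ζ ^ 7) * K)
    (hG : ∀ ζ ∈ Set.Icc 0 R, |Ex (fun x => Y x * e x * Real.cos (ζ * X x)) -
      Real.exp (-v * ζ ^ 2 / 2) * Ex (fun x => Y x * e x)| ≤ η₁)
    {θ : ℝ} (hθ : 0 < θ) (hθ2 : θ ≤ 2) :
    |Ex (fun x => Y x * Real.sin ((σ * X x - e x) * θ)) -
      θ * Real.exp (-v * (σ * θ) ^ 2 / 2) * (σ * m - Ex (fun x => Y x * e x))| ≤
      θ ^ 2 + 4 * (σ * θ + (σ * θ) ^ 7) * K + θ * (η₁ + 2 * (σ * θ) / R) := by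
  set G0 := Ex (fun x => Y x * e x) with hG0
  set ζ := σ * θ with hζ
  have hζ0 : 0 < ζ := by positivity
  set A := Ex (fun x => Y x * Real.sin (ζ * X x)) with hAdef
  set G := Ex (fun x => Y x * e x * Real.cos (ζ * X x)) with hGdef
  set W := Real.exp (-v * ζ ^ 2 / 2) with hW
  have hW0 : 0 ≤ W := (Real.exp_pos _).le
  have hW1 : W ≤ 1 := by
    rw [hW, Real.exp_le_one_iff]
    have : 0 ≤ v * ζ ^ 2 := by positivity
    linarith
  have habs : ∀ f : α → ℝ, (∀ x, |f x| ≤ |Y x|) → |Ex f| ≤ 1 := by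
    intro f hf
    exact (Ex_abs_le f).trans ((Ex_mono hf).trans hY)
  have hG1 : |G| ≤ 1 := by
    apply habs
    intro x
    rw [abs_mul, abs_mul]
    calc |Y x| * |e x| * |Real.cos (ζ * X x)| ≤ |Y x| * 1 * 1 := by
          apply mul_le_mul _ (Real.abs_cos_le_one _) (abs_nonneg _) (by positivity)
          exact mul_le_mul_of_nonneg_left (he x) (abs_nonneg _)
      _ = |Y x| := by ring
  have hG01 : |G0| ≤ 1 := by
    apply habs
    intro x
    rw [abs_mul]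
    calc |Y x| * |e x| ≤ |Y x| * 1 := mul_le_mul_of_nonneg_left (he x) (abs_nonneg _)
      _ = |Y x| := by ring
  have t1 : |Ex (fun x => Y x * Real.sin ((σ * X x - e x) * θ)) - (A - θ * G)| ≤ θ ^ 2 := by
    have h1 : A - θ * G = Ex (fun x => Y x * Real.sin (ζ * X x) -
        θ * (Y x * e x * Real.cos (ζ * X x))) := by
      rw [Ex_sub, Ex_mul]
    rw [h1, ← Ex_sub]
    refine (Ex_abs_le _).trans ?_
    have h2 : ∀ x, |Y x * Real.sin ((σ * X x - e x) * θ) - (Y x * Real.sin (ζ * X x) -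
        θ * (Y x * e x * Real.cos (ζ * X x)))| ≤ |Y x| * θ ^ 2 := by
      intro x
      have h3 : Y x * Real.sin ((σ * X x - e x) * θ) - (Y x * Real.sin (ζ * X x) -
        θ * (Y x * e x * Real.cos (ζ * X x))) = Y x * (Real.sin (ζ * X x - e x * θ) -
          (Real.sin (ζ * X x) - (e x * θ) * Real.cos (ζ * X x))) := by
        rw [show (σ * X x - e x) * θ = ζ * X x - e x * θ by rw [hζ]; ring]
        ring
      rw [h3, abs_mul]
      apply mul_le_mul_of_nonneg_left _ (abs_nonneg _)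
      have h4 : |e x * θ| ≤ θ := by
        rw [abs_mul, abs_of_pos hθ]
        calc |e x| * θ ≤ 1 * θ := mul_le_mul_of_nonneg_right (he x) hθ.le
          _ = θ := one_mul θ
      refine (r8_trig (h4.trans hθ2)).trans ?_
      rw [← sq_abs (e x * θ)]
      exact pow_le_pow_left₀ (abs_nonneg _) h4 2
    refine (Ex_mono h2).trans ?_
    rw [Ex_mul']
    calc Ex (fun x => |Y x|) * θ ^ 2 ≤ 1 * θ ^ 2 :=
          mul_le_mul_of_nonneg_right hY (sq_nonneg _)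
      _ = θ ^ 2 := one_mul _
  have t2 : |A - ζ * m * W| ≤ 4 * (ζ + ζ ^ 7) * K := hA ζ hζ0.le
  have t3 : |G - W * G0| ≤ η₁ + 2 * ζ / R := by
    by_cases hζR : ζ ≤ R
    · have h1 := hG ζ ⟨hζ0.le, hζR⟩
      have h2 : 0 ≤ 2 * ζ / R := by positivity
      linarith
    · rw [not_le] at hζR
      have h1 : |G - W * G0| ≤ |G| + |W * G0| := abs_sub _ _
      have h2 : |W * G0| ≤ 1 := by
        rw [abs_mul, abs_of_nonneg hW0]
        calc W * |G0| ≤ 1 * 1 := mul_le_mul hW1 hG01 (abs_nonneg _) zero_le_one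
          _ = 1 := one_mul 1
      have h3 : 2 ≤ 2 * ζ / R := by
        rw [le_div_iff₀ hR]
        linarith
      linarith
  have hfin : Ex (fun x => Y x * Real.sin ((σ * X x - e x) * θ)) -
      θ * W * (σ * m - G0) =
      (Ex (fun x => Y x * Real.sin ((σ * X x - e x) * θ)) - (A - θ * G)) +
        (A - ζ * m * W) - θ * (G - W * G0) := by
    rw [hζ]
    ring
  rw [hfin]
  have h5 : |θ * (G - W * G0)| ≤ θ * (η₁ + 2 * ζ / R) := by
    rw [abs_mul, abs_of_pos hθ]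
    exact mul_le_mul_of_nonneg_left t3 hθ.le
  refine (abs_sub _ _).trans ?_
  refine (add_le_add (abs_add_le _ _) h5).trans ?_
  linarith

theorem r8_pt2 (Y X e : α → ℝ) (N : ℕ) {σ m v K η₁ R : ℝ} (hσ : 1 ≤ σ) (hv : 0 ≤ v)
    (hK : 0 ≤ K) (hη : 0 ≤ η₁)
    (hR : 0 < R) (hY : Ex (fun x => |Y x|) ≤ 1) (he : ∀ x, |e x| ≤ 1)
    (hA : ∀ ζ : ℝ, 0 ≤ ζ → |Ex (fun x => Y x * Real.sin (ζ * X x)) -
      ζ * m * Real.exp (-v * ζ ^ 2 / 2)| ≤ 4 * (ζ + ζ ^ 7) * K)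
    (hG : ∀ ζ ∈ Set.Icc 0 R, |Ex (fun x => Y x * e x * Real.cos (ζ * X x)) -
      Real.exp (-v * ζ ^ 2 / 2) * Ex (fun x => Y x * e x)| ≤ η₁)
    {θ : ℝ} (hθ : 0 < θ) (hθ2 : θ < Real.pi / 2) :
    |(Real.cos θ ^ N / Real.sin θ) * Ex (fun x => Y x * Real.sin ((σ * X x - e x) * θ)) -
      (Real.cos θ ^ N * (θ / Real.sin θ) * Real.exp (-(v * σ ^ 2) * θ ^ 2 / 2)) *
        (σ * m - Ex (fun x => Y x * e x))| ≤
      Real.pi / 2 * (Real.exp (-(Real.sqrt N * θ) ^ 2 / 2) *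
        ((1 + 2 * σ / R) * θ + (4 * K * σ + η₁) + (4 * K * σ ^ 7) * θ ^ 6)) := by
  have hpi := Real.pi_pos
  have hpi4 := Real.pi_le_four
  have h1 := r8_point Y X e hσ hv hη hR hY he hA hG hθ (by linarith)
  set E := Ex (fun x => Y x * Real.sin ((σ * X x - e x) * θ)) with hE
  set G0 := Ex (fun x => Y x * e x) with hG0
  have hsin : 0 < Real.sin θ := Real.sin_pos_of_pos_of_lt_pi hθ (by linarith)
  have hcos : 0 ≤ Real.cos θ := Real.cos_nonneg_of_mem_Icc ⟨by linarith, by linarith⟩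
  have e1 : (Real.cos θ ^ N / Real.sin θ) * E -
      (Real.cos θ ^ N * (θ / Real.sin θ) * Real.exp (-(v * σ ^ 2) * θ ^ 2 / 2)) *
        (σ * m - G0) = (Real.cos θ ^ N / Real.sin θ) *
        (E - θ * Real.exp (-v * (σ * θ) ^ 2 / 2) * (σ * m - G0)) := by
    have h2 : -(v * σ ^ 2) * θ ^ 2 / 2 = -v * (σ * θ) ^ 2 / 2 := by ring
    rw [h2]
    ring
  have hcN : Real.cos θ ^ N ≤ Real.exp (-(Real.sqrt N * θ) ^ 2 / 2) := by
    have h2 : Real.cos θ ≤ Real.exp (-θ ^ 2 / 2) := by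
      refine (cos_le_exp4 (by rw [abs_of_pos hθ]; exact hθ2.le)).trans ?_
      rw [Real.exp_le_exp]
      have : 0 ≤ θ ^ 4 / 12 := by positivity
      linarith
    calc Real.cos θ ^ N ≤ Real.exp (-θ ^ 2 / 2) ^ N := pow_le_pow_left₀ hcos h2 N
      _ = Real.exp (-(Real.sqrt N * θ) ^ 2 / 2) := by
        rw [← Real.exp_nat_mul, mul_pow, Real.sq_sqrt (Nat.cast_nonneg N)]
        congr 1
        ring
  have hsin2 : 1 / Real.sin θ ≤ Real.pi / 2 * (1 / θ) := by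
    have h2 := Real.mul_le_sin hθ.le hθ2.le
    rw [div_mul_div_comm, mul_one, div_le_div_iff₀ hsin (by positivity)]
    have h3 : 2 / Real.pi * θ * Real.pi = 2 * θ := by
      field_simp
    have h4 := mul_le_mul_of_nonneg_right h2 hpi.le
    rw [h3] at h4
    linarith
  have hco : Real.cos θ ^ N / Real.sin θ ≤
      Real.exp (-(Real.sqrt N * θ) ^ 2 / 2) * (Real.pi / 2 * (1 / θ)) := by
    rw [div_eq_mul_one_div]
    exact mul_le_mul hcN hsin2 (by positivity) (Real.exp_pos _).le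
  rw [e1, abs_mul, abs_of_nonneg (div_nonneg (pow_nonneg hcos N) hsin.le)]
  refine (mul_le_mul hco h1 (abs_nonneg _) (by positivity)).trans (le_of_eq ?_)
  field_simp
  ring

theorem r8_core (Y X e : α → ℝ) (N : ℕ) (hN : 1 ≤ N) {σ m v K η₁ R E V : ℝ} (hσ : 1 ≤ σ)
    (hv : 0 ≤ v) (hK : 0 ≤ K) (hη : 0 ≤ η₁)
    (hR : 0 < R) (hY : Ex (fun x => |Y x|) ≤ 1) (he : ∀ x, |e x| ≤ 1)
    (hA : ∀ ζ : ℝ, 0 ≤ ζ → |Ex (fun x => Y x * Real.sin (ζ * X x)) -
      ζ * m * Real.exp (-v * ζ ^ 2 / 2)| ≤ 4 * (ζ + ζ ^ 7) * K)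
    (hG : ∀ ζ ∈ Set.Icc 0 R, |Ex (fun x => Y x * e x * Real.cos (ζ * X x)) -
      Real.exp (-v * ζ ^ 2 / 2) * Ex (fun x => Y x * e x)| ≤ η₁)
    (hm : |m| ≤ 3 / 2) (hE : E = N / σ ^ 2) (hV : V = v + E) (hV1 : 1 / 2 ≤ V) :
    |(2 / Real.pi) * (∫ θ in Set.Ioo (0 : ℝ) (Real.pi / 2), (Real.cos θ ^ N / Real.sin θ) *
        Ex (fun x => Y x * Real.sin ((σ * X x - e x) * θ))) -
        Real.sqrt (2 / Real.pi) * m / Real.sqrt V +
        Real.sqrt (2 / Real.pi) * (1 / σ) * Ex (fun x => Y x * e x) / Real.sqrt V| ≤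
      (1 / σ) * (1.3 * η₁ / Real.sqrt E + 2 / (E * R)) +
        6 * (1 / Real.sqrt E + 15 / (E ^ 3 * Real.sqrt E)) * K +
        (1 / σ ^ 2) * (1 / E + 30) := by
  have hpi := Real.pi_pos
  have hpi3 := Real.pi_gt_three
  have hpi2 := Real.pi_lt_d2
  have hσ0 : 0 < σ := by linarith
  have hN0 : (0 : ℝ) < N := by exact_mod_cast hN
  have hE0 : 0 < E := by rw [hE]; positivity
  have hNE : (N : ℝ) = E * σ ^ 2 := by
    rw [hE]
    field_simp
  set G0 := Ex (fun x => Y x * e x) with hG0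
  set s := Real.sqrt N with hs
  have hs0 : 0 < s := Real.sqrt_pos.2 hN0
  set A := 1 + 2 * σ / R with hAdef
  set B := 4 * K * σ + η₁ with hBdef
  set C := 4 * K * σ ^ 7 with hCdef
  have hA0 : 0 ≤ A := by positivity
  have hB0 : 0 ≤ B := by positivity
  have hC0 : 0 ≤ C := by positivity
  obtain ⟨hHi, hHe⟩ := r8_H (A := A) (B := B) (C := C) hs0
  set D : ℝ → ℝ := fun θ =>
    (Real.cos θ ^ N / Real.sin θ) * Ex (fun x => Y x * Real.sin ((σ * X x - e x) * θ)) -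
      (Real.cos θ ^ N * (θ / Real.sin θ) * Real.exp (-(v * σ ^ 2) * θ ^ 2 / 2)) *
        (σ * m - G0) with hD
  have hDle : ∀ θ ∈ Set.Ioo (0 : ℝ) (Real.pi / 2), ‖D θ‖ ≤
      Real.pi / 2 * (Real.exp (-(s * θ) ^ 2 / 2) * (A * θ + B + C * θ ^ 6)) := by
    intro θ hθ
    exact r8_pt2 Y X e N hσ hv hK hη hR hY he hA hG hθ.1 hθ.2
  have hHi2 : IntegrableOn (fun θ : ℝ => Real.pi / 2 *
      (Real.exp (-(s * θ) ^ 2 / 2) * (A * θ + B + C * θ ^ 6))) (Set.Ioi 0) :=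
    hHi.const_mul (Real.pi / 2)
  have hHi3 : IntegrableOn (fun θ : ℝ => Real.pi / 2 *
      (Real.exp (-(s * θ) ^ 2 / 2) * (A * θ + B + C * θ ^ 6)))
      (Set.Ioo (0 : ℝ) (Real.pi / 2)) := hHi2.mono_set (fun θ hθ => hθ.1)
  have hmeasE : Measurable (fun θ : ℝ => Ex (fun x => Y x * Real.sin ((σ * X x - e x) * θ))) := by
    unfold Ex
    fun_prop
  have hmeasF : Measurable (fun θ : ℝ => (Real.cos θ ^ N / Real.sin θ) *
      Ex (fun x => Y x * Real.sin ((σ * X x - e x) * θ))) :=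
    ((Real.measurable_cos.pow_const N).div Real.measurable_sin).mul hmeasE
  have hmeasT : Measurable (fun θ : ℝ =>
      Real.cos θ ^ N * (θ / Real.sin θ) * Real.exp (-(v * σ ^ 2) * θ ^ 2 / 2)) := by
    refine ((Real.measurable_cos.pow_const N).mul
      (measurable_id.div Real.measurable_sin)).mul ?_
    fun_prop
  have hDi : IntegrableOn D (Set.Ioo (0 : ℝ) (Real.pi / 2)) := by
    apply MeasureTheory.Integrable.mono' hHi3
    · exact (hmeasF.sub (hmeasT.mul_const _)).aestronglyMeasurable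
    · exact (MeasureTheory.ae_restrict_iff' measurableSet_Ioo).2
        (Filter.Eventually.of_forall hDle)
  have hTi : IntegrableOn (fun θ : ℝ =>
      Real.cos θ ^ N * (θ / Real.sin θ) * Real.exp (-(v * σ ^ 2) * θ ^ 2 / 2))
      (Set.Ioo (0 : ℝ) (Real.pi / 2)) := by
    apply MeasureTheory.Measure.integrableOn_of_bounded (M := Real.pi / 2)
    · exact measure_Ioo_lt_top.ne
    · exact hmeasT.aestronglyMeasurable
    · refine (MeasureTheory.ae_restrict_iff' measurableSet_Ioo).2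
        (Filter.Eventually.of_forall fun θ hθ => ?_)
      have hθ0 := hθ.1
      have hsin : 0 < Real.sin θ := Real.sin_pos_of_pos_of_lt_pi hθ.1 (by linarith [hθ.2])
      have hcos : 0 ≤ Real.cos θ := Real.cos_nonneg_of_mem_Icc ⟨by linarith [hθ.1], hθ.2.le⟩
      have h1 : Real.cos θ ^ N ≤ 1 := pow_le_one₀ hcos (Real.cos_le_one θ)
      have h2 : θ / Real.sin θ ≤ Real.pi / 2 := by
        rw [div_le_iff₀ hsin]
        have h3 := Real.mul_le_sin hθ.1.le hθ.2.le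
        have h4 := mul_le_mul_of_nonneg_left h3 (by positivity : 0 ≤ Real.pi / 2)
        have h5 : Real.pi / 2 * (2 / Real.pi * θ) = θ := by
          field_simp
        rw [h5] at h4
        exact h4
      have h3 : Real.exp (-(v * σ ^ 2) * θ ^ 2 / 2) ≤ 1 := by
        rw [Real.exp_le_one_iff]
        have : 0 ≤ v * σ ^ 2 * θ ^ 2 := by positivity
        linarith
      rw [Real.norm_eq_abs, abs_of_nonneg (by positivity)]
      calc Real.cos θ ^ N * (θ / Real.sin θ) * Real.exp (-(v * σ ^ 2) * θ ^ 2 / 2)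
          ≤ 1 * (Real.pi / 2) * 1 := by
            apply mul_le_mul _ h3 (Real.exp_pos _).le (by positivity)
            exact mul_le_mul h1 h2 (by positivity) zero_le_one
        _ = Real.pi / 2 := by ring
  set T0 := ∫ θ in Set.Ioo (0 : ℝ) (Real.pi / 2),
    Real.cos θ ^ N * (θ / Real.sin θ) * Real.exp (-(v * σ ^ 2) * θ ^ 2 / 2) with hT0
  have hsplit : (∫ θ in Set.Ioo (0 : ℝ) (Real.pi / 2), (Real.cos θ ^ N / Real.sin θ) *
        Ex (fun x => Y x * Real.sin ((σ * X x - e x) * θ))) =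
      (∫ θ in Set.Ioo (0 : ℝ) (Real.pi / 2), D θ) + T0 * (σ * m - G0) := by
    rw [hT0, ← MeasureTheory.integral_mul_const, ← MeasureTheory.integral_add hDi
      (hTi.mul_const _)]
    congr 1
    funext θ
    rw [hD]
    ring
  have hDint : |∫ θ in Set.Ioo (0 : ℝ) (Real.pi / 2), D θ| ≤
      Real.pi / 2 * (A / s ^ 2 + B * Real.sqrt (Real.pi / 2) / s +
        C * (15 * Real.sqrt (Real.pi / 2)) / s ^ 7) := by
    have h1 : ‖∫ θ in Set.Ioo (0 : ℝ) (Real.pi / 2), D θ‖ ≤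
        ∫ θ in Set.Ioo (0 : ℝ) (Real.pi / 2), Real.pi / 2 *
          (Real.exp (-(s * θ) ^ 2 / 2) * (A * θ + B + C * θ ^ 6)) :=
      MeasureTheory.norm_integral_le_of_norm_le hHi3
        ((MeasureTheory.ae_restrict_iff' measurableSet_Ioo).2
          (Filter.Eventually.of_forall hDle))
    have h2 : ∫ θ in Set.Ioo (0 : ℝ) (Real.pi / 2), Real.pi / 2 *
          (Real.exp (-(s * θ) ^ 2 / 2) * (A * θ + B + C * θ ^ 6)) ≤
        ∫ θ in Set.Ioi (0 : ℝ), Real.pi / 2 *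
          (Real.exp (-(s * θ) ^ 2 / 2) * (A * θ + B + C * θ ^ 6)) := by
      apply MeasureTheory.setIntegral_mono_set hHi2
      · refine (MeasureTheory.ae_restrict_iff' measurableSet_Ioi).2
          (Filter.Eventually.of_forall fun θ hθ => ?_)
        have hθ0 : (0 : ℝ) < θ := hθ
        show (0 : ℝ) ≤ _
        positivity
      · exact Filter.Eventually.of_forall Set.Ioo_subset_Ioi_self
    have h3 : ∫ θ in Set.Ioi (0 : ℝ), Real.pi / 2 *
          (Real.exp (-(s * θ) ^ 2 / 2) * (A * θ + B + C * θ ^ 6)) =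
        Real.pi / 2 * (A / s ^ 2 + B * Real.sqrt (Real.pi / 2) / s +
        C * (15 * Real.sqrt (Real.pi / 2)) / s ^ 7) := by
      rw [MeasureTheory.integral_const_mul, hHe]
    rw [h3] at h2
    rw [Real.norm_eq_abs] at h1
    exact h1.trans h2
  have hI := cos_pow_integral N hN (v * σ ^ 2) (by positivity)
  rw [← hT0] at hI
  have hNV : (N : ℝ) + v * σ ^ 2 = σ ^ 2 * V := by
    rw [hV, hNE]
    ring
  have hV0 : 0 < V := by linarith
  have hsV : Real.sqrt (σ ^ 2 * V) = σ * Real.sqrt V := by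
    rw [Real.sqrt_mul (sq_nonneg σ), Real.sqrt_sq hσ0.le]
  rw [hNV, hsV] at hI
  set q := Real.sqrt V with hq
  have hq0 : 0 < q := Real.sqrt_pos.2 hV0
  have hq7 : 7 / 10 ≤ q := Real.le_sqrt_of_sq_le (by norm_num; linarith)
  have hsE : s = σ * Real.sqrt E := by
    rw [hs, hNE, mul_comm, Real.sqrt_mul (sq_nonneg σ), Real.sqrt_sq hσ0.le]
  set r := Real.sqrt E with hr
  have hr0 : 0 < r := Real.sqrt_pos.2 hE0
  have hr2 : r ^ 2 = E := Real.sq_sqrt hE0.le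
  set p := Real.sqrt (Real.pi / 2) with hp
  have hp0 : 0 ≤ p := Real.sqrt_nonneg _
  have hp13 : p ≤ 13 / 10 := by
    rw [hp, Real.sqrt_le_left (by norm_num)]
    norm_num at hpi2 ⊢
    linarith
  have hpp : (2 / Real.pi) * p = Real.sqrt (2 / Real.pi) := by
    calc (2 / Real.pi) * Real.sqrt (Real.pi / 2)
        = Real.sqrt ((2 / Real.pi) ^ 2) * Real.sqrt (Real.pi / 2) := by
          rw [Real.sqrt_sq (by positivity)]
      _ = Real.sqrt ((2 / Real.pi) ^ 2 * (Real.pi / 2)) :=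
          (Real.sqrt_mul (by positivity) _).symm
      _ = Real.sqrt (2 / Real.pi) := by
          congr 1
          field_simp
  have hG01 : |G0| ≤ 1 := by
    refine (Ex_abs_le _).trans ((Ex_mono fun x => ?_).trans hY)
    rw [abs_mul]
    calc |Y x| * |e x| ≤ |Y x| * 1 := mul_le_mul_of_nonneg_left (he x) (abs_nonneg _)
      _ = |Y x| := by ring
  have hmG : |σ * m - G0| ≤ 5 / 2 * σ := by
    have h1 : |σ * m - G0| ≤ |σ * m| + |G0| := abs_sub _ _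
    rw [abs_mul, abs_of_pos hσ0] at h1
    have h2 : σ * |m| ≤ σ * (3 / 2) := mul_le_mul_of_nonneg_left hm hσ0.le
    linarith
  rw [hsplit]
  set ID := ∫ θ in Set.Ioo (0 : ℝ) (Real.pi / 2), D θ with hID
  have hdec : (2 / Real.pi) * (ID + T0 * (σ * m - G0)) -
        Real.sqrt (2 / Real.pi) * m / q + Real.sqrt (2 / Real.pi) * (1 / σ) * G0 / q =
      (2 / Real.pi) * ID + (2 / Real.pi) * ((T0 - p / (σ * q)) * (σ * m - G0)) := by
    rw [← hpp]
    field_simp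
    ring
  rw [hdec]
  have b1 : |(2 / Real.pi) * ID| ≤ A / s ^ 2 + B * p / s + C * (15 * p) / s ^ 7 := by
    rw [abs_mul, abs_of_pos (by positivity : (0 : ℝ) < 2 / Real.pi)]
    refine (mul_le_mul_of_nonneg_left hDint (by positivity)).trans (le_of_eq ?_)
    have : (2 / Real.pi) * (Real.pi / 2 * (A / s ^ 2 + B * p / s + C * (15 * p) / s ^ 7)) =
      ((2 / Real.pi) * (Real.pi / 2)) * (A / s ^ 2 + B * p / s + C * (15 * p) / s ^ 7) := by
      ring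
    rw [this, div_mul_div_comm, mul_comm 2 Real.pi, div_self (by positivity), one_mul]
  have b2 : |(2 / Real.pi) * ((T0 - p / (σ * q)) * (σ * m - G0))| ≤ 30 / σ ^ 2 := by
    rw [abs_mul, abs_mul, abs_of_pos (by positivity : (0 : ℝ) < 2 / Real.pi)]
    have h1 : |T0 - p / (σ * q)| * |σ * m - G0| ≤
        6 / (σ ^ 2 * V * (σ * q)) * (5 / 2 * σ) :=
      mul_le_mul hI hmG (abs_nonneg _) (by positivity)
    have h2 : 6 / (σ ^ 2 * V * (σ * q)) * (5 / 2 * σ) = 15 / (V * q) / σ ^ 2 := by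
      field_simp
      norm_num
    have h3 : 15 / (V * q) ≤ 15 / (35 / 100) := by
      apply div_le_div_of_nonneg_left (by norm_num) (by norm_num)
      nlinarith
    have h4 : 2 / Real.pi ≤ 2 / 3 := by
      rw [div_le_div_iff₀ hpi (by norm_num)]
      linarith
    calc 2 / Real.pi * (|T0 - p / (σ * q)| * |σ * m - G0|)
        ≤ 2 / 3 * (15 / (V * q) / σ ^ 2) := by
          rw [← h2]
          exact mul_le_mul h4 h1 (by positivity) (by norm_num)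
      _ ≤ 2 / 3 * (15 / (35 / 100) / σ ^ 2) := by
          apply mul_le_mul_of_nonneg_left _ (by norm_num)
          exact div_le_div_of_nonneg_right h3 (by positivity)
      _ ≤ 30 / σ ^ 2 := by
          rw [← mul_div_assoc]
          apply div_le_div_of_nonneg_right _ (by positivity)
          norm_num
  have b3 : A / s ^ 2 = (1 / σ ^ 2) * (1 / E) + (1 / σ) * (2 / (E * R)) := by
    rw [hAdef, hsE, mul_pow, hr2]
    field_simp
  have b4 : B * p / s ≤ 6 * (1 / r) * K + (1 / σ) * (1.3 * η₁ / r) := by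
    have h1 : B * p / s = 4 * p * (1 / r) * K + (1 / σ) * (p * η₁ / r) := by
      rw [hBdef, hsE]
      field_simp
    rw [h1]
    apply add_le_add
    · apply mul_le_mul_of_nonneg_right _ hK
      apply mul_le_mul_of_nonneg_right _ (by positivity)
      linarith
    · apply mul_le_mul_of_nonneg_left _ (by positivity)
      apply div_le_div_of_nonneg_right _ hr0.le
      apply mul_le_mul_of_nonneg_right _ hη
      norm_num
      exact hp13
  have b5 : C * (15 * p) / s ^ 7 ≤ 6 * (15 / (E ^ 3 * r)) * K := by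
    have h1 : C * (15 * p) / s ^ 7 = 4 * p * (15 / (E ^ 3 * r)) * K := by
      rw [hCdef, hsE, ← hr2]
      field_simp
    rw [h1]
    apply mul_le_mul_of_nonneg_right _ hK
    apply mul_le_mul_of_nonneg_right _ (by positivity)
    linarith
  refine (abs_add_le _ _).trans ?_
  refine (add_le_add b1 b2).trans ?_
  have h6 : (1 / σ) * (1.3 * η₁ / r + 2 / (E * R)) + 6 * (1 / r + 15 / (E ^ 3 * r)) * K +
        (1 / σ ^ 2) * (1 / E + 30) =
      ((1 / σ ^ 2) * (1 / E) + (1 / σ) * (2 / (E * R))) +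
        (6 * (1 / r) * K + (1 / σ) * (1.3 * η₁ / r)) + 6 * (15 / (E ^ 3 * r)) * K +
        30 / σ ^ 2 := by
    ring
  rw [h6, b3]
  linarith

end core

/-- ROW REG-R8 (main asymptotic formula for the resampled sign).

PROOF.  `N = L.card`, `E = N/σ²`, `v = ∑_I b²`, `V = v + E`, `Ŷ = lfS I ν`, `X = lfS I b`, `e = saw (σX + N)`,
`K = δ √κ_b + κ_b + δ⁴` with `κ_b = ∑_I b⁴`.  By R8b the expectation is `(2/π) ∫_0^{π/2} (cos^N θ/sin θ) E[Ŷ sin ((σX - e)θ)] dθ`.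
`sin ((σX-e)θ) = sin (σXθ) cos (eθ) - cos (σXθ) sin (eθ)`, `|cos (eθ) - 1| ≤ θ²/2`, `|sin (eθ) - eθ| ≤ θ³/6` (`|e| ≤ 1`), so
`E[Ŷ sin ((σX-e)θ)] = E[Ŷ sin (σXθ)] - θ E[Ŷ e cos (σXθ)] + O(θ²)`, constant `1` (`E|Ŷ| ≤ 1`, `θ ≤ π/2`).
We use `θ/sin θ ≤ π/2` and `0 ≤ cos^N θ ≤ e^{-Nθ²/2}` on `(0, π/2)`.
(0) The `O(θ²)` term contributes `≤ (2/π)(π/2) ∫ θ e^{-Nθ²/2} ≤ 1/N = (1/σ²)(1/E)`.
(1) `E[Ŷ sin (ζX)]`, `ζ = σθ`: by R8a it is `ζ (ν·b) e^{-vζ²/2}` up to `4(ζ+ζ⁷)K`.  The error contributes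
`≤ (2/π)(π/2) ∫_0^∞ (e^{-Nθ²/2}/θ) 4 (σθ + (σθ)⁷) K dθ = 4K √(π/2) (σ/√N + 15 σ⁷/N^{7/2}) ≤ 6K (E^{-1/2} + 15 E^{-7/2})`.
The main term is `(2/π) (ν·b) σ 𝓘`, `𝓘 = ∫_0^{π/2} cos^N θ (θ/sin θ) e^{-vσ²θ²/2} dθ`; by R6b (`v := vσ²`)
`𝓘 = √(π/2)/(σ√V) + O(6/(σ³ V^{3/2}))`, `V ≥ 1/2` so `6/V^{3/2} ≤ 17`: it is `√(2/π) (ν·b)/√V` up to
`(2/π) √2 · 17/σ² ≤ 16/σ²`.
(2) `- (2/π) ∫ cos^N θ (θ/sin θ) G(θ) dθ`, `G(θ) = E[Ŷ e cos (σXθ)]`, `G₀ = G(0)`, `|G| ≤ 1`.  For `σθ ≤ R`: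
`|G(θ) - e^{-vσ²θ²/2} G₀| ≤ η₁` (`hdec`): contributes `≤ η₁ ∫ e^{-Nθ²/2} ≤ 1.26 η₁/√N = 1.26 η₁/(σ√E)`.  For `θ > R/σ` the
difference is `≤ 2`: contributes `≤ 2 ∫_{R/σ}^∞ e^{-Nθ²/2} ≤ 2σ/(NR) = 2/(σER)`.  The main term is `-(2/π) G₀ 𝓘`, which is
`- √(2/π) G₀/(σ√V)` up to `(2/π) 17/σ³ ≤ 11/σ²` (`σ ≥ 1`).
Sum up (`16 + 11 ≤ 30`). -/
theorem resampled_sign {I L : Finset (Fin n)} (hIL : Disjoint I L) (hL : 1 ≤ L.card) {σ : ℝ}
    (hσ : 1 ≤ σ) {b ν : Fin n → ℝ} {δ η₁ R E V : ℝ}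
    (hne : ∀ x : Fin n → Bool, ∀ m : ℤ, σ * lfS I b x + L.card ≠ 2 * m)
    (hδ0 : 0 ≤ δ) (hδ : ∀ i ∈ I, |b i| ≤ δ) (hb : ∑ i ∈ I, b i ^ 2 ≤ 2)
    (hν : ∑ i ∈ I, ν i ^ 2 ≤ 1) (hη₁ : 0 ≤ η₁) (hR : 0 < R) (hE : E = L.card / σ ^ 2)
    (hV : V = ∑ i ∈ I, b i ^ 2 + E) (hV1 : 1 / 2 ≤ V)
    (hdec : ∀ ζ ∈ Set.Icc 0 R,
      |Ex (fun x : Fin n → Bool =>
          lfS I ν x * saw (σ * lfS I b x + L.card) * Real.cos (ζ * lfS I b x)) -
        Real.exp (-(∑ i ∈ I, b i ^ 2) * ζ ^ 2 / 2) *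
          Ex (fun x : Fin n → Bool => lfS I ν x * saw (σ * lfS I b x + L.card))| ≤ η₁) :
    |Ex (fun x : Fin n → Bool => lfS I ν x * sg (lfS I b x + (1 / σ) * lfS L (fun _ => 1) x)) -
        Real.sqrt (2 / Real.pi) * (∑ i ∈ I, ν i * b i) / Real.sqrt V +
        Real.sqrt (2 / Real.pi) * (1 / σ) *
          Ex (fun x : Fin n → Bool => lfS I ν x * saw (σ * lfS I b x + L.card)) / Real.sqrt V| ≤
      (1 / σ) * (1.3 * η₁ / Real.sqrt E + 2 / (E * R)) +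
        6 * (1 / Real.sqrt E + 15 / (E ^ 3 * Real.sqrt E)) *
          (δ * Real.sqrt (∑ i ∈ I, b i ^ 4) + ∑ i ∈ I, b i ^ 4 + δ ^ 4) +
        (1 / σ ^ 2) * (1 / E + 30) := by
  have hσ0 : 0 < σ := by linarith
  have hvnn : 0 ≤ ∑ i ∈ I, b i ^ 2 := Finset.sum_nonneg fun i _ => sq_nonneg _
  have hκnn : 0 ≤ ∑ i ∈ I, b i ^ 4 := Finset.sum_nonneg fun i _ => by positivity
  rw [Ex_sg_formula hIL hσ0 hne]
  have hm : |∑ i ∈ I, ν i * b i| ≤ 3 / 2 := by
    apply abs_le_of_sq_le_sq _ (by norm_num)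
    have h1 := Finset.sum_mul_sq_le_sq_mul_sq I ν b
    have h2 : (∑ i ∈ I, ν i ^ 2) * (∑ i ∈ I, b i ^ 2) ≤ 1 * 2 :=
      mul_le_mul hν hb hvnn zero_le_one
    linarith
  exact r8_core (fun x : Fin n → Bool => lfS I ν x) (fun x => lfS I b x)
    (fun x => saw (σ * lfS I b x + L.card)) L.card hL hσ hvnn (by positivity) hη₁ hR
    (Ex_abs_lfS_le I ν hν) (fun x => abs_saw_le _)
    (fun ζ hζ => Ex_lin_sin hδ0 hδ hb hν hζ) hdec hm hE hV hV1

end Pool.Agent.MP_cb3c9c_an.REG
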