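import Pool.Agent.MP_cb3c9c_an.REG.A5

set_option autoImplicit false

open Finset MeasureTheory
open scoped BigOperators

namespace Pool.Agent.MP_cb3c9c_an.REG

open Pool.Agent.MP_cb3c9c_an.TwoBlock

variable {n : ℕ}

lemma r8a_pow_le {ζ : ℝ} (hζ : 0 ≤ ζ) (k : ℕ) (hk1 : 1 ≤ k) (hk7 : k ≤ 7) :
    ζ ^ k ≤ ζ + ζ ^ 7 := by
  rcases le_total ζ 1 with h | h
  · have h1 : ζ ^ k ≤ ζ ^ 1 := pow_le_pow_of_le_one hζ h hk1
    have h7 : 0 ≤ ζ ^ 7 := by positivity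
    rw [pow_one] at h1
    linarith
  · have h1 : ζ ^ k ≤ ζ ^ 7 := pow_le_pow_right₀ h hk7
    linarith

lemma r8a_Ex_sin {I : Finset (Fin n)} {b : Fin n → ℝ} {ζ : ℝ} {i : Fin n} (hi : i ∈ I) :
    Ex (fun x : Fin n → Bool => sb (x i) * Real.sin (ζ * lfS I b x)) =
      Real.sin (ζ * b i) * ∏ j ∈ I.erase i, Real.cos (ζ * b j) := by
  rw [Ex_sb_mul]
  have h1 : DI i (fun x : Fin n → Bool => Real.sin (ζ * lfS I b x)) =
      fun x => Real.sin (ζ * b i) *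
        Real.cos (lfS (I.erase i) (fun j => ζ * b j) x + 0) := by
    funext x
    have h2 : lfS (I.erase i) (fun j => ζ * b j) x = ζ * lfS (I.erase i) b x := by
      unfold lfS; rw [Finset.mul_sum]; exact Finset.sum_congr rfl fun j _ => by ring
    simp only [DI]
    rw [lfS_up I b hi, lfS_dn I b hi, h2, mul_add, mul_sub, Real.sin_add, Real.sin_sub, add_zero]
    ring
  rw [h1, Ex_mul, Ex_cos]
  simp

lemma r8a_expand {I : Finset (Fin n)} {b ν : Fin n → ℝ} {ζ : ℝ} :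
    Ex (fun x : Fin n → Bool => lfS I ν x * Real.sin (ζ * lfS I b x)) =
      ∑ i ∈ I, ν i * (Real.sin (ζ * b i) * ∏ j ∈ I.erase i, Real.cos (ζ * b j)) := by
  have h1 : (fun x : Fin n → Bool => lfS I ν x * Real.sin (ζ * lfS I b x)) =
      fun x => ∑ i ∈ I, ν i * (sb (x i) * Real.sin (ζ * lfS I b x)) := by
    funext x
    have h2 : lfS I ν x = ∑ i ∈ I, ν i * sb (x i) := rfl
    rw [h2, Finset.sum_mul]
    exact Finset.sum_congr rfl fun i _ => by ring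
  rw [h1, Ex_sum]
  refine Finset.sum_congr rfl fun i hi => ?_
  rw [Ex_mul, r8a_Ex_sin hi]

lemma r8a_sin {y : ℝ} (h : |y| ≤ 1) : |Real.sin y - y| ≤ |y| ^ 3 / 4 := by
  have h1 := Real.sin_bound h
  have h2 : |y - y ^ 3 / 6 - y| = |y| ^ 3 / 6 := by
    rw [show y - y ^ 3 / 6 - y = -(y ^ 3 / 6) by ring, abs_neg, abs_div, abs_pow]
    norm_num
  have h3 : |Real.sin y - y| ≤ |Real.sin y - (y - y ^ 3 / 6)| + |y - y ^ 3 / 6 - y| := by
    have := abs_add_le (Real.sin y - (y - y ^ 3 / 6)) (y - y ^ 3 / 6 - y)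
    rwa [show Real.sin y - (y - y ^ 3 / 6) + (y - y ^ 3 / 6 - y) = Real.sin y - y by ring] at this
  have h4 : |y| ^ 5 ≤ |y| ^ 3 := pow_le_pow_of_le_one (abs_nonneg y) h (by norm_num)
  have h5 : 0 ≤ |y| ^ 3 := by positivity
  rw [h2] at h3
  linarith

lemma r8a_exp_sub {p q : ℝ} (hp : 0 ≤ p) (hpq : p ≤ q) :
    Real.exp (-p) - Real.exp (-q) ≤ q - p := by
  have h1 : Real.exp (-q) = Real.exp (-p) * Real.exp (-(q - p)) := by
    rw [← Real.exp_add]; congr 1; ring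
  have h2 : 1 - (q - p) ≤ Real.exp (-(q - p)) := by
    have := Real.add_one_le_exp (-(q - p)); linarith
  have h3 : Real.exp (-p) ≤ 1 := Real.exp_le_one_iff.mpr (by linarith)
  have h4 : 0 < Real.exp (-p) := Real.exp_pos _
  rw [h1]
  nlinarith

/-- the product of the cosines, one of them removed -/
lemma r8a_prod {I : Finset (Fin n)} {y : Fin n → ℝ} (hy : ∀ i ∈ I, |y i| ≤ 1) {i : Fin n}
    (hi : i ∈ I) :
    |∏ j ∈ I.erase i, Real.cos (y j) - Real.exp (-(∑ j ∈ I, y j ^ 2) / 2)| ≤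
      (∑ j ∈ I, y j ^ 4) / 4 + y i ^ 2 / 2 := by
  have hmem : ∀ j ∈ I.erase i, |y j| ≤ 1 := fun j hj => hy j (Finset.mem_of_mem_erase hj)
  have hpi : (1 : ℝ) ≤ Real.pi / 2 := by linarith [Real.pi_gt_three]
  have hup : ∏ j ∈ I.erase i, Real.cos (y j) ≤ Real.exp (-(∑ j ∈ I.erase i, y j ^ 2 / 2)) := by
    rw [← Finset.sum_neg_distrib, Real.exp_sum]
    apply Finset.prod_le_prod
    · intro j hj
      apply Real.cos_nonneg_of_neg_pi_div_two_le_of_le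
      · have := (abs_le.mp (hmem j hj)).1; linarith
      · have := (abs_le.mp (hmem j hj)).2; linarith
    · intro j hj
      refine (cos_le_exp4 ((hmem j hj).trans hpi)).trans ?_
      apply Real.exp_le_exp.mpr
      have : 0 ≤ y j ^ 4 := by positivity
      linarith
  have hlo : Real.exp (-(∑ j ∈ I.erase i, (y j ^ 2 / 2 + y j ^ 4 / 4))) ≤
      ∏ j ∈ I.erase i, Real.cos (y j) := by
    rw [← Finset.sum_neg_distrib, Real.exp_sum]
    apply Finset.prod_le_prod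
    · intro j _; exact (Real.exp_pos _).le
    · intro j hj
      refine le_trans ?_ (exp_le_cos (hmem j hj))
      apply Real.exp_le_exp.mpr
      linarith
  set p := ∑ j ∈ I.erase i, y j ^ 2 / 2 with hp
  set r := ∑ j ∈ I.erase i, y j ^ 4 / 4 with hr
  have hp0 : 0 ≤ p := Finset.sum_nonneg fun j _ => by positivity
  have hr0 : 0 ≤ r := Finset.sum_nonneg fun j _ => by positivity
  rw [Finset.sum_add_distrib] at hlo
  have hq : (∑ j ∈ I, y j ^ 2) / 2 = p + y i ^ 2 / 2 := by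
    rw [hp, Finset.sum_div, ← Finset.sum_erase_add _ _ hi]
  have hrk : r ≤ (∑ j ∈ I, y j ^ 4) / 4 := by
    rw [hr, Finset.sum_div]
    exact Finset.sum_le_sum_of_subset_of_nonneg (Finset.erase_subset _ _)
      fun j _ _ => by positivity
  have hy2 : 0 ≤ y i ^ 2 := sq_nonneg _
  rw [neg_div, hq]
  have h1 := r8a_exp_sub (p := p) (q := p + y i ^ 2 / 2) hp0 (by linarith)
  have h2 := r8a_exp_sub (p := p) (q := p + r) hp0 (by linarith)
  have h3 : Real.exp (-(p + y i ^ 2 / 2)) ≤ Real.exp (-p) := Real.exp_le_exp.mpr (by linarith)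
  rw [abs_le]
  constructor <;> linarith

/-- ROW REG-R8a.

PROOF.  `y_i = ζ b_i`, `V = ∑_I b²`, `κ = ∑_I b⁴`.  `E[x_i sin (ζX)] = sin y_i ∏_{j ∈ I, j≠i} cos y_j` for `i ∈ I` (by
`Ex_sb_mul` and `Ex_cos` for `I.erase i`, `α = 0`: `D_i sin (ζX) = sin (y_i) cos (ζX_i)`), so the expectation is
`∑_I ν_i sin y_i ∏_{j≠i} cos y_j`.
Case `ζδ ≤ 1`: `|y_j| ≤ 1`, `-y²/2 - y⁴/4 ≤ log cos y ≤ -y²/2` (`exp_le_cos` A5; `cos y ≤ e^{-y²/2}`), so
`∏_{j≠i} cos y_j = exp (-Vζ²/2 + r)` with `-κζ⁴/4 ≤ r ≤ y_i²/2` hmm: both `e^{-p}` with exponents `p ≥ 0` differing by at most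
`κζ⁴/4 + y_i²/2`; `|e^{-p} - e^{-p'}| ≤ |p-p'|`.  `|sin y - y| ≤ |y|³/6`.  So
`|sin y_i ∏ - y_i e^{-Vζ²/2}| ≤ |y_i|³/6 + |y_i| (κζ⁴/4 + y_i²/2) = (2/3)|y_i|³ + |y_i| κζ⁴/4`, and
`∑ |ν_i| (..) ≤ (2/3) ζ³ (∑ b⁶)^{1/2} + (κζ⁵/4) (∑ b²)^{1/2} ≤ (2/3) ζ³ δ √κ + 0.36 ζ⁵ κ`; `ζ³, ζ⁵ ≤ ζ + ζ⁷`.
Case `ζδ > 1`: the left side is `≤ E|Ŷ| + ζ |ν·b| ≤ 1 + √2 ζ ≤ (ζδ)⁴ (1 + √2 ζ) ≤ δ⁴ (ζ⁴ + 1.5 ζ⁵) ≤ 4 δ⁴ (ζ + ζ⁷)`. -/
theorem Ex_lin_sin {I : Finset (Fin n)} {b ν : Fin n → ℝ} {δ ζ : ℝ} (hδ0 : 0 ≤ δ)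
    (hδ : ∀ i ∈ I, |b i| ≤ δ) (hb : ∑ i ∈ I, b i ^ 2 ≤ 2) (hν : ∑ i ∈ I, ν i ^ 2 ≤ 1)
    (hζ : 0 ≤ ζ) :
    |Ex (fun x : Fin n → Bool => lfS I ν x * Real.sin (ζ * lfS I b x)) -
        ζ * (∑ i ∈ I, ν i * b i) * Real.exp (-(∑ i ∈ I, b i ^ 2) * ζ ^ 2 / 2)| ≤
      4 * (ζ + ζ ^ 7) * (δ * Real.sqrt (∑ i ∈ I, b i ^ 4) + ∑ i ∈ I, b i ^ 4 + δ ^ 4) := by
  set V := ∑ i ∈ I, b i ^ 2 with hV
  set κ := ∑ i ∈ I, b i ^ 4 with hκ
  have hκ0 : 0 ≤ κ := Finset.sum_nonneg fun i _ => by positivity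
  have hV0 : 0 ≤ V := Finset.sum_nonneg fun i _ => by positivity
  have hsκ : 0 ≤ Real.sqrt κ := Real.sqrt_nonneg _
  have hA : 0 ≤ δ * Real.sqrt κ := mul_nonneg hδ0 hsκ
  have hT0 : 0 ≤ ζ + ζ ^ 7 := by positivity
  have hδ4 : 0 ≤ δ ^ 4 := by positivity
  have hsqrt2 : Real.sqrt 2 ≤ 3 / 2 := by
    rw [Real.sqrt_le_left (by norm_num)]; norm_num
  have hν1 : Real.sqrt (∑ i ∈ I, |ν i| ^ 2) ≤ 1 := by
    refine Real.sqrt_le_one.mpr ?_
    simpa only [sq_abs] using hν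
  -- first Cauchy-Schwarz
  have hcs1 : ∑ i ∈ I, |ν i| * |b i| ≤ 3 / 2 := by
    have h1 := Real.sum_mul_le_sqrt_mul_sqrt I (fun i => |ν i|) (fun i => |b i|)
    have h2 : Real.sqrt (∑ i ∈ I, |b i| ^ 2) ≤ 3 / 2 := by
      refine (Real.sqrt_le_sqrt ?_).trans hsqrt2
      simpa only [sq_abs] using hb
    calc ∑ i ∈ I, |ν i| * |b i| ≤ Real.sqrt (∑ i ∈ I, |ν i| ^ 2) * Real.sqrt (∑ i ∈ I, |b i| ^ 2) := h1
      _ ≤ 1 * (3 / 2) := mul_le_mul hν1 h2 (Real.sqrt_nonneg _) (by norm_num)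
      _ = 3 / 2 := by norm_num
  rcases le_or_gt (ζ * δ) 1 with hcase | hcase
  · -- small frequency
    have hy : ∀ i ∈ I, |ζ * b i| ≤ 1 := by
      intro i hi
      rw [abs_mul, abs_of_nonneg hζ]
      exact (mul_le_mul_of_nonneg_left (hδ i hi) hζ).trans hcase
    have hcs3 : ∑ i ∈ I, |ν i| * |b i| ^ 3 ≤ δ * Real.sqrt κ := by
      have h1 := Real.sum_mul_le_sqrt_mul_sqrt I (fun i => |ν i|) (fun i => |b i| ^ 3)
      have h2 : Real.sqrt (∑ i ∈ I, (|b i| ^ 3) ^ 2) ≤ δ * Real.sqrt κ := by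
        have h3 : ∑ i ∈ I, (|b i| ^ 3) ^ 2 ≤ δ ^ 2 * κ := by
          rw [hκ, Finset.mul_sum]
          apply Finset.sum_le_sum
          intro i hi
          have h4 : |b i| ^ 2 ≤ δ ^ 2 := pow_le_pow_left₀ (abs_nonneg _) (hδ i hi) 2
          have h5 : b i ^ 4 = |b i| ^ 4 := by
            rw [show (4 : ℕ) = 2 * 2 by norm_num, pow_mul, pow_mul, sq_abs]
          rw [h5]
          calc (|b i| ^ 3) ^ 2 = |b i| ^ 2 * |b i| ^ 4 := by ring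
            _ ≤ δ ^ 2 * |b i| ^ 4 := mul_le_mul_of_nonneg_right h4 (by positivity)
        calc Real.sqrt (∑ i ∈ I, (|b i| ^ 3) ^ 2) ≤ Real.sqrt (δ ^ 2 * κ) := Real.sqrt_le_sqrt h3
          _ = δ * Real.sqrt κ := by rw [Real.sqrt_mul (sq_nonneg δ), Real.sqrt_sq hδ0]
      calc ∑ i ∈ I, |ν i| * |b i| ^ 3
          ≤ Real.sqrt (∑ i ∈ I, |ν i| ^ 2) * Real.sqrt (∑ i ∈ I, (|b i| ^ 3) ^ 2) := h1
        _ ≤ 1 * (δ * Real.sqrt κ) := mul_le_mul hν1 h2 (Real.sqrt_nonneg _) (by norm_num)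
        _ = δ * Real.sqrt κ := one_mul _
    have hsumy2 : ∑ j ∈ I, (ζ * b j) ^ 2 = V * ζ ^ 2 := by
      rw [hV, Finset.sum_mul]; exact Finset.sum_congr rfl fun j _ => by ring
    have hsumy4 : ∑ j ∈ I, (ζ * b j) ^ 4 = κ * ζ ^ 4 := by
      rw [hκ, Finset.sum_mul]; exact Finset.sum_congr rfl fun j _ => by ring
    have key : ∀ i ∈ I, |ν i * (Real.sin (ζ * b i) * ∏ j ∈ I.erase i, Real.cos (ζ * b j)) -
        ζ * (ν i * b i) * Real.exp (-V * ζ ^ 2 / 2)| ≤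
        (3 / 4) * ζ ^ 3 * (|ν i| * |b i| ^ 3) + (κ * ζ ^ 5 / 4) * (|ν i| * |b i|) := by
      intro i hi
      have h1 := r8a_prod (y := fun j => ζ * b j) hy hi
      simp only [hsumy2, hsumy4] at h1
      rw [← neg_mul] at h1
      set P := ∏ j ∈ I.erase i, Real.cos (ζ * b j) with hP
      set E := Real.exp (-V * ζ ^ 2 / 2) with hE
      have hP1 : |P| ≤ 1 := by
        rw [hP, Finset.abs_prod]
        exact Finset.prod_le_one (fun j _ => abs_nonneg _) (fun j _ => Real.abs_cos_le_one _)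
      have h2 := r8a_sin (hy i hi)
      have h3 : ν i * (Real.sin (ζ * b i) * P) - ζ * (ν i * b i) * E =
          ν i * ((Real.sin (ζ * b i) - ζ * b i) * P + ζ * b i * (P - E)) := by ring
      rw [h3, abs_mul]
      have h4 : |(Real.sin (ζ * b i) - ζ * b i) * P + ζ * b i * (P - E)| ≤
          |ζ * b i| ^ 3 / 4 + |ζ * b i| * (κ * ζ ^ 4 / 4 + (ζ * b i) ^ 2 / 2) := by
        refine (abs_add_le _ _).trans ?_
        rw [abs_mul, abs_mul (ζ * b i)]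
        apply add_le_add
        · calc |Real.sin (ζ * b i) - ζ * b i| * |P| ≤ (|ζ * b i| ^ 3 / 4) * 1 :=
                mul_le_mul h2 hP1 (abs_nonneg _) (by positivity)
            _ = _ := mul_one _
        · exact mul_le_mul_of_nonneg_left h1 (abs_nonneg _)
      refine (mul_le_mul_of_nonneg_left h4 (abs_nonneg (ν i))).trans (le_of_eq ?_)
      have h5 : (ζ * b i) ^ 2 = (ζ * |b i|) ^ 2 := by
        rw [mul_pow, mul_pow, sq_abs]
      rw [h5, abs_mul, abs_of_nonneg hζ]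
      ring
    have hsum : Ex (fun x : Fin n → Bool => lfS I ν x * Real.sin (ζ * lfS I b x)) -
        ζ * (∑ i ∈ I, ν i * b i) * Real.exp (-V * ζ ^ 2 / 2) =
        ∑ i ∈ I, (ν i * (Real.sin (ζ * b i) * ∏ j ∈ I.erase i, Real.cos (ζ * b j)) -
          ζ * (ν i * b i) * Real.exp (-V * ζ ^ 2 / 2)) := by
      rw [r8a_expand, Finset.sum_sub_distrib, Finset.mul_sum, Finset.sum_mul]
    rw [hsum]
    have hbound : |∑ i ∈ I, (ν i * (Real.sin (ζ * b i) * ∏ j ∈ I.erase i, Real.cos (ζ * b j)) -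
          ζ * (ν i * b i) * Real.exp (-V * ζ ^ 2 / 2))| ≤
        (3 / 4) * ζ ^ 3 * (δ * Real.sqrt κ) + (κ * ζ ^ 5 / 4) * (3 / 2) := by
      refine (Finset.abs_sum_le_sum_abs _ _).trans ((Finset.sum_le_sum key).trans ?_)
      rw [Finset.sum_add_distrib, ← Finset.mul_sum, ← Finset.mul_sum]
      apply add_le_add
      · exact mul_le_mul_of_nonneg_left hcs3 (by positivity)
      · exact mul_le_mul_of_nonneg_left hcs1 (by positivity)
    refine hbound.trans ?_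
    have h3 := r8a_pow_le hζ 3 (by norm_num) (by norm_num)
    have h5 := r8a_pow_le hζ 5 (by norm_num) (by norm_num)
    have e1 : (3 / 4) * ζ ^ 3 * (δ * Real.sqrt κ) ≤ 4 * (ζ + ζ ^ 7) * (δ * Real.sqrt κ) := by
      apply mul_le_mul_of_nonneg_right _ hA
      linarith
    have e2 : (κ * ζ ^ 5 / 4) * (3 / 2) ≤ 4 * (ζ + ζ ^ 7) * κ := by
      nlinarith [mul_le_mul_of_nonneg_right h5 hκ0, mul_nonneg hT0 hκ0]
    have e3 : 0 ≤ 4 * (ζ + ζ ^ 7) * δ ^ 4 := by positivity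
    calc (3 / 4) * ζ ^ 3 * (δ * Real.sqrt κ) + (κ * ζ ^ 5 / 4) * (3 / 2)
        ≤ 4 * (ζ + ζ ^ 7) * (δ * Real.sqrt κ) + 4 * (ζ + ζ ^ 7) * κ + 4 * (ζ + ζ ^ 7) * δ ^ 4 := by
          linarith
      _ = _ := by ring
  · -- large frequency
    have h1 : |Ex (fun x : Fin n → Bool => lfS I ν x * Real.sin (ζ * lfS I b x))| ≤ 1 := by
      refine (Ex_abs_le _).trans ((Ex_mono fun x => ?_).trans (Ex_abs_lfS_le I ν hν))
      rw [abs_mul]
      calc |lfS I ν x| * |Real.sin (ζ * lfS I b x)| ≤ |lfS I ν x| * 1 :=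
            mul_le_mul_of_nonneg_left (Real.abs_sin_le_one _) (abs_nonneg _)
        _ = |lfS I ν x| := mul_one _
    have h2 : |ζ * (∑ i ∈ I, ν i * b i) * Real.exp (-V * ζ ^ 2 / 2)| ≤ ζ * (3 / 2) := by
      rw [abs_mul, abs_mul, abs_of_nonneg hζ, abs_of_pos (Real.exp_pos _)]
      have h3 : |∑ i ∈ I, ν i * b i| ≤ 3 / 2 := by
        refine (Finset.abs_sum_le_sum_abs _ _).trans ?_
        simpa only [abs_mul] using hcs1
      have h4 : Real.exp (-V * ζ ^ 2 / 2) ≤ 1 := by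
        apply Real.exp_le_one_iff.mpr
        have : 0 ≤ V * ζ ^ 2 := by positivity
        linarith
      calc ζ * |∑ i ∈ I, ν i * b i| * Real.exp (-V * ζ ^ 2 / 2)
          ≤ ζ * (3 / 2) * 1 := by
            apply mul_le_mul (mul_le_mul_of_nonneg_left h3 hζ) h4 (Real.exp_pos _).le (by positivity)
        _ = ζ * (3 / 2) := mul_one _
    have h5 : |Ex (fun x : Fin n → Bool => lfS I ν x * Real.sin (ζ * lfS I b x)) -
        ζ * (∑ i ∈ I, ν i * b i) * Real.exp (-V * ζ ^ 2 / 2)| ≤ 1 + ζ * (3 / 2) := by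
      refine (abs_sub _ _).trans ?_
      linarith
    refine h5.trans ?_
    have h6 : 1 ≤ (ζ * δ) ^ 4 := one_le_pow₀ hcase.le
    have h7 : 1 + ζ * (3 / 2) ≤ (ζ * δ) ^ 4 * (1 + ζ * (3 / 2)) :=
      le_mul_of_one_le_left (by positivity) h6
    refine h7.trans ?_
    have p4 := r8a_pow_le hζ 4 (by norm_num) (by norm_num)
    have p5 := r8a_pow_le hζ 5 (by norm_num) (by norm_num)
    calc (ζ * δ) ^ 4 * (1 + ζ * (3 / 2)) = (ζ ^ 4 + 3 / 2 * ζ ^ 5) * δ ^ 4 := by ring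
      _ ≤ (4 * (ζ + ζ ^ 7)) * δ ^ 4 := mul_le_mul_of_nonneg_right (by linarith) hδ4
      _ ≤ 4 * (ζ + ζ ^ 7) * (δ * Real.sqrt κ + κ + δ ^ 4) := by
          apply mul_le_mul_of_nonneg_left _ (by positivity)
          linarith

end Pool.Agent.MP_cb3c9c_an.REG
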