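import Pool.Agent.MP_cb3c9c_an.REG.F6

set_option autoImplicit false

open Finset MeasureTheory
open scoped BigOperators

namespace Pool.Agent.MP_cb3c9c_an.REG

open Pool.Agent.MP_cb3c9c_an.TwoBlock

variable {n : ℕ}

/-! ### Euclidean norm helpers -/

lemma r9_nrm (f : Fin n → ℝ) :
    Real.sqrt (∑ i, f i ^ 2) = ‖(WithLp.toLp 2 f : EuclideanSpace ℝ (Fin n))‖ := by
  rw [EuclideanSpace.norm_eq]
  congr 1
  apply Finset.sum_congr rfl
  intro i _
  simp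

lemma r9_add (f g : Fin n → ℝ) :
    Real.sqrt (∑ i, (f i + g i) ^ 2) ≤ Real.sqrt (∑ i, f i ^ 2) + Real.sqrt (∑ i, g i ^ 2) := by
  have h := norm_add_le (WithLp.toLp 2 f : EuclideanSpace ℝ (Fin n)) (WithLp.toLp 2 g)
  rw [← WithLp.toLp_add] at h
  rw [r9_nrm f, r9_nrm g, r9_nrm (fun i => f i + g i)]
  exact h

lemma r9_smul (c : ℝ) (f : Fin n → ℝ) :
    Real.sqrt (∑ i, (c * f i) ^ 2) = |c| * Real.sqrt (∑ i, f i ^ 2) := by
  have h : ∑ i, (c * f i) ^ 2 = c ^ 2 * ∑ i, f i ^ 2 := by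
    rw [Finset.mul_sum]
    exact Finset.sum_congr rfl fun i _ => by ring
  rw [h, Real.sqrt_mul (sq_nonneg c), Real.sqrt_sq_eq_abs]

lemma r9_sub3 (f g h : Fin n → ℝ) :
    Real.sqrt (∑ i, (f i - h i) ^ 2) ≤
      Real.sqrt (∑ i, (f i - g i) ^ 2) + Real.sqrt (∑ i, (g i - h i) ^ 2) := by
  have h1 := r9_add (fun i => f i - g i) (fun i => g i - h i)
  have h2 : ∑ i, (f i - h i) ^ 2 = ∑ i, ((f i - g i) + (g i - h i)) ^ 2 :=
    Finset.sum_congr rfl fun i _ => by ring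
  rw [h2]
  exact h1

lemma r9_lf_sub (a b : Fin n → ℝ) (x : Fin n → Bool) :
    lf (fun i => a i - b i) x = lf a x - lf b x := by
  unfold lf
  rw [← Finset.sum_sub_distrib]
  exact Finset.sum_congr rfl fun i _ => by ring

lemma r9_lf_smul (c : ℝ) (a : Fin n → ℝ) (x : Fin n → Bool) :
    lf (fun i => c * a i) x = c * lf a x := by
  unfold lf
  rw [Finset.mul_sum]
  exact Finset.sum_congr rfl fun i _ => by ring

lemma r9_Ex_abs (a : Fin n → ℝ) : (Ex fun x => |lf a x|) ≤ Real.sqrt (∑ i, a i ^ 2) := by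
  have h1 := Ex_cs (fun x : Fin n → Bool => |lf a x|) (fun _ => (1 : ℝ))
  simp only [mul_one, one_pow, Ex_const, sq_abs, Ex_lf_sq] at h1
  exact Real.le_sqrt_of_sq_le h1

lemma r9_DD_sub (a b : Fin n → ℝ) :
    |DD a - DD b| ≤ Real.sqrt (∑ i, (a i - b i) ^ 2) := by
  refine le_trans ?_ (r9_Ex_abs (fun i => a i - b i))
  unfold DD
  rw [← Ex_sub]
  refine (Ex_abs_le _).trans (Ex_mono fun x => ?_)
  rw [r9_lf_sub]
  exact abs_abs_sub_abs_le_abs_sub _ _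

lemma r9_DD_nonneg (a : Fin n → ℝ) : 0 ≤ DD a := Ex_nonneg fun _ => abs_nonneg _

lemma r9_DD_le (a : Fin n → ℝ) (h : ∑ i, a i ^ 2 = 1) : DD a ≤ 1 := by
  have := r9_Ex_abs a
  rwa [h, Real.sqrt_one] at this

lemma r9_sg_mono (u w : ℝ) : 0 ≤ (sg u - sg w) * (u - w) := by
  unfold sg
  split_ifs <;> nlinarith

lemma r9_sg_smul {c : ℝ} (hc : 0 < c) (u : ℝ) : sg (c * u) = sg u := by
  rcases lt_trichotomy u 0 with h | h | h
  · rw [sg_neg' h, sg_neg' (mul_neg_of_pos_of_neg hc h)]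
  · rw [h, mul_zero]
  · rw [sg_pos h, sg_pos (mul_pos hc h)]

/-- ROW REG-R9a (monotonicity of the Chow parameters).

PROOF.  The sum is `E (sg u - sg w)(u - w)` with `u = lf a x`, `w = lf b x`, and `(sg u - sg w)(u - w) ≥ 0`. -/
theorem cw_mono (a b : Fin n → ℝ) : 0 ≤ ∑ i, (cw a i - cw b i) * (a i - b i) := by
  have h : ∑ i, (cw a i - cw b i) * (a i - b i) =
      Ex fun x => (sg (lf a x) - sg (lf b x)) * (lf a x - lf b x) := by
    have e1 : ∀ x : Fin n → Bool, (sg (lf a x) - sg (lf b x)) * (lf a x - lf b x) =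
        ∑ i, (a i - b i) * (sg (lf a x) * sb (x i) - sg (lf b x) * sb (x i)) := by
      intro x
      have e0 : lf (fun i => a i - b i) x = ∑ i, (a i - b i) * sb (x i) := rfl
      rw [← r9_lf_sub, e0, Finset.mul_sum]
      exact Finset.sum_congr rfl fun i _ => by ring
    simp only [e1]
    rw [Ex_sum]
    apply Finset.sum_congr rfl
    intro i _
    rw [Ex_mul, Ex_sub]
    unfold cw
    ring
  rw [h]
  exact Ex_nonneg fun x => r9_sg_mono _ _

/-- PROOF.  `sg (c u) = sg u` for `c > 0`. -/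
theorem cw_smul (a : Fin n → ℝ) {c : ℝ} (hc : 0 < c) : cw (fun i => c * a i) = cw a := by
  funext i
  unfold cw
  congr 1
  funext x
  rw [r9_lf_smul, r9_sg_smul hc]

/-- ROW REG-R9b (Chow parameters of two close regular forms).

PROOF.  `V = (∑ b²)^{1/2} ∈ [1/2, 2]`, `b̂ = b/V`, a unit vector with `|b̂_i| ≤ 2|b_i| ≤ 10^{-10}`, `kap b̂ = kap b/V⁴ ≤ 16 kap b`,
`cw b̂ = cw b` (`cw_smul`), `lf b̂ x ≠ 0`.  Let `|·|` be the Euclidean norm.  By `chow_close` (F6):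
`|cw a - DD a · a| ≤ √(10⁹ kap a)`, `|cw b - DD b̂ · b̂| ≤ √(16·10⁹ kap b)`.  `|DD a - DD b̂| ≤ E|lf (a-b̂)| ≤ |a - b̂|`,
`DD ≤ 1`, so `|DD a · a - DD b̂ · b̂| ≤ 2|a-b̂|`; `|a - b̂| ≤ |a-b| + |b - b̂| = |a-b| + |V-1| ≤ 2|a-b| ≤ 2ε`.
Total `≤ 3.2·10⁴ √(kap a) + 1.3·10⁵ √(kap b) + 4ε`. -/
theorem cw_close {a b : Fin n → ℝ} {ε : ℝ} (h1 : ∑ i, a i ^ 2 = 1) (ha : ∀ i, |a i| ≤ 1 / 10 ^ 11)
    (hb : ∀ i, |b i| ≤ 1 / 10 ^ 11) (hane : ∀ x, lf a x ≠ 0) (hbne : ∀ x, lf b x ≠ 0)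
    (hε : 0 ≤ ε) (hε1 : ε ≤ 1 / 2) (hab : ∑ i, (a i - b i) ^ 2 ≤ ε ^ 2) :
    Real.sqrt (∑ i, (cw a i - cw b i) ^ 2) ≤
      10 ^ 6 * (Real.sqrt (kap a) + Real.sqrt (kap b)) + 4 * ε := by
  have hab' : Real.sqrt (∑ i, (a i - b i) ^ 2) ≤ ε := by
    rw [← Real.sqrt_sq hε]
    exact Real.sqrt_le_sqrt hab
  set V := Real.sqrt (∑ i, b i ^ 2) with hV
  have hba : Real.sqrt (∑ i, (b i - a i) ^ 2) = Real.sqrt (∑ i, (a i - b i) ^ 2) := by
    congr 1
    exact Finset.sum_congr rfl fun i _ => by ring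
  have hV1 : |V - 1| ≤ Real.sqrt (∑ i, (a i - b i) ^ 2) := by
    have h2 : Real.sqrt (∑ i, a i ^ 2) = 1 := by rw [h1, Real.sqrt_one]
    have h3 := r9_add (fun i => a i - b i) b
    have h4 := r9_add (fun i => b i - a i) a
    simp only [sub_add_cancel] at h3 h4
    rw [h2] at h3 h4
    rw [abs_le]
    constructor <;> linarith
  have hVlo : 1 / 2 ≤ V := by
    have := (abs_le.mp hV1).1
    linarith
  have hVpos : 0 < V := by linarith
  have hVhi : V ≤ 3 / 2 := by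
    have := (abs_le.mp hV1).2
    linarith
  have hVsq : V ^ 2 = ∑ i, b i ^ 2 := Real.sq_sqrt (Finset.sum_nonneg fun i _ => sq_nonneg _)
  set bh : Fin n → ℝ := fun i => V⁻¹ * b i with hbh
  have hVi : 0 < V⁻¹ := inv_pos.mpr hVpos
  have hVi2 : V⁻¹ ≤ 2 := by
    rw [inv_le_comm₀ hVpos (by norm_num)]
    linarith
  have hbh1 : ∑ i, bh i ^ 2 = 1 := by
    have : ∑ i, bh i ^ 2 = V⁻¹ ^ 2 * ∑ i, b i ^ 2 := by
      rw [Finset.mul_sum]
      exact Finset.sum_congr rfl fun i _ => by simp only [hbh]; ring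
    rw [this, ← hVsq, ← mul_pow, inv_mul_cancel₀ hVpos.ne', one_pow]
  have hbhle : ∀ i, |bh i| ≤ 1 / 10 ^ 10 := by
    intro i
    simp only [hbh, abs_mul, abs_of_pos hVi]
    have h3 := hb i
    have h4 := abs_nonneg (b i)
    calc V⁻¹ * |b i| ≤ 2 * (1 / 10 ^ 11) := by
          apply mul_le_mul hVi2 h3 h4 (by norm_num)
      _ ≤ 1 / 10 ^ 10 := by norm_num
  have hbhne : ∀ x, lf bh x ≠ 0 := by
    intro x
    simp only [hbh]
    rw [r9_lf_smul]
    exact mul_ne_zero hVi.ne' (hbne x)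
  have hkap : kap bh ≤ 16 * kap b := by
    have e : kap bh = V⁻¹ ^ 4 * kap b := by
      unfold kap
      rw [Finset.mul_sum]
      exact Finset.sum_congr rfl fun i _ => by simp only [hbh]; ring
    rw [e]
    have h3 : V⁻¹ ^ 4 ≤ 2 ^ 4 := pow_le_pow_left₀ hVi.le hVi2 4
    have h4 : 0 ≤ kap b := Finset.sum_nonneg fun i _ => by positivity
    nlinarith
  have hca := chow_close a h1 (fun i => (ha i).trans (by norm_num)) hane
  have hcb := chow_close bh hbh1 hbhle hbhne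
  have hcw : cw bh = cw b := cw_smul b hVi
  rw [hcw] at hcb
  have hka : 0 ≤ kap a := Finset.sum_nonneg fun i _ => by positivity
  have hkb : 0 ≤ kap b := Finset.sum_nonneg fun i _ => by positivity
  have hs9 : Real.sqrt (10 ^ 9) ≤ 10 ^ 5 := by
    rw [Real.sqrt_le_left (by norm_num)]
    norm_num
  have hca' : Real.sqrt (∑ i, (cw a i - DD a * a i) ^ 2) ≤ 10 ^ 6 * Real.sqrt (kap a) := by
    refine (Real.sqrt_le_sqrt hca).trans ?_
    rw [Real.sqrt_mul (by norm_num)]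
    apply mul_le_mul_of_nonneg_right _ (Real.sqrt_nonneg _)
    exact hs9.trans (by norm_num)
  have hcb' : Real.sqrt (∑ i, (DD bh * bh i - cw b i) ^ 2) ≤ 10 ^ 6 * Real.sqrt (kap b) := by
    have e : ∑ i, (DD bh * bh i - cw b i) ^ 2 = ∑ i, (cw b i - DD bh * bh i) ^ 2 :=
      Finset.sum_congr rfl fun i _ => by ring
    rw [e]
    refine (Real.sqrt_le_sqrt (hcb.trans (mul_le_mul_of_nonneg_left hkap (by norm_num)))).trans ?_
    rw [← mul_assoc, Real.sqrt_mul (by norm_num), Real.sqrt_mul (by norm_num)]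
    apply mul_le_mul_of_nonneg_right _ (Real.sqrt_nonneg _)
    have h16 : Real.sqrt 16 = 4 := by
      rw [show (16 : ℝ) = 4 ^ 2 by norm_num, Real.sqrt_sq (by norm_num)]
    rw [h16]
    nlinarith [hs9]
  have hdist : Real.sqrt (∑ i, (a i - bh i) ^ 2) ≤ 2 * ε := by
    have h3 := r9_sub3 a b bh
    have h4 : Real.sqrt (∑ i, (b i - bh i) ^ 2) = |V - 1| := by
      have e : ∑ i, (b i - bh i) ^ 2 = ∑ i, ((1 - V⁻¹) * b i) ^ 2 :=
        Finset.sum_congr rfl fun i _ => by simp only [hbh]; ring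
      rw [e, r9_smul, ← hV]
      rw [← abs_of_pos hVpos, ← abs_mul, abs_of_pos hVpos, sub_mul, inv_mul_cancel₀ hVpos.ne',
        one_mul]
    rw [h4] at h3
    linarith
  have hmid : Real.sqrt (∑ i, (DD a * a i - DD bh * bh i) ^ 2) ≤ 4 * ε := by
    have e : ∑ i, (DD a * a i - DD bh * bh i) ^ 2 =
        ∑ i, ((DD a - DD bh) * a i + DD bh * (a i - bh i)) ^ 2 :=
      Finset.sum_congr rfl fun i _ => by ring
    rw [e]
    have h3 := r9_add (fun i => (DD a - DD bh) * a i) (fun i => DD bh * (a i - bh i))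
    have h4 : Real.sqrt (∑ i, ((DD a - DD bh) * a i) ^ 2) = |DD a - DD bh| * 1 := by
      rw [r9_smul, h1, Real.sqrt_one]
    have h5 : Real.sqrt (∑ i, (DD bh * (a i - bh i)) ^ 2) =
        |DD bh| * Real.sqrt (∑ i, (a i - bh i) ^ 2) := r9_smul _ _
    have h6 := r9_DD_sub a bh
    have h7 : |DD bh| ≤ 1 := by
      rw [abs_of_nonneg (r9_DD_nonneg bh)]
      exact r9_DD_le bh hbh1
    have h8 : |DD bh| * Real.sqrt (∑ i, (a i - bh i) ^ 2) ≤
        1 * Real.sqrt (∑ i, (a i - bh i) ^ 2) :=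
      mul_le_mul_of_nonneg_right h7 (Real.sqrt_nonneg _)
    linarith
  have h10 := r9_sub3 (fun i => cw a i) (fun i => DD a * a i) (fun i => cw b i)
  have h11 := r9_sub3 (fun i => DD a * a i) (fun i => DD bh * bh i) (fun i => cw b i)
  have h12 : Real.sqrt (∑ i, (cw a i - cw b i) ^ 2) ≤
      10 ^ 6 * Real.sqrt (kap a) + (4 * ε + 10 ^ 6 * Real.sqrt (kap b)) :=
    h10.trans (add_le_add hca' (h11.trans (add_le_add hmid hcb')))
  linarith

end Pool.Agent.MP_cb3c9c_an.REG
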