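import Pool.Agent.MP_cb3c9c_an.REG.R8
import Pool.Agent.MP_cb3c9c_an.REG.R9

set_option autoImplicit false

open Finset MeasureTheory
open scoped BigOperators

namespace Pool.Agent.MP_cb3c9c_an.REG

open Pool.Agent.MP_cb3c9c_an.TwoBlock

variable {n : ℕ}

lemma re_lfS_one (L : Finset (Fin n)) (x : Fin n → Bool) :
    ∃ m : ℤ, (L.card : ℝ) - lfS L (fun _ => 1) x = 2 * m := by
  refine ⟨∑ i ∈ L, (if x i then 1 else 0), ?_⟩
  unfold lfS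
  push_cast
  rw [Finset.mul_sum, Finset.card_eq_sum_ones]
  push_cast
  rw [← Finset.sum_sub_distrib]
  apply Finset.sum_congr rfl
  intro i _
  cases h : x i <;> simp <;> norm_num

lemma re_norm {a c : Fin n → ℝ} {ε : ℝ} (h1 : ∑ i, a i ^ 2 = 1) (hε : 0 ≤ ε) (hε1 : ε ≤ 1)
    (h : ∑ i, (a i - c i) ^ 2 ≤ ε ^ 2) :
    1 - ε ≤ Real.sqrt (∑ i, c i ^ 2) ∧ Real.sqrt (∑ i, c i ^ 2) ≤ 1 + ε := by
  set s := Real.sqrt (∑ i, (a i - c i) ^ 2) with hs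
  have hs0 : 0 ≤ s := Real.sqrt_nonneg _
  have hss : s ^ 2 = ∑ i, (a i - c i) ^ 2 := Real.sq_sqrt (Finset.sum_nonneg fun i _ => sq_nonneg _)
  have hsε : s ≤ ε := by
    apply Real.sqrt_le_iff.2 ⟨hε, h⟩
  have hcs : (∑ i, a i * (a i - c i)) ^ 2 ≤ s ^ 2 := by
    have := Finset.sum_mul_sq_le_sq_mul_sq univ a (fun i => a i - c i)
    rw [h1, one_mul] at this
    rw [hss]; exact this
  have hc := abs_le_of_sq_le_sq' hcs hs0
  have hV : ∑ i, c i ^ 2 = 1 - 2 * (∑ i, a i * (a i - c i)) + s ^ 2 := by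
    rw [hss, ← h1, Finset.mul_sum, ← Finset.sum_sub_distrib, ← Finset.sum_add_distrib]
    apply Finset.sum_congr rfl
    intro i _
    ring
  constructor
  · apply Real.le_sqrt_of_sq_le
    rw [hV]
    nlinarith
  · apply Real.sqrt_le_iff.2 ⟨by linarith, ?_⟩
    rw [hV]
    nlinarith

/-- numerical part -/
lemma re_num {σ u θ η₁ R E δ G A D Pn Pr κb X V : ℝ} (hσ : 100 ≤ σ) (hσδ : 1 / σ ≤ 2 * δ)
    (hu : 0 < u) (hE : 0 < E) (hE1 : E ≤ 1) (hδ0 : 0 < δ)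
    (hG : |G| ≤ 1) (hA : |A| ≤ 1) (hD : |D - Real.sqrt (2 / Real.pi)| ≤ 42 / σ ^ 2)
    (hPn : Pn - θ * (10 ^ 7 / σ) ≤ Pr) (hX : A - u / σ ≤ X) (hX2 : |X| ≤ 3 / 2)
    (hV1 : |1 / Real.sqrt V - 1| ≤ 4 * u / σ)
    (h8 : |Pn - Real.sqrt (2 / Real.pi) * X / Real.sqrt V +
        Real.sqrt (2 / Real.pi) * (1 / σ) * G / Real.sqrt V| ≤
      (1 / σ) * (1.3 * η₁ / Real.sqrt E + 2 / (E * R)) +
        6 * (1 / Real.sqrt E + 15 / (E ^ 3 * Real.sqrt E)) *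
          (3 * δ * Real.sqrt κb + κb + (3 * δ) ^ 4) + (1 / σ ^ 2) * (1 / E + 30))
    (hκb : κb ≤ 49 / σ ^ 2) (hκb0 : 0 ≤ κb) (hδ4 : δ ^ 4 ≤ 6 / σ ^ 2) :
    (1 / σ) * (-(Real.sqrt (2 / Real.pi)) * G -
      (12 * u + 10 ^ 7 * θ + 1.3 * η₁ / Real.sqrt E + 2 / (E * R) +
        2 * 10 ^ 5 * δ / (E ^ 3 * Real.sqrt E))) ≤ Pr - D * A := by
  have hσ0 : 0 < σ := by linarith
  have hsE : 0 < Real.sqrt E := Real.sqrt_pos.2 hE
  have hsE1 : Real.sqrt E ≤ 1 := by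
    rw [← Real.sqrt_one]; exact Real.sqrt_le_sqrt hE1
  set c := Real.sqrt (2 / Real.pi) with hc
  have hc0 : 0 ≤ c := Real.sqrt_nonneg _
  have hc1 : c ≤ 0.8 := by
    rw [hc]
    apply Real.sqrt_le_iff.2 ⟨by norm_num, ?_⟩
    rw [div_le_iff₀ Real.pi_pos]
    have := Real.pi_gt_d2
    nlinarith
  set r := 1 / Real.sqrt V with hr
  set w := 1 / σ with hw
  have hw0 : 0 < w := by positivity
  have hw1 : w ≤ 1 / 100 := by
    rw [hw]; apply one_div_le_one_div_of_le (by norm_num) hσ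
  have hw2 : (1 : ℝ) / σ ^ 2 = w ^ 2 := by rw [hw]; field_simp
  set q := 1 / (E ^ 3 * Real.sqrt E) with hq
  have hq0 : 0 < q := by positivity
  have hq1 : 1 ≤ q := by
    rw [hq, le_div_iff₀ (by positivity), one_mul]
    calc E ^ 3 * Real.sqrt E ≤ 1 ^ 3 * 1 := by gcongr
      _ = 1 := by norm_num
  have hqs : 1 / Real.sqrt E ≤ q := by
    rw [hq]
    apply one_div_le_one_div_of_le (by positivity)
    calc E ^ 3 * Real.sqrt E ≤ 1 ^ 3 * Real.sqrt E := by gcongr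
      _ = Real.sqrt E := by norm_num
  have hqE : 1 / E ≤ q := by
    rw [hq]
    apply one_div_le_one_div_of_le (by positivity)
    have : E ^ 2 ≤ 1 := by nlinarith
    calc E ^ 3 * Real.sqrt E ≤ E ^ 3 * 1 := by gcongr
      _ = E * E ^ 2 := by ring
      _ ≤ E * 1 := by gcongr
      _ = E := by ring
  -- the term K
  have hsκ : Real.sqrt κb ≤ 7 * w := by
    apply Real.sqrt_le_iff.2 ⟨by positivity, ?_⟩
    calc κb ≤ 49 / σ ^ 2 := hκb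
      _ = 49 * (1 / σ ^ 2) := by ring
      _ = (7 * w) ^ 2 := by rw [hw2]; ring
  have hK : 3 * δ * Real.sqrt κb + κb + (3 * δ) ^ 4 ≤ 1100 * δ * w := by
    have e1 : κb ≤ 49 * w ^ 2 := by
      calc κb ≤ 49 / σ ^ 2 := hκb
        _ = 49 * (1 / σ ^ 2) := by ring
        _ = 49 * w ^ 2 := by rw [hw2]
    have e2 : δ ^ 4 ≤ 6 * w ^ 2 := by
      calc δ ^ 4 ≤ 6 / σ ^ 2 := hδ4
        _ = 6 * (1 / σ ^ 2) := by ring
        _ = 6 * w ^ 2 := by rw [hw2]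
    have e3 : w ^ 2 ≤ 2 * δ * w := by
      rw [sq]; exact mul_le_mul_of_nonneg_right hσδ hw0.le
    have e4 : 3 * δ * Real.sqrt κb ≤ 3 * δ * (7 * w) := by gcongr
    nlinarith
  have hK0 : 0 ≤ 3 * δ * Real.sqrt κb + κb + (3 * δ) ^ 4 := by positivity
  -- error
  have hErr : 6 * (1 / Real.sqrt E + 15 / (E ^ 3 * Real.sqrt E)) *
          (3 * δ * Real.sqrt κb + κb + (3 * δ) ^ 4) + (1 / σ ^ 2) * (1 / E + 30) + 42 / σ ^ 2 ≤
      w * (2 * 10 ^ 5 * δ / (E ^ 3 * Real.sqrt E)) := by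
    have e1 : 15 / (E ^ 3 * Real.sqrt E) = 15 * q := by rw [hq]; ring
    have e2 : 2 * 10 ^ 5 * δ / (E ^ 3 * Real.sqrt E) = 2 * 10 ^ 5 * δ * q := by rw [hq]; ring
    have e3 : 42 / σ ^ 2 = 42 * w ^ 2 := by rw [← hw2]; ring
    rw [e1, e2, e3, hw2]
    have e4 : 6 * (1 / Real.sqrt E + 15 * q) * (3 * δ * Real.sqrt κb + κb + (3 * δ) ^ 4) ≤
        6 * (q + 15 * q) * (1100 * δ * w) := by
      apply mul_le_mul _ hK hK0 (by positivity)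
      gcongr
    have e5 : w ^ 2 ≤ 2 * δ * w := by
      rw [sq]; exact mul_le_mul_of_nonneg_right hσδ hw0.le
    have e6 : w ^ 2 * (1 / E + 30) ≤ (2 * δ * w) * (q + 30 * q) := by
      apply mul_le_mul e5 _ (by positivity) (by positivity)
      linarith
    have e7 : 42 * w ^ 2 ≤ 42 * (2 * δ * w) * q := by
      have : (2 * δ * w) ≤ (2 * δ * w) * q := by
        have : 0 ≤ 2 * δ * w := by positivity
        nlinarith
      nlinarith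
    have hp : 0 ≤ δ * w * q := by positivity
    nlinarith
  -- main
  have h8' := (abs_le.1 h8).1
  have hr1 := abs_le.1 hV1
  have hA' := abs_le.1 hA
  have hG' := abs_le.1 hG
  have hX' := abs_le.1 hX2
  have hD' := abs_le.1 hD
  have huw : 4 * u / σ = 4 * u * w := by rw [hw]; ring
  have huw2 : u / σ = u * w := by rw [hw]; ring
  rw [huw] at hr1
  rw [huw2] at hX
  have huw0 : 0 < u * w := by positivity
  -- X r ≥ A - 7 u w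
  have hXr : A - 7 * (u * w) ≤ X * r := by
    have e1 : |X * (r - 1)| ≤ 3 / 2 * (4 * u * w) := by
      rw [abs_mul]
      exact mul_le_mul hX2 (abs_le.2 hr1) (abs_nonneg _) (by norm_num)
    have e2 := (abs_le.1 e1).1
    nlinarith
  have hGr : G * r ≤ G + 4 * u * w := by
    have e1 : |G * (r - 1)| ≤ 1 * (4 * u * w) := by
      rw [abs_mul]
      exact mul_le_mul hG (abs_le.2 hr1) (abs_nonneg _) (by norm_num)
    have e2 := (abs_le.1 e1).2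
    nlinarith
  have t1 : c * X / Real.sqrt V = c * (X * r) := by rw [hr]; ring
  have t2 : c * w * G / Real.sqrt V = c * w * (G * r) := by rw [hr]; ring
  rw [t1, t2] at h8'
  have m1 : c * (A - 7 * (u * w)) ≤ c * (X * r) := mul_le_mul_of_nonneg_left hXr hc0
  have m2 : c * w * (G * r) ≤ c * w * (G + 4 * u * w) :=
    mul_le_mul_of_nonneg_left hGr (by positivity)
  have m3 : D * A ≤ c * A + 42 / σ ^ 2 := by
    have e1 : |(D - c) * A| ≤ 42 / σ ^ 2 * 1 := by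
      rw [abs_mul]
      exact mul_le_mul hD hA (abs_nonneg _) (by positivity)
    have e2 := (abs_le.1 e1).2
    nlinarith
  have m4 : c * (7 * (u * w)) ≤ 0.8 * (7 * (u * w)) := by gcongr
  have m5 : c * w * (4 * u * w) ≤ 0.8 * (1 / 100) * (4 * (u * w)) := by
    calc c * w * (4 * u * w) = (c * w) * (4 * (u * w)) := by ring
      _ ≤ 0.8 * (1 / 100) * (4 * (u * w)) := by gcongr
  have t3 : θ * (10 ^ 7 / σ) = w * (10 ^ 7 * θ) := by rw [hw]; ring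
  rw [t3] at hPn
  have t4 : w * (-c * G - (12 * u + 10 ^ 7 * θ + 1.3 * η₁ / Real.sqrt E + 2 / (E * R) +
        2 * 10 ^ 5 * δ / (E ^ 3 * Real.sqrt E))) = -(c * w * G) - 12 * (u * w) - w * (10 ^ 7 * θ) -
        w * (1.3 * η₁ / Real.sqrt E + 2 / (E * R)) -
        w * (2 * 10 ^ 5 * δ / (E ^ 3 * Real.sqrt E)) := by ring
  rw [t4]
  have t5 : c * w * (G + 4 * u * w) = c * w * G + c * w * (4 * u * w) := by ring
  have t6 : c * (A - 7 * (u * w)) = c * A - c * (7 * (u * w)) := by ring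
  rw [t5] at m2
  rw [t6] at m1
  linarith

/-- ROW REG-RE (lower bound for `|v|`, `v = cw a - DD a • a`, by monotonicity and the resampled form).

PROOF.  `I = Lᶜ`, `a'' = b` on `I`, `a''_i = 1/σ` on `L`; `κ = kap a`, `p = cw a`, `p'' = cw a''`, `N = L.card`, `E = N/σ²`,
`Ŷ = lfS I ν`; extend `ν` by `0` outside `I`.
`lf a'' x = lfS I b x + (1/σ) lfS L 1 x ≠ 0` (`hne`: otherwise `σ lfS I b x + N = N - lfS L 1 x ∈ 2ℤ`).
(1) `a - a'' = uν/σ` on `I`, `= (σa_i - 1)/σ` on `L`.  `cw_mono` (R9): `0 ≤ σ (p-p'')·(a-a'') = u (p-p'')·ν + ∑_L (p-p'')_i (σa_i-1)`,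
so `p·ν ≥ p''·ν - θ |p-p''|` (Cauchy–Schwarz, `hω`).
(2) `∑ (a-a'')² ≤ ((1+θ)u/σ)² ≤ (2u/σ)²`, `|b_i| ≤ δ + 1/σ ≤ 3δ ≤ 10^{-11}`, `κ ≤ 6/σ²`, `kap a'' ≤ 8κ + 8/σ⁴ + N/σ⁴ ≤ 50/σ²`
(`(x+y)⁴ ≤ 8x⁴+8y⁴`, `|ν_i| ≤ 1`, `E ≤ 1`).  `cw_close` (R9): `|p-p''| ≤ 10⁶ (√6 + √50)/σ + 8u/σ ≤ 10⁷/σ`.
(3) `p''·ν = E[Ŷ sg(lfS I b + (1/σ) lfS L 1)]`; `resampled_sign` (R8) with `δ_b = 3δ`, `G₀ = E[Ŷ saw(σ lfS I b + N)]`,
`V = ∑_I b² + E = ∑ a''²`.  `|√V - 1| ≤ |a - a''| ≤ 2u/σ`, so `|1/√V - 1| ≤ 4u/σ`, `V ≥ 1/2` (`σ ≥ 100` say).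
`ν·b = ν·a - (u/σ) ∑ν² ≥ ν·a - u/σ`, `|ν·b| ≤ √2`.  So
`p''·ν ≥ √(2/π) (ν·a) - 8u/σ - √(2/π) (1/σ) G₀ - 4u/σ - Err₈`.
(4) `D = DD a`, `|D - √(2/π)| ≤ 7κ ≤ 42/σ²` (`DD_near` F4), `|a·ν| ≤ 1`.  So `v·ν = p·ν - D (a·ν) ≥
 - √(2/π) G₀/σ - (1/σ)(12u + 10⁷θ + 42/σ) - Err₈`, and `|v| ≥ v·ν` as `|ν| ≤ 1`.
(5) `Err₈ = (1/σ)(1.3η₁/√E + 2/(ER)) + 6(E^{-1/2} + 15E^{-7/2}) K + (1/σ²)(1/E + 30)`, `K = δ_b √κ_b + κ_b + δ_b⁴`,
`κ_b ≤ 49/σ²`, `δ_b⁴ ≤ 81δ⁴ ≤ 81κ ≤ 486/σ²`, so `K ≤ (1/σ)(21δ + 535/σ) ≤ 1100 δ/σ` (`1/σ ≤ 2δ`).  As `E ≤ 1` all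
`δ`-terms together are `≤ (1/σ) 2·10⁵ δ/(E³√E)`. -/
theorem v_lower {a b ν : Fin n → ℝ} {δ σ u θ η₁ R E : ℝ} {L : Finset (Fin n)} (h : Reg a δ)
    (hδ : δ ≤ 1 / 10 ^ 12) (hane : ∀ x, lf a x ≠ 0) (hL : 1 ≤ L.card) (hσ : 100 ≤ σ)
    (hσδ : 1 / σ ≤ 2 * δ) (hκ : kap a * σ ^ 2 ≤ 6) (hu : 0 < u) (hu1 : u ≤ 1) (hθ : 0 ≤ θ)
    (hθ1 : θ ≤ 1) (hω : ∑ i ∈ L, (σ * a i - 1) ^ 2 ≤ (θ * u) ^ 2)
    (hν : ∑ i ∈ Lᶜ, ν i ^ 2 ≤ 1) (hb : ∀ i ∈ Lᶜ, b i = a i - u * ν i / σ)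
    (hne : ∀ x : Fin n → Bool, ∀ m : ℤ, σ * lfS Lᶜ b x + L.card ≠ 2 * m)
    (hE : E = L.card / σ ^ 2) (hE1 : E ≤ 1) (hη₁ : 0 ≤ η₁) (hR : 0 < R)
    (hdec : ∀ ζ ∈ Set.Icc 0 R,
      |Ex (fun x : Fin n → Bool =>
          lfS Lᶜ ν x * saw (σ * lfS Lᶜ b x + L.card) * Real.cos (ζ * lfS Lᶜ b x)) -
        Real.exp (-(∑ i ∈ Lᶜ, b i ^ 2) * ζ ^ 2 / 2) *
          Ex (fun x : Fin n → Bool => lfS Lᶜ ν x * saw (σ * lfS Lᶜ b x + L.card))| ≤ η₁) :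
    (1 / σ) * (-(Real.sqrt (2 / Real.pi)) *
        Ex (fun x : Fin n → Bool => lfS Lᶜ ν x * saw (σ * lfS Lᶜ b x + L.card)) -
      (12 * u + 10 ^ 7 * θ + 1.3 * η₁ / Real.sqrt E + 2 / (E * R) +
        2 * 10 ^ 5 * δ / (E ^ 3 * Real.sqrt E))) ≤
      Real.sqrt (∑ i, (cw a i - DD a * a i) ^ 2) := by
  classical
  have hσ0 : 0 < σ := by linarith
  have hw : 1 / σ ≤ 1 / 100 := one_div_le_one_div_of_le (by norm_num) hσ
  have hw0 : 0 < 1 / σ := by positivity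
  have hN : (1 : ℝ) ≤ L.card := by exact_mod_cast hL
  have hE0 : 0 < E := by rw [hE]; positivity
  -- the vector a''
  set c : Fin n → ℝ := fun i => if i ∈ L then 1 / σ else b i with hc
  have hcL : ∀ i ∈ L, c i = 1 / σ := fun i hi => by simp [hc, hi]
  have hcI : ∀ i ∈ Lᶜ, c i = b i := fun i hi => by simp [hc, Finset.mem_compl.1 hi]
  have hlf : ∀ x, lf c x = lfS Lᶜ b x + (1 / σ) * lfS L (fun _ => 1) x := by
    intro x
    rw [lf_split Lᶜ, compl_compl]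
    congr 1
    · unfold lfS
      exact Finset.sum_congr rfl fun i hi => by rw [hcI i hi]
    · unfold lfS
      rw [Finset.mul_sum]
      exact Finset.sum_congr rfl fun i hi => by rw [hcL i hi]; ring
  have hcne : ∀ x, lf c x ≠ 0 := by
    intro x h0
    rw [hlf] at h0
    obtain ⟨m, hm⟩ := re_lfS_one L x
    apply hne x m
    have h2 : σ * lfS Lᶜ b x + lfS L (fun _ => 1) x = 0 := by
      have : σ * (lfS Lᶜ b x + (1 / σ) * lfS L (fun _ => 1) x) = 0 := by rw [h0, mul_zero]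
      rw [mul_add, ← mul_assoc, mul_one_div_cancel hσ0.ne', one_mul] at this
      exact this
    linarith
  -- splitting sums
  have hsplit : ∀ f : Fin n → ℝ, ∑ i, f i = ∑ i ∈ Lᶜ, f i + ∑ i ∈ L, f i := by
    intro f
    rw [add_comm, Finset.sum_add_sum_compl]
  have hν1 : ∀ i ∈ Lᶜ, ν i ^ 2 ≤ 1 := fun i hi =>
    (Finset.single_le_sum (f := fun i => ν i ^ 2) (fun i _ => sq_nonneg _) hi).trans hν
  have hν0 : 0 ≤ ∑ i ∈ Lᶜ, ν i ^ 2 := Finset.sum_nonneg fun i _ => sq_nonneg _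
  have hνa : ∀ i ∈ Lᶜ, |ν i| ≤ 1 := fun i hi => by
    have := hν1 i hi
    rw [← sq_abs] at this
    nlinarith [abs_nonneg (ν i)]
  -- distance
  have hdist : ∑ i, (a i - c i) ^ 2 ≤ (2 * u / σ) ^ 2 := by
    rw [hsplit]
    have e1 : ∑ i ∈ Lᶜ, (a i - c i) ^ 2 = (u / σ) ^ 2 * ∑ i ∈ Lᶜ, ν i ^ 2 := by
      rw [Finset.mul_sum]
      apply Finset.sum_congr rfl
      intro i hi
      rw [hcI i hi, hb i hi]; ring
    have e2 : ∑ i ∈ L, (a i - c i) ^ 2 = (1 / σ) ^ 2 * ∑ i ∈ L, (σ * a i - 1) ^ 2 := by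
      rw [Finset.mul_sum]
      apply Finset.sum_congr rfl
      intro i hi
      rw [hcL i hi]; field_simp
    rw [e1, e2]
    have e3 : (u / σ) ^ 2 * ∑ i ∈ Lᶜ, ν i ^ 2 ≤ (u / σ) ^ 2 * 1 := by gcongr
    have e4 : (1 / σ) ^ 2 * ∑ i ∈ L, (σ * a i - 1) ^ 2 ≤ (1 / σ) ^ 2 * (θ * u) ^ 2 := by gcongr
    have e5 : (1 / σ) ^ 2 * (θ * u) ^ 2 ≤ (1 / σ) ^ 2 * (1 * u) ^ 2 := by gcongr
    have e6 : (2 * u / σ) ^ 2 = 4 * (u / σ) ^ 2 := by ring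
    have e7 : (1 / σ) ^ 2 * (1 * u) ^ 2 = (u / σ) ^ 2 := by ring
    have e8 : 0 ≤ (u / σ) ^ 2 := by positivity
    rw [e6]
    linarith
  have huσ : 2 * u / σ ≤ 1 / 50 := by
    calc 2 * u / σ = 2 * u * (1 / σ) := by ring
      _ ≤ 2 * 1 * (1 / 100) := by gcongr
      _ = 1 / 50 := by norm_num
  have huσ0 : 0 ≤ 2 * u / σ := by positivity
  obtain ⟨hV1, hV2⟩ := re_norm h.unit huσ0 (by linarith) hdist
  set V : ℝ := ∑ i ∈ Lᶜ, b i ^ 2 + E with hVdef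
  have hVc : ∑ i, c i ^ 2 = V := by
    rw [hsplit, hVdef]
    congr 1
    · exact Finset.sum_congr rfl fun i hi => by rw [hcI i hi]
    · rw [Finset.sum_congr rfl (fun i hi => by rw [hcL i hi] : ∀ i ∈ L, c i ^ 2 = (1 / σ) ^ 2),
        Finset.sum_const, nsmul_eq_mul, hE]
      ring
  rw [hVc] at hV1 hV2
  have hV0 : 0 ≤ V := by rw [← hVc]; exact Finset.sum_nonneg fun i _ => sq_nonneg _
  have hsV : (49 / 50 : ℝ) ≤ Real.sqrt V := by linarith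
  have hsV0 : 0 < Real.sqrt V := by linarith
  have hsVV : Real.sqrt V ^ 2 = V := Real.sq_sqrt hV0
  have hVge : 1 / 2 ≤ V := by rw [← hsVV]; nlinarith
  have hVle : V ≤ 1.05 := by
    have : Real.sqrt V ≤ 51 / 50 := by linarith
    rw [← hsVV]; nlinarith
  have hb2 : ∑ i ∈ Lᶜ, b i ^ 2 ≤ 1.05 := by linarith
  have hinv : |1 / Real.sqrt V - 1| ≤ 4 * u / σ := by
    have e1 : 1 / Real.sqrt V - 1 = (1 - Real.sqrt V) / Real.sqrt V := by field_simp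
    rw [e1, abs_div, abs_of_pos hsV0, div_le_iff₀ hsV0]
    have e2 : |1 - Real.sqrt V| ≤ 2 * u / σ := abs_le.2 ⟨by linarith, by linarith⟩
    have e3 : 4 * u / σ = 2 * (2 * u / σ) := by ring
    rw [e3]
    nlinarith
  -- small entries
  have hδ3 : ∀ i ∈ Lᶜ, |b i| ≤ 3 * δ := by
    intro i hi
    rw [hb i hi]
    calc |a i - u * ν i / σ| ≤ |a i| + |u * ν i / σ| := abs_sub _ _
      _ ≤ δ + 1 / σ := by
          apply add_le_add (h.le i)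
          rw [abs_div, abs_mul, abs_of_pos hu, abs_of_pos hσ0]
          apply div_le_div_of_nonneg_right _ hσ0.le
          calc u * |ν i| ≤ 1 * 1 := mul_le_mul hu1 (hνa i hi) (abs_nonneg _) (by norm_num)
            _ = 1 := by norm_num
      _ ≤ 3 * δ := by linarith
  have hcδ : ∀ i, |c i| ≤ 1 / 10 ^ 11 := by
    intro i
    have hδ' : 3 * δ ≤ 1 / 10 ^ 11 := by
      calc 3 * δ ≤ 3 * (1 / 10 ^ 12) := by gcongr
        _ ≤ 1 / 10 ^ 11 := by norm_num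
    by_cases hi : i ∈ L
    · rw [hcL i hi, abs_of_pos hw0]
      have := h.pos
      linarith
    · rw [hcI i (Finset.mem_compl.2 hi)]
      exact (hδ3 i (Finset.mem_compl.2 hi)).trans hδ'
  have haδ : ∀ i, |a i| ≤ 1 / 10 ^ 11 := by
    intro i
    refine (h.le i).trans (hδ.trans (by norm_num))
  -- kappa
  have hσ2 : (0 : ℝ) < σ ^ 2 := by positivity
  have hκ' : kap a ≤ 6 / σ ^ 2 := by rw [le_div_iff₀ hσ2]; exact hκ
  have hκb : ∑ i ∈ Lᶜ, b i ^ 4 ≤ 49 / σ ^ 2 := by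
    have e1 : ∑ i ∈ Lᶜ, b i ^ 4 ≤ ∑ i ∈ Lᶜ, (8 * a i ^ 4 + 8 * (1 / σ) ^ 4 * ν i ^ 2) := by
      apply Finset.sum_le_sum
      intro i hi
      rw [hb i hi]
      have f1 : (a i - u * ν i / σ) ^ 4 ≤ 8 * a i ^ 4 + 8 * (u * ν i / σ) ^ 4 := by
        nlinarith [sq_nonneg (a i + u * ν i / σ), sq_nonneg ((a i) ^ 2 - (u * ν i / σ) ^ 2),
          sq_nonneg (a i - u * ν i / σ), sq_nonneg (a i * (a i + u * ν i / σ)),
          sq_nonneg ((u * ν i / σ) * (a i + u * ν i / σ)), sq_nonneg (a i * (u * ν i / σ))]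
      have f2 : (u * ν i / σ) ^ 4 ≤ (1 / σ) ^ 4 * ν i ^ 2 := by
        have f3 : (u * ν i / σ) ^ 4 = (1 / σ) ^ 4 * (u ^ 4 * (ν i ^ 2 * ν i ^ 2)) := by ring
        rw [f3]
        apply mul_le_mul_of_nonneg_left _ (by positivity)
        calc u ^ 4 * (ν i ^ 2 * ν i ^ 2) ≤ 1 ^ 4 * (ν i ^ 2 * 1) := by
              gcongr
              exact hν1 i hi
          _ = ν i ^ 2 := by ring
      linarith
    have e2 : ∑ i ∈ Lᶜ, (8 * a i ^ 4 + 8 * (1 / σ) ^ 4 * ν i ^ 2) =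
        8 * ∑ i ∈ Lᶜ, a i ^ 4 + 8 * (1 / σ) ^ 4 * ∑ i ∈ Lᶜ, ν i ^ 2 := by
      rw [Finset.sum_add_distrib, Finset.mul_sum, Finset.mul_sum]
    have e3 : ∑ i ∈ Lᶜ, a i ^ 4 ≤ kap a := by
      unfold kap
      exact Finset.sum_le_sum_of_subset_of_nonneg (Finset.subset_univ _)
        fun i _ _ => by positivity
    have e4 : 8 * (1 / σ) ^ 4 * ∑ i ∈ Lᶜ, ν i ^ 2 ≤ 8 * (1 / σ) ^ 4 * 1 := by gcongr
    have e5 : 8 * (1 / σ) ^ 4 ≤ 1 / σ ^ 2 := by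
      have : (1 / σ) ^ 2 ≤ (1 / 100) ^ 2 := by gcongr
      calc 8 * (1 / σ) ^ 4 = 8 * (1 / σ) ^ 2 * (1 / σ) ^ 2 := by ring
        _ ≤ 8 * (1 / 100) ^ 2 * (1 / σ) ^ 2 := by gcongr
        _ ≤ 1 * (1 / σ) ^ 2 := by gcongr; norm_num
        _ = 1 / σ ^ 2 := by rw [one_mul, one_div_pow]
    have e6 : 49 / σ ^ 2 = 8 * (6 / σ ^ 2) + 1 / σ ^ 2 := by ring
    rw [e6]
    linarith
  have hκb0 : 0 ≤ ∑ i ∈ Lᶜ, b i ^ 4 := Finset.sum_nonneg fun i _ => by positivity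
  have hκc : kap c ≤ 50 / σ ^ 2 := by
    unfold kap
    rw [hsplit]
    have e1 : ∑ i ∈ Lᶜ, c i ^ 4 = ∑ i ∈ Lᶜ, b i ^ 4 :=
      Finset.sum_congr rfl fun i hi => by rw [hcI i hi]
    have e2 : ∑ i ∈ L, c i ^ 4 = E * (1 / σ ^ 2) := by
      rw [Finset.sum_congr rfl (fun i hi => by rw [hcL i hi] : ∀ i ∈ L, c i ^ 4 = (1 / σ) ^ 4),
        Finset.sum_const, nsmul_eq_mul, hE]
      field_simp
    have e3 : E * (1 / σ ^ 2) ≤ 1 * (1 / σ ^ 2) := by gcongr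
    rw [e1, e2]
    have e4 : 50 / σ ^ 2 = 49 / σ ^ 2 + 1 * (1 / σ ^ 2) := by ring
    rw [e4]
    linarith
  have hclose := cw_close h.unit haδ hcδ hane hcne huσ0 (by linarith) hdist
  have hclose2 : Real.sqrt (∑ i, (cw a i - cw c i) ^ 2) ≤ 10 ^ 7 / σ := by
    refine hclose.trans ?_
    have e1 : Real.sqrt (kap a) ≤ 2.5 * (1 / σ) := by
      apply Real.sqrt_le_iff.2 ⟨by positivity, ?_⟩
      calc kap a ≤ 6 / σ ^ 2 := hκ'
        _ = 6 * (1 / σ) ^ 2 := by ring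
        _ ≤ (2.5 * (1 / σ)) ^ 2 := by
            have : 0 ≤ (1 / σ) ^ 2 := by positivity
            rw [mul_pow]
            nlinarith
    have e2 : Real.sqrt (kap c) ≤ 7.1 * (1 / σ) := by
      apply Real.sqrt_le_iff.2 ⟨by positivity, ?_⟩
      calc kap c ≤ 50 / σ ^ 2 := hκc
        _ = 50 * (1 / σ) ^ 2 := by ring
        _ ≤ (7.1 * (1 / σ)) ^ 2 := by
            have : 0 ≤ (1 / σ) ^ 2 := by positivity
            rw [mul_pow]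
            nlinarith
    have e3 : 4 * (2 * u / σ) ≤ 8 * (1 / σ) := by
      calc 4 * (2 * u / σ) = 8 * u * (1 / σ) := by ring
        _ ≤ 8 * 1 * (1 / σ) := by gcongr
        _ = 8 * (1 / σ) := by ring
    have e4 : (10 : ℝ) ^ 7 / σ = 10 ^ 7 * (1 / σ) := by ring
    rw [e4]
    linarith
  -- monotonicity
  set Pr := ∑ i ∈ Lᶜ, cw a i * ν i with hPr
  set Pn := ∑ i ∈ Lᶜ, cw c i * ν i with hPn
  have hmono : Pn - θ * (10 ^ 7 / σ) ≤ Pr := by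
    have e1 := cw_mono a c
    rw [hsplit] at e1
    have e2 : ∑ i ∈ Lᶜ, (cw a i - cw c i) * (a i - c i) = (u / σ) * (Pr - Pn) := by
      rw [hPr, hPn, ← Finset.sum_sub_distrib, Finset.mul_sum]
      apply Finset.sum_congr rfl
      intro i hi
      rw [hcI i hi, hb i hi]; ring
    have e3 : ∑ i ∈ L, (cw a i - cw c i) * (a i - c i) =
        (1 / σ) * ∑ i ∈ L, (cw a i - cw c i) * (σ * a i - 1) := by
      rw [Finset.mul_sum]
      apply Finset.sum_congr rfl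
      intro i hi
      rw [hcL i hi]; field_simp
    rw [e2, e3] at e1
    have e4 : (∑ i ∈ L, (cw a i - cw c i) * (σ * a i - 1)) ^ 2 ≤
        (10 ^ 7 / σ * (θ * u)) ^ 2 := by
      refine (Finset.sum_mul_sq_le_sq_mul_sq L _ _).trans ?_
      rw [mul_pow]
      apply mul_le_mul _ hω (Finset.sum_nonneg fun i _ => sq_nonneg _) (by positivity)
      have f1 : ∑ i ∈ L, (cw a i - cw c i) ^ 2 ≤ ∑ i, (cw a i - cw c i) ^ 2 :=
        Finset.sum_le_sum_of_subset_of_nonneg (Finset.subset_univ _) fun i _ _ => sq_nonneg _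
      have f2 : ∑ i, (cw a i - cw c i) ^ 2 ≤ (10 ^ 7 / σ) ^ 2 :=
        (Real.sqrt_le_left (by positivity)).1 hclose2
      exact f1.trans f2
    have e5 := (abs_le_of_sq_le_sq' e4 (by positivity)).2
    have e6 : 0 ≤ (1 / σ) * (u * (Pr - Pn) + 10 ^ 7 / σ * (θ * u)) := by
      have : (1 / σ) * ∑ i ∈ L, (cw a i - cw c i) * (σ * a i - 1) ≤
          (1 / σ) * (10 ^ 7 / σ * (θ * u)) := by gcongr
      calc 0 ≤ u / σ * (Pr - Pn) + 1 / σ * ∑ i ∈ L, (cw a i - cw c i) * (σ * a i - 1) := e1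
        _ ≤ u / σ * (Pr - Pn) + (1 / σ) * (10 ^ 7 / σ * (θ * u)) := by linarith
        _ = (1 / σ) * (u * (Pr - Pn) + 10 ^ 7 / σ * (θ * u)) := by ring
    have e7 : 0 ≤ u * ((Pr - Pn) + 10 ^ 7 / σ * θ) := by
      have := (mul_nonneg_iff_of_pos_left hw0).1 e6
      linarith
    have e8 := (mul_nonneg_iff_of_pos_left hu).1 e7
    linarith
  -- the resampled form
  have hPnE : Pn = Ex (fun x : Fin n → Bool =>
      lfS Lᶜ ν x * sg (lfS Lᶜ b x + (1 / σ) * lfS L (fun _ => 1) x)) := by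
    rw [hPn]
    unfold cw
    simp_rw [← Ex_mul']
    rw [← Ex_sum]
    congr 1
    funext x
    rw [hlf]
    unfold lfS
    rw [Finset.sum_mul]
    apply Finset.sum_congr rfl
    intro i _
    ring
  have h8 := resampled_sign (I := Lᶜ) (L := L) disjoint_compl_left hL (by linarith : (1:ℝ) ≤ σ)
    hne (by have := h.pos; linarith : 0 ≤ 3 * δ) hδ3 (by linarith) hν hη₁ hR hE hVdef hVge hdec
  rw [← hPnE] at h8
  set G := Ex (fun x : Fin n → Bool => lfS Lᶜ ν x * saw (σ * lfS Lᶜ b x + L.card)) with hG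
  have hG1 : |G| ≤ 1 := by
    refine (Ex_abs_le _).trans ?_
    refine le_trans (Ex_le fun x => ?_) (Ex_abs_lfS_le Lᶜ ν hν)
    rw [abs_mul]
    have : |saw (σ * lfS Lᶜ b x + L.card)| ≤ 1 := by
      unfold saw
      have f1 := Int.fract_nonneg ((σ * lfS Lᶜ b x + L.card) / 2)
      have f2 := (Int.fract_lt_one ((σ * lfS Lᶜ b x + L.card) / 2)).le
      exact abs_le.2 ⟨by linarith, by linarith⟩
    calc |lfS Lᶜ ν x| * |saw (σ * lfS Lᶜ b x + L.card)| ≤ |lfS Lᶜ ν x| * 1 := by gcongr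
      _ = _ := mul_one _
  set A := ∑ i ∈ Lᶜ, a i * ν i with hA
  have haI : ∑ i ∈ Lᶜ, a i ^ 2 ≤ 1 := by
    rw [← h.unit]
    exact Finset.sum_le_sum_of_subset_of_nonneg (Finset.subset_univ _) fun i _ _ => sq_nonneg _
  have hA1 : |A| ≤ 1 := by
    have e1 := Finset.sum_mul_sq_le_sq_mul_sq Lᶜ a ν
    have e2 : (∑ i ∈ Lᶜ, a i ^ 2) * (∑ i ∈ Lᶜ, ν i ^ 2) ≤ 1 * 1 :=
      mul_le_mul haI hν hν0 (by norm_num)
    have e3 : A ^ 2 ≤ 1 ^ 2 := by rw [hA]; linarith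
    exact abs_le.2 (abs_le_of_sq_le_sq' e3 (by norm_num))
  have hX : A - u / σ ≤ ∑ i ∈ Lᶜ, ν i * b i := by
    have e1 : ∑ i ∈ Lᶜ, ν i * b i = A - (u / σ) * ∑ i ∈ Lᶜ, ν i ^ 2 := by
      rw [hA, Finset.mul_sum, ← Finset.sum_sub_distrib]
      apply Finset.sum_congr rfl
      intro i hi
      rw [hb i hi]; ring
    rw [e1]
    have : (u / σ) * ∑ i ∈ Lᶜ, ν i ^ 2 ≤ (u / σ) * 1 := by gcongr
    linarith
  have hX2 : |∑ i ∈ Lᶜ, ν i * b i| ≤ 3 / 2 := by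
    have e1 := Finset.sum_mul_sq_le_sq_mul_sq Lᶜ ν b
    have e2 : (∑ i ∈ Lᶜ, ν i ^ 2) * (∑ i ∈ Lᶜ, b i ^ 2) ≤ 1 * 1.05 :=
      mul_le_mul hν hb2 (Finset.sum_nonneg fun i _ => sq_nonneg _) (by norm_num)
    have e3 : (∑ i ∈ Lᶜ, ν i * b i) ^ 2 ≤ (3 / 2) ^ 2 := by linarith
    exact abs_le.2 (abs_le_of_sq_le_sq' e3 (by norm_num))
  have hD : |DD a - Real.sqrt (2 / Real.pi)| ≤ 42 / σ ^ 2 := by
    refine (DD_near h (hδ.trans (by norm_num))).trans ?_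
    calc 7 * kap a ≤ 7 * (6 / σ ^ 2) := by gcongr
      _ = 42 / σ ^ 2 := by ring
  have hδ4 : δ ^ 4 ≤ 6 / σ ^ 2 := h.kap_ge.trans hκ'
  have hnum := re_num hσ hσδ hu hE0 hE1 h.pos hG1 hA1 hD hmono hX hX2 hinv h8
    hκb hκb0 hδ4
  refine hnum.trans ?_
  -- Cauchy-Schwarz
  have e1 : Pr - DD a * A = ∑ i ∈ Lᶜ, (cw a i - DD a * a i) * ν i := by
    rw [hPr, hA, Finset.mul_sum, ← Finset.sum_sub_distrib]
    apply Finset.sum_congr rfl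
    intro i _
    ring
  rw [e1]
  apply Real.le_sqrt_of_sq_le
  refine (Finset.sum_mul_sq_le_sq_mul_sq Lᶜ _ _).trans ?_
  calc (∑ i ∈ Lᶜ, (cw a i - DD a * a i) ^ 2) * ∑ i ∈ Lᶜ, ν i ^ 2
      ≤ (∑ i ∈ Lᶜ, (cw a i - DD a * a i) ^ 2) * 1 :=
        mul_le_mul_of_nonneg_left hν (Finset.sum_nonneg fun i _ => sq_nonneg _)
    _ = ∑ i ∈ Lᶜ, (cw a i - DD a * a i) ^ 2 := mul_one _
    _ ≤ _ := Finset.sum_le_sum_of_subset_of_nonneg (Finset.subset_univ _) fun i _ _ => sq_nonneg _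

end Pool.Agent.MP_cb3c9c_an.REG
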