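import Pool.Agent.MP_cb3c9c_an.REG.AC
import Pool.Agent.MP_cb3c9c_an.REG.G2
import Pool.Agent.MP_cb3c9c_an.REG.RE
import Pool.Agent.MP_cb3c9c_an.REG.HD
import Pool.Agent.MP_cb3c9c_an.REG.NT

set_option autoImplicit false

open Finset MeasureTheory
open scoped BigOperators

namespace Pool.Agent.MP_cb3c9c_an.REG

open Pool.Agent.MP_cb3c9c_an.TwoBlock

variable {n : ℕ}

lemma rta_abs_sum (S : Finset (Fin n)) (u w : Fin n → ℝ) :
    |∑ i ∈ S, u i * w i| ≤ Real.sqrt (∑ i ∈ S, u i ^ 2) * Real.sqrt (∑ i ∈ S, w i ^ 2) := by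
  rw [abs_le]
  constructor
  · have h := Real.sum_mul_le_sqrt_mul_sqrt S (fun i => - u i) w
    have e : ∑ i ∈ S, (- u i) * w i = - ∑ i ∈ S, u i * w i := by
      rw [← Finset.sum_neg_distrib]; exact Finset.sum_congr rfl fun i _ => by ring
    simp only [neg_sq] at h
    rw [e] at h
    linarith
  · exact Real.sum_mul_le_sqrt_mul_sqrt S u w

lemma rta_abs_sum_le {S : Finset (Fin n)} {u w : Fin n → ℝ} {A B : ℝ} (hA : 0 ≤ A) (hB : 0 ≤ B)
    (hu : ∑ i ∈ S, u i ^ 2 ≤ A ^ 2) (hw : ∑ i ∈ S, w i ^ 2 ≤ B ^ 2) :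
    |∑ i ∈ S, u i * w i| ≤ A * B := by
  refine (rta_abs_sum S u w).trans ?_
  have h1 : Real.sqrt (∑ i ∈ S, u i ^ 2) ≤ A := Real.sqrt_le_iff.mpr ⟨hA, hu⟩
  have h2 : Real.sqrt (∑ i ∈ S, w i ^ 2) ≤ B := Real.sqrt_le_iff.mpr ⟨hB, hw⟩
  exact mul_le_mul h1 h2 (Real.sqrt_nonneg _) hA

lemma rta_sqrt_sub {x y : ℝ} (hx : 0 ≤ x) (hy : 0 ≤ y) (hxy : y ≤ x) :
    Real.sqrt x - Real.sqrt y ≤ Real.sqrt (x - y) := by
  have h1 : Real.sqrt x ≤ Real.sqrt (x - y) + Real.sqrt y := by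
    rw [Real.sqrt_le_left (by positivity)]
    have h2 := Real.sq_sqrt (sub_nonneg.mpr hxy)
    have h3 := Real.sq_sqrt hy
    nlinarith [Real.sqrt_nonneg (x - y), Real.sqrt_nonneg y]
  linarith

/-- the test direction, orthogonal to `a` on `B` -/
lemma perp_exists {I B : Finset (Fin n)} (hBI : B ⊆ I) {a c : Fin n → ℝ}
    (hB : 1 / 2 ≤ ∑ i ∈ B, a i ^ 2) :
    ∃ ν₁ : Fin n → ℝ, ∑ i ∈ I, ν₁ i ^ 2 ≤ 1 ∧ ∑ i ∈ B, a i * ν₁ i = 0 ∧
      ∑ i ∈ I, ν₁ i * c i ≤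
        -(Real.sqrt (∑ i ∈ I, c i ^ 2) - 3 / 2 * |∑ i ∈ B, a i * c i|) := by
  obtain ⟨S, hS⟩ : ∃ S, S = ∑ i ∈ B, a i ^ 2 := ⟨_, rfl⟩
  obtain ⟨m, hm⟩ : ∃ m, m = ∑ i ∈ B, a i * c i := ⟨_, rfl⟩
  obtain ⟨Q, hQ⟩ : ∃ Q, Q = ∑ i ∈ I, c i ^ 2 := ⟨_, rfl⟩
  rw [← hS] at hB
  rw [← hm, ← hQ]
  have hSpos : 0 < S := by linarith
  have hQ0 : 0 ≤ Q := by rw [hQ]; exact Finset.sum_nonneg fun i _ => sq_nonneg _
  set d : Fin n → ℝ := fun i => c i - (if i ∈ B then m / S * a i else 0) with hd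
  have hsumB : ∀ g : Fin n → ℝ, ∑ i ∈ I, (if i ∈ B then g i else 0) = ∑ i ∈ B, g i := by
    intro g
    rw [← Finset.sum_filter]
    congr 1
    ext i
    simp only [Finset.mem_filter]
    exact ⟨fun h => h.2, fun h => ⟨hBI h, h⟩⟩
  have h1 : ∑ i ∈ B, a i * d i = 0 := by
    have e : ∀ i ∈ B, a i * d i = a i * c i - m / S * a i ^ 2 := by
      intro i hi
      simp only [hd, hi, if_true]; ring
    rw [Finset.sum_congr rfl e, Finset.sum_sub_distrib, ← Finset.mul_sum, ← hS, ← hm]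
    field_simp; ring
  have h2 : ∑ i ∈ I, d i * c i = Q - m ^ 2 / S := by
    have e : ∀ i ∈ I, d i * c i = c i ^ 2 - (if i ∈ B then m / S * (a i * c i) else 0) := by
      intro i _
      simp only [hd]; split_ifs <;> ring
    rw [Finset.sum_congr rfl e, Finset.sum_sub_distrib, hsumB, ← Finset.mul_sum, ← hm, ← hQ]
    ring
  have h3 : ∑ i ∈ I, d i ^ 2 = Q - m ^ 2 / S := by
    have e : ∀ i ∈ I, d i ^ 2 = c i ^ 2 - (if i ∈ B then
        (2 * (m / S) * (a i * c i) - (m / S) ^ 2 * a i ^ 2) else 0) := by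
      intro i _
      simp only [hd]; split_ifs <;> ring
    rw [Finset.sum_congr rfl e, Finset.sum_sub_distrib, hsumB, Finset.sum_sub_distrib,
      ← Finset.mul_sum, ← Finset.mul_sum, ← hm, ← hS, ← hQ]
    field_simp; ring
  have hD0 : 0 ≤ Q - m ^ 2 / S := by rw [← h3]; exact Finset.sum_nonneg fun i _ => sq_nonneg _
  have hmS : Real.sqrt (m ^ 2 / S) ≤ 3 / 2 * |m| := by
    rw [Real.sqrt_le_left (by positivity)]
    rw [div_le_iff₀ hSpos, mul_pow, sq_abs]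
    nlinarith [sq_nonneg m]
  have hmS0 : 0 ≤ m ^ 2 / S := by positivity
  have hlow : Real.sqrt Q - 3 / 2 * |m| ≤ Real.sqrt (Q - m ^ 2 / S) := by
    have := rta_sqrt_sub hQ0 hmS0 (by linarith)
    linarith
  rcases hD0.eq_or_lt with h0 | h0
  · refine ⟨fun _ => 0, by simp, by simp, ?_⟩
    rw [← h0, Real.sqrt_zero] at hlow
    simp only [zero_mul, Finset.sum_const_zero]
    linarith
  · obtain ⟨r, hr⟩ : ∃ r, r = Real.sqrt (Q - m ^ 2 / S) := ⟨_, rfl⟩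
    have hr0 : 0 < r := by rw [hr]; exact Real.sqrt_pos.mpr h0
    have hr2 : r ^ 2 = Q - m ^ 2 / S := by rw [hr]; exact Real.sq_sqrt hD0
    rw [← hr] at hlow
    refine ⟨fun i => -(d i) / r, ?_, ?_, ?_⟩
    · have e : ∀ i ∈ I, (-(d i) / r) ^ 2 = d i ^ 2 / r ^ 2 := fun i _ => by ring
      rw [Finset.sum_congr rfl e, ← Finset.sum_div, h3, ← hr2, div_self (by positivity)]
    · have e : ∀ i ∈ B, a i * (-(d i) / r) = -(a i * d i) / r := fun i _ => by ring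
      rw [Finset.sum_congr rfl e, ← Finset.sum_div, Finset.sum_neg_distrib, h1]; simp
    · have e : ∀ i ∈ I, -(d i) / r * c i = -(d i * c i) / r := fun i _ => by ring
      rw [Finset.sum_congr rfl e, ← Finset.sum_div, Finset.sum_neg_distrib, h2, ← hr2]
      have : -(r ^ 2) / r = -r := by field_simp
      rw [this]
      linarith

/-- generic perturbation of the test direction -/
lemma generic_nu {I B : Finset (Fin n)} (hI : I.Nonempty) (hBI : B ⊆ I) {a c ν₁ : Fin n → ℝ}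
    (ha : ∑ i, a i ^ 2 ≤ 1) (hc : ∑ i, c i ^ 2 ≤ 1) (hν₁ : ∑ i ∈ I, ν₁ i ^ 2 ≤ 1)
    (horth : ∑ i ∈ B, a i * ν₁ i = 0) {w : (Fin n → Bool) → ℝ} {u : ℝ} (hu : 0 < u) {ε : ℝ}
    (hε : 0 < ε) (hε1 : ε ≤ 1) :
    ∃ ν : Fin n → ℝ, (∀ i, i ∉ I → ν i = 0) ∧ ∑ i, ν i ^ 2 ≤ 1 ∧
      |∑ i ∈ B, a i * ν i| ≤ ε ∧
      ∑ i ∈ I, ν i * c i ≤ ∑ i ∈ I, ν₁ i * c i + 2 * ε ∧
      ∀ x, ∀ m : ℤ, w x - u * lfS I ν x ≠ 2 * m := by
  obtain ⟨ν', h1, h2⟩ := no_hit_vec hI w hu.ne' (fun i => (1 - ε) * ν₁ i) hε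
  have hcI : ∑ i ∈ I, c i ^ 2 ≤ 1 ^ 2 := by
    rw [one_pow]
    exact (Finset.sum_le_sum_of_subset_of_nonneg (Finset.subset_univ I)
      (fun i _ _ => sq_nonneg _)).trans hc
  have haB : ∑ i ∈ B, a i ^ 2 ≤ 1 ^ 2 := by
    rw [one_pow]
    exact (Finset.sum_le_sum_of_subset_of_nonneg (Finset.subset_univ B)
      (fun i _ _ => sq_nonneg _)).trans ha
  have h1B : ∑ i ∈ B, (ν' i - (1 - ε) * ν₁ i) ^ 2 ≤ ε ^ 2 :=
    (Finset.sum_le_sum_of_subset_of_nonneg hBI (fun i _ _ => sq_nonneg _)).trans h1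
  refine ⟨fun i => if i ∈ I then ν' i else 0, fun i hi => by simp [hi], ?_, ?_, ?_, ?_⟩
  · have e : ∑ i, (if i ∈ I then ν' i else 0) ^ 2 = ∑ i ∈ I, ν' i ^ 2 := by
      have e1 : ∀ i : Fin n, (if i ∈ I then ν' i else 0) ^ 2 =
          (if i ∈ I then ν' i ^ 2 else 0) := by intro i; split_ifs <;> simp
      simp only [e1]
      rw [← Finset.sum_filter]; congr 1; ext i; simp
    rw [e]
    have h3 := ac_mink I (fun i => ν' i - (1 - ε) * ν₁ i) (fun i => (1 - ε) * ν₁ i)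
    simp only [sub_add_cancel] at h3
    have h4 : Real.sqrt (∑ i ∈ I, (ν' i - (1 - ε) * ν₁ i) ^ 2) ≤ ε :=
      Real.sqrt_le_iff.mpr ⟨hε.le, h1⟩
    have h5 : Real.sqrt (∑ i ∈ I, ((1 - ε) * ν₁ i) ^ 2) ≤ 1 - ε := by
      apply Real.sqrt_le_iff.mpr ⟨by linarith, ?_⟩
      have e2 : ∀ i ∈ I, ((1 - ε) * ν₁ i) ^ 2 = (1 - ε) ^ 2 * ν₁ i ^ 2 := fun i _ => by ring
      rw [Finset.sum_congr rfl e2, ← Finset.mul_sum]
      calc (1 - ε) ^ 2 * ∑ i ∈ I, ν₁ i ^ 2 ≤ (1 - ε) ^ 2 * 1 :=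
            mul_le_mul_of_nonneg_left hν₁ (sq_nonneg _)
        _ = _ := mul_one _
    have h6 : Real.sqrt (∑ i ∈ I, ν' i ^ 2) ≤ 1 := by linarith
    have h7 := (Real.sqrt_le_left (by norm_num)).mp h6
    simpa using h7
  · have e : ∑ i ∈ B, a i * (if i ∈ I then ν' i else 0) =
        ∑ i ∈ B, a i * (ν' i - (1 - ε) * ν₁ i) := by
      have e1 : ∀ i ∈ B, a i * (if i ∈ I then ν' i else 0) =
          a i * (ν' i - (1 - ε) * ν₁ i) + (1 - ε) * (a i * ν₁ i) := by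
        intro i hi
        rw [if_pos (hBI hi)]; ring
      rw [Finset.sum_congr rfl e1, Finset.sum_add_distrib, ← Finset.mul_sum, horth]; ring
    rw [e]
    have := rta_abs_sum_le zero_le_one hε.le haB h1B
    linarith
  · have e1 : ∀ i ∈ I, (if i ∈ I then ν' i else 0) * c i =
        (ν' i - (1 - ε) * ν₁ i) * c i + (1 - ε) * (ν₁ i * c i) := by
      intro i hi
      rw [if_pos hi]; ring
    rw [Finset.sum_congr rfl e1, Finset.sum_add_distrib, ← Finset.mul_sum]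
    have h3 := rta_abs_sum_le hε.le zero_le_one h1 hcI
    have h4 := rta_abs_sum_le zero_le_one zero_le_one (by rw [one_pow]; exact hν₁) hcI
    have h5 := (abs_le.mp h3).2
    have h6 := (abs_le.mp h4).1
    nlinarith
  · intro x m
    have e : lfS I (fun i => if i ∈ I then ν' i else 0) x = lfS I ν' x := by
      unfold lfS
      apply Finset.sum_congr rfl
      intro i hi
      simp only [hi, if_true]
    rw [e]
    exact h2 x m

/-- `‖saw z - saw z'‖` and correlation -/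
lemma corr_diff {F G Y : (Fin n → Bool) → ℝ} {t : ℝ} (ht : 0 ≤ t)
    (hY : Ex (fun x => Y x ^ 2) ≤ 1) (hFG : Ex (fun x => (F x - G x) ^ 2) ≤ t ^ 2) :
    Ex (fun x => Y x * G x) ≤ Ex (fun x => Y x * F x) + t := by
  have h1 := Ex_cs_abs Y (fun x => F x - G x)
  have h2 : Real.sqrt (Ex fun x => Y x ^ 2) ≤ 1 := by
    exact Real.sqrt_le_iff.mpr ⟨zero_le_one, by rw [one_pow]; exact hY⟩
  have h3 : Real.sqrt (Ex fun x => (F x - G x) ^ 2) ≤ t := Real.sqrt_le_iff.mpr ⟨ht, hFG⟩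
  have h4 : |Ex fun x => Y x * (F x - G x)| ≤ t := by
    refine h1.trans ?_
    calc _ ≤ 1 * t := mul_le_mul h2 h3 (Real.sqrt_nonneg _) (by norm_num)
      _ = t := one_mul _
  have h5 : (Ex fun x => Y x * (F x - G x)) = Ex (fun x => Y x * F x) - Ex (fun x => Y x * G x) := by
    rw [← Ex_sub]; congr 1; funext x; ring
  rw [h5] at h4
  have := (abs_le.mp h4).1
  linarith

lemma sum_lin (I : Finset (Fin n)) (ν : Fin n → ℝ) (F : (Fin n → Bool) → ℝ) :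
    ∑ i ∈ I, ν i * Ex (fun x => F x * sb (x i)) = Ex fun x => lfS I ν x * F x := by
  have e : (fun x : Fin n → Bool => lfS I ν x * F x) =
      fun x => ∑ i ∈ I, ν i * (F x * sb (x i)) := by
    funext x
    unfold lfS
    rw [Finset.sum_mul]
    exact Finset.sum_congr rfl fun i _ => by ring
  rw [e, Ex_sum]
  exact Finset.sum_congr rfl fun i _ => by rw [Ex_mul]

end Pool.Agent.MP_cb3c9c_an.REG
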