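import Pool.Agent.MP_cb3c9c_an.REG.RTa

set_option autoImplicit false

open Finset MeasureTheory
open scoped BigOperators

namespace Pool.Agent.MP_cb3c9c_an.REG

open Pool.Agent.MP_cb3c9c_an.TwoBlock

variable {n : ℕ}

lemma rtb_sub_sq {S : Finset (Fin n)} {w ν : Fin n → ℝ} {A u : ℝ} (hA : 0 ≤ A) (hu : 0 ≤ u)
    (hw : ∑ i ∈ S, w i ^ 2 ≤ A ^ 2) (hν : ∑ i ∈ S, ν i ^ 2 ≤ 1) :
    ∑ i ∈ S, (w i - u * ν i) ^ 2 ≤ (A + u) ^ 2 := by
  have h1 := ac_mink S w (fun i => -(u * ν i))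
  have h2 : Real.sqrt (∑ i ∈ S, w i ^ 2) ≤ A := Real.sqrt_le_iff.mpr ⟨hA, hw⟩
  have h3 : Real.sqrt (∑ i ∈ S, (-(u * ν i)) ^ 2) ≤ u := by
    apply Real.sqrt_le_iff.mpr ⟨hu, ?_⟩
    have e : ∀ i ∈ S, (-(u * ν i)) ^ 2 = u ^ 2 * ν i ^ 2 := fun i _ => by ring
    rw [Finset.sum_congr rfl e, ← Finset.mul_sum]
    calc u ^ 2 * ∑ i ∈ S, ν i ^ 2 ≤ u ^ 2 * 1 := mul_le_mul_of_nonneg_left hν (sq_nonneg _)
      _ = u ^ 2 := mul_one _
  have h4 : Real.sqrt (∑ i ∈ S, (w i + -(u * ν i)) ^ 2) ≤ A + u := by linarith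
  have h5 := (Real.sqrt_le_left (by linarith)).mp h4
  simpa only [← sub_eq_add_neg] using h5

/-- second factor bookkeeping for the decorrelation error -/
lemma rtb_inner {B : Finset (Fin n)} {a ν : Fin n → ℝ} {κ : Fin n → ℤ} {σ s u δ e₈ ε₉ : ℝ}
    (hσ : 0 < σ) (hσδ : 1 / σ ≤ 2 * δ) (hs : 0 ≤ s) (hu : 0 ≤ u)
    (hsB : ∑ i ∈ B, (σ * a i - κ i) ^ 2 ≤ (2 * s) ^ 2)
    (h8 : |∑ i ∈ B, a i * (σ * a i - κ i)| ≤ e₈) (hν : ∑ i ∈ B, ν i ^ 2 ≤ 1)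
    (h9 : |∑ i ∈ B, a i * ν i| ≤ ε₉) :
    |∑ i ∈ B, (a i - u * ν i / σ) * (σ * (a i - u * ν i / σ) - κ i)| ≤
      e₈ + u * ε₉ + 2 * δ * (2 * s * u + u ^ 2) := by
  have e : ∀ i ∈ B, (a i - u * ν i / σ) * (σ * (a i - u * ν i / σ) - κ i) =
      a i * (σ * a i - κ i) - u * (a i * ν i) - (u / σ) * (ν i * (σ * a i - κ i)) +
        (u ^ 2 / σ) * ν i ^ 2 := by
    intro i _
    field_simp
    ring
  rw [Finset.sum_congr rfl e, Finset.sum_add_distrib, Finset.sum_sub_distrib,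
    Finset.sum_sub_distrib, ← Finset.mul_sum, ← Finset.mul_sum, ← Finset.mul_sum]
  have h1 := rta_abs_sum_le zero_le_one (by linarith : (0:ℝ) ≤ 2 * s)
    (by rw [one_pow]; exact hν) hsB
  have h0 : 0 ≤ ∑ i ∈ B, ν i ^ 2 := Finset.sum_nonneg fun i _ => sq_nonneg _
  obtain ⟨A1, hA1⟩ : ∃ A, A = ∑ i ∈ B, a i * (σ * a i - κ i) := ⟨_, rfl⟩
  obtain ⟨A2, hA2⟩ : ∃ A, A = ∑ i ∈ B, a i * ν i := ⟨_, rfl⟩
  obtain ⟨A3, hA3⟩ : ∃ A, A = ∑ i ∈ B, ν i * (σ * a i - κ i) := ⟨_, rfl⟩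
  obtain ⟨A4, hA4⟩ : ∃ A, A = ∑ i ∈ B, ν i ^ 2 := ⟨_, rfl⟩
  rw [← hA1] at h8 ⊢
  rw [← hA2] at h9 ⊢
  rw [← hA3] at h1 ⊢
  rw [← hA4] at h0 hν ⊢
  have hus : u / σ ≤ 2 * δ * u := by
    have := mul_le_mul_of_nonneg_left hσδ hu
    calc u / σ = u * (1 / σ) := by ring
      _ ≤ u * (2 * δ) := this
      _ = 2 * δ * u := by ring
  have hus0 : 0 ≤ u / σ := by positivity
  have hus2 : u ^ 2 / σ ≤ 2 * δ * u ^ 2 := by
    calc u ^ 2 / σ = u * (u / σ) := by ring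
      _ ≤ u * (2 * δ * u) := mul_le_mul_of_nonneg_left hus hu
      _ = 2 * δ * u ^ 2 := by ring
  have hus20 : 0 ≤ u ^ 2 / σ := by positivity
  have t1 : |A1 - u * A2 - u / σ * A3 + u ^ 2 / σ * A4| ≤
      |A1| + u * |A2| + (u / σ) * |A3| + (u ^ 2 / σ) * |A4| := by
    have e1 : |u * A2| = u * |A2| := by rw [abs_mul, abs_of_nonneg hu]
    have e2 : |u / σ * A3| = (u / σ) * |A3| := by rw [abs_mul, abs_of_nonneg hus0]
    have e3 : |u ^ 2 / σ * A4| = (u ^ 2 / σ) * |A4| := by rw [abs_mul, abs_of_nonneg hus20]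
    rw [← e1, ← e2, ← e3]
    have g1 := abs_add_le (A1 - u * A2 - u / σ * A3) (u ^ 2 / σ * A4)
    have g2 := abs_sub (A1 - u * A2) (u / σ * A3)
    have g3 := abs_sub A1 (u * A2)
    linarith
  have t2 : u * |A2| ≤ u * ε₉ := mul_le_mul_of_nonneg_left h9 hu
  have t3 : (u / σ) * |A3| ≤ (2 * δ * u) * (2 * s) := by
    have : |A3| ≤ 2 * s := by linarith
    exact mul_le_mul hus this (abs_nonneg _) (hus0.trans hus)
  have t4 : (u ^ 2 / σ) * |A4| ≤ (2 * δ * u ^ 2) * 1 := by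
    have : |A4| ≤ 1 := by rw [abs_of_nonneg h0]; exact hν
    exact mul_le_mul hus2 this (abs_nonneg _) (hus20.trans hus2)
  linarith

/-- the arithmetic of the last step -/
lemma rtb_last {p q σ C CL CI m G T1 T2 err X η : ℝ} (hσ : 0 < σ) (hp : 3 / 4 ≤ p) (hp1 : p ≤ 1)
    (hC : C ≤ CL + CI) (hCI : -G ≥ CI - T1 - T2 - m) (hm : 0 ≤ T1 + T2 + m + CL)
    (hX : (1 / σ) * (-p * G - err) ≤ X) (herr : T1 + T2 + m + CL + err ≤ 3 / 8 * η) (hη : 0 ≤ η)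
    (hq : q = p * (1 / σ) * (C - η / 2)) : q ≤ X := by
  refine le_trans ?_ hX
  rw [hq]
  have h1 : p * (1 / σ) * (C - η / 2) = (1 / σ) * (p * (C - η / 2)) := by ring
  rw [h1]
  apply mul_le_mul_of_nonneg_left _ (by positivity)
  have h2 : p * (CI - T1 - T2 - m) ≤ p * (-G) := mul_le_mul_of_nonneg_left hCI (by linarith)
  have h3 : p * (C - CL) ≤ p * CI := mul_le_mul_of_nonneg_left (by linarith) (by linarith)
  have h4 : p * (T1 + T2 + m + CL) ≤ 1 * (T1 + T2 + m + CL) :=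
    mul_le_mul_of_nonneg_right hp1 hm
  have h5 : 3 / 4 * (η / 2) ≤ p * (η / 2) := mul_le_mul_of_nonneg_right hp (by positivity)
  nlinarith

lemma rtb_sqrt_add {x y : ℝ} (hx : 0 ≤ x) (hy : 0 ≤ y) :
    Real.sqrt (x + y) ≤ Real.sqrt x + Real.sqrt y := by
  apply Real.sqrt_le_iff.mpr
  refine ⟨by positivity, ?_⟩
  have h1 := Real.sq_sqrt hx
  have h2 := Real.sq_sqrt hy
  have h3 : 0 ≤ Real.sqrt x * Real.sqrt y := by positivity
  nlinarith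

lemma sqrt_two_div_pi_bounds :
    3 / 4 ≤ Real.sqrt (2 / Real.pi) ∧ Real.sqrt (2 / Real.pi) ≤ 1 := by
  have h1 := Real.pi_lt_d2
  have h2 := Real.pi_gt_three
  constructor
  · apply Real.le_sqrt_of_sq_le
    rw [le_div_iff₀ (by positivity)]
    nlinarith
  · apply Real.sqrt_le_iff.mpr ⟨zero_le_one, ?_⟩
    rw [one_pow, div_le_one (by positivity)]
    linarith

theorem stage2 {a : Fin n → ℝ} {κ : Fin n → ℤ}
    {δ σ s u θ η η₁ R E εn εm r₁ r₂ e₈ ε₉ μ : ℝ} {L B : Finset (Fin n)}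
    (h : Reg a δ) (hδ : δ ≤ 1 / 10 ^ 12) (ha : ∀ i, 0 ≤ a i) (hane : ∀ x, lf a x ≠ 0)
    (hσ : 100 ≤ σ) (hσδ : 1 / σ ≤ 2 * δ) (hκσ : kap a * σ ^ 2 ≤ 6)
    (hL1 : 1 ≤ L.card) (hLk : ∀ i ∈ L, κ i = 1)
    (hω : ∑ i ∈ L, (σ * a i - 1) ^ 2 ≤ (θ * u) ^ 2)
    (hE : E = L.card / σ ^ 2) (hE1 : E ≤ 1)
    (hBL : B ⊆ Lᶜ) (hBm : 1 / 2 ≤ ∑ i ∈ B, a i ^ 2)
    (hs : 0 < s) (hsB : ∑ i ∈ B, (σ * a i - κ i) ^ 2 ≤ (2 * s) ^ 2)
    (h8 : |∑ i ∈ B, a i * (σ * a i - κ i)| ≤ e₈)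
    (hμ : ∑ i ∈ Lᶜ \ B, a i ^ 2 ≤ μ)
    (hu : 0 < u) (hu1 : u ≤ 1) (hus : u ≤ s) (hθ0 : 0 ≤ θ) (hθ1 : θ ≤ 1)
    (hr₁ : 0 < r₁) (hr₁' : r₁ ≤ 1 / 4) (hur₁ : u ≤ r₁)
    (hur : 2 * u ^ 2 * (1 + 1 / (16 * r₁ ^ 2)) ≤ (η / 100) ^ 2)
    (hr₂ : 0 < r₂) (hr₂' : r₂ ≤ 1 / 4) (hη : 0 < η) (hη₁ : 0 ≤ η₁) (hR : 0 < R)
    (hε₉ : 0 < ε₉) (hε₉1 : ε₉ ≤ 1) (hεn : 0 ≤ εn) (hεm : 0 ≤ εm)
    (hP1 : Ex (fun x : Fin n → Bool => if dz (σ * lf a x) ≤ 8 * r₁ then (1 : ℝ) else 0) ≤ εn ^ 2)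
    (hP2 : Ex (fun x : Fin n → Bool => if dz (σ * lf a x) ≤ r₂ then (1 : ℝ) else 0) ≤ εm ^ 2)
    (hP3 : ∀ b ν : Fin n → ℝ, ∑ i, ν i ^ 2 ≤ 1 →
      (∀ i, b i = if i ∈ L then 1 / σ else a i - u * ν i / σ) →
      Ex (fun x : Fin n → Bool => if dz (σ * lf b x) ≤ r₂ then (1 : ℝ) else 0) ≤ εm ^ 2)
    (hnum1 : 4 * εm + (2 * μ + 8 * δ ^ 2) * R ^ 2 / 2 +
      R * (Real.sqrt (2 * μ + 8 * δ ^ 2) +
        3 / r₂ * (e₈ + u * ε₉ + 2 * δ * (2 * s * u + u ^ 2)) + (ε₉ + 2 * δ)) +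
      20 * R * (1 + R ^ 3) * (3 * δ) * (1 + 3 / r₂ * (3 * s) + 3 / r₂ ^ 2 * (3 * s) ^ 2) ≤ η₁)
    (hnum2 : 2 * ε₉ + (η / 100 + 2 * εn) +
      3 / 2 * (3 / r₂ * e₈ + 6 / r₂ ^ 2 * δ * (2 * s) ^ 2 + 2 * εm) + (9 * θ + 2 * εn) +
      (12 * u + 10 ^ 7 * θ + 1.3 * η₁ / Real.sqrt E + 2 / (E * R) +
        2 * 10 ^ 5 * δ / (E ^ 3 * Real.sqrt E)) ≤ 3 / 8 * η) :
    Real.sqrt (2 / Real.pi) * (1 / σ) * (Real.sqrt (∑ i, sc a σ i ^ 2) - η / 2) ≤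
      Real.sqrt (∑ i, (cw a i - DD a * a i) ^ 2) := by
  have hσ0 : 0 < σ := by linarith
  have hδ0 := h.pos
  have h1le : ∑ i, a i ^ 2 ≤ 1 := h.unit.le
  -- Bessel
  have hc1 : ∑ i, sc a σ i ^ 2 ≤ 1 := by
    refine (ac_bessel univ (fun x => saw (σ * lf a x))).trans ?_
    calc Ex (fun x : Fin n → Bool => saw (σ * lf a x) ^ 2) ≤ Ex fun _ => (1 : ℝ) := by
          apply Ex_mono
          intro x
          have := abs_saw_le (σ * lf a x)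
          rw [← sq_abs]
          have h0 := abs_nonneg (saw (σ * lf a x))
          nlinarith
      _ = 1 := Ex_const 1
  -- test direction
  obtain ⟨ν₁, hν₁, horth, hν₁c⟩ := perp_exists hBL (a := a) (c := sc a σ) hBm
  have hBne : B.Nonempty := by
    by_contra hcon
    rw [Finset.not_nonempty_iff_eq_empty] at hcon
    rw [hcon] at hBm
    simp at hBm
    linarith
  have hIne : (Lᶜ : Finset (Fin n)).Nonempty := hBne.mono hBL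
  obtain ⟨ν, hν0, hν, hν9, hνc, hνhit⟩ := generic_nu hIne hBL h1le hc1 hν₁ horth
    (w := fun x => σ * lfS Lᶜ a x + L.card) hu hε₉ hε₉1
  obtain ⟨b, hb⟩ : ∃ b : Fin n → ℝ, b = fun i => if i ∈ L then 1 / σ else a i - u * ν i / σ :=
    ⟨_, rfl⟩
  have hbI : ∀ i ∈ Lᶜ, b i = a i - u * ν i / σ := by
    intro i hi
    rw [hb]
    simp only [Finset.mem_compl] at hi
    simp [hi]
  have hbL : ∀ i ∈ L, b i = 1 / σ := by
    intro i hi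
    rw [hb]; simp [hi]
  have hνI : ∑ i ∈ Lᶜ, ν i ^ 2 ≤ 1 := nt_sub hν _
  have hνB : ∑ i ∈ B, ν i ^ 2 ≤ 1 := nt_sub hν _
  -- forms
  have hlfb : ∀ x : Fin n → Bool, σ * lfS Lᶜ b x = σ * lfS Lᶜ a x - u * lfS Lᶜ ν x := by
    intro x
    unfold lfS
    rw [Finset.mul_sum, Finset.mul_sum, Finset.mul_sum, ← Finset.sum_sub_distrib]
    apply Finset.sum_congr rfl
    intro i hi
    rw [hbI i hi]
    field_simp
  have hne : ∀ x : Fin n → Bool, ∀ m : ℤ, σ * lfS Lᶜ b x + L.card ≠ 2 * m := by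
    intro x m hcon
    apply hνhit x m
    rw [hlfb] at hcon
    linarith
  -- bounds on `b`
  have hb3 : ∀ i ∈ Lᶜ, |b i| ≤ 3 * δ := by
    intro i hi
    rw [hbI i hi]
    have h1 : |a i| ≤ δ := h.le i
    have h2 : |u * ν i / σ| ≤ 2 * δ := by
      rw [abs_div, abs_mul, abs_of_pos hu, abs_of_pos hσ0]
      have h3 := nt_one hν i
      calc u * |ν i| / σ ≤ 1 * 1 / σ := by
            apply div_le_div_of_nonneg_right _ hσ0.le
            exact mul_le_mul hu1 h3 (abs_nonneg _) (by norm_num)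
        _ = 1 / σ := by norm_num
        _ ≤ 2 * δ := hσδ
    have h4 := abs_sub (a i) (u * ν i / σ)
    linarith
  have huσ : u / σ ≤ 2 * δ := by
    calc u / σ ≤ 1 / σ := div_le_div_of_nonneg_right hu1 hσ0.le
      _ ≤ 2 * δ := hσδ
  have huσ0 : 0 ≤ u / σ := by positivity
  have hsumb : ∀ S : Finset (Fin n), S ⊆ Lᶜ → ∀ A : ℝ, 0 ≤ A → ∑ i ∈ S, a i ^ 2 ≤ A ^ 2 →
      ∑ i ∈ S, b i ^ 2 ≤ (A + u / σ) ^ 2 := by
    intro S hS A hA hSA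
    have h2 := rtb_sub_sq hA huσ0 hSA (nt_sub hν S)
    refine le_trans (le_of_eq ?_) h2
    apply Finset.sum_congr rfl
    intro i hi
    rw [hbI i (hS hi)]
    ring
  have hb2 : ∑ i ∈ Lᶜ, b i ^ 2 ≤ 2 := by
    have h2 := hsumb Lᶜ (Finset.Subset.refl _) 1 zero_le_one (by
      rw [one_pow]
      exact (Finset.sum_le_sum_of_subset_of_nonneg (Finset.subset_univ _)
        (fun i _ _ => sq_nonneg _)).trans h1le)
    have h3 : u / σ ≤ 1 / 10 := by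
      have : δ ≤ 1 / 100 := hδ.trans (by norm_num)
      linarith
    nlinarith
  have hμ0 : 0 ≤ μ := (Finset.sum_nonneg fun i _ => sq_nonneg _).trans hμ
  have hbμ : ∑ i ∈ Lᶜ \ B, b i ^ 2 ≤ 2 * μ + 8 * δ ^ 2 := by
    have h2 : ∀ i ∈ Lᶜ \ B, b i ^ 2 ≤ 2 * a i ^ 2 + 2 * (u / σ) ^ 2 * ν i ^ 2 := by
      intro i hi
      rw [hbI i (Finset.mem_sdiff.mp hi).1]
      have e : u * ν i / σ = u / σ * ν i := by ring
      rw [e]
      nlinarith [sq_nonneg (a i + u / σ * ν i)]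
    refine (Finset.sum_le_sum h2).trans ?_
    rw [Finset.sum_add_distrib, ← Finset.mul_sum, ← Finset.mul_sum]
    have h3 : 2 * (u / σ) ^ 2 * ∑ i ∈ Lᶜ \ B, ν i ^ 2 ≤ 2 * (u / σ) ^ 2 * 1 :=
      mul_le_mul_of_nonneg_left (nt_sub hν _) (by positivity)
    have h4 : (u / σ) ^ 2 ≤ (2 * δ) ^ 2 := pow_le_pow_left₀ huσ0 huσ 2
    linarith
  have hs3 : ∑ i ∈ B, (σ * b i - κ i) ^ 2 ≤ (3 * s) ^ 2 := by
    have h2 := rtb_sub_sq (by linarith : (0:ℝ) ≤ 2 * s) hu.le hsB hνB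
    have h3 : (2 * s + u) ^ 2 ≤ (3 * s) ^ 2 := pow_le_pow_left₀ (by linarith) (by linarith) 2
    refine le_trans (le_of_eq ?_) (h2.trans h3)
    apply Finset.sum_congr rfl
    intro i hi
    rw [hbI i (hBL hi)]
    congr 1
    field_simp
    ring
  -- decorrelation
  have hdzeq : ∀ x : Fin n → Bool, dz (σ * lfS Lᶜ b x + L.card) = dz (σ * lf b x) := by
    intro x
    obtain ⟨m, hm⟩ := re_lfS_one L x
    have e1 : lf b x = lfS L b x + lfS Lᶜ b x := lf_split L b x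
    have e2 : lfS L b x = (1 / σ) * lfS L (fun _ => 1) x := by
      unfold lfS
      rw [Finset.mul_sum]
      apply Finset.sum_congr rfl
      intro i hi
      rw [hbL i hi]; ring
    have e3 : σ * lfS Lᶜ b x + L.card = σ * lf b x + 2 * m := by
      rw [e1, e2, ← hm]
      field_simp
      ring
    rw [e3, dz_add_two_mul]
  have hP3' : Ex (fun x : Fin n → Bool =>
      if dz (σ * lfS Lᶜ b x + L.card) ≤ r₂ then (1 : ℝ) else 0) ≤ εm ^ 2 := by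
    simp only [hdzeq]
    exact hP3 b ν hν (fun i => by rw [hb])
  have hdec0 := hdec_scene hBL (b := b) (ν := ν) (κ := κ) (N := L.card) (σ := σ) (δ := 3 * δ)
    (s := 3 * s) (r := r₂) (R := R) (by positivity) hb3
    (by have : δ ≤ 1 / 100 := hδ.trans (by norm_num)
        linarith) hb2 hνI (by positivity) hs3 hr₂ hr₂' hR.le
  have hinner := rtb_inner (B := B) (a := a) (ν := ν) (κ := κ) hσ0 hσδ hs.le hu.le hsB h8 hνB hν9
  have hsumBb : |∑ i ∈ B, b i * (σ * b i - κ i)| ≤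
      e₈ + u * ε₉ + 2 * δ * (2 * s * u + u ^ 2) := by
    refine le_trans (le_of_eq ?_) hinner
    congr 1
    apply Finset.sum_congr rfl
    intro i hi
    rw [hbI i (hBL hi)]
  have hsumBν : |∑ i ∈ B, b i * ν i| ≤ ε₉ + 2 * δ := by
    have e : ∑ i ∈ B, b i * ν i = ∑ i ∈ B, a i * ν i - (u / σ) * ∑ i ∈ B, ν i ^ 2 := by
      rw [Finset.mul_sum, ← Finset.sum_sub_distrib]
      apply Finset.sum_congr rfl
      intro i hi
      rw [hbI i (hBL hi)]; ring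
    rw [e]
    have g1 := abs_sub (∑ i ∈ B, a i * ν i) ((u / σ) * ∑ i ∈ B, ν i ^ 2)
    have g2 : |(u / σ) * ∑ i ∈ B, ν i ^ 2| ≤ 2 * δ := by
      have h0 : 0 ≤ ∑ i ∈ B, ν i ^ 2 := Finset.sum_nonneg fun i _ => sq_nonneg _
      rw [abs_of_nonneg (by positivity)]
      calc (u / σ) * ∑ i ∈ B, ν i ^ 2 ≤ (u / σ) * 1 := mul_le_mul_of_nonneg_left hνB huσ0
        _ ≤ 2 * δ := by linarith
    linarith
  have hdec : ∀ ζ ∈ Set.Icc 0 R,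
      |Ex (fun x : Fin n → Bool =>
          lfS Lᶜ ν x * saw (σ * lfS Lᶜ b x + L.card) * Real.cos (ζ * lfS Lᶜ b x)) -
        Real.exp (-(∑ i ∈ Lᶜ, b i ^ 2) * ζ ^ 2 / 2) *
          Ex (fun x : Fin n → Bool => lfS Lᶜ ν x * saw (σ * lfS Lᶜ b x + L.card))| ≤ η₁ := by
    intro ζ hζ
    refine (hdec0 ζ hζ).trans (le_trans ?_ hnum1)
    have k1 : Real.sqrt (Ex fun x : Fin n → Bool =>
        if dz (σ * lfS Lᶜ b x + L.card) ≤ r₂ then (1 : ℝ) else 0) ≤ εm :=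
      Real.sqrt_le_iff.mpr ⟨hεm, hP3'⟩
    have k2 : (∑ i ∈ Lᶜ \ B, b i ^ 2) * R ^ 2 / 2 ≤ (2 * μ + 8 * δ ^ 2) * R ^ 2 / 2 := by
      apply div_le_div_of_nonneg_right _ (by norm_num)
      exact mul_le_mul_of_nonneg_right hbμ (by positivity)
    have k3 : Real.sqrt (∑ i ∈ Lᶜ \ B, b i ^ 2) ≤ Real.sqrt (2 * μ + 8 * δ ^ 2) :=
      Real.sqrt_le_sqrt hbμ
    have k4 : 3 / r₂ * |∑ i ∈ B, b i * (σ * b i - κ i)| ≤
        3 / r₂ * (e₈ + u * ε₉ + 2 * δ * (2 * s * u + u ^ 2)) :=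
      mul_le_mul_of_nonneg_left hsumBb (by positivity)
    have k5 : R * (Real.sqrt (∑ i ∈ Lᶜ \ B, b i ^ 2) + 3 / r₂ * |∑ i ∈ B, b i * (σ * b i - κ i)| +
          |∑ i ∈ B, b i * ν i|) ≤ R * (Real.sqrt (2 * μ + 8 * δ ^ 2) +
        3 / r₂ * (e₈ + u * ε₉ + 2 * δ * (2 * s * u + u ^ 2)) + (ε₉ + 2 * δ)) :=
      mul_le_mul_of_nonneg_left (by linarith) hR.le
    linarith
  -- lower bound for `v`
  have hv := v_lower h hδ hane hL1 hσ hσδ hκσ hu hu1 hθ0 hθ1 hω hνI hbI hne hE hE1 hη₁ hR hdec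
  -- the correlation with the sawtooth
  have hY : Ex (fun x : Fin n → Bool => lfS Lᶜ ν x ^ 2) ≤ 1 := by
    rw [Ex_lfS_sq]; exact hνI
  have hy2 : Ex (fun x : Fin n → Bool =>
      (u * lfS Lᶜ ν x + lfS L (fun i => σ * a i - κ i) x) ^ 2) ≤ 2 * u ^ 2 := by
    have e1 : (fun x : Fin n → Bool => (u * lfS Lᶜ ν x + lfS L (fun i => σ * a i - κ i) x) ^ 2) =
        fun x => (u ^ 2 * lfS Lᶜ ν x ^ 2 + (2 * u) *
          (lfS Lᶜ ν x * lfS L (fun i => σ * a i - κ i) x)) +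
          lfS L (fun i => σ * a i - κ i) x ^ 2 := by
      funext x; ring
    rw [e1, Ex_add, Ex_add, Ex_mul, Ex_mul, Ex_lfS_sq, Ex_lfS_sq, Ex_lfS_mul]
    have e2 : (Lᶜ ∩ L : Finset (Fin n)) = ∅ := by
      ext i; simp
    rw [e2, Finset.sum_empty, mul_zero, add_zero]
    have e3 : ∑ i ∈ L, (σ * a i - κ i) ^ 2 ≤ u ^ 2 := by
      have e4 : ∑ i ∈ L, (σ * a i - κ i) ^ 2 = ∑ i ∈ L, (σ * a i - 1) ^ 2 := by
        apply Finset.sum_congr rfl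
        intro i hi
        rw [hLk i hi]; norm_num
      rw [e4]
      refine hω.trans ?_
      apply pow_le_pow_left₀ (by positivity)
      calc θ * u ≤ 1 * u := mul_le_mul_of_nonneg_right hθ1 hu.le
        _ = u := one_mul _
    have e5 : u ^ 2 * ∑ i ∈ Lᶜ, ν i ^ 2 ≤ u ^ 2 * 1 := mul_le_mul_of_nonneg_left hνI (by positivity)
    linarith
  have hdiff : Ex (fun x : Fin n → Bool =>
      (saw (σ * lf a x) - saw (σ * lfS Lᶜ b x + L.card)) ^ 2) ≤ (η / 100 + 2 * εn) ^ 2 := by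
    have h1 := saw_diff_norm hr₁ (fun x : Fin n → Bool => σ * lf a x)
      (fun x => σ * lfS Lᶜ b x + L.card)
      (fun x => u * lfS Lᶜ ν x + lfS L (fun i => σ * a i - κ i) x) (by
        intro x
        obtain ⟨m, hm⟩ := re_lfS_one L x
        refine ⟨-m, ?_⟩
        have e1 : lf a x = lfS L a x + lfS Lᶜ a x := lf_split L a x
        have e2 : lfS L (fun i => σ * a i - κ i) x = σ * lfS L a x - lfS L (fun _ => 1) x := by
          unfold lfS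
          rw [Finset.mul_sum, ← Finset.sum_sub_distrib]
          apply Finset.sum_congr rfl
          intro i hi
          show (σ * a i - (κ i : ℝ)) * sb (x i) = σ * (a i * sb (x i)) - 1 * sb (x i)
          rw [hLk i hi]; push_cast; ring
        rw [e1, e2, hlfb]
        push_cast
        linarith)
    refine h1.trans ?_
    have h2 : (1 + 1 / (16 * r₁ ^ 2)) * Ex (fun x : Fin n → Bool =>
        (u * lfS Lᶜ ν x + lfS L (fun i => σ * a i - κ i) x) ^ 2) ≤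
        (1 + 1 / (16 * r₁ ^ 2)) * (2 * u ^ 2) := mul_le_mul_of_nonneg_left hy2 (by positivity)
    have h3 : 0 ≤ η / 100 * (2 * εn) := by positivity
    nlinarith
  have hcorr := corr_diff (F := fun x : Fin n → Bool => saw (σ * lf a x))
    (G := fun x => saw (σ * lfS Lᶜ b x + L.card)) (Y := fun x => lfS Lᶜ ν x)
    (by positivity : 0 ≤ η / 100 + 2 * εn) hY hdiff
  have hsum_lin := sum_lin Lᶜ ν (fun x => saw (σ * lf a x))
  have hνc' : Ex (fun x : Fin n → Bool => lfS Lᶜ ν x * saw (σ * lf a x)) ≤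
      ∑ i ∈ Lᶜ, ν₁ i * sc a σ i + 2 * ε₉ := by
    rw [← hsum_lin]
    exact hνc
  -- `c` outside `L`, orthogonality
  have hsumac := sum_a_sc (a := a) (κ := κ) (σ := σ) (B := B) hr₂ hr₂' ha
    (fun i => (le_abs_self _).trans (h.le i)) h1le
  have hsumac' : |∑ i ∈ B, a i * sc a σ i| ≤
      3 / r₂ * e₈ + 6 / r₂ ^ 2 * δ * (2 * s) ^ 2 + 2 * εm := by
    refine hsumac.trans ?_
    have k1 : Real.sqrt (Ex fun x : Fin n → Bool =>
        if dz (σ * lf a x) ≤ r₂ then (1 : ℝ) else 0) ≤ εm := Real.sqrt_le_iff.mpr ⟨hεm, hP2⟩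
    have k2 : 3 / r₂ * |∑ i ∈ B, a i * (σ * a i - κ i)| ≤ 3 / r₂ * e₈ :=
      mul_le_mul_of_nonneg_left h8 (by positivity)
    have k3 : 6 / r₂ ^ 2 * δ * ∑ i ∈ B, (σ * a i - κ i) ^ 2 ≤ 6 / r₂ ^ 2 * δ * (2 * s) ^ 2 :=
      mul_le_mul_of_nonneg_left hsB (by positivity)
    linarith
  have hscL := sc_L (a := a) (κ := κ) (σ := σ) (θ := θ) (L := L) hr₁ hr₁' hθ0 hθ1 (by
    have e4 : ∑ i ∈ L, (σ * a i - κ i) ^ 2 = ∑ i ∈ L, (σ * a i - 1) ^ 2 := by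
      apply Finset.sum_congr rfl
      intro i hi
      rw [hLk i hi]; norm_num
    rw [e4]
    refine hω.trans ?_
    apply pow_le_pow_left₀ (by positivity)
    exact mul_le_mul_of_nonneg_left hur₁ hθ0)
  have hscL' : Real.sqrt (∑ i ∈ L, sc a σ i ^ 2) ≤ 9 * θ + 2 * εn := by
    refine hscL.trans ?_
    have k0 : Ex (fun x : Fin n → Bool => if dz (σ * lf a x) ≤ r₁ then (1 : ℝ) else 0) ≤
        εn ^ 2 := by
      refine le_trans (Ex_mono fun x => ?_) hP1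
      split_ifs with g1 g2
      · exact le_rfl
      · exfalso; linarith
      · norm_num
      · exact le_rfl
    have k1 : Real.sqrt (Ex fun x : Fin n → Bool =>
        if dz (σ * lf a x) ≤ r₁ then (1 : ℝ) else 0) ≤ εn := Real.sqrt_le_iff.mpr ⟨hεn, k0⟩
    linarith
  have hsplit : Real.sqrt (∑ i, sc a σ i ^ 2) ≤
      Real.sqrt (∑ i ∈ L, sc a σ i ^ 2) + Real.sqrt (∑ i ∈ Lᶜ, sc a σ i ^ 2) := by
    have e1 : ∑ i, sc a σ i ^ 2 = ∑ i ∈ L, sc a σ i ^ 2 + ∑ i ∈ Lᶜ, sc a σ i ^ 2 :=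
      (Finset.sum_add_sum_compl L _).symm
    rw [e1]
    exact rtb_sqrt_add (Finset.sum_nonneg fun i _ => sq_nonneg _)
      (Finset.sum_nonneg fun i _ => sq_nonneg _)
  -- conclusion
  obtain ⟨hp1, hp2⟩ := sqrt_two_div_pi_bounds
  have hm0 : 0 ≤ 3 / 2 * |∑ i ∈ B, a i * sc a σ i| := by positivity
  have hL0 : 0 ≤ Real.sqrt (∑ i ∈ L, sc a σ i ^ 2) := Real.sqrt_nonneg _
  refine rtb_last (p := Real.sqrt (2 / Real.pi)) (σ := σ) (C := Real.sqrt (∑ i, sc a σ i ^ 2))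
    (CL := Real.sqrt (∑ i ∈ L, sc a σ i ^ 2)) (CI := Real.sqrt (∑ i ∈ Lᶜ, sc a σ i ^ 2))
    (m := 3 / 2 * |∑ i ∈ B, a i * sc a σ i|)
    (G := Ex (fun x : Fin n → Bool => lfS Lᶜ ν x * saw (σ * lfS Lᶜ b x + L.card)))
    (T1 := 2 * ε₉) (T2 := η / 100 + 2 * εn)
    (err := 12 * u + 10 ^ 7 * θ + 1.3 * η₁ / Real.sqrt E + 2 / (E * R) +
        2 * 10 ^ 5 * δ / (E ^ 3 * Real.sqrt E)) (η := η) hσ0 hp1 hp2 hsplit ?_ ?_ hv ?_ hη.le rfl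
  · linarith
  · positivity
  · linarith

end Pool.Agent.MP_cb3c9c_an.REG
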