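import Pool.Agent.MP_cb3c9c_an.REG.RTb

set_option autoImplicit false

open Finset MeasureTheory
open scoped BigOperators

namespace Pool.Agent.MP_cb3c9c_an.REG

open Pool.Agent.MP_cb3c9c_an.TwoBlock

variable {n : ℕ}

/-- the output of the preparation step -/
structure Scene (a : Fin n → ℝ) (κ : Fin n → ℤ) (τ s δ β e q ε₂ μ C₁ : ℝ) (N₁ : ℕ)
    (L B J₁ : Finset (Fin n)) : Prop where
  h100 : 100 ≤ τ
  hτδ : 1 / τ ≤ 2 * δ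
  hκτ : kap a * τ ^ 2 ≤ 6
  hL1 : 1 ≤ L.card
  hLk : ∀ i ∈ L, κ i = 1
  hω : ∑ i ∈ L, (τ * a i - 1) ^ 2 ≤ (4 * q * s) ^ 2
  hE0 : ε₂ / 4 ≤ (L.card : ℝ) / τ ^ 2
  hE1 : (L.card : ℝ) / τ ^ 2 ≤ 1
  hBL : B ⊆ Lᶜ
  hJL : J₁ ⊆ Lᶜ
  hBm : 1 / 2 ≤ ∑ i ∈ B, a i ^ 2
  hs : 0 < s
  hsC : s ≤ C₁
  hlow : s ^ 2 / 2 ≤ ∑ i ∈ B, (τ * a i - κ i) ^ 2
  hup : ∑ i ∈ B, (τ * a i - κ i) ^ 2 ≤ (2 * s) ^ 2
  h8 : |∑ i ∈ B, a i * (τ * a i - κ i)| ≤ e * s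
  hμ : ∑ i ∈ Lᶜ \ B, a i ^ 2 ≤ μ
  hcase : (∀ i ∈ B, |τ * a i - κ i| ≤ (2 * β) * s) ∨
    (N₁ ≤ J₁.card ∧ (∀ j ∈ J₁, s / 2 ≤ |τ * a j - κ j|) ∧
      ∑ j ∈ J₁, (τ * a j - κ j) ^ 2 ≤ (3 * (2 * C₁)) ^ 2)

lemma scene_tie {a : Fin n → ℝ} {κ : Fin n → ℤ} {τ s δ β e q ε₂ μ C₁ : ℝ} {N₁ : ℕ}
    {L B J₁ : Finset (Fin n)} (S : Scene a κ τ s δ β e q ε₂ μ C₁ N₁ L B J₁)
    {b ν : Fin n → ℝ} {u h A : ℝ} (hu : 0 ≤ u) (hus : u ≤ s / 8) (hν : ∑ i, ν i ^ 2 ≤ 1)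
    (hb : ∀ i ∈ Lᶜ, τ * b i = τ * a i - u * ν i) (hN₁ : 1 ≤ N₁) (hβ : 0 < β) (hβ1 : β ≤ 1 / 32)
    (hh : 0 ≤ h) (hhs : h ≤ s / 4) (hh1 : h ≤ 1) (hA : 1 ≤ A) :
    Ex (fun x : Fin n → Bool => if dz (τ * lf b x) ≤ h then (1 : ℝ) else 0) ≤
      (A + 3) * (8 * h / s + 4 * Real.sqrt (Real.sqrt (2 * β)) + 2 / Real.sqrt N₁) +
        (4 * (2 * C₁)) ^ 2 / A ^ 2 := by
  have hs := S.hs
  have hsC := S.hsC
  refine near_tie_scene (b := b) (ω := fun i => τ * a i - κ i) (ν := ν) (κ := κ) (σ := τ) (s := s)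
    (u := u) (β := 2 * β) (C := 2 * C₁) (A := A) (h := h) (B := B) (J₁ := J₁) hN₁ hs (by linarith)
    hu hus hν (by linarith) (by linarith) ?_ S.hlow ?_ ?_ hh hhs hh1 hA
  · intro i hi
    have hi' : i ∈ Lᶜ := by
      rcases Finset.mem_union.mp hi with h1 | h1
      · exact S.hBL h1
      · exact S.hJL h1
    rw [hb i hi']
    ring
  · refine S.hup.trans ?_
    apply pow_le_pow_left₀ (by positivity)
    linarith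
  · exact S.hcase

lemma big_exists (c : ℝ) {d : ℝ} (hd : 0 < d) (m : ℝ) : ∃ M : ℝ, 0 < M ∧ m ≤ M ∧ c / M ≤ d := by
  refine ⟨max (max m 1) (|c| / d), ?_, ?_, ?_⟩
  · exact lt_of_lt_of_le zero_lt_one ((le_max_right m 1).trans (le_max_left _ _))
  · exact (le_max_left m 1).trans (le_max_left _ _)
  · have h0 : 0 < max (max m 1) (|c| / d) :=
      lt_of_lt_of_le zero_lt_one ((le_max_right m 1).trans (le_max_left _ _))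
    rw [div_le_iff₀ h0]
    have h1 : |c| / d ≤ max (max m 1) (|c| / d) := le_max_right _ _
    calc c ≤ |c| := le_abs_self c
      _ = d * (|c| / d) := by field_simp
      _ ≤ d * max (max m 1) (|c| / d) := mul_le_mul_of_nonneg_left h1 hd.le

lemma num_a {s u M e δ : ℝ} (hs : 0 < s) (hM : 0 < M) (hu : 0 ≤ u) (hus : u ≤ s) (hu1 : u ≤ 1)
    (he : 0 ≤ e) (hδ : 0 ≤ δ) :
    3 / (s / M) * (e * s + u * e + 2 * δ * (2 * s * u + u ^ 2)) ≤ 3 * M * (2 * e + 6 * δ) := by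
  have h1 : u * e ≤ s * e := mul_le_mul_of_nonneg_right hus he
  have h2 : s * u ≤ s * 1 := mul_le_mul_of_nonneg_left hu1 hs.le
  have h3 : u ^ 2 ≤ s * 1 := by
    rw [sq]; exact mul_le_mul hus hu1 hu hs.le
  have h4 : 2 * δ * (2 * s * u + u ^ 2) ≤ 2 * δ * (3 * s) :=
    mul_le_mul_of_nonneg_left (by linarith) (by linarith)
  have h5 : e * s + u * e + 2 * δ * (2 * s * u + u ^ 2) ≤ s * (2 * e + 6 * δ) := by linarith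
  calc 3 / (s / M) * (e * s + u * e + 2 * δ * (2 * s * u + u ^ 2))
      ≤ 3 / (s / M) * (s * (2 * e + 6 * δ)) := mul_le_mul_of_nonneg_left h5 (by positivity)
    _ = 3 * M * (2 * e + 6 * δ) := by field_simp

lemma num_b {s M : ℝ} (hs : 0 < s) (hM : 0 < M) :
    1 + 3 / (s / M) * (3 * s) + 3 / (s / M) ^ 2 * (3 * s) ^ 2 = 1 + 9 * M + 27 * M ^ 2 := by
  field_simp
  ring

lemma num_c {s M δ : ℝ} (hs : 0 < s) (hM : 0 < M) :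
    6 / (s / M) ^ 2 * δ * (2 * s) ^ 2 = 24 * M ^ 2 * δ := by
  field_simp
  ring

lemma num_d {s M e : ℝ} (hs : 0 < s) (hM : 0 < M) :
    3 / (s / M) * (e * s) = 3 * M * e := by
  field_simp

lemma num_tie {A M C β t : ℝ} {N₁ : ℕ} (h1 : (A + 3) * 8 / M ≤ t / 4)
    (h2 : (A + 3) * (4 * Real.sqrt (Real.sqrt (2 * β))) ≤ t / 4)
    (h3 : (A + 3) * (2 / Real.sqrt N₁) ≤ t / 4) (h4 : (4 * (2 * C)) ^ 2 / A ^ 2 ≤ t / 4) :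
    (A + 3) * (8 / M + 4 * Real.sqrt (Real.sqrt (2 * β)) + 2 / Real.sqrt N₁) +
        (4 * (2 * C)) ^ 2 / A ^ 2 ≤ t := by
  have e : (A + 3) * (8 / M + 4 * Real.sqrt (Real.sqrt (2 * β)) + 2 / Real.sqrt N₁) =
      (A + 3) * 8 / M + (A + 3) * (4 * Real.sqrt (Real.sqrt (2 * β))) +
        (A + 3) * (2 / Real.sqrt N₁) := by ring
  rw [e]
  linarith

lemma A_exists {C t : ℝ} (ht : 0 < t) :
    ∃ A : ℝ, 1 ≤ A ∧ (4 * (2 * C)) ^ 2 / A ^ 2 ≤ t / 4 := by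
  obtain ⟨A, hA0, hA1, hA⟩ := big_exists ((4 * (2 * C)) ^ 2) (by linarith : 0 < t / 4) 1
  refine ⟨A, hA1, le_trans ?_ hA⟩
  apply div_le_div_of_nonneg_left (by positivity) hA0
  nlinarith

lemma N_exists {A t : ℝ} (hA : 1 ≤ A) (ht : 0 < t) :
    ∃ N : ℕ, 1 ≤ N ∧ (A + 3) * (2 / Real.sqrt N) ≤ t / 4 := by
  obtain ⟨N, hN⟩ := exists_nat_ge ((8 * (A + 3) / t) ^ 2 + 1)
  have hN1 : (1 : ℝ) ≤ N := le_trans (by nlinarith [sq_nonneg (8 * (A + 3) / t)]) hN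
  refine ⟨N, by exact_mod_cast hN1, ?_⟩
  have h1 : 8 * (A + 3) / t ≤ Real.sqrt N := Real.le_sqrt_of_sq_le (by linarith)
  have h2 : 0 < Real.sqrt N := Real.sqrt_pos.mpr (by linarith)
  have h3 : 8 * (A + 3) ≤ Real.sqrt N * t := by rwa [div_le_iff₀ ht] at h1
  rw [mul_div_assoc', div_le_div_iff₀ h2 (by norm_num)]
  linarith

lemma β_exists {A t : ℝ} (hA : 1 ≤ A) (ht : 0 < t) (ht1 : t ≤ 1) :
    ∃ β : ℝ, 0 < β ∧ β ≤ 1 / 32 ∧ (A + 3) * (4 * Real.sqrt (Real.sqrt (2 * β))) ≤ t / 4 := by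
  obtain ⟨y, hy⟩ : ∃ y : ℝ, y = t / (16 * (A + 3)) := ⟨_, rfl⟩
  have hy0 : 0 < y := by rw [hy]; positivity
  have hy1 : y ≤ 1 / 64 := by
    rw [hy, div_le_div_iff₀ (by positivity) (by norm_num)]
    linarith
  have hyA : (A + 3) * y = t / 16 := by rw [hy]; field_simp
  refine ⟨y ^ 4 / 2, by positivity, ?_, ?_⟩
  · have h1 : y ^ 4 ≤ (1 / 64) ^ 4 := pow_le_pow_left₀ hy0.le hy1 4
    norm_num at h1
    linarith
  · have e1 : 2 * (y ^ 4 / 2) = (y ^ 2) ^ 2 := by ring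
    rw [e1, Real.sqrt_sq (by positivity), Real.sqrt_sq hy0.le]
    linarith

end Pool.Agent.MP_cb3c9c_an.REG
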