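import Pool.Agent.MP_cb3c9c_an.REG.RTc

set_option autoImplicit false

open Finset MeasureTheory
open scoped BigOperators

namespace Pool.Agent.MP_cb3c9c_an.REG

open Pool.Agent.MP_cb3c9c_an.TwoBlock

variable {n : ℕ}

lemma small_exists' (c : ℝ) {d : ℝ} (hd : 0 < d) :
    ∃ δ₁ : ℝ, 0 < δ₁ ∧ ∀ δ, 0 ≤ δ → δ ≤ δ₁ → c * δ ≤ d := by
  refine ⟨d / (|c| + 1), by positivity, fun δ h0 h1 => ?_⟩
  have h2 : c * δ ≤ |c| * δ := mul_le_mul_of_nonneg_right (le_abs_self c) h0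
  have h3 : |c| * δ ≤ (|c| + 1) * (d / (|c| + 1)) :=
    mul_le_mul (by linarith) h1 h0 (by positivity)
  have h4 : (|c| + 1) * (d / (|c| + 1)) = d := by field_simp
  linarith

/-- all quantities that do not depend on the scene, with their numerical properties -/
lemma params (η C₁ ε₁ : ℝ) (hη : 0 < η) (hη1 : η ≤ 1) (hC₁ : 1 ≤ C₁) (hε₁ : 0 < ε₁)
    (hε₁1 : ε₁ ≤ 1) :
    ∃ A₁ M₁ q E₀ η₁ R εm A₂ M₂ β : ℝ, ∃ N₁ : ℕ,
      1 ≤ A₁ ∧ 32 ≤ M₁ ∧ 12 * C₁ ≤ M₁ ∧ (A₁ + 3) * (8 * 8) / M₁ ≤ (η / 100) ^ 2 / 4 ∧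
      (4 * (2 * C₁)) ^ 2 / A₁ ^ 2 ≤ (η / 100) ^ 2 / 4 ∧
      0 < q ∧ 4 * q * M₁ = (η / 10 ^ 9) * (η / 100) ∧ E₀ = ε₁ * q ^ 2 / 8 / 4 ∧ 0 < E₀ ∧
      0 < η₁ ∧ η₁ = η / 1000 * Real.sqrt E₀ ∧ η₁ ≤ η / 1000 ∧ 0 < R ∧ 2 / (E₀ * R) ≤ η / 500 ∧
      0 < εm ∧ 16 * εm = η₁ ∧ 1 ≤ A₂ ∧ A₁ ≤ A₂ ∧ 4 ≤ M₂ ∧ 4 * C₁ ≤ M₂ ∧
      (A₂ + 3) * 8 / M₂ ≤ εm ^ 2 / 4 ∧ (4 * (2 * C₁)) ^ 2 / A₂ ^ 2 ≤ εm ^ 2 / 4 ∧
      0 < β ∧ β ≤ 1 / 32 ∧ (A₂ + 3) * (4 * Real.sqrt (Real.sqrt (2 * β))) ≤ εm ^ 2 / 4 ∧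
      1 ≤ N₁ ∧ (A₂ + 3) * (2 / Real.sqrt N₁) ≤ εm ^ 2 / 4 := by
  have hC0 : 0 < C₁ := by linarith
  obtain ⟨A₁, hA1, hA1'⟩ := A_exists (C := C₁) (t := (η / 100) ^ 2) (by positivity)
  obtain ⟨M₁, hM0, hM1, hM1'⟩ := big_exists ((A₁ + 3) * (8 * 8))
    (by positivity : 0 < (η / 100) ^ 2 / 4) (max 32 (12 * C₁))
  have hM1a : 32 ≤ M₁ := (le_max_left _ _).trans hM1
  have hM1b : 12 * C₁ ≤ M₁ := (le_max_right _ _).trans hM1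
  obtain ⟨q, hq⟩ : ∃ q : ℝ, q = (η / 10 ^ 9) * (η / 100) / (4 * M₁) := ⟨_, rfl⟩
  have hq0 : 0 < q := by rw [hq]; positivity
  have hq1 : 4 * q * M₁ = (η / 10 ^ 9) * (η / 100) := by rw [hq]; field_simp
  have hq2 : q ≤ 1 := by
    have : 4 * q * M₁ ≤ 1 := by
      rw [hq1]
      have h1 : η / 10 ^ 9 ≤ 1 := by rw [div_le_one (by positivity)]; linarith
      have h2 : η / 100 ≤ 1 := by linarith
      calc (η / 10 ^ 9) * (η / 100) ≤ 1 * 1 := mul_le_mul h1 h2 (by positivity) (by norm_num)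
        _ = 1 := by norm_num
    nlinarith
  obtain ⟨E₀, hE⟩ : ∃ E₀ : ℝ, E₀ = ε₁ * q ^ 2 / 8 / 4 := ⟨_, rfl⟩
  have hE0 : 0 < E₀ := by rw [hE]; positivity
  have hE1 : E₀ ≤ 1 := by
    rw [hE]
    have h1 : q ^ 2 ≤ 1 := by nlinarith
    have h2 : ε₁ * q ^ 2 ≤ 1 * 1 := mul_le_mul hε₁1 h1 (by positivity) (by norm_num)
    linarith
  have hsE0 : 0 < Real.sqrt E₀ := Real.sqrt_pos.mpr hE0
  have hsE1 : Real.sqrt E₀ ≤ 1 := Real.sqrt_le_iff.mpr ⟨zero_le_one, by linarith⟩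
  obtain ⟨η₁, hη₁⟩ : ∃ η₁ : ℝ, η₁ = η / 1000 * Real.sqrt E₀ := ⟨_, rfl⟩
  have hη₁0 : 0 < η₁ := by rw [hη₁]; positivity
  have hη₁1 : η₁ ≤ η / 1000 := by
    rw [hη₁]
    calc η / 1000 * Real.sqrt E₀ ≤ η / 1000 * 1 := mul_le_mul_of_nonneg_left hsE1 (by positivity)
      _ = η / 1000 := mul_one _
  obtain ⟨R, hR0, -, hR⟩ := big_exists (2 / E₀) (by positivity : 0 < η / 500) 1
  have hR' : 2 / (E₀ * R) ≤ η / 500 := by rw [← div_div]; exact hR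
  obtain ⟨εm, hεm⟩ : ∃ εm : ℝ, εm = η₁ / 16 := ⟨_, rfl⟩
  have hεm0 : 0 < εm := by rw [hεm]; positivity
  have hεm16 : 16 * εm = η₁ := by rw [hεm]; ring
  have hεm1 : εm ^ 2 ≤ 1 := by
    have : εm ≤ 1 := by linarith
    nlinarith
  obtain ⟨A₀, hA0, hA0'⟩ := A_exists (C := C₁) (t := εm ^ 2) (by positivity)
  obtain ⟨A₂, hA⟩ : ∃ A₂ : ℝ, A₂ = max A₀ A₁ := ⟨_, rfl⟩
  have hA2a : A₀ ≤ A₂ := by rw [hA]; exact le_max_left _ _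
  have hA2b : A₁ ≤ A₂ := by rw [hA]; exact le_max_right _ _
  have hA2c : (4 * (2 * C₁)) ^ 2 / A₂ ^ 2 ≤ εm ^ 2 / 4 := by
    refine le_trans ?_ hA0'
    apply div_le_div_of_nonneg_left (by positivity) (by positivity)
    exact pow_le_pow_left₀ (by linarith) hA2a 2
  have hA2d : 1 ≤ A₂ := hA1.trans hA2b
  obtain ⟨M₂, hM20, hM2, hM2'⟩ := big_exists ((A₂ + 3) * 8)
    (by positivity : 0 < εm ^ 2 / 4) (max 4 (4 * C₁))
  have hM2a : 4 ≤ M₂ := (le_max_left _ _).trans hM2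
  have hM2b : 4 * C₁ ≤ M₂ := (le_max_right _ _).trans hM2
  obtain ⟨β, hβ0, hβ1, hβ⟩ := β_exists hA2d (by positivity : 0 < εm ^ 2) hεm1
  obtain ⟨N₁, hN1, hN⟩ := N_exists hA2d (by positivity : 0 < εm ^ 2)
  exact ⟨A₁, M₁, q, E₀, η₁, R, εm, A₂, M₂, β, N₁, hA1, hM1a, hM1b, hM1', hA1', hq0, hq1, hE, hE0,
    hη₁0, hη₁, hη₁1, hR0, hR', hεm0, hεm16, hA2d, hA2b, hM2a, hM2b, hM2', hA2c, hβ0, hβ1, hβ,
    hN1, hN⟩

/-- the last parameters -/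
lemma params2 (η η₁ R M₂ E₀ q : ℝ) (hη : 0 < η) (hη₁ : 0 < η₁) (hR : 0 < R) (hM₂ : 0 < M₂)
    (hE₀ : 0 < E₀) (hq : 0 < q) :
    ∃ e μ δ₁ : ℝ, 0 < e ∧ e ≤ q ∧ e ≤ 1 ∧ 0 < μ ∧ 0 < δ₁ ∧ δ₁ ≤ 1 / 10 ^ 12 ∧
      R * (3 * M₂ + 1) * (2 * e) ≤ η₁ / 8 ∧ (9 * M₂ / 2 + 2) * e ≤ η / 100 ∧
      ∀ δ, 0 ≤ δ → δ ≤ δ₁ →
        (2 * μ + 8 * δ ^ 2) * R ^ 2 / 2 ≤ η₁ / 8 ∧ R * Real.sqrt (2 * μ + 8 * δ ^ 2) ≤ η₁ / 8 ∧
        R * (3 * M₂ * 6 + 2) * δ ≤ η₁ / 8 ∧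
        20 * R * (1 + R ^ 3) * (3 * δ) * (1 + 9 * M₂ + 27 * M₂ ^ 2) ≤ η₁ / 8 ∧
        3 / 2 * (24 * M₂ ^ 2 * δ) ≤ η / 100 ∧
        2 * 10 ^ 5 * δ / (E₀ ^ 3 * Real.sqrt E₀) ≤ η / 100 := by
  obtain ⟨w, hw⟩ : ∃ w : ℝ, w = min (η₁ / (4 * R ^ 2)) ((η₁ / (8 * R)) ^ 2) := ⟨_, rfl⟩
  have hw0 : 0 < w := by rw [hw]; positivity
  have hw1 : w * R ^ 2 / 2 ≤ η₁ / 8 := by
    have h1 : w ≤ η₁ / (4 * R ^ 2) := by rw [hw]; exact min_le_left _ _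
    have h2 : w * R ^ 2 ≤ η₁ / (4 * R ^ 2) * R ^ 2 := mul_le_mul_of_nonneg_right h1 (by positivity)
    have h3 : η₁ / (4 * R ^ 2) * R ^ 2 = η₁ / 4 := by field_simp
    linarith
  have hw2 : R * Real.sqrt w ≤ η₁ / 8 := by
    have h1 : w ≤ (η₁ / (8 * R)) ^ 2 := by rw [hw]; exact min_le_right _ _
    have h2 : Real.sqrt w ≤ η₁ / (8 * R) := Real.sqrt_le_iff.mpr ⟨by positivity, h1⟩
    calc R * Real.sqrt w ≤ R * (η₁ / (8 * R)) := mul_le_mul_of_nonneg_left h2 hR.le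
      _ = η₁ / 8 := by field_simp
  obtain ⟨e1, he1, H1⟩ := small_exists' (R * (3 * M₂ + 1) * 2) (by positivity : 0 < η₁ / 8)
  obtain ⟨e2, he2, H2⟩ := small_exists' (9 * M₂ / 2 + 2) (by positivity : 0 < η / 100)
  obtain ⟨d1, hd1, G1⟩ := small_exists' 8 (by positivity : 0 < w / 2)
  obtain ⟨d2, hd2, G2⟩ := small_exists' (R * (3 * M₂ * 6 + 2)) (by positivity : 0 < η₁ / 8)
  obtain ⟨d3, hd3, G3⟩ := small_exists' (20 * R * (1 + R ^ 3) * 3 * (1 + 9 * M₂ + 27 * M₂ ^ 2))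
    (by positivity : 0 < η₁ / 8)
  obtain ⟨d4, hd4, G4⟩ := small_exists' (3 / 2 * (24 * M₂ ^ 2)) (by positivity : 0 < η / 100)
  obtain ⟨d5, hd5, G5⟩ := small_exists' (2 * 10 ^ 5 / (E₀ ^ 3 * Real.sqrt E₀))
    (by positivity : 0 < η / 100)
  have hE : ∀ e, e = min (min q 1) (min e1 e2) → 0 < e ∧ e ≤ q ∧ e ≤ 1 ∧ e ≤ e1 ∧ e ≤ e2 := by
    rintro e rfl
    refine ⟨by positivity, ?_, ?_, ?_, ?_⟩
    · exact (min_le_left _ _).trans (min_le_left _ _)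
    · exact (min_le_left _ _).trans (min_le_right _ _)
    · exact (min_le_right _ _).trans (min_le_left _ _)
    · exact (min_le_right _ _).trans (min_le_right _ _)
  obtain ⟨e, he⟩ : ∃ e : ℝ, e = min (min q 1) (min e1 e2) := ⟨_, rfl⟩
  obtain ⟨f0, f1, f2, f3, f4⟩ := hE e he
  refine ⟨e, w / 4, min (1 / 10 ^ 12) (min d1 (min d2 (min d3 (min d4 d5)))), f0, f1, f2,
    by positivity, by positivity, min_le_left _ _, ?_, H2 e f0.le f4, ?_⟩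
  · have := H1 e f0.le f3
    linarith
  intro δ hδ0 hδ
  have hδ12 : δ ≤ 1 / 10 ^ 12 := hδ.trans (min_le_left _ _)
  have hδ' := hδ.trans (min_le_right _ _)
  have g1 := G1 δ hδ0 (hδ'.trans (min_le_left _ _))
  have hδ' := hδ'.trans (min_le_right _ _)
  have g2 := G2 δ hδ0 (hδ'.trans (min_le_left _ _))
  have hδ' := hδ'.trans (min_le_right _ _)
  have g3 := G3 δ hδ0 (hδ'.trans (min_le_left _ _))
  have hδ' := hδ'.trans (min_le_right _ _)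
  have g4 := G4 δ hδ0 (hδ'.trans (min_le_left _ _))
  have g5 := G5 δ hδ0 (hδ'.trans (min_le_right _ _))
  have hww : 2 * (w / 4) + 8 * δ ^ 2 ≤ w := by
    have h1 : δ ^ 2 ≤ δ := by
      have : δ ≤ 1 := hδ12.trans (by norm_num)
      nlinarith
    linarith
  refine ⟨?_, ?_, g2, ?_, ?_, ?_⟩
  · have h1 : (2 * (w / 4) + 8 * δ ^ 2) * R ^ 2 ≤ w * R ^ 2 :=
      mul_le_mul_of_nonneg_right hww (by positivity)
    linarith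
  · refine le_trans ?_ hw2
    exact mul_le_mul_of_nonneg_left (Real.sqrt_le_sqrt hww) hR.le
  · have e1 : 20 * R * (1 + R ^ 3) * (3 * δ) * (1 + 9 * M₂ + 27 * M₂ ^ 2) =
        20 * R * (1 + R ^ 3) * 3 * (1 + 9 * M₂ + 27 * M₂ ^ 2) * δ := by ring
    rw [e1]; exact g3
  · have e1 : 3 / 2 * (24 * M₂ ^ 2 * δ) = 3 / 2 * (24 * M₂ ^ 2) * δ := by ring
    rw [e1]; exact g4
  · have e1 : 2 * 10 ^ 5 * δ / (E₀ ^ 3 * Real.sqrt E₀) =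
        2 * 10 ^ 5 / (E₀ ^ 3 * Real.sqrt E₀) * δ := by ring
    rw [e1]; exact g5

theorem scene_main (η C₁ ε₁ : ℝ) (hη : 0 < η) (hη1 : η ≤ 1) (hC₁ : 1 ≤ C₁) (hε₁ : 0 < ε₁)
    (hε₁1 : ε₁ ≤ 1) :
    ∃ q β e μ δ₁ : ℝ, ∃ N₁ : ℕ, 0 < q ∧ q ≤ 1 / 20 ∧ 6 * q * C₁ ≤ η ∧ 0 < β ∧ β ≤ 1 / 32 ∧
      1 ≤ N₁ ∧ 0 < e ∧ e ≤ q ∧ 0 < μ ∧ 0 < δ₁ ∧ δ₁ ≤ 1 / 10 ^ 12 ∧
      ∀ (n : ℕ) (a : Fin n → ℝ) (κ : Fin n → ℤ) (τ s δ : ℝ) (L B J₁ : Finset (Fin n)),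
        Reg a δ → δ ≤ δ₁ → (∀ i, 0 ≤ a i) → (∀ x, lf a x ≠ 0) →
        Scene a κ τ s δ β e q (ε₁ * q ^ 2 / 8) μ C₁ N₁ L B J₁ →
        Real.sqrt (2 / Real.pi) * (1 / τ) * (Real.sqrt (∑ i, sc a τ i ^ 2) - η / 2) ≤
          Real.sqrt (∑ i, (cw a i - DD a * a i) ^ 2) := by
  obtain ⟨A₁, M₁, q, E₀, η₁, R, εm, A₂, M₂, β, N₁, hA1, hM1a, hM1b, hM1', hA1', hq0, hq1, hE, hE0,
    hη₁0, hη₁, hη₁1, hR0, hR', hεm0, hεm16, hA2d, hA2b, hM2a, hM2b, hM2', hA2c, hβ0, hβ1, hβ,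
    hN1, hN⟩ := params η C₁ ε₁ hη hη1 hC₁ hε₁ hε₁1
  have hM10 : 0 < M₁ := by linarith
  have hM20 : 0 < M₂ := by linarith
  obtain ⟨e, μ, δ₁, he0, heq, he1, hμ0, hδ₁0, hδ₁1, p1, p2, P⟩ :=
    params2 η η₁ R M₂ E₀ q hη hη₁0 hR0 hM20 hE0 hq0
  have hθε : (η / 10 ^ 9) * (η / 100) ≤ η := by
    have h1 : (η / 10 ^ 9) * (η / 100) = η * (η / (10 ^ 9 * 100)) := by ring
    rw [h1]
    have h2 : η / (10 ^ 9 * 100) ≤ 1 := by rw [div_le_one (by positivity)]; linarith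
    nlinarith
  have hq20 : q ≤ 1 / 20 := by
    have h3 : 4 * q * 32 ≤ 4 * q * M₁ := mul_le_mul_of_nonneg_left hM1a (by positivity)
    linarith
  have hqC : 6 * q * C₁ ≤ η := by
    have h3 : 4 * q * (12 * C₁) ≤ 4 * q * M₁ := mul_le_mul_of_nonneg_left hM1b (by positivity)
    have h4 : 0 < q * C₁ := by positivity
    linarith
  refine ⟨q, β, e, μ, δ₁, N₁, hq0, hq20, hqC, hβ0, hβ1, hN1, he0, heq, hμ0, hδ₁0, hδ₁1, ?_⟩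
  intro n a κ τ s δ L B J₁ h hδ ha hane S
  have hδ0 := h.pos
  obtain ⟨g1, g2, g3, g4, g5, g6⟩ := P δ hδ0.le hδ
  clear P
  have hs := S.hs
  have hsC := S.hsC
  obtain ⟨r₁, hr₁⟩ : ∃ r₁ : ℝ, r₁ = s / M₁ := ⟨_, rfl⟩
  obtain ⟨r₂, hr₂⟩ : ∃ r₂ : ℝ, r₂ = s / M₂ := ⟨_, rfl⟩
  have hr10 : 0 < r₁ := by rw [hr₁]; positivity
  have hr20 : 0 < r₂ := by rw [hr₂]; positivity
  have hr1a : r₁ ≤ 1 / 12 := by
    rw [hr₁, div_le_div_iff₀ hM10 (by norm_num)]; linarith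
  have hr2a : r₂ ≤ 1 / 4 := by
    rw [hr₂, div_le_div_iff₀ hM20 (by norm_num)]; linarith
  have hr1s : r₁ ≤ s / 32 := by
    rw [hr₁]; exact div_le_div_of_nonneg_left hs.le (by norm_num) hM1a
  have hr2s : r₂ ≤ s / 4 := by
    rw [hr₂]; exact div_le_div_of_nonneg_left hs.le (by norm_num) hM2a
  obtain ⟨u, hu⟩ : ∃ u : ℝ, u = η / 100 * r₁ := ⟨_, rfl⟩
  have hu0 : 0 < u := by rw [hu]; positivity
  have hur : u ≤ r₁ / 100 := by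
    rw [hu]
    have : η / 100 * r₁ ≤ 1 / 100 * r₁ := mul_le_mul_of_nonneg_right (by linarith) hr10.le
    linarith
  have hus : u ≤ s := by linarith
  have hu1 : u ≤ 1 := by linarith
  -- first probability
  have hP1 : Ex (fun x : Fin n → Bool => if dz (τ * lf a x) ≤ 8 * r₁ then (1 : ℝ) else 0) ≤
      (η / 100) ^ 2 := by
    have h1 := scene_tie S (b := a) (ν := fun _ => 0) (u := 0) (h := 8 * r₁) (A := A₁) le_rfl
      (by linarith) (by simp) (by simp) hN1 hβ0 hβ1 (by linarith) (by linarith) (by linarith) hA1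
    refine h1.trans ?_
    have h2 : 8 * (8 * r₁) / s = 8 * 8 / M₁ := by
      rw [hr₁]; field_simp
    rw [h2]
    have h3 : εm ^ 2 ≤ (η / 100) ^ 2 := pow_le_pow_left₀ hεm0.le (by linarith) 2
    have k1 : (A₁ + 3) * (4 * Real.sqrt (Real.sqrt (2 * β))) ≤ (η / 100) ^ 2 / 4 := by
      have : (A₁ + 3) * (4 * Real.sqrt (Real.sqrt (2 * β))) ≤
        (A₂ + 3) * (4 * Real.sqrt (Real.sqrt (2 * β))) :=
        mul_le_mul_of_nonneg_right (by linarith) (by positivity)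
      linarith
    have k2 : (A₁ + 3) * (2 / Real.sqrt N₁) ≤ (η / 100) ^ 2 / 4 := by
      have : (A₁ + 3) * (2 / Real.sqrt N₁) ≤ (A₂ + 3) * (2 / Real.sqrt N₁) :=
        mul_le_mul_of_nonneg_right (by linarith) (by positivity)
      linarith
    have e : (A₁ + 3) * (8 * 8 / M₁ + 4 * Real.sqrt (Real.sqrt (2 * β)) + 2 / Real.sqrt N₁) =
      (A₁ + 3) * (8 * 8) / M₁ + (A₁ + 3) * (4 * Real.sqrt (Real.sqrt (2 * β))) +
        (A₁ + 3) * (2 / Real.sqrt N₁) := by ring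
    rw [e]
    linarith
  have h2r : 8 * r₂ / s = 8 / M₂ := by
    rw [hr₂]; field_simp
  have hP2 : Ex (fun x : Fin n → Bool => if dz (τ * lf a x) ≤ r₂ then (1 : ℝ) else 0) ≤
      εm ^ 2 := by
    have h1 := scene_tie S (b := a) (ν := fun _ => 0) (u := 0) (h := r₂) (A := A₂) le_rfl
      (by linarith) (by simp) (by simp) hN1 hβ0 hβ1 (by linarith) (by linarith) (by linarith) hA2d
    refine h1.trans ?_
    rw [h2r]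
    exact num_tie hM2' hβ hN hA2c
  have hP3 : ∀ b ν : Fin n → ℝ, ∑ i, ν i ^ 2 ≤ 1 →
      (∀ i, b i = if i ∈ L then 1 / τ else a i - u * ν i / τ) →
      Ex (fun x : Fin n → Bool => if dz (τ * lf b x) ≤ r₂ then (1 : ℝ) else 0) ≤ εm ^ 2 := by
    intro b ν hν hb
    have hτ0 : 0 < τ := by linarith [S.h100]
    have h1 := scene_tie S (b := b) (ν := ν) (u := u) (h := r₂) (A := A₂) hu0.le
      (by linarith) hν (by
        intro i hi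
        rw [hb i, if_neg (Finset.mem_compl.mp hi)]
        field_simp) hN1 hβ0 hβ1 (by linarith) (by linarith) (by linarith) hA2d
    refine h1.trans ?_
    rw [h2r]
    exact num_tie hM2' hβ hN hA2c
  obtain ⟨E, hEE⟩ : ∃ E : ℝ, E = (L.card : ℝ) / τ ^ 2 := ⟨_, rfl⟩
  have hEE0 : E₀ ≤ E := by rw [hEE, hE]; exact S.hE0
  have hEE1 : E ≤ 1 := by rw [hEE]; exact S.hE1
  have hEpos : 0 < E := by linarith
  have hsE : Real.sqrt E₀ ≤ Real.sqrt E := Real.sqrt_le_sqrt hEE0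
  have hsE0 : 0 < Real.sqrt E₀ := Real.sqrt_pos.mpr hE0
  refine stage2 (n := n) (a := a) (κ := κ) (δ := δ) (σ := τ) (s := s) (u := u) (θ := η / 10 ^ 9)
    (η := η) (η₁ := η₁) (R := R) (E := E) (εn := η / 100) (εm := εm) (r₁ := r₁) (r₂ := r₂)
    (e₈ := e * s) (ε₉ := e) (μ := μ) (L := L) (B := B) h (hδ.trans hδ₁1) ha hane S.h100 S.hτδ S.hκτ
    S.hL1 S.hLk ?_ hEE hEE1 S.hBL S.hBm hs S.hup S.h8 S.hμ hu0 hu1 hus (by positivity) ?_ hr10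
    (by linarith) (by linarith) ?_ hr20 hr2a hη hη₁0.le hR0 he0 he1 (by positivity) hεm0.le
    hP1 hP2 hP3 ?_ ?_
  · -- `hω`
    refine S.hω.trans (le_of_eq ?_)
    congr 1
    rw [hu, hr₁]
    have : 4 * q * s * M₁ = (η / 10 ^ 9) * (η / 100) * s := by rw [← hq1]; ring
    field_simp
    field_simp at this
    linarith
  · rw [div_le_one (by positivity)]; linarith
  · -- `hur`
    rw [hu]
    have e1 : 2 * (η / 100 * r₁) ^ 2 * (1 + 1 / (16 * r₁ ^ 2)) =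
        (η / 100) ^ 2 * (2 * r₁ ^ 2 + 1 / 8) := by
      field_simp
      ring
    rw [e1]
    have h1 : 2 * r₁ ^ 2 + 1 / 8 ≤ 1 := by
      have : r₁ ^ 2 ≤ (1 / 12) ^ 2 := pow_le_pow_left₀ hr10.le hr1a 2
      linarith
    calc (η / 100) ^ 2 * (2 * r₁ ^ 2 + 1 / 8) ≤ (η / 100) ^ 2 * 1 :=
          mul_le_mul_of_nonneg_left h1 (by positivity)
      _ = (η / 100) ^ 2 := mul_one _
  · -- `hnum1`
    rw [hr₂, num_b hs hM20]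
    have k1 := num_a hs hM20 hu0.le hus hu1 he0.le hδ0.le
    have k2 : R * (Real.sqrt (2 * μ + 8 * δ ^ 2) +
        3 / (s / M₂) * (e * s + u * e + 2 * δ * (2 * s * u + u ^ 2)) + (e + 2 * δ)) ≤
        R * (Real.sqrt (2 * μ + 8 * δ ^ 2) + 3 * M₂ * (2 * e + 6 * δ) + (e + 2 * δ)) :=
      mul_le_mul_of_nonneg_left (by linarith) hR0.le
    have k3 : R * (Real.sqrt (2 * μ + 8 * δ ^ 2) + 3 * M₂ * (2 * e + 6 * δ) + (e + 2 * δ)) =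
        R * Real.sqrt (2 * μ + 8 * δ ^ 2) + R * (3 * M₂ * 6 + 2) * δ +
          R * (3 * M₂ + 1) * (2 * e) - R * e := by ring
    have k4 : 0 < R * e := by positivity
    linarith
  · -- `hnum2`
    rw [hr₂, num_c hs hM20, num_d hs hM20]
    have k1 : 1.3 * η₁ / Real.sqrt E ≤ 1.3 * (η / 1000) := by
      have h1 : 1.3 * η₁ / Real.sqrt E ≤ 1.3 * η₁ / Real.sqrt E₀ :=
        div_le_div_of_nonneg_left (by positivity) hsE0 hsE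
      have h2 : 1.3 * η₁ / Real.sqrt E₀ = 1.3 * (η / 1000) := by
        rw [hη₁]; field_simp
      linarith
    have k2 : 2 / (E * R) ≤ η / 500 := by
      refine le_trans ?_ hR'
      exact div_le_div_of_nonneg_left (by norm_num) (by positivity)
        (mul_le_mul_of_nonneg_right hEE0 hR0.le)
    have k3 : 2 * 10 ^ 5 * δ / (E ^ 3 * Real.sqrt E) ≤ η / 100 := by
      refine le_trans ?_ g6
      apply div_le_div_of_nonneg_left (by positivity) (by positivity)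
      exact mul_le_mul (pow_le_pow_left₀ hE0.le hEE0 3) hsE hsE0.le (by positivity)
    have k4 : (9 * M₂ / 2 + 2) * e = 3 / 2 * (3 * M₂ * e) + 2 * e := by ring
    have k5 : u ≤ η / 1200 := by
      rw [hu]
      calc η / 100 * r₁ ≤ η / 100 * (1 / 12) := mul_le_mul_of_nonneg_left hr1a (by positivity)
        _ = η / 1200 := by ring
    linarith

end Pool.Agent.MP_cb3c9c_an.REG
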