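import Pool.Agent.MP_cb3c9c_an.REG.RTd
import Pool.Agent.MP_cb3c9c_an.REG.R1
import Pool.Agent.MP_cb3c9c_an.REG.R5
import Pool.Agent.MP_cb3c9c_an.REG.G2

set_option autoImplicit false

open Finset MeasureTheory
open scoped BigOperators

namespace Pool.Agent.MP_cb3c9c_an.REG

open Pool.Agent.MP_cb3c9c_an.TwoBlock

variable {n : ℕ}

/-- the given `σ` is large -/
lemma rte_large {a : Fin n → ℝ} {k : Fin n → ℤ} {δ σ C₁ ε₁ : ℝ} {G : Finset (Fin n)}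
    (ha : ∀ i, 0 < a i) (hδ : ∀ i, a i ≤ δ) (hδ0 : 0 < δ)
    (hC : ∑ i ∈ G, (σ * a i - k i) ^ 2 ≤ C₁ ^ 2)
    (hm : ε₁ ≤ ∑ i ∈ G.filter (fun i => k i = 1), a i ^ 2) (hsm : 16 * C₁ ^ 2 * δ ^ 2 < ε₁)
    (hσ : 0 < σ) : 3 / 4 ≤ σ * δ := by
  by_contra hcon
  push Not at hcon
  have h1 : ∀ i ∈ G.filter (fun i => k i = 1), a i ^ 2 ≤ 16 * δ ^ 2 * (σ * a i - k i) ^ 2 := by
    intro i hi
    rw [Finset.mem_filter] at hi
    rw [hi.2, Int.cast_one]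
    have h2 : σ * a i ≤ σ * δ := mul_le_mul_of_nonneg_left (hδ i) hσ.le
    have h3 : 1 / 16 ≤ (σ * a i - 1) ^ 2 := by
      have : σ * a i - 1 ≤ -(1 / 4) := by linarith
      nlinarith
    have h4 : a i ^ 2 ≤ δ ^ 2 := pow_le_pow_left₀ (ha i).le (hδ i) 2
    have h5 : 16 * δ ^ 2 * (1 / 16) ≤ 16 * δ ^ 2 * (σ * a i - 1) ^ 2 :=
      mul_le_mul_of_nonneg_left h3 (by positivity)
    linarith
  have h2 : ∑ i ∈ G.filter (fun i => k i = 1), a i ^ 2 ≤ 16 * δ ^ 2 * C₁ ^ 2 := by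
    refine (Finset.sum_le_sum h1).trans ?_
    rw [← Finset.mul_sum]
    apply mul_le_mul_of_nonneg_left _ (by positivity)
    refine le_trans ?_ hC
    exact Finset.sum_le_sum_of_subset_of_nonneg (Finset.filter_subset _ _)
      (fun i _ _ => sq_nonneg _)
  linarith

lemma rte_shift_up {S : Finset (Fin n)} {a : Fin n → ℝ} {k : Fin n → ℤ} {σ τ : ℝ} :
    ∑ i ∈ S, (τ * a i - k i) ^ 2 ≤
      2 * ∑ i ∈ S, (σ * a i - k i) ^ 2 + 2 * (τ - σ) ^ 2 * ∑ i ∈ S, a i ^ 2 := by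
  rw [Finset.mul_sum, Finset.mul_sum, ← Finset.sum_add_distrib]
  apply Finset.sum_le_sum
  intro i _
  nlinarith [sq_nonneg ((σ * a i - k i) - (τ - σ) * a i)]

lemma rte_shift_low {S : Finset (Fin n)} {a : Fin n → ℝ} {k : Fin n → ℤ} {σ τ : ℝ} :
    3 / 4 * ∑ i ∈ S, (σ * a i - k i) ^ 2 - 3 * (τ - σ) ^ 2 * ∑ i ∈ S, a i ^ 2 ≤
      ∑ i ∈ S, (τ * a i - k i) ^ 2 := by
  rw [Finset.mul_sum, Finset.mul_sum, ← Finset.sum_sub_distrib]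
  apply Finset.sum_le_sum
  intro i _
  nlinarith [sq_nonneg ((σ * a i - k i) / 2 + 2 * ((τ - σ) * a i))]

lemma rte_lin {S : Finset (Fin n)} {a : Fin n → ℝ} {k : Fin n → ℤ} {σ τ : ℝ} :
    ∑ i ∈ S, a i * (τ * a i - k i) =
      ∑ i ∈ S, a i * (σ * a i - k i) + (τ - σ) * ∑ i ∈ S, a i ^ 2 := by
  rw [Finset.mul_sum, ← Finset.sum_add_distrib]
  apply Finset.sum_congr rfl
  intro i _
  ring

lemma rte_mass {J : Finset (Fin n)} {a : Fin n → ℝ} {δ t : ℝ} {K : ℕ} (ha : ∀ i, 0 < a i)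
    (hδ : ∀ i, a i ≤ δ) (hJ : J.card ≤ K) (hK : (K : ℝ) * δ ^ 2 ≤ t) :
    ∑ i ∈ J, a i ^ 2 ≤ t := by
  have h1 : ∑ i ∈ J, a i ^ 2 ≤ ∑ _i ∈ J, δ ^ 2 :=
    Finset.sum_le_sum fun i _ => pow_le_pow_left₀ (ha i).le (hδ i) 2
  rw [Finset.sum_const, nsmul_eq_mul] at h1
  have h2 : (J.card : ℝ) * δ ^ 2 ≤ K * δ ^ 2 := by
    apply mul_le_mul_of_nonneg_right _ (sq_nonneg _)
    exact_mod_cast hJ
  linarith

lemma rte_irr {a : Fin n → ℝ} {k : Fin n → ℤ} (ha : ∀ i, 0 < a i)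
    (hirr : ∀ i j, i ≠ j → Irrational (a i / a j)) {σ : ℝ} (hσ : 0 < σ) {i j : Fin n}
    (hij : i ≠ j) : ¬ (σ * a i = k i ∧ σ * a j = k j) := by
  rintro ⟨h1, h2⟩
  apply hirr i j hij
  refine ⟨(k i : ℚ) / (k j : ℚ), ?_⟩
  push_cast
  rw [← h1, ← h2]
  have := (ha j).ne'
  field_simp

/-- the choice of the shift `τ` and the estimates on `L`, `B` -/
lemma rte_shift {a : Fin n → ℝ} {k : Fin n → ℤ} {q e s σJ : ℝ} {G' L : Finset (Fin n)}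
    (hane : ∀ x, lf a x ≠ 0) (h1 : ∑ i, a i ^ 2 ≤ 1) (hLG : L ⊆ G')
    (hs : 0 < s) (hq : 0 < q) (hq1 : q ≤ 1 / 20) (he : 0 < e) (heq : e ≤ q)
    (horth : ∑ i ∈ G', a i * (σJ * a i - k i) = 0)
    (hnorm : ∑ i ∈ G', (σJ * a i - k i) ^ 2 = s ^ 2)
    (hLn : ∑ i ∈ L, (σJ * a i - k i) ^ 2 ≤ (q * s) ^ 2)
    (hLm : ∑ i ∈ L, a i ^ 2 ≤ (1 / 4) ^ 2) (hGm : 7 / 8 ≤ ∑ i ∈ G', a i ^ 2) :
    ∃ τ : ℝ, |τ - σJ| ≤ 3 / 2 * q * s ∧ (∀ x, ∀ m : ℤ, τ * lf a x ≠ 2 * m) ∧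
      1 / 2 ≤ ∑ i ∈ G' \ L, a i ^ 2 ∧
      ∑ i ∈ L, (τ * a i - k i) ^ 2 ≤ (4 * q * s) ^ 2 ∧
      s ^ 2 / 2 ≤ ∑ i ∈ G' \ L, (τ * a i - k i) ^ 2 ∧
      ∑ i ∈ G' \ L, (τ * a i - k i) ^ 2 ≤ (2 * s) ^ 2 ∧
      |∑ i ∈ G' \ L, a i * (τ * a i - k i)| ≤ e * s := by
  have hsplit : ∀ f : Fin n → ℝ, ∑ i ∈ G' \ L, f i + ∑ i ∈ L, f i = ∑ i ∈ G', f i :=
    fun f => Finset.sum_sdiff hLG
  obtain ⟨m, hm⟩ : ∃ m, m = ∑ i ∈ G' \ L, a i ^ 2 := ⟨_, rfl⟩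
  obtain ⟨c, hc⟩ : ∃ c, c = ∑ i ∈ G' \ L, a i * (σJ * a i - k i) := ⟨_, rfl⟩
  have hs1 := hsplit (fun i => a i ^ 2)
  have hs2 := hsplit (fun i => a i * (σJ * a i - k i))
  have hs3 := hsplit (fun i => (σJ * a i - k i) ^ 2)
  rw [← hm] at hs1
  rw [← hc, horth] at hs2
  rw [hnorm] at hs3
  have hm1 : 3 / 4 ≤ m := by
    have h2 : ((1 : ℝ) / 4) ^ 2 = 1 / 16 := by norm_num
    rw [h2] at hLm
    linarith
  have hm2 : m ≤ 1 := by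
    rw [hm]
    refine le_trans ?_ h1
    exact Finset.sum_le_sum_of_subset_of_nonneg (Finset.subset_univ _) (fun i _ _ => sq_nonneg _)
  have hcabs : |c| ≤ 1 / 4 * (q * s) := by
    have h2 := rta_abs_sum_le (S := L) (u := a) (w := fun i => σJ * a i - k i)
      (by norm_num : (0:ℝ) ≤ 1 / 4) (by positivity : 0 ≤ q * s) hLm hLn
    have h3 : c = -∑ i ∈ L, a i * (σJ * a i - k i) := by linarith
    rw [h3, abs_neg]
    exact h2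
  obtain ⟨σs, hσs⟩ : ∃ σs, σs = σJ - c / m := ⟨_, rfl⟩
  have hσsJ : |σs - σJ| ≤ 1 / 2 * (q * s) := by
    have h2 : σs - σJ = -(c / m) := by rw [hσs]; ring
    rw [h2, abs_neg, abs_div, abs_of_pos (by linarith : 0 < m), div_le_iff₀ (by linarith)]
    have h3 : 1 / 2 * (q * s) * (3 / 4) ≤ 1 / 2 * (q * s) * m :=
      mul_le_mul_of_nonneg_left hm1 (by positivity)
    have h4 : 0 ≤ q * s := by positivity
    linarith
  have hes : 0 < e * s := by positivity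
  obtain ⟨τ, ht1, ht2, ht3⟩ := no_hit_scalar (lf a) hane σs hes
  have heqs : e * s ≤ q * s := mul_le_mul_of_nonneg_right heq hs.le
  have hτJ : |τ - σJ| ≤ 3 / 2 * q * s := by
    have h2 : |τ - σs| ≤ e * s := by rw [abs_of_nonneg (by linarith)]; linarith
    have h3 : |τ - σJ| ≤ |τ - σs| + |σs - σJ| := abs_sub_le _ _ _
    linarith
  have hτJ2 : (τ - σJ) ^ 2 ≤ 9 / 4 * (q * s) ^ 2 := by
    have h2 : (τ - σJ) ^ 2 = |τ - σJ| ^ 2 := (sq_abs _).symm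
    rw [h2]
    have h3 : |τ - σJ| ^ 2 ≤ (3 / 2 * q * s) ^ 2 := pow_le_pow_left₀ (abs_nonneg _) hτJ 2
    have h4 : (3 / 2 * q * s) ^ 2 = 9 / 4 * (q * s) ^ 2 := by ring
    linarith
  have hqs : (q * s) ^ 2 ≤ s ^ 2 / 400 := by
    have h2 : (q * s) ^ 2 = q ^ 2 * s ^ 2 := by ring
    rw [h2]
    have h3 : q ^ 2 ≤ 1 / 400 := by nlinarith
    have h4 : q ^ 2 * s ^ 2 ≤ 1 / 400 * s ^ 2 := mul_le_mul_of_nonneg_right h3 (sq_nonneg _)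
    linarith
  have hτm : ∀ S : Finset (Fin n), (τ - σJ) ^ 2 * ∑ i ∈ S, a i ^ 2 ≤ 9 / 4 * (q * s) ^ 2 := by
    intro S
    have h2 : ∑ i ∈ S, a i ^ 2 ≤ 1 := le_trans
      (Finset.sum_le_sum_of_subset_of_nonneg (Finset.subset_univ _) (fun i _ _ => sq_nonneg _)) h1
    have h3 : 0 ≤ ∑ i ∈ S, a i ^ 2 := Finset.sum_nonneg fun i _ => sq_nonneg _
    calc (τ - σJ) ^ 2 * ∑ i ∈ S, a i ^ 2 ≤ (τ - σJ) ^ 2 * 1 :=
          mul_le_mul_of_nonneg_left h2 (sq_nonneg _)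
      _ ≤ 9 / 4 * (q * s) ^ 2 := by linarith
  have hqs0 : 0 ≤ (q * s) ^ 2 := sq_nonneg _
  have hs20 : 0 < s ^ 2 := by positivity
  have hLn0 : 0 ≤ ∑ i ∈ L, (σJ * a i - k i) ^ 2 := Finset.sum_nonneg fun i _ => sq_nonneg _
  refine ⟨τ, hτJ, ht3, by rw [← hm]; linarith, ?_, ?_, ?_, ?_⟩
  · have h2 := rte_shift_up (S := L) (a := a) (k := k) (σ := σJ) (τ := τ)
    have h3 := hτm L
    have h4 : (4 * q * s) ^ 2 = 16 * (q * s) ^ 2 := by ring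
    rw [h4]
    linarith
  · have h2 := rte_shift_low (S := G' \ L) (a := a) (k := k) (σ := σJ) (τ := τ)
    have h3 := hτm (G' \ L)
    linarith
  · have h2 := rte_shift_up (S := G' \ L) (a := a) (k := k) (σ := σJ) (τ := τ)
    have h3 := hτm (G' \ L)
    have h4 : (2 * s) ^ 2 = 4 * s ^ 2 := by ring
    rw [h4]
    linarith
  · have h2 := rte_lin (S := G' \ L) (a := a) (k := k) (σ := σJ) (τ := τ)
    rw [← hc, ← hm] at h2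
    have h3 : c + (τ - σJ) * m = (τ - σs) * m := by
      rw [hσs]
      have : m ≠ 0 := by linarith
      field_simp
      ring
    rw [h2, h3, abs_mul, abs_of_nonneg (by linarith : 0 ≤ τ - σs), abs_of_pos (by linarith : 0 < m)]
    calc (τ - σs) * m ≤ (e * s) * 1 := mul_le_mul (by linarith) hm2 (by linarith) hes.le
      _ = e * s := mul_one _

end Pool.Agent.MP_cb3c9c_an.REG
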