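import Pool.Agent.MP_cb3c9c_an.REG.RTe

set_option autoImplicit false

open Finset MeasureTheory
open scoped BigOperators

namespace Pool.Agent.MP_cb3c9c_an.REG

open Pool.Agent.MP_cb3c9c_an.TwoBlock

variable {n : ℕ}

/-- bookkeeping for `|L|` -/
lemma rtf_card {ε₂ σJ τ : ℝ} {N : ℕ} (hε₂ : 0 < ε₂) (hε₂1 : ε₂ ≤ 1 / 4) (hJ : 100 ≤ σJ)
    (hτ : |τ - σJ| ≤ 1) (hN : N = ⌊ε₂ * σJ ^ 2⌋₊) (h1 : 1 ≤ ε₂ * σJ ^ 2) :
    1 ≤ N ∧ ε₂ / 4 ≤ (N : ℝ) / τ ^ 2 ∧ (N : ℝ) / τ ^ 2 ≤ 1 ∧ (N : ℝ) ≤ ε₂ * σJ ^ 2 := by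
  have hN1 : 1 ≤ N := by
    rw [hN]; exact Nat.le_floor (by exact_mod_cast h1)
  have hN1' : (1 : ℝ) ≤ N := by exact_mod_cast hN1
  have hNle : (N : ℝ) ≤ ε₂ * σJ ^ 2 := by
    rw [hN]; exact Nat.floor_le (by positivity)
  have hNge : ε₂ * σJ ^ 2 ≤ 2 * N := by
    have := Nat.lt_floor_add_one (ε₂ * σJ ^ 2)
    rw [← hN] at this
    linarith
  obtain ⟨t1, t2⟩ := abs_le.mp hτ
  have hτ0 : 0 < τ := by linarith
  have hτup : τ ^ 2 ≤ 2 * σJ ^ 2 := by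
    have h2 : τ ≤ 101 / 100 * σJ := by linarith
    have h3 : τ ^ 2 ≤ (101 / 100 * σJ) ^ 2 := pow_le_pow_left₀ hτ0.le h2 2
    nlinarith
  have hτlo : σJ ^ 2 ≤ 4 * τ ^ 2 := by
    have h2 : σJ ≤ 2 * τ := by linarith
    have h3 : σJ ^ 2 ≤ (2 * τ) ^ 2 := pow_le_pow_left₀ (by linarith) h2 2
    linarith
  refine ⟨hN1, ?_, ?_, hNle⟩
  · rw [le_div_iff₀ (by positivity)]
    have h2 : ε₂ * τ ^ 2 ≤ ε₂ * (2 * σJ ^ 2) := mul_le_mul_of_nonneg_left hτup hε₂.le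
    linarith
  · rw [div_le_one (by positivity)]
    have h2 : ε₂ * σJ ^ 2 ≤ 1 / 4 * (4 * τ ^ 2) :=
      mul_le_mul hε₂1 hτlo (by positivity) (by norm_num)
    linarith

/-- the case distinction survives the shift -/
lemma rtf_case {a : Fin n → ℝ} {k : Fin n → ℤ} {q s σJ τ β δ C₁ : ℝ} {N₁ : ℕ}
    {G' J L : Finset (Fin n)} (ha : ∀ i, 0 < a i) (hδ : ∀ i, a i ≤ δ) (h1 : ∑ i, a i ^ 2 ≤ 1)
    (hs : 0 < s) (hsC : s ≤ C₁) (hq : 0 < q) (hq1 : q ≤ 1 / 20) (hδβ : δ ≤ β) (hδ1 : δ ≤ 1)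
    (hτ : |τ - σJ| ≤ 3 / 2 * q * s) (hJL : ∀ i ∈ J, i ∉ L)
    (halt : (∀ i ∈ G', |σJ * a i - k i| ≤ β * s) ∨
      ∃ J₁ : Finset (Fin n), J₁ ⊆ J ∧ J₁.card = N₁ ∧ (∀ j ∈ J₁, s ≤ |σJ * a j - k j|) ∧
        ∑ j ∈ J₁, (σJ * a j - k j) ^ 2 ≤ (2 * C₁) ^ 2) :
    ∃ J₁ : Finset (Fin n), J₁ ⊆ Lᶜ ∧
      ((∀ i ∈ G' \ L, |τ * a i - k i| ≤ (2 * β) * s) ∨
        (N₁ ≤ J₁.card ∧ (∀ j ∈ J₁, s / 2 ≤ |τ * a j - k j|) ∧
          ∑ j ∈ J₁, (τ * a j - k j) ^ 2 ≤ (3 * (2 * C₁)) ^ 2)) := by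
  have hqs : 0 < q * s := by positivity
  have hqs1 : q * s ≤ s / 20 := by
    have := mul_le_mul_of_nonneg_right hq1 hs.le
    linarith
  have hδ0 : ∀ i, |(τ - σJ) * a i| ≤ 3 / 2 * (q * s) * δ := by
    intro i
    rw [abs_mul, abs_of_pos (ha i)]
    calc |τ - σJ| * a i ≤ (3 / 2 * q * s) * δ := mul_le_mul hτ (hδ i) (ha i).le (by positivity)
      _ = 3 / 2 * (q * s) * δ := by ring
  rcases halt with h | ⟨J₁, hJ1, hcard, hbig, hsum⟩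
  · refine ⟨∅, Finset.empty_subset _, Or.inl ?_⟩
    intro i hi
    have h2 := h i (Finset.mem_sdiff.mp hi).1
    have h3 := hδ0 i
    have hδpos : 0 < δ := lt_of_lt_of_le (ha i) (hδ i)
    have e : τ * a i - k i = (σJ * a i - k i) + (τ - σJ) * a i := by ring
    rw [e]
    have h4 := abs_add_le (σJ * a i - k i) ((τ - σJ) * a i)
    have h5 : 3 / 2 * (q * s) * δ ≤ s * β := by
      apply mul_le_mul _ hδβ hδpos.le hs.le
      linarith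
    linarith
  · refine ⟨J₁, ?_, Or.inr ⟨hcard.ge, ?_, ?_⟩⟩
    · intro i hi
      rw [Finset.mem_compl]
      exact hJL i (hJ1 hi)
    · intro j hj
      have h2 := hbig j hj
      have h3 := hδ0 j
      have e : σJ * a j - k j = (τ * a j - k j) + (-((τ - σJ) * a j)) := by ring
      have h4 := abs_add_le (τ * a j - k j) (-((τ - σJ) * a j))
      rw [← e, abs_neg] at h4
      have hδpos : 0 < δ := lt_of_lt_of_le (ha j) (hδ j)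
      have h5 : 3 / 2 * (q * s) * δ ≤ 3 / 2 * (q * s) * 1 :=
        mul_le_mul_of_nonneg_left hδ1 (by positivity)
      linarith
    · have h2 := rte_shift_up (S := J₁) (a := a) (k := k) (σ := σJ) (τ := τ)
      have h3 : ∑ i ∈ J₁, a i ^ 2 ≤ 1 := le_trans
        (Finset.sum_le_sum_of_subset_of_nonneg (Finset.subset_univ _)
          (fun i _ _ => sq_nonneg _)) h1
      have h4 : (τ - σJ) ^ 2 ≤ C₁ ^ 2 := by
        rw [← sq_abs (τ - σJ)]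
        apply pow_le_pow_left₀ (abs_nonneg _)
        linarith
      have h5 : (τ - σJ) ^ 2 * ∑ i ∈ J₁, a i ^ 2 ≤ C₁ ^ 2 * 1 := by
        apply mul_le_mul h4 h3 (Finset.sum_nonneg fun i _ => sq_nonneg _) (sq_nonneg _)
      have h6 : (2 * C₁) ^ 2 = 4 * C₁ ^ 2 := by ring
      have h7 : (3 * (2 * C₁)) ^ 2 = 36 * C₁ ^ 2 := by ring
      rw [h6] at hsum
      rw [h7]
      have h8 : 0 ≤ C₁ ^ 2 := sq_nonneg _
      linarith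

theorem prep (C₁ ε₁ q β e μ η : ℝ) (N₁ : ℕ) (hC₁ : 1 ≤ C₁) (hε₁ : 0 < ε₁) (hε₁1 : ε₁ ≤ 1)
    (hq : 0 < q) (hq1 : q ≤ 1 / 20) (hβ : 0 < β) (hβ1 : β ≤ 1 / 32) (he : 0 < e) (heq : e ≤ q)
    (hμ : 0 < μ) (hη : 0 < η) (hη1 : η ≤ 1) (hqη : 6 * q * C₁ ≤ η) :
    ∃ ε₃ δ₁ : ℝ, 0 < ε₃ ∧ 0 < δ₁ ∧ ∀ (n : ℕ) (a : Fin n → ℝ) (δ σ : ℝ)
      (O : Finset (Fin n)) (k : Fin n → ℤ), Reg a δ → δ ≤ δ₁ → (∀ i, 0 < a i) →
      (∀ i j, i ≠ j → Irrational (a i / a j)) → (∀ x, lf a x ≠ 0) → 0 < σ →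
      ∑ i ∈ Oᶜ, (σ * a i - k i) ^ 2 ≤ C₁ ^ 2 → |∑ i ∈ Oᶜ, a i * (σ * a i - k i)| ≤ ε₃ →
      ∑ i ∈ O, a i ^ 2 ≤ ε₃ → ε₁ ≤ ∑ i ∈ Oᶜ.filter (fun i => k i = 1), a i ^ 2 →
      kap a * σ ^ 2 ≤ 5 →
      ∃ τ : ℝ, |τ - σ| ≤ η ∧ (∀ x, ∀ m : ℤ, τ * lf a x ≠ 2 * m) ∧
        ∃ (s : ℝ) (L B J₁ : Finset (Fin n)),
          Scene a k τ s δ β e q (ε₁ * q ^ 2 / 8) μ C₁ N₁ L B J₁ := by
  have hC0 : 0 < C₁ := by linarith
  obtain ⟨K, δs, hδs, ST⟩ := structure_thm β hβ (by linarith) N₁ C₁ hC0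
  obtain ⟨ε₂, hε₂⟩ : ∃ ε₂ : ℝ, ε₂ = ε₁ * q ^ 2 / 8 := ⟨_, rfl⟩
  have hq2 : q ^ 2 ≤ 1 / 400 := by nlinarith
  have hε₂0 : 0 < ε₂ := by rw [hε₂]; positivity
  have hε₂1 : ε₂ ≤ ε₁ / 8 := by
    rw [hε₂]
    have : ε₁ * q ^ 2 ≤ ε₁ * 1 := mul_le_mul_of_nonneg_left (by linarith) hε₁.le
    linarith
  have hε₂2 : ε₂ ≤ 1 / 400 := by
    rw [hε₂]
    have : ε₁ * q ^ 2 ≤ 1 * (1 / 400) := mul_le_mul hε₁1 hq2 (by positivity) (by norm_num)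
    linarith
  obtain ⟨d2, hd2, G2⟩ := small_exists' (K : ℝ)
    (by positivity : 0 < min (min (1 / 16) (ε₁ / 2)) (min (μ / 2) ((η / (16 * C₁)) ^ 2)))
  obtain ⟨d3, hd3, G3⟩ := small_exists' (16 * C₁ ^ 2) (by positivity : 0 < ε₁ / 4)
  obtain ⟨d4, hd4, G4⟩ := small_exists' (8 * C₁) (by norm_num : (0:ℝ) < 3)
  obtain ⟨d6, hd6, G6⟩ := small_exists' 4 hε₂0
  refine ⟨min (1 / 16) (min (μ / 2) (η / 16)),
    min (min (1 / 1000) δs) (min (min d2 d3) (min (min d4 β) d6)), by positivity, by positivity,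
    ?_⟩
  intro n a δ σ O k h hδ ha hirr hane hσ hC hlin hO hmass hκσ
  have hδ0 := h.pos
  have hε3a : ∑ i ∈ O, a i ^ 2 ≤ 1 / 16 := hO.trans (min_le_left _ _)
  have hε3b : ∑ i ∈ O, a i ^ 2 ≤ μ / 2 :=
    hO.trans ((min_le_right _ _).trans (min_le_left _ _))
  have hlin' : |∑ i ∈ Oᶜ, a i * (σ * a i - k i)| ≤ η / 16 :=
    hlin.trans ((min_le_right _ _).trans (min_le_right _ _))
  have hδ1000 : δ ≤ 1 / 1000 := hδ.trans ((min_le_left _ _).trans (min_le_left _ _))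
  have hδδs : δ ≤ δs := hδ.trans ((min_le_left _ _).trans (min_le_right _ _))
  have hδr := hδ.trans (min_le_right _ _)
  have g2 := G2 δ hδ0.le (hδr.trans ((min_le_left _ _).trans (min_le_left _ _)))
  have g3 := G3 δ hδ0.le (hδr.trans ((min_le_left _ _).trans (min_le_right _ _)))
  have hδr := hδr.trans (min_le_right _ _)
  have g4 := G4 δ hδ0.le (hδr.trans ((min_le_left _ _).trans (min_le_left _ _)))
  have hδβ : δ ≤ β := hδr.trans ((min_le_left _ _).trans (min_le_right _ _))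
  have g6 := G6 δ hδ0.le (hδr.trans (min_le_right _ _))
  clear G2 G3 G4 G6 hδr hlin hO
  have ha0 : ∀ i, 0 ≤ a i := fun i => (ha i).le
  have haδ : ∀ i, a i ≤ δ := fun i => (le_abs_self _).trans (h.le i)
  have hδsq : δ ^ 2 ≤ δ := by nlinarith
  have hunit := h.unit
  have hK2 : (K : ℝ) * δ ^ 2 ≤
      min (min (1 / 16) (ε₁ / 2)) (min (μ / 2) ((η / (16 * C₁)) ^ 2)) :=
    le_trans (mul_le_mul_of_nonneg_left hδsq (Nat.cast_nonneg K)) g2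
  -- `σ` is large
  have hσδ : 3 / 4 ≤ σ * δ := by
    apply rte_large ha haδ hδ0 hC hmass _ hσ
    have : 16 * C₁ ^ 2 * δ ^ 2 ≤ 16 * C₁ ^ 2 * δ := mul_le_mul_of_nonneg_left hδsq (by positivity)
    linarith
  have hσC : 2 * C₁ ≤ σ := by
    have h2 : σ * δ * (8 * C₁) ≤ σ * 3 := by
      calc σ * δ * (8 * C₁) = σ * (8 * C₁ * δ) := by ring
        _ ≤ σ * 3 := mul_le_mul_of_nonneg_left g4 hσ.le
    have h3 : 3 / 4 * (8 * C₁) ≤ σ * δ * (8 * C₁) :=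
      mul_le_mul_of_nonneg_right hσδ (by positivity)
    linarith
  have hσ750 : 750 ≤ σ := by
    have h2 : σ * δ ≤ σ * (1 / 1000) := mul_le_mul_of_nonneg_left hδ1000 hσ.le
    linarith
  -- the structure theorem
  have hGm : 15 / 16 ≤ ∑ i ∈ Oᶜ, a i ^ 2 := by
    have h2 := Finset.sum_add_sum_compl O (fun i => a i ^ 2)
    rw [hunit] at h2
    linarith
  obtain ⟨J, hJG, hJK, s, σJ, hs, hsC, horth, hnorm, halt⟩ := ST n a k Oᶜ σ ha0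
    (fun i => (haδ i).trans hδδs) (by linarith) hσC hC
    (fun σ' hσ' i _ j _ hij => rte_irr ha hirr hσ' hij)
  have hJm : ∑ i ∈ J, a i ^ 2 ≤
      min (min (1 / 16) (ε₁ / 2)) (min (μ / 2) ((η / (16 * C₁)) ^ 2)) :=
    rte_mass ha haδ hJK hK2
  have hJ1 : ∑ i ∈ J, a i ^ 2 ≤ 1 / 16 := hJm.trans ((min_le_left _ _).trans (min_le_left _ _))
  have hJ2 : ∑ i ∈ J, a i ^ 2 ≤ ε₁ / 2 := hJm.trans ((min_le_left _ _).trans (min_le_right _ _))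
  have hJ3 : ∑ i ∈ J, a i ^ 2 ≤ μ / 2 := hJm.trans ((min_le_right _ _).trans (min_le_left _ _))
  have hJ4 : ∑ i ∈ J, a i ^ 2 ≤ (η / (16 * C₁)) ^ 2 :=
    hJm.trans ((min_le_right _ _).trans (min_le_right _ _))
  have hG'm : 7 / 8 ≤ ∑ i ∈ Oᶜ \ J, a i ^ 2 := by
    have h2 := Finset.sum_sdiff hJG (f := fun i => a i ^ 2)
    linarith
  -- `σJ` is close to `σ`
  have hJσ : |σ - σJ| ≤ η / 4 := by
    have h2 := rte_lin (S := Oᶜ \ J) (a := a) (k := k) (σ := σJ) (τ := σ)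
    rw [horth, zero_add] at h2
    have h3 := Finset.sum_sdiff hJG (f := fun i => a i * (σ * a i - k i))
    have h4 : |∑ i ∈ J, a i * (σ * a i - k i)| ≤ η / (16 * C₁) * C₁ := by
      apply rta_abs_sum_le (by positivity) hC0.le hJ4
      refine le_trans ?_ hC
      exact Finset.sum_le_sum_of_subset_of_nonneg hJG (fun i _ _ => sq_nonneg _)
    have h5 : η / (16 * C₁) * C₁ = η / 16 := by field_simp
    rw [h5] at h4
    have h6 : |(σ - σJ) * ∑ i ∈ Oᶜ \ J, a i ^ 2| ≤ η / 8 := by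
      rw [← h2]
      have h7 : ∑ i ∈ Oᶜ \ J, a i * (σ * a i - k i) =
          ∑ i ∈ Oᶜ, a i * (σ * a i - k i) - ∑ i ∈ J, a i * (σ * a i - k i) := by linarith
      rw [h7]
      have h8 := abs_sub (∑ i ∈ Oᶜ, a i * (σ * a i - k i)) (∑ i ∈ J, a i * (σ * a i - k i))
      linarith
    have h60 : 0 ≤ ∑ i ∈ Oᶜ \ J, a i ^ 2 := Finset.sum_nonneg fun i _ => sq_nonneg _
    rw [abs_mul, abs_of_nonneg h60] at h6
    have h7 : |σ - σJ| * (7 / 8) ≤ |σ - σJ| * ∑ i ∈ Oᶜ \ J, a i ^ 2 :=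
      mul_le_mul_of_nonneg_left hG'm (abs_nonneg _)
    linarith
  obtain ⟨j1, j2⟩ := abs_le.mp hJσ
  have hσJ : 100 ≤ σJ := by linarith
  have hσJpos : 0 < σJ := by linarith
  have hσJδ : 1 / 2 ≤ σJ * δ := by
    have h2 : σJ * δ = σ * δ - (σ - σJ) * δ := by ring
    have h3 : (σ - σJ) * δ ≤ 1 * (1 / 1000) := by
      apply mul_le_mul _ hδ1000 hδ0.le (by norm_num)
      linarith
    linarith
  -- the reservoir
  have hmass' : ε₁ / 2 ≤ ∑ i ∈ (Oᶜ \ J).filter (fun i => k i = 1), a i ^ 2 := by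
    have h2 : Oᶜ.filter (fun i => k i = 1) ⊆ (Oᶜ \ J).filter (fun i => k i = 1) ∪ J := by
      intro i hi
      rw [Finset.mem_filter] at hi
      by_cases hiJ : i ∈ J
      · exact Finset.mem_union_right _ hiJ
      · apply Finset.mem_union_left
        rw [Finset.mem_filter, Finset.mem_sdiff]
        exact ⟨⟨hi.1, hiJ⟩, hi.2⟩
    have h3 : ∑ i ∈ Oᶜ.filter (fun i => k i = 1), a i ^ 2 ≤
        ∑ i ∈ (Oᶜ \ J).filter (fun i => k i = 1) ∪ J, a i ^ 2 :=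
      Finset.sum_le_sum_of_subset_of_nonneg h2 (fun i _ _ => sq_nonneg _)
    have h4 : ∑ i ∈ (Oᶜ \ J).filter (fun i => k i = 1) ∪ J, a i ^ 2 ≤
        ∑ i ∈ (Oᶜ \ J).filter (fun i => k i = 1), a i ^ 2 + ∑ i ∈ J, a i ^ 2 := by
      have := Finset.sum_union_inter (s₁ := (Oᶜ \ J).filter (fun i => k i = 1)) (s₂ := J)
        (f := fun i => a i ^ 2)
      have h5 : 0 ≤ ∑ i ∈ (Oᶜ \ J).filter (fun i => k i = 1) ∩ J, a i ^ 2 :=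
        Finset.sum_nonneg fun i _ => sq_nonneg _
      linarith
    linarith
  obtain ⟨L, hLG, hLk, hLc, hLn, hLb⟩ := reservoir (a := a) (κ := k) (σ := σJ) (s := s) (C₁ := C₁)
    (ε₁ := ε₁ / 2) (ε₂ := ε₂) (δ := δ) (B := Oᶜ \ J) hσJpos ha0 haδ hnorm.le
    (pow_le_pow_left₀ hs.le hsC 2) (by positivity) hmass' (by
      have : 16 * C₁ ^ 2 * δ ^ 2 ≤ 16 * C₁ ^ 2 * δ :=
        mul_le_mul_of_nonneg_left hδsq (by positivity)
      linarith) hε₂0 (by linarith)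
  have hLn' : ∑ i ∈ L, (σJ * a i - k i) ^ 2 ≤ (q * s) ^ 2 := by
    refine hLn.trans (le_of_eq ?_)
    rw [hε₂]
    field_simp
    ring
  have hσJ2 : 1 ≤ ε₂ * σJ ^ 2 := by
    have h2 : (1 / 2) ^ 2 ≤ (σJ * δ) ^ 2 := pow_le_pow_left₀ (by norm_num) hσJδ 2
    have h3 : 4 * δ ^ 2 ≤ ε₂ := by linarith
    have h4 : 4 * δ ^ 2 * σJ ^ 2 ≤ ε₂ * σJ ^ 2 := mul_le_mul_of_nonneg_right h3 (sq_nonneg _)
    have h5 : 4 * δ ^ 2 * σJ ^ 2 = 4 * (σJ * δ) ^ 2 := by ring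
    linarith
  have hLcard : (L.card : ℝ) ≤ ε₂ * σJ ^ 2 := by
    rw [hLc]; exact Nat.floor_le (by positivity)
  have hLm : ∑ i ∈ L, a i ^ 2 ≤ (1 / 4) ^ 2 := by
    have h2 : ∀ i ∈ L, a i ^ 2 ≤ (5 / 4) ^ 2 / σJ ^ 2 := by
      intro i hi
      rw [le_div_iff₀ (by positivity)]
      have h3 := (hLb i hi).2
      have h4 : (σJ * a i) ^ 2 ≤ (5 / 4) ^ 2 :=
        pow_le_pow_left₀ (mul_nonneg hσJpos.le (ha0 i)) h3 2
      linarith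
    refine (Finset.sum_le_sum h2).trans ?_
    rw [Finset.sum_const, nsmul_eq_mul]
    calc (L.card : ℝ) * ((5 / 4) ^ 2 / σJ ^ 2) ≤ (ε₂ * σJ ^ 2) * ((5 / 4) ^ 2 / σJ ^ 2) :=
          mul_le_mul_of_nonneg_right hLcard (by positivity)
      _ = ε₂ * (5 / 4) ^ 2 := by field_simp
      _ ≤ (1 / 4) ^ 2 := by linarith
  -- the shift
  obtain ⟨τ, hτJ, hτhit, hBm, hω, hlow, hup, h8⟩ := rte_shift (k := k) hane hunit.le hLG hs hq hq1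
    he heq horth hnorm hLn' hLm hG'm
  have hqsC : 3 / 2 * q * s ≤ η / 4 := by
    have : q * s ≤ q * C₁ := mul_le_mul_of_nonneg_left hsC hq.le
    linarith
  obtain ⟨t1, t2⟩ := abs_le.mp hτJ
  have hτσ : |τ - σ| ≤ η := by
    rw [abs_le]; constructor <;> linarith
  have hJL : ∀ i ∈ J, i ∉ L := fun i hi hiL => (Finset.mem_sdiff.mp (hLG hiL)).2 hi
  obtain ⟨J₁, hJ₁L, hcase⟩ := rtf_case (n := n) (N₁ := N₁) ha haδ hunit.le hs hsC hq hq1 hδβ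
    (by linarith) hτJ hJL halt
  obtain ⟨c1, c2, c3, -⟩ := rtf_card (N := L.card) hε₂0 (by linarith) hσJ (τ := τ)
    (hτJ.trans (by linarith)) hLc hσJ2
  have hτ100 : 100 ≤ τ := by linarith
  have hτpos : 0 < τ := by linarith
  refine ⟨τ, hτσ, hτhit, s, L, (Oᶜ \ J) \ L, J₁, ?_⟩
  rw [← hε₂]
  refine ⟨hτ100, ?_, ?_, c1, hLk, ?_, c2, c3, ?_, hJ₁L, hBm, hs, hsC, hlow, hup, h8, ?_, hcase⟩
  · -- `hτδ`
    rw [div_le_iff₀ hτpos]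
    have h2 : (σ - τ) * δ ≤ 1 * (1 / 1000) := by
      apply mul_le_mul _ hδ1000 hδ0.le (by norm_num)
      linarith
    have h3 : 2 * δ * τ = 2 * (σ * δ) - 2 * ((σ - τ) * δ) := by ring
    linarith
  · -- `hκτ`
    have h2 : τ ≤ 751 / 750 * σ := by linarith
    have h3 : τ ^ 2 ≤ (751 / 750 * σ) ^ 2 := pow_le_pow_left₀ hτpos.le h2 2
    have h4 : kap a * τ ^ 2 ≤ kap a * (751 / 750 * σ) ^ 2 :=
      mul_le_mul_of_nonneg_left h3 h.kap_pos.le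
    have h5 : kap a * (751 / 750 * σ) ^ 2 = (751 / 750) ^ 2 * (kap a * σ ^ 2) := by ring
    linarith
  · -- `hω`
    refine le_trans (le_of_eq ?_) hω
    apply Finset.sum_congr rfl
    intro i hi
    rw [hLk i hi, Int.cast_one]
  · intro i hi
    rw [Finset.mem_compl]
    exact (Finset.mem_sdiff.mp hi).2
  · -- `hμ`
    have h2 : Lᶜ \ ((Oᶜ \ J) \ L) ⊆ O ∪ J := by
      intro i hi
      rw [Finset.mem_sdiff, Finset.mem_compl, Finset.mem_sdiff, Finset.mem_sdiff,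
        Finset.mem_compl] at hi
      rw [Finset.mem_union]
      by_contra hcon
      push Not at hcon
      exact hi.2 ⟨⟨hcon.1, hcon.2⟩, hi.1⟩
    have h3 : ∑ i ∈ Lᶜ \ ((Oᶜ \ J) \ L), a i ^ 2 ≤ ∑ i ∈ O ∪ J, a i ^ 2 :=
      Finset.sum_le_sum_of_subset_of_nonneg h2 (fun i _ _ => sq_nonneg _)
    have h4 : ∑ i ∈ O ∪ J, a i ^ 2 ≤ ∑ i ∈ O, a i ^ 2 + ∑ i ∈ J, a i ^ 2 := by
      have := Finset.sum_union_inter (s₁ := O) (s₂ := J) (f := fun i => a i ^ 2)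
      have h5 : 0 ≤ ∑ i ∈ O ∩ J, a i ^ 2 := Finset.sum_nonneg fun i _ => sq_nonneg _
      linarith
    linarith

end Pool.Agent.MP_cb3c9c_an.REG
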