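import Pool.Agent.MP_cb3c9c_an.REG.A3

set_option autoImplicit false

open Finset MeasureTheory
open scoped BigOperators

namespace Pool.Agent.MP_cb3c9c_an.REG

open Pool.Agent.MP_cb3c9c_an.TwoBlock

variable {n : ℕ}

/-- `√(2/π) ∫_0^θ e^{-y²/2} dy` (`= 2Φ(θ) - 1`). -/
noncomputable def al (θ : ℝ) : ℝ :=
  Real.sqrt (2 / Real.pi) * ∫ y in (0 : ℝ)..θ, Real.exp (-y ^ 2 / 2)

lemma t1_gcont : Continuous (fun y : ℝ => Real.exp (-y ^ 2 / 2)) := by fun_prop

lemma t1_al_deriv (θ : ℝ) :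
    HasDerivAt al (Real.sqrt (2 / Real.pi) * Real.exp (-θ ^ 2 / 2)) θ := by
  unfold al
  exact (intervalIntegral.integral_hasDerivAt_right (t1_gcont.intervalIntegrable _ _)
    (t1_gcont.stronglyMeasurableAtFilter _ _) t1_gcont.continuousAt).const_mul _

lemma t1_r_pos : 0 < Real.sqrt (2 / Real.pi) := Real.sqrt_pos.mpr (by positivity)

lemma t1_r_le : Real.sqrt (2 / Real.pi) ≤ 1 := by
  rw [Real.sqrt_le_one]
  rw [div_le_one Real.pi_pos]
  linarith [Real.pi_gt_three]

lemma t1_r_sq : Real.sqrt (2 / Real.pi) ^ 2 = 2 / Real.pi := Real.sq_sqrt (by positivity)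

lemma t1_exp_deriv (θ : ℝ) :
    HasDerivAt (fun x : ℝ => Real.exp (-x ^ 2 / 2)) (Real.exp (-θ ^ 2 / 2) * (-θ)) θ := by
  have h : HasDerivAt (fun x : ℝ => -x ^ 2 / 2) (-θ) θ := by
    have := ((hasDerivAt_pow 2 θ).neg).div_const 2
    refine this.congr_deriv ?_
    push_cast
    ring
  exact h.exp

lemma t1_exp_deriv2 (θ : ℝ) :
    HasDerivAt (fun x : ℝ => Real.exp (-x ^ 2)) (Real.exp (-θ ^ 2) * (-(2 * θ))) θ := by
  have h : HasDerivAt (fun x : ℝ => -x ^ 2) (-(2 * θ)) θ := by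
    have := ((hasDerivAt_pow 2 θ).neg)
    refine this.congr_deriv ?_
    push_cast
    ring
  exact h.exp

lemma t1_H_deriv (θ : ℝ) :
    HasDerivAt (fun x : ℝ => x * al x + Real.sqrt (2 / Real.pi) * Real.exp (-x ^ 2 / 2))
      (al θ) θ := by
  have h1 := (hasDerivAt_id θ).mul (t1_al_deriv θ)
  have h2 := (t1_exp_deriv θ).const_mul (Real.sqrt (2 / Real.pi))
  have h3 := h1.add h2
  refine h3.congr_deriv ?_
  simp only [id]
  ring

lemma t1_al_lip (x y : ℝ) : |al y - al x| ≤ |y - x| := by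
  have h : al y - al x = Real.sqrt (2 / Real.pi) * ∫ t in x..y, Real.exp (-t ^ 2 / 2) := by
    unfold al
    rw [← mul_sub, intervalIntegral.integral_interval_sub_left
      (t1_gcont.intervalIntegrable _ _) (t1_gcont.intervalIntegrable _ _)]
  rw [h, abs_mul, abs_of_pos t1_r_pos]
  have h2 : ‖∫ t in x..y, Real.exp (-t ^ 2 / 2)‖ ≤ 1 * |y - x| := by
    apply intervalIntegral.norm_integral_le_of_norm_le_const
    intro t _
    rw [Real.norm_eq_abs, abs_of_pos (Real.exp_pos _)]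
    rw [Real.exp_le_one_iff]
    nlinarith [sq_nonneg t]
  rw [Real.norm_eq_abs, one_mul] at h2
  calc Real.sqrt (2 / Real.pi) * |∫ t in x..y, Real.exp (-t ^ 2 / 2)|
      ≤ 1 * |∫ t in x..y, Real.exp (-t ^ 2 / 2)| :=
        mul_le_mul_of_nonneg_right t1_r_le (abs_nonneg _)
    _ ≤ |y - x| := by rw [one_mul]; exact h2

lemma t1_one_sub_cos (θ : ℝ) {t : ℝ} (ht : t ≠ 0) :
    (1 - Real.cos (θ * t)) / t ^ 2 = ∫ y in (0 : ℝ)..θ, (θ - y) * Real.cos (y * t) := by
  have hd : ∀ y ∈ Set.uIcc (0 : ℝ) θ, HasDerivAt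
      (fun y : ℝ => (θ - y) * (Real.sin (y * t) / t) - Real.cos (y * t) / t ^ 2)
      ((θ - y) * Real.cos (y * t)) y := by
    intro y _
    have hl : HasDerivAt (fun y : ℝ => y * t) t y := by
      simpa using (hasDerivAt_id y).mul_const t
    have h1 : HasDerivAt (fun y : ℝ => θ - y) (-1) y := by
      simpa using (hasDerivAt_id y).const_sub θ
    have h2 : HasDerivAt (fun y : ℝ => Real.sin (y * t) / t) (Real.cos (y * t) * t / t) y :=
      (hl.sin).div_const t
    have h3 : HasDerivAt (fun y : ℝ => Real.cos (y * t) / t ^ 2)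
      (-Real.sin (y * t) * t / t ^ 2) y := (hl.cos).div_const _
    have h4 := (h1.mul h2).sub h3
    refine h4.congr_deriv ?_
    field_simp
    ring
  rw [intervalIntegral.integral_eq_sub_of_hasDerivAt hd
    ((by fun_prop : Continuous fun y : ℝ => (θ - y) * Real.cos (y * t)).intervalIntegrable _ _)]
  simp
  ring

lemma t1_cos_gauss (y : ℝ) :
    ∫ t in Set.Ioi (0 : ℝ), Real.cos (y * t) * Real.exp (-t ^ 2 / 2) =
      Real.sqrt (Real.pi / 2) * Real.exp (-y ^ 2 / 2) := by
  have h1 := integral_comp_abs (f := fun t : ℝ => Real.cos (y * t) * Real.exp (-t ^ 2 / 2))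
  have h2 : (fun t : ℝ => (fun t : ℝ => Real.cos (y * t) * Real.exp (-t ^ 2 / 2)) |t|) =
      fun t : ℝ => Real.cos (y * t) * Real.exp (-t ^ 2 / 2) := by
    funext t
    simp only [sq_abs]
    rcases abs_cases t with ⟨h, _⟩ | ⟨h, _⟩
    · rw [h]
    · rw [h, mul_neg, Real.cos_neg]
  rw [h2] at h1
  have h3 := fourierIntegral_gaussian (b := (1 / 2 : ℂ)) (by norm_num) (y : ℂ)
  have h4 : ∀ x : ℝ, Complex.exp (Complex.I * y * x) * Complex.exp (-(1 / 2 : ℂ) * x ^ 2) =
      ((Real.cos (y * x) * Real.exp (-x ^ 2 / 2) : ℝ) : ℂ) +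
        ((Real.sin (y * x) * Real.exp (-x ^ 2 / 2) : ℝ) : ℂ) * Complex.I := by
    intro x
    have e1 : Complex.exp (-(1 / 2 : ℂ) * x ^ 2) = ((Real.exp (-x ^ 2 / 2) : ℝ) : ℂ) := by
      rw [Complex.ofReal_exp]
      congr 1
      push_cast
      ring
    have e2 : Complex.exp (Complex.I * y * x) =
        ((Real.cos (y * x) : ℝ) : ℂ) + ((Real.sin (y * x) : ℝ) : ℂ) * Complex.I := by
      rw [show Complex.I * y * x = ((y * x : ℝ) : ℂ) * Complex.I by push_cast; ring,
        Complex.exp_mul_I, Complex.ofReal_cos, Complex.ofReal_sin]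
    rw [e1, e2]
    push_cast
    ring
  have hint : Integrable (fun x : ℝ => Real.exp (-x ^ 2 / 2)) := by
    have := integrable_exp_neg_mul_sq (b := (1 / 2 : ℝ)) (by norm_num)
    refine this.congr (Filter.Eventually.of_forall fun x => ?_)
    simp only
    congr 1
    ring
  have hc : Integrable (fun x : ℝ => Real.cos (y * x) * Real.exp (-x ^ 2 / 2)) := by
    refine hint.mono' (by fun_prop : Continuous fun x : ℝ => Real.cos (y * x) *
      Real.exp (-x ^ 2 / 2)).aestronglyMeasurable (Filter.Eventually.of_forall fun x => ?_)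
    rw [Real.norm_eq_abs, abs_mul, abs_of_pos (Real.exp_pos _)]
    exact mul_le_of_le_one_left (Real.exp_pos _).le (Real.abs_cos_le_one _)
  have hs : Integrable (fun x : ℝ => Real.sin (y * x) * Real.exp (-x ^ 2 / 2)) := by
    refine hint.mono' (by fun_prop : Continuous fun x : ℝ => Real.sin (y * x) *
      Real.exp (-x ^ 2 / 2)).aestronglyMeasurable (Filter.Eventually.of_forall fun x => ?_)
    rw [Real.norm_eq_abs, abs_mul, abs_of_pos (Real.exp_pos _)]
    exact mul_le_of_le_one_left (Real.exp_pos _).le (Real.abs_sin_le_one _)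
  simp only [h4] at h3
  rw [integral_add hc.ofReal (hs.ofReal.mul_const _), integral_mul_const, integral_complex_ofReal,
    integral_complex_ofReal] at h3
  have e3 : ((Real.pi : ℂ) / (1 / 2 : ℂ)) ^ (1 / 2 : ℂ) = ((Real.sqrt (2 * Real.pi) : ℝ) : ℂ) := by
    rw [Real.sqrt_eq_rpow, Complex.ofReal_cpow (by positivity)]
    congr 1
    · push_cast
      ring
    · push_cast
      ring
  have e4 : Complex.exp (-(y : ℂ) ^ 2 / (4 * (1 / 2 : ℂ))) = ((Real.exp (-y ^ 2 / 2) : ℝ) : ℂ) := by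
    rw [Complex.ofReal_exp]
    congr 1
    push_cast
    ring
  rw [e3, e4] at h3
  have h5 := congrArg Complex.re h3
  simp only [Complex.add_re, Complex.ofReal_re, Complex.mul_re, Complex.I_re, mul_zero,
    Complex.ofReal_im, Complex.I_im, mul_one, sub_zero, add_zero, sub_self] at h5
  rw [h5] at h1
  have h6 : Real.sqrt (2 * Real.pi) = 2 * Real.sqrt (Real.pi / 2) := by
    rw [show 2 * Real.pi = 2 ^ 2 * (Real.pi / 2) by ring, Real.sqrt_mul (by norm_num),
      Real.sqrt_sq (by norm_num)]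
  rw [h6] at h1
  linarith

lemma t1_int1 (θ : ℝ) :
    ∫ y in (0 : ℝ)..θ, (θ - y) * Real.exp (-y ^ 2 / 2) =
      θ * (∫ y in (0 : ℝ)..θ, Real.exp (-y ^ 2 / 2)) - (1 - Real.exp (-θ ^ 2 / 2)) := by
  have h1 : ∫ y in (0 : ℝ)..θ, y * Real.exp (-y ^ 2 / 2) = 1 - Real.exp (-θ ^ 2 / 2) := by
    have hd : ∀ y ∈ Set.uIcc (0 : ℝ) θ, HasDerivAt (fun y : ℝ => -Real.exp (-y ^ 2 / 2))
        (y * Real.exp (-y ^ 2 / 2)) y := by
      intro y _
      have := (t1_exp_deriv y).neg
      refine this.congr_deriv ?_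
      ring
    rw [intervalIntegral.integral_eq_sub_of_hasDerivAt hd
      ((by fun_prop : Continuous fun y : ℝ => y * Real.exp (-y ^ 2 / 2)).intervalIntegrable _ _)]
    simp
    ring
  simp only [sub_mul]
  rw [intervalIntegral.integral_sub, h1, intervalIntegral.integral_const_mul]
  · exact (by fun_prop : Continuous fun y : ℝ => θ * Real.exp (-y ^ 2 / 2)).intervalIntegrable _ _
  · exact (by fun_prop : Continuous fun y : ℝ => y * Real.exp (-y ^ 2 / 2)).intervalIntegrable _ _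

lemma t1_J (θ : ℝ) :
    IntegrableOn (fun t : ℝ => (1 - Real.cos (θ * t)) / t ^ 2 * Real.exp (-t ^ 2 / 2))
      (Set.Ioi 0) ∧
    ∫ t in Set.Ioi (0 : ℝ), (1 - Real.cos (θ * t)) / t ^ 2 * Real.exp (-t ^ 2 / 2) =
      Real.sqrt (Real.pi / 2) * ∫ y in (0 : ℝ)..θ, (θ - y) * Real.exp (-y ^ 2 / 2) := by
  have hint := integral_gauss0.1
  constructor
  · refine Integrable.mono' (hint.const_mul (θ ^ 2 / 2)) ?_ ?_
    · apply Measurable.aestronglyMeasurable
      fun_prop
    · refine (ae_restrict_iff' measurableSet_Ioi).mpr (Filter.Eventually.of_forall fun t ht => ?_)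
      have ht' : (0 : ℝ) < t := ht
      have h1 := Real.one_sub_sq_div_two_le_cos (x := θ * t)
      have h2 := Real.cos_le_one (θ * t)
      rw [Real.norm_eq_abs, abs_mul, abs_of_pos (Real.exp_pos _), abs_of_nonneg (by
        apply div_nonneg <;> nlinarith [sq_nonneg t])]
      apply mul_le_mul_of_nonneg_right _ (Real.exp_pos _).le
      rw [div_le_iff₀ (by positivity)]
      nlinarith
  · have h1 : ∫ t in Set.Ioi (0 : ℝ), (1 - Real.cos (θ * t)) / t ^ 2 * Real.exp (-t ^ 2 / 2) =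
        ∫ t in Set.Ioi (0 : ℝ), ∫ y in (0 : ℝ)..θ,
          (θ - y) * (Real.cos (y * t) * Real.exp (-t ^ 2 / 2)) := by
      refine setIntegral_congr_fun measurableSet_Ioi fun t ht => ?_
      have ht' : (0 : ℝ) < t := ht
      rw [t1_one_sub_cos θ ht'.ne', ← intervalIntegral.integral_mul_const]
      congr 1
      funext y
      ring
    rw [h1, ← intervalIntegral_integral_swap]
    · rw [← intervalIntegral.integral_const_mul]
      congr 1
      funext y
      rw [integral_const_mul, t1_cos_gauss]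
      ring
    · have hf : Integrable (fun y : ℝ => θ - y) (volume.restrict (Set.uIoc 0 θ)) := by
        have h := (by fun_prop : Continuous fun y : ℝ => θ - y).intervalIntegrable 0 θ
          (μ := volume)
        exact intervalIntegrable_iff.mp h
      have hg := hf.norm.mul_prod hint
      refine hg.mono' ?_ (Filter.Eventually.of_forall fun p => ?_)
      · apply Continuous.aestronglyMeasurable
        unfold Function.uncurry
        fun_prop
      · simp only [Function.uncurry]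
        rw [Real.norm_eq_abs, abs_mul, abs_mul, abs_of_pos (Real.exp_pos _), Real.norm_eq_abs]
        apply mul_le_mul_of_nonneg_left _ (abs_nonneg _)
        exact mul_le_of_le_one_left (Real.exp_pos _).le (Real.abs_cos_le_one _)

/-- ROW REG-T1 (three statements).  `E|G + θ| = θ (2Φ(θ) - 1) + 2φ(θ)` in Fourier form.

PROOF.  `1 - cos (θt) e^{-t²/2} = (1 - e^{-t²/2}) + e^{-t²/2} (1 - cos (θt))`, and for `t ≠ 0`
`(1 - cos (θt))/t² = ∫_0^θ (θ - y) cos (y t) dy`.  By Fubini (the integrand is bounded by `|θ-y| e^{-t²/2}`) and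
`∫_0^∞ e^{-t²/2} cos (yt) dt = √(π/2) e^{-y²/2}` (Fourier transform of the Gaussian, cf. `gauss_kernel`), with
`integral_gauss_sub` (A3): `∫_0^∞ .. = √(π/2) (1 + ∫_0^θ (θ-y) e^{-y²/2} dy) = √(π/2)(1 + θ ∫_0^θ e^{-y²/2} dy - (1 - e^{-θ²/2}))`.
Multiply by `2/π`. -/
theorem gauss_abs (θ : ℝ) :
    IntegrableOn (fun t : ℝ => (1 - Real.cos (θ * t) * Real.exp (-t ^ 2 / 2)) / t ^ 2) (Set.Ioi 0) ∧
    (2 / Real.pi) * ∫ t in Set.Ioi (0 : ℝ), (1 - Real.cos (θ * t) * Real.exp (-t ^ 2 / 2)) / t ^ 2 =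
      θ * al θ + Real.sqrt (2 / Real.pi) * Real.exp (-θ ^ 2 / 2) := by
  have h0 : (fun t : ℝ => (1 - Real.cos (θ * t) * Real.exp (-t ^ 2 / 2)) / t ^ 2) =
      fun t : ℝ => (1 - Real.exp (-t ^ 2 / 2)) / t ^ 2 +
        (1 - Real.cos (θ * t)) / t ^ 2 * Real.exp (-t ^ 2 / 2) := by
    funext t
    ring
  obtain ⟨hJ1, hJ2⟩ := t1_J θ
  rw [h0]
  refine ⟨integral_gauss_sub.1.add hJ1, ?_⟩
  rw [integral_add integral_gauss_sub.1 hJ1, hJ2, integral_gauss_sub.2, t1_int1]
  have h1 : Real.sqrt (2 / Real.pi) = 2 / Real.pi * Real.sqrt (Real.pi / 2) := by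
    rw [show (2 / Real.pi) = (2 / Real.pi) ^ 2 * (Real.pi / 2) by field_simp, Real.sqrt_mul (by positivity),
      Real.sqrt_sq (by positivity)]
    congr 1
    field_simp
  unfold al
  rw [h1]
  ring

/-- PROOF.  With `H θ = θ al θ + √(2/π) e^{-θ²/2}`: `H' = al`, and `al' = √(2/π) e^{-θ²/2} ∈ [0, 4/5]`; so
`|H (θ+y) - H θ - y al θ| ≤ (4/5) y²/2 ≤ y²/2`. -/
theorem gauss_abs_taylor (θ y : ℝ) :
    |((θ + y) * al (θ + y) + Real.sqrt (2 / Real.pi) * Real.exp (-(θ + y) ^ 2 / 2)) -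
      (θ * al θ + Real.sqrt (2 / Real.pi) * Real.exp (-θ ^ 2 / 2)) - y * al θ| ≤ y ^ 2 / 2 := by
  set H : ℝ → ℝ := fun x => x * al x + Real.sqrt (2 / Real.pi) * Real.exp (-x ^ 2 / 2) with hH
  have hHd : ∀ x, HasDerivAt H (al x) x := t1_H_deriv
  have key : ∀ σ : ℝ, |σ| = 1 → 0 ≤ y ^ 2 / 2 + σ * (H (θ + y) - H θ - y * al θ) := by
    intro σ hσ
    set K : ℝ → ℝ := fun t => t ^ 2 / 2 + σ * (H (θ + t) - H θ - t * al θ) with hK
    have hKd : ∀ t, HasDerivAt K (t + σ * (al (θ + t) - al θ)) t := by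
      intro t
      have h1 : HasDerivAt (fun t : ℝ => t ^ 2 / 2) t t := by
        have := (hasDerivAt_pow 2 t).div_const 2
        refine this.congr_deriv ?_
        push_cast
        ring
      have h2 : HasDerivAt (fun t : ℝ => H (θ + t)) (al (θ + t)) t := by
        have := (hHd (θ + t)).comp_const_add θ t
        exact this
      have h3 : HasDerivAt (fun t : ℝ => t * al θ) (al θ) t := by
        simpa using (hasDerivAt_id t).mul_const (al θ)
      exact h1.add (((h2.sub_const (H θ)).sub h3).const_mul σ)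
    have hb : ∀ t, |σ * (al (θ + t) - al θ)| ≤ |t| := by
      intro t
      rw [abs_mul, hσ, one_mul]
      have := t1_al_lip θ (θ + t)
      simpa using this
    have hK0 : K 0 = 0 := by simp [hK]
    have hcont : Continuous K := by
      rw [continuous_iff_continuousAt]
      exact fun t => (hKd t).continuousAt
    rcases le_total 0 y with hy | hy
    · have hm : MonotoneOn K (Set.Ici 0) := by
        apply monotoneOn_of_deriv_nonneg (convex_Ici 0) hcont.continuousOn
        · exact fun t _ => (hKd t).differentiableAt.differentiableWithinAt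
        · intro t ht
          rw [interior_Ici] at ht
          have ht' : (0 : ℝ) < t := ht
          rw [(hKd t).deriv]
          have := hb t
          rw [abs_of_pos ht'] at this
          linarith [(abs_le.mp this).1]
      have := hm (Set.mem_Ici.mpr le_rfl) (Set.mem_Ici.mpr hy) hy
      rw [hK0] at this
      exact this
    · have hm : AntitoneOn K (Set.Iic 0) := by
        apply antitoneOn_of_deriv_nonpos (convex_Iic 0) hcont.continuousOn
        · exact fun t _ => (hKd t).differentiableAt.differentiableWithinAt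
        · intro t ht
          rw [interior_Iic] at ht
          have ht' : t < (0 : ℝ) := ht
          rw [(hKd t).deriv]
          have := hb t
          rw [abs_of_neg ht'] at this
          linarith [(abs_le.mp this).2]
      have := hm (Set.mem_Iic.mpr hy) (Set.mem_Iic.mpr le_rfl) hy
      rw [hK0] at this
      exact this
  have k1 := key 1 (by simp)
  have k2 := key (-1) (by simp)
  change |H (θ + y) - H θ - y * al θ| ≤ y ^ 2 / 2
  rw [abs_le]
  constructor <;> linarith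

/-- PROOF.  `Ω θ = al θ ² + (2/π) e^{-θ²}`, `Ω 0 = 2/π`, `Ω' θ = 2 √(2/π) e^{-θ²/2} (al θ - θ √(2/π) e^{-θ²/2})` and
`al θ - θ √(2/π) e^{-θ²/2} = √(2/π) ∫_0^θ (e^{-y²/2} - e^{-θ²/2}) dy > 0` for `θ > 0`.  So `Ω` is strictly increasing on
`[0, ∞)`; take `c = Ω θ₀ - 2/π`. -/
theorem omega_gap {θ₀ : ℝ} (hθ₀ : 0 < θ₀) :
    ∃ c : ℝ, 0 < c ∧ ∀ θ, θ₀ ≤ θ → 2 / Real.pi + c ≤ al θ ^ 2 + (2 / Real.pi) * Real.exp (-θ ^ 2) := by
  set r := Real.sqrt (2 / Real.pi) with hr
  have hal0 : al 0 = 0 := by simp [al]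
  have hMd : ∀ θ, HasDerivAt (fun x : ℝ => al x - x * (r * Real.exp (-x ^ 2 / 2)))
      (r * (θ ^ 2 * Real.exp (-θ ^ 2 / 2))) θ := by
    intro θ
    have h1 := (hasDerivAt_id θ).mul ((t1_exp_deriv θ).const_mul r)
    have h2 := (t1_al_deriv θ).sub h1
    refine h2.congr_deriv ?_
    simp only [id]
    rw [← hr]
    ring
  have hM : ∀ θ, 0 < θ → 0 < al θ - θ * (r * Real.exp (-θ ^ 2 / 2)) := by
    intro θ hθ
    have hmono : StrictMonoOn (fun x : ℝ => al x - x * (r * Real.exp (-x ^ 2 / 2))) (Set.Ici 0) := by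
      apply strictMonoOn_of_deriv_pos (convex_Ici 0)
      · exact fun t _ => (hMd t).continuousAt.continuousWithinAt
      · intro t ht
        rw [interior_Ici] at ht
        have ht' : (0 : ℝ) < t := ht
        rw [(hMd t).deriv]
        have := t1_r_pos
        positivity
    have := hmono (Set.mem_Ici.mpr le_rfl) (Set.mem_Ici.mpr hθ.le) hθ
    simpa [hal0] using this
  have hΩd : ∀ θ, HasDerivAt (fun x : ℝ => al x ^ 2 + (2 / Real.pi) * Real.exp (-x ^ 2))
      (2 * r * Real.exp (-θ ^ 2 / 2) * (al θ - θ * (r * Real.exp (-θ ^ 2 / 2)))) θ := by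
    intro θ
    have h1 := ((t1_al_deriv θ).pow 2).add ((t1_exp_deriv2 θ).const_mul (2 / Real.pi))
    refine h1.congr_deriv ?_
    have e1 : Real.exp (-θ ^ 2) = Real.exp (-θ ^ 2 / 2) ^ 2 := by
      rw [← Real.exp_nat_mul]
      congr 1
      push_cast
      ring
    have e2 : 2 / Real.pi = r ^ 2 := t1_r_sq.symm
    rw [← hr, e1, e2]
    push_cast
    ring
  have hmono : StrictMonoOn (fun x : ℝ => al x ^ 2 + (2 / Real.pi) * Real.exp (-x ^ 2))
      (Set.Ici 0) := by
    apply strictMonoOn_of_deriv_pos (convex_Ici 0)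
    · exact fun t _ => (hΩd t).continuousAt.continuousWithinAt
    · intro t ht
      rw [interior_Ici] at ht
      have ht' : (0 : ℝ) < t := ht
      rw [(hΩd t).deriv]
      have h1 := t1_r_pos
      have h2 := hM t ht'
      positivity
  refine ⟨(al θ₀ ^ 2 + (2 / Real.pi) * Real.exp (-θ₀ ^ 2)) - 2 / Real.pi, ?_, ?_⟩
  · have := hmono (Set.mem_Ici.mpr le_rfl) (Set.mem_Ici.mpr hθ₀.le) hθ₀
    simp only [hal0] at this
    norm_num at this
    linarith
  · intro θ hθ
    have := hmono.monotoneOn (Set.mem_Ici.mpr hθ₀.le) (Set.mem_Ici.mpr (hθ₀.le.trans hθ)) hθ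
    linarith

end Pool.Agent.MP_cb3c9c_an.REG
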