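import Pool.Agent.MP_cb3c9c_an.REG.F4
import Pool.Agent.MP_cb3c9c_an.REG.T1

set_option autoImplicit false

open Finset MeasureTheory
open scoped BigOperators

namespace Pool.Agent.MP_cb3c9c_an.REG

open Pool.Agent.MP_cb3c9c_an.TwoBlock

variable {n : ℕ}

/-- ROW REG-T2 (two statements).

PROOF.  By `Ex_abs_formula` (A2), `gauss_abs` (T1) and `diff_integral` (F4) (`|cos| ≤ 1`): the difference is at most
`(2/π) ∫_0^∞ |PP a t - e^{-t²/2}|/t² ≤ (2/π) 10 κ ≤ 7κ`. -/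
theorem abs_theta_close {a : Fin n → ℝ} {δ : ℝ} (h : Reg a δ) (hδ : δ ≤ 1 / 10 ^ 8) (θ : ℝ) :
    |Ex (fun x => |lf a x + θ|) -
      (θ * al θ + Real.sqrt (2 / Real.pi) * Real.exp (-θ ^ 2 / 2))| ≤ 7 * kap a := by
  obtain ⟨i1, e1⟩ := Ex_abs_formula a θ
  obtain ⟨i2, e2⟩ := gauss_abs θ
  obtain ⟨i3, e3⟩ := diff_integral h hδ
  have hpi := Real.pi_gt_three
  have hk := h.kap_pos
  rw [e1, ← e2, ← mul_sub, ← integral_sub i1 i2, abs_mul, abs_of_pos (by positivity)]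
  have h1 : |∫ t in Set.Ioi (0 : ℝ), ((1 - Real.cos (θ * t) * PP a t) / t ^ 2 -
      (1 - Real.cos (θ * t) * Real.exp (-t ^ 2 / 2)) / t ^ 2)| ≤
      ∫ t in Set.Ioi (0 : ℝ), |PP a t - Real.exp (-t ^ 2 / 2)| / t ^ 2 := by
    refine (abs_integral_le_integral_abs).trans ?_
    refine integral_mono (i1.sub i2).abs i3 fun t => ?_
    have e4 : (1 - Real.cos (θ * t) * PP a t) / t ^ 2 -
        (1 - Real.cos (θ * t) * Real.exp (-t ^ 2 / 2)) / t ^ 2 =
        -(Real.cos (θ * t) * (PP a t - Real.exp (-t ^ 2 / 2))) / t ^ 2 := by ring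
    show |(1 - Real.cos (θ * t) * PP a t) / t ^ 2 -
        (1 - Real.cos (θ * t) * Real.exp (-t ^ 2 / 2)) / t ^ 2| ≤ _
    rw [e4, abs_div, abs_neg, abs_mul, abs_of_nonneg (sq_nonneg t)]
    apply div_le_div_of_nonneg_right _ (sq_nonneg t)
    exact mul_le_of_le_one_left (abs_nonneg _) (Real.abs_cos_le_one _)
  have h2 := h1.trans e3
  have h3 : 2 / Real.pi ≤ 2 / 3 := by
    apply div_le_div_of_nonneg_left (by norm_num) (by norm_num) hpi.le
  calc 2 / Real.pi * |∫ t in Set.Ioi (0 : ℝ), ((1 - Real.cos (θ * t) * PP a t) / t ^ 2 -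
      (1 - Real.cos (θ * t) * Real.exp (-t ^ 2 / 2)) / t ^ 2)|
      ≤ 2 / 3 * (10 * kap a) := by gcongr
    _ ≤ 7 * kap a := by linarith

lemma t2_abs_sg {u : ℝ} : |sg u| ≤ 1 := by
  rcases lt_trichotomy u 0 with h | h | h
  · rw [sg_neg' h]; norm_num
  · rw [h, sg_zero]; norm_num
  · rw [sg_pos h]; norm_num

lemma t2_sg_mul (u : ℝ) : sg u * u = |u| := by
  rcases lt_trichotomy u 0 with h | h | h
  · rw [sg_neg' h, abs_of_neg h]; ring
  · rw [h, sg_zero]; simp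
  · rw [sg_pos h, abs_of_pos h]; ring

lemma t2_convex {u : ℝ} (y : ℝ) : |u| + y * sg u ≤ |u + y| := by
  rcases lt_trichotomy u 0 with h | h | h
  · rw [sg_neg' h, abs_of_neg h]
    have := neg_le_abs (u + y)
    linarith
  · rw [h, sg_zero]
    simp
  · rw [sg_pos h, abs_of_pos h]
    have := le_abs_self (u + y)
    linarith

lemma t2_conv (a : Fin n → ℝ) (θ y : ℝ) :
    Ex (fun x => |lf a x + θ|) + y * Ex (fun x => sg (lf a x + θ)) ≤
      Ex (fun x => |lf a x + (θ + y)|) := by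
  rw [← Ex_mul, ← Ex_add]
  apply Ex_mono
  intro x
  have := t2_convex (u := lf a x + θ) y
  rw [add_assoc] at this
  exact this

/-- PROOF.  `h θ = Ex |lf a x + θ|`, `H θ` the Gaussian expression, `p = Ex sg (lf a x + θ)`, `κ = kap a`.
`|u + y| ≥ |u| + y sg u` for `u ≠ 0`, so `h (θ+y) ≥ h θ + y p` for all real `y`.  With `y = ±6√κ`, `|h - H| ≤ 7κ` and
`gauss_abs_taylor`: `p ≤ al θ + y/2 + 14κ/y ≤ al θ + 3√κ + 2.4√κ ≤ al θ + 6√κ`, and `p ≥ al θ - 6√κ` similarly.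
`q = Ex [sg (lf a x + θ) lf a x] = h θ - θ p`, so `|q - √(2/π) e^{-θ²/2}| ≤ 7κ + 6θ√κ ≤ 61 √κ` (`0 ≤ θ ≤ 10`, `κ ≤ √κ/10`).
`p² ≥ al² - 12√κ` (`0 ≤ al θ ≤ 1`), `q² ≥ (2/π) e^{-θ²} - 2·61·√κ`.  Sum `≥ Ω - 200√κ`. -/
theorem weight_theta {a : Fin n → ℝ} {δ : ℝ} (h : Reg a δ) (hδ : δ ≤ 1 / 10 ^ 8) {θ : ℝ}
    (hθ : 0 ≤ θ) (hθ1 : θ ≤ 10) (hne : ∀ x, lf a x + θ ≠ 0) :
    al θ ^ 2 + (2 / Real.pi) * Real.exp (-θ ^ 2) - 200 * Real.sqrt (kap a) ≤
      (Ex fun x => sg (lf a x + θ)) ^ 2 + (Ex fun x => sg (lf a x + θ) * lf a x) ^ 2 := by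
  have hpi := Real.pi_gt_three
  set r : ℝ := Real.sqrt (kap a) with hr
  have hr0 : 0 < r := h.sqrt_kap_pos
  have hrr : kap a = r ^ 2 := (Real.sq_sqrt h.kap_pos.le).symm
  have hr1 : r ≤ 1 / 10 ^ 8 := h.sqrt_kap_le.trans hδ
  set p : ℝ := Ex fun x => sg (lf a x + θ) with hp
  have hp1 : |p| ≤ 1 := Ex_bound fun x => t2_abs_sg
  have c0 := abs_le.1 (abs_theta_close h hδ θ)
  have cp := abs_le.1 (abs_theta_close h hδ (θ + 6 * r))
  have cm := abs_le.1 (abs_theta_close h hδ (θ + -(6 * r)))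
  have tp := abs_le.1 (gauss_abs_taylor θ (6 * r))
  have tm := abs_le.1 (gauss_abs_taylor θ (-(6 * r)))
  have vp := t2_conv a θ (6 * r)
  have vm := t2_conv a θ (-(6 * r))
  rw [← hp] at vp vm
  rw [hrr] at c0 cp cm
  have hr2 : 0 < r ^ 2 := by positivity
  have u1 : (6 * r) * (p - al θ) ≤ (6 * r) * (6 * r) := by
    have g1 := cp.2
    have g2 := tp.2
    have g3 := c0.1
    linarith
  have u2 : (6 * r) * (al θ - p) ≤ (6 * r) * (6 * r) := by
    have g1 := cm.2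
    have g2 := tm.2
    have g3 := c0.1
    linarith
  have u3 : p - al θ ≤ 6 * r := le_of_mul_le_mul_left u1 (by positivity)
  have u4 : al θ - p ≤ 6 * r := le_of_mul_le_mul_left u2 (by positivity)
  have hq : Ex (fun x => sg (lf a x + θ) * lf a x) = Ex (fun x => |lf a x + θ|) - θ * p := by
    rw [hp, ← Ex_mul, ← Ex_sub]
    congr 1
    funext x
    rw [← t2_sg_mul]
    ring
  set q : ℝ := Ex fun x => sg (lf a x + θ) * lf a x with hqdef
  set Q : ℝ := Real.sqrt (2 / Real.pi) * Real.exp (-θ ^ 2 / 2) with hQ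
  have hQ0 : 0 ≤ Q := by positivity
  have hQ1 : Q ≤ 1 := by
    have e1 : Real.sqrt (2 / Real.pi) ≤ 1 := by
      rw [Real.sqrt_le_left (by norm_num), one_pow, div_le_one (by positivity)]
      linarith
    have e2 : Real.exp (-θ ^ 2 / 2) ≤ 1 := by
      rw [Real.exp_le_one_iff]
      nlinarith [sq_nonneg θ]
    exact mul_le_one₀ e1 (Real.exp_pos _).le e2
  have hQ2 : Q ^ 2 = (2 / Real.pi) * Real.exp (-θ ^ 2) := by
    rw [hQ, mul_pow, Real.sq_sqrt (by positivity), ← Real.exp_nat_mul]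
    congr 2
    push_cast
    ring
  have w1 : θ * (p - al θ) ≤ 60 * r := by
    calc θ * (p - al θ) ≤ θ * (6 * r) := mul_le_mul_of_nonneg_left u3 hθ
      _ ≤ 10 * (6 * r) := mul_le_mul_of_nonneg_right hθ1 (by positivity)
      _ = 60 * r := by ring
  have w2 : θ * (al θ - p) ≤ 60 * r := by
    calc θ * (al θ - p) ≤ θ * (6 * r) := mul_le_mul_of_nonneg_left u4 hθ
      _ ≤ 10 * (6 * r) := mul_le_mul_of_nonneg_right hθ1 (by positivity)
      _ = 60 * r := by ring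
  have w3 : 7 * r ^ 2 ≤ r := by
    have : r * r ≤ 1 / 7 * r := mul_le_mul_of_nonneg_right (by linarith) hr0.le
    rw [sq]
    linarith
  clear cp cm tp tm vp vm u1 u2
  have q1 : Q - 61 * r ≤ q := by
    rw [hq]
    linarith [c0.1]
  have a1 : |al θ| ≤ 2 := by
    have h1 := abs_le.1 hp1
    rw [abs_le]
    constructor <;> linarith [h1.1, h1.2]
  have a2 := abs_le.1 a1
  rw [← hQ2]
  have f1 : al θ ^ 2 - 24 * r ≤ p ^ 2 := by
    have h0 : |al θ - p| ≤ 6 * r := by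
      rw [abs_le]
      constructor <;> linarith
    have h1 : al θ * (al θ - p) ≤ 12 * r := by
      calc al θ * (al θ - p) ≤ |al θ * (al θ - p)| := le_abs_self _
        _ = |al θ| * |al θ - p| := abs_mul _ _
        _ ≤ 2 * (6 * r) := mul_le_mul a1 h0 (abs_nonneg _) (by norm_num)
        _ = 12 * r := by ring
    have h2 := sq_nonneg (al θ - p)
    linarith
  have f2 : Q ^ 2 - 122 * r ≤ q ^ 2 := by
    have h1 : Q * (Q - q) ≤ 61 * r := by
      calc Q * (Q - q) ≤ Q * (61 * r) := mul_le_mul_of_nonneg_left (by linarith) hQ0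
        _ ≤ 1 * (61 * r) := mul_le_mul_of_nonneg_right hQ1 (by positivity)
        _ = 61 * r := by ring
    have h2 := sq_nonneg (Q - q)
    linarith
  linarith

/-- PROOF.  Chebyshev: `P(lf a x + θ < 0) ≤ P(|lf a x| ≥ θ) ≤ 1/θ² ≤ 1/100`, so `E sg ≥ 1 - 2/100`; `0.98² ≥ 0.96`. -/
theorem weight_theta_large {a : Fin n → ℝ} (h1 : ∑ i, a i ^ 2 = 1) {θ : ℝ} (hθ : 10 ≤ θ)
    (hne : ∀ x, lf a x + θ ≠ 0) : 0.96 ≤ (Ex fun x => sg (lf a x + θ)) ^ 2 := by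
  have hpt : ∀ x : Fin n → Bool, 1 - 2 / 100 * lf a x ^ 2 ≤ sg (lf a x + θ) := by
    intro x
    rcases lt_or_gt_of_ne (hne x) with h | h
    · rw [sg_neg' h]
      nlinarith
    · rw [sg_pos h]
      nlinarith [sq_nonneg (lf a x)]
  have h2 := Ex_mono hpt
  rw [Ex_sub, Ex_const, Ex_mul, Ex_lf_sq, h1] at h2
  nlinarith

end Pool.Agent.MP_cb3c9c_an.REG
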